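import Pool.Agent.Lib.MP_06c549_co.Z.Cyc

/-!
# MP_06c549_co, Z: quadrilateral complexes

`S` is a finite set of sides of quadrilaterals (cells), `ρ` maps a side to the next side of its
cell, `A` is the set of the sides of the live cells, `g` the involution gluing sides (a side with
`g s = s` is free), `lab s` the vertex at the start corner of the side `s`; the colour of a vertex
is the parity of its label. Vertices of different fans may have the same label (pinches). The
surface without the pinches is planar, its boundary cycles are the cycles of `ρ * g`, and every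
vertex lies on the boundary (`lin`).
-/

set_option autoImplicit false
set_option linter.unusedSectionVars false

namespace Pool.Agent.Lib.MP06c549.Z

open Equiv Equiv.Perm Finset

variable {S : Type} [Fintype S] [DecidableEq S]

/-! ## Classes of a relation meeting a set -/

/-- the number of classes of `r` that meet `A` -/
noncomputable def nc (r : Setoid S) (A : Finset S) : ℕ :=
  ((fun s => (Quotient.mk r s)) '' (A : Set S)).ncard

lemma nc_image_finite (r : Setoid S) (A : Finset S) :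
    ((fun s => (Quotient.mk r s)) '' (A : Set S)).Finite := Set.toFinite _

lemma nc_le_of {r : Setoid S} {A T : Finset S} (h : ∀ s ∈ A, ∃ t ∈ T, r s t) :
    nc r A ≤ T.card := by
  unfold nc
  have h1 : ((fun s => (Quotient.mk r s)) '' (A : Set S)) ⊆
      ((fun s => (Quotient.mk r s)) '' (T : Set S)) := by
    rintro _ ⟨s, hs, rfl⟩
    obtain ⟨t, ht, hst⟩ := h s hs
    exact ⟨t, ht, Quotient.sound (r.symm hst)⟩
  refine (Set.ncard_le_ncard h1 (nc_image_finite r T)).trans ?_
  refine (Set.ncard_image_le (Set.toFinite _)).trans ?_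
  rw [Set.ncard_coe_finset]

/-- a set of representatives of the classes -/
lemma exists_rep (r : Setoid S) (A : Finset S) : ∃ T ⊆ A, T.card = nc r A ∧
    (∀ s ∈ A, ∃ t ∈ T, r s t) ∧ ∀ t ∈ T, ∀ t' ∈ T, r t t' → t = t' := by
  classical
  obtain ⟨T, hT, hb⟩ := Set.exists_subset_bijOn (A : Set S) (fun s => (Quotient.mk r s))
  refine ⟨T.toFinset, ?_, ?_, ?_, ?_⟩
  · intro s hs
    exact hT (Set.mem_toFinset.1 hs)
  · unfold nc
    rw [← hb.image_eq, hb.injOn.ncard_image, Set.ncard_eq_toFinset_card']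
  · intro s hs
    have h1 : (Quotient.mk r s) ∈ ((fun s => (Quotient.mk r s)) '' (A : Set S)) := ⟨s, hs, rfl⟩
    rw [← hb.image_eq] at h1
    obtain ⟨t, ht, hts⟩ := h1
    exact ⟨t, Set.mem_toFinset.2 ht, r.symm (Quotient.exact hts)⟩
  · intro t ht t' ht' h
    exact hb.injOn (Set.mem_toFinset.1 ht) (Set.mem_toFinset.1 ht') (Quotient.sound h)

lemma le_nc_of {r : Setoid S} {A T : Finset S} (hT : T ⊆ A)
    (h : ∀ t ∈ T, ∀ t' ∈ T, r t t' → t = t') : T.card ≤ nc r A := by
  unfold nc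
  rw [← Set.ncard_coe_finset T, ← Set.InjOn.ncard_image (f := fun s => (Quotient.mk r s))
    (s := (T : Set S)) fun t ht t' ht' htt => h t ht t' ht' (Quotient.exact htt)]
  exact Set.ncard_le_ncard (Set.image_mono (by exact_mod_cast hT)) (nc_image_finite r A)

lemma nc_empty (r : Setoid S) : nc r (∅ : Finset S) = 0 := by
  have h := nc_le_of (r := r) (A := ∅) (T := ∅) (by simp)
  simpa using h

lemma nc_pos {r : Setoid S} {A : Finset S} (h : A.Nonempty) : 0 < nc r A := by
  obtain ⟨a, ha⟩ := h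
  have h := le_nc_of (r := r) (A := A) (T := {a}) (by simpa using ha) (by simp)
  rwa [card_singleton] at h

/-- more relations, fewer classes -/
lemma nc_le_nc {r q : Setoid S} {A B : Finset S} (hAB : ∀ s ∈ A, ∃ t ∈ B, q s t)
    (h : ∀ s ∈ B, ∀ t ∈ B, r s t → q s t) : nc q A ≤ nc r B := by
  obtain ⟨T, hT, hc, h1, -⟩ := exists_rep r B
  rw [← hc]
  refine nc_le_of fun s hs => ?_
  obtain ⟨t, ht, hst⟩ := hAB s hs
  obtain ⟨t', ht', htt⟩ := h1 t ht
  exact ⟨t', ht', q.trans hst (h t ht t' (hT ht') htt)⟩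

lemma nc_congr {r q : Setoid S} {A : Finset S} (h : ∀ s ∈ A, ∀ t ∈ A, (r s t ↔ q s t)) :
    nc r A = nc q A :=
  le_antisymm (nc_le_nc (fun s hs => ⟨s, hs, r.refl s⟩) fun s hs t ht => (h s hs t ht).2)
    (nc_le_nc (fun s hs => ⟨s, hs, q.refl s⟩) fun s hs t ht => (h s hs t ht).1)

lemma nc_eq_one {r : Setoid S} {A : Finset S} (hA : A.Nonempty) (h : ∀ s ∈ A, ∀ t ∈ A, r s t) :
    nc r A = 1 := by
  obtain ⟨a, ha⟩ := hA
  refine le_antisymm ?_ (nc_pos ⟨a, ha⟩)
  have := nc_le_of (r := r) (A := A) (T := {a}) fun s hs => ⟨a, by simp, h s hs a ha⟩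
  simpa using this

lemma rel_of_nc_le_one {r : Setoid S} {A : Finset S} (h : nc r A ≤ 1) {s t : S} (hs : s ∈ A)
    (ht : t ∈ A) : r s t := by
  by_contra hst
  have h1 := le_nc_of (r := r) (A := A) (T := {s, t}) (by
    intro x hx
    rcases mem_insert.1 hx with rfl | hx
    · exact hs
    · rw [mem_singleton.1 hx]; exact ht) (by
    intro x hx y hy hxy
    simp only [mem_insert, mem_singleton] at hx hy
    rcases hx with rfl | rfl <;> rcases hy with rfl | rfl
    · rfl
    · exact absurd hxy hst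
    · exact absurd (r.symm hxy) hst
    · rfl)
  have h2 : s ≠ t := by
    rintro rfl
    exact hst (r.refl s)
  rw [card_pair h2] at h1
  omega

/-- two unrelated parts -/
lemma nc_union {r : Setoid S} {A B : Finset S} (h : ∀ s ∈ A, ∀ t ∈ B, ¬ r s t) :
    nc r (A ∪ B) = nc r A + nc r B := by
  obtain ⟨T, hT, hTc, hT1, hT2⟩ := exists_rep r A
  obtain ⟨U, hU, hUc, hU1, hU2⟩ := exists_rep r B
  have hd : Disjoint T U := disjoint_left.2 fun x hx hx' => h x (hT hx) x (hU hx') (r.refl x)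
  rw [← hTc, ← hUc, ← card_union_of_disjoint hd]
  refine le_antisymm (nc_le_of fun s hs => ?_) (le_nc_of (union_subset_union hT hU) ?_)
  · rcases mem_union.1 hs with hs | hs
    · obtain ⟨t, ht, hst⟩ := hT1 s hs
      exact ⟨t, mem_union_left _ ht, hst⟩
    · obtain ⟨t, ht, hst⟩ := hU1 s hs
      exact ⟨t, mem_union_right _ ht, hst⟩
  · intro x hx y hy hxy
    rcases mem_union.1 hx with hx | hx <;> rcases mem_union.1 hy with hy | hy
    · exact hT2 x hx y hy hxy
    · exact absurd hxy (h x (hT hx) y (hU hy))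
    · exact absurd (r.symm hxy) (h y (hT hy) x (hU hx))
    · exact hU2 x hx y hy hxy

lemma nc_union_le (r : Setoid S) (A B : Finset S) : nc r (A ∪ B) ≤ nc r A + nc r B := by
  obtain ⟨T, hT, hTc, hT1, hT2⟩ := exists_rep r A
  obtain ⟨U, hU, hUc, hU1, hU2⟩ := exists_rep r B
  rw [← hTc, ← hUc]
  refine (nc_le_of (T := T ∪ U) fun s hs => ?_).trans (card_union_le _ _)
  rcases mem_union.1 hs with hs | hs
  · obtain ⟨t, ht, hst⟩ := hT1 s hs
    exact ⟨t, mem_union_left _ ht, hst⟩
  · obtain ⟨t, ht, hst⟩ := hU1 s hs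
    exact ⟨t, mem_union_right _ ht, hst⟩

lemma nc_join {r : Setoid S} {A : Finset S} {a b : S} (ha : a ∈ A) (hb : b ∈ A) (h : ¬ r a b) :
    nc (join r a b) A + 1 = nc r A := by
  obtain ⟨T, hT, hTc, hT1, hT2⟩ := exists_rep r A
  obtain ⟨a', ha', haa⟩ := hT1 a ha
  obtain ⟨b', hb', hbb⟩ := hT1 b hb
  have hne : a' ≠ b' := fun h1 => h (r.trans haa (h1 ▸ r.symm hbb))
  have h1 : nc (join r a b) A = (T.erase b').card := by
    refine le_antisymm (nc_le_of fun s hs => ?_) (le_nc_of ((erase_subset _ _).trans hT) ?_)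
    · obtain ⟨t, ht, hst⟩ := hT1 s hs
      by_cases h2 : t = b'
      · refine ⟨a', mem_erase.2 ⟨hne, ha'⟩, ?_⟩
        exact Or.inr (Or.inr ⟨r.trans hst (h2 ▸ r.symm hbb), haa⟩)
      · exact ⟨t, mem_erase.2 ⟨h2, ht⟩, Or.inl hst⟩
    · intro x hx y hy hxy
      obtain ⟨hx1, hx2⟩ := mem_erase.1 hx
      obtain ⟨hy1, hy2⟩ := mem_erase.1 hy
      rcases hxy with h2 | ⟨h2, h3⟩ | ⟨h2, h3⟩
      · exact hT2 x hx2 y hy2 h2
      · exact absurd (hT2 b' hb' y hy2 (r.trans (r.symm hbb) h3)).symm hy1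
      · exact absurd (hT2 x hx2 b' hb' (r.trans h2 hbb)) hx1
  rw [h1, card_erase_of_mem hb', ← hTc]
  have : 0 < T.card := card_pos.2 ⟨b', hb'⟩
  omega

/-! ## Complexes -/

/-- a set of quadrilateral cells with gluings of their sides and labels of their corners -/
structure Cx (S : Type) where
  A : Finset S
  ρ : Perm S
  g : Perm S
  lab : S → ℕ
  inv : ∀ s, g (g s) = s

namespace Cx

/-- the class of complexes (two opposite corners of a cell may have the same label) -/
structure Good (X : Cx S) : Prop where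
  rho4 : ∀ s, X.ρ (X.ρ (X.ρ (X.ρ s))) = s
  rho2 : ∀ s, X.ρ (X.ρ s) ≠ s
  A_rho : ∀ s ∈ X.A, X.ρ s ∈ X.A
  A_g : ∀ s, X.g s ≠ s → s ∈ X.A
  lab_g : ∀ s, X.g s ≠ s → X.lab (X.g s) = X.lab (X.ρ s)
  par : ∀ s ∈ X.A, (X.lab s + X.lab (X.ρ s)) % 2 = 1
  lin : ∀ s, ∃ t, SameCycle (X.ρ * X.g) s t ∧ X.g t = t
  planar : Planar X.ρ X.g

/-- a degenerate cell: two equal opposite corners -/
def Deg (X : Cx S) (s : S) : Prop := X.lab (X.ρ (X.ρ s)) = X.lab s

/-- sides of one cell, and live sides with the same label, are connected -/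
def step (X : Cx S) (s t : S) : Prop := t = X.ρ s ∨ (s ∈ X.A ∧ t ∈ X.A ∧ X.lab s = X.lab t)

/-- connection (through labels) -/
def conn (X : Cx S) : Setoid S := Relation.EqvGen.setoid X.step

/-- number of components -/
noncomputable def c (X : Cx S) : ℕ := nc X.conn X.A

/-- number of cells -/
def N (X : Cx S) : ℕ := X.A.card / 4

/-- number of gates (glued pairs) -/
def E (X : Cx S) : ℕ := X.g.support.card / 2

/-- the potential -/
noncomputable def P (X : Cx S) : ℤ := 3 * (X.N : ℤ) - X.E + X.c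

/-- the free sides -/
def free (X : Cx S) : Finset S := X.A.filter fun s => X.g s = s

/-- the corners with label `v` -/
def cor (X : Cx S) (v : ℕ) : Finset S := X.A.filter fun s => X.lab s = v

/-- the sides of the cells with a corner in the set `V` of labels -/
def star (X : Cx S) (V : Finset ℕ) : Finset S :=
  X.A.filter fun s => X.lab s ∈ V ∨ X.lab (X.ρ s) ∈ V ∨ X.lab (X.ρ (X.ρ s)) ∈ V ∨
    X.lab (X.ρ (X.ρ (X.ρ s))) ∈ V

/-- number of fans at the vertex `v` -/
def fans (X : Cx S) (v : ℕ) : ℕ := (X.free.filter fun s => X.lab s = v).card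

/-- number of free sides opposite to `v` (in the cells with corner `v`) -/
def u (X : Cx S) (v : ℕ) : ℕ :=
  ((X.cor v).filter fun s => X.g (X.ρ s) = X.ρ s).card +
    ((X.cor v).filter fun s => X.g (X.ρ (X.ρ s)) = X.ρ (X.ρ s)).card

/-- hitting sets -/
def Cov (X : Cx S) (C : Finset ℕ) : Prop :=
  ∀ s ∈ X.A, X.lab s ∈ C ∨ X.lab (X.ρ s) ∈ C ∨ X.lab (X.ρ (X.ρ s)) ∈ C ∨
    X.lab (X.ρ (X.ρ (X.ρ s))) ∈ C

/-- the least size of a hitting set -/
noncomputable def tau (X : Cx S) : ℕ := sInf {n | ∃ C : Finset ℕ, X.Cov C ∧ C.card = n}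

/-- the set `V` is contained in a least hitting set -/
def Fr (X : Cx S) (V : Finset ℕ) : Prop := ∃ C : Finset ℕ, X.Cov C ∧ V ⊆ C ∧ C.card = X.tau

variable {X : Cx S}

lemma conn_rho (s : S) : X.conn s (X.ρ s) := Relation.EqvGen.rel _ _ (Or.inl rfl)

lemma conn_lab {s t : S} (hs : s ∈ X.A) (ht : t ∈ X.A) (h : X.lab s = X.lab t) : X.conn s t :=
  Relation.EqvGen.rel _ _ (Or.inr ⟨hs, ht, h⟩)

lemma conn_le {q : Setoid S} (h1 : ∀ s, q s (X.ρ s))
    (h2 : ∀ s ∈ X.A, ∀ t ∈ X.A, X.lab s = X.lab t → q s t) {s t : S} (h : X.conn s t) : q s t := by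
  have h' : Relation.EqvGen X.step s t := h
  induction h' with
  | rel x y hxy =>
    rcases hxy with rfl | ⟨hx, hy, hxy⟩
    · exact h1 x
    · exact h2 x hx y hy hxy
  | refl x => exact q.refl x
  | symm x y _ ih => exact q.symm (ih ‹_›)
  | trans x y z _ _ ih1 ih2 => exact q.trans (ih1 ‹_›) (ih2 ‹_›)

namespace Good

variable (hX : X.Good)
include hX

lemma A_rho_iff {s : S} : X.ρ s ∈ X.A ↔ s ∈ X.A := by
  refine ⟨fun h => ?_, hX.A_rho s⟩
  have h1 := hX.A_rho _ (hX.A_rho _ (hX.A_rho _ h))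
  rwa [hX.rho4] at h1

lemma g_mem {s : S} (h : X.g s ≠ s) : X.g s ∈ X.A := by
  refine hX.A_g _ ?_
  rw [X.inv s]
  exact fun h1 => h h1.symm

lemma g_mem_iff {s : S} : X.g s ∈ X.A ↔ s ∈ X.A := by
  by_cases h : X.g s = s
  · rw [h]
  · exact ⟨fun _ => hX.A_g s h, fun _ => hX.g_mem h⟩

/-- the end corner of a glued side is the start corner of its partner -/
lemma lab_g' {s : S} (h : X.g s ≠ s) : X.lab (X.ρ (X.g s)) = X.lab s := by
  have h1 := hX.lab_g (X.g s) (by rw [X.inv s]; exact fun h1 => h h1.symm)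
  rw [X.inv s] at h1
  exact h1.symm

lemma rho1 (s : S) : X.ρ s ≠ s := fun h => hX.rho2 s (by rw [h, h])

lemma rho3 (s : S) : X.ρ (X.ρ (X.ρ s)) ≠ s := by
  intro h
  have h1 := hX.rho4 s
  rw [h] at h1
  exact hX.rho1 s h1

lemma conn_g {s : S} : X.conn s (X.g s) := by
  by_cases h : X.g s = s
  · rw [h]
  · exact X.conn.trans (conn_rho s)
      (conn_lab (hX.A_rho s (hX.A_g s h)) (hX.g_mem h) (hX.lab_g s h).symm)

lemma conn_cyc {s t : S} (h : SameCycle (X.ρ * X.g) s t) : X.conn s t := by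
  refine sameCycle_le_of (q := X.conn) (fun x => ?_) h
  exact X.conn.trans hX.conn_g (conn_rho _)

lemma conn_mem {s t : S} (h : X.conn s t) : s ∈ X.A ↔ t ∈ X.A := by
  let q : Setoid S := ⟨fun s t => (s ∈ X.A ↔ t ∈ X.A),
    ⟨fun _ => Iff.rfl, fun h => h.symm, fun h1 h2 => h1.trans h2⟩⟩
  refine conn_le (q := q) (fun x => ?_) (fun x hx y hy _ => ?_) h
  · exact hX.A_rho_iff.symm
  · exact ⟨fun _ => hy, fun _ => hx⟩

end Good

/-! ## Least hitting sets -/

lemma exists_cov (X : Cx S) : ∃ C : Finset ℕ, X.Cov C ∧ C.card = X.tau := by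
  have h : {n | ∃ C : Finset ℕ, X.Cov C ∧ C.card = n}.Nonempty :=
    ⟨_, X.A.image X.lab, fun s hs => Or.inl (mem_image_of_mem _ hs), rfl⟩
  exact Nat.sInf_mem h

lemma tau_le {C : Finset ℕ} (h : X.Cov C) : X.tau ≤ C.card := Nat.sInf_le ⟨C, h, rfl⟩

lemma Cov.mono {C D : Finset ℕ} (h : X.Cov C) (hCD : C ⊆ D) : X.Cov D := by
  intro s hs
  rcases h s hs with h | h | h | h
  · exact Or.inl (hCD h)
  · exact Or.inr (Or.inl (hCD h))
  · exact Or.inr (Or.inr (Or.inl (hCD h)))
  · exact Or.inr (Or.inr (Or.inr (hCD h)))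

/-- the statement to be proved, for all complexes with fewer than `n` sides of cells -/
def IH (n : ℕ) : Prop :=
  ∀ (S : Type) [Fintype S] [DecidableEq S] (X : Cx S), X.Good → X.A.card < n →
    4 * (X.tau : ℤ) ≤ X.P

/-! ## Operations -/

/-- the gluing inside a set of sides -/
def resFun (X : Cx S) (B : Finset S) (s : S) : S := if s ∈ B ∧ X.g s ∈ B then X.g s else s

lemma resFun_inv (X : Cx S) (B : Finset S) : Function.Involutive (X.resFun B) := by
  intro s
  unfold resFun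
  by_cases h : s ∈ B ∧ X.g s ∈ B
  · rw [if_pos h, if_pos ⟨h.2, by rw [X.inv]; exact h.1⟩, X.inv]
  · rw [if_neg h, if_neg h]

/-- the subcomplex of the cells with sides in `B` -/
def sub (X : Cx S) (B : Finset S) : Cx S where
  A := X.A ∩ B
  ρ := X.ρ
  g := (X.resFun_inv B).toPerm
  lab := X.lab
  inv := X.resFun_inv B

/-- new labels -/
def relab (X : Cx S) (l : S → ℕ) : Cx S where
  A := X.A
  ρ := X.ρ
  g := X.g
  lab := l
  inv := X.inv

/-- cutting the gate of the side `s` -/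
def cut (X : Cx S) (s : S) : Cx S where
  A := X.A
  ρ := X.ρ
  g := X.g * swap s (X.g s)
  lab := X.lab
  inv := Inv.unglue (g := X.g) X.inv s

/-- gluing of the free sides `s` and `t` (the labels have to fit) -/
def glue (X : Cx S) (s t : S) (hs : X.g s = s) (ht : X.g t = t) : Cx S where
  A := X.A
  ρ := X.ρ
  g := X.g * swap s t
  lab := X.lab
  inv := Inv.glue (g := X.g) X.inv hs ht

/-- the same complex with one additional dead cell -/
def ext (X : Cx S) : Cx (S ⊕ Fin 4) where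
  A := X.A.map ⟨Sum.inl, Sum.inl_injective⟩
  ρ := Perm.sumCongr X.ρ (finRotate 4)
  g := Perm.sumCongr X.g 1
  lab := Sum.elim X.lab fun _ => 0
  inv := by
    rintro (s | i)
    · change Sum.inl (X.g (X.g s)) = _
      rw [X.inv]
    · rfl

/-- a set of dead sides (closed under `ρ`) becomes alive -/
def add (X : Cx S) (B : Finset S) : Cx S where
  A := X.A ∪ B
  ρ := X.ρ
  g := X.g
  lab := X.lab
  inv := X.inv

@[simp] lemma sub_A {B : Finset S} : (X.sub B).A = X.A ∩ B := rfl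
@[simp] lemma sub_rho {B : Finset S} : (X.sub B).ρ = X.ρ := rfl
@[simp] lemma sub_lab {B : Finset S} : (X.sub B).lab = X.lab := rfl
@[simp] lemma sub_g {B : Finset S} (s : S) :
    (X.sub B).g s = if s ∈ B ∧ X.g s ∈ B then X.g s else s := rfl
@[simp] lemma cut_A {s : S} : (X.cut s).A = X.A := rfl
@[simp] lemma cut_rho {s : S} : (X.cut s).ρ = X.ρ := rfl
@[simp] lemma cut_lab {s : S} : (X.cut s).lab = X.lab := rfl
@[simp] lemma cut_g {s : S} : (X.cut s).g = X.g * swap s (X.g s) := rfl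
@[simp] lemma relab_A {l : S → ℕ} : (X.relab l).A = X.A := rfl
@[simp] lemma relab_rho {l : S → ℕ} : (X.relab l).ρ = X.ρ := rfl
@[simp] lemma relab_g {l : S → ℕ} : (X.relab l).g = X.g := rfl
@[simp] lemma relab_lab {l : S → ℕ} : (X.relab l).lab = l := rfl
@[simp] lemma add_A {B : Finset S} : (X.add B).A = X.A ∪ B := rfl
@[simp] lemma add_rho {B : Finset S} : (X.add B).ρ = X.ρ := rfl
@[simp] lemma add_g {B : Finset S} : (X.add B).g = X.g := rfl
@[simp] lemma add_lab {B : Finset S} : (X.add B).lab = X.lab := rfl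
@[simp] lemma glue_A {s t : S} {hs : X.g s = s} {ht : X.g t = t} :
    (X.glue s t hs ht).A = X.A := rfl
@[simp] lemma glue_rho {s t : S} {hs : X.g s = s} {ht : X.g t = t} :
    (X.glue s t hs ht).ρ = X.ρ := rfl
@[simp] lemma glue_lab {s t : S} {hs : X.g s = s} {ht : X.g t = t} :
    (X.glue s t hs ht).lab = X.lab := rfl
@[simp] lemma glue_g {s t : S} {hs : X.g s = s} {ht : X.g t = t} :
    (X.glue s t hs ht).g = X.g * swap s t := rfl

end Cx

end Pool.Agent.Lib.MP06c549.Z
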