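import Mathlib

/-!
# MP_06c549_co, Z: numbers of cycles of permutations and the genus inequality

`ncl r` is the number of classes of the equivalence relation `r`, `ncyc σ` the number of cycles of
the permutation `σ` (fixed points included). Multiplication with a transposition changes `ncyc` by
one. For two permutations `ρ`, `g` the number of cycles of `ρ`, `g` and `ρ * g` together is at most
`|S| + 2 c`, where `c` is the number of classes of the relation generated by `ρ` and `g`.
-/

set_option autoImplicit false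
set_option linter.unusedSectionVars false

namespace Pool.Agent.Lib.MP06c549.Z

open Equiv Equiv.Perm

variable {S : Type} [Finite S]

/-! ## Numbers of classes -/

/-- the number of classes -/
noncomputable def ncl (r : Setoid S) : ℕ := Nat.card (Quotient r)

/-- the relation in which the classes of `a` and `b` are joined -/
def join (r : Setoid S) (a b : S) : Setoid S where
  r x y := r x y ∨ (r x a ∧ r b y) ∨ (r x b ∧ r a y)
  iseqv := by
    refine ⟨fun x => Or.inl (r.refl x), ?_, ?_⟩
    · rintro x y (h | ⟨h1, h2⟩ | ⟨h1, h2⟩)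
      · exact Or.inl (r.symm h)
      · exact Or.inr (Or.inr ⟨r.symm h2, r.symm h1⟩)
      · exact Or.inr (Or.inl ⟨r.symm h2, r.symm h1⟩)
    · rintro x y z (h | ⟨h1, h2⟩ | ⟨h1, h2⟩) (k | ⟨k1, k2⟩ | ⟨k1, k2⟩)
      · exact Or.inl (r.trans h k)
      · exact Or.inr (Or.inl ⟨r.trans h k1, k2⟩)
      · exact Or.inr (Or.inr ⟨r.trans h k1, k2⟩)
      · exact Or.inr (Or.inl ⟨h1, r.trans h2 k⟩)
      · exact Or.inr (Or.inl ⟨h1, k2⟩)
      · exact Or.inl (r.trans h1 k2)
      · exact Or.inr (Or.inr ⟨h1, r.trans h2 k⟩)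
      · exact Or.inl (r.trans h1 k2)
      · exact Or.inr (Or.inr ⟨h1, k2⟩)

lemma join_apply {r : Setoid S} {a b x y : S} :
    join r a b x y ↔ r x y ∨ (r x a ∧ r b y) ∨ (r x b ∧ r a y) := Iff.rfl

lemma le_join (r : Setoid S) (a b : S) : r ≤ join r a b := fun _ _ h => Or.inl h

lemma join_self (r : Setoid S) (a b : S) : join r a b a b := Or.inr (Or.inl ⟨r.refl a, r.refl b⟩)

lemma join_le {r q : Setoid S} {a b : S} (h : r ≤ q) (hab : q a b) : join r a b ≤ q := by
  rintro x y (h1 | ⟨h1, h2⟩ | ⟨h1, h2⟩)
  · exact h h1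
  · exact q.trans (h h1) (q.trans hab (h h2))
  · exact q.trans (h h1) (q.trans (q.symm hab) (h h2))

lemma join_of_rel {r : Setoid S} {a b : S} (h : r a b) : join r a b = r :=
  le_antisymm (join_le le_rfl h) (le_join r a b)

lemma ncl_anti {r q : Setoid S} (h : r ≤ q) : ncl q ≤ ncl r := by
  refine Nat.card_le_card_of_surjective (Quotient.map' (s₁ := r) (s₂ := q) id fun x y hxy => h hxy) ?_
  intro z
  induction z using Quotient.inductionOn' with
  | h x => exact ⟨Quotient.mk'' x, rfl⟩

lemma ncl_join {r : Setoid S} {a b : S} (h : ¬ r a b) : ncl (join r a b) + 1 = ncl r := by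
  classical
  have := Fintype.ofFinite (Quotient r)
  have := Fintype.ofFinite (Quotient (join r a b))
  unfold ncl
  rw [Nat.card_eq_fintype_card, Nat.card_eq_fintype_card]
  set F : Quotient r → Quotient (join r a b) :=
    Quotient.map' (s₁ := r) (s₂ := join r a b) id fun x y hxy => le_join r a b hxy with hF
  set B : Quotient r := Quotient.mk'' b with hB
  have h1 : (Finset.univ.erase B).image F = Finset.univ := by
    refine Finset.eq_univ_of_forall fun z => ?_
    induction z using Quotient.inductionOn' with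
    | h x =>
      by_cases hx : (Quotient.mk'' x : Quotient r) = B
      · refine Finset.mem_image.2 ⟨Quotient.mk'' a, Finset.mem_erase.2 ⟨?_, Finset.mem_univ _⟩, ?_⟩
        · intro h2
          exact h (Quotient.eq''.1 h2)
        · have h2 : r x b := Quotient.eq''.1 hx
          refine Quotient.eq''.2 ?_
          exact Or.inr (Or.inl ⟨r.refl a, r.symm h2⟩)
      · exact Finset.mem_image.2 ⟨Quotient.mk'' x, Finset.mem_erase.2 ⟨hx, Finset.mem_univ _⟩, rfl⟩
  have h2 : Set.InjOn F (Finset.univ.erase B : Finset (Quotient r)) := by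
    intro y hy z hz
    revert hy hz
    induction y using Quotient.inductionOn' with
    | h y =>
      induction z using Quotient.inductionOn' with
      | h z =>
        intro hy hz hyz
        have hy' : ¬ r y b := fun h3 => by
          have := (Finset.mem_erase.1 (Finset.mem_coe.1 hy)).1
          exact this (Quotient.eq''.2 h3)
        have hz' : ¬ r z b := fun h3 => by
          have := (Finset.mem_erase.1 (Finset.mem_coe.1 hz)).1
          exact this (Quotient.eq''.2 h3)
        have h3 : join r a b y z := Quotient.eq''.1 hyz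
        rcases h3 with h3 | ⟨-, h3⟩ | ⟨h3, -⟩
        · exact Quotient.eq''.2 h3
        · exact absurd (r.symm h3) hz'
        · exact absurd h3 hy'
  have h3 := Finset.card_image_of_injOn h2
  rw [h1, Finset.card_erase_of_mem (Finset.mem_univ _), Finset.card_univ, Finset.card_univ] at h3
  have h4 : 0 < Fintype.card (Quotient r) := Fintype.card_pos_iff.2 ⟨B⟩
  omega

lemma ncl_join_le (r : Setoid S) (a b : S) : ncl r ≤ ncl (join r a b) + 1 := by
  by_cases h : r a b
  · rw [join_of_rel h]; omega
  · rw [ncl_join h]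

/-! ## Cycles -/

/-- the number of cycles -/
noncomputable def ncyc (σ : Perm S) : ℕ := ncl (SameCycle.setoid σ)

variable [DecidableEq S]

lemma mul_swap_mul (σ : Perm S) (a b : S) : σ * swap a b * swap a b = σ := by
  rw [mul_assoc, swap_mul_self, mul_one]

lemma sameCycle_le_join (σ : Perm S) (a b : S) :
    SameCycle.setoid (σ * swap a b) ≤ join (SameCycle.setoid σ) a b := by
  have key : ∀ x, join (SameCycle.setoid σ) a b x ((σ * swap a b) x) := by
    intro x
    rw [Perm.mul_apply]
    by_cases h1 : x = a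
    · subst h1
      rw [swap_apply_left]
      exact Or.inr (Or.inl ⟨SameCycle.refl σ x, ⟨1, by simp⟩⟩)
    by_cases h2 : x = b
    · subst h2
      rw [swap_apply_right]
      exact Or.inr (Or.inr ⟨SameCycle.refl σ x, ⟨1, by simp⟩⟩)
    rw [swap_apply_of_ne_of_ne h1 h2]
    exact Or.inl ⟨1, by simp⟩
  have key2 : ∀ (n : ℕ) x, join (SameCycle.setoid σ) a b x (((σ * swap a b) ^ n) x) := by
    intro n
    induction n with
    | zero => intro x; exact (join (SameCycle.setoid σ) a b).refl x
    | succ n ih =>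
      intro x
      rw [pow_succ', Perm.mul_apply]
      exact (join (SameCycle.setoid σ) a b).trans (ih x) (key _)
  rintro x y ⟨n, rfl⟩
  rcases n with n | n
  · exact key2 n x
  · have h := key2 (n + 1) (((σ * swap a b) ^ (Int.negSucc n)) x)
    rw [← Perm.mul_apply, zpow_negSucc, mul_inv_cancel, Perm.one_apply] at h
    exact (join (SameCycle.setoid σ) a b).symm h

lemma join_swap (σ : Perm S) (a b : S) :
    join (SameCycle.setoid (σ * swap a b)) a b = join (SameCycle.setoid σ) a b := by
  refine le_antisymm (join_le (sameCycle_le_join σ a b) (join_self _ a b)) ?_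
  refine join_le ?_ (join_self _ a b)
  have h := sameCycle_le_join (σ * swap a b) a b
  rwa [mul_swap_mul] at h

lemma sameCycle_of_not {σ : Perm S} {a b : S} (h : ¬ SameCycle σ a b) :
    SameCycle (σ * swap a b) a b := by
  have hab : a ≠ b := fun h1 => h (h1 ▸ SameCycle.refl σ a)
  -- from `a` to `σ b` and along the cycle of `b` to `b`
  obtain ⟨k, hk, hkb⟩ : ∃ k : ℕ, 0 < k ∧ (σ ^ k) b = b := by
    refine ⟨orderOf σ, orderOf_pos σ, ?_⟩
    rw [pow_orderOf_eq_one, Perm.one_apply]
  have hex : ∃ k : ℕ, 0 < k ∧ (σ ^ k) b = b := ⟨k, hk, hkb⟩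
  classical
  set m := Nat.find hex with hm
  obtain ⟨hm0, hmb⟩ := Nat.find_spec hex
  have hmin : ∀ i, 0 < i → i < m → (σ ^ i) b ≠ b := fun i h1 h2 h3 => Nat.find_min hex h2 ⟨h1, h3⟩
  have key : ∀ i, i + 1 ≤ m → ((σ * swap a b) ^ (i + 1)) a = (σ ^ (i + 1)) b := by
    intro i
    induction i with
    | zero =>
      intro _
      rw [zero_add, pow_one, pow_one, Perm.mul_apply, swap_apply_left]
    | succ i ih =>
      intro hi
      rw [pow_succ', Perm.mul_apply, ih (by omega), Perm.mul_apply, swap_apply_of_ne_of_ne]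
      · rw [← Perm.mul_apply, ← pow_succ']
      · intro h1
        exact h (SameCycle.symm ⟨((i + 1 : ℕ) : ℤ), by rw [zpow_natCast]; exact h1⟩)
      · exact hmin (i + 1) (by omega) (by omega)
  refine ⟨(m : ℤ), ?_⟩
  rw [zpow_natCast]
  have h1 := key (m - 1) (by omega)
  rw [show m - 1 + 1 = m by omega] at h1
  rw [h1]
  exact hmb

lemma not_sameCycle_of {σ : Perm S} {a b : S} (hab : a ≠ b) (h : SameCycle σ a b) :
    ¬ SameCycle (σ * swap a b) a b := by
  classical
  have hex : ∃ k : ℕ, 0 < k ∧ (σ ^ k) b = a := by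
    obtain ⟨i, hi0, -, hi⟩ := h.symm.exists_pow_eq''
    exact ⟨i, hi0, hi⟩
  set m := Nat.find hex with hm
  obtain ⟨hm0, hmb⟩ := Nat.find_spec hex
  have hmin : ∀ i, 0 < i → i < m → (σ ^ i) b ≠ a := fun i h1 h2 h3 => Nat.find_min hex h2 ⟨h1, h3⟩
  have hminb : ∀ i, 0 < i → i < m → (σ ^ i) b ≠ b := by
    intro i h1 h2 h3
    have h4 : (σ ^ (m - i)) b = a := by
      have h5 : (σ ^ (m - i + i)) b = a := by rw [Nat.sub_add_cancel h2.le]; exact hmb
      rw [pow_add, Perm.mul_apply, h3] at h5
      exact h5
    exact hmin (m - i) (by omega) (by omega) h4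
  set O : Set S := {x | ∃ i, 0 < i ∧ i ≤ m ∧ (σ ^ i) b = x} with hO
  have hmaps : ∀ x ∈ O, (σ * swap a b) x ∈ O := by
    rintro x ⟨i, h1, h2, rfl⟩
    rcases h2.lt_or_eq with h3 | h3
    · refine ⟨i + 1, by omega, by omega, ?_⟩
      rw [Perm.mul_apply, swap_apply_of_ne_of_ne (hmin i h1 h3) (hminb i h1 h3), pow_succ',
        Perm.mul_apply]
    · refine ⟨1, by omega, by omega, ?_⟩
      rw [h3, hmb, Perm.mul_apply, swap_apply_left, pow_one]
  have hO' : ∀ n : ℕ, ∀ x ∈ O, ((σ * swap a b) ^ n) x ∈ O := by
    intro n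
    induction n with
    | zero => intro x hx; exact hx
    | succ n ih =>
      intro x hx
      rw [pow_succ', Perm.mul_apply]
      exact hmaps _ (ih x hx)
  intro h1
  obtain ⟨n, -, -, hn⟩ := h1.exists_pow_eq''
  have h2 : b ∈ O := by
    have := hO' n a ⟨m, hm0, le_rfl, hmb⟩
    rwa [hn] at this
  obtain ⟨i, h3, h4, h5⟩ := h2
  rcases h4.lt_or_eq with h6 | h6
  · exact hminb i h3 h6 h5
  · rw [h6, hmb] at h5
    exact hab h5

/-- joining two cycles -/
lemma ncyc_mul_swap_of_not {σ : Perm S} {a b : S} (h : ¬ SameCycle σ a b) :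
    ncyc (σ * swap a b) + 1 = ncyc σ := by
  unfold ncyc
  rw [← ncl_join (r := SameCycle.setoid σ) (a := a) (b := b) h, ← join_swap,
    join_of_rel (r := SameCycle.setoid (σ * swap a b)) (sameCycle_of_not h)]

/-- cutting a cycle -/
lemma ncyc_mul_swap_of_same {σ : Perm S} {a b : S} (hab : a ≠ b) (h : SameCycle σ a b) :
    ncyc (σ * swap a b) = ncyc σ + 1 := by
  have h1 := ncyc_mul_swap_of_not (not_sameCycle_of hab h)
  rw [mul_swap_mul] at h1
  exact h1.symm

lemma sameCycle_iff_not {σ : Perm S} {a b : S} (hab : a ≠ b) :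
    SameCycle (σ * swap a b) a b ↔ ¬ SameCycle σ a b :=
  ⟨fun h h1 => not_sameCycle_of hab h1 h, sameCycle_of_not⟩

lemma ncyc_one : ncyc (1 : Perm S) = Nat.card S := by
  unfold ncyc ncl
  refine (Nat.card_congr (Equiv.ofBijective (fun x : S =>
    (Quotient.mk'' x : Quotient (SameCycle.setoid (1 : Perm S)))) ⟨?_, ?_⟩)).symm
  · intro x y hxy
    have h : SameCycle (1 : Perm S) x y := Quotient.eq''.1 hxy
    exact sameCycle_one.1 h
  · intro z
    induction z using Quotient.inductionOn' with
    | h x => exact ⟨x, rfl⟩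

/-! ## Components of a pair of permutations -/

/-- the relation generated by two permutations -/
def comp (ρ g : Perm S) : Setoid S := SameCycle.setoid ρ ⊔ SameCycle.setoid g

lemma comp_left {ρ g : Perm S} (x : S) : comp ρ g x (ρ x) :=
  (le_sup_left : SameCycle.setoid ρ ≤ comp ρ g) (show SameCycle ρ x (ρ x) from ⟨1, by simp⟩)

lemma comp_right {ρ g : Perm S} (x : S) : comp ρ g x (g x) :=
  (le_sup_right : SameCycle.setoid g ≤ comp ρ g) (show SameCycle g x (g x) from ⟨1, by simp⟩)

lemma sameCycle_le_of {σ : Perm S} {q : Setoid S} (h : ∀ x, q x (σ x)) :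
    SameCycle.setoid σ ≤ q := by
  have key : ∀ (n : ℕ) x, q x ((σ ^ n) x) := by
    intro n
    induction n with
    | zero => intro x; exact q.refl x
    | succ n ih =>
      intro x
      rw [pow_succ', Perm.mul_apply]
      exact q.trans (ih x) (h _)
  rintro x y ⟨n, rfl⟩
  rcases n with n | n
  · exact key n x
  · have h1 := key (n + 1) ((σ ^ (Int.negSucc n)) x)
    rw [← Perm.mul_apply, zpow_negSucc, mul_inv_cancel, Perm.one_apply] at h1
    exact q.symm h1

lemma comp_le_of {ρ g : Perm S} {q : Setoid S} (h1 : ∀ x, q x (ρ x)) (h2 : ∀ x, q x (g x)) :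
    comp ρ g ≤ q := sup_le (sameCycle_le_of h1) (sameCycle_le_of h2)

lemma comp_mul {ρ g : Perm S} (x : S) : comp ρ g x ((ρ * g) x) :=
  (comp ρ g).trans (comp_right x) (comp_left (g x))

lemma comp_of_mul {ρ g : Perm S} {x y : S} (h : SameCycle (ρ * g) x y) : comp ρ g x y :=
  (sameCycle_le_of (q := comp ρ g) fun x => comp_mul x) h

lemma comp_one (ρ : Perm S) : comp ρ 1 = SameCycle.setoid ρ := by
  refine le_antisymm (comp_le_of (fun x => ⟨1, by simp⟩) fun x => ?_) le_sup_left
  exact (SameCycle.setoid ρ).refl x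

/-- gluing of two free elements: the components are joined -/
lemma comp_swap {ρ g : Perm S} {s t : S} (hs : g s = s) (ht : g t = t) :
    comp ρ (g * swap s t) = join (comp ρ g) s t := by
  refine le_antisymm (comp_le_of (fun x => le_join _ s t (comp_left x)) fun x => ?_) ?_
  · rw [Perm.mul_apply]
    by_cases h1 : x = s
    · subst h1
      rw [swap_apply_left, ht]
      exact join_self _ x t
    by_cases h2 : x = t
    · subst h2
      rw [swap_apply_right, hs]
      exact (join (comp ρ g) s x).symm (join_self _ s x)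
    rw [swap_apply_of_ne_of_ne h1 h2]
    exact le_join _ s t (comp_right x)
  · refine join_le (comp_le_of (fun x => comp_left x) fun x => ?_) ?_
    · by_cases h1 : x = s
      · subst h1
        rw [hs]
      by_cases h2 : x = t
      · subst h2
        rw [ht]
      have h3 := comp_right (ρ := ρ) (g := g * swap s t) x
      rwa [Perm.mul_apply, swap_apply_of_ne_of_ne h1 h2] at h3
    · have h3 := comp_right (ρ := ρ) (g := g * swap s t) s
      rwa [Perm.mul_apply, swap_apply_left, ht] at h3

lemma ncyc_swap_free {g : Perm S} {s t : S} (hst : s ≠ t) (hs : g s = s) :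
    ncyc (g * swap s t) + 1 = ncyc g := by
  refine ncyc_mul_swap_of_not fun h => hst ?_
  obtain ⟨n, hn⟩ := h
  rw [← hn]
  exact (zpow_apply_eq_self_of_apply_eq_self hs n).symm

/-! ## The genus inequality -/

/-- an involution -/
def Inv (g : Perm S) : Prop := ∀ s, g (g s) = s

lemma Inv.unglue {g : Perm S} (hg : Inv g) (s : S) : Inv (g * swap s (g s)) := by
  intro x
  simp only [Perm.mul_apply]
  by_cases h1 : x = s
  · subst h1
    rw [swap_apply_left, hg x, swap_apply_left, hg x]
  by_cases h2 : x = g s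
  · subst h2
    rw [swap_apply_right, swap_apply_right]
  rw [swap_apply_of_ne_of_ne h1 h2, swap_apply_of_ne_of_ne, hg x]
  · intro h3; exact h2 (by rw [← h3, hg x])
  · intro h3; exact h1 (g.injective h3)

lemma unglue_left {g : Perm S} (hg : Inv g) (s : S) : (g * swap s (g s)) s = s := by
  rw [Perm.mul_apply, swap_apply_left, hg s]

lemma unglue_right {g : Perm S} (s : S) : (g * swap s (g s)) (g s) = g s := by
  rw [Perm.mul_apply, swap_apply_right]

lemma unglue_of_ne {g : Perm S} {s x : S} (h1 : x ≠ s) (h2 : x ≠ g s) :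
    (g * swap s (g s)) x = g x := by
  rw [Perm.mul_apply, swap_apply_of_ne_of_ne h1 h2]

lemma Inv.glue {g : Perm S} (hg : Inv g) {s t : S} (hs : g s = s) (ht : g t = t) :
    Inv (g * swap s t) := by
  intro x
  simp only [Perm.mul_apply]
  by_cases h1 : x = s
  · subst h1
    rw [swap_apply_left, ht, swap_apply_right, hs]
  by_cases h2 : x = t
  · subst h2
    rw [swap_apply_right, hs, swap_apply_left, ht]
  rw [swap_apply_of_ne_of_ne h1 h2, swap_apply_of_ne_of_ne, hg x]
  · intro h3; exact h1 (g.injective (by rw [h3, hs]))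
  · intro h3; exact h2 (g.injective (by rw [h3, ht]))

/-- induction over gluings -/
lemma Inv.induction {p : Perm S → Prop} (h1 : p 1)
    (h2 : ∀ g s t, Inv g → s ≠ t → g s = s → g t = t → p g → p (g * swap s t))
    {g : Perm S} (hg : Inv g) : p g := by
  classical
  have := Fintype.ofFinite S
  induction hn : (Finset.univ.filter fun s => g s ≠ s).card using Nat.strong_induction_on
    generalizing g with
  | _ n ih =>
    by_cases h : ∀ s, g s = s
    · have : g = 1 := Equiv.ext h
      rw [this]; exact h1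
    push Not at h
    obtain ⟨s, hs⟩ := h
    have key : p (g * swap s (g s)) := by
      refine ih _ ?_ (hg.unglue s) rfl
      rw [← hn]
      refine Finset.card_lt_card ⟨fun x hx => ?_, fun hh => ?_⟩
      · rw [Finset.mem_filter] at hx ⊢
        refine ⟨hx.1, fun h3 => ?_⟩
        by_cases h4 : x = s
        · exact hs (h4 ▸ h3)
        by_cases h5 : x = g s
        · exact hx.2 (by rw [h5]; exact unglue_right s)
        · exact hx.2 (by rw [unglue_of_ne h4 h5]; exact h3)
      · have h3 := hh (Finset.mem_filter.2 ⟨Finset.mem_univ s, hs⟩)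
        exact (Finset.mem_filter.1 h3).2 (unglue_left hg s)
    have h3 := h2 _ s (g s) (hg.unglue s) (fun h => hs h.symm) (unglue_left hg s) (unglue_right s) key
    rwa [mul_swap_mul] at h3

/-- the genus inequality -/
theorem genus (ρ : Perm S) {g : Perm S} (hg : Inv g) :
    ncyc ρ + ncyc g + ncyc (ρ * g) ≤ Nat.card S + 2 * ncl (comp ρ g) := by
  refine Inv.induction (p := fun g => ncyc ρ + ncyc g + ncyc (ρ * g) ≤
    Nat.card S + 2 * ncl (comp ρ g)) ?_ ?_ hg
  · rw [mul_one, comp_one, ncyc_one]
    unfold ncyc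
    omega
  · intro g s t hg hst hs ht ih
    have h1 := ncyc_swap_free hst hs
    have h2 := comp_swap (ρ := ρ) hs ht
    rw [h2, ← mul_assoc]
    by_cases h : SameCycle (ρ * g) s t
    · rw [join_of_rel (comp_of_mul h), ncyc_mul_swap_of_same hst h]
      omega
    · have h3 := ncyc_mul_swap_of_not h
      have h4 := ncl_join_le (comp ρ g) s t
      omega

/-- planar pairs -/
def Planar (ρ g : Perm S) : Prop :=
  ncyc ρ + ncyc g + ncyc (ρ * g) = Nat.card S + 2 * ncl (comp ρ g)

lemma planar_one (ρ : Perm S) : Planar ρ 1 := by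
  unfold Planar
  rw [mul_one, comp_one, ncyc_one]
  unfold ncyc
  omega

/-- gluing keeps planarity if the two elements are on one cycle of `ρ * g` -/
lemma Planar.glue_same {ρ g : Perm S} (h : Planar ρ g) {s t : S} (hst : s ≠ t) (hs : g s = s)
    (ht : g t = t) (hc : SameCycle (ρ * g) s t) : Planar ρ (g * swap s t) := by
  unfold Planar at h ⊢
  have h1 := ncyc_swap_free hst hs
  rw [comp_swap hs ht, ← mul_assoc, join_of_rel (comp_of_mul hc), ncyc_mul_swap_of_same hst hc]
  omega

/-- gluing of two components keeps planarity -/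
lemma Planar.glue_diff {ρ g : Perm S} (h : Planar ρ g) {s t : S} (hst : s ≠ t) (hs : g s = s)
    (ht : g t = t) (hc : ¬ comp ρ g s t) : Planar ρ (g * swap s t) := by
  unfold Planar at h ⊢
  have h1 := ncyc_swap_free hst hs
  have h2 := ncyc_mul_swap_of_not (σ := ρ * g) (a := s) (b := t) fun hh => hc (comp_of_mul hh)
  have h3 := ncl_join hc
  rw [comp_swap hs ht, ← mul_assoc]
  omega

/-- a planar gluing of two elements of different cycles of `ρ * g` joins two components -/
lemma Planar.of_glue {ρ g : Perm S} (hg : Inv g) {s t : S} (hst : s ≠ t) (hs : g s = s)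
    (ht : g t = t) (h : Planar ρ (g * swap s t)) :
    Planar ρ g ∧ (SameCycle (ρ * g) s t ∨ ¬ comp ρ g s t) := by
  have h0 := genus ρ hg
  unfold Planar at h ⊢
  have h1 := ncyc_swap_free hst hs
  rw [comp_swap hs ht, ← mul_assoc] at h
  by_cases hc : SameCycle (ρ * g) s t
  · rw [join_of_rel (comp_of_mul hc), ncyc_mul_swap_of_same hst hc] at h
    exact ⟨by omega, Or.inl hc⟩
  · have h3 := ncyc_mul_swap_of_not hc
    by_cases h4 : comp ρ g s t
    · rw [join_of_rel h4] at h
      omega
    · have h5 := ncl_join h4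
      exact ⟨by omega, Or.inr h4⟩

/-- ungluing keeps planarity -/
theorem Planar.unglue {ρ g : Perm S} (hg : Inv g) (h : Planar ρ g) (s : S) :
    Planar ρ (g * swap s (g s)) := by
  by_cases hs : g s = s
  · rw [hs, swap_self]
    exact h
  · have h1 : Planar ρ (g * swap s (g s) * swap s (g s)) := by rwa [mul_swap_mul]
    exact (Planar.of_glue (hg.unglue s) (fun h => hs h.symm) (unglue_left hg s) (unglue_right s)
      h1).1

/-- a glued pair on one cycle of `ρ * g` is a bridge, a glued pair on different cycles is not -/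
theorem Planar.bridge_iff {ρ g : Perm S} (hg : Inv g) (h : Planar ρ g) {s : S} (hs : g s ≠ s) :
    SameCycle (ρ * g) s (g s) ↔ ¬ comp ρ (g * swap s (g s)) s (g s) := by
  have hst : s ≠ g s := fun h => hs h.symm
  have h1 : Planar ρ (g * swap s (g s) * swap s (g s)) := by rwa [mul_swap_mul]
  obtain ⟨h2, h3⟩ := Planar.of_glue (hg.unglue s) hst (unglue_left hg s) (unglue_right s) h1
  have h4 : SameCycle (ρ * g) s (g s) ↔ ¬ SameCycle (ρ * (g * swap s (g s))) s (g s) := by
    have := sameCycle_iff_not (σ := ρ * (g * swap s (g s))) hst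
    rwa [mul_assoc ρ, mul_swap_mul] at this
  rw [h4]
  constructor
  · intro h5
    rcases h3 with h3 | h3
    · exact absurd h3 h5
    · exact h3
  · intro h5 h6
    exact h5 (comp_of_mul h6)

end Pool.Agent.Lib.MP06c549.Z
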