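import Pool.Agent.Lib.MP_06c549_co.PG.HEX
import Pool.Agent.Lib.MP_06c549_co.Z.Cyc
import Pool.Agent.Lib.MP_06c549_co.Z.Base
import Pool.Agent.Lib.MP_06c549_co.PG.GUARD

section
/-!
# MP_06c549_co, Z: the sides of the cells of a polygon (helper59)

The sides of the cells are the pairs `(d, k)` of a cell `d` and one of the four kinds `k` (top, left,
bottom, right, in this cyclic order `ua → ub → la → lb → ua`). Every side joins an A-vertex `av` and a
B-vertex `bv`; a pair of an A-vertex and a B-vertex belongs to at most two sides, one of the kinds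
top, bottom (from A to B), and one of the kinds left, right (from B to A): these two sides are glued.
-/
set_option autoImplicit false
set_option linter.unusedSectionVars false

namespace Pool.Agent.Lib.MP06c549.Z

open Finset PG

/-- the kinds of sides -/
inductive Kd | t | l | b | r
deriving DecidableEq, Fintype

namespace Kd

/-- the next side -/
def nx : Kd → Kd
  | t => l
  | l => b
  | b => r
  | r => t

/-- the previous side -/
def pv : Kd → Kd
  | t => r
  | l => t
  | b => l
  | r => b

/-- sides from an A-vertex to a B-vertex -/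
def ev : Kd → Bool
  | t => true
  | l => false
  | b => true
  | r => false

lemma pv_nx (k : Kd) : k.nx.pv = k := by cases k <;> rfl
lemma nx_pv (k : Kd) : k.pv.nx = k := by cases k <;> rfl
lemma ev_nx (k : Kd) : k.nx.ev = !k.ev := by cases k <;> rfl
lemma nx_nx_ne (k : Kd) : k.nx.nx ≠ k := by cases k <;> decide
lemma nx4 (k : Kd) : k.nx.nx.nx.nx = k := by cases k <;> rfl

lemma card_kd : Fintype.card Kd = 4 := rfl

end Kd

variable {ι E : Type} [Fintype E] [DecidableEq E]

/-- the sides of the cells -/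
abbrev Sd (M : RM ι E) : Type := Cell M × Kd

variable {M : RM ι E}

namespace Sd

/-- the A-vertex of a side -/
noncomputable def av (s : Sd M) : E :=
  match s.2 with
  | .t => s.1.ua
  | .l => s.1.la
  | .b => s.1.la
  | .r => s.1.ua

/-- the B-vertex of a side -/
noncomputable def bv (s : Sd M) : E :=
  match s.2 with
  | .t => s.1.ub
  | .l => s.1.ub
  | .b => s.1.lb
  | .r => s.1.lb

/-- the next side of the same cell -/
def rho (M : RM ι E) : Equiv.Perm (Sd M) where
  toFun s := (s.1, s.2.nx)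
  invFun s := (s.1, s.2.pv)
  left_inv s := by
    rcases s with ⟨d, k⟩
    simp only [Kd.pv_nx]
  right_inv s := by
    rcases s with ⟨d, k⟩
    simp only [Kd.nx_pv]

lemma rho_apply (s : Sd M) : rho M s = (s.1, s.2.nx) := rfl

/-- the start corner -/
noncomputable def st (s : Sd M) : E ⊕ E := if s.2.ev then Sum.inl s.av else Sum.inr s.bv

/-- the end corner -/
noncomputable def en (s : Sd M) : E ⊕ E := if s.2.ev then Sum.inr s.bv else Sum.inl s.av

lemma st_rho (s : Sd M) : st (rho M s) = en s := by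
  rcases s with ⟨d, k⟩
  cases k <;> rfl

lemma ev_cases (s : Sd M) (h : s.2.ev = true) : s.2 = .t ∨ s.2 = .b := by
  rcases s with ⟨d, k⟩
  cases k <;> simp_all [Kd.ev]

lemma odd_cases (s : Sd M) (h : s.2.ev = false) : s.2 = .l ∨ s.2 = .r := by
  rcases s with ⟨d, k⟩
  cases k <;> simp_all [Kd.ev]

lemma top_lt (hM : M.Good) (d : Cell M) : M.bx d.ub < M.ax d.ua := by
  have h1 := (ua_pos hM d).1
  have h2 := (ub_pos hM d).1
  omega

lemma bot_lt (hM : M.Good) (d : Cell M) : M.ax d.la < M.bx d.lb := by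
  have h1 := (la_pos hM d).1
  have h2 := (lb_pos hM d).1
  omega

lemma left_lt (hM : M.Good) (d : Cell M) : M.Y d.la < M.Y d.ub := la_lt_ul hM d.hC d.hCa

lemma right_lt (hM : M.Good) (d : Cell M) : M.Y d.lb < M.Y d.ua := lb_lt_ur hM d.hC d.hCa

/-- a pair of vertices belongs to at most one side of each parity -/
lemma inj (hM : M.Good) {s t : Sd M} (he : s.2.ev = t.2.ev) (ha : s.av = t.av) (hb : s.bv = t.bv) :
    s = t := by
  rcases s with ⟨d, k⟩
  rcases t with ⟨d', k'⟩
  cases k <;> cases k' <;> first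
    | exact absurd (show true = false from he) (by decide)
    | exact absurd (show false = true from he) (by decide)
    | skip
  · change d.ua = d'.ua at ha
    change d.ub = d'.ub at hb
    rw [top_ext hM ha hb]
  · change d.ua = d'.la at ha
    change d.ub = d'.lb at hb
    have h1 := top_lt hM d
    have h2 := bot_lt hM d'
    rw [ha, hb] at h1
    omega
  · change d.la = d'.la at ha
    change d.ub = d'.ub at hb
    rw [left_ext hM ha hb]
  · change d.la = d'.ua at ha
    change d.ub = d'.lb at hb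
    have h1 := left_lt hM d
    have h2 := right_lt hM d'
    rw [ha, hb] at h1
    omega
  · change d.la = d'.ua at ha
    change d.lb = d'.ub at hb
    have h1 := bot_lt hM d
    have h2 := top_lt hM d'
    rw [ha, hb] at h1
    omega
  · change d.la = d'.la at ha
    change d.lb = d'.lb at hb
    rw [bot_ext hM ha hb]
  · change d.ua = d'.la at ha
    change d.lb = d'.ub at hb
    have h1 := right_lt hM d
    have h2 := left_lt hM d'
    rw [ha, hb] at h1
    omega
  · change d.ua = d'.ua at ha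
    change d.lb = d'.lb at hb
    rw [right_ext hM ha hb]

lemma ev_ne (hM : M.Good) {s : Sd M} (he : s.2.ev = true) : M.ax s.av ≠ M.bx s.bv := by
  rcases s with ⟨d, k⟩
  have t1 := top_lt hM d
  have b1 := bot_lt hM d
  cases k <;> simp only [av, bv, Kd.ev] at he ⊢
  · omega
  · exact absurd he (by decide)
  · omega
  · exact absurd he (by decide)

lemma odd_ne (hM : M.Good) {s : Sd M} (he : s.2.ev = false) : M.Y s.av ≠ M.Y s.bv := by
  rcases s with ⟨d, k⟩
  have l1 := left_lt hM d
  have r1 := right_lt hM d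
  cases k <;> simp only [av, bv, Kd.ev] at he ⊢
  · exact absurd he (by decide)
  · omega
  · exact absurd he (by decide)
  · omega

/-! ## The gluing -/

/-- `t` is the other side at the two vertices of `s` -/
def Pt (s t : Sd M) : Prop := t.av = s.av ∧ t.bv = s.bv ∧ t.2.ev ≠ s.2.ev

lemma Pt.symm {s t : Sd M} (h : Pt s t) : Pt t s := ⟨h.1.symm, h.2.1.symm, fun h' => h.2.2 h'.symm⟩

lemma Pt.unique (hM : M.Good) {s t t' : Sd M} (h : Pt s t) (h' : Pt s t') : t = t' := by
  refine inj hM ?_ (h.1.trans h'.1.symm) (h.2.1.trans h'.2.1.symm)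
  have h1 := h.2.2
  have h2 := h'.2.2
  revert h1 h2
  cases t.2.ev <;> cases t'.2.ev <;> cases s.2.ev <;> simp

open Classical in
/-- the glued side, `s` itself if there is none -/
noncomputable def gf (s : Sd M) : Sd M := if h : ∃ t, Pt s t then h.choose else s

lemma gf_of (hM : M.Good) {s t : Sd M} (h : Pt s t) : gf s = t := by
  have h1 : ∃ t, Pt s t := ⟨t, h⟩
  unfold gf
  rw [dif_pos h1]
  exact h1.choose_spec.unique hM h

lemma gf_not {s : Sd M} (h : ¬ ∃ t, Pt s t) : gf s = s := by
  unfold gf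
  rw [dif_neg h]

lemma gf_inv (hM : M.Good) : Function.Involutive (gf (M := M)) := by
  intro s
  by_cases h : ∃ t, Pt s t
  · obtain ⟨t, ht⟩ := h
    rw [gf_of hM ht, gf_of hM ht.symm]
  · rw [gf_not h, gf_not h]

/-- the gluing -/
noncomputable def gl (hM : M.Good) : Equiv.Perm (Sd M) := (gf_inv hM).toPerm

lemma gl_apply (hM : M.Good) (s : Sd M) : gl hM s = gf s := rfl

lemma gl_inv (hM : M.Good) : Inv (gl hM) := gf_inv hM

lemma Pt.ne {s t : Sd M} (h : Pt s t) : t ≠ s := fun h' => h.2.2 (by rw [h'])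

lemma gl_ne (hM : M.Good) {s : Sd M} : gl hM s ≠ s ↔ Pt s (gl hM s) := by
  constructor
  · intro h
    by_cases h1 : ∃ t, Pt s t
    · obtain ⟨t, ht⟩ := h1
      rw [gl_apply, gf_of hM ht]
      exact ht
    · exact absurd (gf_not h1) h
  · exact fun h => h.ne

lemma gl_eq (hM : M.Good) {s : Sd M} : gl hM s = s ↔ ∀ t, ¬ Pt s t := by
  constructor
  · intro h t ht
    have := gf_of hM ht
    rw [← gl_apply hM, h] at this
    exact ht.ne this.symm
  · intro h
    exact gf_not fun ⟨t, ht⟩ => h t ht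

/-- a glued side has the same A-vertex -/
lemma av_gl (hM : M.Good) (s : Sd M) : (gl hM s).av = s.av := by
  by_cases h : gl hM s = s
  · rw [h]
  · exact ((gl_ne hM).1 h).1

lemma bv_gl (hM : M.Good) (s : Sd M) : (gl hM s).bv = s.bv := by
  by_cases h : gl hM s = s
  · rw [h]
  · exact ((gl_ne hM).1 h).2.1

lemma st_gl (hM : M.Good) {s : Sd M} (h : gl hM s ≠ s) : st (gl hM s) = en s := by
  obtain ⟨h1, h2, h3⟩ := (gl_ne hM).1 h
  unfold st en
  rw [h1, h2]
  revert h3
  cases (gl hM s).2.ev <;> cases s.2.ev <;> simp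

/-! ## The sides at an A-vertex -/

/-- the side of the parity `p` of the cell `d` at the vertex `v` -/
lemma exists_side {d : Cell M} {v : E} (hd : d.ua = v ∨ d.la = v) (p : Bool) :
    ∃ s : Sd M, s.1 = d ∧ s.av = v ∧ s.2.ev = p := by
  rcases hd with hd | hd
  · cases p
    · exact ⟨(d, .r), rfl, hd, rfl⟩
    · exact ⟨(d, .t), rfl, hd, rfl⟩
  · cases p
    · exact ⟨(d, .l), rfl, hd, rfl⟩
    · exact ⟨(d, .b), rfl, hd, rfl⟩

lemma at_av (s : Sd M) : s.1.ua = s.av ∨ s.1.la = s.av := by
  rcases s with ⟨d, k⟩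
  cases k
  · exact Or.inl rfl
  · exact Or.inr rfl
  · exact Or.inr rfl
  · exact Or.inl rfl

lemma at_bv (s : Sd M) : s.1.ub = s.bv ∨ s.1.lb = s.bv := by
  rcases s with ⟨d, k⟩
  cases k
  · exact Or.inl rfl
  · exact Or.inl rfl
  · exact Or.inr rfl
  · exact Or.inr rfl

/-- the sides of the cell `d` with the A-vertex `v` and the B-vertex `ub d`, `lb d` -/
lemma exists_ub {d : Cell M} {v : E} (hd : d.ua = v ∨ d.la = v) :
    ∃ s : Sd M, s.1 = d ∧ s.av = v ∧ s.bv = d.ub := by
  rcases hd with hd | hd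
  · exact ⟨(d, .t), rfl, hd, rfl⟩
  · exact ⟨(d, .l), rfl, hd, rfl⟩

lemma exists_lb {d : Cell M} {v : E} (hd : d.ua = v ∨ d.la = v) :
    ∃ s : Sd M, s.1 = d ∧ s.av = v ∧ s.bv = d.lb := by
  rcases hd with hd | hd
  · exact ⟨(d, .r), rfl, hd, rfl⟩
  · exact ⟨(d, .b), rfl, hd, rfl⟩

lemma exists_at (hM : M.Good) (v : E) : ∃ d : Cell M, d.ua = v ∨ d.la = v := by
  by_cases h : M.Fl v
  · obtain ⟨d, hd⟩ := exists_la hM h
    exact ⟨d, Or.inr hd⟩
  · obtain ⟨d, hd⟩ := exists_ua hM h
    exact ⟨d, Or.inl hd⟩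

/-- `b` is a B-vertex of a side at the A-vertex `v` -/
def Adj (M : RM ι E) (v b : E) : Prop := ∃ s : Sd M, s.av = v ∧ s.bv = b

lemma adj_ub {d : Cell M} {v : E} (hd : d.ua = v ∨ d.la = v) : Adj M v d.ub := by
  obtain ⟨s, -, h2, h3⟩ := exists_ub hd
  exact ⟨s, h2, h3⟩

lemma adj_lb {d : Cell M} {v : E} (hd : d.ua = v ∨ d.la = v) : Adj M v d.lb := by
  obtain ⟨s, -, h2, h3⟩ := exists_lb hd
  exact ⟨s, h2, h3⟩

lemma adj_self (hM : M.Good) (v : E) : Adj M v v := by
  by_contra h
  have h1 : ∀ d : Cell M, d.ua = v ∨ d.la = v → ((d.ub = v : Prop) = (d.lb = v : Prop)) := by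
    intro d hd
    have h2 : d.ub ≠ v := fun h' => h (by have h4 := adj_ub hd; rwa [h'] at h4)
    have h3 : d.lb ≠ v := fun h' => h (by have h4 := adj_lb hd; rwa [h'] at h4)
    exact propext ⟨fun h' => absurd h' h2, fun h' => absurd h' h3⟩
  obtain ⟨d, hd⟩ := exists_at hM v
  have h2 := ((cell_circle hM (fun e => (e = v : Prop)) v h1).1 d hd).1
  have h3 : d.ub = v := by
    have h4 : (d.ub = v) = (v = v) := h2
    rw [h4]
  exact h (by have h4 := adj_ub hd; rwa [h3] at h4)

lemma adj_w (hM : M.Good) (v : E) : ∃ w, w ≠ v ∧ M.comp w = M.comp v ∧ M.bx w = M.ax v ∧ Adj M v w := by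
  have h1 : ∀ d : Cell M, d.ua = v ∨ d.la = v → (Adj M v d.ub = Adj M v d.lb) := fun d hd =>
    propext ⟨fun _ => adj_lb hd, fun _ => adj_ub hd⟩
  obtain ⟨w, h2, h3, h4, h5⟩ := (cell_circle hM (fun e => Adj M v e) v h1).2
  refine ⟨w, h2, h3, h4, ?_⟩
  have h6 : Adj M v w = Adj M v v := h5
  rw [h6]
  exact adj_self hM v

/-- the side at `v` and `v` -/
lemma side_self (hM : M.Good) (v : E) :
    ∃ s : Sd M, s.av = v ∧ s.bv = v ∧ s.2.ev = true ∧ gl hM s = s := by
  obtain ⟨s, h1, h2⟩ := adj_self hM v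
  have h3 : ∀ t : Sd M, t.av = v → t.bv = v → t.2.ev = true := by
    intro t ht ht'
    by_contra h
    rw [Bool.not_eq_true] at h
    exact odd_ne hM h (by rw [ht, ht'])
  refine ⟨s, h1, h2, h3 s h1 h2, (gl_eq hM).2 fun t ht => ?_⟩
  exact ht.2.2 ((h3 t (ht.1.trans h1) (ht.2.1.trans h2)).trans (h3 s h1 h2).symm)

lemma side_w (hM : M.Good) (v : E) :
    ∃ s : Sd M, s.av = v ∧ M.comp s.bv = M.comp v ∧ s.2.ev = false ∧ gl hM s = s := by
  obtain ⟨w, -, h2, h3, s, h4, h5⟩ := adj_w hM v
  have h6 : ∀ t : Sd M, t.av = v → t.bv = w → t.2.ev = false := by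
    intro t ht ht'
    by_contra h
    rw [Bool.not_eq_false] at h
    exact ev_ne hM h (by rw [ht, ht', h3])
  refine ⟨s, h4, by rw [h5, h2], h6 s h4 h5, (gl_eq hM).2 fun t ht => ?_⟩
  exact ht.2.2 ((h6 t (ht.1.trans h4) (ht.2.1.trans h5)).trans (h6 s h4 h5).symm)

end Sd

end Pool.Agent.Lib.MP06c549.Z
end

section
/-!
# MP_06c549_co, Z: the complex of the cells of a polygon is planar and every vertex is on a hole
(helper59)
-/
set_option autoImplicit false
set_option linter.unusedSectionVars false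

namespace Pool.Agent.Lib.MP06c549.Z

open Finset PG Equiv Equiv.Perm

variable {ι E : Type} [Fintype E] [DecidableEq E] {M : RM ι E}

namespace Sd

/-! ## The number of the B-vertices at an A-vertex -/

open Classical in
lemma card_adj_le (hM : M.Good) (v : E) : (univ.filter fun b => Adj M v b).card ≤
    (univ.filter fun d : Cell M => d.ua = v ∨ d.la = v).card + 1 := by
  set Vt := {b // Adj M v b} with hVt
  set D := {d : Cell M // d.ua = v ∨ d.la = v} with hD
  set p : D → Vt := fun d => ⟨d.1.ub, adj_ub d.2⟩ with hp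
  set q : D → Vt := fun d => ⟨d.1.lb, adj_lb d.2⟩ with hq
  have : Nonempty Vt := ⟨⟨v, adj_self hM v⟩⟩
  have hconn : ∀ f : Vt → ZMod 2, (∀ d, f (p d) = f (q d)) → ∃ c, ∀ b, f b = c := by
    intro f hf
    set y : E → ZMod 2 := fun b => if h : Adj M v b then f ⟨b, h⟩ else 0 with hy
    have hyf : ∀ (b : E) (h : Adj M v b), y b = f ⟨b, h⟩ := fun b h => dif_pos h
    have hyd : ∀ d : Cell M, d.ua = v ∨ d.la = v → y d.ub = y d.lb := by
      intro d hd
      rw [hyf _ (adj_ub hd), hyf _ (adj_lb hd)]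
      exact hf ⟨d, hd⟩
    have h1 := (cell_circle hM y v hyd).1
    refine ⟨y v, fun b => ?_⟩
    obtain ⟨b, hb⟩ := b
    rw [← hyf b hb]
    obtain ⟨s, hs1, hs2⟩ := hb
    have h2 := h1 s.1 (by rw [← hs1]; exact at_av s)
    rcases at_bv s with h | h
    · rw [← hs2, ← h]; exact h2.1
    · rw [← hs2, ← h]; exact h2.2
  have h1 := incM_rank p q hconn
  have h2 := Matrix.rank_le_card_height (incM p q)
  have h3 : Fintype.card Vt = (univ.filter fun b => Adj M v b).card := Fintype.card_subtype _
  have h4 : Fintype.card D = (univ.filter fun d : Cell M => d.ua = v ∨ d.la = v).card :=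
    Fintype.card_subtype _
  omega

/-- at most one side of each parity at an A-vertex is not glued -/
lemma fixed_unique (hM : M.Good) {s t : Sd M} (he : s.2.ev = t.2.ev) (ha : s.av = t.av)
    (hs : gl hM s = s) (ht : gl hM t = t) : s = t := by
  classical
  obtain ⟨v, hv⟩ : ∃ v, v = s.av := ⟨_, rfl⟩
  obtain ⟨p, hp⟩ : ∃ p, p = s.2.ev := ⟨_, rfl⟩
  set F : Bool → Finset (Sd M) := fun p => univ.filter fun s => s.av = v ∧ s.2.ev = p with hF
  set A : Bool → Finset E := fun p => (F p).image fun s => s.bv with hA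
  have hmF : ∀ p (u : Sd M), u ∈ F p ↔ u.av = v ∧ u.2.ev = p := fun p u => by
    rw [hF]; simp
  have cA : ∀ p, (A p).card = (F p).card := by
    intro p
    refine card_image_of_injOn fun x hx y hy hxy => ?_
    have hx' := (hmF p x).1 (mem_coe.1 hx)
    have hy' := (hmF p y).1 (mem_coe.1 hy)
    exact inj hM (hx'.2.trans hy'.2.symm) (hx'.1.trans hy'.1.symm) hxy
  have cF : ∀ p, (univ.filter fun d : Cell M => d.ua = v ∨ d.la = v).card ≤ (F p).card := by
    intro p
    refine le_trans (card_le_card ?_) (card_image_le (s := F p) (f := fun s => s.1))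
    intro d hd
    obtain ⟨u, h1, h2, h3⟩ := exists_side (mem_filter.1 hd).2 p
    exact mem_image.2 ⟨u, (hmF p u).2 ⟨h2, h3⟩, h1⟩
  have hU : A p ∪ A (!p) ⊆ univ.filter fun b => Adj M v b := by
    intro b hb
    rw [mem_filter]
    refine ⟨mem_univ _, ?_⟩
    rcases mem_union.1 hb with h | h
    · obtain ⟨u, h1, h2⟩ := mem_image.1 h
      exact ⟨u, ((hmF _ u).1 h1).1, h2⟩
    · obtain ⟨u, h1, h2⟩ := mem_image.1 h
      exact ⟨u, ((hmF _ u).1 h1).1, h2⟩
  have h1 := (card_le_card hU).trans (card_adj_le hM v)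
  have h2 : (A p \ A (!p)).card + (A (!p)).card = (A p ∪ A (!p)).card := card_sdiff_add_card _ _
  have h3 := cF (!p)
  rw [← cA] at h3
  have h4 : (A p \ A (!p)).card ≤ 1 := by omega
  have key : ∀ u : Sd M, u.av = v → u.2.ev = p → gl hM u = u → u.bv ∈ A p \ A (!p) := by
    intro u h5 h6 h7
    rw [mem_sdiff]
    refine ⟨mem_image.2 ⟨u, (hmF _ _).2 ⟨h5, h6⟩, rfl⟩, fun h8 => ?_⟩
    obtain ⟨u', h9, h10⟩ := mem_image.1 h8
    have h11 := (hmF _ _).1 h9
    refine (gl_eq hM).1 h7 u' ⟨h11.1.trans h5.symm, h10, ?_⟩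
    rw [h11.2, h6]
    cases p <;> decide
  have h5 := card_le_one.1 h4 _ (key s hv.symm hp.symm hs) _
    (key t (ha.symm.trans hv.symm) (he.symm.trans hp.symm) ht)
  exact inj hM he ha h5

/-- the ends of a side which is not glued belong to one component -/
lemma comp_fixed (hM : M.Good) {s : Sd M} (hs : gl hM s = s) : M.comp s.bv = M.comp s.av := by
  cases h : s.2.ev with
  | true =>
    obtain ⟨t, h1, h2, h3, h4⟩ := side_self hM s.av
    have h5 := fixed_unique hM (h.trans h3.symm) h1.symm hs h4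
    rw [← h5] at h2
    rw [h2]
  | false =>
    obtain ⟨t, h1, h2, h3, h4⟩ := side_w hM s.av
    have h5 := fixed_unique hM (h.trans h3.symm) h1.symm hs h4
    rw [← h5] at h2
    exact h2

open Classical in
/-- the number of sides which are not glued -/
lemma card_fixed (hM : M.Good) :
    (univ.filter fun s : Sd M => gl hM s = s).card = 2 * Fintype.card E := by
  have h1 : (univ.filter fun s : Sd M => gl hM s = s).card = (univ : Finset (E × Bool)).card := by
    refine card_nbij (fun s => (s.av, s.2.ev)) (fun _ _ => mem_univ _) ?_ ?_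
    · intro s hs t ht hst
      have hs' := (mem_filter.1 (mem_coe.1 hs)).2
      have ht' := (mem_filter.1 (mem_coe.1 ht)).2
      have h2 := Prod.mk.inj hst
      exact fixed_unique hM h2.2 h2.1 hs' ht'
    · rintro ⟨v, p⟩ -
      cases p with
      | true =>
        obtain ⟨t, h1, h2, h3, h4⟩ := side_self hM v
        exact ⟨t, mem_coe.2 (mem_filter.2 ⟨mem_univ _, h4⟩), Prod.ext h1 h3⟩
      | false =>
        obtain ⟨t, h1, h2, h3, h4⟩ := side_w hM v
        exact ⟨t, mem_coe.2 (mem_filter.2 ⟨mem_univ _, h4⟩), Prod.ext h1 h3⟩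
  rw [h1, card_univ, Fintype.card_prod, Fintype.card_bool, mul_comm]

/-! ## Numbers of cycles -/

open Classical in
lemma two_ncyc {S : Type} [Fintype S] {g : Perm S} (hg : Inv g) :
    2 * ncyc g = Nat.card S + (univ.filter fun s => g s = s).card := by
  refine Inv.induction (p := fun g => 2 * ncyc g = Nat.card S + (univ.filter fun s => g s = s).card)
    ?_ ?_ hg
  · have h1 : (univ.filter fun s : S => (1 : Perm S) s = s) = univ :=
      filter_true_of_mem fun _ _ => rfl
    rw [ncyc_one, h1, card_univ, Nat.card_eq_fintype_card]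
    omega
  · intro g s t hg hst hs ht ih
    have h1 := ncyc_swap_free hst hs
    have h2 : (univ.filter fun x => g x = x) =
        insert s (insert t (univ.filter fun x => (g * swap s t) x = x)) := by
      ext x
      simp only [mem_filter, mem_univ, true_and, mem_insert]
      by_cases h3 : x = s
      · subst h3
        simp [hs]
      by_cases h4 : x = t
      · subst h4
        simp [ht]
      rw [Perm.mul_apply, swap_apply_of_ne_of_ne h3 h4]
      tauto
    have h3 : s ∉ insert t (univ.filter fun x => (g * swap s t) x = x) := by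
      rw [mem_insert, mem_filter, Perm.mul_apply, swap_apply_left, ht]
      rintro (h | ⟨-, h⟩)
      · exact hst h
      · exact hst h.symm
    have h4 : t ∉ (univ.filter fun x => (g * swap s t) x = x) := by
      rw [mem_filter, Perm.mul_apply, swap_apply_right, hs]
      rintro ⟨-, h⟩
      exact hst h
    rw [h2, card_insert_of_notMem h3, card_insert_of_notMem h4] at ih
    omega

lemma same_nx (s : Sd M) : SameCycle (rho M) s (rho M s) := ⟨1, by simp⟩

lemma same_cell (d : Cell M) (k : Kd) : SameCycle (rho M) (d, .t) (d, k) := by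
  have h1 : SameCycle (rho M) (d, .t) (d, .l) := same_nx (d, .t)
  have h2 : SameCycle (rho M) (d, .l) (d, .b) := same_nx (d, .l)
  have h3 : SameCycle (rho M) (d, .b) (d, .r) := same_nx (d, .b)
  cases k
  · exact SameCycle.refl _ _
  · exact h1
  · exact h1.trans h2
  · exact (h1.trans h2).trans h3

lemma same_iff {s t : Sd M} : SameCycle (rho M) s t ↔ s.1 = t.1 := by
  constructor
  · intro h
    exact (sameCycle_le_of (σ := rho M) (q := Setoid.ker (Prod.fst : Sd M → Cell M))
      (fun _ => rfl)) h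
  · rintro h
    rcases s with ⟨d, k⟩
    rcases t with ⟨d', k'⟩
    have h' : d = d' := h
    subst h'
    exact (same_cell d k).symm.trans (same_cell d k')

lemma ncyc_rho : ncyc (rho M) = Fintype.card (Cell M) := by
  unfold ncyc ncl
  rw [← Nat.card_eq_fintype_card]
  refine Nat.card_congr (Equiv.ofBijective (Quotient.lift (fun s : Sd M => s.1)
    (fun s t h => same_iff.1 h)) ⟨?_, ?_⟩)
  · intro x y hxy
    induction x using Quotient.inductionOn' with
    | h x =>
      induction y using Quotient.inductionOn' with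
      | h y => exact Quotient.eq''.2 (same_iff.2 hxy)
  · intro d
    exact ⟨Quotient.mk'' (d, Kd.t), rfl⟩

/-! ## Connectedness -/

theorem conn [DecidableEq ι] (hM : M.Good) (hh : M.Holes) (s₀ t : Sd M) :
    comp (rho M) (gl hM) s₀ t := by
  classical
  set z : Sd M → Prop := fun s => comp (rho M) (gl hM) s₀ s with hz
  have zr : ∀ s t : Sd M, s.1 = t.1 → z s → z t := by
    intro s t h hs
    exact (comp (rho M) (gl hM)).trans hs ((le_sup_left : SameCycle.setoid (rho M) ≤ _)
      (same_iff.2 h))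
  have zg : ∀ s : Sd M, z s → z (gl hM s) := fun s hs =>
    (comp (rho M) (gl hM)).trans hs (comp_right s)
  have zp : ∀ s t : Sd M, s.av = t.av → s.bv = t.bv → z s → z t := by
    intro s t h1 h2 hs
    by_cases h3 : s.2.ev = t.2.ev
    · rw [← inj hM h3 h1 h2]; exact hs
    · have h4 : Pt s t := ⟨h1.symm, h2.symm, fun h => h3 h.symm⟩
      have h5 : gl hM s = t := gf_of hM h4
      rw [← h5]; exact zg s hs
  -- all cells at a vertex are alike
  have key : ∀ (v : E) (d d' : Cell M), (d.ua = v ∨ d.la = v) → (d'.ua = v ∨ d'.la = v) →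
      z (d, .t) → z (d', .t) := by
    intro v d d' hd hd' hzd
    set y : E → Prop := fun b => ∃ s : Sd M, s.av = v ∧ s.bv = b ∧ z s with hy
    have h1 : ∀ d : Cell M, d.ua = v ∨ d.la = v → (y d.ub ↔ z (d, .t)) := by
      intro d hd
      obtain ⟨s, h1, h2, h3⟩ := exists_ub hd
      constructor
      · rintro ⟨t, h4, h5, h6⟩
        exact zr s _ h1 (zp t s (h4.trans h2.symm) (h5.trans h3.symm) h6)
      · intro h4
        exact ⟨s, h2, h3, zr _ s h1.symm h4⟩
    have h2 : ∀ d : Cell M, d.ua = v ∨ d.la = v → (y d.lb ↔ z (d, .t)) := by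
      intro d hd
      obtain ⟨s, h1, h2, h3⟩ := exists_lb hd
      constructor
      · rintro ⟨t, h4, h5, h6⟩
        exact zr s _ h1 (zp t s (h4.trans h2.symm) (h5.trans h3.symm) h6)
      · intro h4
        exact ⟨s, h2, h3, zr _ s h1.symm h4⟩
    have h3 := (cell_circle hM y v fun d hd => propext ((h1 d hd).trans (h2 d hd).symm)).1
    have h4 : y d.ub = y v := (h3 d hd).1
    have h5 : y d'.ub = y v := (h3 d' hd').1
    rw [← h1 d' hd', h5, ← h4]
    exact (h1 d hd).2 hzd
  set f : E → ZMod 2 := fun v => if ∃ d : Cell M, (d.ua = v ∨ d.la = v) ∧ z (d, .t) then 1 else 0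
    with hf
  obtain ⟨c, hc⟩ := cell_conn hM hh f (by
    intro d
    have h1 : (∃ d' : Cell M, (d'.ua = d.ua ∨ d'.la = d.ua) ∧ z (d', .t)) ↔
        ∃ d' : Cell M, (d'.ua = d.la ∨ d'.la = d.la) ∧ z (d', .t) := by
      constructor
      · rintro ⟨d', h1, h2⟩
        exact ⟨d, Or.inr rfl, key d.ua d' d h1 (Or.inl rfl) h2⟩
      · rintro ⟨d', h1, h2⟩
        exact ⟨d, Or.inl rfl, key d.la d' d h1 (Or.inr rfl) h2⟩
    rw [hf]
    simp only [h1])
  have h0 : z (s₀.1, .t) := zr s₀ _ rfl ((comp (rho M) (gl hM)).refl s₀)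
  have h1 : f s₀.1.ua = 1 := if_pos ⟨s₀.1, Or.inl rfl, h0⟩
  have h2 : f t.1.ua = 1 := by rw [hc, ← hc s₀.1.ua, h1]
  by_cases h3 : ∃ d : Cell M, (d.ua = t.1.ua ∨ d.la = t.1.ua) ∧ z (d, .t)
  · obtain ⟨d, h4, h5⟩ := h3
    exact zr (t.1, .t) t rfl (key t.1.ua d t.1 h4 (Or.inl rfl) h5)
  · have h4 : f t.1.ua = 0 := if_neg h3
    rw [h4] at h2
    exact absurd h2 (by decide)

/-! ## The holes -/

/-- the component of the start corner -/
noncomputable def cs (s : Sd M) : ι := Sum.elim M.comp M.comp (st s)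

lemma cs_step (hM : M.Good) (s : Sd M) : cs ((rho M * gl hM) s) = cs s := by
  unfold cs
  rw [Perm.mul_apply, st_rho]
  by_cases h : gl hM s = s
  · rw [h]
    have h1 := comp_fixed hM h
    unfold st en
    cases s.2.ev <;> simp [h1]
  · have h1 : gl hM (gl hM s) ≠ gl hM s := fun h' => h (by
      have := congrArg (gl hM) h'
      rw [gl_inv hM, gl_inv hM] at this
      exact this)
    have h2 := st_gl hM h1
    rw [gl_inv hM] at h2
    rw [← h2]

lemma cs_same (hM : M.Good) {s t : Sd M} (h : SameCycle (rho M * gl hM) s t) : cs s = cs t :=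
  (sameCycle_le_of (σ := rho M * gl hM) (q := Setoid.ker (cs : Sd M → ι))
    (fun s => (cs_step hM s).symm)) h

/-- every component has a free side -/
lemma exists_fixed [DecidableEq ι] (hM : M.Good) (hh : M.Holes) (i : ι) :
    ∃ t : Sd M, cs t = i ∧ gl hM t = t := by
  obtain ⟨e, he⟩ := hh.surj i
  obtain ⟨t, h1, h2, h3, h4⟩ := side_self hM e
  refine ⟨t, ?_, h4⟩
  unfold cs st
  rw [h3, h1]
  exact he

variable [Fintype ι] [DecidableEq ι]

/-- the number of holes -/
theorem holes [Nonempty E] (hM : M.Good) (hh : M.Holes) :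
    ncyc (rho M * gl hM) = Fintype.card ι ∧
      (∀ s t : Sd M, SameCycle (rho M * gl hM) s t ↔ cs s = cs t) ∧ Planar (rho M) (gl hM) := by
  classical
  have h1 := (cell_exact hM hh).1
  have h2 : 2 * ncyc (gl hM) = Nat.card (Sd M) + 2 * Fintype.card E := by
    rw [two_ncyc (gl_inv hM), ← card_fixed hM]
    congr!
  have h3 : Nat.card (Sd M) = Fintype.card (Cell M) * 4 := by
    rw [Nat.card_eq_fintype_card, Fintype.card_prod, Kd.card_kd]
  have h4 := genus (rho M) (gl_inv hM)
  obtain ⟨e⟩ := ‹Nonempty E›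
  obtain ⟨d, -⟩ := exists_at hM e
  have h5 : ncl (comp (rho M) (gl hM)) = 1 := by
    unfold ncl
    rw [Nat.card_eq_one_iff_unique]
    refine ⟨⟨fun x y => ?_⟩, ⟨Quotient.mk'' (d, Kd.t)⟩⟩
    induction x using Quotient.inductionOn' with
    | h x =>
      induction y using Quotient.inductionOn' with
      | h y => exact Quotient.eq''.2 (conn hM hh x y)
  have h6 := ncyc_rho (M := M)
  have := Fintype.ofFinite (Quotient (SameCycle.setoid (rho M * gl hM)))
  set Φ : Quotient (SameCycle.setoid (rho M * gl hM)) → ι :=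
    Quotient.lift (fun s : Sd M => cs s) (fun s t h => cs_same hM h) with hΦ
  have hs : Function.Surjective Φ := by
    intro i
    obtain ⟨t, ht, -⟩ := exists_fixed hM hh i
    exact ⟨Quotient.mk'' t, ht⟩
  have h7 := Fintype.card_le_of_surjective Φ hs
  have h8 : ncyc (rho M * gl hM) = Fintype.card (Quotient (SameCycle.setoid (rho M * gl hM))) := by
    unfold ncyc ncl
    rw [Nat.card_eq_fintype_card]
  rw [h5, h3, h6] at h4
  rw [h3] at h2
  have h9 : ncyc (rho M * gl hM) = Fintype.card ι := by omega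
  refine ⟨h9, fun s t => ⟨cs_same hM, fun h => ?_⟩, ?_⟩
  · have hb := (Fintype.bijective_iff_surjective_and_card Φ).2 ⟨hs, h8.symm.trans h9⟩
    have h10 : Φ (Quotient.mk'' s) = Φ (Quotient.mk'' t) := h
    exact Quotient.eq''.1 (hb.1 h10)
  · unfold Planar
    rw [h5, h3, h6]
    omega

/-- every vertex is on a hole -/
theorem lin [Nonempty E] (hM : M.Good) (hh : M.Holes) (s : Sd M) :
    ∃ t, SameCycle (rho M * gl hM) s t ∧ gl hM t = t := by
  obtain ⟨t, h1, h2⟩ := exists_fixed hM hh (cs s)
  exact ⟨t, ((holes hM hh).2.1 s t).2 h1.symm, h2⟩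

open Classical in
/-- the number of glued sides -/
lemma card_glued (hM : M.Good) :
    (univ.filter fun s : Sd M => gl hM s ≠ s).card + 2 * Fintype.card E =
      4 * Fintype.card (Cell M) := by
  have h1 : (univ.filter fun s : Sd M => gl hM s = s).card +
      (univ.filter fun s : Sd M => gl hM s ≠ s).card = (univ : Finset (Sd M)).card := by
    rw [← card_filter_add_card_filter_not (s := (univ : Finset (Sd M))) (fun s => gl hM s = s)]
  rw [card_fixed hM, card_univ, Fintype.card_prod, Kd.card_kd] at h1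
  omega

end Sd

end Pool.Agent.Lib.MP06c549.Z
end

section
/-!
# MP_06c549_co, Z: from the theorem on complexes to polygons (helper59)
-/
set_option autoImplicit false
set_option linter.unusedSectionVars false

namespace Pool.Agent.Lib.MP06c549.Z

open Finset PG Equiv Equiv.Perm

variable {ι E : Type} [Fintype E] [DecidableEq E] {M : RM ι E}

namespace Sd

/-- the number of an element of a finite type -/
noncomputable def num (x : E) : ℕ := (Fintype.equivFin E x).val

lemma num_inj {x y : E} (h : num x = num y) : x = y :=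
  (Fintype.equivFin E).injective (Fin.ext h)

/-- labels of the vertices: A-vertices are even, B-vertices are odd -/
noncomputable def lb (x : E ⊕ E) : ℕ := Sum.elim (fun e => 2 * num e) (fun e => 2 * num e + 1) x

lemma lb_inj {x y : E ⊕ E} (h : lb x = lb y) : x = y := by
  unfold lb at h
  rcases x with x | x <;> rcases y with y | y <;> simp only [Sum.elim_inl, Sum.elim_inr] at h
  · rw [num_inj (show num x = num y by omega)]
  · omega
  · omega
  · rw [num_inj (show num x = num y by omega)]

lemma lb_par (s : Sd M) : (lb (st s) + lb (en s)) % 2 = 1 := by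
  unfold lb st en
  cases s.2.ev <;> simp <;> omega

/-- the complex of the cells -/
noncomputable def cx (hM : M.Good) : Cx (Sd M) where
  A := univ
  ρ := rho M
  g := gl hM
  lab := fun s => lb (st s)
  inv := gl_inv hM

lemma rho2_ne (s : Sd M) : rho M (rho M s) ≠ s := by
  rcases s with ⟨d, k⟩
  intro h
  exact Kd.nx_nx_ne k (congrArg Prod.snd h)

variable [Fintype ι] [DecidableEq ι] [Nonempty E]

theorem cx_good (hM : M.Good) (hh : M.Holes) : (cx hM).Good where
  rho4 := by
    rintro ⟨d, k⟩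
    exact Prod.ext rfl (Kd.nx4 k)
  rho2 := rho2_ne
  A_rho := fun _ _ => mem_univ _
  A_g := fun _ _ => mem_univ _
  lab_g := by
    intro s hs
    change lb (st (gl hM s)) = lb (st (rho M s))
    rw [st_gl hM hs, st_rho]
  par := by
    intro s _
    change (lb (st s) + lb (st (rho M s))) % 2 = 1
    rw [st_rho]
    exact lb_par s
  lin := lin hM hh
  planar := (holes hM hh).2.2

theorem cx_c (hM : M.Good) (hh : M.Holes) : (cx hM).c = 1 := by
  obtain ⟨e⟩ := ‹Nonempty E›
  obtain ⟨d, -⟩ := exists_at hM e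
  refine nc_eq_one ⟨(d, .t), mem_univ _⟩ fun s _ t _ => ?_
  have h1 := conn hM hh s t
  have h2 : comp (rho M) (gl hM) ≤ (cx hM).conn :=
    comp_le_of (fun x => Cx.conn_rho x) fun x => (cx_good hM hh).conn_g
  exact h2 h1

theorem cx_P (hM : M.Good) (hh : M.Holes) :
    (cx hM).P + 1 = 2 * (Fintype.card E : ℤ) + Fintype.card ι := by
  have h1 := (cell_exact hM hh).1
  have h2 := card_glued hM
  have h3 : (cx hM).A.card = Fintype.card (Cell M) * 4 := by
    change (univ : Finset (Sd M)).card = _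
    rw [card_univ, Fintype.card_prod, Kd.card_kd]
  have h4 : (cx hM).g.support.card = (univ.filter fun s : Sd M => gl hM s ≠ s).card := by
    unfold support
    congr!
  unfold Cx.P Cx.N Cx.E
  rw [cx_c hM hh, h3, h4]
  omega

/-- hitting sets -/
theorem hits (hM : M.Good) {C : Finset ℕ} (hC : (cx hM).Cov C) :
    ∃ A B : Finset E, A.card + B.card ≤ C.card ∧ Hits M A B := by
  classical
  refine ⟨univ.filter fun e => lb (Sum.inl e : E ⊕ E) ∈ C,
    univ.filter fun e => lb (Sum.inr e : E ⊕ E) ∈ C, ?_, ?_⟩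
  · have h1 : ((univ.filter fun e => lb (Sum.inl e : E ⊕ E) ∈ C).image
        fun e => lb (Sum.inl e : E ⊕ E)).card =
        (univ.filter fun e => lb (Sum.inl e : E ⊕ E) ∈ C).card :=
      card_image_of_injective _ fun x y h => Sum.inl_injective (lb_inj h)
    have h2 : ((univ.filter fun e => lb (Sum.inr e : E ⊕ E) ∈ C).image
        fun e => lb (Sum.inr e : E ⊕ E)).card =
        (univ.filter fun e => lb (Sum.inr e : E ⊕ E) ∈ C).card :=
      card_image_of_injective _ fun x y h => Sum.inr_injective (lb_inj h)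
    rw [← h1, ← h2, ← card_union_of_disjoint]
    · refine card_le_card fun x hx => ?_
      rcases mem_union.1 hx with hx | hx
      · obtain ⟨e, he, rfl⟩ := mem_image.1 hx
        exact (mem_filter.1 he).2
      · obtain ⟨e, he, rfl⟩ := mem_image.1 hx
        exact (mem_filter.1 he).2
    · rw [disjoint_left]
      intro x hx hx'
      obtain ⟨e, -, rfl⟩ := mem_image.1 hx
      obtain ⟨e', -, he'⟩ := mem_image.1 hx'
      exact absurd (lb_inj he') (by simp)
  · intro d
    have h1 := hC (d, .t) (mem_univ _)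
    change lb (Sum.inl d.ua : E ⊕ E) ∈ C ∨ lb (Sum.inr d.ub : E ⊕ E) ∈ C ∨
      lb (Sum.inl d.la : E ⊕ E) ∈ C ∨ lb (Sum.inr d.lb : E ⊕ E) ∈ C at h1
    simp only [mem_filter, mem_univ, true_and]
    tauto

end Sd

/-- the statement on complexes -/
def Main : Prop := ∀ (S : Type) [Fintype S] [DecidableEq S] (X : Cx S), X.Good →
  4 * (X.tau : ℤ) ≤ X.P

/-- **Shermer's bound from the statement on complexes**: every orthogonal polygon with `n` vertices
and `h` holes is guarded by `(n + h) / 4` of its vertices -/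
theorem shermer (H : Main) (P : HPoly) (hP : P.IsPoly) :
    ∃ G : Finset (ℝ × ℝ), (G : Set (ℝ × ℝ)) ⊆ P.vertices ∧ G.card ≤ (P.n + P.h) / 4 ∧
      P.Guards G := by
  classical
  refine guard_poly P hP _ ?_
  intro E _ _ M hM hh _ hn _
  have hne : Nonempty E := by
    obtain ⟨e, -⟩ := hh.surj none
    exact ⟨e⟩
  obtain ⟨C, hC, hc⟩ := (Sd.cx hM).exists_cov
  obtain ⟨A, B, hAB, hhit⟩ := Sd.hits hM hC
  refine ⟨A, B, ?_, hhit⟩
  have h1 := H _ _ (Sd.cx_good hM hh)
  have h2 := Sd.cx_P hM hh
  have h3 : Fintype.card (Option (Fin P.h)) = P.h + 1 := by simp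
  rw [h3] at h2
  rw [Nat.le_div_iff_mul_le (by norm_num)]
  push_cast at h2
  omega

end Pool.Agent.Lib.MP06c549.Z
end
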