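import Pool.Agent.Lib.MP_06c549_co.Z.Walk

/-!
# MP_06c549_co, Z: repeated cells (module DEG)

In a minimal counterexample a cell with two equal opposite corners is of type L (a cap).
-/

set_option autoImplicit false
set_option linter.unusedSectionVars false

namespace Pool.Agent.Lib.MP06c549.Z

open Equiv Equiv.Perm Finset

variable {S : Type} [Fintype S] [DecidableEq S]

namespace Cx

variable {X : Cx S}

/-- going down in a fan -/
lemma at_down {f x : S} {k j : ℕ} (h : X.At f k x) (hj : j ≤ k) : ∃ z, X.At f j z := by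
  induction k generalizing x with
  | zero =>
    have h1 : j = 0 := by omega
    rw [h1]
    exact ⟨x, h⟩
  | succ k ih =>
    by_cases h1 : j = k + 1
    · rw [h1]
      exact ⟨x, h⟩
    · exact ih (at_succ.1 h).2 (by omega)

/-- a cover of the complex without the cell of `s` and one corner of this cell -/
lemma Good.cov_cell (hX : X.Good) {s : S} {C : Finset ℕ}
    (h : (X.sub (X.A \ X.cell s)).Cov C) {u : ℕ} (hu : u = X.lab s ∨ u = X.lab (X.ρ s) ∨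
      u = X.lab (X.ρ (X.ρ s)) ∨ u = X.lab (X.ρ (X.ρ (X.ρ s)))) : X.Cov (insert u C) := by
  intro x hx
  simp only [mem_insert]
  by_cases hxs : x ∈ X.cell s
  · have h4 := hX.rho4 s
    rcases mem_cell.1 hxs with rfl | rfl | rfl | rfl
    · tauto
    · rw [h4]; tauto
    · rw [h4]; tauto
    · rw [h4]; tauto
  · have h1 : X.lab x ∈ C ∨ X.lab (X.ρ x) ∈ C ∨ X.lab (X.ρ (X.ρ x)) ∈ C ∨
      X.lab (X.ρ (X.ρ (X.ρ x))) ∈ C := h x (mem_inter.2 ⟨hx, mem_sdiff.2 ⟨hx, hxs⟩⟩)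
    tauto

lemma Good.tau_cell_le (hX : X.Good) (s : S) : X.tau ≤ (X.sub (X.A \ X.cell s)).tau + 1 := by
  obtain ⟨C, hC, hc⟩ := (X.sub (X.A \ X.cell s)).exists_cov
  have h1 := tau_le (hX.cov_cell hC (u := X.lab s) (Or.inl rfl))
  have h2 := card_insert_le (X.lab s) C
  omega

/-- if the cell of `s` costs a guard, each of its corners is free -/
lemma Good.fr_of_cell (hX : X.Good) {s : S} {u : ℕ} (hu : u = X.lab s ∨ u = X.lab (X.ρ s) ∨
      u = X.lab (X.ρ (X.ρ s)) ∨ u = X.lab (X.ρ (X.ρ (X.ρ s))))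
    (h : (X.sub (X.A \ X.cell s)).tau < X.tau) : X.Fr {u} := by
  obtain ⟨C, hC, hc⟩ := (X.sub (X.A \ X.cell s)).exists_cov
  have h1 := hX.cov_cell hC hu
  have h2 := card_insert_le u C
  have h3 := tau_le h1
  exact ⟨insert u C, h1, singleton_subset_iff.2 (mem_insert_self _ _), by omega⟩

/-- a corner of the cell of `s` that is free without the cell is free -/
lemma Good.fr_of_fr_cell (hX : X.Good) {s : S} {u : ℕ} (hu : u = X.lab s ∨ u = X.lab (X.ρ s) ∨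
      u = X.lab (X.ρ (X.ρ s)) ∨ u = X.lab (X.ρ (X.ρ (X.ρ s))))
    (h : (X.sub (X.A \ X.cell s)).Fr {u}) : X.Fr {u} := by
  obtain ⟨C, hC, huC, hc⟩ := h
  have h1 := hX.cov_cell hC hu
  rw [insert_eq_of_mem (singleton_subset_iff.1 huC)] at h1
  have h2 := sub_tau_le X (X.A \ X.cell s)
  have h3 := tau_le h1
  exact ⟨C, h1, huC, by omega⟩

section aux

variable {s f : S} {k l : ℕ}

/-- the situation: `s` and `ρ² s` are corners of `v` in one fan, `s` is farther from its end -/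
structure Rep (X : Cx S) (s f : S) (k l : ℕ) : Prop where
  min : X.Min
  pf : X.PF
  f_mem : f ∈ X.A
  f_free : X.g f = f
  at1 : X.At f k s
  at2 : X.At f l (X.ρ (X.ρ s))
  lt : l < k

namespace Rep

variable (h : X.Rep s f k l)
include h

lemma good : X.Good := h.min.good

lemma lab1 : X.lab s = X.lab f := h.good.at_lab h.at1

lemma lab2 : X.lab (X.ρ (X.ρ s)) = X.lab s := by
  rw [h.lab1, h.good.at_lab h.at2]

lemma s_glued : X.g s ≠ s := by
  obtain ⟨n, rfl⟩ : ∃ n, k = n + 1 := ⟨k - 1, by have := h.lt; omega⟩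
  exact (at_succ.1 h.at1).1

lemma sA : s ∈ X.A := h.good.A_g s h.s_glued

lemma par1 : (X.lab s + X.lab (X.ρ s)) % 2 = 1 := h.good.par s h.sA

lemma lab_gs : X.lab (X.g s) = X.lab (X.ρ s) := h.good.lab_g s h.s_glued

/-- the corner before `ρ² s` -/
lemma exists_z : ∃ z, X.At f (l + 1) z ∧ X.g (X.ρ s) = z ∧ X.g (X.ρ s) ≠ X.ρ s := by
  obtain ⟨z, hz⟩ := at_down h.at1 (show l + 1 ≤ k from h.lt)
  obtain ⟨h1, h2⟩ := at_succ.1 hz
  have h3 : X.ρ (X.g z) = X.ρ (X.ρ s) := at_inj h2 h.at2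
  have h4 : X.g z = X.ρ s := X.ρ.injective h3
  have h5 : X.g (X.ρ s) = z := by rw [← h4, X.inv]
  refine ⟨z, hz, h5, ?_⟩
  rw [h5, ← h4]
  exact fun h6 => h1 h6.symm

lemma t_glued : X.g (X.ρ s) ≠ X.ρ s := by
  obtain ⟨-, -, -, h1⟩ := h.exists_z
  exact h1

lemma at_z : X.At f (l + 1) (X.g (X.ρ s)) := by
  obtain ⟨z, h1, h2, -⟩ := h.exists_z
  rw [h2]
  exact h1

lemma lab_z : X.lab (X.g (X.ρ s)) = X.lab s := by
  rw [h.good.at_lab h.at_z, h.lab1]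

lemma l_lt : l + 1 < k := by
  have h1 := h.lt
  by_contra h2
  have h3 : k = l + 1 := by omega
  have h4 := h.at1
  rw [h3] at h4
  have h5 : s = X.g (X.ρ s) := at_inj h4 h.at_z
  exact h.good.g_ne_rho s (by rw [h5, X.inv, ← h5])

lemma at3 : X.At f (k - 1) (X.ρ (X.g s)) := by
  obtain ⟨n, rfl⟩ : ∃ n, k = n + 1 := ⟨k - 1, by have := h.lt; omega⟩
  exact (at_succ.1 h.at1).2

/-- sides with the label `v` are not `ρ s`, `g s` -/
lemma ne_of_v {x : S} (hx : X.lab x = X.lab s) : x ≠ X.ρ s ∧ x ≠ X.g s := by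
  have h1 := h.par1
  refine ⟨?_, ?_⟩
  · rintro rfl
    rw [hx] at h1
    omega
  · rintro rfl
    rw [h.lab_gs] at hx
    rw [hx] at h1
    omega

lemma ne_of_at {x : S} {i : ℕ} (hx : X.At f i x) : x ≠ X.ρ s ∧ x ≠ X.g s :=
  h.ne_of_v (by rw [h.good.at_lab hx, h.lab1])

lemma ne_s {x : S} {i : ℕ} (hx : X.At f i x) (hi : i ≠ k) : x ≠ s := by
  rintro rfl
  exact hi (at_unique h.f_free hx h.at1)

lemma ne_z {x : S} {i : ℕ} (hx : X.At f i x) (hi : i ≠ l + 1) : x ≠ X.g (X.ρ s) := by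
  rintro rfl
  exact hi (at_unique h.f_free hx h.at_z)

lemma cut_s_of_ne {x : S} (h1 : x ≠ s) (h2 : x ≠ X.g s) : (X.cut s).g x = X.g x :=
  unglue_of_ne h1 h2

theorem two_cut : X.TwoCut s (X.ρ s) where
  hs := h.s_glued
  ht := h.t_glued
  ts := h.good.rho1 s
  tgs := fun h1 => h.good.g_ne_rho s h1.symm
  bs := by
    intro h1
    have h2 := (Planar.bridge_iff X.inv h.good.planar h.s_glued).1 h1
    apply h2
    have h3 : comp X.ρ (X.cut s).g (X.ρ (X.g s)) (X.ρ (X.ρ s)) := by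
      refine comp_at' h.at2 h.at3 (by have := h.l_lt; omega) fun z i hz h4 h5 => ?_
      have := h.lt
      exact h.cut_s_of_ne (h.ne_s hz (by omega)) (h.ne_of_at hz).2
    refine (comp _ _).trans (b := X.ρ (X.ρ s)) ?_ ((comp _ _).trans (b := X.ρ (X.g s))
      ((comp _ _).symm h3) ((comp _ _).symm (comp_left _)))
    exact (comp _ _).trans (comp_left s) (comp_left _)
  bt := by
    intro h1
    have h2 := (Planar.bridge_iff X.inv h.good.planar h.t_glued).1 h1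
    apply h2
    have h3 : comp X.ρ (X.cut (X.ρ s)).g s (X.g (X.ρ s)) := by
      refine comp_at' h.at_z h.at1 (by have := h.l_lt; omega) fun z i hz h4 h5 => ?_
      exact unglue_of_ne (h.ne_of_at hz).1 (h.ne_z hz (by omega))
    exact (comp _ _).trans ((comp _ _).symm (comp_left s)) h3
  cut := by
    have h1 : ¬ SameCycle (X.ρ * X.g) s (X.g s) := by
      intro h1
      have h2 := (Planar.bridge_iff X.inv h.good.planar h.s_glued).1 h1
      apply h2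
      have h3 : comp X.ρ (X.cut s).g (X.ρ (X.g s)) (X.ρ (X.ρ s)) := by
        refine comp_at' h.at2 h.at3 (by have := h.l_lt; omega) fun z i hz h4 h5 => ?_
        have := h.lt
        exact h.cut_s_of_ne (h.ne_s hz (by omega)) (h.ne_of_at hz).2
      refine (comp _ _).trans (b := X.ρ (X.ρ s)) ?_ ((comp _ _).trans (b := X.ρ (X.g s))
        ((comp _ _).symm h3) ((comp _ _).symm (comp_left _)))
      exact (comp _ _).trans (comp_left s) (comp_left _)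
    have h2 : SameCycle (X.ρ * (X.cut s).g) s (X.g s) := by
      have h3 := sameCycle_of_not h1
      rw [mul_assoc] at h3
      exact h3
    have h3 : SameCycle (X.ρ * (X.cut s).g) s (X.ρ s) := by
      refine ⟨1, ?_⟩
      have h4 : (X.cut s).g s = s := unglue_left X.inv s
      rw [zpow_one, Perm.mul_apply, h4]
    have h4 : SameCycle (X.ρ * (X.cut s).g) (X.g s) (X.ρ (X.g s)) := by
      refine ⟨1, ?_⟩
      have h5 : (X.cut s).g (X.g s) = X.g s := unglue_right s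
      rw [zpow_one, Perm.mul_apply, h5]
    have h5 : SameCycle (X.ρ * (X.cut s).g) (X.ρ (X.g s)) (X.g (X.ρ s)) := by
      refine cycle_at h.at_z h.at3 (by have := h.l_lt; omega) fun z i hz h6 h7 => ?_
      have := h.lt
      exact h.cut_s_of_ne (h.ne_s hz (by omega)) (h.ne_of_at hz).2
    exact h3.symm.trans (h2.trans (h4.trans h5))

/-- the part that contains the cell of `s` -/
noncomputable def _root_.Pool.Agent.Lib.MP06c549.Z.Cx.B (X : Cx S) (s : S) : Finset S :=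
  X.part s (X.ρ s)

lemma hc : ∀ x ∈ X.A, ∀ y ∈ X.A, comp X.ρ X.g x y := fun _ hx _ hy =>
  h.good.comp_of_conn h.pf (h.min.conn hx hy)

lemma t_mem : X.ρ s ∈ X.B s := h.two_cut.t_mem h.good

lemma cl_B : X.Cl (X.B s) := h.two_cut.cl_part h.good

lemma cell_sub_B : X.cell s ⊆ X.B s := by
  refine cell_sub h.cl_B ?_
  exact (h.good.cl_iff h.cl_B).1 h.t_mem

lemma s_mem : s ∈ X.B s := h.cell_sub_B (self_mem_cell s)

lemma gs_notMem : X.g s ∉ X.B s := (h.two_cut.s_iff h.hc h.good).1 h.s_mem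

lemma z_notMem : X.g (X.ρ s) ∉ X.B s := h.two_cut.gt_notMem h.good

lemma cut2_of_v {x : S} {i : ℕ} (hx : X.At f i x) (h1 : i ≠ k) (h2 : i ≠ l + 1) :
    X.cut2 s (X.ρ s) x = X.g x :=
  cut2_of_ne (h.ne_s hx h1) (h.ne_of_at hx).2 (h.ne_of_at hx).1 (h.ne_z hx h2)
    h.two_cut.ts h.two_cut.tgs

/-- the label `b'` occurs in `B` only at `ρ s` -/
lemma b'_only {x : S} (hx : x ∈ X.B s) (hl : X.lab x = X.lab (X.ρ s)) : x = X.ρ s := by
  have hG := h.good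
  have hxA : x ∈ X.A := part_sub _ _ hx
  obtain ⟨f', hf1, hf2, hf3, m, hm⟩ := hG.exists_at (hG.A_rho s h.sA)
  obtain ⟨j, hj⟩ := hG.at_of_pf h.pf hf2 hf1 hxA (by rw [hl, hf3])
  have hgs : X.At f' (m + 1) (X.g s) := by
    refine at_succ.2 ⟨?_, ?_⟩
    · rw [X.inv]
      exact fun h1 => h.s_glued h1.symm
    · rw [X.inv]
      exact hm
  have hv : ∀ z i, X.At f' i z → z ≠ s ∧ z ≠ X.g (X.ρ s) := by
    intro z i hz
    have h1 := hG.at_lab hz
    rw [hf3] at h1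
    have h2 := h.par1
    refine ⟨?_, ?_⟩
    · rintro rfl
      rw [h1] at h2
      omega
    · rintro rfl
      rw [h.lab_z] at h1
      rw [h1] at h2
      omega
  have hcut : ∀ z i, X.At f' i z → i ≠ m → i ≠ m + 1 → X.cut2 s (X.ρ s) z = X.g z := by
    intro z i hz h1 h2
    obtain ⟨h3, h4⟩ := hv z i hz
    refine cut2_of_ne h3 ?_ ?_ h4 h.two_cut.ts h.two_cut.tgs
    · rintro rfl
      exact h2 (at_unique hf2 hz hgs)
    · rintro rfl
      exact h1 (at_unique hf2 hz hm)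
  rcases lt_trichotomy j m with h1 | h1 | h1
  · -- after `ρ s`
    exfalso
    obtain ⟨n, rfl⟩ : ∃ n, m = n + 1 := ⟨m - 1, by omega⟩
    obtain ⟨-, h2⟩ := at_succ.1 hm
    have h3 : comp X.ρ (X.cut2 s (X.ρ s)) (X.ρ (X.g (X.ρ s))) x := by
      refine comp_at' hj h2 (by omega) fun z i hz h4 h5 => hcut z i hz (by omega) (by omega)
    refine h.z_notMem (h.two_cut.mem_part_of_comp hG hx (hG.g_mem h.t_glued) ?_)
    exact (comp _ _).symm ((comp _ _).trans (comp_left _) h3)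
  · rw [h1] at hj
    exact at_inj hj hm
  · -- before `ρ s`
    exfalso
    have h3 : comp X.ρ (X.cut2 s (X.ρ s)) x (X.g s) := by
      refine comp_at' hgs hj (by omega) fun z i hz h4 h5 => hcut z i hz (by omega) (by omega)
    exact h.gs_notMem (h.two_cut.mem_part_of_comp hG hx (hG.g_mem h.s_glued) h3)

/-- the fourth label is not `b'` -/
lemma b_ne : X.lab (X.ρ (X.ρ (X.ρ s))) ≠ X.lab (X.ρ s) := by
  intro h1
  have h2 : X.ρ (X.ρ (X.ρ s)) ∈ X.B s := h.cl_B _ (h.cl_B _ h.t_mem)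
  exact h.good.rho2 (X.ρ s) (h.b'_only h2 h1)

/-- the fourth label has the parity of `b'` -/
lemma par_b : (X.lab s + X.lab (X.ρ (X.ρ (X.ρ s)))) % 2 = 1 := by
  have hG := h.good
  have h1 := hG.par (X.ρ (X.ρ (X.ρ s))) (hG.A_rho _ (hG.A_rho _ (hG.A_rho _ h.sA)))
  rw [hG.rho4] at h1
  omega

/-- the fourth label occurs only in `B` -/
lemma b_mem {x : S} (hxA : x ∈ X.A) (hl : X.lab x = X.lab (X.ρ (X.ρ (X.ρ s)))) : x ∈ X.B s := by
  have hG := h.good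
  have h0 : X.ρ (X.ρ (X.ρ s)) ∈ X.B s := h.cl_B _ (h.cl_B _ h.t_mem)
  obtain ⟨f', hf1, hf2, hf3, m, hm⟩ := hG.exists_at (part_sub _ _ h0)
  obtain ⟨j, hj⟩ := hG.at_of_pf h.pf hf2 hf1 hxA (by rw [hl, hf3])
  have hcut : ∀ z i, X.At f' i z → X.cut2 s (X.ρ s) z = X.g z := by
    intro z i hz
    have h1 := hG.at_lab hz
    rw [hf3] at h1
    have h2 := h.par_b
    refine cut2_of_ne ?_ ?_ ?_ ?_ h.two_cut.ts h.two_cut.tgs
    · rintro rfl
      rw [h1] at h2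
      omega
    · rintro rfl
      rw [h.lab_gs] at h1
      exact h.b_ne h1.symm
    · rintro rfl
      exact h.b_ne h1.symm
    · rintro rfl
      rw [h.lab_z] at h1
      rw [h1] at h2
      omega
  rcases le_total j m with h1 | h1
  · refine h.two_cut.mem_part_of_comp hG h0 hxA ?_
    exact comp_at' hj hm h1 fun z i hz _ _ => hcut z i hz
  · refine h.two_cut.mem_part_of_comp hG h0 hxA ((comp _ _).symm ?_)
    exact comp_at' hm hj h1 fun z i hz _ _ => hcut z i hz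

/-! ### The cap -/

lemma rho2_ne : X.ρ (X.ρ s) ≠ s ∧ X.ρ (X.ρ s) ≠ X.g s ∧ X.ρ (X.ρ s) ≠ X.ρ s ∧
    X.ρ (X.ρ s) ≠ X.g (X.ρ s) := by
  have hG := h.good
  have h1 := h.ne_of_at h.at2
  exact ⟨hG.rho2 s, h1.2, h1.1, h.ne_z h.at2 (by omega)⟩

lemma rho3_ne : X.ρ (X.ρ (X.ρ s)) ≠ s ∧ X.ρ (X.ρ (X.ρ s)) ≠ X.g s ∧
    X.ρ (X.ρ (X.ρ s)) ≠ X.ρ s ∧ X.ρ (X.ρ (X.ρ s)) ≠ X.g (X.ρ s) := by
  have hG := h.good
  refine ⟨hG.rho3 s, ?_, fun h1 => hG.rho2 (X.ρ s) h1, ?_⟩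
  · intro h1
    have h2 := h.b_ne
    rw [h1, h.lab_gs] at h2
    exact h2 rfl
  · intro h1
    have h2 := h.par_b
    rw [h1, h.lab_z] at h2
    omega

/-- the gates of the other two sides stay in `B` -/
lemma g_mem_B {x : S} (hx : x = X.ρ (X.ρ s) ∨ x = X.ρ (X.ρ (X.ρ s))) : X.g x ∈ X.B s := by
  have h2 : X.ρ (X.ρ s) ∈ X.B s := h.cl_B _ h.t_mem
  rcases hx with rfl | rfl
  · obtain ⟨h3, h4, h5, h6⟩ := h.rho2_ne
    exact (h.two_cut.g_iff h.good h3 h4 h5 h6).2 h2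
  · obtain ⟨h3, h4, h5, h6⟩ := h.rho3_ne
    exact (h.two_cut.g_iff h.good h3 h4 h5 h6).2 (h.cl_B _ h2)

lemma mem_cell2 : X.ρ (X.ρ s) ∈ X.cell s := mem_cell.2 (Or.inr (Or.inr (Or.inl rfl)))

lemma mem_cell3 : X.ρ (X.ρ (X.ρ s)) ∈ X.cell s := mem_cell.2 (Or.inr (Or.inr (Or.inr rfl)))

/-- in the cell of `s` the fourth label occurs once -/
lemma cell_b {x : S} (hx : x ∈ X.cell s) (hl : X.lab x = X.lab (X.ρ (X.ρ (X.ρ s)))) :
    x = X.ρ (X.ρ (X.ρ s)) := by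
  have h1 := h.par_b
  rcases mem_cell.1 hx with rfl | rfl | rfl | rfl
  · rw [← hl] at h1; omega
  · exact absurd hl.symm h.b_ne
  · rw [← hl, h.lab2] at h1; omega
  · rfl

theorem cap (hB : X.B s ⊆ X.cell s) : X.TL s := by
  have hG := h.good
  refine ⟨h.sA, h.s_glued, h.t_glued, ?_, ?_, h.lab2, fun x hx hl => h.cell_b (hB (h.b_mem hx hl)) hl⟩
  · by_contra h1
    exact hG.g_notMem_cell h.mem_cell2 h1 (hB (h.g_mem_B (Or.inl rfl)))
  · by_contra h1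
    exact hG.g_notMem_cell h.mem_cell3 h1 (hB (h.g_mem_B (Or.inr rfl)))

/-! ### The rest of the cells is not empty -/

lemma exists_glued (hB : ¬ X.B s ⊆ X.cell s) : X.g (X.ρ (X.ρ s)) ≠ X.ρ (X.ρ s) ∨
    X.g (X.ρ (X.ρ (X.ρ s))) ≠ X.ρ (X.ρ (X.ρ s)) := by
  by_contra hcon
  push Not at hcon
  apply hB
  intro x hx
  have h0 : ∀ y, X.g y = y → X.cut2 s (X.ρ s) y = y := by
    intro y hy
    have h1 : (X.cut s).g y = y := by
      rcases cut_le (X := X) s y with h2 | h2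
      · exact h2
      · rw [h2, hy]
    rcases cut_le (X := X.cut s) (X.ρ s) y with h2 | h2
    · exact h2
    · exact h2.trans h1
  have h1 : ∀ y ∈ X.cell s, X.cut2 s (X.ρ s) y = y := by
    intro y hy
    rcases mem_cell.1 hy with rfl | rfl | rfl | rfl
    · exact cut2_s h.two_cut.ts h.two_cut.tgs
    · exact cut2_t
    · exact h0 _ hcon.1
    · exact h0 _ hcon.2
  have h2 := mem_iff_of_comp (ρ := X.ρ) (g := X.cut2 s (X.ρ s)) (K := X.cell s)
    (fun y => h.good.mem_cell_rho) (mem_iff_of_fix h1) (mem_part.1 hx).2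
  exact h2.2 (mem_cell.2 (Or.inr (Or.inl rfl)))

lemma card_lt (hB : ¬ X.B s ⊆ X.cell s) : (X.A \ X.B s).card + 4 < X.A.card := by
  have h1 : (X.cell s).card < (X.B s).card := card_lt_card ⟨h.cell_sub_B, hB⟩
  rw [h.good.card_cell] at h1
  have h2 := card_sdiff_add_card_eq_card (part_sub (X := X) s (X.ρ s))
  unfold B at h1 ⊢
  omega

lemma A_Z : (X.sub (X.B s)).A = X.B s := inter_eq_right.2 (part_sub _ _)

lemma A_Y : (X.sub (X.A \ X.B s)).A = X.A \ X.B s := inter_eq_right.2 sdiff_subset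

lemma good_Z : (X.sub (X.B s)).Good := h.good.sub h.cl_B

lemma good_Y : (X.sub (X.A \ X.B s)).Good := h.good.sub (h.good.cl_sdiff h.good.cl_A h.cl_B)

lemma card_Z : (X.sub (X.B s)).A.card < X.A.card := by
  rw [h.A_Z]
  exact card_lt_card ⟨part_sub _ _, fun h1 => h.gs_notMem (h1 (h.good.g_mem h.s_glued))⟩

lemma card_Y : (X.sub (X.A \ X.B s)).A.card < X.A.card := by
  rw [h.A_Y]
  exact card_lt_card ⟨sdiff_subset, fun h1 => (mem_sdiff.1 (h1 h.sA)).2 h.s_mem⟩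

lemma ihlt {n : ℕ} (hn : n ≤ X.A.card) : IH n := fun S' _ _ Z hZ hlt =>
  h.min.ih S' Z hZ (hlt.trans_le hn)

/-- the slacks -/
lemma slacks : (X.sub (X.B s)).tau + (X.sub (X.A \ X.B s)).tau = X.tau ∧
    4 * ((X.sub (X.B s)).tau : ℤ) ≤ (X.sub (X.B s)).P ∧
    4 * ((X.sub (X.A \ X.B s)).tau : ℤ) ≤ (X.sub (X.A \ X.B s)).P ∧
    (X.sub (X.B s)).P + (X.sub (X.A \ X.B s)).P ≤ 4 * X.tau + 2 := by
  have h1 := h.min.P_eq h.s_glued
  have h2 := h.two_cut.P_le h.hc h.good h.min.nonempty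
  have h3 := h.min.ih S _ h.good_Z h.card_Z
  have h4 := h.min.ih S _ h.good_Y h.card_Y
  have h5 := tau_parts X (X.B s)
  have h6 : (X.sub (X.part s (X.ρ s))).P + (X.sub (X.A \ X.part s (X.ρ s))).P ≤ X.P + 3 := h2
  change (X.sub (X.B s)).P + (X.sub (X.A \ X.B s)).P ≤ X.P + 3 at h6
  omega

/-! ### The complex without the cell -/

/-- the rest of the part of `s` -/
noncomputable def _root_.Pool.Agent.Lib.MP06c549.Z.Cx.Zc (X : Cx S) (s : S) : Cx S :=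
  X.sub (X.B s \ X.cell s)

lemma Zc_eq : X.Zc s = (X.sub (X.B s)).sub ((X.sub (X.B s)).A \ (X.sub (X.B s)).cell s) := by
  have h1 : (X.sub (X.B s)).cell s = X.cell s := rfl
  rw [h.A_Z, h1, sub_sub]
  unfold Zc
  congr 1
  ext x
  simp only [mem_inter, mem_sdiff]
  tauto

lemma A_Zc : (X.Zc s).A = X.B s \ X.cell s := by
  unfold Zc
  rw [sub_A]
  exact inter_eq_right.2 fun x hx => part_sub _ _ (mem_sdiff.1 hx).1

lemma good_Zc : (X.Zc s).Good := h.good.sub (h.good.cl_sdiff h.cl_B (h.good.cl_cell s))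

/-- the partner of a glued side of the cell -/
lemma w_mem {e : S} (he : e = X.ρ (X.ρ s) ∨ e = X.ρ (X.ρ (X.ρ s))) (hg : X.g e ≠ e) :
    X.g e ∈ X.B s \ X.cell s := by
  refine mem_sdiff.2 ⟨h.g_mem_B he, h.good.g_notMem_cell ?_ hg⟩
  rcases he with rfl | rfl
  · exact h.mem_cell2
  · exact h.mem_cell3

lemma w_lab {e : S} (he : e = X.ρ (X.ρ s) ∨ e = X.ρ (X.ρ (X.ρ s))) (hg : X.g e ≠ e) :
    (X.lab (X.g e) = X.lab (X.ρ (X.ρ (X.ρ s))) ∧ X.lab (X.ρ (X.g e)) = X.lab s) ∨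
    (X.lab (X.g e) = X.lab s ∧ X.lab (X.ρ (X.g e)) = X.lab (X.ρ (X.ρ (X.ρ s)))) := by
  have h1 := h.good.lab_g e hg
  have h2 := h.good.lab_g' hg
  rcases he with rfl | rfl
  · exact Or.inl ⟨h1, by rw [h2, h.lab2]⟩
  · rw [h.good.rho4] at h1
    exact Or.inr ⟨h1, h2⟩

lemma c_Zc (hB : ¬ X.B s ⊆ X.cell s) : (X.Zc s).c ≤ (X.sub (X.B s)).c := by
  obtain ⟨e, he, hg⟩ : ∃ e, (e = X.ρ (X.ρ s) ∨ e = X.ρ (X.ρ (X.ρ s))) ∧ X.g e ≠ e := by
    rcases h.exists_glued hB with h1 | h1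
    · exact ⟨_, Or.inl rfl, h1⟩
    · exact ⟨_, Or.inr rfl, h1⟩
  have hw := h.w_mem he hg
  have hwl := h.w_lab he hg
  have hrw : X.ρ (X.g e) ∈ X.B s \ X.cell s :=
    (h.good.cl_sdiff h.cl_B (h.good.cl_cell s)) _ hw
  have hK : (X.sub (X.B s)).cell s = X.cell s := rfl
  have h0 : ∀ t ∈ X.B s \ X.cell s, (X.lab t = X.lab s ∨
      X.lab t = X.lab (X.ρ (X.ρ (X.ρ s)))) → (X.Zc s).conn t (X.g e) := by
    intro t ht htl
    have hA := h.A_Zc
    have h1 : ∀ y ∈ X.B s \ X.cell s, X.lab t = X.lab y → (X.Zc s).conn t y := fun y hy hty =>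
      conn_lab (X := X.Zc s) (by rw [hA]; exact ht) (by rw [hA]; exact hy) hty
    have h2 : (X.Zc s).conn (X.g e) (X.ρ (X.g e)) := conn_rho (X := X.Zc s) _
    rcases htl with h3 | h3 <;> rcases hwl with ⟨h4, h5⟩ | ⟨h4, h5⟩
    · exact (X.Zc s).conn.trans (h1 _ hrw (by rw [h3, h5])) ((X.Zc s).conn.symm h2)
    · exact h1 _ hw (by rw [h3, h4])
    · exact h1 _ hw (by rw [h3, h4])
    · exact (X.Zc s).conn.trans (h1 _ hrw (by rw [h3, h5])) ((X.Zc s).conn.symm h2)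
  have h1 := c_del_le (X := X.sub (X.B s)) (K := (X.sub (X.B s)).cell s)
    (fun t => h.good_Z.mem_cell_rho) (cell_sub h.good_Z.cl_A (by rw [h.A_Z]; exact h.s_mem))
    (self_mem_cell s) (fun k hk => h.good_Z.conn_cell hk) (T := {X.g e}) ?_
  · rw [← h.Zc_eq, card_singleton] at h1
    omega
  · rw [← h.Zc_eq]
    intro i hi t ht hti
    rw [h.A_Z, hK] at ht
    rw [hK] at hi
    refine ⟨X.g e, mem_singleton_self _, h0 t ht ?_⟩
    have hti' : X.lab t = X.lab i := hti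
    rcases mem_cell.1 hi with rfl | rfl | rfl | rfl
    · exact Or.inl hti'
    · exfalso
      have h2 := h.b'_only (mem_sdiff.1 ht).1 hti'
      exact (mem_sdiff.1 ht).2 (by rw [h2]; exact mem_cell.2 (Or.inr (Or.inl rfl)))
    · exact Or.inl (hti'.trans h.lab2)
    · exact Or.inr hti'

/-- free sides of the cell in the part -/
lemma free_Z {x : S} (hx : x = s ∨ x = X.ρ s ∨ X.g x = x) : (X.sub (X.B s)).g x = x := by
  rcases hx with rfl | rfl | hx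
  · rw [sub_g, if_neg fun h1 => h.gs_notMem h1.2]
  · rw [sub_g, if_neg fun h1 => h.z_notMem h1.2]
  · rw [sub_g, hx]
    split_ifs <;> rfl

lemma P_Zc (hB : ¬ X.B s ⊆ X.cell s) {F : Finset S} (hF : F ⊆ X.cell s)
    (hF2 : ∀ x ∈ F, x = s ∨ x = X.ρ s ∨ X.g x = x) :
    (X.Zc s).P ≤ (X.sub (X.B s)).P - F.card + 1 := by
  have h1 := h.good_Z.P_sub_cell (s := s) (by rw [h.A_Z]; exact h.s_mem)
  rw [← h.Zc_eq] at h1
  have h2 := h.c_Zc hB
  have h3 : F.card ≤ fr (X.sub (X.B s)) s := by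
    refine card_le_card fun x hx => mem_filter.2 ⟨hF hx, h.free_Z (hF2 x hx)⟩
  omega

/-! ### Gluing the two partners -/

section glue

variable (hg2 : X.g (X.ρ (X.ρ s)) ≠ X.ρ (X.ρ s))
  (hg3 : X.g (X.ρ (X.ρ (X.ρ s))) ≠ X.ρ (X.ρ (X.ρ s)))
include hg2 hg3

lemma Zc_g_of_cell {x : S} (hx : X.g x ∈ X.cell s) : (X.Zc s).g x = x := by
  unfold Zc
  rw [sub_g, if_neg fun h1 => (mem_sdiff.1 h1.2).2 hx]

lemma Zc_free2 : (X.Zc s).g (X.g (X.ρ (X.ρ s))) = X.g (X.ρ (X.ρ s)) :=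
  h.Zc_g_of_cell hg2 hg3 (by rw [X.inv]; exact h.mem_cell2)

lemma Zc_free3 : (X.Zc s).g (X.g (X.ρ (X.ρ (X.ρ s)))) = X.g (X.ρ (X.ρ (X.ρ s))) :=
  h.Zc_g_of_cell hg2 hg3 (by rw [X.inv]; exact h.mem_cell3)

lemma lab_a : X.lab (X.g (X.ρ (X.ρ s))) = X.lab (X.ρ (X.ρ (X.ρ s))) := h.good.lab_g _ hg2

lemma lab_a' : X.lab (X.g (X.ρ (X.ρ (X.ρ s)))) = X.lab s := by
  rw [h.good.lab_g _ hg3, h.good.rho4]

/-- inside the fans the gluing is unchanged -/
lemma g_eq {x : S} (hx : X.g x ≠ x) (hxB : x ∈ X.B s) (hxK : x ∉ X.cell s) (h1 : x ≠ X.g s)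
    (h2 : x ≠ X.g (X.ρ s)) (h3 : x ≠ X.g (X.ρ (X.ρ s))) (h4 : x ≠ X.g (X.ρ (X.ρ (X.ρ s)))) :
    ((X.Zc s).g * swap (X.g (X.ρ (X.ρ s))) (X.g (X.ρ (X.ρ (X.ρ s))))) x = X.g x := by
  have _ := hx
  rw [Perm.mul_apply, swap_apply_of_ne_of_ne h3 h4]
  have h5 : x ≠ s := fun h6 => hxK (by rw [h6]; exact self_mem_cell s)
  have h6 : x ≠ X.ρ s := fun h6 => hxK (by rw [h6]; exact mem_cell.2 (Or.inr (Or.inl rfl)))
  have h7 : X.g x ∈ X.B s := (h.two_cut.g_iff h.good h5 h1 h6 h2).2 hxB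
  have h8 : X.g x ∉ X.cell s := by
    intro h9
    rcases mem_cell.1 h9 with h10 | h10 | h10 | h10
    · exact h1 (by rw [← h10, X.inv])
    · exact h2 (by rw [← h10, X.inv])
    · exact h3 (by rw [← h10, X.inv])
    · exact h4 (by rw [← h10, X.inv])
  unfold Zc
  rw [sub_g, if_pos ⟨mem_sdiff.2 ⟨hxB, hxK⟩, mem_sdiff.2 ⟨h7, h8⟩⟩]

lemma g_free {x : S} (hx : X.g x = x) :
    ((X.Zc s).g * swap (X.g (X.ρ (X.ρ s))) (X.g (X.ρ (X.ρ (X.ρ s))))) x = x := by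
  have h1 : ∀ e, X.g e ≠ e → x ≠ X.g e := by
    rintro e he rfl
    rw [X.inv] at hx
    exact he hx.symm
  rw [Perm.mul_apply, swap_apply_of_ne_of_ne (h1 _ hg2) (h1 _ hg3)]
  unfold Zc
  rw [sub_g, hx]
  split_ifs <;> rfl

lemma first_a : SameCycle (X.ρ * ((X.Zc s).g * swap (X.g (X.ρ (X.ρ s)))
    (X.g (X.ρ (X.ρ (X.ρ s)))))) (X.g (X.ρ (X.ρ s))) (X.ρ (X.g (X.ρ (X.ρ (X.ρ s))))) := by
  refine ⟨1, ?_⟩
  rw [zpow_one, Perm.mul_apply, Perm.mul_apply, swap_apply_left, h.Zc_free3 hg2 hg3]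

lemma first_a' : SameCycle (X.ρ * ((X.Zc s).g * swap (X.g (X.ρ (X.ρ s)))
    (X.g (X.ρ (X.ρ (X.ρ s)))))) (X.g (X.ρ (X.ρ (X.ρ s)))) (X.ρ (X.g (X.ρ (X.ρ s)))) := by
  refine ⟨1, ?_⟩
  rw [zpow_one, Perm.mul_apply, Perm.mul_apply, swap_apply_right, h.Zc_free2 hg2 hg3]

lemma lin_a : ∃ y, SameCycle (X.ρ * ((X.Zc s).g * swap (X.g (X.ρ (X.ρ s)))
    (X.g (X.ρ (X.ρ (X.ρ s)))))) (X.g (X.ρ (X.ρ s))) y ∧
    ((X.Zc s).g * swap (X.g (X.ρ (X.ρ s))) (X.g (X.ρ (X.ρ (X.ρ s))))) y = y := by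
  have hG := h.good
  have h0 : X.ρ (X.ρ (X.ρ s)) ∈ X.B s := h.cl_B _ (h.cl_B _ h.t_mem)
  obtain ⟨f', hf1, hf2, hf3, m, hm⟩ := hG.exists_at (part_sub _ _ h0)
  obtain ⟨n, rfl⟩ : ∃ n, m = n + 1 := by
    rcases m with _ | m
    · exfalso
      rw [at_zero.1 hm] at hg3
      exact hg3 hf2
    · exact ⟨m, rfl⟩
  obtain ⟨-, h2⟩ := at_succ.1 hm
  have ha : X.At f' (n + 2) (X.g (X.ρ (X.ρ s))) := by
    refine at_succ.2 ⟨?_, ?_⟩
    · rw [X.inv]
      exact fun h1 => hg2 h1.symm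
    · rw [X.inv]
      exact hm
  refine ⟨f', (h.first_a hg2 hg3).trans (cycle_at (at_zero.2 rfl) h2 (by omega) ?_),
    h.g_free hg2 hg3 hf2⟩
  intro z i hz hi0 hin
  have hl : X.lab z = X.lab (X.ρ (X.ρ (X.ρ s))) := (hG.at_lab hz).trans hf3
  obtain ⟨i', rfl⟩ : ∃ i', i = i' + 1 := ⟨i - 1, by omega⟩
  have hzg := (at_succ.1 hz).1
  have hp := h.par_b
  refine h.g_eq hg2 hg3 hzg (h.b_mem (hG.A_g z hzg) hl) ?_ ?_ ?_ ?_ ?_
  · intro h3
    have h4 := h.cell_b h3 hl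
    rw [h4] at hz
    have := at_unique hf2 hz hm
    omega
  · rintro rfl
    rw [h.lab_gs] at hl
    exact h.b_ne hl.symm
  · rintro rfl
    rw [h.lab_z] at hl
    rw [← hl] at hp
    omega
  · rintro rfl
    have := at_unique hf2 hz ha
    omega
  · rintro rfl
    rw [h.lab_a' hg2 hg3] at hl
    rw [← hl] at hp
    omega

lemma lin_a' : ∃ y, SameCycle (X.ρ * ((X.Zc s).g * swap (X.g (X.ρ (X.ρ s)))
    (X.g (X.ρ (X.ρ (X.ρ s)))))) (X.g (X.ρ (X.ρ (X.ρ s)))) y ∧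
    ((X.Zc s).g * swap (X.g (X.ρ (X.ρ s))) (X.g (X.ρ (X.ρ (X.ρ s))))) y = y := by
  have hG := h.good
  have hat2 := h.at2
  have hlk := h.lt
  obtain ⟨n, rfl⟩ : ∃ n, l = n + 1 := by
    rcases l with _ | l
    · exfalso
      rw [at_zero.1 hat2] at hg2
      exact hg2 h.f_free
    · exact ⟨l, rfl⟩
  obtain ⟨-, h2⟩ := at_succ.1 hat2
  have ha' : X.At f (k + 1) (X.g (X.ρ (X.ρ (X.ρ s)))) := by
    refine at_succ.2 ⟨?_, ?_⟩
    · rw [X.inv]
      exact fun h1 => hg3 h1.symm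
    · rw [X.inv, hG.rho4]
      exact h.at1
  refine ⟨f, (h.first_a' hg2 hg3).trans (cycle_at (at_zero.2 rfl) h2 (by omega) ?_),
    h.g_free hg2 hg3 h.f_free⟩
  intro z i hz hi0 hin
  have hl : X.lab z = X.lab s := (hG.at_lab hz).trans h.lab1.symm
  obtain ⟨i', rfl⟩ : ∃ i', i = i' + 1 := ⟨i - 1, by omega⟩
  have hzg := (at_succ.1 hz).1
  have hp := h.par_b
  have hp1 := h.par1
  have hzB : z ∈ X.B s := by
    refine h.two_cut.mem_part_of_comp hG (h.cl_B _ h.t_mem) (hG.A_g z hzg) ?_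
    exact comp_at' hz hat2 (by omega) fun y j hy h3 h4 => h.cut2_of_v hy (by omega) (by omega)
  refine h.g_eq hg2 hg3 hzg hzB ?_ (h.ne_of_at hz).2 (h.ne_z hz (by omega)) ?_ ?_
  · intro h3
    rcases mem_cell.1 h3 with h4 | h4 | h4 | h4
    · exact h.ne_s hz (by omega) h4
    · exact (h.ne_of_at hz).1 h4
    · rw [h4] at hz
      have := at_unique h.f_free hz hat2
      omega
    · rw [h4] at hl
      rw [hl] at hp
      omega
  · rintro rfl
    rw [h.lab_a hg2 hg3] at hl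
    rw [hl] at hp
    omega
  · rintro rfl
    have := at_unique h.f_free hz ha'
    omega

theorem good_glue : ((X.Zc s).glue (X.g (X.ρ (X.ρ s))) (X.g (X.ρ (X.ρ (X.ρ s))))
    (h.Zc_free2 hg2 hg3) (h.Zc_free3 hg2 hg3)).Good := by
  have hG := h.good
  have hst : X.g (X.ρ (X.ρ s)) ≠ X.g (X.ρ (X.ρ (X.ρ s))) := fun h1 =>
    hG.rho1 (X.ρ (X.ρ s)) (X.g.injective h1).symm
  have hw2 := h.w_mem (Or.inl rfl) hg2
  have hw3 := h.w_mem (Or.inr rfl) hg3
  refine h.good_Zc.glueG _ _ hst (by rw [h.A_Zc]; exact hw2) (by rw [h.A_Zc]; exact hw3) ?_ ?_ ?_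
    (h.lin_a hg2 hg3) (h.lin_a' hg2 hg3)
  · change X.lab (X.g (X.ρ (X.ρ s))) = X.lab (X.ρ (X.g (X.ρ (X.ρ (X.ρ s)))))
    rw [h.lab_a hg2 hg3, hG.lab_g' hg3]
  · change X.lab (X.g (X.ρ (X.ρ (X.ρ s)))) = X.lab (X.ρ (X.g (X.ρ (X.ρ s))))
    rw [h.lab_a' hg2 hg3, hG.lab_g' hg2, h.lab2]
  · refine Planar.region_gl (ρ := X.ρ) (g := X.g) X.inv hG.planar (B := X.cell s)
      (fun x => hG.mem_cell_rho) hst (mem_sdiff.1 hw2).2 (mem_sdiff.1 hw3).2 (by
        rw [X.inv]; exact h.mem_cell2) (by rw [X.inv]; exact h.mem_cell3) ?_ (X.Zc s).inv ?_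
    · rw [X.inv, X.inv]
      exact Relation.ReflTransGen.single ⟨h.mem_cell3, Or.inl rfl⟩
    · intro x
      unfold Zc
      rw [sub_g]
      split_ifs with h1
      · exact Or.inr ⟨(mem_sdiff.1 h1.1).2, (mem_sdiff.1 h1.2).2, rfl⟩
      · exact Or.inl rfl

end glue

/-- a complex with the cells of `Zc` and the same labels, of small potential -/
lemma exists_W (hB : ¬ X.B s ⊆ X.cell s) : ∃ W : Cx S, W.Good ∧ W.A = (X.Zc s).A ∧
    W.ρ = (X.Zc s).ρ ∧ W.lab = (X.Zc s).lab ∧ W.P ≤ (X.sub (X.B s)).P - 2 := by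
  have hG := h.good
  have h01 : s ≠ X.ρ s := (hG.rho1 s).symm
  by_cases hg2 : X.g (X.ρ (X.ρ s)) = X.ρ (X.ρ s)
  · refine ⟨X.Zc s, h.good_Zc, rfl, rfl, rfl, ?_⟩
    have h1 := h.P_Zc hB (F := {s, X.ρ s, X.ρ (X.ρ s)}) (fun x hx => ?_) fun x hx => ?_
    · rw [card_insert_of_notMem, card_pair] at h1
      · push_cast at h1
        omega
      · exact fun h2 => hG.rho1 (X.ρ s) h2.symm
      · simp only [mem_insert, mem_singleton, not_or]
        exact ⟨h01, (hG.rho2 s).symm⟩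
    · simp only [mem_insert, mem_singleton] at hx
      rw [mem_cell]
      tauto
    · simp only [mem_insert, mem_singleton] at hx
      rcases hx with rfl | rfl | rfl
      · exact Or.inl rfl
      · exact Or.inr (Or.inl rfl)
      · exact Or.inr (Or.inr hg2)
  by_cases hg3 : X.g (X.ρ (X.ρ (X.ρ s))) = X.ρ (X.ρ (X.ρ s))
  · refine ⟨X.Zc s, h.good_Zc, rfl, rfl, rfl, ?_⟩
    have h1 := h.P_Zc hB (F := {s, X.ρ s, X.ρ (X.ρ (X.ρ s))}) (fun x hx => ?_) fun x hx => ?_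
    · rw [card_insert_of_notMem, card_pair] at h1
      · push_cast at h1
        omega
      · exact fun h2 => hG.rho2 (X.ρ s) h2.symm
      · simp only [mem_insert, mem_singleton, not_or]
        exact ⟨h01, (hG.rho3 s).symm⟩
    · simp only [mem_insert, mem_singleton] at hx
      rw [mem_cell]
      tauto
    · simp only [mem_insert, mem_singleton] at hx
      rcases hx with rfl | rfl | rfl
      · exact Or.inl rfl
      · exact Or.inr (Or.inl rfl)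
      · exact Or.inr (Or.inr hg3)
  · refine ⟨_, h.good_glue hg2 hg3, rfl, rfl, rfl, ?_⟩
    have hst : X.g (X.ρ (X.ρ s)) ≠ X.g (X.ρ (X.ρ (X.ρ s))) := fun h1 =>
      hG.rho1 (X.ρ (X.ρ s)) (X.g.injective h1).symm
    rw [glue_P _ _ hst]
    have h1 := h.P_Zc hB (F := {s, X.ρ s}) (fun x hx => ?_) fun x hx => ?_
    · rw [card_pair h01] at h1
      push_cast at h1
      omega
    · simp only [mem_insert, mem_singleton] at hx
      rw [mem_cell]
      tauto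
    · simp only [mem_insert, mem_singleton] at hx
      tauto

/-! ### The contradiction -/

lemma frY_v (hB : ¬ X.B s ⊆ X.cell s) : (X.sub (X.B s)).Fr {X.lab s} := by
  obtain ⟨W, hWg, hWA, hWr, hWl, hWP⟩ := h.exists_W hB
  obtain ⟨h1, h2, h3, h4⟩ := h.slacks
  have hWc : W.Cov = (X.Zc s).Cov := by
    funext C
    unfold Cov
    rw [hWA, hWr, hWl]
  have hWt : W.tau = (X.Zc s).tau := by
    unfold tau
    rw [hWc]
  by_cases h5 : (X.Zc s).tau < (X.sub (X.B s)).tau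
  · refine h.good_Z.fr_of_cell (s := s) (Or.inl rfl) ?_
    rw [← h.Zc_eq]
    exact h5
  · have h6 : (X.Zc s).Fr {X.lab s} := by
      have h7 : W.Fr {X.lab s} := by
        refine hWg.tig (h.ihlt ?_) (by omega) ?_
        · rw [hWA, h.A_Zc]
          exact card_le_card (sdiff_subset.trans (part_sub _ _))
        · obtain ⟨e, he, hg⟩ : ∃ e, (e = X.ρ (X.ρ s) ∨ e = X.ρ (X.ρ (X.ρ s))) ∧ X.g e ≠ e := by
            rcases h.exists_glued hB with h1 | h1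
            · exact ⟨_, Or.inl rfl, h1⟩
            · exact ⟨_, Or.inr rfl, h1⟩
          have hw := h.w_mem he hg
          have hrw : X.ρ (X.g e) ∈ X.B s \ X.cell s :=
            (h.good.cl_sdiff h.cl_B (h.good.cl_cell s)) _ hw
          rcases h.w_lab he hg with ⟨h8, h9⟩ | ⟨h8, h9⟩
          · exact ⟨X.ρ (X.g e), mem_filter.2 ⟨by rw [hWA, h.A_Zc]; exact hrw, by
              rw [hWl]; exact h9⟩⟩
          · exact ⟨X.g e, mem_filter.2 ⟨by rw [hWA, h.A_Zc]; exact hw, by rw [hWl]; exact h8⟩⟩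
      obtain ⟨C, hC, hv, hc⟩ := h7
      exact ⟨C, by rw [← hWc]; exact hC, hv, by rw [hc, hWt]⟩
    rw [h.Zc_eq] at h6
    exact h.good_Z.fr_of_fr_cell (s := s) (Or.inl rfl) h6

lemma cor_Y : ((X.sub (X.A \ X.B s)).cor (X.lab s)).Nonempty :=
  ⟨X.g (X.ρ s), mem_filter.2 ⟨by
    rw [h.A_Y]
    exact mem_sdiff.2 ⟨h.good.g_mem h.t_glued, h.z_notMem⟩, h.lab_z⟩⟩

lemma not_fr_v (hB : ¬ X.B s ⊆ X.cell s) : ¬ (X.sub (X.A \ X.B s)).Fr {X.lab s} :=
  not_fr_parts h.slacks.1.le (h.frY_v hB)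

lemma slack_Y (hB : ¬ X.B s ⊆ X.cell s) :
    4 * ((X.sub (X.A \ X.B s)).tau : ℤ) + 1 ≤ (X.sub (X.A \ X.B s)).P := by
  by_contra h1
  exact h.not_fr_v hB (h.good_Y.tig (h.ihlt h.card_Y.le) (by omega) h.cor_Y)

lemma Zc_lt (hB : ¬ X.B s ⊆ X.cell s) : (X.Zc s).tau < (X.sub (X.B s)).tau := by
  obtain ⟨W, hWg, hWA, hWr, hWl, hWP⟩ := h.exists_W hB
  obtain ⟨h1, h2, h3, h4⟩ := h.slacks
  have h5 := h.slack_Y hB
  have hWc : W.Cov = (X.Zc s).Cov := by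
    funext C
    unfold Cov
    rw [hWA, hWr, hWl]
  have hWt : W.tau = (X.Zc s).tau := by
    unfold tau
    rw [hWc]
  have h6 := h.min.ih S W hWg (by
    rw [hWA, h.A_Zc]
    refine card_lt_card ⟨sdiff_subset.trans (part_sub _ _), fun h7 => ?_⟩
    exact (mem_sdiff.1 (h7 h.sA)).2 (self_mem_cell s))
  rw [hWt] at h6
  omega

lemma not_fr_b' (hB : ¬ X.B s ⊆ X.cell s) : ¬ (X.sub (X.A \ X.B s)).Fr {X.lab (X.ρ s)} := by
  refine not_fr_parts h.slacks.1.le (h.good_Z.fr_of_cell (s := s) (Or.inr (Or.inl rfl)) ?_)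
  rw [← h.Zc_eq]
  exact h.Zc_lt hB

lemma gs_mem_Y : X.g s ∈ X.A \ X.B s := mem_sdiff.2 ⟨h.good.g_mem h.s_glued, h.gs_notMem⟩

lemma slack_Y2 (hB : ¬ X.B s ⊆ X.cell s) :
    4 * ((X.sub (X.A \ X.B s)).tau : ℤ) + 2 ≤ (X.sub (X.A \ X.B s)).P := by
  by_contra h1
  have h2 := leaf_test (n := X.A.card) h.min.ih h.good_Y (s := X.g s) (by
    rw [h.A_Y]
    exact h.card_lt hB) (by
    rw [h.A_Y]
    exact h.gs_mem_Y) (by
    rw [sub_g, X.inv, if_neg fun h3 => (mem_sdiff.1 h3.2).2 h.s_mem]) (by omega)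
  change (X.sub (X.A \ X.B s)).Fr {X.lab (X.g s)} ∨
    (X.sub (X.A \ X.B s)).Fr {X.lab (X.ρ (X.g s))} at h2
  rw [h.lab_gs, h.good.lab_g' h.s_glued] at h2
  rcases h2 with h2 | h2
  · exact h.not_fr_b' hB h2
  · exact h.not_fr_v hB h2

/-- the other part and the cell -/
noncomputable def _root_.Pool.Agent.Lib.MP06c549.Z.Cx.Wc (X : Cx S) (s : S) : Cx S :=
  X.sub ((X.A \ X.B s) ∪ X.cell s)

lemma A_Wc : (X.Wc s).A = (X.A \ X.B s) ∪ X.cell s :=
  inter_eq_right.2 (union_subset sdiff_subset (cell_sub h.good.cl_A h.sA))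

lemma good_Wc : (X.Wc s).Good :=
  h.good.sub (h.good.cl_union (h.good.cl_sdiff h.good.cl_A h.cl_B) (h.good.cl_cell s))

lemma Wc_sub : (X.Wc s).sub ((X.Wc s).A \ (X.Wc s).cell s) = X.sub (X.A \ X.B s) := by
  have h1 : (X.Wc s).cell s = X.cell s := rfl
  rw [h.A_Wc, h1]
  unfold Wc
  rw [sub_sub]
  congr 1
  ext x
  have h2 : x ∈ X.cell s → x ∈ X.B s := fun h3 => h.cell_sub_B h3
  simp only [mem_inter, mem_sdiff, mem_union]
  tauto

lemma c_Wc : (X.Wc s).c ≤ 1 := by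
  have hY : (X.sub (X.A \ X.B s)).c ≤ 1 := h.two_cut.c_compl h.hc h.good
  have hgs : X.g s ∈ (X.sub (X.A \ X.B s)).A := by
    rw [h.A_Y]
    exact h.gs_mem_Y
  have key : ∀ x ∈ (X.Wc s).A, (X.Wc s).conn x (X.g s) := by
    intro x hx
    by_cases h1 : x ∈ X.cell s
    · have h2 : (X.Wc s).conn x s := h.good_Wc.conn_cell (X := X.Wc s) h1
      have h3 := h.good_Wc.conn_g (s := s)
      have h4 : (X.Wc s).g s = X.g s := by
        unfold Wc
        rw [sub_g, if_pos ⟨mem_union_right _ (self_mem_cell s), mem_union_left _ h.gs_mem_Y⟩]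
      rw [h4] at h3
      exact (X.Wc s).conn.trans h2 h3
    · have h2 : x ∈ (X.sub (X.A \ X.B s)).A := by
        rw [h.A_Y]
        rw [h.A_Wc, mem_union] at hx
        exact hx.resolve_right h1
      have h3 := rel_of_nc_le_one hY h2 hgs
      rw [← h.Wc_sub] at h3
      exact sub_conn h3
  have h1 := nc_le_of (T := {X.g s}) fun x hx => ⟨X.g s, mem_singleton_self _, key x hx⟩
  rwa [card_singleton] at h1

lemma fr_Wc : fr (X.Wc s) s ≤ 2 := by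
  have h1 : ((X.Wc s).cell s).filter (fun t => (X.Wc s).g t = t) ⊆
      {X.ρ (X.ρ s), X.ρ (X.ρ (X.ρ s))} := by
    intro x hx
    obtain ⟨hx1, hx2⟩ := mem_filter.1 hx
    have h4 : ∀ e, e ∈ X.cell s → X.g e ∈ X.A \ X.B s → (X.Wc s).g e = X.g e := by
      intro e he hge
      unfold Wc
      rw [sub_g, if_pos ⟨mem_union_right _ he, mem_union_left _ hge⟩]
    rcases mem_cell.1 hx1 with rfl | rfl | rfl | rfl
    · rw [h4 _ (self_mem_cell _) h.gs_mem_Y] at hx2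
      exact absurd hx2 h.s_glued
    · have h5 := h4 (X.ρ s) (mem_cell.2 (Or.inr (Or.inl rfl)))
        (mem_sdiff.2 ⟨h.good.g_mem h.t_glued, h.z_notMem⟩)
      have h6 : (X.Wc s).g (X.ρ s) = X.ρ s := hx2
      rw [h5] at h6
      exact absurd h6 h.t_glued
    · exact mem_insert_self _ _
    · exact mem_insert_of_mem (mem_singleton_self _)
  exact (card_le_card h1).trans card_le_two

lemma P_Wc : (X.Wc s).P ≤ (X.sub (X.A \ X.B s)).P + 1 := by
  have h1 := h.good_Wc.P_sub_cell (s := s) (by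
    rw [h.A_Wc]
    exact mem_union_right _ (self_mem_cell s))
  rw [h.Wc_sub] at h1
  have h2 := h.fr_Wc
  have h3 := h.c_Wc
  have h4 : 0 < (X.sub (X.A \ X.B s)).c := nc_pos ⟨X.g s, by
    rw [h.A_Y]
    exact h.gs_mem_Y⟩
  omega

theorem false_of (hB : ¬ X.B s ⊆ X.cell s) : False := by
  have hG := h.good
  have h1 := h.slack_Y2 hB
  obtain ⟨h2, h3, h4, h5⟩ := h.slacks
  have hcard : (X.Wc s).A.card < X.A.card := by
    have h6 := h.card_lt hB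
    have h7 := card_union_le (X.A \ X.B s) (X.cell s)
    rw [hG.card_cell] at h7
    rw [h.A_Wc]
    omega
  have h6 := h.min.ih S _ h.good_Wc hcard
  have h7 := h.P_Wc
  have h8 : (X.Wc s).tau ≤ (X.sub (X.A \ X.B s)).tau := by omega
  obtain ⟨C, hC, hc⟩ := (X.Wc s).exists_cov
  have hCY : (X.sub (X.A \ X.B s)).Cov C := by
    rw [← h.Wc_sub]
    exact cov_sub hC
  have h9 := tau_le hCY
  have h10 : C.card = (X.sub (X.A \ X.B s)).tau := by omega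
  have h11 : X.lab s ∈ C ∨ X.lab (X.ρ s) ∈ C ∨ X.lab (X.ρ (X.ρ s)) ∈ C ∨
      X.lab (X.ρ (X.ρ (X.ρ s))) ∈ C := hC s (by
    rw [h.A_Wc]
    exact mem_union_right _ (self_mem_cell s))
  rw [h.lab2] at h11
  have hv : X.lab s ∉ C := fun h12 =>
    h.not_fr_v hB ⟨C, hCY, singleton_subset_iff.2 h12, h10⟩
  have hb' : X.lab (X.ρ s) ∉ C := fun h12 =>
    h.not_fr_b' hB ⟨C, hCY, singleton_subset_iff.2 h12, h10⟩
  have hb : X.lab (X.ρ (X.ρ (X.ρ s))) ∈ C := by tauto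
  have h12 : (X.sub (X.A \ X.B s)).Cov (C.erase (X.lab (X.ρ (X.ρ (X.ρ s))))) := by
    intro x hx
    rw [h.A_Y] at hx
    have h13 : X.lab x ∈ C ∨ X.lab (X.ρ x) ∈ C ∨ X.lab (X.ρ (X.ρ x)) ∈ C ∨
      X.lab (X.ρ (X.ρ (X.ρ x))) ∈ C := hCY x (by rw [h.A_Y]; exact hx)
    have h14 : ∀ y ∈ X.A \ X.B s, X.lab y ∈ C → X.lab y ∈
        C.erase (X.lab (X.ρ (X.ρ (X.ρ s)))) := fun y hy hyC =>
      mem_erase.2 ⟨fun h15 => (mem_sdiff.1 hy).2 (h.b_mem (mem_sdiff.1 hy).1 h15), hyC⟩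
    have hcl := hG.cl_sdiff hG.cl_A h.cl_B
    have hx1 := hcl _ hx
    have hx2 := hcl _ hx1
    have hx3 := hcl _ hx2
    rcases h13 with h13 | h13 | h13 | h13
    · exact Or.inl (h14 _ hx h13)
    · exact Or.inr (Or.inl (h14 _ hx1 h13))
    · exact Or.inr (Or.inr (Or.inl (h14 _ hx2 h13)))
    · exact Or.inr (Or.inr (Or.inr (h14 _ hx3 h13)))
  have h13 := tau_le h12
  rw [card_erase_of_mem hb] at h13
  have h14 : 0 < C.card := card_pos.2 ⟨_, hb⟩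
  omega

theorem tl : X.TL s := by
  by_contra h1
  exact h.false_of fun h2 => h1 (h.cap h2)

end Rep

end aux

/-- a repeated cell of a minimal counterexample is of type L -/
theorem Min.tl (hX : X.Min) (hpf : X.PF) {s : S} (hs : s ∈ X.A)
    (h : X.lab (X.ρ (X.ρ s)) = X.lab s) : X.TL s ∨ X.TL (X.ρ (X.ρ s)) := by
  have hG := hX.good
  obtain ⟨f, hf1, hf2, hf3, k, hk⟩ := hG.exists_at hs
  have hs2 : X.ρ (X.ρ s) ∈ X.A := hG.A_rho _ (hG.A_rho _ hs)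
  obtain ⟨l, hl⟩ := hG.at_of_pf hpf hf2 hf1 hs2 (by rw [h, hf3])
  rcases lt_trichotomy l k with h1 | h1 | h1
  · exact Or.inl (Rep.tl ⟨hX, hpf, hf1, hf2, hk, hl, h1⟩)
  · exfalso
    rw [h1] at hl
    exact hG.rho2 s (at_inj hl hk)
  · refine Or.inr (Rep.tl (f := f) (k := l) (l := k) ⟨hX, hpf, hf1, hf2, hl, ?_, h1⟩)
    rw [hG.rho4]
    exact hk

end Cx

end Pool.Agent.Lib.MP06c549.Z
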