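import Pool.Agent.Lib.MP_06c549_co.Z.Squ

section
/-!
# MP_06c549_co, Z: additional cells

`newCell X l` is the complex `X` with one additional live cell with corners `l 0, .., l 3`, not
glued to anything. `leaf` glues it to one free side of `X`, `cell2` to two free sides. The leaf test
and the cell test: if all smaller complexes are fine, a complex with small slack has a least hitting
set containing one of the corners of the new cell.
-/
set_option autoImplicit false
set_option linter.unusedSectionVars false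

namespace Pool.Agent.Lib.MP06c549.Z

open Equiv Equiv.Perm Finset

variable {S : Type} [Fintype S] [DecidableEq S]

/-! ## Sums of permutations -/

section Sum

variable {T : Type} [Fintype T] [DecidableEq T]

lemma sum_zpow (σ : Perm S) (τ : Perm T) (n : ℤ) :
    (Perm.sumCongr σ τ) ^ n = Perm.sumCongr (σ ^ n) (τ ^ n) :=
  (map_zpow (sumCongrHom S T) (σ, τ) n).symm

lemma sameCycle_inl {σ : Perm S} (τ : Perm T) {a b : S} (h : SameCycle σ a b) :
    SameCycle (Perm.sumCongr σ τ) (Sum.inl a) (Sum.inl b) := by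
  obtain ⟨n, rfl⟩ := h
  exact ⟨n, by rw [sum_zpow]; rfl⟩

/-- the components of a sum -/
lemma comp_sum {ρ g : Perm S} {r : Perm T} {a b : S}
    (h : comp (Perm.sumCongr ρ r) (Perm.sumCongr g (1 : Perm T)) (Sum.inl a) (Sum.inl b)) :
    comp ρ g a b := by
  set f : S ⊕ T → Quotient (comp ρ g) ⊕ Unit :=
    Sum.map (fun x => Quotient.mk (comp ρ g) x) (fun _ => ()) with hf
  have h1 : comp (Perm.sumCongr ρ r) (Perm.sumCongr g (1 : Perm T)) ≤ Setoid.ker f := by
    refine comp_le_of ?_ ?_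
    · rintro (x | x)
      · refine congrArg Sum.inl (Quotient.sound ?_)
        exact comp_left x
      · rfl
    · rintro (x | x)
      · refine congrArg Sum.inl (Quotient.sound ?_)
        exact comp_right x
      · rfl
  exact Quotient.exact (Sum.inl_injective (h1 h))

lemma not_comp_sum {ρ g : Perm S} {r : Perm T} {a : S} {b : T} :
    ¬ comp (Perm.sumCongr ρ r) (Perm.sumCongr g (1 : Perm T)) (Sum.inl a) (Sum.inr b) := by
  intro h
  set f : S ⊕ T → Bool := Sum.elim (fun _ => true) (fun _ => false) with hf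
  have h1 : comp (Perm.sumCongr ρ r) (Perm.sumCongr g (1 : Perm T)) ≤ Setoid.ker f := by
    refine comp_le_of ?_ ?_
    · rintro (x | x) <;> rfl
    · rintro (x | x) <;> rfl
  have h2 : (true : Bool) = false := h1 h
  exact absurd h2 (by decide)

lemma sum_swap (g : Perm S) (s t : S) :
    Perm.sumCongr (g * swap s t) (1 : Perm T) =
      Perm.sumCongr g 1 * swap (Sum.inl s) (Sum.inl t) := by
  rw [← Perm.sumCongr_swap_one, Perm.sumCongr_mul, mul_one]

/-- planarity of a sum with dead elements -/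
theorem Planar.sum {ρ g : Perm S} (hg : Inv g) (r : Perm T) (h : Planar ρ g) :
    Planar (Perm.sumCongr ρ r) (Perm.sumCongr g (1 : Perm T)) := by
  refine Inv.induction (p := fun g => Planar ρ g →
    Planar (Perm.sumCongr ρ r) (Perm.sumCongr g (1 : Perm T))) ?_ ?_ hg h
  · intro _
    rw [Perm.sumCongr_one]
    exact planar_one _
  · intro g s t hg hst hs ht ih h
    obtain ⟨h1, h2⟩ := Planar.of_glue hg hst hs ht h
    have h3 := ih h1
    rw [sum_swap]
    have hne : (Sum.inl s : S ⊕ T) ≠ Sum.inl t := fun h => hst (Sum.inl_injective h)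
    have hs' : Perm.sumCongr g (1 : Perm T) (Sum.inl s) = Sum.inl s := congrArg Sum.inl hs
    have ht' : Perm.sumCongr g (1 : Perm T) (Sum.inl t) = Sum.inl t := congrArg Sum.inl ht
    rcases h2 with h2 | h2
    · refine Planar.glue_same h3 hne hs' ht' ?_
      have h4 := sameCycle_inl (r * 1) h2
      rwa [← Perm.sumCongr_mul] at h4
    · exact Planar.glue_diff h3 hne hs' ht' fun h4 => h2 (comp_sum h4)

end Sum

/-! ## Linear fans after a gluing -/

/-- gluing keeps linear fans, if the two new cycles are fine -/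
lemma lin_glue {ρ g : Perm S} {s t : S} (h : ∀ x, ∃ y, SameCycle (ρ * g) x y ∧ g y = y)
    (h1 : ∃ y, SameCycle (ρ * (g * swap s t)) s y ∧ (g * swap s t) y = y)
    (h2 : ∃ y, SameCycle (ρ * (g * swap s t)) t y ∧ (g * swap s t) y = y) (x : S) :
    ∃ y, SameCycle (ρ * (g * swap s t)) x y ∧ (g * swap s t) y = y := by
  by_cases hxs : SameCycle (ρ * (g * swap s t)) x s
  · obtain ⟨y, hy, hyy⟩ := h1
    exact ⟨y, hxs.trans hy, hyy⟩
  by_cases hxt : SameCycle (ρ * (g * swap s t)) x t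
  · obtain ⟨y, hy, hyy⟩ := h2
    exact ⟨y, hxt.trans hy, hyy⟩
  have key : ∀ n : ℕ, SameCycle (ρ * (g * swap s t)) x (((ρ * g) ^ n) x) := by
    intro n
    induction n with
    | zero => exact SameCycle.refl _ _
    | succ n ih =>
      have h3 : ((ρ * g) ^ (n + 1)) x = (ρ * (g * swap s t)) (((ρ * g) ^ n) x) := by
        rw [pow_succ', Perm.mul_apply, ← mul_assoc, Perm.mul_apply (ρ * g), swap_apply_of_ne_of_ne]
        · intro h4
          exact hxs (h4 ▸ ih)
        · intro h4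
          exact hxt (h4 ▸ ih)
      rw [h3]
      exact ih.trans ⟨1, by simp⟩
  obtain ⟨y, hy, hyy⟩ := h x
  obtain ⟨n, -, -, hn⟩ := hy.exists_pow_eq''
  have h3 := key n
  rw [hn] at h3
  refine ⟨y, h3, ?_⟩
  rw [Perm.mul_apply, swap_apply_of_ne_of_ne, hyy]
  · intro h4; exact hxs (h4 ▸ h3)
  · intro h4; exact hxt (h4 ▸ h3)

namespace Cx

/-! ## Gluing -/

/-- gluing of two free sides -/
theorem Good.glueG {X : Cx S} (hX : X.Good) {s t : S} (hs : X.g s = s) (ht : X.g t = t)
    (hst : s ≠ t) (hsA : s ∈ X.A) (htA : t ∈ X.A) (h1 : X.lab s = X.lab (X.ρ t))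
    (h2 : X.lab t = X.lab (X.ρ s)) (hc : SameCycle (X.ρ * X.g) s t ∨ ¬ comp X.ρ X.g s t)
    (hl1 : ∃ y, SameCycle (X.ρ * (X.g * swap s t)) s y ∧ (X.g * swap s t) y = y)
    (hl2 : ∃ y, SameCycle (X.ρ * (X.g * swap s t)) t y ∧ (X.g * swap s t) y = y) :
    (X.glue s t hs ht).Good where
  rho4 := hX.rho4
  rho2 := hX.rho2
  A_rho := hX.A_rho
  A_g := by
    intro x hx
    by_cases h3 : x = s
    · rw [h3]; exact hsA
    by_cases h4 : x = t
    · rw [h4]; exact htA
    refine hX.A_g x ?_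
    rwa [glue_g, Perm.mul_apply, swap_apply_of_ne_of_ne h3 h4] at hx
  lab_g := by
    intro x hx
    rw [glue_lab, glue_rho, glue_g, Perm.mul_apply]
    by_cases h3 : x = s
    · rw [h3, swap_apply_left, ht, h2]
    by_cases h4 : x = t
    · rw [h4, swap_apply_right, hs, h1]
    rw [swap_apply_of_ne_of_ne h3 h4]
    refine hX.lab_g x ?_
    rwa [glue_g, Perm.mul_apply, swap_apply_of_ne_of_ne h3 h4] at hx
  par := hX.par
  lin := lin_glue (ρ := X.ρ) (g := X.g) hX.lin hl1 hl2
  planar := by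
    rcases hc with hc | hc
    · exact Planar.glue_same hX.planar hst hs ht hc
    · exact Planar.glue_diff hX.planar hst hs ht hc

lemma glue_c {X : Cx S} {s t : S} (hs : X.g s = s) (ht : X.g t = t) :
    (X.glue s t hs ht).c = X.c := rfl

lemma glue_cov {X : Cx S} {s t : S} (hs : X.g s = s) (ht : X.g t = t) {C : Finset ℕ} :
    (X.glue s t hs ht).Cov C ↔ X.Cov C := Iff.rfl

lemma glue_tau {X : Cx S} {s t : S} (hs : X.g s = s) (ht : X.g t = t) :
    (X.glue s t hs ht).tau = X.tau := rfl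

lemma glue_E {X : Cx S} {s t : S} (hs : X.g s = s) (ht : X.g t = t) (hst : s ≠ t) :
    (X.glue s t hs ht).E = X.E + 1 := by
  have h1 : (X.glue s t hs ht).g.support = insert s (insert t X.g.support) := by
    ext x
    rw [mem_support, mem_insert, mem_insert, mem_support, glue_g, Perm.mul_apply]
    by_cases h3 : x = s
    · rw [h3, swap_apply_left, ht]
      exact ⟨fun _ => Or.inl rfl, fun _ => hst.symm⟩
    by_cases h4 : x = t
    · rw [h4, swap_apply_right, hs]
      exact ⟨fun _ => Or.inr (Or.inl rfl), fun _ => hst⟩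
    rw [swap_apply_of_ne_of_ne h3 h4]
    exact ⟨fun h => Or.inr (Or.inr h), fun h => (h.resolve_left h3).resolve_left h4⟩
  have h2 : (X.glue s t hs ht).g.support.card = X.g.support.card + 2 := by
    rw [h1, card_insert_of_notMem, card_insert_of_notMem]
    · rw [mem_support, not_not]; exact ht
    · rw [mem_insert, mem_support, not_or, not_not]; exact ⟨hst, hs⟩
  unfold E
  omega

lemma glue_P {X : Cx S} {s t : S} (hs : X.g s = s) (ht : X.g t = t) (hst : s ≠ t) :
    (X.glue s t hs ht).P = X.P - 1 := by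
  have h1 := glue_E hs ht hst
  have h2 : (X.glue s t hs ht).N = X.N := rfl
  have h3 := glue_c hs ht
  unfold P
  rw [h1, h2, h3]
  push_cast
  ring

/-! ## One more dead cell -/

lemma finRotate_rho4 (i : Fin 4) : finRotate 4 (finRotate 4 (finRotate 4 (finRotate 4 i))) = i := by
  revert i; decide

lemma finRotate_rho2 (i : Fin 4) : finRotate 4 (finRotate 4 i) ≠ i := by
  revert i; decide

theorem Good.ext {X : Cx S} (hX : X.Good) : X.ext.Good where
  rho4 := by
    rintro (s | i)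
    · exact congrArg Sum.inl (hX.rho4 s)
    · exact congrArg Sum.inr (finRotate_rho4 i)
  rho2 := by
    rintro (s | i)
    · exact fun h => hX.rho2 s (Sum.inl_injective h)
    · exact fun h => finRotate_rho2 i (Sum.inr_injective h)
  A_rho := by
    rintro s hs
    obtain ⟨x, hx, rfl⟩ := mem_map.1 hs
    exact mem_map.2 ⟨X.ρ x, hX.A_rho x hx, rfl⟩
  A_g := by
    rintro (s | i) h
    · exact mem_map.2 ⟨s, hX.A_g s fun h1 => h (congrArg Sum.inl h1), rfl⟩
    · exact absurd rfl h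
  lab_g := by
    rintro (s | i) h
    · exact hX.lab_g s fun h1 => h (congrArg Sum.inl h1)
    · exact absurd rfl h
  par := by
    rintro s hs
    obtain ⟨x, hx, rfl⟩ := mem_map.1 hs
    exact hX.par x hx
  lin := by
    rintro (s | i)
    · obtain ⟨t, ht, htt⟩ := hX.lin s
      refine ⟨Sum.inl t, ?_, congrArg Sum.inl htt⟩
      have h := sameCycle_inl (finRotate 4 * 1) ht
      rwa [← Perm.sumCongr_mul] at h
    · exact ⟨Sum.inr i, SameCycle.refl _ _, rfl⟩
  planar := Planar.sum (ρ := X.ρ) (g := X.g) X.inv (finRotate 4) hX.planar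

/-! ## One more live cell -/

/-- the complex with one more live cell, with the labels `l` -/
def newCell (X : Cx S) (l : Fin 4 → ℕ) : Cx (S ⊕ Fin 4) where
  A := X.A.disjSum univ
  ρ := Perm.sumCongr X.ρ (finRotate 4)
  g := Perm.sumCongr X.g 1
  lab := Sum.elim X.lab l
  inv := X.ext.inv

section NewCell

variable {X : Cx S} {l : Fin 4 → ℕ}

@[simp] lemma newCell_lab_inl (s : S) : (X.newCell l).lab (Sum.inl s) = X.lab s := rfl
@[simp] lemma newCell_lab_inr (i : Fin 4) : (X.newCell l).lab (Sum.inr i) = l i := rfl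
@[simp] lemma newCell_rho_inl (s : S) : (X.newCell l).ρ (Sum.inl s) = Sum.inl (X.ρ s) := rfl
@[simp] lemma newCell_rho_inr (i : Fin 4) :
    (X.newCell l).ρ (Sum.inr i) = Sum.inr (finRotate 4 i) := rfl
@[simp] lemma newCell_g_inl (s : S) : (X.newCell l).g (Sum.inl s) = Sum.inl (X.g s) := rfl
@[simp] lemma newCell_g_inr (i : Fin 4) : (X.newCell l).g (Sum.inr i) = Sum.inr i := rfl
lemma newCell_mem_inl {s : S} : Sum.inl s ∈ (X.newCell l).A ↔ s ∈ X.A := inl_mem_disjSum
lemma newCell_mem_inr {i : Fin 4} : Sum.inr i ∈ (X.newCell l).A :=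
  inr_mem_disjSum.2 (mem_univ i)

lemma newCell_card : (X.newCell l).A.card = X.A.card + 4 := by
  change (X.A.disjSum (univ : Finset (Fin 4))).card = _
  rw [card_disjSum, card_univ, Fintype.card_fin]

lemma newCell_card_supp : (X.newCell l).g.support.card = X.g.support.card := by
  have h : (X.newCell l).g.support = X.g.support.map ⟨Sum.inl, Sum.inl_injective⟩ := by
    ext x
    rw [mem_support, mem_map]
    constructor
    · intro h
      rcases x with s | i
      · exact ⟨s, mem_support.2 fun h1 => h (congrArg Sum.inl h1), rfl⟩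
      · exact absurd rfl h
    · rintro ⟨s, hs, rfl⟩
      exact fun h => mem_support.1 hs (Sum.inl_injective h)
  rw [h, card_map]

theorem Good.newCell (hX : X.Good) (hl : ∀ i, (l i + l (finRotate 4 i)) % 2 = 1) :
    (X.newCell l).Good where
  rho4 := hX.ext.rho4
  rho2 := hX.ext.rho2
  A_rho := by
    rintro (s | i) h
    · exact newCell_mem_inl.2 (hX.A_rho s (newCell_mem_inl.1 h))
    · exact newCell_mem_inr
  A_g := by
    rintro (s | i) h
    · exact newCell_mem_inl.2 (hX.A_g s fun h1 => h (congrArg Sum.inl h1))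
    · exact newCell_mem_inr
  lab_g := by
    rintro (s | i) h
    · exact hX.lab_g s fun h1 => h (congrArg Sum.inl h1)
    · exact absurd rfl h
  par := by
    rintro (s | i) h
    · exact hX.par s (newCell_mem_inl.1 h)
    · exact hl i
  lin := hX.ext.lin
  planar := hX.ext.planar

/-- hitting sets of the complex with the new cell -/
lemma newCell_cov {C : Finset ℕ} :
    (X.newCell l).Cov C ↔ X.Cov C ∧ (l 0 ∈ C ∨ l 1 ∈ C ∨ l 2 ∈ C ∨ l 3 ∈ C) := by
  constructor
  · intro h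
    refine ⟨fun s hs => h (Sum.inl s) (newCell_mem_inl.2 hs), ?_⟩
    exact h (Sum.inr 0) newCell_mem_inr
  · rintro ⟨h1, h2⟩ (s | i) hs
    · exact h1 s (newCell_mem_inl.1 hs)
    · change l i ∈ C ∨ l (finRotate 4 i) ∈ C ∨ l (finRotate 4 (finRotate 4 i)) ∈ C ∨
        l (finRotate 4 (finRotate 4 (finRotate 4 i))) ∈ C
      have e0 : finRotate 4 (0 : Fin 4) = 1 := by decide
      have e1 : finRotate 4 (1 : Fin 4) = 2 := by decide
      have e2 : finRotate 4 (2 : Fin 4) = 3 := by decide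
      have e3 : finRotate 4 (3 : Fin 4) = 0 := by decide
      obtain rfl | rfl | rfl | rfl : i = 0 ∨ i = 1 ∨ i = 2 ∨ i = 3 := by
        clear hs
        revert i
        decide
      · rw [e0, e1, e2]
        exact h2
      · rw [e1, e2, e3]
        rcases h2 with h2 | h2 | h2 | h2
        · exact Or.inr (Or.inr (Or.inr h2))
        · exact Or.inl h2
        · exact Or.inr (Or.inl h2)
        · exact Or.inr (Or.inr (Or.inl h2))
      · rw [e2, e3, e0]
        rcases h2 with h2 | h2 | h2 | h2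
        · exact Or.inr (Or.inr (Or.inl h2))
        · exact Or.inr (Or.inr (Or.inr h2))
        · exact Or.inl h2
        · exact Or.inr (Or.inl h2)
      · rw [e3, e0, e1]
        rcases h2 with h2 | h2 | h2 | h2
        · exact Or.inr (Or.inl h2)
        · exact Or.inr (Or.inr (Or.inl h2))
        · exact Or.inr (Or.inr (Or.inr h2))
        · exact Or.inl h2

/-- the number of components does not change if the old labels of the new cell are connected -/
lemma newCell_c {s₀ : S} (hs₀ : s₀ ∈ X.A) (i₀ : Fin 4) (hi₀ : l i₀ = X.lab s₀)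
    (h : ∀ i, ∀ a ∈ X.A, X.lab a = l i → X.conn a s₀) : (X.newCell l).c = X.c := by
  classical
  have hr : ∀ i j : Fin 4, (X.newCell l).conn (Sum.inr i) (Sum.inr j) := by
    have h1 : ∀ i : Fin 4, (X.newCell l).conn (Sum.inr 0) (Sum.inr i) := by
      have a1 : (X.newCell l).conn (Sum.inr 0) (Sum.inr 1) := conn_rho (X := X.newCell l) (Sum.inr 0)
      have a2 : (X.newCell l).conn (Sum.inr 1) (Sum.inr 2) := conn_rho (X := X.newCell l) (Sum.inr 1)
      have a3 : (X.newCell l).conn (Sum.inr 2) (Sum.inr 3) := conn_rho (X := X.newCell l) (Sum.inr 2)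
      intro i
      fin_cases i
      · exact (X.newCell l).conn.refl _
      · exact a1
      · exact (X.newCell l).conn.trans a1 a2
      · exact (X.newCell l).conn.trans a1 ((X.newCell l).conn.trans a2 a3)
    exact fun i j => (X.newCell l).conn.trans ((X.newCell l).conn.symm (h1 i)) (h1 j)
  have hup : ∀ s t, X.conn s t → (X.newCell l).conn (Sum.inl s) (Sum.inl t) := by
    intro s t hst
    let q : Setoid S := Setoid.comap Sum.inl (X.newCell l).conn
    refine conn_le (q := q) (fun x => ?_) (fun x hx y hy hxy => ?_) hst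
    · exact conn_rho (X := X.newCell l) (Sum.inl x)
    · exact conn_lab (X := X.newCell l) (newCell_mem_inl.2 hx) (newCell_mem_inl.2 hy) hxy
  have hdown : ∀ x y, (X.newCell l).conn x y →
      X.conn (Sum.elim id (fun _ => s₀) x) (Sum.elim id (fun _ => s₀) y) := by
    intro x y hxy
    let q : Setoid (S ⊕ Fin 4) := Setoid.comap (Sum.elim id (fun _ => s₀)) X.conn
    refine conn_le (q := q) (fun x => ?_) (fun x hx y hy hxy => ?_) hxy
    · rcases x with s | i
      · exact conn_rho (X := X) s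
      · exact X.conn.refl _
    · rcases x with s | i <;> rcases y with t | j
      · exact conn_lab (newCell_mem_inl.1 hx) (newCell_mem_inl.1 hy) hxy
      · exact h j s (newCell_mem_inl.1 hx) hxy
      · exact X.conn.symm (h i t (newCell_mem_inl.1 hy) hxy.symm)
      · exact X.conn.refl _
  unfold c
  refine le_antisymm ?_ ?_
  · obtain ⟨T, hT, hTc, hT1, -⟩ := exists_rep X.conn X.A
    rw [← hTc, ← card_map (⟨Sum.inl, Sum.inl_injective⟩ : S ↪ S ⊕ Fin 4)]
    refine nc_le_of fun x hx => ?_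
    rcases x with s | i
    · obtain ⟨t, ht, hst⟩ := hT1 s (newCell_mem_inl.1 hx)
      exact ⟨Sum.inl t, mem_map.2 ⟨t, ht, rfl⟩, hup s t hst⟩
    · obtain ⟨t, ht, hst⟩ := hT1 s₀ hs₀
      refine ⟨Sum.inl t, mem_map.2 ⟨t, ht, rfl⟩, ?_⟩
      refine (X.newCell l).conn.trans ((hr i i₀)) ?_
      refine (X.newCell l).conn.trans ?_ (hup s₀ t hst)
      exact conn_lab (X := X.newCell l) newCell_mem_inr (newCell_mem_inl.2 hs₀) hi₀
  · obtain ⟨T, hT, hTc, -, hT2⟩ := exists_rep X.conn X.A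
    rw [← hTc, ← card_map (⟨Sum.inl, Sum.inl_injective⟩ : S ↪ S ⊕ Fin 4)]
    refine le_nc_of ?_ ?_
    · intro x hx
      obtain ⟨t, ht, rfl⟩ := mem_map.1 hx
      exact newCell_mem_inl.2 (hT ht)
    · intro x hx y hy hxy
      obtain ⟨t, ht, rfl⟩ := mem_map.1 hx
      obtain ⟨t', ht', rfl⟩ := mem_map.1 hy
      exact congrArg Sum.inl (hT2 t ht t' ht' (hdown _ _ hxy))

lemma newCell_P {s₀ : S} (hs₀ : s₀ ∈ X.A) (i₀ : Fin 4) (hi₀ : l i₀ = X.lab s₀)
    (h : ∀ i, ∀ a ∈ X.A, X.lab a = l i → X.conn a s₀) : (X.newCell l).P = X.P + 3 := by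
  have h1 := newCell_c hs₀ i₀ hi₀ h
  have h2 := newCell_card (X := X) (l := l)
  have h3 := newCell_card_supp (X := X) (l := l)
  have h4 : (X.newCell l).N = X.N + 1 := by unfold N; omega
  have h5 : (X.newCell l).E = X.E := by unfold E; rw [h3]
  unfold P
  rw [h1, h4, h5]
  push_cast
  ring

end NewCell

/-! ## Fresh labels -/

lemma exists_fresh (X : Cx S) (r : ℕ) : ∃ p, p % 2 = r % 2 ∧ ∀ a ∈ X.A, X.lab a ≠ p := by
  refine ⟨2 * (∑ a ∈ X.A, X.lab a + 1) + r % 2, by omega, fun a ha h => ?_⟩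
  have h1 : X.lab a ≤ ∑ a ∈ X.A, X.lab a := single_le_sum (fun _ _ => Nat.zero_le _) ha
  omega

lemma Cov.erase {X : Cx S} {C : Finset ℕ} (hX : X.Good) (h : X.Cov C) {p : ℕ}
    (hp : ∀ a ∈ X.A, X.lab a ≠ p) : X.Cov (C.erase p) := by
  intro s hs
  have h1 := hX.A_rho s hs
  have h2 := hX.A_rho _ h1
  have h3 := hX.A_rho _ h2
  rcases h s hs with h | h | h | h
  · exact Or.inl (mem_erase.2 ⟨hp s hs, h⟩)
  · exact Or.inr (Or.inl (mem_erase.2 ⟨hp _ h1, h⟩))
  · exact Or.inr (Or.inr (Or.inl (mem_erase.2 ⟨hp _ h2, h⟩)))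
  · exact Or.inr (Or.inr (Or.inr (mem_erase.2 ⟨hp _ h3, h⟩)))

/-- a least hitting set has no fresh labels -/
lemma not_mem_of_fresh {X : Cx S} {C : Finset ℕ} (hX : X.Good) (h : X.Cov C) {p : ℕ}
    (hp : ∀ a ∈ X.A, X.lab a ≠ p) (hC : C.card ≤ X.tau) : p ∉ C := by
  intro h1
  have h2 := tau_le (h.erase hX hp)
  rw [card_erase_of_mem h1] at h2
  have h3 : 0 < C.card := card_pos.2 ⟨p, h1⟩
  omega

/-! ## The new cell glued to one side -/

section Leaf

variable {X : Cx S} {l : Fin 4 → ℕ} {s t : S}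

/-- one more cell, glued to the free side `s` -/
def leaf (X : Cx S) (l : Fin 4 → ℕ) (s : S) (hs : X.g s = s) : Cx (S ⊕ Fin 4) :=
  (X.newCell l).glue (Sum.inl s) (Sum.inr 0) (congrArg Sum.inl hs) rfl

lemma leaf_g_inl (hs : X.g s = s) {x : S} (hx : x ≠ s) :
    (X.leaf l s hs).g (Sum.inl x) = Sum.inl (X.g x) := by
  change (X.newCell l).g (swap (Sum.inl s) (Sum.inr 0) (Sum.inl x)) = _
  rw [swap_apply_of_ne_of_ne (fun h => hx (Sum.inl_injective h)) Sum.inl_ne_inr]
  rfl

lemma leaf_g_self (hs : X.g s = s) : (X.leaf l s hs).g (Sum.inl s) = Sum.inr 0 := by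
  change (X.newCell l).g (swap (Sum.inl s) (Sum.inr 0) (Sum.inl s)) = _
  rw [swap_apply_left]
  rfl

lemma leaf_g_zero (hs : X.g s = s) : (X.leaf l s hs).g (Sum.inr 0) = Sum.inl s := by
  change (X.newCell l).g (swap (Sum.inl s) (Sum.inr 0) (Sum.inr 0)) = _
  rw [swap_apply_right]
  exact congrArg Sum.inl hs

lemma leaf_g_inr (hs : X.g s = s) {i : Fin 4} (hi : i ≠ 0) :
    (X.leaf l s hs).g (Sum.inr i) = Sum.inr i := by
  change (X.newCell l).g (swap (Sum.inl s) (Sum.inr 0) (Sum.inr i)) = _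
  rw [swap_apply_of_ne_of_ne Sum.inr_ne_inl (fun h => hi (Sum.inr_injective h))]
  rfl

lemma sameCycle_of_eq {T : Type} {σ : Perm T} {a b : T} (h : σ a = b) : SameCycle σ a b :=
  ⟨1, by rw [zpow_one]; exact h⟩

lemma leaf_s1 (hs : X.g s = s) :
    SameCycle ((X.leaf l s hs).ρ * (X.leaf l s hs).g) (Sum.inl s) (Sum.inr 1) := by
  refine sameCycle_of_eq ?_
  rw [Perm.mul_apply, leaf_g_self]
  rfl

lemma leaf_12 (hs : X.g s = s) :
    SameCycle ((X.leaf l s hs).ρ * (X.leaf l s hs).g) (Sum.inr 1) (Sum.inr 2) := by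
  refine sameCycle_of_eq ?_
  rw [Perm.mul_apply, leaf_g_inr hs (by decide)]
  rfl

lemma leaf_23 (hs : X.g s = s) :
    SameCycle ((X.leaf l s hs).ρ * (X.leaf l s hs).g) (Sum.inr 2) (Sum.inr 3) := by
  refine sameCycle_of_eq ?_
  rw [Perm.mul_apply, leaf_g_inr hs (by decide)]
  rfl

lemma leaf_30 (hs : X.g s = s) :
    SameCycle ((X.leaf l s hs).ρ * (X.leaf l s hs).g) (Sum.inr 3) (Sum.inr 0) := by
  refine sameCycle_of_eq ?_
  rw [Perm.mul_apply, leaf_g_inr hs (by decide)]
  rfl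

lemma leaf_0s (hs : X.g s = s) :
    SameCycle ((X.leaf l s hs).ρ * (X.leaf l s hs).g) (Sum.inr 0) (Sum.inl (X.ρ s)) := by
  refine sameCycle_of_eq ?_
  rw [Perm.mul_apply, leaf_g_zero]
  rfl

/-- the cycles of the old complex inside the new one -/
lemma leaf_same (hs : X.g s = s) {a b : S} (h : SameCycle (X.ρ * X.g) a b) :
    SameCycle ((X.leaf l s hs).ρ * (X.leaf l s hs).g) (Sum.inl a) (Sum.inl b) := by
  let q : Setoid S := Setoid.comap Sum.inl
    (SameCycle.setoid ((X.leaf l s hs).ρ * (X.leaf l s hs).g))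
  refine sameCycle_le_of (q := q) (fun x => ?_) h
  change SameCycle _ (Sum.inl x) (Sum.inl ((X.ρ * X.g) x))
  by_cases hx : x = s
  · subst hx
    rw [Perm.mul_apply, hs]
    exact (leaf_s1 hs).trans ((leaf_12 hs).trans ((leaf_23 hs).trans ((leaf_30 hs).trans
      (leaf_0s hs))))
  · refine sameCycle_of_eq ?_
    rw [Perm.mul_apply, leaf_g_inl hs hx]
    rfl

theorem Good.leaf (hX : X.Good) (hl : ∀ i, (l i + l (finRotate 4 i)) % 2 = 1)
    (hsA : s ∈ X.A) (hs : X.g s = s)
    (h0 : l 0 = X.lab (X.ρ s)) (h1 : l 1 = X.lab s) : (X.leaf l s hs).Good := by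
  refine Good.glueG (hX.newCell hl) _ _ Sum.inl_ne_inr (newCell_mem_inl.2 hsA)
    newCell_mem_inr h1.symm h0 (Or.inr not_comp_sum) ?_ ?_
  · exact ⟨Sum.inr 1, leaf_s1 (l := l) hs, leaf_g_inr (l := l) hs (by decide)⟩
  · exact ⟨Sum.inr 3, (leaf_30 (l := l) hs).symm, leaf_g_inr (l := l) hs (by decide)⟩

lemma leaf_cov (hs : X.g s = s) {C : Finset ℕ} : (X.leaf l s hs).Cov C ↔
    X.Cov C ∧ (l 0 ∈ C ∨ l 1 ∈ C ∨ l 2 ∈ C ∨ l 3 ∈ C) := newCell_cov

lemma leaf_P (hsA : s ∈ X.A) (hs : X.g s = s) (h0 : l 0 = X.lab (X.ρ s)) (h1 : l 1 = X.lab s)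
    (hX : X.Good) (h2 : ∀ a ∈ X.A, X.lab a ≠ l 2) (h3 : ∀ a ∈ X.A, X.lab a ≠ l 3) :
    (X.leaf l s hs).P = X.P + 2 := by
  have h4 := newCell_P (X := X) (l := l) hsA 1 h1 (fun i a ha hi => by
    obtain rfl | rfl | rfl | rfl : i = 0 ∨ i = 1 ∨ i = 2 ∨ i = 3 := by
      clear hi
      revert i
      decide
    · rw [h0] at hi
      exact X.conn.trans (conn_lab ha (hX.A_rho s hsA) hi) (X.conn.symm (conn_rho s))
    · rw [h1] at hi
      exact conn_lab ha hsA hi
    · exact absurd hi (h2 a ha)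
    · exact absurd hi (h3 a ha))
  have h5 := glue_P (X := X.newCell l) (s := Sum.inl s) (t := Sum.inr 0) (congrArg Sum.inl hs) rfl
    Sum.inl_ne_inr
  unfold leaf
  rw [h5, h4]
  ring

end Leaf

/-- the leaf test -/
theorem leaf_test {X : Cx S} {n : ℕ} (ih : IH n) (hX : X.Good) (hn : X.A.card + 4 < n) {s : S}
    (hsA : s ∈ X.A) (hs : X.g s = s) (h : X.P ≤ 4 * X.tau + 1) :
    X.Fr {X.lab s} ∨ X.Fr {X.lab (X.ρ s)} := by
  obtain ⟨p, hp1, hp⟩ := X.exists_fresh (X.lab (X.ρ s))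
  obtain ⟨q, hq1, hq⟩ := X.exists_fresh (X.lab s)
  have hpar := hX.par s hsA
  set l : Fin 4 → ℕ := ![X.lab (X.ρ s), X.lab s, p, q] with hl
  have e0 : l 0 = X.lab (X.ρ s) := rfl
  have e1 : l 1 = X.lab s := rfl
  have e2 : l 2 = p := rfl
  have e3 : l 3 = q := rfl
  have hr0 : finRotate 4 (0 : Fin 4) = 1 := by decide
  have hr1 : finRotate 4 (1 : Fin 4) = 2 := by decide
  have hr2 : finRotate 4 (2 : Fin 4) = 3 := by decide
  have hr3 : finRotate 4 (3 : Fin 4) = 0 := by decide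
  have hi4 : ∀ i : Fin 4, i = 0 ∨ i = 1 ∨ i = 2 ∨ i = 3 := by decide
  have hY : (X.leaf l s hs).Good := by
    refine hX.leaf (fun i => ?_) hsA hs rfl rfl
    rcases hi4 i with rfl | rfl | rfl | rfl
    · rw [hr0, e0, e1]; omega
    · rw [hr1, e1, e2]; omega
    · rw [hr2, e2, e3]; omega
    · rw [hr3, e3, e0]; omega
  have hP := leaf_P (l := l) hsA hs rfl rfl hX hp hq
  have hc : (X.leaf l s hs).A.card = X.A.card + 4 := newCell_card (l := l)
  have h1 := ih _ (X.leaf l s hs) hY (by omega)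
  obtain ⟨C, hC, hCc⟩ := (X.leaf l s hs).exists_cov
  obtain ⟨hC1, hC2⟩ := (leaf_cov hs).1 hC
  have h2 := tau_le hC1
  have h3 : C.card ≤ X.tau := by
    rw [hP] at h1
    omega
  have h4 : C.card = X.tau := le_antisymm h3 h2
  rcases hC2 with h5 | h5 | h5 | h5
  · exact Or.inr ⟨C, hC1, singleton_subset_iff.2 h5, h4⟩
  · exact Or.inl ⟨C, hC1, singleton_subset_iff.2 h5, h4⟩
  · exact absurd h5 (not_mem_of_fresh hX hC1 hp h3)
  · exact absurd h5 (not_mem_of_fresh hX hC1 hq h3)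

/-! ## The new cell glued to two sides -/

section Cell2

variable {X : Cx S} {l : Fin 4 → ℕ} {s t : S}

/-- one more cell, glued to the free sides `s` (ending at `v`) and `t` (starting at `v`) -/
def cell2 (X : Cx S) (l : Fin 4 → ℕ) (s t : S) (hs : X.g s = s) (ht : X.g t = t) (hst : s ≠ t) :
    Cx (S ⊕ Fin 4) :=
  (X.leaf l s hs).glue (Sum.inl t) (Sum.inr 3)
    (by rw [leaf_g_inl hs hst.symm, ht]) (leaf_g_inr hs (by decide))

variable (hs : X.g s = s) (ht : X.g t = t) (hst : s ≠ t)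

lemma cell2_g_inl {x : S} (hx : x ≠ s) (hx2 : x ≠ t) :
    (X.cell2 l s t hs ht hst).g (Sum.inl x) = Sum.inl (X.g x) := by
  change (X.leaf l s hs).g (swap (Sum.inl t) (Sum.inr 3) (Sum.inl x)) = _
  rw [swap_apply_of_ne_of_ne (fun h => hx2 (Sum.inl_injective h)) Sum.inl_ne_inr,
    leaf_g_inl hs hx]

lemma cell2_g_s : (X.cell2 l s t hs ht hst).g (Sum.inl s) = Sum.inr 0 := by
  change (X.leaf l s hs).g (swap (Sum.inl t) (Sum.inr 3) (Sum.inl s)) = _
  rw [swap_apply_of_ne_of_ne (fun h => hst (Sum.inl_injective h)) Sum.inl_ne_inr, leaf_g_self]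

lemma cell2_g_t : (X.cell2 l s t hs ht hst).g (Sum.inl t) = Sum.inr 3 := by
  change (X.leaf l s hs).g (swap (Sum.inl t) (Sum.inr 3) (Sum.inl t)) = _
  rw [swap_apply_left, leaf_g_inr hs (by decide)]

lemma cell2_g_zero : (X.cell2 l s t hs ht hst).g (Sum.inr 0) = Sum.inl s := by
  change (X.leaf l s hs).g (swap (Sum.inl t) (Sum.inr 3) (Sum.inr 0)) = _
  rw [swap_apply_of_ne_of_ne Sum.inr_ne_inl
    (fun h => absurd (Sum.inr_injective h) (by decide)), leaf_g_zero]

lemma cell2_g_one : (X.cell2 l s t hs ht hst).g (Sum.inr 1) = Sum.inr 1 := by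
  change (X.leaf l s hs).g (swap (Sum.inl t) (Sum.inr 3) (Sum.inr 1)) = _
  rw [swap_apply_of_ne_of_ne Sum.inr_ne_inl
    (fun h => absurd (Sum.inr_injective h) (by decide)), leaf_g_inr hs (by decide)]

lemma cell2_g_two : (X.cell2 l s t hs ht hst).g (Sum.inr 2) = Sum.inr 2 := by
  change (X.leaf l s hs).g (swap (Sum.inl t) (Sum.inr 3) (Sum.inr 2)) = _
  rw [swap_apply_of_ne_of_ne Sum.inr_ne_inl
    (fun h => absurd (Sum.inr_injective h) (by decide)), leaf_g_inr hs (by decide)]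

lemma cell2_g_three : (X.cell2 l s t hs ht hst).g (Sum.inr 3) = Sum.inl t := by
  change (X.leaf l s hs).g (swap (Sum.inl t) (Sum.inr 3) (Sum.inr 3)) = _
  rw [swap_apply_right, leaf_g_inl hs hst.symm, ht]

/-- the cycles of the new complex: those of the old one after the exchange of `s` and `t` -/
lemma cell2_same {a b : S} (h : SameCycle (X.ρ * X.g * swap s t) a b) :
    SameCycle ((X.cell2 l s t hs ht hst).ρ * (X.cell2 l s t hs ht hst).g) (Sum.inl a)
      (Sum.inl b) := by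
  let q : Setoid S := Setoid.comap Sum.inl
    (SameCycle.setoid ((X.cell2 l s t hs ht hst).ρ * (X.cell2 l s t hs ht hst).g))
  refine sameCycle_le_of (q := q) (fun x => ?_) h
  change SameCycle _ (Sum.inl x) (Sum.inl ((X.ρ * X.g * swap s t) x))
  by_cases hx : x = s
  · subst hx
    have h1 : SameCycle ((X.cell2 l x t hs ht hst).ρ * (X.cell2 l x t hs ht hst).g)
        (Sum.inl x) (Sum.inr 1) := by
      refine sameCycle_of_eq ?_
      rw [Perm.mul_apply, cell2_g_s]
      rfl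
    have h2 : SameCycle ((X.cell2 l x t hs ht hst).ρ * (X.cell2 l x t hs ht hst).g)
        (Sum.inr 1) (Sum.inr 2) := by
      refine sameCycle_of_eq ?_
      rw [Perm.mul_apply, cell2_g_one]
      rfl
    have h3 : SameCycle ((X.cell2 l x t hs ht hst).ρ * (X.cell2 l x t hs ht hst).g)
        (Sum.inr 2) (Sum.inr 3) := by
      refine sameCycle_of_eq ?_
      rw [Perm.mul_apply, cell2_g_two]
      rfl
    have h4 : SameCycle ((X.cell2 l x t hs ht hst).ρ * (X.cell2 l x t hs ht hst).g)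
        (Sum.inr 3) (Sum.inl ((X.ρ * X.g * swap x t) x)) := by
      refine sameCycle_of_eq ?_
      rw [Perm.mul_apply, cell2_g_three, Perm.mul_apply, swap_apply_left, Perm.mul_apply, ht]
      rfl
    exact h1.trans (h2.trans (h3.trans h4))
  by_cases hx2 : x = t
  · subst hx2
    have h1 : SameCycle ((X.cell2 l s x hs ht hst).ρ * (X.cell2 l s x hs ht hst).g)
        (Sum.inl x) (Sum.inr 0) := by
      refine sameCycle_of_eq ?_
      rw [Perm.mul_apply, cell2_g_t]
      rfl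
    have h4 : SameCycle ((X.cell2 l s x hs ht hst).ρ * (X.cell2 l s x hs ht hst).g)
        (Sum.inr 0) (Sum.inl ((X.ρ * X.g * swap s x) x)) := by
      refine sameCycle_of_eq ?_
      rw [Perm.mul_apply, cell2_g_zero, Perm.mul_apply, swap_apply_right, Perm.mul_apply, hs]
      rfl
    exact h1.trans h4
  · refine sameCycle_of_eq ?_
    rw [Perm.mul_apply, cell2_g_inl hs ht hst hx hx2, Perm.mul_apply (X.ρ * X.g),
      swap_apply_of_ne_of_ne hx hx2]
    rfl

/-- the new cell glued to two sides: they are on one cycle, and not at the same fan, or in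
different components -/
theorem Good.cell2 (hX : X.Good) (hl : ∀ i, (l i + l (finRotate 4 i)) % 2 = 1)
    (hsA : s ∈ X.A) (htA : t ∈ X.A)
    (h0 : l 0 = X.lab (X.ρ s)) (h1 : l 1 = X.lab s) (h0' : l 0 = X.lab t)
    (h3 : l 3 = X.lab (X.ρ t)) (hc : SameCycle (X.ρ * X.g) s t ∨ ¬ comp X.ρ X.g s t)
    (hlin : SameCycle (X.ρ * X.g) s t → ∃ f, SameCycle (X.ρ * X.g * swap s t) t f ∧
      f ≠ s ∧ f ≠ t ∧ X.g f = f) : (X.cell2 l s t hs ht hst).Good := by
  have hne : (Sum.inl t : S ⊕ Fin 4) ≠ Sum.inr 3 := Sum.inl_ne_inr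
  refine Good.glueG (hX.leaf hl hsA hs h0 h1) _ _ hne (newCell_mem_inl (l := l).2 htA)
    (newCell_mem_inr (l := l)) ?_ ?_ ?_ ?_ ?_
  · exact h0'.symm
  · exact h3
  · rcases hc with hc | hc
    · left
      exact (leaf_same hs hc.symm).trans ((leaf_s1 hs).trans ((leaf_12 hs).trans (leaf_23 hs)))
    · right
      intro h4
      have h5 : comp (Perm.sumCongr X.ρ (finRotate 4)) (Perm.sumCongr X.g 1 *
        swap (Sum.inl s) (Sum.inr 0)) (Sum.inl t) (Sum.inr 3) := h4
      rw [comp_swap (show Perm.sumCongr X.g (1 : Perm (Fin 4)) (Sum.inl s) = Sum.inl s from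
        congrArg Sum.inl hs) (show Perm.sumCongr X.g (1 : Perm (Fin 4)) (Sum.inr 0) = Sum.inr 0
        from rfl)] at h5
      rcases h5 with h5 | ⟨h5, -⟩ | ⟨h5, -⟩
      · exact not_comp_sum h5
      · exact hc ((comp X.ρ X.g).symm (comp_sum h5))
      · exact not_comp_sum h5
  · -- the cycle through `t`
    by_cases h4 : SameCycle (X.ρ * X.g) s t
    · obtain ⟨f, hf1, hf2, hf3, hf4⟩ := hlin h4
      refine ⟨Sum.inl f, cell2_same (l := l) hs ht hst hf1, ?_⟩
      exact (cell2_g_inl (l := l) hs ht hst hf2 hf3).trans (congrArg Sum.inl hf4)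
    · refine ⟨Sum.inr 1, ?_, cell2_g_one (l := l) hs ht hst⟩
      refine (cell2_same (l := l) hs ht hst (sameCycle_of_not h4).symm).trans ?_
      refine sameCycle_of_eq ?_
      rw [Perm.mul_apply, cell2_g_s]
      rfl
  · refine ⟨Sum.inr 2, SameCycle.symm ?_, cell2_g_two (l := l) hs ht hst⟩
    refine sameCycle_of_eq ?_
    change ((X.cell2 l s t hs ht hst).ρ * (X.cell2 l s t hs ht hst).g) (Sum.inr 2) = Sum.inr 3
    rw [Perm.mul_apply, cell2_g_two]
    rfl

lemma cell2_cov {C : Finset ℕ} : (X.cell2 l s t hs ht hst).Cov C ↔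
    X.Cov C ∧ (l 0 ∈ C ∨ l 1 ∈ C ∨ l 2 ∈ C ∨ l 3 ∈ C) := newCell_cov

lemma cell2_P (hX : X.Good) (hsA : s ∈ X.A) (htA : t ∈ X.A) (h0 : l 0 = X.lab (X.ρ s))
    (h1 : l 1 = X.lab s) (h0' : l 0 = X.lab t) (h3 : l 3 = X.lab (X.ρ t))
    (h2 : ∀ a ∈ X.A, X.lab a ≠ l 2) : (X.cell2 l s t hs ht hst).P = X.P + 1 := by
  have hst' : X.conn t s := X.conn.trans (conn_lab htA (hX.A_rho s hsA) (by rw [← h0', h0]))
    (X.conn.symm (conn_rho s))
  have h4 := newCell_P (X := X) (l := l) hsA 1 h1 (fun i a ha hi => by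
    obtain rfl | rfl | rfl | rfl : i = 0 ∨ i = 1 ∨ i = 2 ∨ i = 3 := by
      clear hi
      revert i
      decide
    · rw [h0] at hi
      exact X.conn.trans (conn_lab ha (hX.A_rho s hsA) hi) (X.conn.symm (conn_rho s))
    · rw [h1] at hi
      exact conn_lab ha hsA hi
    · exact absurd hi (h2 a ha)
    · rw [h3] at hi
      exact X.conn.trans (conn_lab ha (hX.A_rho t htA) hi)
        (X.conn.trans (X.conn.symm (conn_rho t)) hst'))
  have h5 := glue_P (X := X.newCell l) (s := Sum.inl s) (t := Sum.inr 0) (congrArg Sum.inl hs) rfl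
    Sum.inl_ne_inr
  have h6 := glue_P (X := X.leaf l s hs) (s := Sum.inl t) (t := Sum.inr 3)
    (by rw [leaf_g_inl hs hst.symm, ht]) (leaf_g_inr hs (by decide)) Sum.inl_ne_inr
  unfold cell2
  rw [h6]
  unfold leaf
  rw [h5, h4]
  ring

end Cell2

/-- the cell test (`lab s = lab (ρ t)` is allowed) -/
theorem cell_test {X : Cx S} {n : ℕ} (ih : IH n) (hX : X.Good) (hn : X.A.card + 4 < n) {s t : S}
    (hsA : s ∈ X.A) (htA : t ∈ X.A) (hs : X.g s = s) (ht : X.g t = t) (hst : s ≠ t)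
    (hv : X.lab (X.ρ s) = X.lab t)
    (hc : SameCycle (X.ρ * X.g) s t ∨ ¬ comp X.ρ X.g s t)
    (hlin : SameCycle (X.ρ * X.g) s t → ∃ f, SameCycle (X.ρ * X.g * swap s t) t f ∧
      f ≠ s ∧ f ≠ t ∧ X.g f = f) (h : X.P ≤ 4 * X.tau + 2) :
    X.Fr {X.lab s} ∨ X.Fr {X.lab t} ∨ X.Fr {X.lab (X.ρ t)} := by
  obtain ⟨p, hp1, hp⟩ := X.exists_fresh (X.lab (X.ρ s))
  have hpar := hX.par s hsA
  have hpar2 := hX.par t htA
  set l : Fin 4 → ℕ := ![X.lab (X.ρ s), X.lab s, p, X.lab (X.ρ t)] with hl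
  have e0 : l 0 = X.lab (X.ρ s) := rfl
  have e1 : l 1 = X.lab s := rfl
  have e2 : l 2 = p := rfl
  have e3 : l 3 = X.lab (X.ρ t) := rfl
  have hr0 : finRotate 4 (0 : Fin 4) = 1 := by decide
  have hr1 : finRotate 4 (1 : Fin 4) = 2 := by decide
  have hr2 : finRotate 4 (2 : Fin 4) = 3 := by decide
  have hr3 : finRotate 4 (3 : Fin 4) = 0 := by decide
  have hi4 : ∀ i : Fin 4, i = 0 ∨ i = 1 ∨ i = 2 ∨ i = 3 := by decide
  have hY : (X.cell2 l s t hs ht hst).Good := by
    refine hX.cell2 hs ht hst (fun i => ?_) hsA htA rfl rfl hv rfl hc hlin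
    rcases hi4 i with rfl | rfl | rfl | rfl
    · rw [hr0, e0, e1]; omega
    · rw [hr1, e1, e2]; omega
    · rw [hr2, e2, e3]; omega
    · rw [hr3, e3, e0]; omega
  have hP := cell2_P (l := l) hs ht hst hX hsA htA rfl rfl hv rfl hp
  have hcc : (X.cell2 l s t hs ht hst).A.card = X.A.card + 4 := newCell_card (l := l)
  have h1 := ih _ (X.cell2 l s t hs ht hst) hY (by omega)
  obtain ⟨C, hC, hCc⟩ := (X.cell2 l s t hs ht hst).exists_cov
  obtain ⟨hC1, hC2⟩ := (cell2_cov hs ht hst).1 hC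
  have h2 := tau_le hC1
  have h3 : C.card ≤ X.tau := by
    rw [hP] at h1
    omega
  have h4 : C.card = X.tau := le_antisymm h3 h2
  rcases hC2 with h5 | h5 | h5 | h5
  · exact Or.inr (Or.inl ⟨C, hC1, singleton_subset_iff.2 (by rw [← hv]; exact h5), h4⟩)
  · exact Or.inl ⟨C, hC1, singleton_subset_iff.2 h5, h4⟩
  · exact absurd h5 (not_mem_of_fresh hX hC1 hp h3)
  · exact Or.inr (Or.inr ⟨C, hC1, singleton_subset_iff.2 h5, h4⟩)

end Cx

end Pool.Agent.Lib.MP06c549.Z
end

section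
/-!
# MP_06c549_co, Z: zips

`B` is a closed set of cells that is deleted, `D` the closed set of the remaining cells. `s` and `t`
are sides of `D` glued to `B`; turning around the end `v` of `s` (the start of `t`) one comes from
`t` through `B` to `s`. Then `s` and `t` can be glued after the deletion of `B` (and the start of `s`
and the end of `t` are identified).
-/
set_option autoImplicit false
set_option linter.unusedSectionVars false

namespace Pool.Agent.Lib.MP06c549.Z

open Equiv Equiv.Perm Finset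

variable {S : Type} [Fintype S] [DecidableEq S]

namespace Cx

variable {X : Cx S}

/-! ## Turning around a vertex -/

/-- one step inside a fan -/
def turn (X : Cx S) (x y : S) : Prop := X.g x ≠ x ∧ y = X.ρ (X.g x)

/-- one step inside a fan, inside the set `B` -/
def turnIn (X : Cx S) (B : Finset S) (x y : S) : Prop := x ∈ B ∧ y ∈ B ∧ X.turn x y

lemma turn_det {x y z : S} (h1 : X.turn x y) (h2 : X.turn x z) : y = z := by
  rw [h1.2, h2.2]

lemma turnIn_turn {B : Finset S} {x y : S} (h : Relation.ReflTransGen (X.turnIn B) x y) :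
    Relation.ReflTransGen X.turn x y :=
  Relation.ReflTransGen.mono (fun _ _ h => h.2.2) _ _ h

namespace Good

variable (hX : X.Good)
include hX

lemma lab_turn {x y : S} (h : X.turn x y) : X.lab y = X.lab x := by
  rw [h.2]
  exact hX.lab_g' h.1

lemma lab_turns {x y : S} (h : Relation.ReflTransGen X.turn x y) : X.lab y = X.lab x := by
  induction h with
  | refl => rfl
  | tail _ h2 ih => rw [hX.lab_turn h2, ih]

lemma mem_turn {x y : S} (h : X.turn x y) : y ∈ X.A := by
  rw [h.2]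
  exact hX.A_rho _ (hX.g_mem h.1)

lemma mem_turns {x y : S} (h : Relation.ReflTransGen X.turn x y) (hx : x ∈ X.A) : y ∈ X.A := by
  rcases Relation.ReflTransGen.cases_tail h with h | ⟨z, -, h⟩
  · rw [h]; exact hx
  · exact hX.mem_turn h

/-- no closed fans -/
lemma no_closed {x : S} : ¬ Relation.TransGen X.turn x x := by
  intro h
  have key : ∀ n : ℕ, Relation.TransGen X.turn (((X.ρ * X.g) ^ n) x) x := by
    intro n
    induction n with
    | zero => exact h
    | succ n ih =>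
      rw [pow_succ', Perm.mul_apply, Perm.mul_apply]
      rcases Relation.TransGen.head'_iff.1 ih with ⟨z, hz, hzx⟩
      rw [← hz.2]
      rcases hzx.cases_head with h2 | ⟨w, h2, h3⟩
      · rw [h2]; exact h
      · exact Relation.TransGen.head' h2 h3
  obtain ⟨t, ht, htt⟩ := hX.lin x
  obtain ⟨n, -, -, hn⟩ := ht.exists_pow_eq''
  have h1 := key n
  rw [hn] at h1
  obtain ⟨z, hz, -⟩ := Relation.TransGen.head'_iff.1 h1
  exact hz.1 htt

/-- the end of the fan -/
lemma exists_last (x : S) : ∃ y, Relation.ReflTransGen X.turn x y ∧ X.g y = y := by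
  obtain ⟨t, ht, htt⟩ := hX.lin x
  obtain ⟨n, -, -, hn⟩ := ht.exists_pow_eq''
  have key : ∀ n : ℕ, (∃ y, Relation.ReflTransGen X.turn x y ∧ X.g y = y) ∨
      Relation.ReflTransGen X.turn x (((X.ρ * X.g) ^ n) x) := by
    intro n
    induction n with
    | zero => exact Or.inr Relation.ReflTransGen.refl
    | succ n ih =>
      rcases ih with ih | ih
      · exact Or.inl ih
      by_cases h : X.g (((X.ρ * X.g) ^ n) x) = ((X.ρ * X.g) ^ n) x
      · exact Or.inl ⟨_, ih, h⟩
      · right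
        rw [pow_succ', Perm.mul_apply, Perm.mul_apply]
        exact ih.tail ⟨h, rfl⟩
  rcases key n with h | h
  · exact h
  · rw [hn] at h
    exact ⟨t, h, htt⟩

end Good

/-- turning is the same after the gluing of two free sides -/
lemma turn_glue {s t : S} (hs : X.g s = s) (ht : X.g t = t) {x y : S} (h : X.turn x y) :
    (X.ρ * (X.g * swap s t)) x = y ∧ (X.g * swap s t) x ≠ x := by
  have h1 : x ≠ s := fun h1 => h.1 (by rw [h1, hs])
  have h2 : x ≠ t := fun h2 => h.1 (by rw [h2, ht])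
  have h3 : (X.g * swap s t) x = X.g x := by rw [Perm.mul_apply, swap_apply_of_ne_of_ne h1 h2]
  refine ⟨?_, by rw [h3]; exact h.1⟩
  rw [Perm.mul_apply, h3, h.2]

lemma turns_glue {s t : S} (hs : X.g s = s) (ht : X.g t = t) {x y : S}
    (h : Relation.ReflTransGen X.turn x y) : SameCycle (X.ρ * (X.g * swap s t)) x y := by
  induction h with
  | refl => exact SameCycle.refl _ _
  | tail _ h2 ih => exact ih.trans ⟨1, by rw [zpow_one]; exact (turn_glue hs ht h2).1⟩

/-- linear fans after a gluing: the fan of `ρ t` must not end in `s` or `t`, the fan of `ρ s`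
must not end in `s` or `t` -/
lemma Good.lin_turn (hX : X.Good) {s t : S} (hs : X.g s = s) (ht : X.g t = t)
    (h1 : ¬ Relation.ReflTransGen X.turn (X.ρ t) s) (h2 : ¬ Relation.ReflTransGen X.turn (X.ρ t) t) :
    ∃ y, SameCycle (X.ρ * (X.g * swap s t)) s y ∧ (X.g * swap s t) y = y := by
  obtain ⟨y, hy, hyy⟩ := hX.exists_last (X.ρ t)
  have hys : y ≠ s := fun h => h1 (h ▸ hy)
  have hyt : y ≠ t := fun h => h2 (h ▸ hy)
  refine ⟨y, SameCycle.trans ⟨1, ?_⟩ (turns_glue hs ht hy), ?_⟩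
  · rw [zpow_one, Perm.mul_apply, Perm.mul_apply, swap_apply_left, ht]
  · rw [Perm.mul_apply, swap_apply_of_ne_of_ne hys hyt, hyy]

lemma Good.lin_turn' (hX : X.Good) {s t : S} (hs : X.g s = s) (ht : X.g t = t)
    (h1 : ¬ Relation.ReflTransGen X.turn (X.ρ s) s) (h2 : ¬ Relation.ReflTransGen X.turn (X.ρ s) t) :
    ∃ y, SameCycle (X.ρ * (X.g * swap s t)) t y ∧ (X.g * swap s t) y = y := by
  have h := hX.lin_turn ht hs h2 h1
  rwa [swap_comm] at h

/-! ## New labels -/

/-- new labels, a function of the old labels -/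
theorem Good.relabG (hX : X.Good) {l : S → ℕ} (h1 : ∀ s, X.g s ≠ s → l (X.g s) = l (X.ρ s))
    (h2 : ∀ s ∈ X.A, (l s + l (X.ρ s)) % 2 = 1) : (X.relab l).Good where
  rho4 := hX.rho4
  rho2 := hX.rho2
  A_rho := hX.A_rho
  A_g := hX.A_g
  lab_g := h1
  par := h2
  lin := hX.lin
  planar := hX.planar

/-- identification of the label `y` with the label `x` -/
def idf (x y n : ℕ) : ℕ := if n = y then x else n

lemma idf_mem {C : Finset ℕ} {x y n : ℕ} (h : idf x y n ∈ C) : n ∈ C ∨ (x ∈ C ∧ n = y) := by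
  unfold idf at h
  split_ifs at h with h1
  · exact Or.inr ⟨h, h1⟩
  · exact Or.inl h

/-- identification of two labels of the same parity -/
def merge (X : Cx S) (x y : ℕ) : Cx S := X.relab fun s => idf x y (X.lab s)

@[simp] lemma merge_A {x y : ℕ} : (X.merge x y).A = X.A := rfl
@[simp] lemma merge_rho {x y : ℕ} : (X.merge x y).ρ = X.ρ := rfl
@[simp] lemma merge_g {x y : ℕ} : (X.merge x y).g = X.g := rfl
@[simp] lemma merge_lab {x y : ℕ} (s : S) : (X.merge x y).lab s = idf x y (X.lab s) := rfl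

theorem Good.merge (hX : X.Good) {x y : ℕ} (hxy : x % 2 = y % 2) : (X.merge x y).Good := by
  have h0 : ∀ n, idf x y n % 2 = n % 2 := by
    intro n
    unfold idf
    split_ifs with h
    · rw [h, hxy]
    · rfl
  refine hX.relabG (fun s hs => ?_) fun s hs => ?_
  · rw [hX.lab_g s hs]
  · have h1 := h0 (X.lab s)
    have h2 := h0 (X.lab (X.ρ s))
    have h3 := hX.par s hs
    change (idf x y (X.lab s) + idf x y (X.lab (X.ρ s))) % 2 = 1
    omega

/-- identification of labels does not increase the potential -/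
lemma merge_P_le (X : Cx S) (x y : ℕ) : (X.merge x y).P ≤ X.P := by
  have h : (X.merge x y).c ≤ X.c := by
    unfold c
    refine nc_le_nc (fun s hs => ⟨s, hs, (X.merge x y).conn.refl s⟩) fun s _ t _ h => ?_
    refine conn_le (X := X) (q := (X.merge x y).conn) (fun z => conn_rho (X := X.merge x y) z) ?_ h
    intro a ha b hb hab
    refine conn_lab (X := X.merge x y) ha hb ?_
    rw [merge_lab, merge_lab, hab]
  have h2 : (X.merge x y).N = X.N := rfl
  have h3 : (X.merge x y).E = X.E := rfl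
  unfold P
  rw [h2, h3]
  have : ((X.merge x y).c : ℤ) ≤ X.c := by exact_mod_cast h
  omega

/-- hitting sets after an identification -/
lemma merge_cov {x y : ℕ} {C : Finset ℕ} (h : (X.merge x y).Cov C) :
    X.Cov C ∨ (x ∈ C ∧ X.Cov (insert y C)) := by
  by_cases hx : x ∈ C
  · right
    refine ⟨hx, fun s hs => ?_⟩
    have key : ∀ n, idf x y n ∈ C → n ∈ insert y C := by
      intro n hn
      rcases idf_mem hn with h1 | ⟨-, h1⟩
      · exact mem_insert_of_mem h1
      · rw [h1]; exact mem_insert_self _ _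
    rcases h s hs with h1 | h1 | h1 | h1
    · exact Or.inl (key _ h1)
    · exact Or.inr (Or.inl (key _ h1))
    · exact Or.inr (Or.inr (Or.inl (key _ h1)))
    · exact Or.inr (Or.inr (Or.inr (key _ h1)))
  · left
    have key : ∀ n, idf x y n ∈ C → n ∈ C := by
      intro n hn
      rcases idf_mem hn with h1 | ⟨h1, -⟩
      · exact h1
      · exact absurd h1 hx
    intro s hs
    rcases h s hs with h1 | h1 | h1 | h1
    · exact Or.inl (key _ h1)
    · exact Or.inr (Or.inl (key _ h1))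
    · exact Or.inr (Or.inr (Or.inl (key _ h1)))
    · exact Or.inr (Or.inr (Or.inr (key _ h1)))

/-- **Gluing with identification** of the start of `s` and the end of `t`: from the induction
hypothesis a hitting set of size `≤ (P - 1) / 4`, which also hits the old complex or contains the
merged label. -/
theorem Good.glue_cov' {n : ℕ} (ih : IH n) (hX : X.Good) (hn : X.A.card < n) {s t : S}
    (hs : X.g s = s) (ht : X.g t = t) (hst : s ≠ t) (hsA : s ∈ X.A) (htA : t ∈ X.A)
    (hl : X.lab t = X.lab (X.ρ s)) (hc : Gl X.ρ X.g s t)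
    (hl1 : ∃ y, SameCycle (X.ρ * (X.g * swap s t)) s y ∧ (X.g * swap s t) y = y)
    (hl2 : ∃ y, SameCycle (X.ρ * (X.g * swap s t)) t y ∧ (X.g * swap s t) y = y) :
    ∃ C : Finset ℕ, 4 * (C.card : ℤ) ≤ X.P - 1 ∧
      (X.Cov C ∨ (X.lab s ∈ C ∧ X.Cov (insert (X.lab (X.ρ t)) C))) := by
  have p1 := hX.par s hsA
  have p2 := hX.par t htA
  have hM := hX.merge (x := X.lab s) (y := X.lab (X.ρ t)) (by omega)
  have hG := hM.glueG (s := s) (t := t) hs ht hst hsA htA (by
    change idf _ _ (X.lab s) = idf _ _ (X.lab (X.ρ t))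
    unfold idf
    rw [if_pos rfl]
    split_ifs <;> rfl) (by
    change idf _ _ (X.lab t) = idf _ _ (X.lab (X.ρ s))
    rw [hl]) hc hl1 hl2
  obtain ⟨C, hC, hCc⟩ := ((X.merge (X.lab s) (X.lab (X.ρ t))).glue s t hs ht).exists_cov
  have h1 := ih S _ hG hn
  rw [glue_P (X := X.merge (X.lab s) (X.lab (X.ρ t))) hs ht hst] at h1
  have h2 := X.merge_P_le (X.lab s) (X.lab (X.ρ t))
  refine ⟨C, ?_, merge_cov hC⟩
  rw [hCc]
  linarith

/-! ## The zip -/

section Zip

variable {B D : Finset S} {s t : S}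

lemma Good.cl_iff' (hX : X.Good) (hB : X.Cl B) : ∀ x, X.ρ x ∈ B ↔ x ∈ B := fun _ => hX.cl_iff hB

/-- deletion of `B`: the gluing -/
lemma sub_le_region (hBD : Disjoint B D) (x : S) :
    (X.sub D).g x = x ∨ (x ∉ B ∧ X.g x ∉ B ∧ (X.sub D).g x = X.g x) := by
  by_cases h : (X.sub D).g x = x
  · exact Or.inl h
  · obtain ⟨h1, h2, h3, -⟩ := sub_g_ne h
    exact Or.inr ⟨fun h4 => disjoint_left.1 hBD h4 h1, fun h4 => disjoint_left.1 hBD h4 h2, h3⟩

/-- **Gluing condition after the deletion of a region**: `s`, `t` are glued to `B`, their partners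
are connected inside `B`. -/
theorem Good.region_sub (hX : X.Good) (hB : X.Cl B) (hBD : Disjoint B D) (hst : s ≠ t)
    (hs : s ∉ B) (ht : t ∉ B) (hgs : X.g s ∈ B) (hgt : X.g t ∈ B)
    (hr : Relation.ReflTransGen (stepIn X.ρ X.g B) (X.g s) (X.g t)) :
    Gl X.ρ (X.sub D).g s t :=
  hX.planar.region_gl (g := X.g) X.inv (hX.cl_iff' hB) hst hs ht hgs hgt hr (X.sub D).inv
    (sub_le_region hBD)

/-- a fan inside `B` connects -/
lemma Good.reach_of_fan (hX : X.Good) (hB : X.Cl B) {x y : S}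
    (h : Relation.ReflTransGen (X.turnIn B) x y) :
    Relation.ReflTransGen (stepIn X.ρ X.g B) x y := by
  induction h with
  | refl => exact Relation.ReflTransGen.refl
  | @tail y z _ h2 ih =>
    obtain ⟨-, h3, -, h4⟩ := h2
    have h5 : X.g y ∈ B := (hX.cl_iff hB).1 (by rw [← h4]; exact h3)
    exact (ih.tail ⟨h5, Or.inr rfl⟩).tail ⟨h3, Or.inl h4⟩

lemma turn_of_sub {x y : S} (h : (X.sub D).turn x y) : X.turn x y := by
  obtain ⟨h1, h2⟩ := h
  obtain ⟨-, -, h3, h4⟩ := sub_g_ne h1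
  refine ⟨h4, ?_⟩
  rw [h2, h3]
  rfl

/-- **The zip.** `B` is deleted, `D` remains, `s`, `t ∈ D` are glued to `B`; turning around the
start of `t` one comes from `t` through `B` to the end of `s`; the fan of the end of `t` does not
contain `s`. -/
theorem Good.zipG (hX : X.Good) (hB : X.Cl B) (hBD : Disjoint B D) (hs : s ∈ D)
    (ht : t ∈ D) (hgs : X.g s ∈ B) (hgt : X.g t ∈ B)
    (hfan : Relation.ReflTransGen (X.turnIn B) (X.ρ (X.g t)) (X.g s)) :
    (X.sub D).g s = s ∧ (X.sub D).g t = t ∧ s ≠ t ∧ s ∈ (X.sub D).A ∧ t ∈ (X.sub D).A ∧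
      X.lab t = X.lab (X.ρ s) ∧ Gl X.ρ (X.sub D).g s t := by
  have hsB : s ∉ B := fun h => disjoint_left.1 hBD h hs
  have htB : t ∉ B := fun h => disjoint_left.1 hBD h ht
  have hgsne : X.g s ≠ s := fun h => hsB (h ▸ hgs)
  have hgtne : X.g t ≠ t := fun h => htB (h ▸ hgt)
  have hsA := hX.A_g s hgsne
  have htA := hX.A_g t hgtne
  have hlab : X.lab t = X.lab (X.ρ s) := by
    have h1 := hX.lab_turns (turnIn_turn hfan)
    rw [hX.lab_g s hgsne, hX.lab_g' hgtne] at h1
    exact h1.symm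
  have hst : s ≠ t := by
    rintro rfl
    have := hX.par s hsA
    omega
  have hs' : (X.sub D).g s = s := by
    rw [sub_g, if_neg fun h => disjoint_left.1 hBD hgs h.2]
  have ht' : (X.sub D).g t = t := by
    rw [sub_g, if_neg fun h => disjoint_left.1 hBD hgt h.2]
  refine ⟨hs', ht', hst, mem_inter.2 ⟨hsA, hs⟩, mem_inter.2 ⟨htA, ht⟩, hlab, ?_⟩
  refine (hX.region_sub hB hBD hst.symm htB hsB hgt hgs ?_).symm
  have h1 := hX.reach_of_fan hB hfan
  exact h1.head ⟨hB _ hgt, Or.inl rfl⟩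

/-- linear fans after a zip -/
theorem Good.zip_lin (hX : X.Good) (hD : X.Cl D) (hBD : Disjoint B D) (hs : s ∈ D) (ht : t ∈ D)
    (hgs : X.g s ∈ B) (hgt : X.g t ∈ B)
    (hfan : Relation.ReflTransGen (X.turnIn B) (X.ρ (X.g t)) (X.g s))
    (hx : ¬ Relation.ReflTransGen (X.sub D).turn (X.ρ t) s) :
    (∃ y, SameCycle (X.ρ * ((X.sub D).g * swap s t)) s y ∧ ((X.sub D).g * swap s t) y = y) ∧
    (∃ y, SameCycle (X.ρ * ((X.sub D).g * swap s t)) t y ∧ ((X.sub D).g * swap s t) y = y) := by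
  have hsB : s ∉ B := fun h => disjoint_left.1 hBD h hs
  have htB : t ∉ B := fun h => disjoint_left.1 hBD h ht
  have hgsne : X.g s ≠ s := fun h => hsB (h ▸ hgs)
  have hgtne : X.g t ≠ t := fun h => htB (h ▸ hgt)
  have hsA := hX.A_g s hgsne
  have htA := hX.A_g t hgtne
  have hs' : (X.sub D).g s = s := by
    rw [sub_g, if_neg fun h => disjoint_left.1 hBD hgs h.2]
  have ht' : (X.sub D).g t = t := by
    rw [sub_g, if_neg fun h => disjoint_left.1 hBD hgt h.2]
  have hZ := hX.sub hD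
  have hpar : ∀ x ∈ X.A, ∀ y, Relation.ReflTransGen (X.sub D).turn (X.ρ x) y →
      (X.lab x + X.lab y) % 2 = 1 := by
    intro x hx y hy
    have h1 := hZ.lab_turns hy
    have h2 : X.lab y = X.lab (X.ρ x) := h1
    have h3 := hX.par x hx
    omega
  have hlab : X.lab t = X.lab (X.ρ s) := by
    have h1 := hX.lab_turns (turnIn_turn hfan)
    rw [hX.lab_g s hgsne, hX.lab_g' hgtne] at h1
    exact h1.symm
  have hps := hX.par s hsA
  refine ⟨hZ.lin_turn hs' ht' hx fun h => ?_, hZ.lin_turn' hs' ht' (fun h => ?_) fun h => ?_⟩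
  · have := hpar t htA t h
    omega
  · have := hpar s hsA s h
    omega
  · -- a closed fan in `X`
    refine hX.no_closed (x := t) ?_
    have h1 : X.turn t (X.ρ (X.g t)) := ⟨hgtne, rfl⟩
    have h2 : X.turn (X.g s) (X.ρ s) := ⟨by rw [X.inv]; exact hgsne.symm, by rw [X.inv]⟩
    have h3 : Relation.ReflTransGen X.turn (X.ρ s) t :=
      Relation.ReflTransGen.mono (fun _ _ => turn_of_sub) _ _ h
    exact Relation.TransGen.head' h1 (((turnIn_turn hfan).tail h2).trans h3)

/-- the fan of the end of `t` does not contain `s`, if the labels are different -/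
lemma Good.not_turns_of_lab (hX : X.Good) (hD : X.Cl D) (h : X.lab s ≠ X.lab (X.ρ t)) :
    ¬ Relation.ReflTransGen (X.sub D).turn (X.ρ t) s := fun h1 => h ((hX.sub hD).lab_turns h1)

/-- **Zip, hitting sets.** -/
theorem Good.zip_cov {n : ℕ} (ih : IH n) (hX : X.Good) (hB : X.Cl B) (hD : X.Cl D)
    (hBD : Disjoint B D) (hn : (X.A ∩ D).card < n) (hs : s ∈ D) (ht : t ∈ D) (hgs : X.g s ∈ B)
    (hgt : X.g t ∈ B) (hfan : Relation.ReflTransGen (X.turnIn B) (X.ρ (X.g t)) (X.g s))
    (hx : ¬ Relation.ReflTransGen (X.sub D).turn (X.ρ t) s) :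
    ∃ C : Finset ℕ, 4 * (C.card : ℤ) ≤ (X.sub D).P - 1 ∧
      ((X.sub D).Cov C ∨ (X.lab s ∈ C ∧ (X.sub D).Cov (insert (X.lab (X.ρ t)) C))) := by
  obtain ⟨h1, h2, h3, h4, h5, h6, h7⟩ := hX.zipG hB hBD hs ht hgs hgt hfan
  obtain ⟨h8, h9⟩ := hX.zip_lin hD hBD hs ht hgs hgt hfan hx
  exact Good.glue_cov' ih (hX.sub hD) hn h1 h2 h3 h4 h5 h6 h7 h8 h9

/-- **Zip, tight case.** The two merged labels lie in a common least hitting set. -/
theorem Good.zip_fr {n : ℕ} (ih : IH n) (hX : X.Good) (hB : X.Cl B) (hD : X.Cl D)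
    (hBD : Disjoint B D) (hn : (X.A ∩ D).card < n) (hs : s ∈ D) (ht : t ∈ D) (hgs : X.g s ∈ B)
    (hgt : X.g t ∈ B) (hfan : Relation.ReflTransGen (X.turnIn B) (X.ρ (X.g t)) (X.g s))
    (hx : ¬ Relation.ReflTransGen (X.sub D).turn (X.ρ t) s)
    (hP : (X.sub D).P ≤ 4 * (X.sub D).tau) : (X.sub D).Fr {X.lab s, X.lab (X.ρ t)} := by
  obtain ⟨C, h1, h2⟩ := hX.zip_cov ih hB hD hBD hn hs ht hgs hgt hfan hx
  have h3 : C.card < (X.sub D).tau := by
    have : (C.card : ℤ) < (X.sub D).tau := by linarith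
    exact_mod_cast this
  rcases h2 with h2 | ⟨h2, h4⟩
  · exact absurd (tau_le h2) (by omega)
  · have h5 := tau_le h4
    have h6 := card_insert_le (X.lab (X.ρ t)) C
    refine ⟨insert (X.lab (X.ρ t)) C, h4, ?_, by omega⟩
    intro z hz
    rcases mem_insert.1 hz with rfl | hz
    · exact mem_insert_of_mem h2
    · rw [mem_singleton.1 hz]; exact mem_insert_self _ _

/-- **Zip of a digon** (the labels are already equal): the potential drops, nothing else. -/
theorem Good.zip_digon {n : ℕ} (ih : IH n) (hX : X.Good) (hB : X.Cl B) (hD : X.Cl D)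
    (hBD : Disjoint B D) (hn : (X.A ∩ D).card < n) (hs : s ∈ D) (ht : t ∈ D) (hgs : X.g s ∈ B)
    (hgt : X.g t ∈ B) (hfan : Relation.ReflTransGen (X.turnIn B) (X.ρ (X.g t)) (X.g s))
    (hx : ¬ Relation.ReflTransGen (X.sub D).turn (X.ρ t) s) (hl : X.lab s = X.lab (X.ρ t)) :
    4 * ((X.sub D).tau : ℤ) ≤ (X.sub D).P - 1 := by
  obtain ⟨C, h1, h2⟩ := hX.zip_cov ih hB hD hBD hn hs ht hgs hgt hfan hx
  have h3 : (X.sub D).tau ≤ C.card := by
    rcases h2 with h2 | ⟨h2, h4⟩
    · exact tau_le h2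
    · rw [← hl, insert_eq_of_mem h2] at h4
      exact tau_le h4
  have : ((X.sub D).tau : ℤ) ≤ C.card := by exact_mod_cast h3
  linarith

end Zip

/-- **Zip in `del {v}`** at the corner `ρ (ρ s)` of the cell of `s` opposite to the corner
`v = lab s`: the statement `zip` of the flat case. -/
theorem Good.zip_star (hX : X.Good) (ih : IH X.A.card) {s : S} (hs : s ∈ X.A)
    (h1 : X.g (X.ρ s) ∉ X.star {X.lab s}) (h2 : X.g (X.ρ (X.ρ s)) ∉ X.star {X.lab s})
    (hdeg : X.lab (X.ρ s) ≠ X.lab (X.ρ (X.ρ (X.ρ s))))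
    (hP : (X.del {X.lab s}).P ≤ 4 * (X.del {X.lab s}).tau)
    (hF : (X.del {X.lab s}).tau + 1 ≤ X.tau) :
    ∃ C : Finset ℕ, (X.del {X.lab s}).Cov C ∧ X.lab (X.ρ s) ∈ C ∧
      X.lab (X.ρ (X.ρ (X.ρ s))) ∈ C ∧ C.card < X.tau := by
  have hB := hX.cl_star {X.lab s}
  have hD : X.Cl (X.A \ X.star {X.lab s}) := hX.cl_sdiff hX.cl_A hB
  have hsB : s ∈ X.star {X.lab s} := mem_star.2 ⟨hs, Or.inl (mem_singleton_self _)⟩
  have m1 : X.ρ s ∈ X.star {X.lab s} := hB _ hsB
  have m2 : X.ρ (X.ρ s) ∈ X.star {X.lab s} := hB _ m1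
  have g1 : X.g (X.ρ s) ≠ X.ρ s := fun h => h1 (by rw [h]; exact m1)
  have g2 : X.g (X.ρ (X.ρ s)) ≠ X.ρ (X.ρ s) := fun h => h2 (by rw [h]; exact m2)
  have hlt : (X.A ∩ (X.A \ X.star {X.lab s})).card < X.A.card := by
    refine card_lt_card ⟨inter_subset_left, fun h => ?_⟩
    exact (mem_sdiff.1 (mem_inter.1 (h hs)).2).2 hsB
  have e1 : X.lab (X.g (X.ρ (X.ρ s))) = X.lab (X.ρ (X.ρ (X.ρ s))) := hX.lab_g _ g2
  have e2 : X.lab (X.ρ (X.g (X.ρ s))) = X.lab (X.ρ s) := hX.lab_g' g1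
  have h := hX.zip_fr (B := X.star {X.lab s}) (D := X.A \ X.star {X.lab s})
    (s := X.g (X.ρ (X.ρ s))) (t := X.g (X.ρ s)) ih hB hD disjoint_sdiff hlt
    (mem_sdiff.2 ⟨hX.g_mem g2, h2⟩) (mem_sdiff.2 ⟨hX.g_mem g1, h1⟩) (by rw [X.inv]; exact m2)
    (by rw [X.inv]; exact m1) (by rw [X.inv, X.inv])
    (hX.not_turns_of_lab hD (by rw [e1, e2]; exact hdeg.symm)) hP
  obtain ⟨C, hC, hsub, hcard⟩ := h
  rw [e1, e2] at hsub
  refine ⟨C, hC, hsub (by simp), hsub (by simp), ?_⟩
  have : C.card = (X.del {X.lab s}).tau := hcard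
  omega

end Cx

end Pool.Agent.Lib.MP06c549.Z
end

section
/-!
# MP_06c549_co, Z: collapsing a quadrilateral

`Planar.split`: a cycle of `ρ` is cut into two. `Planar.unsplit`: two cycles of `ρ` in different
components are joined. `Planar.collapse`: a cell is cut along a diagonal into two digons; the sides
glued to the first digon are glued together, the second digon is part of a set `B` of cells that is
deleted.
-/
set_option autoImplicit false
set_option linter.unusedSectionVars false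

namespace Pool.Agent.Lib.MP06c549.Z

open Equiv Equiv.Perm Finset

variable {S : Type} [Fintype S] [DecidableEq S]

lemma comp_swap_le (ρ g : Perm S) (x y : S) :
    comp (ρ * swap x y) g ≤ join (comp ρ g) x y := by
  refine comp_le_of (fun z => ?_) fun z => le_join _ x y (comp_right z)
  have h1 : join (SameCycle.setoid ρ) x y z ((ρ * swap x y) z) :=
    sameCycle_le_join ρ x y ⟨1, by simp⟩
  have h2 : join (SameCycle.setoid ρ) x y ≤ join (comp ρ g) x y :=
    join_le (le_trans (le_sup_left : SameCycle.setoid ρ ≤ comp ρ g) (le_join _ x y))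
      (join_self _ x y)
  exact h2 h1

lemma join_comp_swap (ρ g : Perm S) (x y : S) :
    join (comp (ρ * swap x y) g) x y = join (comp ρ g) x y := by
  refine le_antisymm (join_le (comp_swap_le ρ g x y) (join_self _ x y)) ?_
  refine join_le ?_ (join_self _ x y)
  have h := comp_swap_le (ρ * swap x y) g x y
  rwa [mul_swap_mul] at h

lemma swap_mul_inv {g : Perm S} (hg : Inv g) (ρ : Perm S) (x y : S) :
    ρ * swap x y * g = ρ * g * swap (g x) (g y) := by
  have h : g * swap (g x) (g y) = swap x y * g := by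
    rw [mul_swap_eq_swap_mul, hg x, hg y]
  rw [mul_assoc ρ g, h, mul_assoc]

/-- a cycle of `ρ` is cut -/
theorem Planar.split {ρ g : Perm S} (hg : Inv g) (h : Planar ρ g) {x y : S} (hxy : x ≠ y)
    (hc : SameCycle ρ x y) : Planar (ρ * swap x y) g := by
  have h0 := genus (ρ * swap x y) hg
  have h1 := ncyc_mul_swap_of_same hxy hc
  have h2 : comp ρ g x y := comp_of_rho hc
  have h3 := join_comp_swap ρ g x y
  rw [join_of_rel h2] at h3
  have h4 := ncl_join_le (comp (ρ * swap x y) g) x y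
  rw [h3] at h4
  unfold Planar at h ⊢
  rw [swap_mul_inv hg] at h0 ⊢
  have hgxy : g x ≠ g y := fun h => hxy (g.injective h)
  by_cases h5 : SameCycle (ρ * g) (g x) (g y)
  · have h6 := ncyc_mul_swap_of_same hgxy h5
    omega
  · have h6 := ncyc_mul_swap_of_not h5
    have h7 : comp (ρ * swap x y) g (g x) (g y) := by
      refine comp_of_mul ?_
      rw [swap_mul_inv hg]
      exact sameCycle_of_not h5
    have h8 : comp (ρ * swap x y) g x y :=
      (comp _ g).trans (comp_right x) ((comp _ g).trans h7 ((comp _ g).symm (comp_right y)))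
    rw [join_of_rel h8] at h3
    rw [h3]
    omega

/-- two cycles of `ρ` in different components are joined -/
theorem Planar.unsplit {ρ g : Perm S} (hg : Inv g) (h : Planar ρ g) {x y : S}
    (hc : ¬ comp ρ g x y) : Planar (ρ * swap x y) g := by
  have h1 := ncyc_mul_swap_of_not (σ := ρ) (a := x) (b := y) fun hh => hc (comp_of_rho hh)
  have h2 : ¬ SameCycle (ρ * g) (g x) (g y) := fun hh => hc
    ((comp _ g).trans (comp_right x) ((comp _ g).trans (comp_of_mul hh)
      ((comp _ g).symm (comp_right y))))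
  have h3 := ncyc_mul_swap_of_not h2
  have h4 := ncl_join hc
  have h5 : comp (ρ * swap x y) g x y := by
    have h6 : SameCycle (ρ * swap x y) x y := sameCycle_of_not fun hh => hc (comp_of_rho hh)
    exact comp_of_rho h6
  have h6 := join_comp_swap ρ g x y
  rw [join_of_rel h5] at h6
  unfold Planar at h ⊢
  rw [swap_mul_inv hg, h6]
  omega

section Collapse

variable {ρ g : Perm S} {s : S}

/-- the cell of `s` is cut into the digons `s, ρ s` and `ρ² s, ρ³ s` -/
def dg (ρ : Perm S) (s : S) : Perm S := ρ * swap (ρ s) (ρ (ρ (ρ s)))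

lemma dg_apply (ρ : Perm S) (s x : S) : dg ρ s x = if x = ρ s then ρ (ρ (ρ (ρ s)))
    else if x = ρ (ρ (ρ s)) then ρ (ρ s) else ρ x := by
  unfold dg
  rw [Perm.mul_apply]
  split_ifs with h1 h2
  · rw [h1, swap_apply_left]
  · rw [h2, swap_apply_right]
  · rw [swap_apply_of_ne_of_ne h1 h2]

variable (h4 : ρ (ρ (ρ (ρ s))) = s) (h2 : ρ (ρ s) ≠ s)
include h4 h2

lemma dg_aux : ρ s ≠ s ∧ ρ (ρ (ρ s)) ≠ s ∧ ρ (ρ s) ≠ ρ s ∧ ρ (ρ (ρ s)) ≠ ρ s ∧
    ρ (ρ (ρ s)) ≠ ρ (ρ s) := by
  have a1 : ρ s ≠ s := fun h => h2 (by rw [h, h])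
  refine ⟨a1, fun h => ?_, fun h => a1 (ρ.injective h), fun h => h2 (ρ.injective h),
    fun h => a1 (ρ.injective (ρ.injective h))⟩
  rw [h] at h4
  exact a1 h4

lemma dg_0 : dg ρ s s = ρ s := by
  obtain ⟨a1, a2, -, -, -⟩ := dg_aux h4 h2
  rw [dg_apply, if_neg a1.symm, if_neg a2.symm]

lemma dg_1 : dg ρ s (ρ s) = s := by
  rw [dg_apply, if_pos rfl, h4]

lemma dg_2 : dg ρ s (ρ (ρ s)) = ρ (ρ (ρ s)) := by
  obtain ⟨-, -, a3, -, a5⟩ := dg_aux h4 h2
  rw [dg_apply, if_neg a3, if_neg a5.symm]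

lemma dg_3 : dg ρ s (ρ (ρ (ρ s))) = ρ (ρ s) := by
  obtain ⟨-, -, -, a4, -⟩ := dg_aux h4 h2
  rw [dg_apply, if_neg a4, if_pos rfl]

lemma dg_K1 (x : S) : dg ρ s x ∈ ({s, ρ s} : Finset S) ↔ x ∈ ({s, ρ s} : Finset S) := by
  simp only [mem_insert, mem_singleton]
  constructor
  · rintro (h | h)
    · exact Or.inr ((dg ρ s).injective (h.trans (dg_1 h4 h2).symm))
    · exact Or.inl ((dg ρ s).injective (h.trans (dg_0 h4 h2).symm))
  · rintro (h | h)
    · right; rw [h, dg_0 h4 h2]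
    · left; rw [h, dg_1 h4 h2]

lemma dg_K2 (x : S) : dg ρ s x ∈ ({ρ (ρ s), ρ (ρ (ρ s))} : Finset S) ↔
    x ∈ ({ρ (ρ s), ρ (ρ (ρ s))} : Finset S) := by
  simp only [mem_insert, mem_singleton]
  constructor
  · rintro (h | h)
    · exact Or.inr ((dg ρ s).injective (h.trans (dg_3 h4 h2).symm))
    · exact Or.inl ((dg ρ s).injective (h.trans (dg_2 h4 h2).symm))
  · rintro (h | h)
    · right; rw [h, dg_2 h4 h2]
    · left; rw [h, dg_3 h4 h2]

lemma dg_cyc : ∀ x ∈ ({s, ρ s} : Finset S), ∀ y ∈ ({s, ρ s} : Finset S),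
    SameCycle (dg ρ s) x y := by
  have h1 : SameCycle (dg ρ s) s (ρ s) := ⟨1, by rw [zpow_one, dg_0 h4 h2]⟩
  intro x hx y hy
  simp only [mem_insert, mem_singleton] at hx hy
  rcases hx with rfl | rfl <;> rcases hy with rfl | rfl
  · exact SameCycle.refl _ _
  · exact h1
  · exact h1.symm
  · exact SameCycle.refl _ _

/-- **Collapse of a cell.** The partners of `s` and `ρ s` are glued together, the rest of the cell
together with the set `B` of cells is deleted and the sides `a` and `b` glued to it are glued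
together; further gates may be cut. -/
theorem Planar.collapse (hg : Inv g) (h : Planar ρ g) {K B : Finset S}
    (hK : K = {s, ρ s, ρ (ρ s), ρ (ρ (ρ s))})
    (hB : ∀ x, ρ x ∈ B ↔ x ∈ B) (hBK : Disjoint K B)
    (hgs : g s ∉ K ∪ B) (hgr : g (ρ s) ∉ K ∪ B) {a b : S} (hab : a ≠ b) (ha : a ∉ K ∪ B)
    (hb : b ∉ K ∪ B) (hga : g a = ρ (ρ s) ∨ g a ∈ B) (hgb : g b = ρ (ρ s) ∨ g b ∈ B)
    (hr : Relation.ReflTransGen (stepIn (dg ρ s) g ({ρ (ρ s), ρ (ρ (ρ s))} ∪ B)) (g a) (g b))
    {g' : Perm S} (hg' : Inv g') (hgss : g' (g s) = g s) (hgrr : g' (g (ρ s)) = g (ρ s))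
    (hle : ∀ x, g' x = x ∨ (x ∉ K ∪ B ∧ g x ∉ K ∪ B ∧ g' x = g x)) :
    Planar ρ (g' * swap (g s) (g (ρ s)) * swap a b) := by
  obtain ⟨a1, a2, a3, a4, a5⟩ := dg_aux h4 h2
  set K1 : Finset S := {s, ρ s} with hK1
  set K2 : Finset S := {ρ (ρ s), ρ (ρ (ρ s))} with hK2
  have hK12 : ∀ x, x ∈ K ↔ x ∈ K1 ∨ x ∈ K2 := by
    intro x
    rw [hK, hK1, hK2]
    simp only [mem_insert, mem_singleton]
    tauto
  have m0 : s ∈ K1 := by rw [hK1]; simp
  have m1 : ρ s ∈ K1 := by rw [hK1]; simp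
  have m2 : ρ (ρ s) ∈ K2 := by rw [hK2]; simp
  have m3 : ρ (ρ (ρ s)) ∈ K2 := by rw [hK2]; simp
  have hd12 : ∀ x ∈ K1, x ∉ K2 := by
    intro x hx hx2
    rw [hK1, mem_insert, mem_singleton] at hx
    rw [hK2, mem_insert, mem_singleton] at hx2
    rcases hx with rfl | rfl <;> rcases hx2 with h5 | h5
    · exact h2 h5.symm
    · exact a2 h5.symm
    · exact a3 h5.symm
    · exact a4 h5.symm
  have hd1B : ∀ x ∈ K1, x ∉ B := fun x hx hx2 =>
    disjoint_left.1 hBK ((hK12 x).2 (Or.inl hx)) hx2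
  have hsame : SameCycle ρ (ρ s) (ρ (ρ (ρ s))) := ⟨2, by
    rw [show (2 : ℤ) = ((2 : ℕ) : ℤ) from rfl, zpow_natCast, pow_two, Perm.mul_apply]⟩
  have hP1 : Planar (dg ρ s) g := h.split hg a4.symm hsame
  -- the first digon
  have notK1 : ∀ x, x ∉ K ∪ B → x ∉ K1 := fun x hx hx1 =>
    hx (mem_union_left _ ((hK12 x).2 (Or.inl hx1)))
  have n1 := notK1 _ hgs
  have n2 := notK1 _ hgr
  have hne : g s ≠ g (ρ s) := fun h => a1 (g.injective h).symm
  obtain ⟨hP2, hG2⟩ := hP1.strip hg (K := K1) (dg_K1 h4 h2) (dg_cyc h4 h2) hne n1 n2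
    (by rw [hg s]; exact m0) (by rw [hg (ρ s)]; exact m1)
  have o1 : off hg K1 (g s) = g s := off_of_mem' hg (by rw [hg s]; exact m0)
  have o2 : off hg K1 (g (ρ s)) = g (ρ s) := off_of_mem' hg (by rw [hg (ρ s)]; exact m1)
  have hP3 := hP2.glue hne o1 o2 hG2
  set g2 := off hg K1 * swap (g s) (g (ρ s)) with hg2
  have hi2 : Inv g2 := (off_inv hg K1).glue o1 o2
  have hv2 : ∀ x, g2 x = if x = g s then g (ρ s) else if x = g (ρ s) then g s else
      off hg K1 x := swap_apply_glued o1 o2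
  have hv3 : ∀ x, x ≠ g s → x ≠ g (ρ s) → x ∉ K1 → g x ∉ K1 → g2 x = g x := by
    intro x h5 h6 h7 h8
    rw [hv2, if_neg h5, if_neg h6, off_of_not hg h7 h8]
  -- the rest
  have hB2 : ∀ x, dg ρ s x ∈ K2 ∪ B ↔ x ∈ K2 ∪ B := by
    intro x
    rw [mem_union, mem_union, dg_K2 h4 h2]
    constructor
    · rintro (h5 | h5)
      · exact Or.inl h5
      · by_cases h6 : x ∈ K2
        · exact Or.inl h6
        by_cases h7 : x ∈ K1
        · exact absurd h5 (hd1B _ ((dg_K1 h4 h2 x).2 h7))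
        right
        rw [← hB]
        rw [dg_apply, if_neg, if_neg] at h5
        · exact h5
        · exact fun h8 => h6 (h8 ▸ m3)
        · exact fun h8 => h7 (h8 ▸ m1)
    · rintro (h5 | h5)
      · exact Or.inl h5
      · have h6 : x ∉ K1 := fun h6 => hd1B x h6 h5
        have h7 : x ∉ K2 := fun h7 => disjoint_left.1 hBK ((hK12 x).2 (Or.inr h7)) h5
        right
        rw [dg_apply, if_neg, if_neg]
        · exact (hB x).2 h5
        · exact fun h8 => h7 (h8 ▸ m3)
        · exact fun h8 => h6 (h8 ▸ m1)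
  have notB2 : ∀ x, x ∉ K ∪ B → x ∉ K2 ∪ B := fun x hx hx1 => hx (by
    rcases mem_union.1 hx1 with h5 | h5
    · exact mem_union_left _ ((hK12 x).2 (Or.inr h5))
    · exact mem_union_right _ h5)
  have inB2 : ∀ x, (x = ρ (ρ s) ∨ x ∈ B) → x ∈ K2 ∪ B := by
    rintro x (rfl | h5)
    · exact mem_union_left _ m2
    · exact mem_union_right _ h5
  have hK1B2 : ∀ x ∈ K2 ∪ B, x ∉ K1 := by
    intro x hx h5
    rcases mem_union.1 hx with h6 | h6
    · exact hd12 x h5 h6
    · exact hd1B x h5 h6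
  have key : ∀ x, x ∉ K ∪ B → (g x = ρ (ρ s) ∨ g x ∈ B) → g2 x = g x := by
    intro x hx h5
    have h6 := inB2 _ h5
    refine hv3 x ?_ ?_ (notK1 x hx) (hK1B2 _ h6)
    · rintro rfl
      rw [hg s] at h6
      exact hK1B2 _ h6 m0
    · rintro rfl
      rw [hg (ρ s)] at h6
      exact hK1B2 _ h6 m1
  have ka := key a ha hga
  have kb := key b hb hgb
  have hi' : Inv (g' * swap (g s) (g (ρ s))) := hg'.glue hgss hgrr
  have hv' : ∀ x, (g' * swap (g s) (g (ρ s))) x = if x = g s then g (ρ s) else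
      if x = g (ρ s) then g s else g' x := swap_apply_glued hgss hgrr
  have hP4 : Planar (dg ρ s) (g' * swap (g s) (g (ρ s)) * swap a b) := by
    refine hP3.region hi2 (B := K2 ∪ B) hB2 hab (notB2 a ha) (notB2 b hb)
      (by rw [ka]; exact inB2 _ hga) (by rw [kb]; exact inB2 _ hgb) ?_ hi' (fun x => ?_)
    · rw [ka, kb]
      -- the path stays a path
      have kk : ∀ y, Relation.ReflTransGen (stepIn (dg ρ s) g (K2 ∪ B)) (g a) y → y ∈ K2 ∪ B ∧
          Relation.ReflTransGen (stepIn (dg ρ s) g2 (K2 ∪ B)) (g a) y := by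
        intro y hy
        induction hy with
        | refl => exact ⟨inB2 _ hga, Relation.ReflTransGen.refl⟩
        | @tail y z _ hyz ih =>
          refine ⟨hyz.1, ih.2.tail ⟨hyz.1, ?_⟩⟩
          rcases hyz.2 with h5 | h5
          · exact Or.inl h5
          · right
            have h6 : y ≠ g s := fun h6 => (notB2 _ hgs) (h6 ▸ ih.1)
            have h7 : y ≠ g (ρ s) := fun h7 => (notB2 _ hgr) (h7 ▸ ih.1)
            rw [hv3 y h6 h7 (hK1B2 _ ih.1) (by rw [← h5]; exact hK1B2 _ hyz.1), h5]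
      exact (kk _ hr).2
    · rw [hv']
      have e1 : g2 (g s) = g (ρ s) := by rw [hv2, if_pos rfl]
      have e2 : g2 (g (ρ s)) = g s := by rw [hv2, if_neg hne.symm, if_pos rfl]
      split_ifs with h5 h6
      · right
        rw [h5, e1]
        exact ⟨notB2 _ hgs, notB2 _ hgr, rfl⟩
      · right
        rw [h6, e2]
        exact ⟨notB2 _ hgr, notB2 _ hgs, rfl⟩
      · rcases hle x with h7 | ⟨h7, h8, h9⟩
        · exact Or.inl h7
        · right
          have h10 := hv3 x h5 h6 (notK1 x h7) (notK1 _ h8)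
          rw [h10]
          exact ⟨notB2 x h7, notB2 _ h8, h9⟩
  -- the two digons are joined
  have hab1 : (g' * swap (g s) (g (ρ s))) a = a := by
    have h5 : a ≠ g s := by
      rintro rfl
      rw [hg s] at hga
      exact hK1B2 _ (inB2 _ hga) m0
    have h6 : a ≠ g (ρ s) := by
      rintro rfl
      rw [hg (ρ s)] at hga
      exact hK1B2 _ (inB2 _ hga) m1
    rw [hv', if_neg h5, if_neg h6]
    rcases hle a with h7 | ⟨-, h8, -⟩
    · exact h7
    · exact absurd (inB2 _ hga) (notB2 _ h8)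
  have hbb1 : (g' * swap (g s) (g (ρ s))) b = b := by
    have h5 : b ≠ g s := by
      rintro rfl
      rw [hg s] at hgb
      exact hK1B2 _ (inB2 _ hgb) m0
    have h6 : b ≠ g (ρ s) := by
      rintro rfl
      rw [hg (ρ s)] at hgb
      exact hK1B2 _ (inB2 _ hgb) m1
    rw [hv', if_neg h5, if_neg h6]
    rcases hle b with h7 | ⟨-, h8, -⟩
    · exact h7
    · exact absurd (inB2 _ hgb) (notB2 _ h8)
  have hi'' : Inv (g' * swap (g s) (g (ρ s)) * swap a b) := hi'.glue hab1 hbb1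
  have hv'' : ∀ x, (g' * swap (g s) (g (ρ s)) * swap a b) x = if x = a then b else
      if x = b then a else (g' * swap (g s) (g (ρ s))) x := swap_apply_glued hab1 hbb1
  have hfix : ∀ x ∈ K1, (g' * swap (g s) (g (ρ s)) * swap a b) x = x := by
    intro x hx
    have h5 : ∀ y, y ∉ K ∪ B → x ≠ y := fun y hy h6 => notK1 y hy (h6 ▸ hx)
    rw [hv'', if_neg (h5 a ha), if_neg (h5 b hb), hv', if_neg (h5 _ hgs), if_neg (h5 _ hgr)]
    rcases hle x with h7 | ⟨h7, -, -⟩
    · exact h7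
    · exact absurd hx (notK1 x h7)
  have hnc : ¬ comp (dg ρ s) (g' * swap (g s) (g (ρ s)) * swap a b) (ρ s) (ρ (ρ (ρ s))) := by
    intro h5
    have h6 := (mem_iff_of_comp (K := K1) (dg_K1 h4 h2) (mem_iff_of_fix hfix) h5).1 m1
    exact hd12 _ h6 m3
  have h5 := hP4.unsplit hi'' hnc
  unfold dg at h5
  rwa [mul_swap_mul] at h5

end Collapse

end Pool.Agent.Lib.MP06c549.Z
end
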