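import Pool.Agent.Lib.MP_06c549_co.Z.Squ
import Pool.Agent.Lib.MP_06c549_co.Z.Flip

section
/-!
# MP_06c549_co, Z: two cells at a vertex of degree two with a further common vertex

`s` is glued, `a = ρ³ s` and `b = ρ (g s)` are free, `lab a = lab (ρ b) = v`, the vertex `w = lab s`
has the corners `s` and `b` only.
-/
set_option autoImplicit false
set_option linter.unusedSectionVars false

namespace Pool.Agent.Lib.MP06c549.Z

open Equiv Equiv.Perm Finset

variable {S : Type} [Fintype S] [DecidableEq S]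

namespace Cx

variable {X : Cx S}

lemma IH.mono {m n : ℕ} (h : IH n) (hmn : m ≤ n) : IH m := fun S _ _ X hX hlt =>
  h S X hX (lt_of_lt_of_le hlt hmn)

section one

variable (hX : X.Good)
include hX

/-- the components after the deletion of the last cell at the vertices `lab s` and `lab (ρ s)` -/
lemma Good.c_sub_last2 {s : S} (hs : s ∈ X.A) (h0 : X.g s = s) (h1 : X.g (X.ρ s) = X.ρ s)
    (h2 : X.g (X.ρ (X.ρ (X.ρ s))) = X.ρ (X.ρ (X.ρ s)))
    (h3 : ∀ t ∈ X.A \ X.cell s, X.lab t ≠ X.lab s)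
    (h4 : ∀ t ∈ X.A \ X.cell s, X.lab t ≠ X.lab (X.ρ s)) :
    (X.sub (X.A \ X.cell s)).c + 3 ≤ X.c + fr X s := by
  classical
  have e0 := self_mem_cell (X := X) s
  have e1 := hX.mem_cell_rho.2 e0
  have e2 := hX.mem_cell_rho.2 e1
  have e3 := hX.mem_cell_rho.2 e2
  have r1 := hX.rho1 s
  have r2 := hX.rho2 s
  have r3 := hX.rho3 s
  have r21 : X.ρ (X.ρ s) ≠ X.ρ s := fun h => r1 (X.ρ.injective h)
  have r31 : X.ρ (X.ρ (X.ρ s)) ≠ X.ρ s := fun h => r2 (X.ρ.injective h)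
  have r32 : X.ρ (X.ρ (X.ρ s)) ≠ X.ρ (X.ρ s) := fun h => r21 (X.ρ.injective h)
  have key : ∀ T : Finset S, (∀ t ∈ X.A \ X.cell s, X.lab t = X.lab (X.ρ (X.ρ s)) →
      ∃ w ∈ T, (X.sub (X.A \ X.cell s)).conn t w) →
      (∀ t ∈ X.A \ X.cell s, X.lab t = X.lab (X.ρ (X.ρ (X.ρ s))) →
      ∃ w ∈ T, (X.sub (X.A \ X.cell s)).conn t w) →
      (X.sub (X.A \ X.cell s)).c + 1 ≤ X.c + T.card := by
    intro T k2 k3
    refine c_del_le (K := X.cell s) (fun t => hX.mem_cell_rho) (cell_sub hX.cl_A hs)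
      (self_mem_cell s) (fun k hk => hX.conn_cell hk) (T := T) ?_
    intro i hi
    rcases mem_cell.1 hi with rfl | rfl | rfl | rfl
    · exact fun t ht hti => absurd hti (h3 t ht)
    · exact fun t ht hti => absurd hti (h4 t ht)
    · exact k2
    · exact k3
  by_cases h5 : X.g (X.ρ (X.ρ s)) = X.ρ (X.ρ s)
  · have h6 := key {X.out s (X.ρ (X.ρ s)), X.out s (X.ρ (X.ρ (X.ρ s)))}
      (fun t ht hti => ⟨_, by simp, out_spec ht hti⟩)
      (fun t ht hti => ⟨_, by simp, out_spec ht hti⟩)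
    have h7 : ({X.out s (X.ρ (X.ρ s)), X.out s (X.ρ (X.ρ (X.ρ s)))} : Finset S).card ≤ 2 :=
      card_le_two
    have h8 : 4 ≤ fr X s := by
      have h9 : ({s, X.ρ s, X.ρ (X.ρ s), X.ρ (X.ρ (X.ρ s))} : Finset S) ⊆
          (X.cell s).filter fun t => X.g t = t := by
        intro t ht
        simp only [mem_insert, mem_singleton] at ht
        rcases ht with rfl | rfl | rfl | rfl
        · exact mem_filter.2 ⟨e0, h0⟩
        · exact mem_filter.2 ⟨e1, h1⟩
        · exact mem_filter.2 ⟨e2, h5⟩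
        · exact mem_filter.2 ⟨e3, h2⟩
      have h10 := card_le_card h9
      have h11 := hX.card_cell s
      unfold cell at h11
      rw [h11] at h10
      exact h10
    omega
  · have h6 := key {X.out s (X.ρ (X.ρ s))} (fun t ht hti => ⟨_, by simp, out_spec ht hti⟩) ?_
    · rw [card_singleton] at h6
      have h8 : 3 ≤ fr X s := by
        have h9 : ({s, X.ρ s, X.ρ (X.ρ (X.ρ s))} : Finset S) ⊆
            (X.cell s).filter fun t => X.g t = t := by
          intro t ht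
          simp only [mem_insert, mem_singleton] at ht
          rcases ht with rfl | rfl | rfl
          · exact mem_filter.2 ⟨e0, h0⟩
          · exact mem_filter.2 ⟨e1, h1⟩
          · exact mem_filter.2 ⟨e3, h2⟩
        have h10 := card_le_card h9
        have h11 : ({s, X.ρ s, X.ρ (X.ρ (X.ρ s))} : Finset S).card = 3 := by
          rw [card_insert_of_notMem, card_insert_of_notMem, card_singleton]
          · rw [mem_singleton]; exact r31.symm
          · simp only [mem_insert, mem_singleton, not_or]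
            exact ⟨r1.symm, r3.symm⟩
        rw [h11] at h10
        exact h10
      omega
    · refine hX.run_step e3 ?_ ?_
      · rw [hX.rho4]; exact h5
      · rw [hX.rho4]
        exact fun t ht hti => ⟨_, by simp, out_spec ht hti⟩

/-- the components after the deletion of a cell with two free sides, such that corners in
different groups are connected outside -/
lemma Good.c_sub_link {s : S} (hs : s ∈ X.A)
    (h3 : X.g (X.ρ (X.ρ (X.ρ s))) = X.ρ (X.ρ (X.ρ s)))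
    (h2 : X.g (X.ρ s) = X.ρ s ∨ X.g (X.ρ (X.ρ s)) = X.ρ (X.ρ s))
    (hlink : ∀ t ∈ X.A \ X.cell s, X.lab t = X.lab s → ∃ x ∈ X.A \ X.cell s,
      X.lab x = X.lab (X.ρ (X.ρ (X.ρ s))) ∧ (X.sub (X.A \ X.cell s)).conn t x) :
    (X.sub (X.A \ X.cell s)).c + 2 ≤ X.c + fr X s := by
  classical
  set F := (X.cell s).filter fun t => X.g t = t with hF
  have hFc : F.card = fr X s := rfl
  set T := ((F.image X.ρ).erase s).image (X.out s) with hT
  have hsF : s ∈ F.image X.ρ := mem_image.2 ⟨X.ρ (X.ρ (X.ρ s)), mem_filter.2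
    ⟨hX.mem_cell_rho.2 (hX.mem_cell_rho.2 (hX.mem_cell_rho.2 (self_mem_cell s))), h3⟩, hX.rho4 s⟩
  have h0 : T.card + 1 ≤ fr X s := by
    have e1 : T.card ≤ ((F.image X.ρ).erase s).card := card_image_le
    rw [card_erase_of_mem hsF, card_image_of_injective _ X.ρ.injective, hFc] at e1
    have e2 : 0 < (F.image X.ρ).card := card_pos.2 ⟨s, hsF⟩
    rw [card_image_of_injective _ X.ρ.injective, hFc] at e2
    omega
  have h4 : (X.sub (X.A \ X.cell s)).c + 1 ≤ X.c + T.card := by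
    refine c_del_le (K := X.cell s) (fun t => hX.mem_cell_rho) (cell_sub hX.cl_A hs)
      (self_mem_cell s) (fun k hk => hX.conn_cell hk) (T := T) ?_
    have q1 : ∀ i ∈ X.cell s, i ≠ s → X.g (X.ρ (X.ρ (X.ρ i))) = X.ρ (X.ρ (X.ρ i)) →
        ∀ t ∈ X.A \ X.cell s, X.lab t = X.lab i →
          ∃ w ∈ T, (X.sub (X.A \ X.cell s)).conn t w := by
      intro i hi his hg t ht hti
      refine ⟨X.out s i, mem_image_of_mem _ (mem_erase.2 ⟨his, mem_image.2
        ⟨X.ρ (X.ρ (X.ρ i)), mem_filter.2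
          ⟨hX.mem_cell_rho.2 (hX.mem_cell_rho.2 (hX.mem_cell_rho.2 hi)), hg⟩, hX.rho4 i⟩⟩),
        out_spec ht hti⟩
    have q2 : ∀ i ∈ X.cell s, X.ρ i ≠ s → (∀ t ∈ X.A \ X.cell s, X.lab t = X.lab i →
          ∃ w ∈ T, (X.sub (X.A \ X.cell s)).conn t w) →
        ∀ t ∈ X.A \ X.cell s, X.lab t = X.lab (X.ρ i) →
          ∃ w ∈ T, (X.sub (X.A \ X.cell s)).conn t w := by
      intro i hi his hp
      have hi' := hX.mem_cell_rho.2 hi
      by_cases hg : X.g i = i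
      · refine q1 _ hi' his ?_
        rw [hX.rho4]; exact hg
      · refine hX.run_step hi' ?_ ?_
        · rw [hX.rho4]; exact hg
        · rw [hX.rho4]; exact hp
    have e0 := self_mem_cell (X := X) s
    have e1 := hX.mem_cell_rho.2 e0
    have e2 := hX.mem_cell_rho.2 e1
    have e3 := hX.mem_cell_rho.2 e2
    have p3 : ∀ t ∈ X.A \ X.cell s, X.lab t = X.lab (X.ρ (X.ρ (X.ρ s))) →
          ∃ w ∈ T, (X.sub (X.A \ X.cell s)).conn t w := by
      rcases h2 with h2 | h2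
      · refine q2 _ e2 (hX.rho3 s) (q1 _ e2 (hX.rho2 s) ?_)
        rw [hX.rho4]; exact h2
      · refine q1 _ e3 (hX.rho3 s) ?_
        rw [hX.rho4]; exact h2
    have p0 : ∀ t ∈ X.A \ X.cell s, X.lab t = X.lab s →
          ∃ w ∈ T, (X.sub (X.A \ X.cell s)).conn t w := by
      intro t ht hti
      obtain ⟨x, hx, hxl, hxc⟩ := hlink t ht hti
      obtain ⟨w, hw, hxw⟩ := p3 x hx hxl
      exact ⟨w, hw, (X.sub (X.A \ X.cell s)).conn.trans hxc hxw⟩
    have p1 := q2 _ e0 (hX.rho1 s) p0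
    have p2 := q2 _ e1 (hX.rho2 s) p1
    intro i hi
    rcases mem_cell.1 hi with rfl | rfl | rfl | rfl
    · exact p0
    · exact p1
    · exact p2
    · exact p3
  omega

/-- a label of a cell -/
lemma Good.hit_cell {C : Finset ℕ} {s i x : S} (hi : i ∈ X.cell s) (hC : X.lab i ∈ C)
    (hx : x ∈ X.cell s) : X.lab x ∈ C ∨ X.lab (X.ρ x) ∈ C ∨ X.lab (X.ρ (X.ρ x)) ∈ C ∨
      X.lab (X.ρ (X.ρ (X.ρ x))) ∈ C := by
  rw [← hX.cell_eq hx] at hi
  rcases mem_cell.1 hi with rfl | rfl | rfl | rfl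
  · exact Or.inl hC
  · exact Or.inr (Or.inl hC)
  · exact Or.inr (Or.inr (Or.inl hC))
  · exact Or.inr (Or.inr (Or.inr hC))

end one

/-- the local picture: `s` is glued, `ρ³ s` and `ρ (g s)` are free, start and end of these sides
have the same label, the vertex `lab s` has no further corner -/
structure Dup (X : Cx S) (s : S) : Prop where
  hg : X.g s ≠ s
  ha : X.g (X.ρ (X.ρ (X.ρ s))) = X.ρ (X.ρ (X.ρ s))
  hb : X.g (X.ρ (X.g s)) = X.ρ (X.g s)
  hl : X.lab (X.ρ (X.ρ (X.ρ s))) = X.lab (X.ρ (X.ρ (X.g s)))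
  hw : ∀ x ∈ X.A, X.lab x = X.lab s → x = s ∨ x = X.ρ (X.g s)

section Core

variable (hX : X.Good) {n : ℕ} (ih : IH n) (hn : X.A.card ≤ n) {s : S} (D : X.Dup s)
  (nv : ¬ X.Fr {X.lab (X.ρ (X.ρ (X.ρ s)))}) (nw : ¬ X.Fr {X.lab s})
include hX ih hn D nv nw

/-- the slack after the deletion of the first cell is at least two -/
theorem Dup.one (hP : (X.sub (X.A \ X.cell s)).P ≤ 4 * (X.tau : ℤ) + 1) : False := by
  classical
  obtain ⟨hg, ha, hb, hl, hw⟩ := D
  have hsA : s ∈ X.A := hX.A_g s hg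
  have hclK := hX.cl_cell s
  have hgK : X.g s ∉ X.cell s := hX.g_notMem_cell (self_mem_cell s) hg
  set Y := X.sub (X.A \ X.cell s) with hYdef
  have hY : Y.Good := hX.sub (hX.cl_sdiff hX.cl_A hclK)
  have hYA : Y.A = X.A \ X.cell s := inter_eq_right.2 sdiff_subset
  have hYr : Y.ρ = X.ρ := rfl
  have hYl : Y.lab = X.lab := rfl
  have hYc : ∀ x, Y.cell x = X.cell x := fun _ => rfl
  have hgA : X.g s ∈ Y.A := by rw [hYA]; exact mem_sdiff.2 ⟨hX.g_mem hg, hgK⟩
  have hYg : Y.g (X.g s) = X.g s := by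
    rw [hYdef, sub_g, if_neg]
    rw [X.inv]
    exact fun h => (mem_sdiff.1 h.2).2 (self_mem_cell s)
  set b := X.ρ (X.g s) with hbdef
  have hbA : b ∈ Y.A := hY.A_rho _ hgA
  have hYb : Y.g b = b := by
    rw [hYdef, sub_g]
    split_ifs
    · exact hb
    · rfl
  have hb3 : Y.ρ (Y.ρ (Y.ρ b)) = X.g s := hX.rho4 (X.g s)
  have hlb : X.lab b = X.lab s := hX.lab_g' hg
  have hbK : b ∉ X.cell s := (mem_sdiff.1 (by rw [← hYA]; exact hbA)).2
  have h3 : ∀ t ∈ Y.A \ Y.cell b, Y.lab t ≠ Y.lab b := by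
    intro t ht hlt
    obtain ⟨h4, h5⟩ := mem_sdiff.1 ht
    rw [hYA, mem_sdiff] at h4
    rcases hw t h4.1 (hlt.trans hlb) with rfl | rfl
    · exact h4.2 (self_mem_cell t)
    · exact h5 (self_mem_cell _)
  have c1 := hY.c_sub_last hbA hYb (by rw [hb3]; exact hYg) h3
  have p1 := hY.P_sub_cell hbA
  set Z := Y.sub (Y.A \ Y.cell b) with hZdef
  have hZ : Z.Good := hY.sub (hY.cl_sdiff hY.cl_A (hY.cl_cell b))
  have hZA : Z.A = Y.A \ Y.cell b := inter_eq_right.2 sdiff_subset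
  have hZlt : Z.A.card < n := by
    refine lt_of_lt_of_le (card_lt_card ⟨?_, fun h => ?_⟩) hn
    · rw [hZA, hYA]
      exact sdiff_subset.trans sdiff_subset
    · have h5 := h hsA
      rw [hZA, hYA, mem_sdiff, mem_sdiff] at h5
      exact h5.1.2 (self_mem_cell s)
  have t1 : X.tau ≤ Z.tau := by
    have h5 := not_fr_iff.1 nw
    rw [card_singleton] at h5
    have h6 : (X.del {X.lab s}).tau ≤ Z.tau := by
      obtain ⟨C, hC, hc⟩ := Z.exists_cov
      rw [← hc]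
      refine tau_le fun x hx => ?_
      rw [del_A, mem_sdiff] at hx
      refine hC x ?_
      rw [hZA, hYA, mem_sdiff, mem_sdiff]
      refine ⟨⟨hx.1, fun h7 => hx.2 ?_⟩, fun h7 => hx.2 ?_⟩
      · refine cell_sub (hX.cl_star {X.lab s}) (mem_star.2 ⟨hsA, Or.inl ?_⟩) h7
        exact mem_singleton_self _
      · refine cell_sub (hX.cl_star {X.lab s}) (mem_star.2 ⟨?_, Or.inl ?_⟩) h7
        · exact (mem_sdiff.1 (by rw [← hYA]; exact hbA)).1
        · rw [hlb]; exact mem_singleton_self _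
    omega
  have t2 := ih S Z hZ hZlt
  have t3 : (X.tau : ℤ) ≤ Z.tau := by exact_mod_cast t1
  have m3 : X.ρ (X.ρ (X.ρ s)) ∈ X.cell s := mem_cell.2 (Or.inr (Or.inr (Or.inr rfl)))
  have mb : X.ρ b ∈ X.cell b := mem_cell.2 (Or.inr (Or.inl rfl))
  by_cases hv : (Z.cor (X.lab (X.ρ (X.ρ (X.ρ s))))).Nonempty
  · have h5 := hZ.tig (IH.mono ih hZlt.le) (by omega) hv
    obtain ⟨C, hC, hvC, hc⟩ := h5
    have hvC' : X.lab (X.ρ (X.ρ (X.ρ s))) ∈ C := hvC (mem_singleton_self _)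
    have hXC : X.Cov C := by
      intro x hx
      by_cases h6 : x ∈ X.cell s
      · exact hX.hit_cell m3 hvC' h6
      by_cases h7 : x ∈ X.cell b
      · exact hX.hit_cell mb (by rw [hl] at hvC'; exact hvC') h7
      · exact hC x (by
          rw [hZA, hYA, mem_sdiff, mem_sdiff]
          exact ⟨⟨hx, h6⟩, h7⟩)
    have h6 := tau_le hXC
    exact nv ⟨C, hXC, hvC, by omega⟩
  · have h6 : ∀ t ∈ Y.A \ Y.cell b, Y.lab t ≠ Y.lab (Y.ρ b) := by
      intro t ht hlt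
      refine hv ⟨t, mem_filter.2 ⟨by rw [hZA]; exact ht, ?_⟩⟩
      rw [hl]
      exact hlt
    have h7 : Y.g (Y.ρ b) = Y.ρ b := by
      by_contra h8
      have h9 : Y.g (Y.ρ b) ∉ Y.cell b := hY.g_notMem_cell mb h8
      refine h6 (Y.ρ (Y.g (Y.ρ b))) (mem_sdiff.2 ⟨hY.A_rho _ (hY.g_mem h8), fun h10 => h9 ?_⟩)
        (hY.lab_g' h8)
      exact hY.mem_cell_rho.1 h10
    have c2 := hY.c_sub_last2 hbA hYb h7 (by rw [hb3]; exact hYg) h3 h6
    rw [← hZdef] at c2
    omega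

/-- with slack two the first cell has three gates -/
theorem Dup.three (hP : X.P ≤ 4 * (X.tau : ℤ) + 2) :
    X.g (X.ρ s) ≠ X.ρ s ∧ X.g (X.ρ (X.ρ s)) ≠ X.ρ (X.ρ s) := by
  by_contra hcon
  have h2 : X.g (X.ρ s) = X.ρ s ∨ X.g (X.ρ (X.ρ s)) = X.ρ (X.ρ s) := by tauto
  obtain ⟨hg, ha, hb, hl, hw⟩ := D
  have hsA : s ∈ X.A := hX.A_g s hg
  have hgK : X.g s ∉ X.cell s := hX.g_notMem_cell (self_mem_cell s) hg
  have hgA : X.g s ∈ X.A \ X.cell s := mem_sdiff.2 ⟨hX.g_mem hg, hgK⟩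
  have hcl : X.Cl (X.A \ X.cell s) := hX.cl_sdiff hX.cl_A (hX.cl_cell s)
  have c1 := hX.c_sub_link hsA ha h2 (by
    intro t ht hlt
    obtain ⟨h4, h5⟩ := mem_sdiff.1 ht
    rcases hw t h4 hlt with rfl | rfl
    · exact absurd (self_mem_cell t) h5
    · exact ⟨_, hcl _ ht, hl.symm, conn_rho (X := X.sub (X.A \ X.cell s)) _⟩)
  have p1 := hX.P_sub_cell hsA
  exact Dup.one hX ih hn ⟨hg, ha, hb, hl, hw⟩ nv nw (by omega)

end Core

end Cx

end Pool.Agent.Lib.MP06c549.Z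
end

section
/-!
# MP_06c549_co, Z: the double gluing

The cell `z` is glued to `ρ³ s` and to `ρ (g s)`, it is deleted together with the cell of `s`; the
partners of `s` and `ρ s` are glued together, then the partner of `ρ² s` and `ρ (g s)`.
-/
set_option autoImplicit false
set_option linter.unusedSectionVars false

namespace Pool.Agent.Lib.MP06c549.Z

open Equiv Equiv.Perm Finset

variable {S : Type} [Fintype S] [DecidableEq S]

namespace Cx

variable {X : Cx S}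

theorem Dup.four (hX : X.Good) {n : ℕ} (ih : IH n) (hn : X.A.card ≤ n) {s z : S}
    (D : (X.sub (X.A \ X.cell z)).Dup s)
    (hga : X.g (X.ρ (X.ρ (X.ρ s))) = z) (hza : z ≠ X.ρ (X.ρ (X.ρ s)))
    (hgb : X.g (X.ρ (X.g s)) = X.ρ z)
    (nv : ¬ (X.sub (X.A \ X.cell z)).Fr {X.lab (X.ρ (X.ρ (X.ρ s)))})
    (nw : ¬ (X.sub (X.A \ X.cell z)).Fr {X.lab s})
    (hP : (X.sub (X.A \ X.cell z)).P ≤ 4 * ((X.sub (X.A \ X.cell z)).tau : ℤ) + 2) : False := by
  classical
  set J := X.sub (X.A \ X.cell z) with hJdef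
  have hJ : J.Good := hX.sub (hX.cl_sdiff hX.cl_A (hX.cl_cell z))
  have hJA : J.A = X.A \ X.cell z := inter_eq_right.2 sdiff_subset
  have hJn : J.A.card ≤ n := (card_le_card (by rw [hJA]; exact sdiff_subset)).trans hn
  obtain ⟨h5, h6⟩ := Dup.three hJ ih hJn D nv nw hP
  obtain ⟨D1, D2, D3, D4, D5⟩ := D
  obtain ⟨k1, k2, k3, k4⟩ := sub_g_ne D1
  obtain ⟨l1, l2, l3, l4⟩ := sub_g_ne h5
  obtain ⟨m1, m2, m3, m4⟩ := sub_g_ne h6
  have hJg : J.g s = X.g s := k3
  rw [hJg] at D3 D4 D5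
  have hsA : s ∈ X.A := (mem_sdiff.1 k1).1
  have r4 := hX.rho4
  -- names
  set K := X.cell s with hKdef
  set B := X.cell z with hBdef
  set s' := X.g s with hs'
  set b := X.ρ s' with hb
  set p1 := X.g (X.ρ s) with hp1
  set p2 := X.g (X.ρ (X.ρ s)) with hp2
  have hclK : X.Cl K := hX.cl_cell s
  have hclB : X.Cl B := hX.cl_cell z
  have c0 : s ∈ K := self_mem_cell s
  have c1 : X.ρ s ∈ K := hclK _ c0
  have c2 : X.ρ (X.ρ s) ∈ K := hclK _ c1
  have c3 : X.ρ (X.ρ (X.ρ s)) ∈ K := hclK _ c2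
  have b0 : z ∈ B := self_mem_cell z
  have b1 : X.ρ z ∈ B := hclB _ b0
  have zK : z ∉ K := by
    rw [← hga]
    exact hX.g_notMem_cell c3 (by rw [hga]; exact hza)
  have hKB : ∀ x ∈ K, x ∉ B := by
    intro x hx hx2
    have e1 := hX.cell_eq hx
    have e2 := hX.cell_eq hx2
    rw [e1] at e2
    exact zK (by rw [hKdef, e2]; exact self_mem_cell z)
  have s'K : s' ∉ K := hX.g_notMem_cell c0 k4
  have s'B : s' ∉ B := (mem_sdiff.1 k2).2
  have p1K : p1 ∉ K := hX.g_notMem_cell c1 l4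
  have p1B : p1 ∉ B := (mem_sdiff.1 l2).2
  have p2K : p2 ∉ K := hX.g_notMem_cell c2 m4
  have p2B : p2 ∉ B := (mem_sdiff.1 m2).2
  have bK : b ∉ K := fun h => s'K ((hX.cl_iff hclK).1 h)
  have bB : b ∉ B := fun h => s'B ((hX.cl_iff hclB).1 h)
  have gs' : X.g s' = s := X.inv s
  have gp1 : X.g p1 = X.ρ s := X.inv _
  have gp2 : X.g p2 = X.ρ (X.ρ s) := X.inv _
  have gb : X.g b = X.ρ z := hgb
  have gz : X.g z = X.ρ (X.ρ (X.ρ s)) := by rw [← hga, X.inv]
  have gz1 : X.g (X.ρ z) = b := by rw [← gb, X.inv]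
  have q1 : s' ≠ p1 := fun h => hX.rho1 s (X.g.injective h).symm
  have q2 : s' ≠ p2 := fun h => hX.rho2 s (X.g.injective h).symm
  have q3 : p1 ≠ p2 := fun h => hX.rho1 (X.ρ s) (X.g.injective h).symm
  have q4 : s' ≠ b := fun h => hKB s c0 (by
    rw [← gs', h, gb]
    exact b1)
  have q5 : p1 ≠ b := fun h => hKB _ c1 (by rw [← gp1, h, gb]; exact b1)
  have q6 : p2 ≠ b := fun h => hKB _ c2 (by rw [← gp2, h, gb]; exact b1)
  have s'A : s' ∈ X.A := (mem_sdiff.1 k2).1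
  have p1A : p1 ∈ X.A := (mem_sdiff.1 l2).1
  have p2A : p2 ∈ X.A := (mem_sdiff.1 m2).1
  have bA : b ∈ X.A := hX.A_rho _ s'A
  -- the complex without the two cells
  set E := X.A \ (K ∪ B) with hE
  have memE : ∀ x, x ∈ E ↔ x ∈ X.A ∧ x ∉ K ∧ x ∉ B := by
    intro x
    rw [hE, mem_sdiff, mem_union, not_or]
  have hclE : X.Cl E := hX.cl_sdiff hX.cl_A (hX.cl_union hclK hclB)
  set R := X.sub E with hRdef
  have hR : R.Good := hX.sub hclE
  have hRA : R.A = E := inter_eq_right.2 sdiff_subset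
  have hRJ : R = J.sub (J.A \ J.cell s) := by
    rw [hJdef, sub_sub]
    have : E = (X.A \ X.cell z) ∩ (J.A \ J.cell s) := by
      ext x
      have e1 : J.cell s = K := rfl
      rw [memE, mem_inter, hJA, e1, mem_sdiff, mem_sdiff, mem_sdiff]
      tauto
    rw [hRdef, this]
  have hRP : R.P ≤ J.P := by
    have e1 : J.ρ (J.ρ (J.ρ s)) ∈ J.cell s := c3
    have e2 : J.ρ (J.ρ (J.ρ s)) ∈ J.A := by
      rw [hJA]
      exact mem_sdiff.2 ⟨cell_sub hX.cl_A hsA c3, hKB _ c3⟩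
    have e3 := hJ.P_sub_cell_le e2 D2
    rw [hJ.cell_eq e1] at e3
    rw [hRJ]
    exact e3
  have Rfix : ∀ x, X.g x ∈ K ∪ B → R.g x = x := by
    intro x hx
    rw [hRdef, sub_g, if_neg]
    exact fun h => (mem_sdiff.1 h.2).2 hx
  have f1 : R.g s' = s' := Rfix _ (by rw [gs']; exact mem_union_left _ c0)
  have f2 : R.g p1 = p1 := Rfix _ (by rw [gp1]; exact mem_union_left _ c1)
  have f3 : R.g p2 = p2 := Rfix _ (by rw [gp2]; exact mem_union_left _ c2)
  have f4 : R.g b = b := Rfix _ (by rw [gb]; exact mem_union_right _ b1)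
  have e1 : s' ∈ E := (memE _).2 ⟨s'A, s'K, s'B⟩
  have e2 : p1 ∈ E := (memE _).2 ⟨p1A, p1K, p1B⟩
  have e3 : p2 ∈ E := (memE _).2 ⟨p2A, p2K, p2B⟩
  have e4 : b ∈ E := (memE _).2 ⟨bA, bK, bB⟩
  -- labels
  have L0 : X.lab s' = X.lab (X.ρ s) := hX.lab_g _ k4
  have L1 : X.lab b = X.lab s := hX.lab_g' k4
  have L2 : X.lab p1 = X.lab (X.ρ (X.ρ s)) := hX.lab_g _ l4
  have L3 : X.lab (X.ρ p1) = X.lab (X.ρ s) := hX.lab_g' l4
  have L4 : X.lab p2 = X.lab (X.ρ (X.ρ (X.ρ s))) := hX.lab_g _ m4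
  have L5 : X.lab (X.ρ p2) = X.lab (X.ρ (X.ρ s)) := hX.lab_g' m4
  have L6 : X.lab (X.ρ (X.ρ (X.ρ s))) = X.lab (X.ρ b) := D4
  have par0 := hX.par s hsA
  have par1 := hX.par _ (hX.A_rho _ hsA)
  have par2 := hX.par _ (hX.A_rho _ (hX.A_rho _ hsA))
  have par3 := hX.par _ (hX.A_rho _ (hX.A_rho _ (hX.A_rho _ hsA)))
  rw [r4] at par3
  set y := X.lab (X.ρ (X.ρ s)) with hy
  set w := X.lab s with hw
  set v := X.lab (X.ρ (X.ρ (X.ρ s))) with hv
  have hyw : y % 2 = w % 2 := by omega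
  have hvw : v ≠ w := by
    intro h
    omega
  -- the new complex
  have g1 : (R.merge y w).g s' = s' := f1
  have g2 : (R.merge y w).g p1 = p1 := f2
  set Y1 := (R.merge y w).glue s' p1 g1 g2 with hY1
  have hv1 : ∀ x, Y1.g x = if x = s' then p1 else if x = p1 then s' else R.g x :=
    swap_apply_glued (g := R.g) f1 f2
  have g3 : Y1.g p2 = p2 := by rw [hv1, if_neg q2.symm, if_neg q3.symm, f3]
  have g4 : Y1.g b = b := by rw [hv1, if_neg q4.symm, if_neg q5.symm, f4]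
  set Y := Y1.glue p2 b g3 g4 with hYdef
  have hvY : ∀ x, Y.g x = if x = p2 then b else if x = b then p2 else if x = s' then p1 else
      if x = p1 then s' else R.g x := by
    intro x
    have h7 : Y.g x = if x = p2 then b else if x = b then p2 else Y1.g x :=
      swap_apply_glued (g := Y1.g) g3 g4 x
    rw [h7, hv1]
  have hYr : Y.ρ = X.ρ := rfl
  have hYA : Y.A = E := hRA
  have hYl : ∀ x, Y.lab x = idf y w (X.lab x) := fun _ => rfl
  have v1 : Y.g p2 = b := by rw [hvY, if_pos rfl]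
  have v2 : Y.g b = p2 := by rw [hvY, if_neg q6.symm, if_pos rfl]
  have v3 : Y.g s' = p1 := by rw [hvY, if_neg q2, if_neg q4, if_pos rfl]
  have v4 : Y.g p1 = s' := by rw [hvY, if_neg q3, if_neg q5, if_neg q1.symm, if_pos rfl]
  have v5 : ∀ x, x ≠ p2 → x ≠ b → x ≠ s' → x ≠ p1 → Y.g x = R.g x := by
    intro x h7 h8 h9 h10
    rw [hvY, if_neg h7, if_neg h8, if_neg h9, if_neg h10]
  have hplan : Planar X.ρ Y.g := by
    have hr : Relation.ReflTransGen (stepIn (dg X.ρ s) X.g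
        ({X.ρ (X.ρ s), X.ρ (X.ρ (X.ρ s))} ∪ B)) (X.g p2) (X.g b) := by
      rw [gp2, gb]
      have s1 : stepIn (dg X.ρ s) X.g ({X.ρ (X.ρ s), X.ρ (X.ρ (X.ρ s))} ∪ B)
          (X.ρ (X.ρ s)) (X.ρ (X.ρ (X.ρ s))) :=
        ⟨mem_union_left _ (by simp), Or.inl (dg_2 (r4 s) (hX.rho2 s)).symm⟩
      have s2 : stepIn (dg X.ρ s) X.g ({X.ρ (X.ρ s), X.ρ (X.ρ (X.ρ s))} ∪ B)
          (X.ρ (X.ρ (X.ρ s))) z := ⟨mem_union_right _ b0, Or.inr hga.symm⟩
      have s3 : stepIn (dg X.ρ s) X.g ({X.ρ (X.ρ s), X.ρ (X.ρ (X.ρ s))} ∪ B)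
          z (X.ρ z) := by
        refine ⟨mem_union_right _ b1, Or.inl ?_⟩
        rw [dg_apply, if_neg, if_neg]
        · exact fun h => zK (h ▸ c3)
        · exact fun h => zK (h ▸ c1)
      exact ((Relation.ReflTransGen.single s1).tail s2).tail s3
    refine Planar.collapse (r4 s) (hX.rho2 s) X.inv hX.planar (K := K) (B := B) rfl
      (fun x => hX.cl_iff hclB) (disjoint_left.2 hKB) ?_ ?_ q6 ?_ ?_ (Or.inl gp2)
      (Or.inr (by rw [gb]; exact b1)) hr (g' := R.g) R.inv f1 f2 (fun x => ?_)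
    · rw [mem_union, not_or]; exact ⟨s'K, s'B⟩
    · rw [mem_union, not_or]; exact ⟨p1K, p1B⟩
    · rw [mem_union, not_or]; exact ⟨p2K, p2B⟩
    · rw [mem_union, not_or]; exact ⟨bK, bB⟩
    · by_cases h7 : R.g x = x
      · exact Or.inl h7
      · obtain ⟨h8, h9, h10, -⟩ := sub_g_ne h7
        exact Or.inr ⟨(mem_sdiff.1 h8).2, (mem_sdiff.1 h9).2, h10⟩
  -- turning
  have step : ∀ x0 c, c ≠ b → Y.g c ≠ c → Relation.ReflTransGen X.turn x0 c →
      ((X.ρ * Y.g) c = b ∧ Relation.ReflTransGen X.turn x0 p1) ∨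
      ((X.ρ * Y.g) c ≠ b ∧ Relation.TransGen X.turn x0 ((X.ρ * Y.g) c)) := by
    intro x0 c hcb hgc hx
    rw [Perm.mul_apply]
    by_cases h7 : c = p2
    · right
      rw [h7] at hx ⊢
      rw [v1]
      refine ⟨hX.rho1 b, ?_⟩
      have t1 : X.turn p2 (X.ρ (X.ρ (X.ρ s))) :=
        ⟨by rw [gp2]; exact fun h => p2K (h ▸ c2), by rw [gp2]⟩
      have t2 : X.turn (X.ρ (X.ρ (X.ρ s))) (X.ρ z) := ⟨by rw [hga]; exact hza, by rw [hga]⟩
      have t3 : X.turn (X.ρ z) (X.ρ b) := ⟨by rw [gz1]; exact fun h => bB (h ▸ b1), by rw [gz1]⟩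
      exact ((Relation.TransGen.tail' hx t1).tail t2).tail t3
    by_cases h8 : c = s'
    · right
      rw [h8] at hx ⊢
      rw [v3]
      refine ⟨fun h => q1 (X.ρ.injective h).symm, ?_⟩
      have t1 : X.turn s' (X.ρ s) := ⟨by rw [gs']; exact fun h => s'K (h ▸ c0), by rw [gs']⟩
      have t2 : X.turn (X.ρ s) (X.ρ p1) := ⟨fun h => p1K (by rw [hp1, h]; exact c1), rfl⟩
      exact (Relation.TransGen.tail' hx t1).tail t2
    by_cases h9 : c = p1
    · left
      rw [h9] at hx ⊢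
      rw [v4]
      exact ⟨rfl, hx⟩
    · right
      rw [v5 c h7 hcb h8 h9] at hgc ⊢
      obtain ⟨h10, h11, h12, h13⟩ := sub_g_ne hgc
      rw [← hRdef] at h12
      rw [h12]
      refine ⟨fun h => ?_, Relation.TransGen.tail' hx ⟨h13, rfl⟩⟩
      have h14 : X.g c = s' := X.ρ.injective h
      have h15 : c = s := X.g.injective h14
      exact ((memE c).1 h10).2.1 (h15 ▸ c0)
  have stepb : ∀ x0, Relation.ReflTransGen X.turn x0 p1 →
      ((X.ρ * Y.g) b ≠ b ∧ Relation.TransGen X.turn x0 ((X.ρ * Y.g) b)) := by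
    intro x0 hx
    rw [Perm.mul_apply, v2]
    refine ⟨fun h => q2 (X.ρ.injective h).symm, ?_⟩
    have t1 : X.turn p1 (X.ρ (X.ρ s)) :=
      ⟨by rw [gp1]; exact fun h => p1K (h ▸ c1), by rw [gp1]⟩
    have t2 : X.turn (X.ρ (X.ρ s)) (X.ρ p2) := ⟨fun h => p2K (by rw [hp2, h]; exact c2), rfl⟩
    exact (Relation.TransGen.tail' hx t1).tail t2
  have hlin : ∀ x, ∃ t, SameCycle (X.ρ * Y.g) x t ∧ Y.g t = t := by
    intro x
    by_contra hcon
    push Not at hcon
    obtain ⟨x0, hx0, hx0b⟩ : ∃ x0, SameCycle (X.ρ * Y.g) x x0 ∧ x0 ≠ b := by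
      by_cases h7 : x = b
      · refine ⟨(X.ρ * Y.g) b, ⟨1, by rw [zpow_one, h7]⟩, ?_⟩
        rw [Perm.mul_apply, v2]
        exact fun h => q2 (X.ρ.injective h).symm
      · exact ⟨x, SameCycle.refl _ _, h7⟩
    have hall : ∀ m : ℕ, Y.g (((X.ρ * Y.g) ^ m) x0) ≠ ((X.ρ * Y.g) ^ m) x0 := fun m =>
      hcon _ (hx0.trans ⟨(m : ℤ), by rw [zpow_natCast]⟩)
    have key : ∀ m : ℕ, (((X.ρ * Y.g) ^ (m + 1)) x0 = b ∧ Relation.ReflTransGen X.turn x0 p1) ∨
        (((X.ρ * Y.g) ^ (m + 1)) x0 ≠ b ∧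
          Relation.TransGen X.turn x0 (((X.ρ * Y.g) ^ (m + 1)) x0)) := by
      intro m
      induction m with
      | zero =>
        have h7 := step x0 x0 hx0b (by have := hall 0; rwa [pow_zero, Perm.one_apply] at this)
          Relation.ReflTransGen.refl
        rw [zero_add, pow_one]
        exact h7
      | succ m ihm =>
        rw [pow_succ', Perm.mul_apply]
        rcases ihm with ⟨h7, h8⟩ | ⟨h7, h8⟩
        · rw [h7]
          exact Or.inr (stepb x0 h8)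
        · exact step x0 _ h7 (hall _) h8.to_reflTransGen
    obtain ⟨m, hm⟩ : ∃ m, orderOf (X.ρ * Y.g) = m + 1 :=
      ⟨orderOf (X.ρ * Y.g) - 1, by have := orderOf_pos (X.ρ * Y.g); omega⟩
    have h7 := key m
    rw [← hm, pow_orderOf_eq_one, Perm.one_apply] at h7
    rcases h7 with ⟨h7, -⟩ | ⟨-, h7⟩
    · exact hx0b h7
    · exact hX.no_closed h7
  have idy : idf y w y = y := by
    unfold idf
    split_ifs <;> rfl
  have idw : idf y w w = y := by
    unfold idf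
    rw [if_pos rfl]
  have hYgood : Y.Good := by
    refine ⟨hX.rho4, hX.rho2, hR.A_rho, fun x hx => ?_, fun x hx => ?_,
      (hR.merge hyw).par, hlin, hplan⟩
    · rw [hYA]
      by_cases h7 : x = p2
      · rw [h7]; exact e3
      by_cases h8 : x = b
      · rw [h8]; exact e4
      by_cases h9 : x = s'
      · rw [h9]; exact e1
      by_cases h10 : x = p1
      · rw [h10]; exact e2
      rw [v5 x h7 h8 h9 h10] at hx
      rw [← hRA]
      exact hR.A_g x hx
    · rw [hYr, hYl, hYl]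
      by_cases h7 : x = p2
      · rw [h7, v1, L1, L5, idw, idy]
      by_cases h8 : x = b
      · rw [h8, v2, L4, L6]
      by_cases h9 : x = s'
      · rw [h9, v3, L2, ← hb, L1, idw, idy]
      by_cases h10 : x = p1
      · rw [h10, v4, L3, L0]
      rw [v5 x h7 h8 h9 h10] at hx ⊢
      have h11 : X.lab (R.g x) = X.lab (X.ρ x) := hR.lab_g x hx
      rw [h11]
  have hPY : Y.P ≤ 4 * (J.tau : ℤ) := by
    have h7 : Y.P = Y1.P - 1 := glue_P (X := Y1) g3 g4 q6
    have h8 : Y1.P = (R.merge y w).P - 1 := glue_P (X := R.merge y w) g1 g2 q1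
    have h9 := R.merge_P_le y w
    omega
  have hYlt : Y.A.card < n := by
    refine lt_of_lt_of_le (card_lt_card ⟨?_, fun h => ?_⟩) hn
    · rw [hYA]; exact sdiff_subset
    · have h7 := h hsA
      rw [hYA, memE] at h7
      exact h7.2.1 c0
  -- hitting sets
  have hit : ∀ C : Finset ℕ, Y.Cov C → ∀ x ∈ J.A, x ∉ K → x ∉ X.cell b → (X.lab x ∈ C ∨
      X.lab (X.ρ x) ∈ C ∨ X.lab (X.ρ (X.ρ x)) ∈ C ∨ X.lab (X.ρ (X.ρ (X.ρ x))) ∈ C) := by
    intro C hC x hx hxK hxb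
    have h7 : R.Cov (insert w C) := by
      rcases merge_cov (X := R) (x := y) (y := w) hC with h8 | ⟨-, h8⟩
      · exact h8.mono (subset_insert _ _)
      · exact h8
    have hxA : x ∈ X.A ∧ x ∉ B := by rw [hJA] at hx; exact mem_sdiff.1 hx
    have hxE : x ∈ R.A := by
      rw [hRA]
      exact (memE x).2 ⟨hxA.1, hxK, hxA.2⟩
    have key : ∀ i ∈ X.cell x, X.lab i ∈ insert w C → X.lab i ∈ C := by
      intro i hi hl
      rcases mem_insert.1 hl with h8 | h8
      · exfalso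
        have hi2 : i ∈ J.A := cell_sub hJ.cl_A hx hi
        have hxi : x ∈ X.cell i := by rw [hX.cell_eq hi]; exact self_mem_cell x
        rcases D5 i hi2 h8 with h9 | h9
        · rw [h9] at hxi
          exact hxK hxi
        · rw [h9] at hxi
          exact hxb hxi
      · exact h8
    have o0 := self_mem_cell (X := X) x
    have o1 := hX.cl_cell x _ o0
    have o2 := hX.cl_cell x _ o1
    have o3 := hX.cl_cell x _ o2
    have h8 : X.lab x ∈ insert w C ∨ X.lab (X.ρ x) ∈ insert w C ∨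
        X.lab (X.ρ (X.ρ x)) ∈ insert w C ∨ X.lab (X.ρ (X.ρ (X.ρ x))) ∈ insert w C := h7 x hxE
    rcases h8 with h8 | h8 | h8 | h8
    · exact Or.inl (key _ o0 h8)
    · exact Or.inr (Or.inl (key _ o1 h8))
    · exact Or.inr (Or.inr (Or.inl (key _ o2 h8)))
    · exact Or.inr (Or.inr (Or.inr (key _ o3 h8)))
  have t1 : J.tau ≤ Y.tau := by
    have h7 := not_fr_iff.1 nw
    rw [card_singleton] at h7
    have h8 : (J.del {w}).tau ≤ Y.tau := by
      obtain ⟨C, hC, hc⟩ := Y.exists_cov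
      rw [← hc]
      refine tau_le fun x hx => ?_
      rw [del_A, mem_sdiff] at hx
      refine hit C hC x hx.1 (fun h9 => hx.2 ?_) fun h9 => hx.2 ?_
      · have h10 : s ∈ J.star {w} := mem_star.2 ⟨by rw [hJA]; exact k1,
          Or.inl (mem_singleton_self _)⟩
        exact cell_sub (hJ.cl_star {w}) h10 h9
      · have h10 : b ∈ J.star {w} := mem_star.2 ⟨by rw [hJA]; exact mem_sdiff.2 ⟨bA, bB⟩,
          Or.inl (mem_singleton.2 L1)⟩
        exact cell_sub (hJ.cl_star {w}) h10 h9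
    omega
  have t2 := ih S Y hYgood hYlt
  have t3 : (J.tau : ℤ) ≤ Y.tau := by exact_mod_cast t1
  have hvne : (Y.cor v).Nonempty := by
    refine ⟨X.ρ b, mem_filter.2 ⟨by rw [hYA]; exact hclE _ e4, ?_⟩⟩
    rw [hYl, ← L6]
    unfold idf
    rw [if_neg hvw]
  obtain ⟨C, hC, hvC, hc⟩ := hYgood.tig (IH.mono ih hYlt.le) (by omega) hvne
  have hvC' : v ∈ C := hvC (mem_singleton_self _)
  have mb : X.ρ b ∈ X.cell b := mem_cell.2 (Or.inr (Or.inl rfl))
  have hJC : J.Cov C := by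
    intro x hx
    by_cases h7 : x ∈ K
    · exact hX.hit_cell c3 hvC' h7
    by_cases h8 : x ∈ X.cell b
    · exact hX.hit_cell mb (by rw [L6] at hvC'; exact hvC') h8
    · exact hit C hC x hx h7 h8
  have h7 := tau_le hJC
  exact nv ⟨C, hJC, hvC, by omega⟩

end Cx

end Pool.Agent.Lib.MP06c549.Z
end
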