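import Pool.Agent.Lib.MP_06c549_co.Z.Base

section
/-!
# MP_06c549_co, Z: subcomplexes
-/
set_option autoImplicit false
set_option linter.unusedSectionVars false

namespace Pool.Agent.Lib.MP06c549.Z

open Equiv Equiv.Perm Finset

variable {S : Type} [Fintype S] [DecidableEq S]

/-! ## Cutting any set of gates keeps planarity and linear fans -/

/-- cutting gates keeps planarity -/
theorem Planar.mono {ρ g g' : Perm S} (hg : Inv g) (hg' : Inv g') (hle : ∀ s, g' s = s ∨ g' s = g s)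
    (h : Planar ρ g) : Planar ρ g' := by
  induction hn : (univ.filter fun s => g' s ≠ g s).card using Nat.strong_induction_on
    generalizing g with
  | _ n ih =>
    by_cases h1 : ∀ s, g' s = g s
    · rw [Equiv.ext h1]; exact h
    push Not at h1
    obtain ⟨s, hs⟩ := h1
    have hs' : g' s = s := (hle s).resolve_right hs
    have hgs : g s ≠ s := fun h2 => hs (by rw [hs', h2])
    have hs2 : g' (g s) = g s := by
      refine (hle (g s)).resolve_right fun h2 => hs ?_
      rw [hg s] at h2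
      have h3 := hg' (g s)
      rw [h2] at h3
      exact h3
    refine ih _ ?_ (hg.unglue s) (fun x => ?_) (Planar.unglue hg h s) rfl
    · rw [← hn]
      refine card_lt_card ⟨fun x hx => ?_, fun hh => ?_⟩
      · rw [mem_filter] at hx ⊢
        refine ⟨hx.1, fun h3 => hx.2 ?_⟩
        by_cases h4 : x = s
        · exact absurd (h4 ▸ h3) hs
        by_cases h5 : x = g s
        · rw [h5, unglue_right, hs2]
        · rw [unglue_of_ne h4 h5]; exact h3
      · have h3 := hh (mem_filter.2 ⟨mem_univ s, hs⟩)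
        exact (mem_filter.1 h3).2 (by rw [unglue_left hg, hs'])
    · by_cases h4 : x = s
      · exact Or.inl (by rw [h4]; exact hs')
      by_cases h5 : x = g s
      · exact Or.inl (by rw [h5]; exact hs2)
      · rw [unglue_of_ne h4 h5]; exact hle x

/-- cutting gates keeps linear fans -/
lemma lin_mono {ρ g g' : Perm S} (hle : ∀ s, g' s = s ∨ g' s = g s)
    (h : ∀ s, ∃ t, SameCycle (ρ * g) s t ∧ g t = t) (s : S) :
    ∃ t, SameCycle (ρ * g') s t ∧ g' t = t := by
  by_contra hcon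
  push Not at hcon
  -- no fixed point of `g'` on the cycle: the cycle is a cycle of `ρ * g`
  have h1 : ∀ t, SameCycle (ρ * g') s t → g' t = g t := fun t ht =>
    (hle t).resolve_left (hcon t ht)
  have h2 : ∀ n : ℕ, SameCycle (ρ * g') s (((ρ * g) ^ n) s) := by
    intro n
    induction n with
    | zero => exact SameCycle.refl _ _
    | succ n ih =>
      have h3 : ((ρ * g) ^ (n + 1)) s = (ρ * g') (((ρ * g) ^ n) s) := by
        rw [pow_succ', Perm.mul_apply, Perm.mul_apply, Perm.mul_apply, h1 _ ih]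
      rw [h3]
      exact ih.trans ⟨1, by simp⟩
  obtain ⟨t, ht, htt⟩ := h s
  obtain ⟨n, -, -, hn⟩ := ht.exists_pow_eq''
  have h3 := h2 n
  rw [hn] at h3
  have h4 := hcon t h3
  rw [h1 t h3] at h4
  exact h4 htt

namespace Cx

variable {X : Cx S}

/-! ## Counting -/

/-- a set closed under `ρ` -/
def Cl (X : Cx S) (B : Finset S) : Prop := ∀ s ∈ B, X.ρ s ∈ B

lemma Good.cl_A (hX : X.Good) : X.Cl X.A := hX.A_rho

lemma Good.cl_iff (hX : X.Good) {B : Finset S} (hB : X.Cl B) {s : S} : X.ρ s ∈ B ↔ s ∈ B := by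
  refine ⟨fun h => ?_, hB s⟩
  have h1 := hB _ (hB _ (hB _ h))
  rwa [hX.rho4] at h1

lemma Good.cl_inter (_ : X.Good) {B C : Finset S} (hB : X.Cl B) (hC : X.Cl C) : X.Cl (B ∩ C) :=
  fun s hs => mem_inter.2 ⟨hB s (mem_inter.1 hs).1, hC s (mem_inter.1 hs).2⟩

lemma Good.cl_sdiff (hX : X.Good) {B C : Finset S} (hB : X.Cl B) (hC : X.Cl C) : X.Cl (B \ C) :=
  fun s hs => mem_sdiff.2 ⟨hB s (mem_sdiff.1 hs).1, fun h => (mem_sdiff.1 hs).2
    ((hX.cl_iff hC).1 h)⟩

lemma Good.cl_union (_ : X.Good) {B C : Finset S} (hB : X.Cl B) (hC : X.Cl C) : X.Cl (B ∪ C) := by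
  intro s hs
  rcases mem_union.1 hs with h | h
  · exact mem_union_left _ (hB s h)
  · exact mem_union_right _ (hC s h)

/-- the four sides of a cell -/
def cell (X : Cx S) (s : S) : Finset S := {s, X.ρ s, X.ρ (X.ρ s), X.ρ (X.ρ (X.ρ s))}

lemma mem_cell {s t : S} : t ∈ X.cell s ↔ t = s ∨ t = X.ρ s ∨ t = X.ρ (X.ρ s) ∨
    t = X.ρ (X.ρ (X.ρ s)) := by
  unfold cell
  simp only [mem_insert, mem_singleton]

lemma Good.card_cell (hX : X.Good) (s : S) : (X.cell s).card = 4 := by
  have h1 := hX.rho1 s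
  have h2 := hX.rho2 s
  have h3 := hX.rho3 s
  have h4 : X.ρ (X.ρ s) ≠ X.ρ s := fun h => h1 (X.ρ.injective h)
  have h5 : X.ρ (X.ρ (X.ρ s)) ≠ X.ρ s := fun h => h2 (X.ρ.injective h)
  have h6 : X.ρ (X.ρ (X.ρ s)) ≠ X.ρ (X.ρ s) := fun h => h4 (X.ρ.injective h)
  unfold cell
  rw [card_insert_of_notMem, card_insert_of_notMem, card_insert_of_notMem, card_singleton]
  · rw [mem_singleton]; exact fun h => h6 h.symm
  · simp only [mem_insert, mem_singleton, not_or]
    exact ⟨fun h => h4 h.symm, fun h => h5 h.symm⟩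
  · simp only [mem_insert, mem_singleton, not_or]
    exact ⟨fun h => h1 h.symm, fun h => h2 h.symm, fun h => h3 h.symm⟩

lemma Good.cl_cell (hX : X.Good) (s : S) : X.Cl (X.cell s) := by
  intro t ht
  rw [mem_cell] at ht ⊢
  rcases ht with rfl | rfl | rfl | rfl
  · exact Or.inr (Or.inl rfl)
  · exact Or.inr (Or.inr (Or.inl rfl))
  · exact Or.inr (Or.inr (Or.inr rfl))
  · exact Or.inl (hX.rho4 s)

lemma cell_sub {B : Finset S} (hB : X.Cl B) {s : S} (hs : s ∈ B) : X.cell s ⊆ B := by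
  intro t ht
  rcases mem_cell.1 ht with rfl | rfl | rfl | rfl
  · exact hs
  · exact hB _ hs
  · exact hB _ (hB _ hs)
  · exact hB _ (hB _ (hB _ hs))

lemma self_mem_cell (s : S) : s ∈ X.cell s := mem_cell.2 (Or.inl rfl)

/-- induction over the cells of a closed set -/
lemma Good.cl_induction (hX : X.Good) {p : Finset S → Prop} (h0 : p ∅)
    (h1 : ∀ B s, X.Cl B → s ∉ B → p B → p (B ∪ X.cell s)) {B : Finset S} (hB : X.Cl B) : p B := by
  induction hn : B.card using Nat.strong_induction_on generalizing B with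
  | _ n ih =>
    rcases B.eq_empty_or_nonempty with rfl | ⟨s, hs⟩
    · exact h0
    · have h2 : X.cell s ⊆ B := cell_sub hB hs
      have h3 : (B \ X.cell s) ∪ X.cell s = B := sdiff_union_of_subset h2
      rw [← h3]
      refine h1 _ s (hX.cl_sdiff hB (hX.cl_cell s)) (fun h => (mem_sdiff.1 h).2 (self_mem_cell s))
        (ih _ ?_ (hX.cl_sdiff hB (hX.cl_cell s)) rfl)
      rw [← hn]
      exact card_lt_card ⟨sdiff_subset, fun h => (mem_sdiff.1 (h hs)).2 (self_mem_cell s)⟩

lemma Good.card_cl (hX : X.Good) {B : Finset S} (hB : X.Cl B) : 4 * (B.card / 4) = B.card := by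
  have h : 4 ∣ B.card := by
    refine hX.cl_induction (p := fun B => 4 ∣ B.card) (by simp) (fun B s hB hs ih => ?_) hB
    rw [card_union_of_disjoint, hX.card_cell s]
    · exact Nat.dvd_add ih (dvd_refl 4)
    · rw [disjoint_right]
      intro t ht htB
      apply hs
      rcases mem_cell.1 ht with rfl | rfl | rfl | rfl
      · exact htB
      · exact (hX.cl_iff hB).1 htB
      · exact (hX.cl_iff hB).1 ((hX.cl_iff hB).1 htB)
      · exact (hX.cl_iff hB).1 ((hX.cl_iff hB).1 ((hX.cl_iff hB).1 htB))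
  omega

lemma Good.card_A (hX : X.Good) : 4 * X.N = X.A.card := hX.card_cl hX.cl_A

/-- a set closed under `g` without fixed points has an even number of elements -/
lemma even_card_of_inv {g : Perm S} (hg : Inv g) {B : Finset S} (h1 : ∀ s ∈ B, g s ∈ B)
    (h2 : ∀ s ∈ B, g s ≠ s) : 2 * (B.card / 2) = B.card := by
  have h : 2 ∣ B.card := by
    induction hn : B.card using Nat.strong_induction_on generalizing B with
    | _ n ih =>
      rcases B.eq_empty_or_nonempty with rfl | ⟨s, hs⟩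
      · rw [← hn]; simp
      · have h3 : ({s, g s} : Finset S) ⊆ B := by
          intro x hx
          rcases mem_insert.1 hx with rfl | hx
          · exact hs
          · rw [mem_singleton.1 hx]; exact h1 s hs
        have h4 : ({s, g s} : Finset S).card = 2 := card_pair fun h => h2 s hs h.symm
        have h5 := card_sdiff_add_card_eq_card h3
        have h6 := ih (B \ {s, g s}).card (by omega) (B := B \ {s, g s}) (fun x hx => ?_)
          (fun x hx => h2 x (mem_sdiff.1 hx).1) rfl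
        · omega
        · obtain ⟨hx1, hx2⟩ := mem_sdiff.1 hx
          refine mem_sdiff.2 ⟨h1 x hx1, fun h7 => hx2 ?_⟩
          rcases mem_insert.1 h7 with h7 | h7
          · have h8 := hg x
            rw [h7] at h8
            rw [← h8]; simp
          · rw [mem_singleton] at h7
            rw [g.injective h7]; simp
  omega

lemma card_supp (X : Cx S) : 2 * X.E = X.g.support.card := by
  refine even_card_of_inv (g := X.g) X.inv (fun s hs => ?_) fun s hs => mem_support.1 hs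
  rw [mem_support] at hs ⊢
  rw [X.inv]
  exact fun h => hs h.symm

/-- four times the potential -/
lemma Good.P_eq (hX : X.Good) :
    4 * X.P = 3 * (X.A.card : ℤ) - 2 * (X.g.support.card : ℤ) + 4 * (X.c : ℤ) := by
  have h1 := hX.card_A
  have h2 := card_supp X
  unfold P
  omega

lemma Good.supp_sub (hX : X.Good) : X.g.support ⊆ X.A := fun s hs => hX.A_g s (mem_support.1 hs)

/-- glued and free sides -/
lemma Good.card_free (hX : X.Good) : X.free.card + X.g.support.card = X.A.card := by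
  have h1 : X.A.filter (fun s => ¬ X.g s = s) = X.g.support := by
    ext s
    rw [mem_filter, mem_support]
    exact ⟨fun h => h.2, fun h => ⟨hX.A_g s h, h⟩⟩
  rw [← h1]
  exact card_filter_add_card_filter_not (s := X.A) (fun s => X.g s = s)

/-! ## Subcomplexes -/

lemma sub_le {B : Finset S} (s : S) : (X.sub B).g s = s ∨ (X.sub B).g s = X.g s := by
  rw [sub_g]
  split_ifs
  · exact Or.inr rfl
  · exact Or.inl rfl

lemma sub_g_ne {B : Finset S} {s : S} (h : (X.sub B).g s ≠ s) :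
    s ∈ B ∧ X.g s ∈ B ∧ (X.sub B).g s = X.g s ∧ X.g s ≠ s := by
  by_cases h1 : s ∈ B ∧ X.g s ∈ B
  · have h2 : (X.sub B).g s = X.g s := by rw [sub_g, if_pos h1]
    exact ⟨h1.1, h1.2, h2, by rwa [h2] at h⟩
  · exact absurd (by rw [sub_g, if_neg h1]) h

theorem Good.sub (hX : X.Good) {B : Finset S} (hB : X.Cl B) : (X.sub B).Good where
  rho4 := hX.rho4
  rho2 := hX.rho2
  A_rho := hX.cl_inter hX.cl_A hB
  A_g := by
    intro s hs
    obtain ⟨h1, -, -, h3⟩ := sub_g_ne hs
    exact mem_inter.2 ⟨hX.A_g s h3, h1⟩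
  lab_g := by
    intro s hs
    obtain ⟨-, -, h2, h3⟩ := sub_g_ne hs
    rw [h2]
    exact hX.lab_g s h3
  par := fun s hs => hX.par s (mem_inter.1 hs).1
  lin := lin_mono (ρ := X.ρ) (g := X.g) sub_le hX.lin
  planar := Planar.mono (ρ := X.ρ) (g := X.g) X.inv (X.sub B).inv sub_le hX.planar

lemma sub_conn {B : Finset S} {s t : S} (h : (X.sub B).conn s t) : X.conn s t :=
  conn_le (X := X.sub B) (q := X.conn) (fun s => conn_rho (X := X) s)
    (fun _ hs _ ht h => conn_lab (X := X) (mem_inter.1 hs).1 (mem_inter.1 ht).1 h) h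

lemma sub_cov {B C : Finset S} {D : Finset ℕ} (hBC : B ⊆ C) (h : (X.sub C).Cov D) :
    (X.sub B).Cov D := fun s hs => h s (mem_inter.2 ⟨(mem_inter.1 hs).1, hBC (mem_inter.1 hs).2⟩)

lemma cov_sub {B : Finset S} {D : Finset ℕ} (h : X.Cov D) : (X.sub B).Cov D :=
  fun s hs => h s (mem_inter.1 hs).1

lemma sub_tau_le (X : Cx S) (B : Finset S) : (X.sub B).tau ≤ X.tau := by
  obtain ⟨C, hC, hc⟩ := X.exists_cov
  rw [← hc]
  exact tau_le (cov_sub hC)

lemma sub_tau_mono {B C : Finset S} (h : B ⊆ C) : (X.sub B).tau ≤ (X.sub C).tau := by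
  obtain ⟨D, hD, hd⟩ := (X.sub C).exists_cov
  rw [← hd]
  exact tau_le (sub_cov h hD)

lemma sub_support {B : Finset S} :
    (X.sub B).g.support = X.g.support.filter fun s => s ∈ B ∧ X.g s ∈ B := by
  ext s
  rw [mem_support, mem_filter, mem_support]
  constructor
  · intro h
    obtain ⟨h1, h2, -, h4⟩ := sub_g_ne h
    exact ⟨h4, h1, h2⟩
  · rintro ⟨h1, h2⟩
    rw [sub_g, if_pos h2]
    exact h1

/-! ## Stars -/

lemma mem_star {V : Finset ℕ} {s : S} : s ∈ X.star V ↔ s ∈ X.A ∧ (X.lab s ∈ V ∨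
    X.lab (X.ρ s) ∈ V ∨ X.lab (X.ρ (X.ρ s)) ∈ V ∨ X.lab (X.ρ (X.ρ (X.ρ s))) ∈ V) := by
  unfold star
  rw [mem_filter]

lemma Good.cl_star (hX : X.Good) (V : Finset ℕ) : X.Cl (X.star V) := by
  intro s hs
  rw [mem_star] at hs ⊢
  refine ⟨hX.A_rho s hs.1, ?_⟩
  rw [hX.rho4]
  tauto

lemma star_sub_A (V : Finset ℕ) : X.star V ⊆ X.A := filter_subset _ _

lemma star_mono {V W : Finset ℕ} (h : V ⊆ W) : X.star V ⊆ X.star W := by
  intro s hs
  rw [mem_star] at hs ⊢
  exact ⟨hs.1, by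
    rcases hs.2 with h1 | h1 | h1 | h1
    · exact Or.inl (h h1)
    · exact Or.inr (Or.inl (h h1))
    · exact Or.inr (Or.inr (Or.inl (h h1)))
    · exact Or.inr (Or.inr (Or.inr (h h1)))⟩

lemma star_union (V W : Finset ℕ) : X.star (V ∪ W) = X.star V ∪ X.star W := by
  ext s
  simp only [mem_star, mem_union]
  tauto

/-- deletion of the stars of the vertices in `V` -/
def del (X : Cx S) (V : Finset ℕ) : Cx S := X.sub (X.A \ X.star V)

lemma del_A (V : Finset ℕ) : (X.del V).A = X.A \ X.star V := by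
  change X.A ∩ (X.A \ X.star V) = _
  exact inter_eq_right.2 sdiff_subset

theorem Good.del (hX : X.Good) (V : Finset ℕ) : (X.del V).Good :=
  hX.sub (hX.cl_sdiff hX.cl_A (hX.cl_star V))

lemma cov_star {V C : Finset ℕ} (h : (X.del V).Cov C) : X.Cov (C ∪ V) := by
  intro s hs
  by_cases h1 : s ∈ X.star V
  · have h2 := (mem_star.1 h1).2
    simp only [mem_union]
    tauto
  · have h2 := h s (by rw [del_A]; exact mem_sdiff.2 ⟨hs, h1⟩)
    have h3 : X.lab s ∈ C ∨ X.lab (X.ρ s) ∈ C ∨ X.lab (X.ρ (X.ρ s)) ∈ C ∨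
      X.lab (X.ρ (X.ρ (X.ρ s))) ∈ C := h2
    simp only [mem_union]
    tauto

lemma del_cov {V C : Finset ℕ} (h : X.Cov C) : (X.del V).Cov (C \ V) := by
  intro s hs
  rw [del_A] at hs
  obtain ⟨h1, h2⟩ := mem_sdiff.1 hs
  rw [mem_star] at h2
  have h3 := h s h1
  have h4 : ∀ x, x ∈ C \ V ↔ x ∈ C ∧ x ∉ V := fun x => mem_sdiff
  change X.lab s ∈ C \ V ∨ X.lab (X.ρ s) ∈ C \ V ∨ X.lab (X.ρ (X.ρ s)) ∈ C \ V ∨
    X.lab (X.ρ (X.ρ (X.ρ s))) ∈ C \ V
  simp only [h4]
  tauto

lemma tau_le_del (X : Cx S) (V : Finset ℕ) : X.tau ≤ (X.del V).tau + V.card := by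
  obtain ⟨C, hC, hc⟩ := (X.del V).exists_cov
  rw [← hc]
  exact (tau_le (cov_star hC)).trans (card_union_le _ _)

/-- `V` lies in a least hitting set iff the deletion of its stars saves `|V|` -/
lemma fr_iff {V : Finset ℕ} : X.Fr V ↔ (X.del V).tau + V.card ≤ X.tau := by
  constructor
  · rintro ⟨C, h1, h2, h3⟩
    have h4 := tau_le (del_cov (V := V) h1)
    have h5 := card_sdiff_add_card_eq_card h2
    omega
  · intro h
    obtain ⟨C, hC, hc⟩ := (X.del V).exists_cov
    have h1 := tau_le (cov_star hC)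
    have h2 := card_union_le C V
    exact ⟨C ∪ V, cov_star hC, subset_union_right, by omega⟩

lemma not_fr_iff {V : Finset ℕ} : ¬ X.Fr V ↔ X.tau < (X.del V).tau + V.card := by
  rw [fr_iff, not_le]

/-! ## Components -/

/-- two parts without a connection -/
theorem Good.split (hX : X.Good) {B : Finset S} (hBA : B ⊆ X.A)
    (hB : ∀ s ∈ B, ∀ t, X.conn s t → t ∈ B) :
    X.P = (X.sub B).P + (X.sub (X.A \ B)).P ∧ X.tau ≤ (X.sub B).tau + (X.sub (X.A \ B)).tau := by
  have hcl : X.Cl B := fun s hs => hB s hs _ (conn_rho s)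
  have hcl2 : X.Cl (X.A \ B) := hX.cl_sdiff hX.cl_A hcl
  have hD : ∀ s ∈ X.A \ B, ∀ t, X.conn s t → t ∈ X.A \ B := by
    intro s hs t hst
    refine mem_sdiff.2 ⟨(hX.conn_mem hst).1 (mem_sdiff.1 hs).1, fun h => (mem_sdiff.1 hs).2 ?_⟩
    exact hB t h s (X.conn.symm hst)
  -- connection inside a closed part
  have key : ∀ D : Finset S, D ⊆ X.A → (∀ s ∈ D, ∀ t, X.conn s t → t ∈ D) → ∀ s ∈ D, ∀ t ∈ D,
      (X.conn s t ↔ (X.sub D).conn s t) := by
    intro D hDA hD s hs t _
    refine ⟨fun h => ?_, sub_conn⟩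
    let q : Setoid S := ⟨fun x y => (x ∈ D ↔ y ∈ D) ∧ (x ∈ D → (X.sub D).conn x y),
      ⟨fun x => ⟨Iff.rfl, fun _ => (X.sub D).conn.refl x⟩,
        fun h => ⟨h.1.symm, fun hy => (X.sub D).conn.symm (h.2 (h.1.2 hy))⟩,
        fun h1 h2 => ⟨h1.1.trans h2.1, fun hx =>
          (X.sub D).conn.trans (h1.2 hx) (h2.2 (h1.1.1 hx))⟩⟩⟩
    have h1 : q s t := by
      refine conn_le (q := q) (fun x => ?_) (fun x hx y hy hxy => ?_) h
      · refine ⟨⟨fun h => hD x h _ (conn_rho x), fun h => hD _ h _ (X.conn.symm (conn_rho x))⟩,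
          fun _ => conn_rho (X := X.sub D) x⟩
      · refine ⟨⟨fun h => hD x h _ (conn_lab hx hy hxy),
          fun h => hD _ h _ (X.conn.symm (conn_lab hx hy hxy))⟩, fun hxD => ?_⟩
        refine conn_lab (X := X.sub D) (mem_inter.2 ⟨hx, hxD⟩) (mem_inter.2 ⟨hy, ?_⟩) hxy
        exact hD x hxD _ (conn_lab hx hy hxy)
    exact h1.2 hs
  have hA1 : (X.sub B).A = B := inter_eq_right.2 hBA
  have hA2 : (X.sub (X.A \ B)).A = X.A \ B := inter_eq_right.2 sdiff_subset
  have hun : B ∪ (X.A \ B) = X.A := union_sdiff_of_subset hBA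
  refine ⟨?_, ?_⟩
  · have h1 := hX.P_eq
    have h2 := (hX.sub hcl).P_eq
    have h3 := (hX.sub hcl2).P_eq
    rw [hA1] at h2
    rw [hA2] at h3
    have h4 : X.c = (X.sub B).c + (X.sub (X.A \ B)).c := by
      unfold c
      rw [hA1, hA2, ← nc_congr (key B hBA hB), ← nc_congr (key (X.A \ B) sdiff_subset hD),
        ← nc_union (r := X.conn), hun]
      intro s hs t ht hst
      exact (mem_sdiff.1 ht).2 (hB s hs t hst)
    have h5 : X.A.card = B.card + (X.A \ B).card := by
      have := card_sdiff_add_card_eq_card hBA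
      omega
    have h6 : X.g.support.card = (X.sub B).g.support.card + (X.sub (X.A \ B)).g.support.card := by
      rw [sub_support, sub_support, ← card_union_of_disjoint]
      · congr 1
        ext s
        rw [mem_union, mem_filter, mem_filter]
        constructor
        · intro h
          have hsA := hX.supp_sub h
          by_cases hsB : s ∈ B
          · exact Or.inl ⟨h, hsB, hB s hsB _ hX.conn_g⟩
          · have := mem_sdiff.2 ⟨hsA, hsB⟩
            exact Or.inr ⟨h, this, hD s this _ hX.conn_g⟩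
        · rintro (h | h)
          · exact h.1
          · exact h.1
      · rw [disjoint_left]
        intro s h7 h8
        exact (mem_sdiff.1 (mem_filter.1 h8).2.1).2 (mem_filter.1 h7).2.1
    have h7 : (X.A.card : ℤ) = B.card + (X.A \ B).card := by exact_mod_cast h5
    have h8 : (X.g.support.card : ℤ) =
      (X.sub B).g.support.card + (X.sub (X.A \ B)).g.support.card := by exact_mod_cast h6
    have h9 : (X.c : ℤ) = (X.sub B).c + (X.sub (X.A \ B)).c := by exact_mod_cast h4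
    linarith
  · obtain ⟨C, hC, hc⟩ := (X.sub B).exists_cov
    obtain ⟨D, hD', hd⟩ := (X.sub (X.A \ B)).exists_cov
    rw [← hc, ← hd]
    refine (tau_le ?_).trans (card_union_le C D)
    intro s hs
    by_cases hsB : s ∈ B
    · have h1 : X.lab s ∈ C ∨ X.lab (X.ρ s) ∈ C ∨ X.lab (X.ρ (X.ρ s)) ∈ C ∨
        X.lab (X.ρ (X.ρ (X.ρ s))) ∈ C := hC s (by rw [hA1]; exact hsB)
      simp only [mem_union]
      tauto
    · have h1 : X.lab s ∈ D ∨ X.lab (X.ρ s) ∈ D ∨ X.lab (X.ρ (X.ρ s)) ∈ D ∨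
        X.lab (X.ρ (X.ρ (X.ρ s))) ∈ D := hD' s (by rw [hA2]; exact mem_sdiff.2 ⟨hs, hsB⟩)
      simp only [mem_union]
      tauto

/-- a complex that is not a counterexample although all smaller complexes are fine, is connected -/
theorem Good.connected (hX : X.Good) (ih : IH X.A.card) (h : X.P < 4 * X.tau) {s t : S}
    (hs : s ∈ X.A) (ht : t ∈ X.A) : X.conn s t := by
  classical
  by_contra hst
  set B := X.A.filter fun x => X.conn s x with hB
  have hBA : B ⊆ X.A := filter_subset _ _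
  have hB1 : ∀ x ∈ B, ∀ y, X.conn x y → y ∈ B := by
    intro x hx y hxy
    obtain ⟨h1, h2⟩ := mem_filter.1 hx
    exact mem_filter.2 ⟨(hX.conn_mem hxy).1 h1, X.conn.trans h2 hxy⟩
  have hcl : X.Cl B := fun s hs => hB1 s hs _ (conn_rho s)
  obtain ⟨h1, h2⟩ := hX.split hBA hB1
  have hA1 : (X.sub B).A = B := inter_eq_right.2 hBA
  have hA2 : (X.sub (X.A \ B)).A = X.A \ B := inter_eq_right.2 sdiff_subset
  have h3 := ih S (X.sub B) (hX.sub hcl) (by
    rw [hA1]
    exact card_lt_card ⟨hBA, fun hh => hst (mem_filter.1 (hh ht)).2⟩)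
  have h4 := ih S (X.sub (X.A \ B)) (hX.sub (hX.cl_sdiff hX.cl_A hcl)) (by
    rw [hA2]
    refine card_lt_card ⟨sdiff_subset, fun hh => ?_⟩
    exact (mem_sdiff.1 (hh hs)).2 (mem_filter.2 ⟨hs, X.conn.refl s⟩))
  have h5 : (X.tau : ℤ) ≤ (X.sub B).tau + (X.sub (X.A \ B)).tau := by exact_mod_cast h2
  linarith

end Cx

end Pool.Agent.Lib.MP06c549.Z
end

section
/-!
# MP_06c549_co, Z: the minimal counterexample
-/
set_option autoImplicit false
set_option linter.unusedSectionVars false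

namespace Pool.Agent.Lib.MP06c549.Z

open Equiv Equiv.Perm Finset

variable {S : Type} [Fintype S] [DecidableEq S]

namespace Cx

variable {X : Cx S}

/-! ## Cutting a gate -/

lemma cut_le (s x : S) : (X.cut s).g x = x ∨ (X.cut s).g x = X.g x := by
  by_cases h1 : x = s
  · exact Or.inl (by rw [h1]; exact unglue_left X.inv s)
  by_cases h2 : x = X.g s
  · exact Or.inl (by rw [h2]; exact unglue_right s)
  · exact Or.inr (unglue_of_ne h1 h2)

lemma cut_g_ne {s x : S} (h : (X.cut s).g x ≠ x) :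
    X.g x ≠ x ∧ (X.cut s).g x = X.g x ∧ x ≠ s ∧ x ≠ X.g s := by
  have h1 : x ≠ s := by
    rintro rfl
    exact h (unglue_left X.inv x)
  have h2 : x ≠ X.g s := by
    rintro rfl
    exact h (unglue_right s)
  have h3 : (X.cut s).g x = X.g x := unglue_of_ne h1 h2
  exact ⟨by rwa [h3] at h, h3, h1, h2⟩

theorem Good.cut (hX : X.Good) (s : S) : (X.cut s).Good where
  rho4 := hX.rho4
  rho2 := hX.rho2
  A_rho := hX.A_rho
  A_g := fun x hx => hX.A_g x (cut_g_ne hx).1
  lab_g := by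
    intro x hx
    obtain ⟨h1, h2, -, -⟩ := cut_g_ne hx
    rw [h2]
    exact hX.lab_g x h1
  par := hX.par
  lin := lin_mono (ρ := X.ρ) (g := X.g) (cut_le s) hX.lin
  planar := Planar.mono (ρ := X.ρ) (g := X.g) X.inv (X.cut s).inv (cut_le s) hX.planar

lemma cut_conn (s : S) : (X.cut s).conn = X.conn := rfl

lemma cut_c (s : S) : (X.cut s).c = X.c := rfl

lemma cut_tau (s : S) : (X.cut s).tau = X.tau := rfl

lemma cut_fr (s : S) (V : Finset ℕ) : (X.cut s).Fr V ↔ X.Fr V := Iff.rfl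

lemma cut_support {s : S} (hs : X.g s ≠ s) :
    (X.cut s).g.support.card + 2 = X.g.support.card := by
  have h1 : X.g.support = (X.cut s).g.support ∪ {s, X.g s} := by
    ext x
    rw [mem_union, mem_support, mem_support, mem_insert, mem_singleton]
    constructor
    · intro h
      by_cases h1 : x = s
      · exact Or.inr (Or.inl h1)
      by_cases h2 : x = X.g s
      · exact Or.inr (Or.inr h2)
      · left
        have h3 : (X.cut s).g x = X.g x := unglue_of_ne h1 h2
        rw [h3]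
        exact h
    · rintro (h | rfl | rfl)
      · exact (cut_g_ne h).1
      · exact hs
      · rw [X.inv]; exact fun h => hs h.symm
  rw [h1, card_union_of_disjoint, card_pair fun h => hs h.symm]
  rw [disjoint_left]
  intro x hx hx2
  obtain ⟨-, -, h3, h4⟩ := cut_g_ne (mem_support.1 hx)
  rcases mem_insert.1 hx2 with h5 | h5
  · exact h3 h5
  · exact h4 (mem_singleton.1 h5)

lemma Good.cut_P (hX : X.Good) {s : S} (hs : X.g s ≠ s) : (X.cut s).P = X.P + 1 := by
  have h1 := hX.P_eq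
  have h2 := (hX.cut s).P_eq
  have h3 := cut_support hs
  rw [cut_c] at h2
  rw [cut_A] at h2
  have h4 : ((X.cut s).g.support.card : ℤ) + 2 = X.g.support.card := by exact_mod_cast h3
  linarith

/-! ## The minimal counterexample -/

/-- number of labels -/
def nlab (X : Cx S) : ℕ := (X.A.image X.lab).card

lemma nlab_le (X : Cx S) : X.nlab ≤ X.A.card := card_image_le

/-- pinch free: every label belongs to one fan only -/
def PF (X : Cx S) : Prop :=
  ∀ s ∈ X.A, ∀ t ∈ X.A, X.g s = s → X.g t = t → X.lab s = X.lab t → s = t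

/-- minimal counterexamples: least number of cells, then of gates, then most labels -/
structure Min (X : Cx S) : Prop where
  good : X.Good
  ih : IH X.A.card
  bad : X.P < 4 * X.tau
  gates : ∀ Y : Cx S, Y.Good → Y.A.card = X.A.card → Y.g.support.card < X.g.support.card →
    4 * (Y.tau : ℤ) ≤ Y.P
  labs : ∀ Y : Cx S, Y.Good → Y.A.card = X.A.card → Y.g.support.card = X.g.support.card →
    X.nlab < Y.nlab → 4 * (Y.tau : ℤ) ≤ Y.P

/-- the measure -/
def meas (X : Cx S) : ℕ ×ₗ (ℕ ×ₗ ℕ) :=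
  toLex (X.A.card, toLex (X.g.support.card, X.A.card - X.nlab))

theorem exists_min (h : ¬ ∀ (S : Type) [Fintype S] [DecidableEq S] (X : Cx S), X.Good →
    4 * (X.tau : ℤ) ≤ X.P) :
    ∃ (S : Type) (_ : Fintype S) (_ : DecidableEq S) (X : Cx S), X.Min := by
  classical
  set B : Set (ℕ ×ₗ (ℕ ×ₗ ℕ)) := {k | ∃ (S : Type) (_ : Fintype S) (_ : DecidableEq S) (X : Cx S),
    X.Good ∧ X.P < 4 * X.tau ∧ X.meas = k} with hB
  have hne : B.Nonempty := by
    push Not at h
    obtain ⟨S, i1, i2, X, h1, h2⟩ := h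
    exact ⟨X.meas, S, i1, i2, X, h1, h2, rfl⟩
  obtain ⟨k, hk, hmin⟩ := WellFounded.has_min (wellFounded_lt (α := ℕ ×ₗ (ℕ ×ₗ ℕ))) B hne
  obtain ⟨S, i1, i2, X, h1, h2, rfl⟩ := hk
  refine ⟨S, i1, i2, X, h1, ?_, h2, ?_, ?_⟩
  · intro S' j1 j2 Y hY hlt
    by_contra hcon
    rw [not_le] at hcon
    refine hmin Y.meas ⟨S', j1, j2, Y, hY, hcon, rfl⟩ ?_
    exact Prod.Lex.toLex_lt_toLex.2 (Or.inl hlt)
  · intro Y hY hA hlt
    by_contra hcon
    rw [not_le] at hcon
    refine hmin Y.meas ⟨S, i1, i2, Y, hY, hcon, rfl⟩ ?_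
    exact Prod.Lex.toLex_lt_toLex.2 (Or.inr ⟨hA, Prod.Lex.toLex_lt_toLex.2 (Or.inl hlt)⟩)
  · intro Y hY hA hE hlt
    by_contra hcon
    rw [not_le] at hcon
    refine hmin Y.meas ⟨S, i1, i2, Y, hY, hcon, rfl⟩ ?_
    refine Prod.Lex.toLex_lt_toLex.2 (Or.inr ⟨hA, Prod.Lex.toLex_lt_toLex.2 (Or.inr ⟨hE, ?_⟩)⟩)
    have h3 := Y.nlab_le
    change Y.A.card - Y.nlab < X.A.card - X.nlab
    omega

/-- `4 τ = P + 1` as soon as there is a gate -/
theorem Min.P_eq (hX : X.Min) {s : S} (hs : X.g s ≠ s) : X.P + 1 = 4 * X.tau := by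
  have h1 := hX.gates (X.cut s) (hX.good.cut s) rfl (by
    have := cut_support hs
    omega)
  rw [hX.good.cut_P hs, cut_tau] at h1
  have h2 := hX.bad
  omega

theorem Min.conn (hX : X.Min) {s t : S} (hs : s ∈ X.A) (ht : t ∈ X.A) : X.conn s t :=
  hX.good.connected hX.ih hX.bad hs ht

lemma Min.nonempty (hX : X.Min) : X.A.Nonempty := by
  by_contra h
  rw [not_nonempty_iff_eq_empty] at h
  have h1 : X.tau ≤ (∅ : Finset ℕ).card := tau_le (by intro s hs; rw [h] at hs; simp at hs)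
  have h2 := hX.good.P_eq
  have h3 := hX.bad
  have h4 : X.g.support ⊆ ∅ := h ▸ hX.good.supp_sub
  have h5 : X.g.support.card = 0 := card_eq_zero.2 (subset_empty.1 h4)
  rw [h5, h] at h2
  simp only [card_empty, Nat.cast_zero] at h1 h2
  have h6 : (X.tau : ℤ) = 0 := by omega
  have h7 : (0 : ℤ) ≤ X.c := Int.natCast_nonneg _
  omega

theorem Min.c_eq (hX : X.Min) : X.c = 1 :=
  nc_eq_one hX.nonempty fun _ hs _ ht => hX.conn hs ht

/-- a pinch free minimal counterexample has a gate -/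
theorem Min.exists_gate (hX : X.Min) (hpf : X.PF) : ∃ s, X.g s ≠ s := by
  by_contra hcon
  push Not at hcon
  obtain ⟨a, ha⟩ := hX.nonempty
  -- all live sides are in one cell
  have h1 : X.A ⊆ X.cell a := by
    intro t ht
    let q : Setoid S := ⟨fun x y => (x ∈ X.cell a ↔ y ∈ X.cell a),
      ⟨fun _ => Iff.rfl, fun h => h.symm, fun h1 h2 => h1.trans h2⟩⟩
    have h2 : q a t := by
      refine conn_le (q := q) (fun x => ?_) (fun x hx y hy hxy => ?_) (hX.conn ha ht)
      · exact (hX.good.cl_iff (hX.good.cl_cell a)).symm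
      · rw [hpf x hx y hy (hcon x) (hcon y) hxy]
    exact h2.1 (self_mem_cell a)
  have h2 : X.A.card ≤ 4 := (card_le_card h1).trans (hX.good.card_cell a).le
  have h3 : X.tau ≤ ({X.lab a} : Finset ℕ).card := by
    refine tau_le fun s hs => ?_
    have h4 := h1 hs
    have h5 := hX.good.rho4 a
    simp only [mem_singleton]
    rcases mem_cell.1 h4 with rfl | rfl | rfl | rfl
    · exact Or.inl rfl
    · exact Or.inr (Or.inr (Or.inr (by rw [h5])))
    · exact Or.inr (Or.inr (Or.inl (by rw [h5])))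
    · exact Or.inr (Or.inl (by rw [h5]))
  rw [card_singleton] at h3
  have h4 := hX.good.P_eq
  have h5 := hX.bad
  have h6 := hX.c_eq
  have h7 : X.g.support.card = 0 := by
    rw [card_eq_zero]
    ext s
    simp [hcon s]
  have h8 : 4 ≤ X.A.card := by
    have h9 := card_le_card (cell_sub hX.good.cl_A ha)
    rwa [hX.good.card_cell a] at h9
  rw [h7, h6] at h4
  push_cast at h4
  omega

end Cx

end Pool.Agent.Lib.MP06c549.Z
end

section
/-!
# MP_06c549_co, Z: deletion of cells and of stars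

Removing one cell with a free side does not increase `P`; removing the star of a vertex lowers `P`.
The field `ne` (opposite corners are different) is not used.
-/
set_option autoImplicit false
set_option linter.unusedSectionVars false

namespace Pool.Agent.Lib.MP06c549.Z

open Equiv Equiv.Perm Finset

variable {S : Type} [Fintype S] [DecidableEq S]

namespace Cx

variable {X : Cx S}

/-! ## Connection after the deletion of a set of cells -/

section del

variable {K : Finset S}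

/-- the classes that do not meet `K` are not changed -/
lemma conn_sub_of_not {x y : S} (h : X.conn x y)
    (hx : ∀ k ∈ K, ¬ X.conn x k) : (X.sub (X.A \ K)).conn x y := by
  let q : Setoid S := {
    r := fun x y => X.conn x y ∧ ((∀ k ∈ K, ¬ X.conn x k) → (X.sub (X.A \ K)).conn x y)
    iseqv := by
      refine ⟨fun z => ⟨X.conn.refl z, fun _ => (X.sub (X.A \ K)).conn.refl z⟩, ?_, ?_⟩
      · rintro z w ⟨h1, h2⟩
        refine ⟨X.conn.symm h1, fun hn => (X.sub (X.A \ K)).conn.symm (h2 fun k hk hzk => ?_)⟩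
        exact hn k hk (X.conn.trans (X.conn.symm h1) hzk)
      · rintro z w v ⟨h1, h2⟩ ⟨h3, h4⟩
        refine ⟨X.conn.trans h1 h3, fun hn => (X.sub (X.A \ K)).conn.trans (h2 hn)
          (h4 fun k hk hwk => ?_)⟩
        exact hn k hk (X.conn.trans h1 hwk) }
  have key : q x y := by
    refine conn_le (X := X) (q := q) (fun z => ?_) (fun z hz w hw hzw => ?_) h
    · exact ⟨conn_rho z, fun _ => conn_rho (X := X.sub (X.A \ K)) z⟩
    · refine ⟨conn_lab hz hw hzw, fun hn => conn_lab (X := X.sub (X.A \ K)) ?_ ?_ hzw⟩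
      · rw [sub_A, mem_inter, mem_sdiff]
        exact ⟨hz, hz, fun hk => hn z hk (X.conn.refl z)⟩
      · rw [sub_A, mem_inter, mem_sdiff]
        exact ⟨hw, hw, fun hk => hn w hk (conn_lab hz hw hzw)⟩
  exact key.2 hx

/-- the deleted cells are isolated -/
lemma conn_sub_mem (hK : ∀ s, X.ρ s ∈ K ↔ s ∈ K) {x y : S}
    (h : (X.sub (X.A \ K)).conn x y) : x ∈ K ↔ y ∈ K := by
  let q : Setoid S := ⟨fun s t => (s ∈ K ↔ t ∈ K),
    ⟨fun _ => Iff.rfl, fun h => h.symm, fun h1 h2 => h1.trans h2⟩⟩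
  refine conn_le (X := X.sub (X.A \ K)) (q := q) (fun x => (hK x).symm) (fun x hx y hy _ => ?_) h
  rw [sub_A, mem_inter, mem_sdiff] at hx hy
  exact ⟨fun h => absurd h hx.2.2, fun h => absurd h hy.2.2⟩

/-- what is connected with `K` is connected with a side that has a label of `K` -/
lemma touch (hK : ∀ s, X.ρ s ∈ K ↔ s ∈ K) {x k : S} (hk : k ∈ K)
    (h : X.conn x k) (hx : x ∉ K) :
    ∃ t ∈ X.A \ K, (∃ k' ∈ K, X.lab t = X.lab k') ∧ (X.sub (X.A \ K)).conn x t := by
  let F : S → Prop := fun x => x ∈ K ∨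
    ∃ t ∈ X.A \ K, (∃ k' ∈ K, X.lab t = X.lab k') ∧ (X.sub (X.A \ K)).conn x t
  have hF : ∀ x y, (X.sub (X.A \ K)).conn x y → F y → F x := by
    rintro x y hxy (hy | ⟨t, ht, hk, hc⟩)
    · exact Or.inl ((conn_sub_mem hK hxy).2 hy)
    · exact Or.inr ⟨t, ht, hk, (X.sub (X.A \ K)).conn.trans hxy hc⟩
  let q : Setoid S := {
    r := fun x y => (X.sub (X.A \ K)).conn x y ∨ (F x ∧ F y)
    iseqv := by
      refine ⟨fun z => Or.inl ((X.sub (X.A \ K)).conn.refl z), ?_, ?_⟩
      · rintro z w (h1 | ⟨h1, h2⟩)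
        · exact Or.inl ((X.sub (X.A \ K)).conn.symm h1)
        · exact Or.inr ⟨h2, h1⟩
      · rintro z w v (h1 | ⟨h1, h2⟩) (h3 | ⟨h3, h4⟩)
        · exact Or.inl ((X.sub (X.A \ K)).conn.trans h1 h3)
        · exact Or.inr ⟨hF z w h1 h3, h4⟩
        · exact Or.inr ⟨h1, hF v w ((X.sub (X.A \ K)).conn.symm h3) h2⟩
        · exact Or.inr ⟨h1, h4⟩ }
  have h1 : q x k := by
      refine conn_le (X := X) (q := q) (fun z => Or.inl (conn_rho (X := X.sub (X.A \ K)) z))
        (fun z hz w hw hzw => ?_) h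
      by_cases h2 : z ∈ K <;> by_cases h3 : w ∈ K
      · exact Or.inr ⟨Or.inl h2, Or.inl h3⟩
      · exact Or.inr ⟨Or.inl h2, Or.inr ⟨w, mem_sdiff.2 ⟨hw, h3⟩, ⟨z, h2, hzw.symm⟩,
          (X.sub (X.A \ K)).conn.refl w⟩⟩
      · exact Or.inr ⟨Or.inr ⟨z, mem_sdiff.2 ⟨hz, h2⟩, ⟨w, h3, hzw⟩,
          (X.sub (X.A \ K)).conn.refl z⟩, Or.inl h3⟩
      · refine Or.inl (conn_lab (X := X.sub (X.A \ K)) ?_ ?_ hzw)
        · rw [sub_A, mem_inter, mem_sdiff]; exact ⟨hz, hz, h2⟩
        · rw [sub_A, mem_inter, mem_sdiff]; exact ⟨hw, hw, h3⟩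
  rcases h1 with h1 | ⟨h1 | h1, -⟩
  · exact absurd ((conn_sub_mem hK h1).2 hk) hx
  · exact absurd h1 hx
  · exact h1

/-- the number of components after the deletion of a connected set `K`: `T` meets all the components
that touch `K` -/
lemma c_del_le (hK : ∀ s, X.ρ s ∈ K ↔ s ∈ K) (hKA : K ⊆ X.A) {s : S} (hs : s ∈ K)
    (hKs : ∀ k ∈ K, X.conn k s) {T : Finset S}
    (hT : ∀ i ∈ K, ∀ t ∈ X.A \ K, X.lab t = X.lab i → ∃ w ∈ T, (X.sub (X.A \ K)).conn t w) :
    (X.sub (X.A \ K)).c + 1 ≤ X.c + T.card := by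
  classical
  obtain ⟨R, hR, hRc, hR1, -⟩ := exists_rep X.conn X.A
  obtain ⟨r, hr, hsr⟩ := hR1 s (hKA hs)
  have h1 : nc (X.sub (X.A \ K)).conn (X.A \ K) ≤ (R.erase r ∪ T).card := by
    refine nc_le_of fun t ht => ?_
    have ht' := mem_sdiff.1 ht
    by_cases h : X.conn t s
    · obtain ⟨t', ht1, ⟨k, hk, hlk⟩, hc⟩ := touch hK hs h ht'.2
      obtain ⟨w, hw, hw'⟩ := hT k hk t' ht1 hlk
      exact ⟨w, mem_union_right _ hw, (X.sub (X.A \ K)).conn.trans hc hw'⟩
    · obtain ⟨r', hr', htr⟩ := hR1 t ht'.1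
      refine ⟨r', mem_union_left _ (mem_erase.2 ⟨?_, hr'⟩), conn_sub_of_not htr ?_⟩
      · rintro rfl
        exact h (X.conn.trans htr (X.conn.symm hsr))
      · intro k hk htk
        exact h (X.conn.trans htk (hKs k hk))
  have h2 : (X.sub (X.A \ K)).A = X.A \ K := by
    rw [sub_A]; exact inter_eq_right.2 sdiff_subset
  have h3 : (X.sub (X.A \ K)).c ≤ (R.erase r ∪ T).card := by
    unfold c
    rw [h2]
    exact h1
  have h4 := card_union_le (R.erase r) T
  rw [card_erase_of_mem hr, hRc] at h4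
  have h5 : 0 < R.card := card_pos.2 ⟨r, hr⟩
  rw [hRc] at h5
  unfold c at h3 ⊢
  omega

end del

/-! ## The potential -/

/-- the potential after the deletion of the closed set `K` of sides -/
theorem Good.P_sub_sdiff (hX : X.Good) {K : Finset S} (hK : X.Cl K) (hKA : K ⊆ X.A) :
    4 * (X.P - (X.sub (X.A \ K)).P) = 4 * ((K.filter fun s => X.g s = s).card : ℤ) +
      2 * ((K.filter fun s => X.g s ≠ s ∧ X.g s ∈ K).card : ℤ) - K.card +
      4 * (X.c - (X.sub (X.A \ K)).c) := by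
  classical
  have h1 := hX.P_eq
  have h2 := (hX.sub (hX.cl_sdiff hX.cl_A hK)).P_eq
  have hA : (X.sub (X.A \ K)).A = X.A \ K := inter_eq_right.2 sdiff_subset
  rw [hA] at h2
  have h3 := card_sdiff_add_card_eq_card hKA
  set G := K.filter fun s => X.g s ≠ s with hG
  set I := K.filter fun s => X.g s ≠ s ∧ X.g s ∈ K with hI
  have h4 : (K.filter fun s => X.g s = s).card + G.card = K.card :=
    card_filter_add_card_filter_not (s := K) (fun s => X.g s = s)
  have h5 : G ∩ G.image X.g = I := by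
    ext x
    rw [mem_inter, mem_image, hG, hI, mem_filter, mem_filter]
    constructor
    · rintro ⟨⟨h6, h7⟩, y, hy, rfl⟩
      rw [X.inv] at *
      exact ⟨h6, h7, (mem_filter.1 hy).1⟩
    · rintro ⟨h6, h7, h8⟩
      exact ⟨⟨h6, h7⟩, X.g x, mem_filter.2 ⟨h8, by rw [X.inv]; exact h7.symm⟩, X.inv x⟩
  have h6 : (G ∪ G.image X.g).card + I.card = 2 * G.card := by
    have := card_union_add_card_inter G (G.image X.g)
    rw [h5, card_image_of_injective _ X.g.injective] at this
    omega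
  have hsub : G ∪ G.image X.g ⊆ X.g.support := by
    intro x hx
    rw [Perm.mem_support]
    rcases mem_union.1 hx with hx | hx
    · exact (mem_filter.1 hx).2
    · obtain ⟨y, hy, rfl⟩ := mem_image.1 hx
      rw [X.inv]
      exact fun h => (mem_filter.1 hy).2 h.symm
  have hS : (X.sub (X.A \ K)).g.support = X.g.support \ (G ∪ G.image X.g) := by
    ext x
    rw [sub_support, mem_filter, Perm.mem_support, mem_sdiff (s := X.g.support),
      Perm.mem_support]
    constructor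
    · rintro ⟨h, h7, h8⟩
      refine ⟨h, fun h2 => ?_⟩
      rcases mem_union.1 h2 with h2 | h2
      · exact (mem_sdiff.1 h7).2 (mem_filter.1 h2).1
      · obtain ⟨y, hy, rfl⟩ := mem_image.1 h2
        rw [X.inv] at h8
        exact (mem_sdiff.1 h8).2 (mem_filter.1 hy).1
    · rintro ⟨h, h2⟩
      rw [mem_union, not_or] at h2
      have h3 : x ∉ K := fun h3 => h2.1 (mem_filter.2 ⟨h3, h⟩)
      have h4 : X.g x ∉ K := fun h4 => h2.2 (mem_image.2 ⟨X.g x, mem_filter.2 ⟨h4, by
        rw [X.inv]; exact h.symm⟩, X.inv x⟩)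
      exact ⟨h, mem_sdiff.2 ⟨hX.A_g x h, h3⟩, mem_sdiff.2 ⟨hX.g_mem h, h4⟩⟩
  have h7 := card_sdiff_add_card_eq_card hsub
  rw [← hS] at h7
  have h8 : ((X.A \ K).card : ℤ) + K.card = X.A.card := by exact_mod_cast h3
  have h9 : ((K.filter fun s => X.g s = s).card : ℤ) + G.card = K.card := by exact_mod_cast h4
  have h10 : ((G ∪ G.image X.g).card : ℤ) + I.card = 2 * G.card := by exact_mod_cast h6
  have h11 : ((X.sub (X.A \ K)).g.support.card : ℤ) + (G ∪ G.image X.g).card =
      X.g.support.card := by exact_mod_cast h7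
  linarith

/-! ## One cell -/

section one

variable (hX : X.Good)
include hX

lemma Good.mem_cell_rho {s t : S} : X.ρ t ∈ X.cell s ↔ t ∈ X.cell s := hX.cl_iff (hX.cl_cell s)

lemma Good.cell_eq {s t : S} (h : t ∈ X.cell s) : X.cell t = X.cell s :=
  eq_of_subset_of_card_le (cell_sub (hX.cl_cell s) h) (by rw [hX.card_cell, hX.card_cell])

lemma Good.g_ne_rho (s : S) : X.g s ≠ X.ρ s := by
  intro h
  obtain ⟨t, ht, htt⟩ := hX.lin (X.ρ s)
  have h1 : (X.ρ * X.g) (X.ρ s) = X.ρ s := by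
    rw [Perm.mul_apply, ← h, X.inv, h]
  obtain ⟨n, hn⟩ := ht
  rw [zpow_apply_eq_self_of_apply_eq_self h1] at hn
  rw [← hn, ← h, X.inv] at htt
  rw [h] at htt
  exact hX.rho1 s htt.symm

/-- no cell is glued to itself -/
lemma Good.g_notMem_cell {s j : S} (hj : j ∈ X.cell s) (h : X.g j ≠ j) : X.g j ∉ X.cell s := by
  rw [← hX.cell_eq hj]
  intro h1
  have hjA := hX.A_g j h
  rcases mem_cell.1 h1 with h1 | h1 | h1 | h1
  · exact h h1
  · exact hX.g_ne_rho j h1
  · have h2 := hX.lab_g j h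
    rw [h1] at h2
    have h3 := hX.par (X.ρ j) (hX.A_rho j hjA)
    rw [h2] at h3
    omega
  · refine hX.g_ne_rho (X.ρ (X.ρ (X.ρ j))) ?_
    rw [← h1, X.inv, h1, hX.rho4]

lemma Good.conn_cell {s t : S} (h : t ∈ X.cell s) : X.conn t s := by
  rcases mem_cell.1 h with rfl | rfl | rfl | rfl
  · exact X.conn.refl _
  · exact X.conn.symm (conn_rho _)
  · exact X.conn.symm (X.conn.trans (conn_rho _) (conn_rho _))
  · exact X.conn.symm (X.conn.trans (X.conn.trans (conn_rho _) (conn_rho _)) (conn_rho _))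

/-- the number of free sides of the cell of `s` -/
def fr (X : Cx S) (s : S) : ℕ := ((X.cell s).filter fun t => X.g t = t).card

/-- the potential after the deletion of one cell -/
lemma Good.P_sub_cell {s : S} (hs : s ∈ X.A) :
    X.P - (X.sub (X.A \ X.cell s)).P =
      (fr X s : ℤ) - 1 + X.c - (X.sub (X.A \ X.cell s)).c := by
  have h1 := hX.P_sub_sdiff (hX.cl_cell s) (cell_sub hX.cl_A hs)
  have h2 : ((X.cell s).filter fun t => X.g t ≠ t ∧ X.g t ∈ X.cell s) = ∅ := by
    refine filter_eq_empty_iff.2 fun t ht h => hX.g_notMem_cell ht h.1 h.2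
  rw [h2, hX.card_cell] at h1
  have h3 : ((X.cell s).filter fun t => X.g t = t).card = fr X s := rfl
  rw [h3] at h1
  push_cast at h1
  rw [card_empty] at h1
  push_cast at h1
  linarith

/-- a run of glued sides of the cell of `s` -/
lemma Good.run_step {s i : S} (hi : i ∈ X.cell s) {T : Finset S}
    (hg : X.g (X.ρ (X.ρ (X.ρ i))) ≠ X.ρ (X.ρ (X.ρ i)))
    (h : ∀ t ∈ X.A \ X.cell s, X.lab t = X.lab (X.ρ (X.ρ (X.ρ i))) →
      ∃ w ∈ T, (X.sub (X.A \ X.cell s)).conn t w) :
    ∀ t ∈ X.A \ X.cell s, X.lab t = X.lab i → ∃ w ∈ T, (X.sub (X.A \ X.cell s)).conn t w := by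
  intro t ht hti
  have hA : (X.sub (X.A \ X.cell s)).A = X.A \ X.cell s := inter_eq_right.2 sdiff_subset
  set j := X.ρ (X.ρ (X.ρ i)) with hj
  have hjK : j ∈ X.cell s := hX.mem_cell_rho.2 (hX.mem_cell_rho.2 (hX.mem_cell_rho.2 hi))
  have hgj : X.g j ∈ X.A \ X.cell s := mem_sdiff.2 ⟨hX.g_mem hg, hX.g_notMem_cell hjK hg⟩
  have hgr : X.ρ (X.g j) ∈ X.A \ X.cell s :=
    mem_sdiff.2 ⟨hX.A_rho _ (mem_sdiff.1 hgj).1, fun h => (mem_sdiff.1 hgj).2
      (hX.mem_cell_rho.1 h)⟩
  obtain ⟨w, hw, hww⟩ := h (X.ρ (X.g j)) hgr (hX.lab_g' hg)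
  refine ⟨w, hw, (X.sub (X.A \ X.cell s)).conn.trans (conn_lab (t := X.g j) (by rwa [hA])
    (by rwa [hA]) ?_) ((X.sub (X.A \ X.cell s)).conn.trans
      (conn_rho (X := X.sub (X.A \ X.cell s)) (X.g j)) hww)⟩
  rw [sub_lab, hti, hX.lab_g j hg, hj, hX.rho4]

/-- a side outside the cell of `s` with the label of `i`, if there is one -/
noncomputable def out (X : Cx S) (s i : S) : S := by
  classical
  exact if h : ∃ t ∈ X.A \ X.cell s, X.lab t = X.lab i then h.choose else i

omit hX in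
lemma out_spec {s i t : S} (ht : t ∈ X.A \ X.cell s) (h : X.lab t = X.lab i) :
    (X.sub (X.A \ X.cell s)).conn t (X.out s i) := by
  classical
  have h1 : ∃ t ∈ X.A \ X.cell s, X.lab t = X.lab i := ⟨t, ht, h⟩
  have h2 : X.out s i = h1.choose := by
    unfold out
    rw [dif_pos h1]
  have h3 := h1.choose_spec
  rw [← h2] at h3
  have hA : (X.sub (X.A \ X.cell s)).A = X.A \ X.cell s := inter_eq_right.2 sdiff_subset
  exact conn_lab (by rw [hA]; exact ht) (by rw [hA]; exact h3.1) (h.trans h3.2.symm)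

/-- the components after the deletion of a cell with a free side -/
lemma Good.c_sub_cell {s : S} (hs : s ∈ X.A) (hf : 1 ≤ fr X s) :
    (X.sub (X.A \ X.cell s)).c + 1 ≤ X.c + fr X s := by
  classical
  set F := (X.cell s).filter fun t => X.g t = t with hF
  have hFc : F.card = fr X s := rfl
  have h0 : ((F.image X.ρ).image (X.out s)).card ≤ fr X s :=
    card_image_le.trans (card_image_le.trans hFc.le)
  refine (c_del_le (K := X.cell s) (fun t => hX.mem_cell_rho) (cell_sub hX.cl_A hs)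
    (self_mem_cell s) (fun k hk => hX.conn_cell hk) (T := (F.image X.ρ).image (X.out s)) ?_).trans
      (by omega)
  -- the corner behind a free side
  have h1 : ∀ i ∈ X.cell s, X.g (X.ρ (X.ρ (X.ρ i))) = X.ρ (X.ρ (X.ρ i)) →
      ∀ t ∈ X.A \ X.cell s, X.lab t = X.lab i →
        ∃ w ∈ (F.image X.ρ).image (X.out s), (X.sub (X.A \ X.cell s)).conn t w := by
    intro i hi hg t ht hti
    refine ⟨X.out s i, mem_image_of_mem _ (mem_image.2 ⟨X.ρ (X.ρ (X.ρ i)), mem_filter.2
      ⟨hX.mem_cell_rho.2 (hX.mem_cell_rho.2 (hX.mem_cell_rho.2 hi)), hg⟩, hX.rho4 i⟩),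
      out_spec ht hti⟩
  have h2 : ∀ i ∈ X.cell s, (∀ t ∈ X.A \ X.cell s, X.lab t = X.lab i →
        ∃ w ∈ (F.image X.ρ).image (X.out s), (X.sub (X.A \ X.cell s)).conn t w) →
      ∀ t ∈ X.A \ X.cell s, X.lab t = X.lab (X.ρ i) →
        ∃ w ∈ (F.image X.ρ).image (X.out s), (X.sub (X.A \ X.cell s)).conn t w := by
    intro i hi hp
    have hi' := hX.mem_cell_rho.2 hi
    by_cases hg : X.g i = i
    · refine h1 _ hi' ?_
      rw [hX.rho4]; exact hg
    · refine hX.run_step hi' ?_ ?_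
      · rw [hX.rho4]; exact hg
      · rw [hX.rho4]; exact hp
  obtain ⟨j, hj⟩ := card_pos.1 (show 0 < F.card by omega)
  obtain ⟨hj1, hj2⟩ := mem_filter.1 hj
  have e1 := hX.mem_cell_rho.2 hj1
  have e2 := hX.mem_cell_rho.2 e1
  have e3 := hX.mem_cell_rho.2 e2
  have p1 := h1 (X.ρ j) e1 (by rw [hX.rho4]; exact hj2)
  have p2 := h2 _ e1 p1
  have p3 := h2 _ e2 p2
  have p4 := h2 _ e3 p3
  intro i hi
  rw [← hX.cell_eq hj1] at hi
  rcases mem_cell.1 hi with rfl | rfl | rfl | rfl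
  · rw [hX.rho4] at p4; exact p4
  · exact p1
  · exact p2
  · exact p3

/-- the components after the deletion of the last cell at the vertex `lab s` -/
lemma Good.c_sub_last {s : S} (hs : s ∈ X.A) (h1 : X.g s = s)
    (h2 : X.g (X.ρ (X.ρ (X.ρ s))) = X.ρ (X.ρ (X.ρ s)))
    (h3 : ∀ t ∈ X.A \ X.cell s, X.lab t ≠ X.lab s) :
    (X.sub (X.A \ X.cell s)).c + 2 ≤ X.c + fr X s := by
  classical
  set F := (X.cell s).filter fun t => X.g t = t with hF
  have hFc : F.card = fr X s := rfl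
  set T := ((F.image X.ρ).erase s).image (X.out s) with hT
  have hsF : s ∈ F.image X.ρ := mem_image.2 ⟨X.ρ (X.ρ (X.ρ s)), mem_filter.2
    ⟨hX.mem_cell_rho.2 (hX.mem_cell_rho.2 (hX.mem_cell_rho.2 (self_mem_cell s))), h2⟩, hX.rho4 s⟩
  have h0 : T.card + 1 ≤ fr X s := by
    have e1 : T.card ≤ ((F.image X.ρ).erase s).card := card_image_le
    rw [card_erase_of_mem hsF, card_image_of_injective _ X.ρ.injective, hFc] at e1
    have e2 : 0 < (F.image X.ρ).card := card_pos.2 ⟨s, hsF⟩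
    rw [card_image_of_injective _ X.ρ.injective, hFc] at e2
    omega
  have h4 : (X.sub (X.A \ X.cell s)).c + 1 ≤ X.c + T.card := by
    refine c_del_le (K := X.cell s) (fun t => hX.mem_cell_rho) (cell_sub hX.cl_A hs)
      (self_mem_cell s) (fun k hk => hX.conn_cell hk) (T := T) ?_
    have q1 : ∀ i ∈ X.cell s, i ≠ s → X.g (X.ρ (X.ρ (X.ρ i))) = X.ρ (X.ρ (X.ρ i)) →
        ∀ t ∈ X.A \ X.cell s, X.lab t = X.lab i →
          ∃ w ∈ T, (X.sub (X.A \ X.cell s)).conn t w := by
      intro i hi his hg t ht hti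
      refine ⟨X.out s i, mem_image_of_mem _ (mem_erase.2 ⟨his, mem_image.2
        ⟨X.ρ (X.ρ (X.ρ i)), mem_filter.2
          ⟨hX.mem_cell_rho.2 (hX.mem_cell_rho.2 (hX.mem_cell_rho.2 hi)), hg⟩, hX.rho4 i⟩⟩),
        out_spec ht hti⟩
    have q2 : ∀ i ∈ X.cell s, X.ρ i ≠ s → (∀ t ∈ X.A \ X.cell s, X.lab t = X.lab i →
          ∃ w ∈ T, (X.sub (X.A \ X.cell s)).conn t w) →
        ∀ t ∈ X.A \ X.cell s, X.lab t = X.lab (X.ρ i) →
          ∃ w ∈ T, (X.sub (X.A \ X.cell s)).conn t w := by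
      intro i hi his hp
      have hi' := hX.mem_cell_rho.2 hi
      by_cases hg : X.g i = i
      · refine q1 _ hi' his ?_
        rw [hX.rho4]; exact hg
      · refine hX.run_step hi' ?_ ?_
        · rw [hX.rho4]; exact hg
        · rw [hX.rho4]; exact hp
    have e1 := hX.mem_cell_rho.2 (self_mem_cell (X := X) s)
    have e2 := hX.mem_cell_rho.2 e1
    have e3 := hX.mem_cell_rho.2 e2
    have p1 := q1 (X.ρ s) e1 (hX.rho1 s) (by rw [hX.rho4]; exact h1)
    have p2 := q2 _ e1 (hX.rho2 s) p1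
    have p3 := q2 _ e2 (hX.rho3 s) p2
    intro i hi
    rcases mem_cell.1 hi with rfl | rfl | rfl | rfl
    · exact fun t ht hti => absurd hti (h3 t ht)
    · exact p1
    · exact p2
    · exact p3
  omega

end one

/-! ## Stars -/

section star

lemma sub_sub (X : Cx S) (B C : Finset S) : (X.sub B).sub C = X.sub (B ∩ C) := by
  have hg : ((X.sub B).sub C).g = (X.sub (B ∩ C)).g := by
    ext s
    rw [sub_g, sub_g, sub_g]
    by_cases h1 : s ∈ B ∧ X.g s ∈ B
    · rw [if_pos h1]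
      simp only [mem_inter]
      by_cases h2 : s ∈ C ∧ X.g s ∈ C
      · rw [if_pos h2, if_pos ⟨⟨h1.1, h2.1⟩, h1.2, h2.2⟩]
      · rw [if_neg h2, if_neg fun h => h2 ⟨h.1.2, h.2.2⟩]
    · rw [if_neg h1]
      simp only [mem_inter]
      rw [if_neg (c := (s ∈ B ∧ s ∈ C) ∧ X.g s ∈ B ∧ X.g s ∈ C) fun h => h1 ⟨h.1.1, h.2.1⟩]
      split_ifs <;> rfl
  have hA : ((X.sub B).sub C).A = (X.sub (B ∩ C)).A := by
    rw [sub_A, sub_A, sub_A, inter_assoc]
  have key : ∀ Y Z : Cx S, Y.A = Z.A → Y.ρ = Z.ρ → Y.g = Z.g → Y.lab = Z.lab → Y = Z := by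
    rintro ⟨A, ρ, g, l, i⟩ ⟨A', ρ', g', l', i'⟩ h1 h2 h3 h4
    simp only at h1 h2 h3 h4
    subst h1 h2 h3 h4
    rfl
  exact key _ _ hA rfl hg rfl

variable (hX : X.Good)
include hX

/-- there is a free side at every vertex -/
lemma Good.exists_free_cor {v : ℕ} (hv : (X.cor v).Nonempty) :
    ∃ s ∈ X.A, X.lab s = v ∧ X.g s = s := by
  classical
  by_contra hcon
  push Not at hcon
  obtain ⟨s, hs⟩ := hv
  obtain ⟨hsA, hsv⟩ := mem_filter.1 hs
  have h1 : ∀ n : ℕ, ((X.ρ * X.g) ^ n) s ∈ X.A ∧ X.lab (((X.ρ * X.g) ^ n) s) = v := by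
    intro n
    induction n with
    | zero => exact ⟨hsA, hsv⟩
    | succ n ih =>
      have h2 := hcon _ ih.1 ih.2
      rw [pow_succ', Perm.mul_apply, Perm.mul_apply]
      exact ⟨hX.A_rho _ (hX.g_mem h2), by rw [hX.lab_g' h2]; exact ih.2⟩
  obtain ⟨t, ht, htt⟩ := hX.lin s
  obtain ⟨n, -, -, hn⟩ := ht.exists_pow_eq''
  have h2 := h1 n
  rw [hn] at h2
  exact hcon t h2.1 h2.2 htt

/-- deletion of a cell with a free side does not increase `P` -/
theorem Good.P_sub_cell_le {s : S} (hs : s ∈ X.A) (hf : X.g s = s) :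
    (X.sub (X.A \ X.cell s)).P ≤ X.P := by
  have h1 : 1 ≤ fr X s := card_pos.2 ⟨s, mem_filter.2 ⟨self_mem_cell s, hf⟩⟩
  have h2 := hX.c_sub_cell hs h1
  have h3 := hX.P_sub_cell hs
  omega

end star

/-- the star of a vertex: its deletion lowers `P` -/
theorem Good.P_del_lt (hX : X.Good) {v : ℕ} (hv : (X.cor v).Nonempty) :
    (X.del {v}).P + 1 ≤ X.P := by
  classical
  induction hn : X.A.card using Nat.strong_induction_on generalizing X with
  | _ n ih =>
    obtain ⟨s, hs, hsv, hf⟩ := hX.exists_free_cor hv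
    set Y := X.sub (X.A \ X.cell s) with hY
    have hYg : Y.Good := hX.sub (hX.cl_sdiff hX.cl_A (hX.cl_cell s))
    have hYA : Y.A = X.A \ X.cell s := inter_eq_right.2 sdiff_subset
    have hcs : X.cell s ⊆ X.star {v} := by
      refine cell_sub (hX.cl_star {v}) (mem_star.2 ⟨hs, Or.inl ?_⟩)
      rw [hsv]; exact mem_singleton_self v
    have hst : Y.star {v} = X.star {v} \ X.cell s := by
      ext t
      rw [mem_star, mem_sdiff, mem_star, hYA, mem_sdiff]
      change (_ ∧ (X.lab t ∈ _ ∨ X.lab (X.ρ t) ∈ _ ∨ X.lab (X.ρ (X.ρ t)) ∈ _ ∨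
        X.lab (X.ρ (X.ρ (X.ρ t))) ∈ _)) ↔ _
      tauto
    have hdel : Y.del {v} = X.del {v} := by
      unfold Cx.del
      rw [hY, sub_sub, ← hY, hYA, hst]
      congr 1
      ext t
      simp only [mem_inter, mem_sdiff]
      have := @hcs t
      tauto
    by_cases hc : (Y.cor v).Nonempty
    · have h1 := ih Y.A.card (by
        rw [← hn, hYA]
        exact card_lt_card ⟨sdiff_subset, fun h => (mem_sdiff.1 (h hs)).2 (self_mem_cell s)⟩)
        hYg hc rfl
      rw [hdel] at h1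
      have h2 := hX.P_sub_cell_le hs hf
      rw [← hY] at h2
      omega
    · have h0 : ∀ t ∈ X.A \ X.cell s, X.lab t ≠ X.lab s := by
        intro t ht h
        exact hc ⟨t, mem_filter.2 ⟨by rw [hYA]; exact ht, by rw [← hsv]; exact h⟩⟩
      have h1 : X.g (X.ρ (X.ρ (X.ρ s))) = X.ρ (X.ρ (X.ρ s)) := by
        by_contra hg
        have h2 := hX.lab_g _ hg
        rw [hX.rho4] at h2
        refine h0 _ (mem_sdiff.2 ⟨hX.g_mem hg, hX.g_notMem_cell ?_ hg⟩) h2
        exact hX.mem_cell_rho.2 (hX.mem_cell_rho.2 (hX.mem_cell_rho.2 (self_mem_cell s)))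
      have h2 := hX.c_sub_last hs hf h1 h0
      have h3 := hX.P_sub_cell hs
      have h4 : X.del {v} = Y := by
        rw [← hdel]
        unfold Cx.del
        have h5 : Y.star {v} = ∅ := by
          rw [eq_empty_iff_forall_notMem]
          intro t ht
          obtain ⟨ht1, ht2⟩ := mem_star.1 ht
          simp only [mem_singleton] at ht2
          rcases ht2 with h | h | h | h
          · exact hc ⟨_, mem_filter.2 ⟨ht1, h⟩⟩
          · exact hc ⟨_, mem_filter.2 ⟨hYg.A_rho _ ht1, h⟩⟩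
          · exact hc ⟨_, mem_filter.2 ⟨hYg.A_rho _ (hYg.A_rho _ ht1), h⟩⟩
          · exact hc ⟨_, mem_filter.2 ⟨hYg.A_rho _ (hYg.A_rho _ (hYg.A_rho _ ht1)), h⟩⟩
        rw [h5, sdiff_empty, hY, sub_sub, ← hY, hYA, inter_self]
      rw [h4]
      rw [← hY] at h2 h3
      omega

/-- in a tight complex every vertex lies in a least hitting set -/
theorem Good.tig (hX : X.Good) (ih : IH X.A.card) (h : X.P ≤ 4 * X.tau) {v : ℕ}
    (hv : (X.cor v).Nonempty) : X.Fr {v} := by
  rw [fr_iff, card_singleton]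
  have h1 := hX.P_del_lt hv
  have h2 := ih S (X.del {v}) (hX.del {v}) (by
    rw [del_A]
    obtain ⟨s, hs⟩ := hv
    obtain ⟨hsA, hsv⟩ := mem_filter.1 hs
    refine card_lt_card ⟨sdiff_subset, fun hh => (mem_sdiff.1 (hh hsA)).2 ?_⟩
    exact mem_star.2 ⟨hsA, Or.inl (by rw [hsv]; exact mem_singleton_self v)⟩)
  omega

end Cx

end Pool.Agent.Lib.MP06c549.Z
end

section
/-!
# MP_06c549_co, Z: planar toolkit for zips

`Gl ρ g s t`: the free sides `s`, `t` can be glued without a handle (same cycle of `ρ * g`, or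
different components). `Planar.region`: if `B` is a connected set of cells, `s`, `t` two sides
outside `B` glued to `B`, then, after the deletion of `B` (and possibly further cuts), the sides
`s` and `t` can be glued (also to the two ends of anything that replaces `B`).
-/
set_option autoImplicit false
set_option linter.unusedSectionVars false

namespace Pool.Agent.Lib.MP06c549.Z

open Equiv Equiv.Perm Finset

section Toolkit

variable {S : Type} [Fintype S] [DecidableEq S]

/-- the free sides `s`, `t` can be glued without a handle -/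
def Gl (ρ g : Perm S) (s t : S) : Prop := SameCycle (ρ * g) s t ∨ ¬ comp ρ g s t

lemma Gl.symm {ρ g : Perm S} {s t : S} (h : Gl ρ g s t) : Gl ρ g t s :=
  h.imp (fun h => h.symm) fun h h' => h ((comp ρ g).symm h')

lemma Planar.glue {ρ g : Perm S} (h : Planar ρ g) {s t : S} (hst : s ≠ t) (hs : g s = s)
    (ht : g t = t) (hc : Gl ρ g s t) : Planar ρ (g * swap s t) := by
  rcases hc with hc | hc
  · exact h.glue_same hst hs ht hc
  · exact h.glue_diff hst hs ht hc

/-- two elements of one cycle of `ρ` are in one component -/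
lemma comp_of_rho {ρ g : Perm S} {x y : S} (h : SameCycle ρ x y) : comp ρ g x y :=
  (le_sup_left : SameCycle.setoid ρ ≤ comp ρ g) h

/-- the gluing between `a` and `b` in terms of `swap` -/
lemma swap_apply_glued {g : Perm S} {s t : S} (hs : g s = s) (ht : g t = t) (x : S) :
    (g * swap s t) x = if x = s then t else if x = t then s else g x := by
  rw [Perm.mul_apply]
  split_ifs with h1 h2
  · rw [h1, swap_apply_left, ht]
  · rw [h2, swap_apply_right, hs]
  · rw [swap_apply_of_ne_of_ne h1 h2]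

/-! ## A set that is closed under two permutations -/

lemma mem_iff_of_sameCycle {σ : Perm S} {K : Finset S} (hK : ∀ x, σ x ∈ K ↔ x ∈ K) {x y : S}
    (h : SameCycle σ x y) : x ∈ K ↔ y ∈ K := by
  let q : Setoid S := ⟨fun s t => (s ∈ K ↔ t ∈ K),
    ⟨fun _ => Iff.rfl, fun h => h.symm, fun h1 h2 => h1.trans h2⟩⟩
  exact sameCycle_le_of (q := q) (fun x => (hK x).symm) h

lemma mem_iff_of_comp {ρ g : Perm S} {K : Finset S} (hK : ∀ x, ρ x ∈ K ↔ x ∈ K)
    (hg : ∀ x, g x ∈ K ↔ x ∈ K) {x y : S} (h : comp ρ g x y) : x ∈ K ↔ y ∈ K := by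
  let q : Setoid S := ⟨fun s t => (s ∈ K ↔ t ∈ K),
    ⟨fun _ => Iff.rfl, fun h => h.symm, fun h1 h2 => h1.trans h2⟩⟩
  exact comp_le_of (q := q) (fun x => (hK x).symm) (fun x => (hg x).symm) h

/-- a permutation that fixes `K` pointwise maps the complement to itself -/
lemma mem_iff_of_fix {g : Perm S} {K : Finset S} (h : ∀ x ∈ K, g x = x) (x : S) :
    g x ∈ K ↔ x ∈ K := by
  refine ⟨fun h1 => ?_, fun h1 => by rw [h x h1]; exact h1⟩
  have h2 := h (g x) h1
  rw [g.injective h2] at h1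
  exact h1

/-- joining cycles -/
lemma sameCycle_glue_iff {σ : Perm S} {a b : S} (h : ¬ SameCycle σ a b) {x y : S} :
    SameCycle (σ * swap a b) x y ↔ SameCycle σ x y ∨ (SameCycle σ x a ∧ SameCycle σ b y) ∨
      (SameCycle σ x b ∧ SameCycle σ a y) := by
  have h1 := join_swap σ a b
  rw [join_of_rel (r := SameCycle.setoid (σ * swap a b)) (sameCycle_of_not h)] at h1
  have h2 : SameCycle (σ * swap a b) x y ↔ join (SameCycle.setoid σ) a b x y := by rw [← h1]; rfl
  exact h2

/-! ## Leaves -/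

/-- a leaf: `K` is one cycle of `ρ`, all its elements are free in `g`, then `k' ∈ K` is glued to
the free element `t` outside `K`. The cycles outside `K` are unchanged. -/
lemma leaf_sameCycle {ρ g : Perm S} {K : Finset S} (hK : ∀ x, ρ x ∈ K ↔ x ∈ K)
    (hfix : ∀ x ∈ K, g x = x) {k' t : S} (hk' : k' ∈ K) (ht : t ∉ K) {x y : S} (hx : x ∉ K)
    (hy : y ∉ K) : SameCycle (ρ * (g * swap t k')) x y ↔ SameCycle (ρ * g) x y := by
  have hcl : ∀ x, (ρ * g) x ∈ K ↔ x ∈ K := fun x => by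
    rw [Perm.mul_apply, hK, mem_iff_of_fix hfix]
  have hn : ¬ SameCycle (ρ * g) t k' := fun h => ht ((mem_iff_of_sameCycle hcl h).2 hk')
  rw [← mul_assoc, sameCycle_glue_iff hn]
  constructor
  · rintro (h | ⟨-, h⟩ | ⟨h, -⟩)
    · exact h
    · exact absurd ((mem_iff_of_sameCycle hcl h).1 hk') hy
    · exact absurd ((mem_iff_of_sameCycle hcl h).2 hk') hx
  · exact Or.inl

/-- the cycle of `ρ` on a set on which `g` is trivial -/
lemma sameCycle_mul_of_fix {ρ g : Perm S} {K : Finset S} (hK : ∀ x, ρ x ∈ K ↔ x ∈ K)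
    (hfix : ∀ x ∈ K, g x = x) {x y : S} (hx : x ∈ K) (h : SameCycle ρ x y) :
    SameCycle (ρ * g) x y := by
  let q : Setoid S := ⟨fun s t => (s ∈ K ↔ t ∈ K) ∧ (s ∈ K → SameCycle (ρ * g) s t),
    ⟨fun _ => ⟨Iff.rfl, fun _ => SameCycle.refl _ _⟩,
      fun h => ⟨h.1.symm, fun h1 => (h.2 (h.1.2 h1)).symm⟩,
      fun h1 h2 => ⟨h1.1.trans h2.1, fun h3 => (h1.2 h3).trans (h2.2 (h1.1.1 h3))⟩⟩⟩
  have h1 : q x y := by
    refine sameCycle_le_of (q := q) (fun z => ⟨(hK z).symm, fun hz => ?_⟩) h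
    refine ⟨1, ?_⟩
    rw [zpow_one, Perm.mul_apply, hfix z hz]
  exact h1.2 hx

lemma leaf_sameCycle' {ρ g : Perm S} {K : Finset S} (hK : ∀ x, ρ x ∈ K ↔ x ∈ K)
    (hcyc : ∀ x ∈ K, ∀ y ∈ K, SameCycle ρ x y) (hfix : ∀ x ∈ K, g x = x) {k k' t : S} (hk : k ∈ K)
    (hk' : k' ∈ K) (ht : t ∉ K) {x : S} (hx : x ∉ K) :
    SameCycle (ρ * (g * swap t k')) x k ↔ SameCycle (ρ * g) x t := by
  have hcl : ∀ x, (ρ * g) x ∈ K ↔ x ∈ K := fun x => by
    rw [Perm.mul_apply, hK, mem_iff_of_fix hfix]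
  have hn : ¬ SameCycle (ρ * g) t k' := fun h => ht ((mem_iff_of_sameCycle hcl h).2 hk')
  rw [← mul_assoc, sameCycle_glue_iff hn]
  constructor
  · rintro (h | ⟨h, -⟩ | ⟨h, -⟩)
    · exact absurd ((mem_iff_of_sameCycle hcl h).2 hk) hx
    · exact h
    · exact absurd ((mem_iff_of_sameCycle hcl h).2 hk') hx
  · exact fun h => Or.inr (Or.inl ⟨h, sameCycle_mul_of_fix hK hfix hk' (hcyc k' hk' k hk)⟩)

lemma leaf_comp {ρ g : Perm S} {K : Finset S} (hK : ∀ x, ρ x ∈ K ↔ x ∈ K)
    (hfix : ∀ x ∈ K, g x = x) {k' t : S} (hk' : k' ∈ K) (htg : g t = t) {x y : S}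
    (hx : x ∉ K) (hy : y ∉ K) : comp ρ (g * swap t k') x y ↔ comp ρ g x y := by
  have hn : ∀ z, comp ρ g z k' → z ∈ K := fun z h =>
    (mem_iff_of_comp hK (mem_iff_of_fix hfix) h).2 hk'
  rw [comp_swap htg (hfix k' hk'), join_apply]
  constructor
  · rintro (h | ⟨-, h⟩ | ⟨h, -⟩)
    · exact h
    · exact absurd (hn y ((comp ρ g).symm h)) hy
    · exact absurd (hn x h) hx
  · exact Or.inl

lemma leaf_comp' {ρ g : Perm S} {K : Finset S} (hK : ∀ x, ρ x ∈ K ↔ x ∈ K)
    (hcyc : ∀ x ∈ K, ∀ y ∈ K, SameCycle ρ x y) (hfix : ∀ x ∈ K, g x = x) {k k' t : S} (hk : k ∈ K)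
    (hk' : k' ∈ K) (htg : g t = t) {x : S} (hx : x ∉ K) :
    comp ρ (g * swap t k') x k ↔ comp ρ g x t := by
  have hn : ∀ z ∈ K, ¬ comp ρ g x z := fun z hz h =>
    hx ((mem_iff_of_comp hK (mem_iff_of_fix hfix) h).2 hz)
  rw [comp_swap htg (hfix k' hk'), join_apply]
  constructor
  · rintro (h | ⟨h, -⟩ | ⟨h, -⟩)
    · exact absurd h (hn k hk)
    · exact h
    · exact absurd h (hn k' hk')
  · exact fun h => Or.inr (Or.inl ⟨h, comp_of_rho (hcyc k' hk' k hk)⟩)

/-- a leaf at `t`: a side `k` of the leaf can be glued to `s` iff `t` can be glued to `s` -/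
lemma leaf_gl {ρ g : Perm S} {K : Finset S} (hK : ∀ x, ρ x ∈ K ↔ x ∈ K)
    (hcyc : ∀ x ∈ K, ∀ y ∈ K, SameCycle ρ x y) (hfix : ∀ x ∈ K, g x = x) {k k' s t : S}
    (hk : k ∈ K) (hk' : k' ∈ K) (htg : g t = t) (hs : s ∉ K) (ht : t ∉ K) :
    Gl ρ (g * swap t k') s k ↔ Gl ρ g s t := by
  unfold Gl
  rw [leaf_sameCycle' hK hcyc hfix hk hk' ht hs, leaf_comp' hK hcyc hfix hk hk' htg hs]

/-- gluing relations outside a leaf -/
lemma leaf_gl' {ρ g : Perm S} {K : Finset S} (hK : ∀ x, ρ x ∈ K ↔ x ∈ K)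
    (hfix : ∀ x ∈ K, g x = x) {k' t : S} (hk' : k' ∈ K) (htg : g t = t) (ht : t ∉ K) {x y : S}
    (hx : x ∉ K) (hy : y ∉ K) : Gl ρ (g * swap t k') x y ↔ Gl ρ g x y := by
  unfold Gl
  rw [leaf_sameCycle hK hfix hk' ht hx hy, leaf_comp hK hfix hk' htg hx hy]

/-! ## Cutting a set of cells off -/

/-- all gates with an end in `K` are cut -/
def offFun (g : Perm S) (K : Finset S) (s : S) : S := if s ∈ K ∨ g s ∈ K then s else g s

lemma offFun_inv {g : Perm S} (hg : Inv g) (K : Finset S) : Function.Involutive (offFun g K) := by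
  intro s
  unfold offFun
  by_cases h : s ∈ K ∨ g s ∈ K
  · rw [if_pos h, if_pos h]
  · rw [if_neg h, if_neg (by rw [hg s]; exact fun h1 => h h1.symm), hg s]

/-- all gates with an end in `K` are cut -/
def off {g : Perm S} (hg : Inv g) (K : Finset S) : Perm S := (offFun_inv hg K).toPerm

lemma off_apply {g : Perm S} (hg : Inv g) (K : Finset S) (s : S) :
    off hg K s = if s ∈ K ∨ g s ∈ K then s else g s := rfl

lemma off_inv {g : Perm S} (hg : Inv g) (K : Finset S) : Inv (off hg K) := offFun_inv hg K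

lemma off_of_mem {g : Perm S} (hg : Inv g) {K : Finset S} {s : S} (h : s ∈ K) :
    off hg K s = s := by rw [off_apply, if_pos (Or.inl h)]

lemma off_of_mem' {g : Perm S} (hg : Inv g) {K : Finset S} {s : S} (h : g s ∈ K) :
    off hg K s = s := by rw [off_apply, if_pos (Or.inr h)]

lemma off_of_not {g : Perm S} (hg : Inv g) {K : Finset S} {s : S} (h : s ∉ K) (h' : g s ∉ K) :
    off hg K s = g s := by
  rw [off_apply, if_neg]
  tauto

/-! ## The strip lemma: one cell -/

/-- `K` is one cell, glued to `s` and `t`. After cutting `K` off, `s` and `t` can be glued. -/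
theorem Planar.strip {ρ g : Perm S} (hg : Inv g) (h : Planar ρ g) {K : Finset S}
    (hK : ∀ x, ρ x ∈ K ↔ x ∈ K) (hcyc : ∀ x ∈ K, ∀ y ∈ K, SameCycle ρ x y) {s t : S} (hst : s ≠ t)
    (hs : s ∉ K) (ht : t ∉ K) (hgs : g s ∈ K) (hgt : g t ∈ K) :
    Planar ρ (off hg K) ∧ Gl ρ (off hg K) s t := by
  have hfix : ∀ x ∈ K, off hg K x = x := fun x hx => off_of_mem hg hx
  have h0s : off hg K s = s := off_of_mem' hg hgs
  have h0t : off hg K t = t := off_of_mem' hg hgt
  have h0 := off_inv hg K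
  have hkk : g s ≠ g t := fun h1 => hst (g.injective h1)
  have hsk : s ≠ g s := fun h1 => hs (h1 ▸ hgs)
  have hsk' : s ≠ g t := fun h1 => hs (h1 ▸ hgt)
  have htk : t ≠ g s := fun h1 => ht (h1 ▸ hgs)
  have htk' : t ≠ g t := fun h1 => ht (h1 ▸ hgt)
  set g1 := off hg K * swap t (g t) with hg1
  have hv1 : ∀ x, g1 x = if x = t then g t else if x = g t then t else off hg K x :=
    swap_apply_glued h0t (hfix _ hgt)
  have hi1 : Inv g1 := h0.glue h0t (hfix _ hgt)
  have h1s : g1 s = s := by rw [hv1, if_neg hst, if_neg hsk', h0s]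
  have h1k : g1 (g s) = g s := by rw [hv1, if_neg htk.symm, if_neg hkk, hfix _ hgs]
  have hi2 : Inv (g1 * swap s (g s)) := hi1.glue h1s h1k
  have hP2 : Planar ρ (g1 * swap s (g s)) := by
    refine Planar.mono hg hi2 (fun x => ?_) h
    rw [swap_apply_glued h1s h1k]
    split_ifs with h2 h3
    · exact Or.inr (by rw [h2])
    · exact Or.inr (by rw [h3, hg s])
    · rw [hv1]
      split_ifs with h4 h5
      · exact Or.inr (by rw [h4])
      · exact Or.inr (by rw [h5, hg t])
      · rw [off_apply]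
        split_ifs
        · exact Or.inl rfl
        · exact Or.inr rfl
  obtain ⟨hP1, hG1⟩ := Planar.of_glue hi1 hsk h1s h1k hP2
  obtain ⟨hP0, -⟩ := Planar.of_glue h0 htk' h0t (hfix _ hgt) hP1
  exact ⟨hP0, (leaf_gl hK hcyc hfix hgs hgt h0t hs ht).1 hG1⟩

/-! ## The region lemma -/

/-- one step inside the set `B` of cells -/
def stepIn (ρ g : Perm S) (B : Finset S) (x y : S) : Prop := y ∈ B ∧ (y = ρ x ∨ y = g x)

lemma exit_of_reach {ρ g : Perm S} {B K : Finset S} (hK : ∀ x, ρ x ∈ K ↔ x ∈ K)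
    {x y : S} (hx : x ∈ K) (h : Relation.ReflTransGen (stepIn ρ g B) x y) :
    y ∈ K ∨ ∃ a ∈ K, g a ∈ B \ K ∧ Relation.ReflTransGen (stepIn ρ g (B \ K)) (g a) y := by
  induction h with
  | refl => exact Or.inl hx
  | @tail y z _ hyz ih =>
    by_cases hz : z ∈ K
    · exact Or.inl hz
    have hzB : z ∈ B \ K := mem_sdiff.2 ⟨hyz.1, hz⟩
    right
    rcases ih with ih | ⟨a, ha, h1, h2⟩
    · rcases hyz.2 with h3 | h3
      · exact absurd (h3 ▸ (hK y).2 ih) hz
      · exact ⟨y, ih, h3 ▸ hzB, h3 ▸ Relation.ReflTransGen.refl⟩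
    · exact ⟨a, ha, h1, h2.tail ⟨hzB, hyz.2⟩⟩

/-- the cycle of `x` as a set -/
noncomputable def cyc (ρ : Perm S) (x : S) : Finset S :=
  haveI := Classical.decPred fun y => SameCycle ρ x y
  univ.filter fun y => SameCycle ρ x y

lemma mem_cyc {ρ : Perm S} {x y : S} : y ∈ cyc ρ x ↔ SameCycle ρ x y := by
  unfold cyc
  simp

lemma cyc_cl (ρ : Perm S) (x y : S) : ρ y ∈ cyc ρ x ↔ y ∈ cyc ρ x := by
  rw [mem_cyc, mem_cyc]
  exact sameCycle_apply_right

lemma cyc_cyc {ρ : Perm S} {x y z : S} (hy : y ∈ cyc ρ x) (hz : z ∈ cyc ρ x) : SameCycle ρ y z :=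
  (mem_cyc.1 hy).symm.trans (mem_cyc.1 hz)

lemma cyc_sub {ρ : Perm S} {B : Finset S} (hB : ∀ x, ρ x ∈ B ↔ x ∈ B) {x : S} (hx : x ∈ B) :
    cyc ρ x ⊆ B := fun _ hy => (mem_iff_of_sameCycle hB (mem_cyc.1 hy)).1 hx

/-- **Region lemma.** `B` is a set of cells, `s` and `t` are sides outside `B` glued to sides
`g s`, `g t` of `B` which are connected inside `B`. If `B` is cut off (and perhaps other gates
too), then `s` and `t` can be glued. -/
theorem Planar.region {ρ g : Perm S} (hg : Inv g) (h : Planar ρ g) {B : Finset S}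
    (hB : ∀ x, ρ x ∈ B ↔ x ∈ B) {s t : S} (hst : s ≠ t) (hs : s ∉ B) (ht : t ∉ B)
    (hgs : g s ∈ B) (hgt : g t ∈ B)
    (hr : Relation.ReflTransGen (stepIn ρ g B) (g s) (g t)) {g' : Perm S} (hg' : Inv g')
    (hle : ∀ x, g' x = x ∨ (x ∉ B ∧ g x ∉ B ∧ g' x = g x)) :
    Planar ρ (g' * swap s t) := by
  induction hn : B.card using Nat.strong_induction_on generalizing B g with
  | _ n ih =>
    -- the cell of `g s`
    set K := cyc ρ (g s) with hKdef
    have hK : ∀ x, ρ x ∈ K ↔ x ∈ K := cyc_cl ρ (g s)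
    have hcyc : ∀ x ∈ K, ∀ y ∈ K, SameCycle ρ x y := fun x hx y hy => cyc_cyc hx hy
    have hKs : g s ∈ K := mem_cyc.2 (SameCycle.refl _ _)
    have hKB : K ⊆ B := cyc_sub hB hgs
    have hsK : s ∉ K := fun h => hs (hKB h)
    have htK : t ∉ K := fun h => ht (hKB h)
    have hs' : g' s = s := by
      rcases hle s with h1 | ⟨-, h1, -⟩
      · exact h1
      · exact absurd hgs h1
    have ht' : g' t = t := by
      rcases hle t with h1 | ⟨-, h1, -⟩
      · exact h1
      · exact absurd hgt h1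
    have hi' : Inv (g' * swap s t) := hg'.glue hs' ht'
    rcases exit_of_reach hK hKs hr with h1 | ⟨a, ha, hgaB, hr'⟩
    · -- one cell
      obtain ⟨hP, hG⟩ := h.strip hg hK hcyc hst hsK htK hKs h1
      have h0s : off hg K s = s := off_of_mem' hg hKs
      have h0t : off hg K t = t := off_of_mem' hg h1
      refine Planar.mono ((off_inv hg K).glue h0s h0t) hi' (fun x => ?_)
        (hP.glue hst h0s h0t hG)
      rw [swap_apply_glued hs' ht', swap_apply_glued h0s h0t]
      split_ifs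
      · exact Or.inr rfl
      · exact Or.inr rfl
      · rcases hle x with h2 | ⟨h2, h3, h4⟩
        · exact Or.inl h2
        · right
          rw [h4, off_of_not hg (fun h5 => h2 (hKB h5)) fun h5 => h3 (hKB h5)]
    · -- the rest of the path
      set b := g a with hb
      obtain ⟨hbB, hbK⟩ := mem_sdiff.1 hgaB
      have hgb : g b = a := hg a
      have hsb : s ≠ b := fun h1 => hs (h1 ▸ hbB)
      have htb : t ≠ b := fun h1 => ht (h1 ▸ hbB)
      obtain ⟨hP, hG⟩ := h.strip hg hK hcyc hsb hsK hbK hKs (by rw [hgb]; exact ha)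
      have h0s : off hg K s = s := off_of_mem' hg hKs
      have h0b : off hg K b = b := off_of_mem' hg (by rw [hgb]; exact ha)
      have hi1 : Inv (off hg K * swap s b) := (off_inv hg K).glue h0s h0b
      have hv : ∀ x, (off hg K * swap s b) x = if x = s then b else if x = b then s else
          off hg K x := swap_apply_glued h0s h0b
      have hs1 : (off hg K * swap s b) s = b := by rw [hv, if_pos rfl]
      have htgB : g t ∈ B \ K := by
        rcases Relation.ReflTransGen.cases_tail hr' with h2 | ⟨c, -, h2⟩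
        · rw [h2]; exact hgaB
        · exact h2.1
      have htgK : g t ∉ K := (mem_sdiff.1 htgB).2
      have ht1 : (off hg K * swap s b) t = g t := by
        rw [hv, if_neg hst.symm, if_neg htb, off_of_not hg htK htgK]
      have hB' : ∀ x, ρ x ∈ B \ K ↔ x ∈ B \ K := fun x => by
        rw [mem_sdiff, mem_sdiff, hB, hK]
      refine ih (B \ K).card ?_ (g := off hg K * swap s b) hi1
        (hP.glue hsb h0s h0b hG) (B := B \ K) hB' (fun h1 => hs (mem_sdiff.1 h1).1)
        (fun h1 => ht (mem_sdiff.1 h1).1) (by rw [hs1]; exact hgaB)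
        (by rw [ht1]; exact htgB) ?_ (fun x => ?_) rfl
      · rw [← hn]
        exact card_lt_card ⟨sdiff_subset, fun h1 => (mem_sdiff.1 (h1 hgs)).2 hKs⟩
      · rw [hs1, ht1]
        -- the path stays a path
        have key : ∀ y, Relation.ReflTransGen (stepIn ρ g (B \ K)) b y → y ∈ B \ K ∧
            Relation.ReflTransGen (stepIn ρ (off hg K * swap s b) (B \ K)) b y := by
          intro y hy
          induction hy with
          | refl => exact ⟨hgaB, Relation.ReflTransGen.refl⟩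
          | @tail y z _ hyz ih2 =>
            refine ⟨hyz.1, ih2.2.tail ⟨hyz.1, ?_⟩⟩
            rcases hyz.2 with h3 | h3
            · exact Or.inl h3
            · right
              have hy1 : y ∉ K := (mem_sdiff.1 ih2.1).2
              have hy2 : g y ∉ K := by rw [← h3]; exact (mem_sdiff.1 hyz.1).2
              have hys : y ≠ s := fun h4 => hs (h4 ▸ (mem_sdiff.1 ih2.1).1)
              have hyb : y ≠ b := fun h4 => hy2 (by rw [h4, hgb]; exact ha)
              rw [hv, if_neg hys, if_neg hyb, off_of_not hg hy1 hy2, h3]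
        exact (key _ hr').2
      · rcases hle x with h2 | ⟨h2, h3, h4⟩
        · exact Or.inl h2
        · right
          have hxs : x ≠ s := fun h5 => h3 (by rw [h5]; exact hgs)
          have hxb : x ≠ b := fun h5 => h2 (by rw [h5]; exact hbB)
          have h5 : (off hg K * swap s b) x = g x := by
            rw [hv, if_neg hxs, if_neg hxb, off_of_not hg (fun h5 => h2 (hKB h5))
              fun h5 => h3 (hKB h5)]
          exact ⟨fun h6 => h2 (mem_sdiff.1 h6).1, fun h6 => h3 (by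
            rw [h5] at h6; exact (mem_sdiff.1 h6).1), by rw [h5]; exact h4⟩

/-- the region lemma as a statement about `Gl` -/
theorem Planar.region_gl {ρ g : Perm S} (hg : Inv g) (h : Planar ρ g) {B : Finset S}
    (hB : ∀ x, ρ x ∈ B ↔ x ∈ B) {s t : S} (hst : s ≠ t) (hs : s ∉ B) (ht : t ∉ B)
    (hgs : g s ∈ B) (hgt : g t ∈ B)
    (hr : Relation.ReflTransGen (stepIn ρ g B) (g s) (g t)) {g' : Perm S} (hg' : Inv g')
    (hle : ∀ x, g' x = x ∨ (x ∉ B ∧ g x ∉ B ∧ g' x = g x)) : Gl ρ g' s t := by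
  have hs' : g' s = s := by
    rcases hle s with h1 | ⟨-, h1, -⟩
    · exact h1
    · exact absurd hgs h1
  have ht' : g' t = t := by
    rcases hle t with h1 | ⟨-, h1, -⟩
    · exact h1
    · exact absurd hgt h1
  exact (Planar.of_glue hg' hst hs' ht' (h.region hg hB hst hs ht hgs hgt hr hg' hle)).2

end Toolkit

end Pool.Agent.Lib.MP06c549.Z
end
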