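import Pool.Agent.Lib.MP_06c549_co.Z.Cyc
import Pool.Agent.Lib.MP_06c549_co.Z.Base
import Pool.Agent.Lib.MP_06c549_co.Z.Squ
import Pool.Agent.Lib.MP_06c549_co.Z.Flip

section
/-!
# MP_06c549_co, Z: the curvature of the holes

`len σ s` = length of the cycle of `s`, `fre σ g s` = number of fixed points of `g` on this cycle.
Theorem `exists_positive`: if `(ρ, g)` is planar, all cycles of `ρ` have length four, and `g` is
trivial outside the nonempty `ρ`-invariant set `A`, then some cycle of `ρ * g` in `A` has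
`len < 2 * fre + 4`.
-/
set_option autoImplicit false
set_option linter.unusedSectionVars false

namespace Pool.Agent.Lib.MP06c549.Z

open Equiv Equiv.Perm Finset

variable {S : Type} [Fintype S] [DecidableEq S]

open Classical in
/-- the length of the cycle of `s` -/
noncomputable def len (σ : Perm S) (s : S) : ℕ := (univ.filter fun t => SameCycle σ s t).card

open Classical in
/-- the number of fixed points of `g` on the cycle of `s` -/
noncomputable def fre (σ g : Perm S) (s : S) : ℕ :=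
  (univ.filter fun t => SameCycle σ s t ∧ g t = t).card

lemma len_eq_of_sameCycle {σ : Perm S} {s t : S} (h : SameCycle σ s t) : len σ s = len σ t := by
  classical
  unfold len
  congr 1
  ext x
  simp only [mem_filter, mem_univ, true_and]
  exact ⟨fun h1 => h.symm.trans h1, fun h1 => h.trans h1⟩

lemma fre_eq_of_sameCycle {σ g : Perm S} {s t : S} (h : SameCycle σ s t) :
    fre σ g s = fre σ g t := by
  classical
  unfold fre
  congr 1
  ext x
  simp only [mem_filter, mem_univ, true_and]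
  exact ⟨fun h1 => ⟨h.symm.trans h1.1, h1.2⟩, fun h1 => ⟨h.trans h1.1, h1.2⟩⟩

section Classes

variable (r : Setoid S) [Fintype (Quotient r)] [DecidableEq (Quotient r)]

lemma sum_classes (w : S → ℤ) (v : Quotient r → ℤ)
    (h : ∀ s, ∑ t ∈ univ.filter (fun t => (Quotient.mk'' t : Quotient r) = Quotient.mk'' s), w t =
      v (Quotient.mk'' s)) : ∑ t, w t = ∑ q, v q := by
  rw [← Finset.sum_fiberwise (s := univ) (g := fun t => (Quotient.mk'' t : Quotient r)) (f := w)]
  refine sum_congr rfl fun q _ => ?_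
  induction q using Quotient.inductionOn' with
  | h s => exact h s

omit [DecidableEq S] [DecidableEq (Quotient r)] in
lemma ncl_eq : ncl r = Fintype.card (Quotient r) := by
  unfold ncl
  rw [Nat.card_eq_fintype_card]

end Classes

lemma mem_class {σ : Perm S} {s t : S} :
    ((Quotient.mk'' t : Quotient (SameCycle.setoid σ)) = Quotient.mk'' s) ↔ SameCycle σ s t := by
  rw [Quotient.eq'']
  exact ⟨fun h => SameCycle.symm h, fun h => SameCycle.symm h⟩

open Classical in
lemma filter_class (σ : Perm S) (s : S) :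
    (univ.filter fun t => (Quotient.mk'' t : Quotient (SameCycle.setoid σ)) = Quotient.mk'' s) =
      univ.filter fun t => SameCycle σ s t := by
  ext t
  simp only [mem_filter, mem_univ, true_and]
  exact mem_class

/-- if all cycles have `k` elements -/
lemma mul_ncyc (σ : Perm S) (k : ℕ) (h : ∀ s, len σ s = k) : k * ncyc σ = Fintype.card S := by
  classical
  have := Fintype.ofFinite (Quotient (SameCycle.setoid σ))
  have h1 := sum_classes (SameCycle.setoid σ) (fun _ => 1) (fun _ => (k : ℤ)) (by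
    intro s
    rw [filter_class, sum_const, ← h s]
    simp [len])
  rw [sum_const, sum_const, card_univ, card_univ] at h1
  unfold ncyc
  rw [ncl_eq]
  simp only [nsmul_eq_mul, mul_one] at h1
  rw [mul_comm]
  exact_mod_cast h1.symm

/-- the cycles of an involution -/
lemma two_mul_ncyc {g : Perm S} (hg : Inv g) :
    2 * ncyc g = Fintype.card S + (univ.filter fun t => g t = t).card := by
  classical
  have := Fintype.ofFinite (Quotient (SameCycle.setoid g))
  have key : ∀ s t, SameCycle g s t ↔ t = s ∨ t = g s := by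
    intro s t
    constructor
    · rintro ⟨n, hn⟩
      have h2 : g ^ 2 = 1 := by
        ext x
        rw [pow_two, Perm.mul_apply, hg x, Perm.one_apply]
      rcases Int.even_or_odd' n with ⟨m, rfl | rfl⟩
      · left
        rw [zpow_mul] at hn
        have h3 : g ^ (2 : ℤ) = 1 := by exact_mod_cast h2
        rw [h3, one_zpow, Perm.one_apply] at hn
        exact hn.symm
      · right
        rw [zpow_add, zpow_mul] at hn
        have h3 : g ^ (2 : ℤ) = 1 := by exact_mod_cast h2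
        rw [h3, one_zpow, one_mul, zpow_one] at hn
        exact hn.symm
    · rintro (rfl | rfl)
      · exact SameCycle.refl g t
      · exact ⟨1, by simp⟩
  have h1 := sum_classes (SameCycle.setoid g) (fun t => 1 + if g t = t then 1 else 0)
    (fun _ => (2 : ℤ)) (by
    intro s
    rw [filter_class]
    have h2 : (univ.filter fun t => SameCycle g s t) = {s, g s} := by
      ext t
      simp only [mem_filter, mem_univ, true_and, mem_insert, mem_singleton]
      exact key s t
    rw [h2]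
    by_cases h3 : g s = s
    · rw [h3]
      simp [h3]
    · rw [sum_pair (fun h => h3 h.symm), if_neg h3, if_neg (fun h => h3 (g.injective h))]
      norm_num)
  rw [sum_add_distrib, sum_const, sum_const, card_univ, card_univ, sum_boole] at h1
  unfold ncyc
  rw [ncl_eq]
  simp only [nsmul_eq_mul, mul_one] at h1
  rw [mul_comm]
  exact_mod_cast h1.symm

lemma len_four {ρ : Perm S} (h4 : ∀ s, ρ (ρ (ρ (ρ s))) = s) (h2 : ∀ s, ρ (ρ s) ≠ s) (s : S) :
    len ρ s = 4 := by
  classical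
  have h1 : ∀ x, ρ x ≠ x := fun x h => h2 x (by rw [h, h])
  have h3 : ∀ x, ρ (ρ (ρ x)) ≠ x := fun x h => h1 (ρ x) (by
    have h5 := h4 x
    rw [h] at h5
    rw [h5]
    exact h5)
  have hS : (univ.filter fun t => SameCycle ρ s t) = {s, ρ s, ρ (ρ s), ρ (ρ (ρ s))} := by
    ext t
    simp only [mem_filter, mem_univ, true_and, mem_insert, mem_singleton]
    constructor
    · intro h
      obtain ⟨n, -, -, hn⟩ := h.exists_pow_eq''
      have key : ∀ n : ℕ, ∀ x, ((ρ ^ n) x = x ∨ (ρ ^ n) x = ρ x ∨ (ρ ^ n) x = ρ (ρ x) ∨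
          (ρ ^ n) x = ρ (ρ (ρ x))) := by
        intro n
        induction n with
        | zero => intro x; left; simp
        | succ n ih =>
          intro x
          rw [pow_succ', Perm.mul_apply]
          rcases ih x with h | h | h | h
          · right; left; rw [h]
          · right; right; left; rw [h]
          · right; right; right; rw [h]
          · left; rw [h, h4]
      have := key n s
      rw [hn] at this
      exact this
    · rintro (h | h | h | h)
      · rw [h]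
      · exact ⟨1, by rw [h]; simp⟩
      · exact ⟨2, by rw [h]; rfl⟩
      · exact ⟨3, by rw [h]; rfl⟩
  unfold len
  rw [hS]
  have e1 : ρ s ≠ ρ (ρ s) := fun h => h1 s (ρ.injective h).symm
  have e2 : ρ s ≠ ρ (ρ (ρ s)) := fun h => h2 s (ρ.injective h).symm
  have e3 : ρ (ρ s) ≠ ρ (ρ (ρ s)) := fun h => e1 (ρ.injective h)
  rw [card_insert_of_notMem, card_insert_of_notMem, card_insert_of_notMem, card_singleton]
  · simpa using e3
  · simp [e1, e2]
  · simp [(h1 s).symm, (h2 s).symm, (h3 s).symm]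

lemma four_mul_ncyc {ρ : Perm S} (h4 : ∀ s, ρ (ρ (ρ (ρ s))) = s) (h2 : ∀ s, ρ (ρ s) ≠ s) :
    4 * ncyc ρ = Fintype.card S := mul_ncyc ρ 4 (len_four h4 h2)

/-- Euler's formula: `4 F + 2 n = 4 N + 8 c` -/
lemma euler {ρ g : Perm S} (h4 : ∀ s, ρ (ρ (ρ (ρ s))) = s) (h2 : ∀ s, ρ (ρ s) ≠ s) (hg : Inv g)
    (hp : Planar ρ g) : 4 * ncyc (ρ * g) + 2 * (univ.filter fun t => g t = t).card =
      Fintype.card S + 8 * ncl (comp ρ g) := by
  have e1 := four_mul_ncyc h4 h2
  have e2 := two_mul_ncyc hg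
  unfold Planar at hp
  rw [Nat.card_eq_fintype_card] at hp
  omega

/-- a hole of positive curvature -/
theorem exists_positive {ρ g : Perm S} (h4 : ∀ s, ρ (ρ (ρ (ρ s))) = s) (h2 : ∀ s, ρ (ρ s) ≠ s)
    (hg : Inv g) (hp : Planar ρ g) (A : Finset S) (hA : ∀ s ∈ A, ρ s ∈ A)
    (hgA : ∀ s, g s ≠ s → s ∈ A) (hne : A.Nonempty) :
    ∃ s ∈ A, len (ρ * g) s < 2 * fre (ρ * g) g s + 4 := by
  classical
  by_contra hcon
  push Not at hcon
  obtain ⟨a0, ha0⟩ := hne
  have hA' : ∀ s, s ∉ A → ρ s ∉ A := by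
    intro s hs h
    apply hs
    rw [← h4 s]
    exact hA _ (hA _ (hA _ h))
  have hgd : ∀ s, s ∉ A → g s = s := by
    intro s hs
    by_contra h
    exact hs (hgA s h)
  have hgl : ∀ s ∈ A, g s ∈ A := by
    intro s hs
    by_cases h : g s = s
    · rw [h]; exact hs
    · exact hgA _ fun h1 => h (by rw [hg s] at h1; exact h1.symm)
  -- the relation: live, or dead and on one cycle
  let r0 : Setoid S :=
    { r := fun x y => (x ∈ A ∧ y ∈ A) ∨ (x ∉ A ∧ y ∉ A ∧ SameCycle (ρ * g) x y)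
      iseqv := by
        refine ⟨fun x => ?_, ?_, ?_⟩
        · by_cases h : x ∈ A
          · exact Or.inl ⟨h, h⟩
          · exact Or.inr ⟨h, h, SameCycle.refl _ _⟩
        · rintro x y (h | h)
          · exact Or.inl ⟨h.2, h.1⟩
          · exact Or.inr ⟨h.2.1, h.1, h.2.2.symm⟩
        · rintro x y z (h | h) (k | k)
          · exact Or.inl ⟨h.1, k.2⟩
          · exact absurd h.2 k.1
          · exact absurd k.1 h.2.1
          · exact Or.inr ⟨h.1, k.2.1, h.2.2.trans k.2.2⟩ }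
  have hr0 : comp ρ g ≤ r0 := by
    refine comp_le_of (fun x => ?_) fun x => ?_
    · by_cases h : x ∈ A
      · exact Or.inl ⟨h, hA x h⟩
      · refine Or.inr ⟨h, hA' x h, ⟨1, ?_⟩⟩
        rw [zpow_one, Perm.mul_apply, hgd x h]
    · by_cases h : x ∈ A
      · exact Or.inl ⟨h, hgl x h⟩
      · rw [hgd x h]
  have hsc : ∀ x y, SameCycle (ρ * g) x y → r0 x y := fun x y h => hr0 (comp_of_mul h)
  have hliv : ∀ x y, SameCycle (ρ * g) x y → x ∈ A → y ∈ A := by
    intro x y h hx
    rcases hsc x y h with h1 | h1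
    · exact h1.2
    · exact absurd hx h1.1
  -- dead cycles
  have hdead : ∀ s, s ∉ A → len (ρ * g) s = 4 ∧ fre (ρ * g) g s = 4 := by
    intro s hs
    have h5 : ∀ t, SameCycle (ρ * g) s t ↔ SameCycle ρ s t := by
      have pw : ∀ n : ℕ, ∀ x, x ∉ A → ((ρ * g) ^ n) x = (ρ ^ n) x ∧ (ρ ^ n) x ∉ A := by
        intro n
        induction n with
        | zero => intro x hx; simpa using hx
        | succ n ih =>
          intro x hx
          obtain ⟨i1, i2⟩ := ih x hx
          rw [pow_succ', Perm.mul_apply, i1, Perm.mul_apply, hgd _ i2, pow_succ', Perm.mul_apply]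
          exact ⟨rfl, hA' _ i2⟩
      intro t
      constructor
      · intro h
        obtain ⟨n, -, -, hn⟩ := h.exists_pow_eq''
        refine ⟨(n : ℤ), ?_⟩
        rw [zpow_natCast, ← (pw n s hs).1, hn]
      · intro h
        obtain ⟨n, -, -, hn⟩ := h.exists_pow_eq''
        refine ⟨(n : ℤ), ?_⟩
        rw [zpow_natCast, (pw n s hs).1, hn]
    have h6 : len (ρ * g) s = 4 := by
      rw [← len_four h4 h2 s]
      unfold len
      congr 1
      ext t
      simp only [mem_filter, mem_univ, true_and]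
      exact h5 t
    refine ⟨h6, ?_⟩
    rw [← h6]
    unfold fre len
    congr 1
    ext t
    simp only [mem_filter, mem_univ, true_and]
    refine ⟨fun h => h.1, fun h => ⟨h, hgd t ?_⟩⟩
    intro ht
    exact hs (hliv t s h.symm ht)
  have := Fintype.ofFinite (Quotient (SameCycle.setoid (ρ * g)))
  have := Fintype.ofFinite (Quotient (comp ρ g))
  set Q := Quotient (SameCycle.setoid (ρ * g)) with hQ
  let w : S → ℤ := fun t => (if g t = t then 2 else 0) - 1
  let v : Q → ℤ := fun q => ∑ t ∈ univ.filter (fun t => (Quotient.mk'' t : Q) = q), w t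
  have hv : ∀ s, v (Quotient.mk'' s) = 2 * (fre (ρ * g) g s : ℤ) - len (ρ * g) s := by
    intro s
    show ∑ t ∈ univ.filter (fun t => (Quotient.mk'' t : Q) = Quotient.mk'' s), w t = _
    rw [filter_class, sum_sub_distrib, sum_const, nsmul_eq_mul, mul_one, ← sum_filter, sum_const,
      filter_filter, nsmul_eq_mul]
    unfold fre len
    ring
  have h1 : ∑ t, w t = ∑ q, v q := sum_classes (SameCycle.setoid (ρ * g)) w v fun s => rfl
  have h3 : ∑ t, w t = 2 * ((univ.filter fun t => g t = t).card : ℤ) - Fintype.card S := by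
    rw [sum_sub_distrib, sum_const, nsmul_eq_mul, mul_one, ← sum_filter, sum_const, card_univ,
      nsmul_eq_mul]
    ring
  -- live and dead cycles
  let live : Q → Prop := fun q => q.out ∈ A
  have hle : ∀ q, v q ≤ if live q then -4 else 4 := by
    intro q
    have h5 : v q = 2 * (fre (ρ * g) g q.out : ℤ) - len (ρ * g) q.out := by
      rw [← hv q.out]
      congr 1
      exact (Quotient.out_eq' q).symm
    rw [h5]
    split_ifs with h
    · have h6 := hcon q.out h
      have h7 : (2 : ℤ) * (fre (ρ * g) g q.out : ℤ) + 4 ≤ len (ρ * g) q.out := by exact_mod_cast h6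
      linarith
    · obtain ⟨h6, h7⟩ := hdead q.out h
      rw [h6, h7]
      norm_num
  have h5 : ∑ q, v q ≤ ∑ q : Q, if live q then (-4 : ℤ) else 4 := sum_le_sum fun q _ => hle q
  have h6 : (∑ q : Q, if live q then (-4 : ℤ) else 4) =
      -4 * (Fintype.card Q : ℤ) + 8 * ((univ.filter fun q => ¬ live q).card : ℤ) := by
    have h7 : ∀ q : Q, (if live q then (-4 : ℤ) else 4) = -4 + if ¬ live q then 8 else 0 := by
      intro q
      by_cases h : live q <;> simp [h]
    rw [sum_congr rfl fun q _ => h7 q, sum_add_distrib, sum_const, card_univ, ← sum_filter, sum_const,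
      nsmul_eq_mul, nsmul_eq_mul]
    ring
  have h7 : (univ.filter fun q => ¬ live q).card + 1 ≤ ncl (comp ρ g) := by
    have h8 : (univ.filter fun q => ¬ live q).card ≤
        (univ.erase (Quotient.mk'' a0 : Quotient (comp ρ g))).card := by
      refine card_le_card_of_injOn (fun q => (Quotient.mk'' q.out : Quotient (comp ρ g))) ?_ ?_
      · intro q hq
        have hq' : q.out ∉ A := (mem_filter.1 (mem_coe.1 hq)).2
        refine mem_coe.2 (mem_erase.2 ⟨fun h => ?_, mem_univ _⟩)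
        have h9 : comp ρ g q.out a0 := Quotient.eq''.1 h
        rcases hr0 h9 with h10 | h10
        · exact hq' h10.1
        · exact h10.2.1 ha0
      · intro q hq q' hq' h
        have hq1 : q.out ∉ A := (mem_filter.1 (mem_coe.1 hq)).2
        have h9 : comp ρ g q.out q'.out := Quotient.eq''.1 h
        rcases hr0 h9 with h10 | h10
        · exact absurd h10.1 hq1
        · rw [← Quotient.out_eq' q, ← Quotient.out_eq' q']
          exact Quotient.eq''.2 h10.2.2
    rw [card_erase_of_mem (mem_univ _), card_univ, ← ncl_eq] at h8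
    have h9 : 0 < ncl (comp ρ g) := by
      rw [ncl_eq]
      exact Fintype.card_pos_iff.2 ⟨Quotient.mk'' a0⟩
    omega
  have h8 := euler h4 h2 hg hp
  have h9 : ncyc (ρ * g) = Fintype.card Q := by
    unfold ncyc
    rw [ncl_eq]
  rw [h9] at h8
  have h10 : (4 : ℤ) * Fintype.card Q + 2 * ((univ.filter fun t => g t = t).card : ℤ) =
      Fintype.card S + 8 * ncl (comp ρ g) := by exact_mod_cast h8
  have h11 : ((univ.filter fun q => ¬ live q).card : ℤ) + 1 ≤ ncl (comp ρ g) := by exact_mod_cast h7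
  linarith

end Pool.Agent.Lib.MP06c549.Z
end

section
/-!
# MP_06c549_co, Z: modules SUMU and CUR for complexes

`sum_fans`, `sum_u`: `∑ fans v = |free|`, `∑ u v = 2 |free|` (sums over the labels of live sides).
`Good.exists_free`: every corner is in a fan, `fans (lab s) ≥ 1`.
`Good.u_eq`: if `u v ≤ 2 * fans v` for all `v` then `u v = 2 * fans v` for all `v`.
`Good.exists_positive`: a hole with `len < 2 * fre + 4`.
`Good.len_eq_sum`: without pinches `len = ∑ |cor (lab t)|` over the free sides `t` of the hole.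
`Good.exists_positive'`: without pinches, a hole `H` with `∑_{t ∈ H} |cor (lab t)| ≤ 2 |H| + 3`.
-/
set_option autoImplicit false
set_option linter.unusedSectionVars false

namespace Pool.Agent.Lib.MP06c549.Z

open Equiv Equiv.Perm Finset

variable {S : Type} [Fintype S] [DecidableEq S]

namespace Cx

variable {X : Cx S}

/-- the labels of the live sides -/
def labs (X : Cx S) : Finset ℕ := X.A.image X.lab

lemma mem_labs {s : S} (h : s ∈ X.A) : X.lab s ∈ X.labs := mem_image_of_mem _ h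

lemma mem_free {s : S} : s ∈ X.free ↔ s ∈ X.A ∧ X.g s = s := mem_filter

lemma mem_cor {v : ℕ} {s : S} : s ∈ X.cor v ↔ s ∈ X.A ∧ X.lab s = v := mem_filter

lemma sum_fans (X : Cx S) : ∑ v ∈ X.labs, X.fans v = X.free.card := by
  unfold fans
  refine (card_eq_sum_card_fiberwise fun s hs => ?_).symm
  exact mem_coe.2 (mem_labs (mem_free.1 (mem_coe.1 hs)).1)

lemma sum_cor (X : Cx S) (p : S → Prop) [DecidablePred p] :
    ∑ v ∈ X.labs, ((X.cor v).filter p).card = (X.A.filter p).card := by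
  rw [card_eq_sum_card_fiberwise (f := X.lab) (t := X.labs) (s := X.A.filter p) fun s hs =>
    mem_coe.2 (mem_labs (mem_filter.1 (mem_coe.1 hs)).1)]
  refine sum_congr rfl fun v _ => ?_
  congr 1
  ext s
  simp only [cor, mem_filter]
  tauto

namespace Good

variable (hX : X.Good)
include hX

lemma card_free_rho : (X.A.filter fun s => X.g (X.ρ s) = X.ρ s).card = X.free.card := by
  refine card_bij (fun s _ => X.ρ s) ?_ (fun a _ b _ h => X.ρ.injective h) ?_
  · intro s hs
    obtain ⟨h1, h2⟩ := mem_filter.1 hs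
    exact mem_free.2 ⟨hX.A_rho s h1, h2⟩
  · intro t ht
    obtain ⟨h1, h2⟩ := mem_free.1 ht
    refine ⟨X.ρ (X.ρ (X.ρ t)), mem_filter.2 ⟨?_, ?_⟩, hX.rho4 t⟩
    · exact hX.A_rho _ (hX.A_rho _ (hX.A_rho _ h1))
    · rw [hX.rho4]; exact h2

lemma card_free_rho2 :
    (X.A.filter fun s => X.g (X.ρ (X.ρ s)) = X.ρ (X.ρ s)).card = X.free.card := by
  refine card_bij (fun s _ => X.ρ (X.ρ s)) ?_
    (fun a _ b _ h => X.ρ.injective (X.ρ.injective h)) ?_
  · intro s hs
    obtain ⟨h1, h2⟩ := mem_filter.1 hs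
    exact mem_free.2 ⟨hX.A_rho _ (hX.A_rho s h1), h2⟩
  · intro t ht
    obtain ⟨h1, h2⟩ := mem_free.1 ht
    refine ⟨X.ρ (X.ρ t), mem_filter.2 ⟨?_, ?_⟩, hX.rho4 t⟩
    · exact hX.A_rho _ (hX.A_rho _ h1)
    · rw [hX.rho4]; exact h2

/-- the average of `u` is twice the average of `fans` -/
lemma sum_u : ∑ v ∈ X.labs, X.u v = 2 * X.free.card := by
  unfold u
  rw [sum_add_distrib, sum_cor, sum_cor, hX.card_free_rho, hX.card_free_rho2]
  ring

/-- one step inside a fan -/
lemma lab_step {s : S} (h : X.g s ≠ s) : X.lab ((X.ρ * X.g) s) = X.lab s := hX.lab_g' h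

/-- from a live side one comes, inside the fan, to a free side with the same label -/
lemma exists_free_pow {s : S} (hs : s ∈ X.A) : ∃ k : ℕ, ((X.ρ * X.g) ^ k) s ∈ X.free ∧
    X.lab (((X.ρ * X.g) ^ k) s) = X.lab s ∧
    ∀ j < k, ((X.ρ * X.g) ^ j) s ∉ X.free ∧ X.lab (((X.ρ * X.g) ^ j) s) = X.lab s := by
  classical
  have hA : ∀ j : ℕ, ((X.ρ * X.g) ^ j) s ∈ X.A := fun j =>
    (hX.conn_mem (hX.conn_cyc ⟨(j : ℤ), by rw [zpow_natCast]⟩)).1 hs
  obtain ⟨t, ht1, ht2⟩ := hX.lin s
  obtain ⟨n, -, -, hn⟩ := ht1.exists_pow_eq''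
  have hex : ∃ k : ℕ, ((X.ρ * X.g) ^ k) s ∈ X.free :=
    ⟨n, mem_free.2 ⟨hA n, by rw [hn]; exact ht2⟩⟩
  have hlab : ∀ j ≤ Nat.find hex, X.lab (((X.ρ * X.g) ^ j) s) = X.lab s := by
    intro j
    induction j with
    | zero => intro _; simp
    | succ j ih =>
      intro hj
      rw [pow_succ', Perm.mul_apply, hX.lab_step, ih (by omega)]
      intro h
      exact Nat.find_min hex (m := j) (by omega) (mem_free.2 ⟨hA j, h⟩)
  exact ⟨Nat.find hex, Nat.find_spec hex, hlab _ le_rfl,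
    fun j hj => ⟨Nat.find_min hex hj, hlab j hj.le⟩⟩

lemma exists_free {s : S} (hs : s ∈ X.A) :
    ∃ t ∈ X.free, X.lab t = X.lab s ∧ SameCycle (X.ρ * X.g) s t := by
  obtain ⟨k, h1, h2, -⟩ := hX.exists_free_pow hs
  exact ⟨_, h1, h2, ⟨(k : ℤ), by rw [zpow_natCast]⟩⟩

lemma one_le_fans {v : ℕ} (hv : v ∈ X.labs) : 1 ≤ X.fans v := by
  obtain ⟨s, hs, rfl⟩ := mem_image.1 hv
  obtain ⟨t, h1, h2, -⟩ := hX.exists_free hs
  exact card_pos.2 ⟨t, mem_filter.2 ⟨h1, h2⟩⟩

/-- if `u v ≤ 2 * fans v` for all vertices, then equality holds for all vertices -/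
lemma u_eq (h : ∀ v ∈ X.labs, X.u v ≤ 2 * X.fans v) : ∀ v ∈ X.labs, X.u v = 2 * X.fans v := by
  have h1 : ∑ v ∈ X.labs, X.u v = ∑ v ∈ X.labs, 2 * X.fans v := by
    rw [hX.sum_u, ← mul_sum, sum_fans]
  exact (sum_eq_sum_iff_of_le h).1 h1

/-- a hole of positive curvature -/
theorem exists_positive (hne : X.A.Nonempty) :
    ∃ s ∈ X.A, len (X.ρ * X.g) s < 2 * fre (X.ρ * X.g) X.g s + 4 :=
  Z.exists_positive hX.rho4 hX.rho2 X.inv hX.planar X.A hX.A_rho hX.A_g hne

open Classical in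
/-- without pinches: the length of a hole is the sum of the degrees of its vertices -/
theorem len_eq_sum (hinj : ∀ s ∈ X.free, ∀ t ∈ X.free, X.lab s = X.lab t → s = t) {s : S}
    (hs : s ∈ X.A) : len (X.ρ * X.g) s =
      ∑ t ∈ X.free.filter (fun t => SameCycle (X.ρ * X.g) s t), (X.cor (X.lab t)).card := by
  have hliv : ∀ x y, SameCycle (X.ρ * X.g) x y → x ∈ X.A → y ∈ X.A := fun x y h hx =>
    (hX.conn_mem (hX.conn_cyc h)).1 hx
  rw [← card_biUnion]
  · unfold len
    congr 1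
    ext x
    simp only [mem_filter, mem_univ, true_and, mem_biUnion]
    constructor
    · intro hx
      obtain ⟨t, h1, h2, h3⟩ := hX.exists_free (hliv s x hx hs)
      exact ⟨t, ⟨h1, hx.trans h3⟩, mem_cor.2 ⟨hliv s x hx hs, h2.symm⟩⟩
    · rintro ⟨t, ⟨h1, h2⟩, h3⟩
      obtain ⟨h4, h5⟩ := mem_cor.1 h3
      obtain ⟨t', k1, k2, k3⟩ := hX.exists_free h4
      have h6 : t' = t := hinj t' k1 t h1 (by rw [k2, h5])
      rw [h6] at k3
      exact h2.trans k3.symm
  · intro t ht t' ht' hne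
    refine disjoint_left.2 fun x hx hx' => hne ?_
    have h1 := (mem_cor.1 hx).2
    have h2 := (mem_cor.1 hx').2
    exact hinj t (mem_filter.1 ht).1 t' (mem_filter.1 ht').1 (by rw [← h1, ← h2])

open Classical in
lemma fre_eq {s : S} (hs : s ∈ X.A) : fre (X.ρ * X.g) X.g s =
    (X.free.filter fun t => SameCycle (X.ρ * X.g) s t).card := by
  unfold fre
  congr 1
  ext t
  simp only [mem_filter, mem_univ, true_and, mem_free]
  refine ⟨fun h => ⟨⟨(hX.conn_mem (hX.conn_cyc h.1)).1 hs, h.2⟩, h.1⟩, fun h => ⟨h.2, h.1.2⟩⟩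

open Classical in
/-- without pinches: a hole, with the set `H` of free sides, such that
`∑ |cor (lab t)| ≤ 2 |H| + 3` -/
theorem exists_positive' (hinj : ∀ s ∈ X.free, ∀ t ∈ X.free, X.lab s = X.lab t → s = t)
    (hne : X.A.Nonempty) : ∃ s ∈ X.free,
      ∑ t ∈ X.free.filter (fun t => SameCycle (X.ρ * X.g) s t), (X.cor (X.lab t)).card ≤
        2 * (X.free.filter fun t => SameCycle (X.ρ * X.g) s t).card + 3 := by
  obtain ⟨s, hs, h⟩ := hX.exists_positive hne
  obtain ⟨t, h1, -, h3⟩ := hX.exists_free hs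
  refine ⟨t, h1, ?_⟩
  have hA : t ∈ X.A := (mem_free.1 h1).1
  rw [← hX.len_eq_sum hinj hA, ← hX.fre_eq hA, ← len_eq_of_sameCycle h3, ← fre_eq_of_sameCycle h3]
  omega

end Good

end Cx

end Pool.Agent.Lib.MP06c549.Z
end

section
/-!
# MP_06c549_co, Z: cutting a bridge, cutting two gates
-/
set_option autoImplicit false
set_option linter.unusedSectionVars false

namespace Pool.Agent.Lib.MP06c549.Z

open Equiv Equiv.Perm Finset

variable {S : Type} [Fintype S] [DecidableEq S]

/-! ## Permutations -/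

/-- joining two cycles keeps the old relations -/
lemma SameCycle.swap_of_not {σ : Perm S} {a b x y : S} (h : ¬ SameCycle σ a b)
    (hxy : SameCycle σ x y) : SameCycle (σ * swap a b) x y := by
  have h1 := join_of_rel (r := SameCycle.setoid (σ * swap a b)) (sameCycle_of_not h)
  rw [join_swap] at h1
  have h2 : join (SameCycle.setoid σ) a b x y := le_join _ a b hxy
  rw [h1] at h2
  exact h2

/-- a path of `σ` from `a` to `b` on which `σ'` agrees with `σ` strictly inside -/
lemma SameCycle.path {σ σ' : Perm S} {a b : S} (h : SameCycle σ a b)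
    (h' : ∀ z, SameCycle σ a z → z ≠ a → z ≠ b → σ' z = σ z) : SameCycle σ' (σ a) b := by
  classical
  have hex : ∃ k : ℕ, 0 < k ∧ (σ ^ k) a = b := by
    obtain ⟨i, hi0, -, hi⟩ := h.exists_pow_eq''
    exact ⟨i, hi0, hi⟩
  set m := Nat.find hex with hm
  obtain ⟨hm0, hmb⟩ := Nat.find_spec hex
  have hmin : ∀ i, 0 < i → i < m → (σ ^ i) a ≠ b := fun i h1 h2 h3 => Nat.find_min hex h2 ⟨h1, h3⟩
  have hmina : ∀ i, 0 < i → i < m → (σ ^ i) a ≠ a := by
    intro i h1 h2 h3
    have h4 : (σ ^ (m - i)) a = b := by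
      have h5 : (σ ^ (m - i + i)) a = b := by rw [Nat.sub_add_cancel h2.le]; exact hmb
      rw [pow_add, Perm.mul_apply, h3] at h5
      exact h5
    exact hmin (m - i) (by omega) (by omega) h4
  have key : ∀ i, i < m → (σ' ^ i) (σ a) = (σ ^ (i + 1)) a := by
    intro i
    induction i with
    | zero => intro _; simp
    | succ i ih =>
      intro hi
      rw [pow_succ', Perm.mul_apply, ih (by omega), h' _ ⟨((i + 1 : ℕ) : ℤ), by rw [zpow_natCast]⟩
        (hmina _ (by omega) (by omega)) (hmin _ (by omega) (by omega)), ← Perm.mul_apply,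
        ← pow_succ']
  refine ⟨((m - 1 : ℕ) : ℤ), ?_⟩
  rw [zpow_natCast, key (m - 1) (by omega), Nat.sub_add_cancel (by omega)]
  exact hmb

/-- two permutations that agree on a closed set -/
lemma SameCycle.congr {σ σ' : Perm S} {B : Finset S} (hσ : ∀ x ∈ B, σ x ∈ B)
    (h : ∀ x ∈ B, σ' x = σ x) {a b : S} (ha : a ∈ B) (hab : SameCycle σ a b) :
    SameCycle σ' a b := by
  obtain ⟨n, -, -, hn⟩ := hab.exists_pow_eq''
  have key : ∀ k : ℕ, (σ ^ k) a ∈ B ∧ (σ' ^ k) a = (σ ^ k) a := by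
    intro k
    induction k with
    | zero => exact ⟨ha, rfl⟩
    | succ k ih =>
      rw [pow_succ', pow_succ', Perm.mul_apply, Perm.mul_apply, ih.2, h _ ih.1]
      exact ⟨hσ _ ih.1, rfl⟩
  refine ⟨(n : ℤ), ?_⟩
  rw [zpow_natCast, (key n).2, hn]

/-- connection inside a closed set -/
lemma comp_congr {ρ g g' : Perm S} {B : Finset S} (hρ : ∀ x, ρ x ∈ B ↔ x ∈ B)
    (hg : ∀ x, g x ∈ B ↔ x ∈ B) (h : ∀ x ∈ B, g' x = g x) {a b : S} (ha : a ∈ B)
    (hab : comp ρ g a b) : comp ρ g' a b := by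
  let q : Setoid S := ⟨fun x y => (x ∈ B ↔ y ∈ B) ∧ (x ∈ B → comp ρ g' x y),
    ⟨fun x => ⟨Iff.rfl, fun _ => (comp ρ g').refl x⟩,
      fun h => ⟨h.1.symm, fun hy => (comp ρ g').symm (h.2 (h.1.2 hy))⟩,
      fun h1 h2 => ⟨h1.1.trans h2.1, fun hx => (comp ρ g').trans (h1.2 hx) (h2.2 (h1.1.1 hx))⟩⟩⟩
  have h1 : comp ρ g ≤ q := by
    refine comp_le_of (fun x => ⟨(hρ x).symm, fun _ => comp_left x⟩) fun x =>
      ⟨(hg x).symm, fun hx => ?_⟩
    have h2 := comp_right (ρ := ρ) (g := g') x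
    rwa [h x hx] at h2
  exact (h1 hab).2 ha

namespace Cx

variable {X : Cx S}

/-! ## Connection through gates -/

/-- connection through gates -/
def gc (X : Cx S) : Setoid S := comp X.ρ X.g

lemma gc_rho (x : S) : X.gc x (X.ρ x) := comp_left x

lemma gc_g (x : S) : X.gc x (X.g x) := comp_right x

lemma Good.gc_conn (hX : X.Good) {x y : S} (h : X.gc x y) : X.conn x y :=
  (comp_le_of (q := X.conn) (fun x => conn_rho x) fun x => hX.conn_g) h

/-- in a pinch free complex connected sides are connected through gates -/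
lemma Good.conn_gc (hX : X.Good) (hpf : X.PF) {x y : S} (h : X.conn x y) : X.gc x y := by
  refine conn_le (q := X.gc) (fun x => comp_left x) (fun _ hx _ hy hxy => ?_) h
  obtain ⟨a, ha1, ha2, ha3⟩ := hX.exists_free hx
  obtain ⟨b, hb1, hb2, hb3⟩ := hX.exists_free hy
  have hab : a = b := hpf a (mem_free.1 ha1).1 b (mem_free.1 hb1).1 (mem_free.1 ha1).2
    (mem_free.1 hb1).2 (by rw [ha2, hb2, hxy])
  subst hab
  exact X.gc.trans (comp_of_mul ha3) (X.gc.symm (comp_of_mul hb3))

/-- gate connected implies that there is at most one component -/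
lemma Good.c_eq_one (hX : X.Good) (hne : X.A.Nonempty) (h : ∀ a ∈ X.A, ∀ b ∈ X.A, X.gc a b) :
    X.c = 1 := nc_eq_one hne fun a ha b hb => hX.gc_conn (h a ha b hb)

/-- the relation after cutting a gate -/
lemma gc_cut (s : S) : X.gc = join (X.cut s).gc s (X.g s) := by
  have h := comp_swap (ρ := X.ρ) (g := X.g * swap s (X.g s)) (unglue_left X.inv s) (unglue_right s)
  rw [mul_swap_mul] at h
  exact h

/-- the end labels of a gate: labels common to both sides of a cut -/
lemma sub_g_mem {B : Finset S} {x : S} (h1 : x ∈ B) (h2 : X.g x ∈ B) : (X.sub B).g x = X.g x := by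
  rw [sub_g, if_pos ⟨h1, h2⟩]

lemma sub_g_not {B : Finset S} {x : S} (h : X.g x ∉ B) : (X.sub B).g x = x := by
  rw [sub_g, if_neg fun hh => h hh.2]

/-! ## Partitions into two parts -/

/-- covers of two parts -/
lemma cov_union {B : Finset S} {C D : Finset ℕ} (h1 : (X.sub B).Cov C)
    (h2 : (X.sub (X.A \ B)).Cov D) : X.Cov (C ∪ D) := by
  intro s hs
  simp only [mem_union]
  by_cases hB : s ∈ B
  · have h3 : X.lab s ∈ C ∨ X.lab (X.ρ s) ∈ C ∨ X.lab (X.ρ (X.ρ s)) ∈ C ∨
      X.lab (X.ρ (X.ρ (X.ρ s))) ∈ C := h1 s (mem_inter.2 ⟨hs, hB⟩)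
    tauto
  · have h3 : X.lab s ∈ D ∨ X.lab (X.ρ s) ∈ D ∨ X.lab (X.ρ (X.ρ s)) ∈ D ∨
      X.lab (X.ρ (X.ρ (X.ρ s))) ∈ D := h2 s (mem_inter.2 ⟨hs, mem_sdiff.2 ⟨hs, hB⟩⟩)
    tauto

/-- covers of two parts with common elements -/
lemma tau_add_le {B : Finset S} {C D Q : Finset ℕ} (h1 : (X.sub B).Cov C)
    (h2 : (X.sub (X.A \ B)).Cov D) (hC : Q ⊆ C) (hD : Q ⊆ D) :
    X.tau + Q.card ≤ C.card + D.card := by
  have h3 := tau_le (cov_union h1 h2)
  have h4 := card_union_add_card_inter C D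
  have h5 : Q.card ≤ (C ∩ D).card := card_le_card (subset_inter hC hD)
  omega

lemma tau_le_parts (X : Cx S) (B : Finset S) :
    X.tau ≤ (X.sub B).tau + (X.sub (X.A \ B)).tau := by
  obtain ⟨C, hC, hc⟩ := (X.sub B).exists_cov
  obtain ⟨D, hD, hd⟩ := (X.sub (X.A \ B)).exists_cov
  have h := tau_add_le hC hD (empty_subset _) (empty_subset _)
  rw [card_empty] at h
  omega

/-- a partition of the cells into two gate connected parts with exactly the gates of the sides in
`F` (sides in `B`) between them -/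
structure Part (X : Cx S) (B F : Finset S) : Prop where
  sub : B ⊆ X.A
  cl : X.Cl B
  ne : B.Nonempty
  ne' : (X.A \ B).Nonempty
  F_sub : F ⊆ B
  F_g : ∀ x ∈ B, (x ∈ F ↔ X.g x ∉ B)
  conn : ∀ a ∈ B, ∀ b ∈ B, (X.sub B).gc a b
  conn' : ∀ a ∈ X.A \ B, ∀ b ∈ X.A \ B, (X.sub (X.A \ B)).gc a b

namespace Part

variable {B F : Finset S}

lemma A_eq (h : X.Part B F) : (X.sub B).A = B := inter_eq_right.2 h.sub

lemma A_eq' (_ : X.Part B F) : (X.sub (X.A \ B)).A = X.A \ B := inter_eq_right.2 sdiff_subset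

lemma cl' (hX : X.Good) (h : X.Part B F) : X.Cl (X.A \ B) := hX.cl_sdiff hX.cl_A h.cl

lemma card_lt (h : X.Part B F) : (X.sub B).A.card < X.A.card := by
  rw [h.A_eq]
  obtain ⟨a, ha⟩ := h.ne'
  exact card_lt_card ⟨h.sub, fun hh => (mem_sdiff.1 ha).2 (hh (mem_sdiff.1 ha).1)⟩

lemma card_lt' (h : X.Part B F) : (X.sub (X.A \ B)).A.card < X.A.card := by
  rw [h.A_eq']
  obtain ⟨a, ha⟩ := h.ne
  exact card_lt_card ⟨sdiff_subset, fun hh => (mem_sdiff.1 (hh (h.sub ha))).2 ha⟩

/-- the potential of the parts -/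
theorem P_add (hX : X.Good) (h : X.Part B F) (hc : X.c = 1) :
    (X.sub B).P + (X.sub (X.A \ B)).P = X.P + F.card + 1 := by
  have hB := hX.sub h.cl
  have hB' := hX.sub (h.cl' hX)
  have h1 := hX.P_eq
  have h2 := hB.P_eq
  have h3 := hB'.P_eq
  have hc1 : (X.sub B).c = 1 := hB.c_eq_one (by rw [h.A_eq]; exact h.ne)
    (by rw [h.A_eq]; exact h.conn)
  have hc2 : (X.sub (X.A \ B)).c = 1 := hB'.c_eq_one (by rw [h.A_eq']; exact h.ne')
    (by rw [h.A_eq']; exact h.conn')
  rw [hc] at h1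
  rw [hc1, h.A_eq] at h2
  rw [hc2, h.A_eq'] at h3
  have h4 : X.A.card = B.card + (X.A \ B).card := by
    have := card_sdiff_add_card_eq_card h.sub
    omega
  -- the support
  have hFne : ∀ x ∈ F, X.g x ≠ x := fun x hx hh =>
    (h.F_g x (h.F_sub hx)).1 hx (by rw [hh]; exact h.F_sub hx)
  have h5 : X.g.support = (X.sub B).g.support ∪ (X.sub (X.A \ B)).g.support ∪ (F ∪ F.image X.g) := by
    ext x
    rw [sub_support, sub_support]
    simp only [mem_union, mem_filter, mem_image, mem_sdiff]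
    constructor
    · intro hx
      have hxA := hX.supp_sub hx
      have hgA : X.g x ∈ X.A := hX.g_mem_iff.2 hxA
      by_cases hxB : x ∈ B
      · by_cases hgB : X.g x ∈ B
        · exact Or.inl (Or.inl ⟨hx, hxB, hgB⟩)
        · exact Or.inr (Or.inl ((h.F_g x hxB).2 hgB))
      · by_cases hgB : X.g x ∈ B
        · refine Or.inr (Or.inr ⟨X.g x, (h.F_g _ hgB).2 ?_, X.inv x⟩)
          rw [X.inv]
          exact hxB
        · exact Or.inl (Or.inr ⟨hx, ⟨hxA, hxB⟩, ⟨hgA, hgB⟩⟩)
    · rintro ((hx | hx) | (hx | ⟨y, hy, rfl⟩))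
      · exact hx.1
      · exact hx.1
      · exact mem_support.2 (hFne x hx)
      · rw [mem_support, X.inv]
        exact fun hh => hFne y hy hh.symm
  have h6 : X.g.support.card = (X.sub B).g.support.card + (X.sub (X.A \ B)).g.support.card +
      2 * F.card := by
    rw [h5, card_union_of_disjoint, card_union_of_disjoint, card_union_of_disjoint,
      card_image_of_injective _ X.g.injective]
    · ring
    · rw [disjoint_left]
      intro x hx hx'
      obtain ⟨y, hy, rfl⟩ := mem_image.1 hx'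
      exact (h.F_g y (h.F_sub hy)).1 hy (h.F_sub hx)
    · rw [disjoint_left, sub_support, sub_support]
      intro x hx hx'
      exact (mem_sdiff.1 (mem_filter.1 hx').2.1).2 (mem_filter.1 hx).2.1
    · rw [disjoint_left, sub_support, sub_support]
      intro x hx hx'
      rcases mem_union.1 hx' with h7 | h7
      · rcases mem_union.1 hx with h8 | h8
        · exact (h.F_g x (h.F_sub h7)).1 h7 (mem_filter.1 h8).2.2
        · exact (mem_sdiff.1 (mem_filter.1 h8).2.1).2 (h.F_sub h7)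
      · obtain ⟨y, hy, rfl⟩ := mem_image.1 h7
        rcases mem_union.1 hx with h8 | h8
        · exact (h.F_g y (h.F_sub hy)).1 hy (mem_filter.1 h8).2.1
        · have h9 := (mem_filter.1 h8).2.2
          rw [X.inv] at h9
          exact (mem_sdiff.1 h9).2 (h.F_sub hy)
  have h7 : (X.A.card : ℤ) = B.card + (X.A \ B).card := by exact_mod_cast h4
  have h8 : (X.g.support.card : ℤ) = (X.sub B).g.support.card +
    (X.sub (X.A \ B)).g.support.card + 2 * F.card := by exact_mod_cast h6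
  push_cast at h1 h2 h3
  linarith

/-- in a pinch free complex a label common to both parts is an end of a gate between them -/
theorem common (hX : X.Good) (hpf : X.PF) (h : X.Part B F) {a b : S} (ha : a ∈ B)
    (hb : b ∈ X.A \ B) (hab : X.lab a = X.lab b) :
    ∃ x ∈ F, X.lab a = X.lab x ∨ X.lab a = X.lab (X.g x) := by
  by_contra hcon
  push Not at hcon
  -- walk in the fan until the free side
  have key : ∀ c ∈ X.A, X.lab c = X.lab a → ∃ t ∈ X.free, X.lab t = X.lab a ∧ (c ∈ B ↔ t ∈ B) := by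
    intro c hcA hc
    obtain ⟨k, h1, h2, h3⟩ := hX.exists_free_pow hcA
    refine ⟨_, h1, by rw [h2, hc], ?_⟩
    have h4 : ∀ j ≤ k, (c ∈ B ↔ ((X.ρ * X.g) ^ j) c ∈ B) := by
      intro j
      induction j with
      | zero => intro _; simp
      | succ j ih =>
        intro hj
        have hj' := h3 j (by omega)
        rw [ih (by omega), pow_succ', Perm.mul_apply]
        set y := ((X.ρ * X.g) ^ j) c with hy
        have hyA : y ∈ X.A := (hX.conn_mem (hX.conn_cyc ⟨(j : ℤ), by rw [zpow_natCast]⟩)).1 hcA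
        have hyg : X.g y ≠ y := fun hh => hj'.1 (mem_free.2 ⟨hyA, hh⟩)
        have hylab : X.lab y = X.lab a := by rw [hj'.2, hc]
        rw [Perm.mul_apply, hX.cl_iff h.cl]
        -- the gate of `y` is not between the parts
        constructor
        · intro hyB
          by_contra hgB
          exact (hcon y ((h.F_g y hyB).2 hgB)).1 hylab.symm
        · intro hgB
          by_contra hyB
          have h5 : X.g y ∈ F := (h.F_g _ hgB).2 (by rw [X.inv]; exact hyB)
          exact (hcon _ h5).2 (by rw [X.inv]; exact hylab.symm)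
    exact h4 k le_rfl
  obtain ⟨t, ht1, ht2, ht3⟩ := key a (h.sub ha) rfl
  obtain ⟨t', ht1', ht2', ht3'⟩ := key b (mem_sdiff.1 hb).1 hab.symm
  have htt : t = t' := hpf t (mem_free.1 ht1).1 t' (mem_free.1 ht1').1 (mem_free.1 ht1).2
    (mem_free.1 ht1').2 (by rw [ht2, ht2'])
  exact (mem_sdiff.1 hb).2 (ht3'.2 (htt ▸ ht3.1 ha))

end Part

/-! ## Slacks in a minimal counterexample -/

/-- the slack -/
noncomputable def sl (X : Cx S) : ℤ := X.P - 4 * X.tau

namespace Part

variable {B F : Finset S}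

lemma sl_nonneg (hX : X.Min) (h : X.Part B F) : 0 ≤ (X.sub B).sl := by
  have h1 := hX.ih S (X.sub B) (hX.good.sub h.cl) h.card_lt
  unfold sl
  linarith

lemma sl_nonneg' (hX : X.Min) (h : X.Part B F) : 0 ≤ (X.sub (X.A \ B)).sl := by
  have h1 := hX.ih S (X.sub (X.A \ B)) (hX.good.sub (h.cl' hX.good)) h.card_lt'
  unfold sl
  linarith

/-- the slacks of the two parts -/
theorem slack (hX : X.Min) (h : X.Part B F) (h1 : 1 ≤ F.card) (h3 : F.card ≤ 3) :
    X.tau = (X.sub B).tau + (X.sub (X.A \ B)).tau ∧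
      (X.sub B).sl + (X.sub (X.A \ B)).sl = F.card := by
  obtain ⟨x, hx⟩ := card_pos.1 (show 0 < F.card by omega)
  have hxg : X.g x ≠ x := fun hh => (h.F_g x (h.F_sub hx)).1 hx (by rw [hh]; exact h.F_sub hx)
  have h4 := hX.P_eq hxg
  have h5 := h.P_add hX.good hX.c_eq
  have h6 := h.sl_nonneg hX
  have h7 := h.sl_nonneg' hX
  have h8 := X.tau_le_parts B
  unfold sl at *
  omega

end Part

/-! ## Parts from classes -/

/-- the class of `s` -/
noncomputable def side (X : Cx S) (s : S) : Finset S := by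
  classical exact X.A.filter fun x => X.gc s x

lemma mem_side {s x : S} : x ∈ X.side s ↔ x ∈ X.A ∧ X.gc s x := by
  classical
  unfold side
  rw [mem_filter]

/-- a part from a class after cutting gates -/
theorem Good.part_of (hX : X.Good) {Y : Cx S} (hY : Y.Good) (hA : Y.A = X.A) (hρ : Y.ρ = X.ρ)
    (hg : ∀ x, Y.g x = x ∨ Y.g x = X.g x) {a b : S} (ha : a ∈ X.A) (hb : b ∈ X.A)
    (hab : ¬ Y.gc a b) (hcov : ∀ x ∈ X.A, Y.gc a x ∨ Y.gc b x)
    (hsep : ∀ x, X.g x ≠ Y.g x → ¬ Y.gc x (X.g x)) {F : Finset S}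
    (hF : ∀ x, x ∈ F ↔ x ∈ Y.side a ∧ X.g x ≠ Y.g x) : X.Part (Y.side a) F := by
  have hmem : ∀ x, x ∈ Y.side a ↔ x ∈ X.A ∧ Y.gc a x := fun x => by rw [mem_side, hA]
  have hrho : ∀ x, X.ρ x ∈ Y.side a ↔ x ∈ Y.side a := by
    intro x
    rw [hmem, hmem, hX.A_rho_iff, ← hρ]
    refine and_congr_right fun _ => ⟨fun hh => ?_, fun hh => ?_⟩
    · exact Y.gc.trans hh (Y.gc.symm (gc_rho x))
    · exact Y.gc.trans hh (gc_rho x)
  have hgm : ∀ x, Y.g x ∈ Y.side a ↔ x ∈ Y.side a := by
    intro x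
    rw [mem_side, mem_side, hY.g_mem_iff]
    refine and_congr_right fun _ => ⟨fun hh => ?_, fun hh => ?_⟩
    · exact Y.gc.trans hh (Y.gc.symm (gc_g x))
    · exact Y.gc.trans hh (gc_g x)
  have ha1 : a ∈ Y.side a := (hmem a).2 ⟨ha, Y.gc.refl a⟩
  have hb1 : b ∉ Y.side a := fun hh => hab ((hmem b).1 hh).2
  have hb2 : ∀ x ∈ X.A \ Y.side a, Y.gc b x := fun x hx =>
    (hcov x (mem_sdiff.1 hx).1).resolve_left fun hh =>
      (mem_sdiff.1 hx).2 ((hmem x).2 ⟨(mem_sdiff.1 hx).1, hh⟩)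
  have hF1 : ∀ x ∈ Y.side a, (x ∈ F ↔ X.g x ∉ Y.side a) := by
    intro x hx
    rw [hF]
    constructor
    · rintro ⟨-, h1⟩ h2
      exact hsep x h1 (Y.gc.trans (Y.gc.symm ((hmem x).1 hx).2) ((hmem _).1 h2).2)
    · intro h1
      refine ⟨hx, fun h2 => h1 ?_⟩
      rw [h2]
      exact (hgm x).2 hx
  refine ⟨?_, fun x hx => (hrho x).2 hx, ⟨a, ha1⟩, ⟨b, mem_sdiff.2 ⟨hb, hb1⟩⟩, ?_, hF1, ?_, ?_⟩
  · intro x hx
    exact ((hmem x).1 hx).1
  · intro x hx
    exact ((hF x).1 hx).1
  · intro x hx y hy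
    have h2 : Y.gc x y := Y.gc.trans (Y.gc.symm ((hmem x).1 hx).2) ((hmem y).1 hy).2
    unfold gc at h2 ⊢
    rw [hρ] at h2
    refine comp_congr (B := Y.side a) hrho hgm (fun z hz => ?_) hx h2
    by_cases h3 : X.g z ∈ Y.side a
    · rw [sub_g_mem hz h3]
      by_contra h4
      exact ((hF1 z hz).1 ((hF z).2 ⟨hz, h4⟩)) h3
    · rw [sub_g_not h3]
      rcases hg z with h4 | h4
      · exact h4.symm
      · exact absurd (by rw [← h4]; exact (hgm z).2 hz) h3
  · have hrho' : ∀ x, X.ρ x ∈ X.A \ Y.side a ↔ x ∈ X.A \ Y.side a := by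
      intro x
      rw [mem_sdiff, mem_sdiff, hX.A_rho_iff, hrho]
    have hgm' : ∀ x, Y.g x ∈ X.A \ Y.side a ↔ x ∈ X.A \ Y.side a := by
      intro x
      have h1 : Y.g x ∈ Y.A ↔ x ∈ Y.A := hY.g_mem_iff
      rw [hA] at h1
      rw [mem_sdiff, mem_sdiff, h1, hgm]
    intro x hx y hy
    have h2 : Y.gc x y := Y.gc.trans (Y.gc.symm (hb2 x hx)) (hb2 y hy)
    unfold gc at h2 ⊢
    rw [hρ] at h2
    refine comp_congr (B := X.A \ Y.side a) hrho' hgm' (fun z hz => ?_) hx h2
    by_cases h3 : X.g z = Y.g z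
    · rw [← h3, sub_g_mem hz]
      rw [h3]
      exact (hgm' z).2 hz
    · have h4 : Y.g z = z := (hg z).resolve_right fun hh => h3 hh.symm
      rw [h4, sub_g_not]
      intro h5
      exact hsep z h3 (Y.gc.trans (Y.gc.symm (hb2 z hz)) (hb2 _ h5))

/-! ## A bridge -/

lemma cut_g_left (s : S) : (X.cut s).g s = s := unglue_left X.inv s

lemma cut_g_right (s : S) : (X.cut s).g (X.g s) = X.g s := unglue_right s

lemma cut_g_of_ne {s x : S} (h1 : x ≠ s) (h2 : x ≠ X.g s) : (X.cut s).g x = X.g x :=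
  unglue_of_ne h1 h2

/-- the two ends of the gate `s` lie on one hole: cutting it separates two parts -/
theorem Good.bridge (hX : X.Good) (hc : ∀ a ∈ X.A, ∀ b ∈ X.A, X.gc a b) {s : S} (hs : X.g s ≠ s)
    (h : SameCycle (X.ρ * X.g) s (X.g s)) :
    X.Part ((X.cut s).side s) {s} ∧ s ∈ (X.cut s).side s ∧ X.g s ∉ (X.cut s).side s := by
  have hsA : s ∈ X.A := hX.A_g s hs
  have hgA : X.g s ∈ X.A := hX.g_mem hs
  have h1 : ¬ (X.cut s).gc s (X.g s) := (Planar.bridge_iff (g := X.g) X.inv hX.planar hs).1 h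
  have hs1 : s ∈ (X.cut s).side s := mem_side.2 ⟨hsA, (X.cut s).gc.refl s⟩
  have hgB : X.g s ∉ (X.cut s).side s := fun hh => h1 (mem_side.1 hh).2
  refine ⟨hX.part_of (Y := X.cut s) (hX.cut s) rfl rfl (cut_le s) hsA hgA h1 ?_ ?_ ?_, hs1, hgB⟩
  · intro x hx
    have h2 := hc s hsA x hx
    rw [gc_cut s] at h2
    rcases h2 with h2 | ⟨-, h2⟩ | ⟨-, h2⟩
    · exact Or.inl h2
    · exact Or.inr h2
    · exact Or.inl h2
  · intro x hx
    by_cases h3 : x = s
    · rw [h3]; exact h1
    by_cases h4 : x = X.g s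
    · rw [h4, X.inv]
      exact fun hh => h1 ((X.cut s).gc.symm hh)
    · exact absurd (cut_g_of_ne h3 h4).symm hx
  · intro x
    rw [mem_singleton]
    constructor
    · rintro rfl
      exact ⟨hs1, by rw [cut_g_left]; exact hs⟩
    · rintro ⟨h3, h4⟩
      by_contra h5
      have h6 : x ≠ X.g s := fun hh => hgB (hh ▸ h3)
      exact h4 (cut_g_of_ne h5 h6).symm

/-- no bridge: the ends of the gate lie on different holes -/
theorem Good.not_bridge (hX : X.Good) (hc : ∀ a ∈ X.A, ∀ b ∈ X.A, X.gc a b) {s : S}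
    (hs : X.g s ≠ s) (h : ¬ SameCycle (X.ρ * X.g) s (X.g s)) :
    ∀ a ∈ X.A, ∀ b ∈ X.A, (X.cut s).gc a b := by
  have h1 : (X.cut s).gc s (X.g s) := by
    by_contra hh
    exact h ((Planar.bridge_iff (g := X.g) X.inv hX.planar hs).2 hh)
  intro a ha b hb
  have h2 := hc a ha b hb
  rwa [gc_cut s, join_of_rel h1] at h2

/-! ## Two gates -/

/-- Two gates from one hole to another one: cutting them separates two parts, `t` and `g s` are in
the first part, `s` and `g t` in the second one. -/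
theorem Good.two_cut (hX : X.Good) (hc : ∀ a ∈ X.A, ∀ b ∈ X.A, X.gc a b) {s t : S}
    (hs : X.g s ≠ s) (ht : X.g t ≠ t) (hst : t ≠ s)
    (h1 : SameCycle (X.ρ * X.g) s t) (h2 : SameCycle (X.ρ * X.g) (X.g s) (X.g t))
    (h3 : ¬ SameCycle (X.ρ * X.g) s (X.g s)) :
    ∃ B, X.Part B {t, X.g s} ∧ s ∉ B ∧ X.g t ∉ B ∧
      SameCycle (X.ρ * (X.sub B).g) t (X.g s) ∧
      SameCycle (X.ρ * (X.sub (X.A \ B)).g) s (X.g t) := by
  have hsA : s ∈ X.A := hX.A_g s hs
  have htA : t ∈ X.A := hX.A_g t ht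
  have hgtA : X.g t ∈ X.A := hX.g_mem ht
  have hgsA : X.g s ∈ X.A := hX.g_mem hs
  have htgs : t ≠ X.g s := fun hh => h3 (hh ▸ h1)
  have hgts : X.g t ≠ s := fun hh => htgs (by rw [← hh, X.inv])
  have hgtgs : X.g t ≠ X.g s := fun hh => hst (X.g.injective hh)
  set Y := X.cut s with hY
  set Z := Y.cut t with hZ
  have hYg : Y.g t = X.g t := cut_g_of_ne hst htgs
  have hYgt : Y.g (X.g t) = t := by rw [cut_g_of_ne hgts hgtgs, X.inv]
  have hYt : Y.g t ≠ t := by rw [hYg]; exact ht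
  -- values of `Z.g`
  have hZt : Z.g t = t := cut_g_left t
  have hZgt : Z.g (X.g t) = X.g t := by
    have := cut_g_right (X := Y) t
    rwa [hYg] at this
  have hZs : Z.g s = s := by
    rw [hZ, cut_g_of_ne (Ne.symm hst) (by rw [hYg]; exact hgts.symm)]
    exact cut_g_left s
  have hZgs : Z.g (X.g s) = X.g s := by
    rw [hZ, cut_g_of_ne htgs.symm (by rw [hYg]; exact hgtgs.symm)]
    exact cut_g_right s
  have hZo : ∀ x, x ≠ s → x ≠ X.g s → x ≠ t → x ≠ X.g t → Z.g x = X.g x := by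
    intro x a1 a2 a3 a4
    rw [hZ, cut_g_of_ne a3 (by rw [hYg]; exact a4), hY, cut_g_of_ne a1 a2]
  have hZle : ∀ x, Z.g x = x ∨ Z.g x = X.g x := by
    intro x
    by_cases a1 : x = s
    · rw [a1]; exact Or.inl hZs
    by_cases a2 : x = X.g s
    · rw [a2]; exact Or.inl hZgs
    by_cases a3 : x = t
    · rw [a3]; exact Or.inl hZt
    by_cases a4 : x = X.g t
    · rw [a4]; exact Or.inl hZgt
    exact Or.inr (hZo x a1 a2 a3 a4)
  -- paths
  have hst' : ∀ z, SameCycle (X.ρ * X.g) s z → z ≠ X.g s ∧ z ≠ X.g t := fun z hz =>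
    ⟨fun hh => h3 (hh ▸ hz), fun hh => h3 ((hh ▸ hz).trans h2.symm)⟩
  have hgs' : ∀ z, SameCycle (X.ρ * X.g) (X.g s) z → z ≠ s ∧ z ≠ t := fun z hz =>
    ⟨fun hh => h3 (hh ▸ hz).symm, fun hh => h3 (h1.trans (hh ▸ hz).symm)⟩
  have hσ : ∀ x, (X.ρ * X.g) x = X.ρ (X.g x) := fun x => rfl
  have hσ' : ∀ x, (X.ρ * Z.g) x = X.ρ (Z.g x) := fun x => rfl
  -- from `g t` to `g s`
  have p1 : SameCycle (X.ρ * Z.g) t (X.g s) := by
    have h4 := SameCycle.path (σ' := X.ρ * Z.g) h2.symm (fun z hz z1 z2 => by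
      obtain ⟨z3, z4⟩ := hgs' z (h2.trans hz)
      rw [hσ, hσ', hZo z z3 z2 z4 z1])
    rw [hσ, X.inv] at h4
    exact (SameCycle.trans ⟨1, by rw [zpow_one, hσ', hZt]⟩ h4)
  -- from `t` to `s`
  have p2 : SameCycle (X.ρ * Z.g) (X.g t) s := by
    have h4 := SameCycle.path (σ' := X.ρ * Z.g) h1.symm (fun z hz z1 z2 => by
      obtain ⟨z3, z4⟩ := hst' z (h1.trans hz)
      rw [hσ, hσ', hZo z z2 z3 z1 z4])
    rw [hσ] at h4
    exact (SameCycle.trans ⟨1, by rw [zpow_one, hσ', hZgt]⟩ h4)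
  -- `t` is a bridge of `Y`
  have h5 : SameCycle (Y.ρ * Y.g) t (Y.g t) := by
    rw [hYg]
    have e1 : SameCycle (X.ρ * X.g * swap s (X.g s)) s (X.g s) := sameCycle_of_not h3
    have e2 : SameCycle (X.ρ * X.g * swap s (X.g s)) s t := SameCycle.swap_of_not h3 h1
    have e3 : SameCycle (X.ρ * X.g * swap s (X.g s)) (X.g s) (X.g t) := SameCycle.swap_of_not h3 h2
    exact e2.symm.trans (e1.trans e3)
  have hYG : Y.Good := hX.cut s
  have hZG : Z.Good := hYG.cut t
  have h6 : ¬ Z.gc t (X.g t) := by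
    intro hh
    have h7 : Z.gc t (Y.g t) := by rw [hYg]; exact hh
    exact (Planar.bridge_iff (g := Y.g) Y.inv hYG.planar hYt).1 h5 h7
  have hYc := hX.not_bridge hc hs h3
  have g1 : Z.gc t (X.g s) := comp_of_mul p1
  have g2 : Z.gc (X.g t) s := comp_of_mul p2
  have htB : t ∈ Z.side t := mem_side.2 ⟨htA, Z.gc.refl t⟩
  have hgtB : X.g t ∉ Z.side t := fun hh => h6 (mem_side.1 hh).2
  have hsB : s ∉ Z.side t := fun hh => h6 (Z.gc.trans (mem_side.1 hh).2 (Z.gc.symm g2))
  have hgsB : X.g s ∈ Z.side t := mem_side.2 ⟨hgsA, g1⟩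
  have hpart : X.Part (Z.side t) {t, X.g s} := by
    refine hX.part_of hZG rfl rfl hZle htA hgtA h6 ?_ ?_ ?_
    · intro x hx
      have h7 := hYc t htA x hx
      rw [gc_cut (X := Y) t, hYg] at h7
      rcases h7 with h7 | ⟨-, h7⟩ | ⟨-, h7⟩
      · exact Or.inl h7
      · exact Or.inr h7
      · exact Or.inl h7
    · intro x hx
      by_cases a1 : x = s
      · rw [a1]
        exact fun hh => h6 (Z.gc.trans g1 (Z.gc.trans (Z.gc.symm hh) (Z.gc.symm g2)))
      by_cases a2 : x = X.g s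
      · rw [a2, X.inv]
        exact fun hh => h6 (Z.gc.trans g1 (Z.gc.trans hh (Z.gc.symm g2)))
      by_cases a3 : x = t
      · rw [a3]; exact h6
      by_cases a4 : x = X.g t
      · rw [a4, X.inv]
        exact fun hh => h6 (Z.gc.symm hh)
      exact absurd (hZo x a1 a2 a3 a4).symm hx
    · intro x
      rw [mem_insert, mem_singleton]
      constructor
      · rintro (rfl | rfl)
        · exact ⟨htB, by rw [hZt]; exact ht⟩
        · exact ⟨hgsB, by rw [hZgs, X.inv]; exact hs.symm⟩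
      · rintro ⟨h7, h8⟩
        by_contra h9
        push Not at h9
        have h10 : x ≠ s := fun hh => hsB (hh ▸ h7)
        have h11 : x ≠ X.g t := fun hh => hgtB (hh ▸ h7)
        exact h8 (hZo x h10 h9.2 h9.1 h11).symm
  refine ⟨Z.side t, hpart, hsB, hgtB, ?_, ?_⟩
  · refine SameCycle.congr (σ := X.ρ * Z.g) (B := Z.side t) (fun x hx => ?_) (fun x hx => ?_) htB p1
    · rw [mem_side] at hx ⊢
      refine ⟨hX.A_rho _ ((hZG.g_mem_iff (X := Z)).2 hx.1), ?_⟩
      exact Z.gc.trans hx.2 (Z.gc.trans (gc_g x) (gc_rho _))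
    · rw [Perm.mul_apply, Perm.mul_apply]
      congr 1
      by_cases h7 : X.g x ∈ Z.side t
      · have a1 : x ≠ s := fun hh => hsB (hh ▸ hx)
        have a2 : x ≠ X.g s := fun hh => hsB (by rw [hh, X.inv] at h7; exact h7)
        have a3 : x ≠ t := fun hh => hgtB (hh ▸ h7)
        have a4 : x ≠ X.g t := fun hh => hgtB (hh ▸ hx)
        rw [sub_g_mem hx h7, hZo x a1 a2 a3 a4]
      · rw [sub_g_not h7]
        have h8 := (hpart.F_g x hx).2 h7
        rw [mem_insert, mem_singleton] at h8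
        rcases h8 with h8 | h8
        · rw [h8]; exact hZt.symm
        · rw [h8]; exact hZgs.symm
  · have hsB' : s ∈ X.A \ Z.side t := mem_sdiff.2 ⟨hsA, hsB⟩
    refine SameCycle.congr (σ := X.ρ * Z.g) (B := X.A \ Z.side t) (fun x hx => ?_)
      (fun x hx => ?_) hsB' p2.symm
    · rw [mem_sdiff, mem_side] at hx ⊢
      refine ⟨hX.A_rho _ ((hZG.g_mem_iff (X := Z)).2 hx.1), fun hh => hx.2 ⟨hx.1, ?_⟩⟩
      exact Z.gc.trans hh.2 (Z.gc.symm (Z.gc.trans (gc_g x) (gc_rho _)))
    · rw [Perm.mul_apply, Perm.mul_apply]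
      congr 1
      have hx' := (mem_sdiff.1 hx).2
      by_cases h7 : X.g x ∈ X.A \ Z.side t
      · have h7' := (mem_sdiff.1 h7).2
        have a1 : x ≠ s := fun hh => h7' (hh ▸ hgsB)
        have a2 : x ≠ X.g s := fun hh => hx' (hh ▸ hgsB)
        have a3 : x ≠ t := fun hh => hx' (hh ▸ htB)
        have a4 : x ≠ X.g t := fun hh => h7' (by rw [hh, X.inv]; exact htB)
        rw [sub_g_mem hx h7, hZo x a1 a2 a3 a4]
      · rw [sub_g_not h7]
        have h8 : X.g x ∈ Z.side t := by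
          by_contra h9
          exact h7 (mem_sdiff.2 ⟨hX.g_mem_iff.2 (mem_sdiff.1 hx).1, h9⟩)
        have h9 := (hpart.F_g (X.g x) h8).2 (by rw [X.inv]; exact hx')
        rw [mem_insert, mem_singleton] at h9
        rcases h9 with h9 | h9
        · have h10 : x = X.g t := by rw [← h9, X.inv]
          rw [h10]; exact hZgt.symm
        · have h10 : x = s := X.g.injective h9
          rw [h10]; exact hZs.symm

end Cx

end Pool.Agent.Lib.MP06c549.Z
end

section
/-!
# MP_06c549_co, Z: the parts and two-gate cuts are in `Z.TwoCut`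
-/
end

section
/-!
# MP_06c549_co, Z: positions in a fan, parts, the two-cut

`At f k x`: the corner `x` is `k` steps before the end `f` of its fan. `P_parts`, `tau_parts`,
`not_fr_parts`: potential, hitting sets of two parts. `TwoCut s t`: the gates of `s` and `t` are no
bridges, but they are a cut together; `part s t` is the part that contains `t`.
-/
set_option autoImplicit false
set_option linter.unusedSectionVars false

namespace Pool.Agent.Lib.MP06c549.Z

open Equiv Equiv.Perm Finset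

variable {S : Type} [Fintype S] [DecidableEq S]

namespace Cx

variable {X : Cx S}

/-- a degenerate cell of type L (cap): the corners of `z` and `ρ² z` have the same label, the sides
`z`, `ρ z` are glued, `ρ² z`, `ρ³ z` are free, and the label of `ρ³ z` occurs only there -/
def TL (X : Cx S) (z : S) : Prop :=
  z ∈ X.A ∧ X.g z ≠ z ∧ X.g (X.ρ z) ≠ X.ρ z ∧ X.g (X.ρ (X.ρ z)) = X.ρ (X.ρ z) ∧
    X.g (X.ρ (X.ρ (X.ρ z))) = X.ρ (X.ρ (X.ρ z)) ∧ X.lab (X.ρ (X.ρ z)) = X.lab z ∧
    ∀ x ∈ X.A, X.lab x = X.lab (X.ρ (X.ρ (X.ρ z))) → x = X.ρ (X.ρ (X.ρ z))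

/-! ## Positions in a fan -/

/-- `x` is `k` steps before the free side `f` that ends its fan -/
def At (X : Cx S) (f : S) (k : ℕ) (x : S) : Prop :=
  ((X.ρ * X.g) ^ k) x = f ∧ ∀ j < k, X.g (((X.ρ * X.g) ^ j) x) ≠ ((X.ρ * X.g) ^ j) x

lemma at_zero {f x : S} : X.At f 0 x ↔ x = f := by
  unfold At
  simp

lemma at_succ {f x : S} {k : ℕ} :
    X.At f (k + 1) x ↔ X.g x ≠ x ∧ X.At f k (X.ρ (X.g x)) := by
  unfold At
  constructor
  · rintro ⟨h1, h2⟩
    refine ⟨by simpa using h2 0 (by omega), ?_, fun j hj => ?_⟩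
    · rw [pow_succ, Perm.mul_apply, Perm.mul_apply] at h1
      exact h1
    · have h3 := h2 (j + 1) (by omega)
      rw [pow_succ, Perm.mul_apply, Perm.mul_apply] at h3
      exact h3
  · rintro ⟨h0, h1, h2⟩
    refine ⟨?_, fun j hj => ?_⟩
    · rw [pow_succ, Perm.mul_apply, Perm.mul_apply]
      exact h1
    · rcases j with _ | j
      · simpa using h0
      · rw [pow_succ, Perm.mul_apply, Perm.mul_apply]
        exact h2 j (by omega)

lemma at_unique {f x : S} (hf : X.g f = f) {k l : ℕ} (hk : X.At f k x) (hl : X.At f l x) :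
    k = l := by
  rcases lt_trichotomy k l with h | h | h
  · have h1 := hl.2 k h
    rw [hk.1] at h1
    exact absurd hf h1
  · exact h
  · have h1 := hk.2 l h
    rw [hl.1] at h1
    exact absurd hf h1

lemma at_inj {f x y : S} {k : ℕ} (hx : X.At f k x) (hy : X.At f k y) : x = y :=
  ((X.ρ * X.g) ^ k).injective (hx.1.trans hy.1.symm)

lemma Good.at_lab (hX : X.Good) {f x : S} {k : ℕ} (h : X.At f k x) : X.lab x = X.lab f := by
  induction k generalizing x with
  | zero => rw [at_zero.1 h]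
  | succ k ih =>
    obtain ⟨h1, h2⟩ := at_succ.1 h
    rw [← ih h2, hX.lab_g' h1]

/-- every live side has a position in a fan -/
lemma Good.exists_at (hX : X.Good) {x : S} (hx : x ∈ X.A) :
    ∃ f ∈ X.A, X.g f = f ∧ X.lab f = X.lab x ∧ ∃ k, X.At f k x := by
  obtain ⟨k, h1, h2, h3⟩ := hX.exists_free_pow hx
  obtain ⟨h4, h5⟩ := mem_free.1 h1
  refine ⟨_, h4, h5, h2, k, rfl, fun j hj h6 => (h3 j hj).1 (mem_free.2 ⟨?_, h6⟩)⟩
  exact (hX.conn_mem (hX.conn_cyc ⟨(j : ℤ), by rw [zpow_natCast]⟩)).1 hx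

/-- without pinches all sides with one label are in one fan -/
lemma Good.at_of_pf (hX : X.Good) (hpf : X.PF) {f x : S} (hf : X.g f = f) (hfA : f ∈ X.A)
    (hx : x ∈ X.A) (h : X.lab x = X.lab f) : ∃ k, X.At f k x := by
  obtain ⟨f', h1, h2, h3, h4⟩ := hX.exists_at hx
  have h5 : f' = f := hpf f' h1 f hfA h2 hf (h3.trans h)
  rw [h5] at h4
  exact h4

/-- inside a fan the components do not change if the gates of the fan are not cut -/
lemma comp_at {g2 : Perm S} {f : S} {l : ℕ} {y : S} (hy : X.At f l y) (n : ℕ) {x : S}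
    (hx : X.At f (l + n) x) (h : ∀ z i, X.At f i z → l < i → i ≤ l + n → g2 z = X.g z) :
    comp X.ρ g2 x y := by
  induction n generalizing x with
  | zero =>
    rw [at_inj hx hy]
  | succ n ih =>
    obtain ⟨h1, h2⟩ := at_succ.1 hx
    have h3 : g2 x = X.g x := h x _ hx (by omega) (by omega)
    have h4 := ih h2 fun z i hz hi hi' => h z i hz hi (by omega)
    have h5 : comp X.ρ g2 x (X.g x) := by
      have := comp_right (ρ := X.ρ) (g := g2) x
      rwa [h3] at this
    exact (comp X.ρ g2).trans h5 ((comp X.ρ g2).trans (comp_left _) h4)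

lemma comp_at' {g2 : Perm S} {f : S} {l k : ℕ} {x y : S} (hy : X.At f l y)
    (hx : X.At f k x) (hlk : l ≤ k) (h : ∀ z i, X.At f i z → l < i → i ≤ k → g2 z = X.g z) :
    comp X.ρ g2 x y := by
  obtain ⟨n, rfl⟩ := Nat.exists_eq_add_of_le hlk
  exact comp_at hy n hx h

/-- the end of a fan is on the same cycle -/
lemma cycle_at {g2 : Perm S} {f x : S} {l k : ℕ} {y : S} (hy : X.At f l y) (hx : X.At f k x)
    (hlk : l ≤ k) (h : ∀ z i, X.At f i z → l < i → i ≤ k → g2 z = X.g z) :
    SameCycle (X.ρ * g2) x y := by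
  obtain ⟨n, rfl⟩ := Nat.exists_eq_add_of_le hlk
  clear hlk
  induction n generalizing x with
  | zero => rw [at_inj hx hy]
  | succ n ih =>
    obtain ⟨h1, h2⟩ := at_succ.1 hx
    have h3 : g2 x = X.g x := h x _ hx (by omega) (by omega)
    have h4 := ih h2 fun z i hz hi hi' => h z i hz hi (by omega)
    refine SameCycle.trans ?_ h4
    refine ⟨1, ?_⟩
    rw [zpow_one, Perm.mul_apply, h3]

/-! ## Two parts -/

/-- the potential of two parts -/
theorem Good.P_parts (hX : X.Good) {B : Finset S} (hB : X.Cl B) (hBA : B ⊆ X.A) {m : ℕ}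
    (hm : (X.g.support.filter fun s => ¬ (s ∈ B ↔ X.g s ∈ B)).card = 2 * m) :
    (X.sub B).P + (X.sub (X.A \ B)).P = X.P + m + (X.sub B).c + (X.sub (X.A \ B)).c - X.c := by
  classical
  have h1 := hX.P_eq
  have h2 := (hX.sub hB).P_eq
  have h3 := (hX.sub (hX.cl_sdiff hX.cl_A hB)).P_eq
  have hA1 : (X.sub B).A = B := inter_eq_right.2 hBA
  have hA2 : (X.sub (X.A \ B)).A = X.A \ B := inter_eq_right.2 sdiff_subset
  rw [hA1] at h2
  rw [hA2] at h3
  have h4 := card_sdiff_add_card_eq_card hBA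
  have h5 : X.g.support.card = (X.sub B).g.support.card + (X.sub (X.A \ B)).g.support.card +
      (X.g.support.filter fun s => ¬ (s ∈ B ↔ X.g s ∈ B)).card := by
    rw [sub_support, sub_support, ← card_union_of_disjoint, ← card_union_of_disjoint]
    · congr 1
      ext s
      simp only [mem_union, mem_filter, mem_sdiff]
      constructor
      · intro h
        have hsA := hX.supp_sub h
        have hgA := hX.g_mem (mem_support.1 h)
        by_cases h6 : s ∈ B <;> by_cases h7 : X.g s ∈ B <;> tauto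
      · tauto
    · rw [disjoint_left]
      intro s hs
      simp only [mem_union, mem_filter, mem_sdiff] at hs ⊢
      tauto
    · rw [disjoint_left]
      intro s hs
      simp only [mem_filter, mem_sdiff] at hs ⊢
      tauto
  rw [hm] at h5
  have h6 : (B.card : ℤ) + (X.A \ B).card = X.A.card := by
    have : B.card + (X.A \ B).card = X.A.card := by omega
    exact_mod_cast this
  have h7 : (X.g.support.card : ℤ) = (X.sub B).g.support.card +
      (X.sub (X.A \ B)).g.support.card + 2 * m := by exact_mod_cast h5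
  linarith

/-- covers of two parts -/
lemma cov_parts {B : Finset S} {C D : Finset ℕ} (h1 : (X.sub B).Cov C)
    (h2 : (X.sub (X.A \ B)).Cov D) : X.Cov (C ∪ D) := by
  intro s hs
  by_cases hsB : s ∈ B
  · have h3 : X.lab s ∈ C ∨ X.lab (X.ρ s) ∈ C ∨ X.lab (X.ρ (X.ρ s)) ∈ C ∨
      X.lab (X.ρ (X.ρ (X.ρ s))) ∈ C := h1 s (mem_inter.2 ⟨hs, hsB⟩)
    simp only [mem_union]
    tauto
  · have h3 : X.lab s ∈ D ∨ X.lab (X.ρ s) ∈ D ∨ X.lab (X.ρ (X.ρ s)) ∈ D ∨
      X.lab (X.ρ (X.ρ (X.ρ s))) ∈ D := h2 s (mem_inter.2 ⟨hs, mem_sdiff.2 ⟨hs, hsB⟩⟩)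
    simp only [mem_union]
    tauto

lemma tau_parts (X : Cx S) (B : Finset S) : X.tau ≤ (X.sub B).tau + (X.sub (X.A \ B)).tau := by
  obtain ⟨C, hC, hc⟩ := (X.sub B).exists_cov
  obtain ⟨D, hD, hd⟩ := (X.sub (X.A \ B)).exists_cov
  rw [← hc, ← hd]
  exact (tau_le (cov_parts hC hD)).trans (card_union_le C D)

/-- no saving -/
lemma not_fr_parts {B : Finset S} (h : (X.sub B).tau + (X.sub (X.A \ B)).tau ≤ X.tau) {v : ℕ}
    (h1 : (X.sub B).Fr {v}) : ¬ (X.sub (X.A \ B)).Fr {v} := by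
  rintro ⟨D, hD, hvD, hd⟩
  obtain ⟨C, hC, hvC, hc⟩ := h1
  have h2 := tau_le (cov_parts hC hD)
  have h3 : 0 < (C ∩ D).card := card_pos.2 ⟨v, mem_inter.2
    ⟨hvC (mem_singleton_self v), hvD (mem_singleton_self v)⟩⟩
  have h4 := card_union_add_card_inter C D
  omega

/-- connection inside a part that is closed under the cut gluing -/
lemma Good.conn_of_comp (hX : X.Good) {B : Finset S} (hB : X.Cl B) {g2 : Perm S}
    (h2 : ∀ x ∈ B, g2 x = x ∨ (X.g x ∈ B ∧ g2 x = X.g x)) (h3 : ∀ x, g2 x ∈ B ↔ x ∈ B) {x y : S}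
    (hx : x ∈ B) (h : comp X.ρ g2 x y) : (X.sub B).conn x y := by
  let q : Setoid S := ⟨fun s t => (s ∈ B ↔ t ∈ B) ∧ (s ∈ B → (X.sub B).conn s t),
    ⟨fun _ => ⟨Iff.rfl, fun _ => (X.sub B).conn.refl _⟩,
      fun h => ⟨h.1.symm, fun h1 => (X.sub B).conn.symm (h.2 (h.1.2 h1))⟩,
      fun h1 h2 => ⟨h1.1.trans h2.1, fun h3 => (X.sub B).conn.trans (h1.2 h3) (h2.2 (h1.1.1 h3))⟩⟩⟩
  have key : q x y := by
    refine comp_le_of (q := q) (fun z => ⟨(hX.cl_iff hB).symm, fun _ =>
      conn_rho (X := X.sub B) z⟩) (fun z => ⟨(h3 z).symm, fun hz => ?_⟩) h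
    rcases h2 z hz with h4 | ⟨h4, h5⟩
    · rw [h4]
    · have h6 := (hX.sub hB).conn_g (s := z)
      rw [sub_g, if_pos ⟨hz, h4⟩] at h6
      rwa [h5]
  exact key.2 hx

/-! ## Gate connection -/

/-- without pinches connection is connection through gates -/
lemma Good.comp_of_conn (hX : X.Good) (hpf : X.PF) {x y : S} (h : X.conn x y) :
    comp X.ρ X.g x y := by
  refine conn_le (q := comp X.ρ X.g) (fun z => comp_left z) (fun z hz w hw hzw => ?_) h
  obtain ⟨f, h1, h3, h4⟩ := hX.exists_free hz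
  obtain ⟨f', k1, k3, k4⟩ := hX.exists_free hw
  have h5 : f = f' := hpf f (mem_free.1 h1).1 f' (mem_free.1 k1).1 (mem_free.1 h1).2
    (mem_free.1 k1).2 (by rw [h3, k3, hzw])
  rw [← h5] at k4
  exact comp_of_mul (h4.trans k4.symm)

lemma comp_cut (s : S) :
    comp X.ρ X.g = join (comp X.ρ (X.cut s).g) s (X.g s) := by
  have h1 := comp_swap (ρ := X.ρ) (g := X.g * swap s (X.g s)) (s := s) (t := X.g s)
    (unglue_left X.inv s) (unglue_right s)
  rw [mul_swap_mul] at h1
  exact h1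

/-! ## The two-cut -/

/-- the gluing after cutting the gates at `s` and at `t` -/
def cut2 (X : Cx S) (s t : S) : Perm S := ((X.cut s).cut t).g

lemma cut2_inv (s t : S) : Inv (X.cut2 s t) := ((X.cut s).cut t).inv

lemma cut2_of_ne {s t x : S} (h1 : x ≠ s) (h2 : x ≠ X.g s) (h3 : x ≠ t) (h4 : x ≠ X.g t)
    (hts : t ≠ s) (htgs : t ≠ X.g s) : X.cut2 s t x = X.g x := by
  have h5 : (X.cut s).g t = X.g t := unglue_of_ne hts htgs
  have h6 : X.cut2 s t x = (X.cut s).g x := unglue_of_ne (g := (X.cut s).g) h3 (by rw [h5]; exact h4)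
  rw [h6]
  exact unglue_of_ne h1 h2

lemma cut2_s {s t : S} (hts : t ≠ s) (htgs : t ≠ X.g s) : X.cut2 s t s = s := by
  have h5 : (X.cut s).g t = X.g t := unglue_of_ne hts htgs
  have h6 : X.cut2 s t s = (X.cut s).g s := unglue_of_ne (g := (X.cut s).g) hts.symm (by
    rw [h5]
    intro h
    exact htgs (by rw [h, X.inv]))
  rw [h6]
  exact unglue_left X.inv s

lemma cut2_gs {s t : S} (hts : t ≠ s) (htgs : t ≠ X.g s) : X.cut2 s t (X.g s) = X.g s := by
  have h5 : (X.cut s).g t = X.g t := unglue_of_ne hts htgs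
  have h6 : X.cut2 s t (X.g s) = (X.cut s).g (X.g s) :=
    unglue_of_ne (g := (X.cut s).g) htgs.symm (by
      rw [h5]
      exact fun h => hts (X.g.injective h).symm)
  rw [h6]
  exact unglue_right s

lemma cut2_t {s t : S} : X.cut2 s t t = t := unglue_left (X.cut s).inv t

lemma cut2_gt {s t : S} (hts : t ≠ s) (htgs : t ≠ X.g s) : X.cut2 s t (X.g t) = X.g t := by
  have h5 : (X.cut s).g t = X.g t := unglue_of_ne hts htgs
  have h6 : X.cut2 s t ((X.cut s).g t) = (X.cut s).g t := unglue_right t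
  rwa [h5] at h6

/-- two non-bridges that are a cut together -/
structure TwoCut (X : Cx S) (s t : S) : Prop where
  hs : X.g s ≠ s
  ht : X.g t ≠ t
  ts : t ≠ s
  tgs : t ≠ X.g s
  bs : ¬ SameCycle (X.ρ * X.g) s (X.g s)
  bt : ¬ SameCycle (X.ρ * X.g) t (X.g t)
  cut : SameCycle (X.ρ * (X.cut s).g) t (X.g t)

namespace TwoCut

variable {s t : S} (h : X.TwoCut s t)
include h

lemma gt : (X.cut s).g t = X.g t := unglue_of_ne h.ts h.tgs

/-- the two ends of the second gate are separated -/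
lemma sep_t (hX : X.Good) : ¬ comp X.ρ (X.cut2 s t) t (X.g t) := by
  have h1 := (Planar.bridge_iff (X.cut s).inv (hX.cut s).planar (s := t)
    (by rw [h.gt]; exact h.ht)).1 (by rw [h.gt]; exact h.cut)
  rw [h.gt] at h1
  have h2 : X.cut2 s t = (X.cut s).g * swap t (X.g t) := by
    unfold cut2
    rw [cut_g, h.gt]
  rw [h2]
  exact h1

/-- the first cut does not disconnect -/
lemma comp_s (hX : X.Good) : comp X.ρ X.g = comp X.ρ (X.cut s).g := by
  have h1 := (Planar.bridge_iff X.inv hX.planar (s := s) h.hs).not.1 h.bs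
  rw [not_not] at h1
  have h2 : comp X.ρ (X.cut s).g s (X.g s) := h1
  rw [comp_cut s, join_of_rel h2]

/-- the components before the second cut -/
lemma comp_join (hX : X.Good) : comp X.ρ X.g = join (comp X.ρ (X.cut2 s t)) t (X.g t) := by
  rw [h.comp_s hX]
  have h1 := comp_cut (X := X.cut s) t
  rw [h.gt] at h1
  exact h1

lemma cases_t (hX : X.Good) {x : S} (hx : comp X.ρ X.g x t) :
    comp X.ρ (X.cut2 s t) x t ∨ comp X.ρ (X.cut2 s t) x (X.g t) := by
  rw [h.comp_join hX] at hx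
  rcases hx with h1 | ⟨h1, -⟩ | ⟨h1, -⟩
  · exact Or.inl h1
  · exact Or.inl h1
  · exact Or.inr h1

/-- the two ends of the first gate are separated -/
lemma sep_s (hX : X.Good) : ¬ comp X.ρ (X.cut2 s t) s (X.g s) := by
  intro h1
  -- cut only `t`
  have h2 := (Planar.bridge_iff X.inv hX.planar (s := t) h.ht).not.1 h.bt
  rw [not_not] at h2
  have h3 : ((X.cut t).cut s).g = X.cut2 s t := by
    have hgs : (X.cut t).g s = X.g s := unglue_of_ne h.ts.symm fun h4 => h.tgs (by
      rw [h4, X.inv])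
    ext x
    by_cases k1 : x = s
    · rw [k1, cut2_s h.ts h.tgs]
      exact unglue_left (X.cut t).inv s
    by_cases k2 : x = X.g s
    · rw [k2, cut2_gs h.ts h.tgs]
      have k6 : ((X.cut t).cut s).g ((X.cut t).g s) = (X.cut t).g s := unglue_right s
      rwa [hgs] at k6
    have k5 : ((X.cut t).cut s).g x = (X.cut t).g x :=
      unglue_of_ne (g := (X.cut t).g) k1 (by rw [hgs]; exact k2)
    rw [k5]
    by_cases k3 : x = t
    · rw [k3, cut2_t]
      exact unglue_left X.inv t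
    by_cases k4 : x = X.g t
    · rw [k4, cut2_gt h.ts h.tgs]
      exact unglue_right t
    rw [cut2_of_ne k1 k2 k3 k4 h.ts h.tgs]
    exact unglue_of_ne k3 k4
  have h4 := comp_cut (X := X.cut t) s
  have hgs : (X.cut t).g s = X.g s := unglue_of_ne h.ts.symm fun h4 => h.tgs (by
    rw [h4, X.inv])
  rw [hgs, h3] at h4
  have h5 : comp X.ρ (X.cut t).g = comp X.ρ (X.cut2 s t) := by
    rw [← join_of_rel h1]
    exact h4
  have h6 : comp X.ρ (X.cut t).g t (X.g t) := h2
  rw [h5] at h6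
  exact h.sep_t hX h6

end TwoCut

open Classical in
/-- the part of `t` after the two cuts -/
noncomputable def part (X : Cx S) (s t : S) : Finset S :=
  X.A.filter fun x => comp X.ρ (X.cut2 s t) x t

lemma mem_part {s t x : S} : x ∈ X.part s t ↔ x ∈ X.A ∧ comp X.ρ (X.cut2 s t) x t := by
  classical
  unfold part
  rw [mem_filter]

lemma part_sub (s t : S) : X.part s t ⊆ X.A := fun _ h => (mem_part.1 h).1

namespace TwoCut

variable {s t : S} (h : X.TwoCut s t)
include h

lemma t_mem (hX : X.Good) : t ∈ X.part s t := mem_part.2 ⟨hX.A_g t h.ht, (comp _ _).refl t⟩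

lemma cl_part (hX : X.Good) : X.Cl (X.part s t) := by
  intro x hx
  obtain ⟨h1, h2⟩ := mem_part.1 hx
  exact mem_part.2 ⟨hX.A_rho x h1, (comp _ _).trans ((comp _ _).symm (comp_left x)) h2⟩

lemma mem_part_of_comp (hX : X.Good) {x y : S} (hx : x ∈ X.part s t) (hy : y ∈ X.A)
    (hxy : comp X.ρ (X.cut2 s t) x y) : y ∈ X.part s t := by
  have _ := hX
  exact mem_part.2 ⟨hy, (comp _ _).trans ((comp _ _).symm hxy) (mem_part.1 hx).2⟩

lemma gt_notMem (hX : X.Good) : X.g t ∉ X.part s t := fun h1 =>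
  h.sep_t hX ((comp _ _).symm (mem_part.1 h1).2)

variable (hc : ∀ x ∈ X.A, ∀ y ∈ X.A, comp X.ρ X.g x y)
include hc

lemma mem_compl (hX : X.Good) {x : S} (hx : x ∈ X.A) (hn : x ∉ X.part s t) :
    comp X.ρ (X.cut2 s t) x (X.g t) :=
  (h.cases_t hX (hc x hx t (hX.A_g t h.ht))).resolve_left fun h1 => hn (mem_part.2 ⟨hx, h1⟩)

lemma s_iff (hX : X.Good) : s ∈ X.part s t ↔ X.g s ∉ X.part s t := by
  have hsA := hX.A_g s h.hs
  have hgA := hX.g_mem h.hs
  constructor
  · intro h1 h2
    exact h.sep_s hX ((comp _ _).trans (mem_part.1 h1).2 ((comp _ _).symm (mem_part.1 h2).2))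
  · intro h1
    by_contra h2
    exact h.sep_s hX ((comp _ _).trans (h.mem_compl hc hX hsA h2)
      ((comp _ _).symm (h.mem_compl hc hX hgA h1)))

omit hc in
lemma g_iff (hX : X.Good) {x : S} (h1 : x ≠ s) (h2 : x ≠ X.g s) (h3 : x ≠ t) (h4 : x ≠ X.g t) :
    X.g x ∈ X.part s t ↔ x ∈ X.part s t := by
  have h5 := cut2_of_ne (X := X) h1 h2 h3 h4 h.ts h.tgs
  have h6 : comp X.ρ (X.cut2 s t) x (X.g x) := by
    have := comp_right (ρ := X.ρ) (g := X.cut2 s t) x
    rwa [h5] at this
  constructor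
  · intro h7
    exact h.mem_part_of_comp hX h7 ((hX.g_mem_iff).1 (mem_part.1 h7).1) ((comp _ _).symm h6)
  · intro h7
    exact h.mem_part_of_comp hX h7 ((hX.g_mem_iff).2 (mem_part.1 h7).1) h6

lemma card_cross (hX : X.Good) :
    (X.g.support.filter fun x => ¬ (x ∈ X.part s t ↔ X.g x ∈ X.part s t)).card = 2 * 2 := by
  classical
  have h1 : (X.g.support.filter fun x => ¬ (x ∈ X.part s t ↔ X.g x ∈ X.part s t)) =
      {s, X.g s, t, X.g t} := by
    ext x
    simp only [mem_filter, mem_insert, mem_singleton, mem_support]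
    have k1 := h.s_iff hc hX
    have k2 := h.t_mem hX
    have k3 := h.gt_notMem hX
    constructor
    · rintro ⟨-, h3⟩
      by_contra h4
      push Not at h4
      exact h3 (h.g_iff hX h4.1 h4.2.1 h4.2.2.1 h4.2.2.2).symm
    · rintro (rfl | rfl | rfl | rfl)
      · exact ⟨h.hs, by tauto⟩
      · rw [X.inv]
        exact ⟨fun h5 => h.hs h5.symm, by tauto⟩
      · exact ⟨h.ht, by tauto⟩
      · rw [X.inv]
        exact ⟨fun h5 => h.ht h5.symm, by tauto⟩
  rw [h1]
  have h2 : X.g t ≠ s := fun h5 => h.tgs (by rw [← h5, X.inv])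
  have h3 : X.g s ≠ X.g t := fun h5 => h.ts (X.g.injective h5).symm
  rw [card_insert_of_notMem, card_insert_of_notMem, card_pair fun h5 => h.ht h5.symm]
  · simp only [mem_insert, mem_singleton, not_or]
    exact ⟨fun h5 => h.tgs h5.symm, h3⟩
  · simp only [mem_insert, mem_singleton, not_or]
    exact ⟨fun h5 => h.hs h5.symm, h.ts.symm, fun h5 => h2 h5.symm⟩

omit hc in
/-- the cut gluing inside a closed part -/
lemma cut2_closed (hX : X.Good) {B : Finset S}
    (hB : ∀ x y, comp X.ρ (X.cut2 s t) x y → x ∈ B → y ∈ B) :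
    (∀ x ∈ B, X.cut2 s t x = x ∨ (X.g x ∈ B ∧ X.cut2 s t x = X.g x)) ∧
      ∀ x, X.cut2 s t x ∈ B ↔ x ∈ B := by
  have _ := hX
  have h0 : ∀ x, X.cut2 s t x = x ∨ X.cut2 s t x = X.g x := by
    intro x
    rcases cut_le (X := X.cut s) t x with h1 | h1
    · exact Or.inl h1
    · rcases cut_le (X := X) s x with h2 | h2
      · exact Or.inl (h1.trans h2)
      · exact Or.inr (h1.trans h2)
  refine ⟨fun x hx => ?_, fun x => ⟨fun h1 => ?_, fun h1 => hB x _ (comp_right x) h1⟩⟩
  · rcases h0 x with h1 | h1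
    · exact Or.inl h1
    · exact Or.inr ⟨by rw [← h1]; exact hB x _ (comp_right x) hx, h1⟩
  · exact hB _ x ((comp _ _).symm (comp_right x)) h1

omit hc in
lemma c_part (hX : X.Good) : (X.sub (X.part s t)).c ≤ 1 := by
  have h1 := h.cut2_closed hX (B := X.part s t) fun x y hxy hx => h.mem_part_of_comp hX hx
    ((hX.conn_mem (s := x) (t := y) ?_).1 (mem_part.1 hx).1) hxy
  · have h2 : (X.sub (X.part s t)).A = X.part s t := inter_eq_right.2 (part_sub s t)
    rcases (X.part s t).eq_empty_or_nonempty with h3 | h3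
    · unfold c
      rw [h2, h3, nc_empty]
      omega
    · refine (nc_eq_one (r := (X.sub (X.part s t)).conn) (A := (X.sub (X.part s t)).A)
        (by rw [h2]; exact h3) ?_).le
      intro x hx y hy
      rw [h2] at hx hy
      exact hX.conn_of_comp (h.cl_part hX) h1.1 h1.2 hx ((comp _ _).trans (mem_part.1 hx).2
        ((comp _ _).symm (mem_part.1 hy).2))
  · refine (comp_le_of (q := X.conn) (fun z => conn_rho z) fun z => ?_) hxy
    have h0 : X.cut2 s t z = z ∨ X.cut2 s t z = X.g z := by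
      rcases cut_le (X := X.cut s) t z with h1 | h1
      · exact Or.inl h1
      · rcases cut_le (X := X) s z with h2 | h2
        · exact Or.inl (h1.trans h2)
        · exact Or.inr (h1.trans h2)
    rcases h0 with h0 | h0
    · rw [h0]
    · rw [h0]; exact hX.conn_g

lemma c_compl (hX : X.Good) : (X.sub (X.A \ X.part s t)).c ≤ 1 := by
  have hcA : ∀ x y, comp X.ρ (X.cut2 s t) x y → x ∈ X.A → y ∈ X.A := by
    intro x y hxy hx
    refine (hX.conn_mem ?_).1 hx
    refine (comp_le_of (q := X.conn) (fun z => conn_rho z) fun z => ?_) hxy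
    have h0 : X.cut2 s t z = z ∨ X.cut2 s t z = X.g z := by
      rcases cut_le (X := X.cut s) t z with h1 | h1
      · exact Or.inl h1
      · rcases cut_le (X := X) s z with h2 | h2
        · exact Or.inl (h1.trans h2)
        · exact Or.inr (h1.trans h2)
    rcases h0 with h0 | h0
    · rw [h0]
    · rw [h0]; exact hX.conn_g
  have h1 := h.cut2_closed hX (B := X.A \ X.part s t) fun x y hxy hx =>
    mem_sdiff.2 ⟨hcA x y hxy (mem_sdiff.1 hx).1, fun hy => (mem_sdiff.1 hx).2
      (h.mem_part_of_comp hX hy (mem_sdiff.1 hx).1 ((comp _ _).symm hxy))⟩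
  have h2 : (X.sub (X.A \ X.part s t)).A = X.A \ X.part s t := inter_eq_right.2 sdiff_subset
  rcases (X.A \ X.part s t).eq_empty_or_nonempty with h3 | h3
  · unfold c
    rw [h2, h3, nc_empty]
    omega
  · refine (nc_eq_one (r := (X.sub (X.A \ X.part s t)).conn) (A := (X.sub (X.A \ X.part s t)).A)
      (by rw [h2]; exact h3) ?_).le
    intro x hx y hy
    rw [h2] at hx hy
    exact hX.conn_of_comp (hX.cl_sdiff hX.cl_A (h.cl_part hX)) h1.1 h1.2 hx
      ((comp _ _).trans (h.mem_compl hc hX (mem_sdiff.1 hx).1 (mem_sdiff.1 hx).2)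
        ((comp _ _).symm (h.mem_compl hc hX (mem_sdiff.1 hy).1 (mem_sdiff.1 hy).2)))

/-- the potential after a two-cut -/
lemma P_le (hX : X.Good) (hne : X.A.Nonempty) :
    (X.sub (X.part s t)).P + (X.sub (X.A \ X.part s t)).P ≤ X.P + 3 := by
  have h1 := hX.P_parts (h.cl_part hX) (part_sub s t) (h.card_cross hc hX)
  have h2 := h.c_part hX
  have h3 := h.c_compl hc hX
  have h4 : 1 ≤ X.c := nc_pos hne
  push_cast at h1
  omega

end TwoCut

end Cx

end Pool.Agent.Lib.MP06c549.Z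
end

section
/-!
# MP_06c549_co, Z: walking on a hole outside of a set of cells
-/
set_option autoImplicit false
set_option linter.unusedSectionVars false

namespace Pool.Agent.Lib.MP06c549.Z

open Equiv Equiv.Perm Finset

variable {S : Type} [Fintype S] [DecidableEq S]

namespace Cx

variable {X : Cx S}

/-- `K` a set of cells. If no free side of `K` is met on the way from `x` to `z` along a cycle of
`ρ * g`, then `x` and `z` are connected outside of `K`. -/
theorem Good.walk (hX : X.Good) {K : Finset S} (hK : X.Cl K) {x : S} (hxA : x ∈ X.A)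
    (hx : x ∉ K) (k : ℕ) (h : ∀ j < k, ((X.ρ * X.g) ^ j) x ∈ K →
      X.g (((X.ρ * X.g) ^ j) x) ≠ ((X.ρ * X.g) ^ j) x)
    (hz : ((X.ρ * X.g) ^ k) x ∉ K) :
    (X.sub (X.A \ K)).conn x (((X.ρ * X.g) ^ k) x) := by
  have hA : ∀ y, y ∈ (X.sub (X.A \ K)).A ↔ y ∈ X.A ∧ y ∉ K := by
    intro y
    rw [sub_A, mem_inter, mem_sdiff]
    tauto
  have hyA : ∀ j : ℕ, ((X.ρ * X.g) ^ j) x ∈ X.A := fun j =>
    (hX.conn_mem (hX.conn_cyc ⟨(j : ℤ), by rw [zpow_natCast]⟩)).1 hxA
  have key : ∀ j ≤ k, ∃ y', y' ∈ X.A ∧ y' ∉ K ∧ (X.sub (X.A \ K)).conn x y' ∧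
      X.lab y' = X.lab (((X.ρ * X.g) ^ j) x) := by
    intro j
    induction j with
    | zero => intro _; exact ⟨x, hxA, hx, (X.sub (X.A \ K)).conn.refl x, rfl⟩
    | succ j ih =>
      intro hj
      obtain ⟨y', h1, h2, h3, h4⟩ := ih (by omega)
      rw [pow_succ', Perm.mul_apply, Perm.mul_apply]
      set y := ((X.ρ * X.g) ^ j) x with hy
      by_cases h5 : X.g y = y
      · -- a free side outside of `K`
        have h6 : y ∉ K := fun hh => h j (by omega) hh h5
        rw [h5]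
        refine ⟨X.ρ y, hX.A_rho _ (hyA j), fun hh => h6 ((hX.cl_iff hK).1 hh), ?_, rfl⟩
        refine (X.sub (X.A \ K)).conn.trans h3 ((X.sub (X.A \ K)).conn.trans ?_
          (conn_rho (X := X.sub (X.A \ K)) y))
        exact conn_lab (X := X.sub (X.A \ K)) ((hA _).2 ⟨h1, h2⟩) ((hA _).2 ⟨hyA j, h6⟩) h4
      · exact ⟨y', h1, h2, h3, by rw [h4, hX.lab_g' h5]⟩
  obtain ⟨y', h1, h2, h3, h4⟩ := key k le_rfl
  exact (X.sub (X.A \ K)).conn.trans h3
    (conn_lab (X := X.sub (X.A \ K)) ((hA _).2 ⟨h1, h2⟩) ((hA _).2 ⟨hyA k, hz⟩) h4)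

/-- every class outside of `K` contains the partner of a side of `K` (`X` connected through gates),
or `X` has no cell in `K` -/
theorem Good.exists_outer (hX : X.Good) (hc : ∀ a ∈ X.A, ∀ b ∈ X.A, X.gc a b) {K : Finset S}
    (hK : X.Cl K) (hKA : K ⊆ X.A) (hKne : K.Nonempty) {x : S} (hx : x ∈ X.A \ K) :
    ∃ k ∈ K, X.g k ∈ X.A \ K ∧ (X.sub (X.A \ K)).conn x (X.g k) := by
  classical
  by_contra hcon
  push Not at hcon
  set X' := X.sub (X.A \ K) with hX'
  -- the class of `x` is closed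
  let q : Setoid S := ⟨fun a b => ((a ∈ X.A \ K ∧ X'.conn x a) ↔ (b ∈ X.A \ K ∧ X'.conn x b)),
    ⟨fun _ => Iff.rfl, fun h => h.symm, fun h1 h2 => h1.trans h2⟩⟩
  obtain ⟨k, hk⟩ := hKne
  have hrho : ∀ a, X.ρ a ∈ X.A \ K ↔ a ∈ X.A \ K := by
    intro a
    rw [mem_sdiff, mem_sdiff, hX.A_rho_iff, hX.cl_iff hK]
  have h1 : q x k := by
    have h2 : X.gc ≤ q := by
      refine comp_le_of (fun a => ?_) fun a => ?_
      · change (a ∈ X.A \ K ∧ X'.conn x a) ↔ (X.ρ a ∈ X.A \ K ∧ X'.conn x (X.ρ a))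
        rw [hrho]
        refine and_congr_right fun _ => ⟨fun h => ?_, fun h => ?_⟩
        · exact X'.conn.trans h (conn_rho (X := X') a)
        · exact X'.conn.trans h (X'.conn.symm (conn_rho (X := X') a))
      · change (a ∈ X.A \ K ∧ X'.conn x a) ↔ (X.g a ∈ X.A \ K ∧ X'.conn x (X.g a))
        have key : ∀ b, b ∈ X.A \ K → X'.conn x b → X.g b ∈ X.A \ K ∧ X'.conn x (X.g b) := by
          intro b hb hxb
          have hgA : X.g b ∈ X.A := hX.g_mem_iff.2 (mem_sdiff.1 hb).1
          by_cases h3 : X.g b ∈ K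
          · have h4 := hcon (X.g b) h3 (by rw [X.inv]; exact hb)
            rw [X.inv] at h4
            exact absurd hxb h4
          · have h5 : X.g b ∈ X.A \ K := mem_sdiff.2 ⟨hgA, h3⟩
            refine ⟨h5, X'.conn.trans hxb ?_⟩
            by_cases h6 : X.g b = b
            · rw [h6]
            · have h7 : X'.g b = X.g b := sub_g_mem hb h5
              have h8 := (hX.sub (hX.cl_sdiff hX.cl_A hK)).conn_g (X := X') (s := b)
              rw [h7] at h8
              exact h8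
        constructor
        · rintro ⟨h3, h4⟩
          exact key a h3 h4
        · rintro ⟨h3, h4⟩
          have := key (X.g a) h3 h4
          rw [X.inv] at this
          exact this
    exact h2 (hc x (mem_sdiff.1 hx).1 k (hKA hk))
  exact (mem_sdiff.1 (h1.1 ⟨hx, X'.conn.refl x⟩).1).2 hk

end Cx

end Pool.Agent.Lib.MP06c549.Z
end
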