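import Pool.Agent.Lib.MP_06c549_co.Z.Squ
import Pool.Agent.Lib.MP_06c549_co.Z.Walk
import Pool.Agent.Lib.MP_06c549_co.Z.Flip

section
/-!
# MP_06c549_co, Z: a minimal counterexample has no pinches (module PIN)

`inFan t x`: the corner `x` lies in the fan that ends with the free side `t`; `sep t`: the fan of
`t` gets an own label; `Min.pf`: a minimal counterexample is pinch free.
-/
set_option autoImplicit false
set_option linter.unusedSectionVars false

namespace Pool.Agent.Lib.MP06c549.Z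

open Equiv Equiv.Perm Finset

variable {S : Type} [Fintype S] [DecidableEq S]

namespace Cx

variable {X : Cx S}

/-! ## Fans -/

/-- the side `x` lies in the fan that ends with the free side `t` -/
def inFan (X : Cx S) (t x : S) : Prop :=
  ∃ k : ℕ, ((X.ρ * X.g) ^ k) x = t ∧
    ∀ j < k, X.g (((X.ρ * X.g) ^ j) x) ≠ ((X.ρ * X.g) ^ j) x

lemma inFan_self (t : S) : X.inFan t t := ⟨0, by simp, by simp⟩

lemma inFan_free {t x : S} (hx : X.g x = x) : X.inFan t x ↔ x = t := by
  constructor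
  · rintro ⟨k, h1, h2⟩
    rcases k with _ | k
    · simpa using h1
    · exact absurd (by simpa using hx) (h2 0 (by omega))
  · rintro rfl
    exact inFan_self x

lemma inFan_step {t x : S} (ht : X.g t = t) (hx : X.g x ≠ x) :
    X.inFan t ((X.ρ * X.g) x) ↔ X.inFan t x := by
  constructor
  · rintro ⟨k, h1, h2⟩
    refine ⟨k + 1, by rw [pow_succ, Perm.mul_apply]; exact h1, fun j hj => ?_⟩
    rcases j with _ | j
    · simpa using hx
    · rw [pow_succ, Perm.mul_apply]
      exact h2 j (by omega)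
  · rintro ⟨k, h1, h2⟩
    rcases k with _ | k
    · have h3 : x = t := by simpa using h1
      rw [h3] at hx
      exact absurd ht hx
    · refine ⟨k, by have h := h1; rw [pow_succ, Perm.mul_apply] at h; exact h, fun j hj => ?_⟩
      have h3 := h2 (j + 1) (by omega)
      rw [pow_succ, Perm.mul_apply] at h3
      exact h3

lemma Good.inFan_lab (hX : X.Good) {t x : S} (h : X.inFan t x) : X.lab x = X.lab t := by
  obtain ⟨k, h1, h2⟩ := h
  induction k generalizing x with
  | zero =>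
    have h3 : x = t := by simpa using h1
    rw [h3]
  | succ k ih =>
    have hx : X.g x ≠ x := by simpa using h2 0 (by omega)
    have h3 : X.lab ((X.ρ * X.g) x) = X.lab x := hX.lab_g' hx
    rw [← h3]
    refine ih (by have h := h1; rw [pow_succ, Perm.mul_apply] at h; exact h) fun j hj => ?_
    have h4 := h2 (j + 1) (by omega)
    rw [pow_succ, Perm.mul_apply] at h4
    exact h4

open Classical in
/-- the labels after separating the fan of `t` -/
noncomputable def sepLab (X : Cx S) (t : S) (w : ℕ) (x : S) : ℕ :=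
  if X.inFan t x then w else X.lab x

/-- a label that is not used -/
def fresh (X : Cx S) (v : ℕ) : ℕ := v + 2 * (univ.sup X.lab + 1)

lemma fresh_ne (v : ℕ) (s : S) : X.lab s ≠ X.fresh v := by
  have h1 : X.lab s ≤ univ.sup X.lab := le_sup (mem_univ s)
  unfold fresh
  omega

lemma fresh_par (v : ℕ) : X.fresh v % 2 = v % 2 := by
  unfold fresh
  omega

/-- the complex in which the fan of `t` gets an own label -/
noncomputable def sep (X : Cx S) (t : S) : Cx S := X.relab (X.sepLab t (X.fresh (X.lab t)))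

lemma sep_of {t x : S} (h : X.inFan t x) : (X.sep t).lab x = X.fresh (X.lab t) := if_pos h

lemma sep_of_not {t x : S} (h : ¬ X.inFan t x) : (X.sep t).lab x = X.lab x := if_neg h

lemma Good.sep_eq (hX : X.Good) {t x y : S} (h : (X.sep t).lab x = (X.sep t).lab y) :
    X.lab x = X.lab y := by
  by_cases hx : X.inFan t x <;> by_cases hy : X.inFan t y
  · rw [hX.inFan_lab hx, hX.inFan_lab hy]
  · rw [sep_of hx, sep_of_not hy] at h
    exact absurd h.symm (fresh_ne _ _)
  · rw [sep_of_not hx, sep_of hy] at h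
    exact absurd h (fresh_ne _ _)
  · rwa [sep_of_not hx, sep_of_not hy] at h

lemma Good.sep_par (hX : X.Good) (t x : S) : (X.sep t).lab x % 2 = X.lab x % 2 := by
  by_cases hx : X.inFan t x
  · rw [sep_of hx, fresh_par, hX.inFan_lab hx]
  · rw [sep_of_not hx]

theorem Good.sep (hX : X.Good) {t : S} (ht : X.g t = t) : (X.sep t).Good where
  rho4 := hX.rho4
  rho2 := hX.rho2
  A_rho := hX.A_rho
  A_g := hX.A_g
  lab_g := by
    intro s hs
    have hs' : X.g s ≠ s := hs
    have h1 : X.g (X.g s) ≠ X.g s := by rw [X.inv]; exact fun h => hs' h.symm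
    have h2 : (X.ρ * X.g) (X.g s) = X.ρ s := by rw [Perm.mul_apply, X.inv]
    have h3 : X.inFan t (X.ρ s) ↔ X.inFan t (X.g s) := by
      rw [← h2]
      exact inFan_step ht h1
    change (X.sep t).lab (X.g s) = (X.sep t).lab (X.ρ s)
    by_cases h4 : X.inFan t (X.g s)
    · rw [sep_of h4, sep_of (h3.2 h4)]
    · rw [sep_of_not h4, sep_of_not (fun h => h4 (h3.1 h))]
      exact hX.lab_g s hs'
  par := by
    intro s hs
    have h1 := hX.par s hs
    have h2 := hX.sep_par t s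
    have h3 := hX.sep_par t (X.ρ s)
    change ((X.sep t).lab s + (X.sep t).lab (X.ρ s)) % 2 = 1
    omega
  lin := hX.lin
  planar := hX.planar

/-- the old label as a function of the new one -/
def unsep (X : Cx S) (t : S) (n : ℕ) : ℕ := if n = X.fresh (X.lab t) then X.lab t else n

lemma Good.unsep_lab (hX : X.Good) (t x : S) : X.unsep t ((X.sep t).lab x) = X.lab x := by
  by_cases hx : X.inFan t x
  · rw [sep_of hx, hX.inFan_lab hx]
    exact if_pos rfl
  · rw [sep_of_not hx]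
    exact if_neg (fresh_ne _ _)

lemma Good.unsep_cov (hX : X.Good) {t : S} {D : Finset ℕ} (h : (X.sep t).Cov D) :
    X.Cov (D.image (X.unsep t)) := by
  have key : ∀ x, (X.sep t).lab x ∈ D → X.lab x ∈ D.image (X.unsep t) := fun x hx =>
    mem_image.2 ⟨_, hx, hX.unsep_lab t x⟩
  intro s hs
  rcases h s hs with h | h | h | h
  · exact Or.inl (key _ h)
  · exact Or.inr (Or.inl (key _ h))
  · exact Or.inr (Or.inr (Or.inl (key _ h)))
  · exact Or.inr (Or.inr (Or.inr (key _ h)))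

lemma Good.sep_tau_le (hX : X.Good) (t : S) : X.tau ≤ (X.sep t).tau := by
  obtain ⟨C, hC, hc⟩ := (X.sep t).exists_cov
  rw [← hc]
  exact (tau_le (hX.unsep_cov hC)).trans card_image_le

lemma Good.sep_conn_le (hX : X.Good) {t x y : S} (h : (X.sep t).conn x y) : X.conn x y :=
  conn_le (X := X.sep t) (q := X.conn) (fun s => conn_rho (X := X) s)
    (fun _ hs _ ht h => conn_lab (X := X) hs ht (hX.sep_eq h)) h

/-- separating a fan splits at most one component into two -/
lemma Good.sep_join (hX : X.Good) {s t : S} (hs : s ∈ X.A) (ht : t ∈ X.A) (hsg : X.g s = s)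
    (hst : s ≠ t) (hl : X.lab s = X.lab t) {x y : S} :
    X.conn x y ↔ join (X.sep t).conn s t x y := by
  constructor
  · intro h
    refine conn_le (X := X) (q := join (X.sep t).conn s t)
      (fun x => Or.inl (conn_rho (X := X.sep t) x)) (fun x hx y hy hxy => ?_) h
    have hs1 : (X.sep t).lab s = X.lab s :=
      sep_of_not fun h => hst ((inFan_free hsg).1 h)
    have ht1 : (X.sep t).lab t = X.fresh (X.lab t) := sep_of (inFan_self t)
    by_cases h1 : X.inFan t x <;> by_cases h2 : X.inFan t y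
    · exact Or.inl (conn_lab (X := X.sep t) hx hy (by rw [sep_of h1, sep_of h2]))
    · refine Or.inr (Or.inr ⟨conn_lab (X := X.sep t) hx ht (by rw [sep_of h1, ht1]),
        conn_lab (X := X.sep t) hs hy ?_⟩)
      rw [hs1, sep_of_not h2, hl, ← hxy, hX.inFan_lab h1]
    · refine Or.inr (Or.inl ⟨conn_lab (X := X.sep t) hx hs ?_,
        conn_lab (X := X.sep t) ht hy (by rw [sep_of h2, ht1])⟩)
      rw [hs1, sep_of_not h1, hl, hxy, hX.inFan_lab h2]
    · exact Or.inl (conn_lab (X := X.sep t) hx hy (by rw [sep_of_not h1, sep_of_not h2, hxy]))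
  · intro h
    have h1 : join (X.sep t).conn s t ≤ X.conn :=
      join_le (fun _ _ h => hX.sep_conn_le h) (conn_lab (X := X) hs ht hl)
    exact h1 h

/-- more labels -/
lemma Good.sep_nlab (hX : X.Good) {s t : S} (hs : s ∈ X.A) (ht : t ∈ X.A) (hsg : X.g s = s)
    (hst : s ≠ t) (hl : X.lab s = X.lab t) : X.nlab < (X.sep t).nlab := by
  unfold nlab
  have hs1 : (X.sep t).lab s = X.lab s := sep_of_not fun h => hst ((inFan_free hsg).1 h)
  have ht1 : (X.sep t).lab t = X.fresh (X.lab t) := sep_of (inFan_self t)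
  have h1 : insert (X.fresh (X.lab t)) (X.A.image X.lab) ⊆ (X.sep t).A.image (X.sep t).lab := by
    intro n hn
    rcases mem_insert.1 hn with rfl | hn
    · exact mem_image.2 ⟨t, ht, ht1⟩
    · obtain ⟨x, hx, rfl⟩ := mem_image.1 hn
      by_cases h2 : X.inFan t x
      · refine mem_image.2 ⟨s, hs, ?_⟩
        rw [hs1, hl, hX.inFan_lab h2]
      · exact mem_image.2 ⟨x, hx, sep_of_not h2⟩
  have h2 := card_le_card h1
  rw [card_insert_of_notMem] at h2
  · omega
  · intro h3
    obtain ⟨x, -, hx⟩ := mem_image.1 h3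
    exact fresh_ne _ _ hx

/-- a minimal counterexample has no pinches -/
theorem Min.pf (hX : X.Min) : X.PF := by
  classical
  intro s hs t ht hsg htg hl
  by_contra hst
  have hG := hX.good
  have hY : (X.sep t).Good := hG.sep htg
  have hPX := hG.P_eq
  have hPY := hY.P_eq
  have hbad := hX.bad
  have htau := hG.sep_tau_le t
  have hA : (X.sep t).A = X.A := rfl
  have hg : (X.sep t).g = X.g := rfl
  rw [hA, hg] at hPY
  by_cases hc : (X.sep t).conn s t
  · -- the number of components does not change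
    have h1 : (X.sep t).c = X.c := by
      refine nc_congr (A := X.A) fun x _ y _ => ?_
      rw [hG.sep_join hs ht hsg hst hl, join_of_rel hc]
    have h2 := hX.labs (X.sep t) hY rfl rfl (hG.sep_nlab hs ht hsg hst hl)
    rw [h1] at hPY
    have h3 : (X.tau : ℤ) ≤ (X.sep t).tau := by exact_mod_cast htau
    omega
  · -- two components
    have h1 : X.c + 1 = (X.sep t).c := by
      have h2 : nc (join (X.sep t).conn s t) X.A + 1 = nc (X.sep t).conn X.A :=
        nc_join hs ht hc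
      have h3 : X.c = nc (join (X.sep t).conn s t) X.A := by
        refine nc_congr (A := X.A) fun x _ y _ => ?_
        exact hG.sep_join hs ht hsg hst hl
      rw [h3]
      exact h2
    set Y := X.sep t with hYdef
    set B := Y.A.filter fun x => Y.conn s x with hB
    have hBA : B ⊆ Y.A := filter_subset _ _
    have hB1 : ∀ x ∈ B, ∀ y, Y.conn x y → y ∈ B := by
      intro x hx y hxy
      obtain ⟨h1, h2⟩ := mem_filter.1 hx
      exact mem_filter.2 ⟨(hY.conn_mem hxy).1 h1, Y.conn.trans h2 hxy⟩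
    have hcl : Y.Cl B := fun s hs => hB1 s hs _ (conn_rho s)
    obtain ⟨h2, h3⟩ := hY.split hBA hB1
    have hA1 : (Y.sub B).A = B := inter_eq_right.2 hBA
    have hA2 : (Y.sub (Y.A \ B)).A = Y.A \ B := inter_eq_right.2 sdiff_subset
    have hsB : s ∈ B := mem_filter.2 ⟨hs, Y.conn.refl s⟩
    have htB : t ∉ B := fun h => hc (mem_filter.1 h).2
    have hl1 : (Y.sub B).A.card < X.A.card := by
      rw [hA1]
      exact card_lt_card ⟨hBA, fun hh => htB (hh ht)⟩
    have hl2 : (Y.sub (Y.A \ B)).A.card < X.A.card := by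
      rw [hA2]
      exact card_lt_card ⟨sdiff_subset, fun hh => (mem_sdiff.1 (hh hs)).2 hsB⟩
    have hG1 := hY.sub hcl
    have hG2 := hY.sub (hY.cl_sdiff hY.cl_A hcl)
    have h4 := hX.ih S (Y.sub B) hG1 hl1
    have h5 := hX.ih S (Y.sub (Y.A \ B)) hG2 hl2
    have ih1 : IH (Y.sub B).A.card := fun S' _ _ Z hZ hlt => hX.ih S' Z hZ (hlt.trans hl1)
    have ih2 : IH (Y.sub (Y.A \ B)).A.card := fun S' _ _ Z hZ hlt => hX.ih S' Z hZ (hlt.trans hl2)
    have hs1 : Y.lab s = X.lab s := sep_of_not fun h => hst ((inFan_free hsg).1 h)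
    have ht1 : Y.lab t = X.fresh (X.lab t) := sep_of (inFan_self t)
    have h6 : (X.c : ℤ) + 1 = Y.c := by exact_mod_cast h1
    have h7 : (X.tau : ℤ) ≤ Y.tau := by exact_mod_cast htau
    have h8 : (Y.tau : ℤ) ≤ (Y.sub B).tau + (Y.sub (Y.A \ B)).tau := by exact_mod_cast h3
    have k1 := fr_iff.1 <| hG1.tig ih1 (by omega) (v := X.lab s)
      ⟨s, mem_filter.2 ⟨by rw [hA1]; exact hsB, hs1⟩⟩
    have k2 := fr_iff.1 <| hG2.tig ih2 (by omega) (v := X.fresh (X.lab t))
      ⟨t, mem_filter.2 ⟨by rw [hA2]; exact mem_sdiff.2 ⟨ht, htB⟩, ht1⟩⟩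
    obtain ⟨C1, hC1, hc1⟩ := ((Y.sub B).del {X.lab s}).exists_cov
    obtain ⟨C2, hC2, hc2⟩ := ((Y.sub (Y.A \ B)).del {X.fresh (X.lab t)}).exists_cov
    have k3 := cov_star hC1
    have k4 := cov_star hC2
    -- the union covers `Y`
    have k5 : Y.Cov ((C1 ∪ {X.lab s}) ∪ (C2 ∪ {X.fresh (X.lab t)})) := by
      intro x hx
      by_cases hxB : x ∈ B
      · have := k3 x (by rw [hA1]; exact hxB)
        exact (Cov.mono (X := Y.sub B) k3 subset_union_left) x (by rw [hA1]; exact hxB)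
      · exact (Cov.mono (X := Y.sub (Y.A \ B)) k4 subset_union_right) x
          (by rw [hA2]; exact mem_sdiff.2 ⟨hx, hxB⟩)
    have k6 := hG.unsep_cov k5
    have k7 : ((C1 ∪ {X.lab s}) ∪ (C2 ∪ {X.fresh (X.lab t)})).image (X.unsep t) ⊆
        (C1.image (X.unsep t) ∪ C2.image (X.unsep t)) ∪ {X.lab s} := by
      have e1 : X.unsep t (X.lab s) = X.lab s := if_neg (fresh_ne _ _)
      have e2 : X.unsep t (X.fresh (X.lab t)) = X.lab s := by rw [hl]; exact if_pos rfl
      intro n hn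
      obtain ⟨m, hm, rfl⟩ := mem_image.1 hn
      simp only [mem_union, mem_singleton] at hm ⊢
      rcases hm with (hm | hm) | (hm | hm)
      · exact Or.inl (Or.inl (mem_image_of_mem _ hm))
      · exact Or.inr (by rw [hm, e1])
      · exact Or.inl (Or.inr (mem_image_of_mem _ hm))
      · exact Or.inr (by rw [hm, e2])
    have k8 := (tau_le k6).trans (card_le_card k7)
    have k9 := card_union_le (C1.image (X.unsep t) ∪ C2.image (X.unsep t)) {X.lab s}
    have k10 := card_union_le (C1.image (X.unsep t)) (C2.image (X.unsep t))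
    have k11 : (C1.image (X.unsep t)).card ≤ C1.card := card_image_le
    have k12 : (C2.image (X.unsep t)).card ≤ C2.card := card_image_le
    rw [card_singleton] at k9 k1 k2
    omega

end Cx

end Pool.Agent.Lib.MP06c549.Z
end

section
/-!
# MP_06c549_co, Z: double gates (section 2 of the text), the cut of two parallel gates

`DP X s t B`: `s`, `t` are different gates from `v = lab s = lab t` to `x = lab (ρ s) = lab (ρ t)`,
`B` is one of the two parts after cutting them, it contains `t` and `g s`, the other part contains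
`s` and `g t`. The fan of `v` ends in exactly one of the two parts, and so does the fan of `x`.
-/
set_option autoImplicit false
set_option linter.unusedSectionVars false

namespace Pool.Agent.Lib.MP06c549.Z

open Equiv Equiv.Perm Finset

variable {S : Type} [Fintype S] [DecidableEq S]

namespace Cx

variable {X : Cx S}

/-- two parts -/
theorem Part.compl {B F : Finset S} (h : X.Part B F) (hX : X.Good) :
    X.Part (X.A \ B) (F.image X.g) := by
  have hBB : X.A \ (X.A \ B) = B := by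
    rw [sdiff_sdiff_right_self]
    exact inter_eq_right.2 h.sub
  refine ⟨sdiff_subset, h.cl' hX, h.ne', by rw [hBB]; exact h.ne, ?_, ?_, h.conn', ?_⟩
  · intro x hx
    obtain ⟨y, hy, rfl⟩ := mem_image.1 hx
    have h1 := (h.F_g y (h.F_sub hy)).1 hy
    exact mem_sdiff.2 ⟨hX.g_mem_iff.2 (h.sub (h.F_sub hy)), h1⟩
  · intro x hx
    obtain ⟨hxA, hxB⟩ := mem_sdiff.1 hx
    constructor
    · intro hxF
      obtain ⟨y, hy, rfl⟩ := mem_image.1 hxF
      rw [X.inv]
      exact fun hh => (mem_sdiff.1 hh).2 (h.F_sub hy)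
    · intro hgx
      have h1 : X.g x ∈ B := by
        by_contra h2
        exact hgx (mem_sdiff.2 ⟨hX.g_mem_iff.2 hxA, h2⟩)
      refine mem_image.2 ⟨X.g x, (h.F_g _ h1).2 (by rw [X.inv]; exact hxB), X.inv x⟩
  · rw [hBB]
    exact h.conn

/-- a double gate and the two parts after cutting it -/
structure DP (X : Cx S) (s t : S) (B : Finset S) : Prop where
  part : X.Part B {t, X.g s}
  hs : X.g s ≠ s
  ht : X.g t ≠ t
  ts : t ≠ s
  tgs : t ≠ X.g s
  sB : s ∉ B
  gtB : X.g t ∉ B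
  cyc : SameCycle (X.ρ * (X.sub B).g) t (X.g s)
  cyc' : SameCycle (X.ρ * (X.sub (X.A \ B)).g) s (X.g t)
  v : X.lab s = X.lab t
  x : X.lab (X.ρ s) = X.lab (X.ρ t)

namespace DP

variable {s t : S} {B : Finset S}

lemma sdd (h : X.DP s t B) : X.A \ (X.A \ B) = B := by
  rw [sdiff_sdiff_right_self]
  exact inter_eq_right.2 h.part.sub

lemma tB (h : X.DP s t B) : t ∈ B := h.part.F_sub (mem_insert_self _ _)

lemma gsB (h : X.DP s t B) : X.g s ∈ B := h.part.F_sub (mem_insert_of_mem (mem_singleton_self _))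

lemma sA (h : X.DP s t B) (hX : X.Good) : s ∈ X.A \ B := mem_sdiff.2 ⟨hX.A_g s h.hs, h.sB⟩

lemma gtA (h : X.DP s t B) (hX : X.Good) : X.g t ∈ X.A \ B :=
  mem_sdiff.2 ⟨hX.g_mem h.ht, h.gtB⟩

/-- the two parts exchanged -/
theorem sym1 (h : X.DP s t B) (hX : X.Good) : X.DP t s (X.A \ B) where
  part := by
    have h1 := h.part.compl hX
    rw [image_insert, image_singleton, X.inv, pair_comm] at h1
    exact h1
  hs := h.ht
  ht := h.hs
  ts := h.ts.symm
  tgs := fun hh => h.tgs (by rw [hh, X.inv])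
  sB := fun hh => (mem_sdiff.1 hh).2 h.tB
  gtB := fun hh => (mem_sdiff.1 hh).2 h.gsB
  cyc := h.cyc'
  cyc' := by rw [h.sdd]; exact h.cyc
  v := h.v.symm
  x := h.x.symm

/-- the two vertices exchanged -/
theorem sym2 (h : X.DP s t B) (hX : X.Good) : X.DP (X.g t) (X.g s) B where
  part := by
    rw [X.inv, pair_comm]
    exact h.part
  hs := by rw [X.inv]; exact h.ht.symm
  ht := by rw [X.inv]; exact h.hs.symm
  ts := fun hh => h.ts (X.g.injective hh).symm
  tgs := by rw [X.inv]; exact h.tgs.symm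
  sB := h.gtB
  gtB := by rw [X.inv]; exact h.sB
  cyc := by rw [X.inv]; exact h.cyc.symm
  cyc' := by rw [X.inv]; exact h.cyc'.symm
  v := by rw [hX.lab_g t h.ht, hX.lab_g s h.hs]; exact h.x.symm
  x := by rw [hX.lab_g' h.ht, hX.lab_g' h.hs]; exact h.v.symm

lemma vx (h : X.DP s t B) (hX : X.Good) : X.lab s ≠ X.lab (X.ρ s) := by
  have := hX.par s (hX.A_g s h.hs)
  intro hh
  rw [hh] at this
  omega

/-- crossing the boundary of `B` inside the fan of `v` -/
lemma cross (h : X.DP s t B) (hX : X.Good) {y : S} (hy : X.lab y = X.lab s) (h1 : y ≠ s)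
    (h2 : y ≠ t) : X.g y ∈ B ↔ y ∈ B := by
  have hv := h.vx hX
  have e1 : X.lab (X.g s) = X.lab (X.ρ s) := hX.lab_g s h.hs
  have e2 : X.lab (X.g t) = X.lab (X.ρ s) := by rw [hX.lab_g t h.ht, h.x]
  constructor
  · intro h3
    by_contra h4
    have h5 : X.g y ∈ ({t, X.g s} : Finset S) := (h.part.F_g _ h3).2 (by rw [X.inv]; exact h4)
    rw [mem_insert, mem_singleton] at h5
    rcases h5 with h5 | h5
    · have h6 : y = X.g t := by rw [← h5, X.inv]
      exact hv (by rw [← hy, h6, e2])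
    · exact h1 (X.g.injective h5)
  · intro h3
    by_contra h4
    have h5 := (h.part.F_g _ h3).2 h4
    rw [mem_insert, mem_singleton] at h5
    rcases h5 with h5 | h5
    · exact h2 h5
    · exact hv (by rw [← hy, h5, e1])

/-- if the fan of `v` ends outside `B`, then `t` is behind `s` in the fan, and the fan after `t` is
outside `B` -/
theorem pos (h : X.DP s t B) (hX : X.Good) (hpf : X.PF) {f : S} (hf : X.g f = f) (hfA : f ∈ X.A)
    (hfv : X.lab f = X.lab s) (hfB : f ∉ B) :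
    ∃ p q, X.At f p s ∧ X.At f (q + 1) t ∧ q + 1 < p ∧ ∀ i ≤ q, ∀ y, X.At f i y → y ∉ B := by
  obtain ⟨p, hp⟩ := hX.at_of_pf hpf hf hfA (hX.A_g s h.hs) hfv.symm
  obtain ⟨q, hq⟩ := hX.at_of_pf hpf hf hfA (hX.A_g t h.ht) (by rw [← h.v, hfv])
  have hpq : p ≠ q := by
    rintro rfl
    exact h.ts (at_inj hq hp)
  -- below both positions everything is outside
  have key : ∀ i, i < p → i < q → ∀ y, X.At f i y → y ∉ B := by
    intro i
    induction i with
    | zero =>
      intro _ _ y hy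
      rw [at_zero.1 hy]
      exact hfB
    | succ i ih =>
      intro h1 h2 y hy
      obtain ⟨h3, h4⟩ := at_succ.1 hy
      have h5 := ih (by omega) (by omega) _ h4
      have h6 : y ≠ s := by
        rintro rfl
        have := at_unique hf hp hy
        omega
      have h7 : y ≠ t := by
        rintro rfl
        have := at_unique hf hq hy
        omega
      have h8 := h.cross hX ((hX.at_lab hy).trans hfv) h6 h7
      intro h9
      exact h5 ((hX.cl_iff h.part.cl).2 (h8.2 h9))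
  rcases q with _ | q
  · have h1 := at_zero.1 hq
    exact absurd (h1 ▸ hf) h.ht
  rcases p with _ | p
  · have h1 := at_zero.1 hp
    exact absurd (h1 ▸ hf) h.hs
  by_cases hlt : p + 1 < q + 1
  · exfalso
    obtain ⟨h3, h4⟩ := at_succ.1 hp
    exact key p (by omega) (by omega) _ h4 ((hX.cl_iff h.part.cl).2 h.gsB)
  · exact ⟨p + 1, q, hp, hq, by omega, fun i hi y hy => key i (by omega) (by omega) y hy⟩

/-- the fan of `v` outside `B` after gluing `s` and `g t` -/
theorem path (h : X.DP s t B) (hX : X.Good) (hpf : X.PF) {f : S} (hf : X.g f = f) (hfA : f ∈ X.A)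
    (hfv : X.lab f = X.lab s) (hfB : f ∉ B) :
    SameCycle (X.ρ * ((X.sub (X.A \ B)).g * swap s (X.g t))) s f := by
  obtain ⟨p, q, hp, hq, hpq, hout⟩ := h.pos hX hpf hf hfA hfv hfB
  obtain ⟨h3, h4⟩ := at_succ.1 hq
  have h0 : (X.sub (X.A \ B)).g (X.g t) = X.g t :=
    sub_g_not (by rw [X.inv]; exact fun hh => (mem_sdiff.1 hh).2 h.tB)
  have h1 : SameCycle (X.ρ * ((X.sub (X.A \ B)).g * swap s (X.g t))) s (X.ρ (X.g t)) := by
    refine ⟨1, ?_⟩
    rw [zpow_one, Perm.mul_apply, Perm.mul_apply, swap_apply_left, h0]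
  refine h1.trans (cycle_at (l := 0) (at_zero.2 rfl) h4 (Nat.zero_le _) fun z i hz hi hiq => ?_)
  have hz1 : z ≠ s := by
    rintro rfl
    have := at_unique hf hp hz
    omega
  have hz2 : z ≠ t := by
    rintro rfl
    have := at_unique hf hq hz
    omega
  have hzl : X.lab z = X.lab s := (hX.at_lab hz).trans hfv
  have hz3 : z ≠ X.g t := by
    rintro rfl
    rw [hX.lab_g t h.ht, ← h.x] at hzl
    exact h.vx hX hzl.symm
  have hzB : z ∉ B := hout i hiq z hz
  obtain ⟨j, rfl⟩ : ∃ j, i = j + 1 := ⟨i - 1, by omega⟩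
  have hzg := (at_succ.1 hz).1
  have hzA := hX.A_g z hzg
  rw [Perm.mul_apply, swap_apply_of_ne_of_ne hz1 hz3]
  refine sub_g_mem (mem_sdiff.2 ⟨hzA, hzB⟩) (mem_sdiff.2 ⟨hX.g_mem_iff.2 hzA, fun hh => hzB ?_⟩)
  exact (h.cross hX hzl hz1 hz2).1 hh

lemma g_s (h : X.DP s t B) : (X.sub (X.A \ B)).g s = s :=
  sub_g_not fun hh => (mem_sdiff.1 hh).2 h.gsB

lemma g_gt (h : X.DP s t B) : (X.sub (X.A \ B)).g (X.g t) = X.g t :=
  sub_g_not (by rw [X.inv]; exact fun hh => (mem_sdiff.1 hh).2 h.tB)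

lemma g_t (h : X.DP s t B) : (X.sub B).g t = t := sub_g_not h.gtB

lemma ne' (h : X.DP s t B) : s ≠ X.g t := fun hh => h.tgs (by rw [hh, X.inv])

lemma sub_free {f : S} (hf : X.g f = f) (C : Finset S) : (X.sub C).g f = f := by
  rw [sub_g]
  split_ifs
  · exact hf
  · rfl

/-- closing the double side outside `B` if both fans end outside `B` -/
theorem close (h : X.DP s t B) (hX : X.Min) {f e : S} (hf : X.g f = f) (hfA : f ∈ X.A)
    (hfv : X.lab f = X.lab s) (hfB : f ∉ B) (he : X.g e = e) (heA : e ∈ X.A)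
    (hex : X.lab e = X.lab (X.ρ s)) (heB : e ∉ B) :
    1 ≤ (X.sub (X.A \ B)).sl ∧ ((X.sub (X.A \ B)).sl = 1 →
      ∀ a ∈ X.A \ B, (X.sub (X.A \ B)).Fr {X.lab a}) := by
  have hG := hX.good
  have hpf := hX.pf
  set Y := X.sub (X.A \ B) with hY
  have hYG : Y.Good := hG.sub (h.part.cl' hG)
  have hYA : Y.A = X.A \ B := h.part.A_eq'
  have h2 := h.sym2 hG
  have hlab : X.lab (X.g t) = X.lab (X.ρ s) := by rw [hG.lab_g t h.ht, h.x]
  have p1 := h.path hG hpf hf hfA hfv hfB
  have p2 := h2.path hG hpf he heA (by rw [hex, hlab]) heB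
  rw [X.inv, swap_comm] at p2
  have hZ : (Y.glue s (X.g t) h.g_s h.g_gt).Good := by
    refine hYG.glueG h.g_s h.g_gt h.ne' (by rw [hYA]; exact h.sA hG)
      (by rw [hYA]; exact h.gtA hG) ?_ ?_ (Or.inl h.cyc') ?_ ?_
    · change X.lab s = X.lab (X.ρ (X.g t))
      rw [hG.lab_g' h.ht, h.v]
    · exact hlab
    · refine ⟨f, p1, ?_⟩
      rw [Perm.mul_apply, swap_apply_of_ne_of_ne, sub_free hf]
      · exact fun hh => h.hs (hh ▸ hf)
      · exact fun hh => by
          rw [hh, X.inv] at hf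
          exact h.ht hf.symm
    · refine ⟨e, p2, ?_⟩
      rw [Perm.mul_apply, swap_apply_of_ne_of_ne, sub_free he]
      · exact fun hh => h.hs (hh ▸ he)
      · exact fun hh => by
          rw [hh, X.inv] at he
          exact h.ht he.symm
  have hP := glue_P (X := Y) h.g_s h.g_gt h.ne'
  have hT := glue_tau (X := Y) h.g_s h.g_gt
  have hlt : Y.A.card < X.A.card := h.part.card_lt'
  have h3 := hX.ih S (Y.glue s (X.g t) h.g_s h.g_gt) hZ hlt
  rw [hP, hT] at h3
  refine ⟨by unfold sl; linarith, fun h4 a ha => ?_⟩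
  have h5 : (Y.glue s (X.g t) h.g_s h.g_gt).Fr {X.lab a} := by
    refine hZ.tig (fun T _ _ Z hZ' hlt' => hX.ih T Z hZ' (hlt'.trans hlt)) ?_
      ⟨a, mem_filter.2 ⟨by rw [glue_A, hYA]; exact ha, rfl⟩⟩
    rw [hP, hT]
    unfold sl at h4
    linarith
  exact h5

/-- the cell test outside `B` -/
theorem celltest (h : X.DP s t B) (hX : X.Min) {f : S} (hf : X.g f = f) (hfA : f ∈ X.A)
    (hfv : X.lab f = X.lab s) (hfB : f ∉ B) (hcard : 4 < B.card)
    (hsl : (X.sub (X.A \ B)).sl ≤ 2) :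
    (X.sub (X.A \ B)).Fr {X.lab s} ∨ (X.sub (X.A \ B)).Fr {X.lab (X.ρ s)} := by
  have hG := hX.good
  have hpf := hX.pf
  set Y := X.sub (X.A \ B) with hY
  have hYG : Y.Good := hG.sub (h.part.cl' hG)
  have hYA : Y.A = X.A \ B := h.part.A_eq'
  have hlab : X.lab (X.g t) = X.lab (X.ρ s) := by rw [hG.lab_g t h.ht, h.x]
  have p1 := h.path hG hpf hf hfA hfv hfB
  have hc1 := card_sdiff_add_card_eq_card h.part.sub
  have key := cell_test hX.ih hYG (by rw [hYA]; omega) (s := X.g t) (t := s)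
    (by rw [hYA]; exact h.gtA hG) (by rw [hYA]; exact h.sA hG) h.g_gt h.g_s h.ne'.symm
    (by change X.lab (X.ρ (X.g t)) = X.lab s; rw [hG.lab_g' h.ht, h.v])
    (Or.inl h.cyc'.symm) (fun _ => ⟨f, by
      rw [mul_assoc, swap_comm]
      exact p1, fun hh => by
        rw [hh, X.inv] at hf
        exact h.ht hf.symm, fun hh => h.hs (hh ▸ hf), sub_free hf _⟩)
    (by unfold sl at hsl; linarith)
  rcases key with h1 | h1 | h1
  · right
    have h2 : Y.lab (X.g t) = X.lab (X.ρ s) := hlab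
    rwa [h2] at h1
  · exact Or.inl h1
  · exact Or.inr h1

/-- no saving -/
lemma nosave (h : X.DP s t B) (hX : X.Min) {v : ℕ} (h1 : (X.sub B).Fr {v})
    (h2 : (X.sub (X.A \ B)).Fr {v}) : False := by
  obtain ⟨C, hC, hvC, hc⟩ := h1
  obtain ⟨D, hD, hvD, hd⟩ := h2
  have h3 := tau_add_le hC hD hvC hvD
  have h4 := (h.part.slack hX (by
    rw [card_pair h.tgs]; norm_num) (by rw [card_pair h.tgs]; norm_num)).1
  rw [card_singleton] at h3
  omega

lemma slack2 (h : X.DP s t B) (hX : X.Min) :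
    (X.sub B).sl + (X.sub (X.A \ B)).sl = 2 := by
  have h4 := (h.part.slack hX (by
    rw [card_pair h.tgs]; norm_num) (by rw [card_pair h.tgs]; norm_num)).2
  rw [card_pair h.tgs] at h4
  exact_mod_cast h4

/-- labels of a tight part -/
lemma tight (h : X.DP s t B) (hX : X.Min) (h0 : (X.sub B).sl = 0) {a : S} (ha : a ∈ B) :
    (X.sub B).Fr {X.lab a} := by
  have hlt : (X.sub B).A.card < X.A.card := h.part.card_lt
  refine (hX.good.sub h.part.cl).tig (fun T _ _ Z hZ' hlt' => hX.ih T Z hZ' (hlt'.trans hlt)) ?_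
    ⟨a, mem_filter.2 ⟨by rw [h.part.A_eq]; exact ha, rfl⟩⟩
  unfold sl at h0
  linarith

/-- `B` has only one cell -/
theorem one_cell (h : X.DP s t B) (hX : X.Good) (hB : B.card ≤ 4) :
    B = X.cell t ∧ (X.g s = X.ρ t ∨ X.g s = X.ρ (X.ρ (X.ρ t))) := by
  have h1 : X.cell t = B := eq_of_subset_of_card_le (cell_sub h.part.cl h.tB)
    (by rw [hX.card_cell]; exact hB)
  refine ⟨h1.symm, ?_⟩
  have h2 : X.g s ∈ X.cell t := by rw [h1]; exact h.gsB
  rcases mem_cell.1 h2 with h3 | h3 | h3 | h3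
  · exact absurd h3.symm h.tgs
  · exact Or.inl h3
  · exfalso
    have htA := hX.A_g t h.ht
    have a1 := hX.par t htA
    have a2 := hX.par _ (hX.A_rho t htA)
    have a3 := hX.lab_g s h.hs
    rw [h3, h.x] at a3
    omega
  · exact Or.inr h3

/-- a side of the cell `B` that is not a gate is free -/
lemma cell_free (h : X.DP s t B) (hX : X.Good) (hB : B = X.cell t) {y : S} (hy : y ∈ B)
    (h1 : y ≠ t) (h2 : y ≠ X.g s) : X.g y = y := by
  by_contra h3
  have h4 : X.g y ∉ X.cell t := hX.g_notMem_cell (hB ▸ hy) h3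
  rw [← hB] at h4
  have h5 := (h.part.F_g y hy).2 h4
  rw [mem_insert, mem_singleton] at h5
  rcases h5 with h5 | h5
  · exact h1 h5
  · exact h2 h5

/-- if the fan of `v` ends outside the single cell `B`, then `ρ (g s) = t`, and the fan of `x` ends
in `B` -/
theorem one_cell' (h : X.DP s t B) (hX : X.Good) (hpf : X.PF) (hB : B.card ≤ 4) {f : S}
    (hf : X.g f = f) (hfA : f ∈ X.A) (hfv : X.lab f = X.lab s) (hfB : f ∉ B) :
    B = X.cell t ∧ X.g s = X.ρ (X.ρ (X.ρ t)) ∧ X.g (X.ρ t) = X.ρ t ∧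
      X.g (X.ρ (X.ρ t)) = X.ρ (X.ρ t) := by
  obtain ⟨h1, h2⟩ := h.one_cell hX hB
  have htA := hX.A_g t h.ht
  have c1 : X.ρ t ∈ B := h.part.cl t h.tB
  have c2 : X.ρ (X.ρ t) ∈ B := h.part.cl _ c1
  have r1 := hX.rho1 t
  have r2 := hX.rho2 t
  have r3 : X.ρ (X.ρ t) ≠ X.ρ t := fun hh => r1 (X.ρ.injective hh)
  rcases h2 with h2 | h2
  · exfalso
    have h3 : X.g (X.ρ (X.ρ t)) = X.ρ (X.ρ t) := h.cell_free hX h1 c2 r2 (by rw [h2]; exact r3)
    have h4 : X.lab (X.ρ (X.ρ t)) = X.lab s := by rw [← h2, hX.lab_g' h.hs]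
    have h5 := hpf f hfA _ (h.part.sub c2) hf h3 (by rw [hfv, h4])
    exact hfB (h5 ▸ c2)
  · refine ⟨h1, h2, h.cell_free hX h1 c1 r1 ?_, h.cell_free hX h1 c2 r2 ?_⟩
    · rw [h2]
      intro hh
      exact hX.rho2 (X.ρ t) hh.symm
    · rw [h2]
      intro hh
      exact hX.rho1 (X.ρ (X.ρ t)) hh.symm

/-- the case where both fans end outside `B` -/
theorem c1 (h : X.DP s t B) (hX : X.Min) {f e : S} (hf : X.g f = f) (hfA : f ∈ X.A)
    (hfv : X.lab f = X.lab s) (hfB : f ∉ B) (he : X.g e = e) (heA : e ∈ X.A)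
    (hex : X.lab e = X.lab (X.ρ s)) (heB : e ∉ B) : False := by
  have hG := hX.good
  have hpf := hX.pf
  obtain ⟨k1, k2⟩ := h.close hX hf hfA hfv hfB he heA hex heB
  have k3 := h.slack2 hX
  have k4 := h.part.sl_nonneg hX
  have k5 := card_sdiff_add_card_eq_card h.part.sub
  rcases lt_or_eq_of_le k1 with k6 | k6
  · -- `B` is tight
    have k7 : (X.sub B).sl = 0 := by omega
    have k8 : (X.sub (X.A \ B)).sl ≤ 2 := by omega
    have k9 : 4 < B.card := by
      by_contra hh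
      obtain ⟨h1, h2, h3, h4⟩ := h.one_cell' hG hpf (by omega) hf hfA hfv hfB
      have c1 : X.ρ t ∈ B := h.part.cl t h.tB
      have h5 := hpf e heA _ (h.part.sub c1) he h3 (by rw [hex, h.x])
      exact heB (h5 ▸ c1)
    rcases h.celltest hX hf hfA hfv hfB k9 k8 with h1 | h1
    · exact h.nosave hX (by rw [h.v]; exact h.tight hX k7 h.tB) h1
    · refine h.nosave hX ?_ h1
      have h2 := h.tight hX k7 h.gsB
      rwa [hG.lab_g s h.hs] at h2
  · -- the part outside is tight after closing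
    have k7 : (X.sub B).sl = 1 := by omega
    have k8 : 4 < (X.A \ B).card := by
      by_contra hh
      obtain ⟨h1, h2⟩ := (h.sym1 hG).one_cell hG (by omega)
      rcases h2 with h2 | h2
      · -- `g t = ρ s`
        obtain ⟨p, q, hp, hq, hpq, -⟩ := (h.sym2 hG).pos hG hpf he heA
          (by rw [hex, hG.lab_g t h.ht, h.x]) heB
        obtain ⟨a1, a2⟩ := at_succ.1 hq
        rw [X.inv, ← h2] at a2
        have := at_unique he hp a2
        omega
      · -- `ρ (g t) = s`
        obtain ⟨p, q, hp, hq, hpq, -⟩ := h.pos hG hpf hf hfA hfv hfB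
        obtain ⟨a1, a2⟩ := at_succ.1 hq
        rw [h2, hG.rho4] at a2
        have := at_unique hf hp a2
        omega
    have htA : t ∈ (X.sub B).A := by rw [h.part.A_eq]; exact h.tB
    rcases leaf_test hX.ih (hG.sub h.part.cl) (by rw [h.part.A_eq]; omega) htA h.g_t
      (by unfold sl at k7; linarith) with h1 | h1
    · refine h.nosave hX h1 ?_
      have h2 := k2 k6.symm s (h.sA hG)
      rwa [h.v] at h2
    · refine h.nosave hX h1 ?_
      have h2 := k2 k6.symm (X.g t) (h.gtA hG)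
      rwa [hG.lab_g t h.ht] at h2

/-- type L: the fan of `v` ends outside `B`, that of `x` in `B`, and `B` is tight -/
theorem c2 (h : X.DP s t B) (hX : X.Min) {f e : S} (hf : X.g f = f) (hfA : f ∈ X.A)
    (hfv : X.lab f = X.lab s) (hfB : f ∉ B) (he : X.g e = e)
    (hex : X.lab e = X.lab (X.ρ s)) (heB : e ∈ B) (h0 : (X.sub B).sl = 0) :
    X.TL (X.g s) ∧ X.ρ (X.g s) = t ∧ (X.sub (X.A \ X.cell (X.g s))).sl = 2 ∧
      ¬ (X.sub (X.A \ X.cell (X.g s))).Fr {X.lab (X.g s)} ∧
      ¬ (X.sub (X.A \ X.cell (X.g s))).Fr {X.lab (X.ρ (X.g s))} := by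
  have hG := hX.good
  have hpf := hX.pf
  have k3 := h.slack2 hX
  have n1 : ¬ (X.sub (X.A \ B)).Fr {X.lab s} := fun h1 =>
    h.nosave hX (by rw [h.v]; exact h.tight hX h0 h.tB) h1
  have n2 : ¬ (X.sub (X.A \ B)).Fr {X.lab (X.ρ s)} := fun h1 => by
    refine h.nosave hX ?_ h1
    have h2 := h.tight hX h0 h.gsB
    rwa [hG.lab_g s h.hs] at h2
  have k4 : B.card ≤ 4 := by
    by_contra hh
    rcases h.celltest hX hf hfA hfv hfB (by omega) (by omega) with h1 | h1
    · exact n1 h1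
    · exact n2 h1
  obtain ⟨h1, h2, h3, h4⟩ := h.one_cell' hG hpf k4 hf hfA hfv hfB
  have e1 : X.ρ (X.g s) = t := by rw [h2, hG.rho4]
  have e2 : X.ρ (X.ρ (X.g s)) = X.ρ t := by rw [e1]
  have e3 : X.ρ (X.ρ (X.ρ (X.g s))) = X.ρ (X.ρ t) := by rw [e1]
  have e4 : X.cell (X.g s) = B := by
    rw [h1]
    exact hG.cell_eq (h1 ▸ h.gsB)
  have e5 : X.lab (X.g s) = X.lab (X.ρ t) := by rw [hG.lab_g s h.hs, h.x]
  refine ⟨⟨hG.g_mem h.hs, by rw [X.inv]; exact h.hs.symm, by rw [e1]; exact h.ht, by rw [e2]; exact h3,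
    by rw [e3]; exact h4, by rw [e2, e5], ?_⟩, e1, ?_, ?_, ?_⟩
  · intro y hy hyl
    rw [e3] at hyl ⊢
    have hzA : X.ρ (X.ρ t) ∈ X.A := hG.A_rho _ (hG.A_rho _ (hG.A_g t h.ht))
    obtain ⟨k, hk⟩ := hG.at_of_pf hpf h4 hzA hy hyl
    rcases k with _ | k
    · exact at_zero.1 hk
    · exfalso
      -- the last corner before the end
      have hj := hk.2 k (by omega)
      set y' := ((X.ρ * X.g) ^ k) y with hy'
      have h5 : X.ρ (X.g y') = X.ρ (X.ρ t) := by
        have h6 := hk.1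
        rw [pow_succ', Perm.mul_apply, Perm.mul_apply] at h6
        exact h6
      have h7 : X.g y' = X.ρ t := X.ρ.injective h5
      have h8 : y' = X.ρ t := by
        rw [← h3, ← h7, X.inv]
      exact hj (by rw [h7, h8])
  · rw [e4]
    omega
  · rw [e4, hG.lab_g s h.hs]
    exact n2
  · rw [e4, hG.lab_g' h.hs]
    exact n1

end DP

/-- the conclusion about a double gate -/
def DGout (X : Cx S) (s t z : S) : Prop :=
  X.TL z ∧ ((z = s ∧ X.ρ z = X.g t) ∨ (z = t ∧ X.ρ z = X.g s) ∨ (z = X.g s ∧ X.ρ z = t) ∨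
    (z = X.g t ∧ X.ρ z = s)) ∧ (X.sub (X.A \ X.cell z)).sl = 2 ∧
    ¬ (X.sub (X.A \ X.cell z)).Fr {X.lab z} ∧ ¬ (X.sub (X.A \ X.cell z)).Fr {X.lab (X.ρ z)}

/-- the case of slacks 1 and 1 is impossible -/
def SpecDG11 (X : Cx S) : Prop := ∀ (s t : S) (B : Finset S), X.DP s t B →
  ∀ f e : S, X.g f = f → f ∈ X.A → X.lab f = X.lab s → f ∉ B → X.g e = e →
    X.lab e = X.lab (X.ρ s) → e ∈ B → (X.sub B).sl = 1 → (X.sub (X.A \ B)).sl = 1 → False

theorem DP.c2' {s t : S} {B : Finset S} (h : X.DP s t B) (hX : X.Min) (h11 : SpecDG11 X) {f e : S}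
    (hf : X.g f = f) (hfA : f ∈ X.A) (hfv : X.lab f = X.lab s) (hfB : f ∉ B) (he : X.g e = e)
    (hex : X.lab e = X.lab (X.ρ s)) (heB : e ∈ B) : ∃ z, X.DGout s t z := by
  have hG := hX.good
  have k3 := h.slack2 hX
  have k4 := h.part.sl_nonneg hX
  have k5 := h.part.sl_nonneg' hX
  have k6 : (X.sub B).sl = 0 ∨ (X.sub B).sl = 1 ∨ (X.sub B).sl = 2 := by omega
  rcases k6 with k6 | k6 | k6
  · obtain ⟨h1, h2, h3, h4, h5⟩ := h.c2 hX hf hfA hfv hfB he hex heB k6
    exact ⟨X.g s, h1, Or.inr (Or.inr (Or.inl ⟨rfl, h2⟩)), h3, h4, h5⟩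
  · exact absurd (h11 s t B h f e hf hfA hfv hfB he hex heB k6 (by omega)) id
  · have h' := (h.sym1 hG).sym2 hG
    have heA : e ∈ X.A := h.part.sub heB
    have e1 : X.lab (X.g s) = X.lab (X.ρ s) := hG.lab_g s h.hs
    have e2 : X.lab (X.ρ (X.g s)) = X.lab s := hG.lab_g' h.hs
    obtain ⟨h1, h2, h3, h4, h5⟩ := h'.c2 hX he heA (by rw [hex, e1])
      (fun hh => (mem_sdiff.1 hh).2 heB) hf (by rw [hfv, e2]) (mem_sdiff.2 ⟨hfA, hfB⟩) (by omega)
    rw [X.inv] at h1 h2 h3 h4 h5
    exact ⟨s, h1, Or.inl ⟨rfl, h2⟩, h3, h4, h5⟩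

/-- **Double gates.** -/
theorem Min.dg_of (hX : X.Min) (h11 : SpecDG11 X) {s t : S} (hs : X.g s ≠ s) (ht : X.g t ≠ t)
    (hts : t ≠ s) (htg : t ≠ X.g s) (h1 : X.lab s = X.lab t) (h2 : X.lab (X.ρ s) = X.lab (X.ρ t))
    (hnb : ¬ SameCycle (X.ρ * X.g) s (X.g s)) : ∃ z, X.DGout s t z := by
  have hG := hX.good
  have hpf := hX.pf
  have hsA := hG.A_g s hs
  have htA := hG.A_g t ht
  -- the ends of the fans
  obtain ⟨f, f1, f2, f3⟩ := hG.exists_free hsA
  obtain ⟨f', g1, g2, g3⟩ := hG.exists_free htA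
  have hff : f' = f := hpf f' (mem_free.1 g1).1 f (mem_free.1 f1).1 (mem_free.1 g1).2
    (mem_free.1 f1).2 (by rw [g2, f2, h1])
  rw [hff] at g3
  have hgs : X.g (X.g s) ≠ X.g s := by rw [X.inv]; exact hs.symm
  have hgt : X.g (X.g t) ≠ X.g t := by rw [X.inv]; exact ht.symm
  obtain ⟨e, e1, e2, e3⟩ := hG.exists_free (hG.A_g _ hgs)
  obtain ⟨e', i1, i2, i3⟩ := hG.exists_free (hG.A_g _ hgt)
  have hee : e' = e := hpf e' (mem_free.1 i1).1 e (mem_free.1 e1).1 (mem_free.1 i1).2
    (mem_free.1 e1).2 (by rw [i2, e2, hG.lab_g s hs, hG.lab_g t ht, h2])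
  rw [hee] at i3
  have hc : ∀ a ∈ X.A, ∀ b ∈ X.A, X.gc a b := fun a ha b hb => hG.conn_gc hpf (hX.conn ha hb)
  obtain ⟨B, b1, b2, b3, b4, b5⟩ := hG.two_cut hc hs ht hts (f3.trans g3.symm) (e3.trans i3.symm) hnb
  have h : X.DP s t B := ⟨b1, hs, ht, hts, htg, b2, b3, b4, b5, h1, h2⟩
  obtain ⟨fA, ff⟩ := mem_free.1 f1
  obtain ⟨eA, ef⟩ := mem_free.1 e1
  have ex : X.lab e = X.lab (X.ρ s) := by rw [e2, hG.lab_g s hs]
  by_cases c1 : f ∈ B <;> by_cases c2 : e ∈ B
  · exact absurd ((h.sym1 hG).c1 hX ff fA (by rw [f2, h1]) (fun hh => (mem_sdiff.1 hh).2 c1) ef eA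
      (by rw [ex, h2]) (fun hh => (mem_sdiff.1 hh).2 c2)) id
  · obtain ⟨z, z1, z2, z3⟩ := (h.sym1 hG).c2' hX h11 ff fA (by rw [f2, h1])
      (fun hh => (mem_sdiff.1 hh).2 c1) ef (by rw [ex, h2]) (mem_sdiff.2 ⟨eA, c2⟩)
    exact ⟨z, z1, by tauto, z3⟩
  · exact h.c2' hX h11 ff fA f2 c1 ef ex c2
  · exact absurd (h.c1 hX ff fA f2 c1 ef eA ex c2) id

end Cx

end Pool.Agent.Lib.MP06c549.Z
end

section
/-!
# MP_06c549_co, Z: bridges and leaves of the minimal counterexample
-/
set_option autoImplicit false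
set_option linter.unusedSectionVars false

namespace Pool.Agent.Lib.MP06c549.Z

open Equiv Equiv.Perm Finset

variable {S : Type} [Fintype S] [DecidableEq S]

/-- restriction of the gluings to a part -/
lemma comp_restrict {ρ g g' : Perm S} {B : Finset S} (hρ : ∀ x, ρ x ∈ B ↔ x ∈ B)
    (hg : ∀ x, g x ∈ B ↔ x ∈ B) (h : ∀ x ∈ B, g' x = g x) {x y : S} (hx : x ∈ B)
    (hxy : comp ρ g x y) : comp ρ g' x y := by
  let q : Setoid S := ⟨fun x y => (x ∈ B ↔ y ∈ B) ∧ (x ∈ B → comp ρ g' x y),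
    ⟨fun x => ⟨Iff.rfl, fun _ => (comp ρ g').refl x⟩,
      fun h => ⟨h.1.symm, fun hy => (comp ρ g').symm (h.2 (h.1.2 hy))⟩,
      fun h1 h2 => ⟨h1.1.trans h2.1, fun hx => (comp ρ g').trans (h1.2 hx) (h2.2 (h1.1.1 hx))⟩⟩⟩
  have h1 : q x y := comp_le_of (q := q) (fun x => ⟨(hρ x).symm, fun _ => comp_left x⟩)
    (fun x => ⟨(hg x).symm, fun hx => by rw [← h x hx]; exact comp_right x⟩) hxy
  exact h1.2 hx

namespace Cx

variable {X : Cx S}

/-! ## Components through gates -/

lemma Good.comp_conn (hX : X.Good) {x y : S} (h : comp X.ρ X.g x y) : X.conn x y :=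
  comp_le_of (q := X.conn) (fun x => conn_rho x) (fun _ => hX.conn_g) h

/-- without pinches: connected through labels = connected through gates -/
lemma Good.comp_of_connL (hX : X.Good) (hpf : X.PF) {x y : S} (h : X.conn x y) :
    comp X.ρ X.g x y := by
  refine conn_le (q := comp X.ρ X.g) (fun s => comp_left s) (fun s hs t ht hst => ?_) h
  obtain ⟨a, ha, hal, hac⟩ := hX.exists_free hs
  obtain ⟨b, hb, hbl, hbc⟩ := hX.exists_free ht
  have hab : a = b := hpf a (mem_free.1 ha).1 b (mem_free.1 hb).1 (mem_free.1 ha).2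
    (mem_free.1 hb).2 (by rw [hal, hbl, hst])
  subst hab
  exact (comp X.ρ X.g).trans (comp_of_mul hac) ((comp X.ρ X.g).symm (comp_of_mul hbc))

theorem Min.gcomp (hX : X.Min) {s t : S} (hs : s ∈ X.A) (ht : t ∈ X.A) : comp X.ρ X.g s t :=
  hX.good.comp_of_connL hX.pf (hX.conn hs ht)

/-! ## Two parts -/

/-- the sides in `B` that are glued to sides outside `B` -/
def cross (X : Cx S) (B : Finset S) : Finset S := B.filter fun s => X.g s ∉ B

/-- the potentials of a closed part and of its complement -/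
theorem Good.P_two (hX : X.Good) {B : Finset S} (hB : X.Cl B) (hBA : B ⊆ X.A) :
    (X.sub B).P + (X.sub (X.A \ B)).P =
      X.P + (X.cross B).card + (X.sub B).c + (X.sub (X.A \ B)).c - X.c := by
  classical
  have h1 := hX.P_sub_sdiff hB hBA
  have h2 := (hX.sub hB).P_eq
  have hA : (X.sub B).A = B := inter_eq_right.2 hBA
  have h3 : (X.sub B).g.support = B.filter fun s => X.g s ≠ s ∧ X.g s ∈ B := by
    ext s
    rw [sub_support, mem_filter, mem_filter, mem_support]
    tauto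
  have h4 : (B.filter fun s => X.g s ∈ B).card + (X.cross B).card = B.card :=
    card_filter_add_card_filter_not (s := B) (fun s => X.g s ∈ B)
  have h5 : (B.filter fun s => X.g s ∈ B).card =
      (B.filter fun s => X.g s = s).card + (B.filter fun s => X.g s ≠ s ∧ X.g s ∈ B).card := by
    rw [← card_union_of_disjoint]
    · congr 1
      ext s
      rw [mem_union, mem_filter, mem_filter, mem_filter]
      constructor
      · rintro ⟨h6, h7⟩
        by_cases h8 : X.g s = s
        · exact Or.inl ⟨h6, h8⟩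
        · exact Or.inr ⟨h6, h8, h7⟩
      · rintro (⟨h6, h7⟩ | ⟨h6, -, h8⟩)
        · exact ⟨h6, by rw [h7]; exact h6⟩
        · exact ⟨h6, h8⟩
    · rw [disjoint_left]
      intro s h6 h7
      exact (mem_filter.1 h7).2.1 (mem_filter.1 h6).2
  rw [hA, h3] at h2
  have h6 : ((B.filter fun s => X.g s ∈ B).card : ℤ) + (X.cross B).card = B.card := by
    exact_mod_cast h4
  have h7 : ((B.filter fun s => X.g s ∈ B).card : ℤ) =
      (B.filter fun s => X.g s = s).card + (B.filter fun s => X.g s ≠ s ∧ X.g s ∈ B).card := by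
    exact_mod_cast h5
  linarith

lemma cov_unionL {B : Finset S} {C D : Finset ℕ} (hC : (X.sub B).Cov C)
    (hD : (X.sub (X.A \ B)).Cov D) : X.Cov (C ∪ D) := by
  intro s hs
  by_cases hsB : s ∈ B
  · have h1 := (hC.mono (subset_union_left (s₂ := D))) s (mem_inter.2 ⟨hs, hsB⟩)
    exact h1
  · have h1 := (hD.mono (subset_union_right (s₁ := C))) s
      (mem_inter.2 ⟨hs, mem_sdiff.2 ⟨hs, hsB⟩⟩)
    exact h1

lemma tau_two (X : Cx S) (B : Finset S) : X.tau ≤ (X.sub B).tau + (X.sub (X.A \ B)).tau := by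
  obtain ⟨C, hC, hc⟩ := (X.sub B).exists_cov
  obtain ⟨D, hD, hd⟩ := (X.sub (X.A \ B)).exists_cov
  rw [← hc, ← hd]
  exact (tau_le (cov_unionL hC hD)).trans (card_union_le C D)

/-- labels that are free in both parts are saved -/
lemma tau_two_fr {B : Finset S} {V : Finset ℕ} (h1 : (X.sub B).Fr V)
    (h2 : (X.sub (X.A \ B)).Fr V) :
    X.tau + V.card ≤ (X.sub B).tau + (X.sub (X.A \ B)).tau := by
  obtain ⟨C, hC, hVC, hc⟩ := h1
  obtain ⟨D, hD, hVD, hd⟩ := h2
  rw [← hc, ← hd, ← card_union_add_card_inter C D]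
  have h3 := tau_le (cov_unionL hC hD)
  have h4 := card_le_card (subset_inter hVC hVD)
  omega

/-! ## Leaves and bridges -/

/-- `s` is the only glued side of its cell -/
def Leaf (X : Cx S) (s : S) : Prop :=
  X.g s ≠ s ∧ X.g (X.ρ s) = X.ρ s ∧ X.g (X.ρ (X.ρ s)) = X.ρ (X.ρ s) ∧
    X.g (X.ρ (X.ρ (X.ρ s))) = X.ρ (X.ρ (X.ρ s))

/-- the gate of `s` is cut, `B` is a part of the result: its connection -/
lemma Good.part_conn (hX : X.Good) {s : S} {B : Finset S} (hρ : ∀ x, X.ρ x ∈ B ↔ x ∈ B)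
    (hg : ∀ x, (X.cut s).g x ∈ B ↔ x ∈ B) (hs : ¬ (s ∈ B ∧ X.g s ∈ B)) {x y : S} (hx : x ∈ B)
    (hxy : comp X.ρ (X.cut s).g x y) : (X.sub B).conn x y := by
  have hcl : X.Cl B := fun z hz => (hρ z).2 hz
  refine (hX.sub hcl).comp_conn ?_
  refine comp_restrict (g := (X.cut s).g) (g' := (X.sub B).g) hρ hg (fun z hz => ?_) hx hxy
  by_cases h1 : z = s
  · subst h1
    rw [sub_g, if_neg hs]
    exact (unglue_left X.inv z).symm
  by_cases h2 : z = X.g s
  · subst h2
    rw [sub_g, if_neg, cut_g, unglue_right]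
    rw [X.inv]
    exact fun h => hs ⟨h.2, h.1⟩
  · have h3 : (X.cut s).g z = X.g z := unglue_of_ne h1 h2
    have h4 := (hg z).2 hz
    rw [h3] at h4
    rw [h3, sub_g, if_pos ⟨hz, h4⟩]

/-- only the cut gate leads out of the part -/
lemma part_cross {s : S} {B : Finset S} (hg : ∀ x, (X.cut s).g x ∈ B ↔ x ∈ B) (hs : s ∈ B)
    (hgs : X.g s ∉ B) : X.cross B = {s} := by
  ext x
  unfold cross
  rw [mem_filter, mem_singleton]
  constructor
  · rintro ⟨h1, h2⟩
    by_contra h3
    have h4 : x ≠ X.g s := fun h => hgs (h ▸ h1)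
    have h5 := (hg x).2 h1
    rw [show (X.cut s).g x = X.g x from unglue_of_ne h3 h4] at h5
    exact h2 h5
  · rintro rfl
    exact ⟨hs, hgs⟩

/-- the tight side of a bridge is one cell -/
lemma bridge_aux (hX : X.Good) (ih : IH X.A.card) {s : S} (hs : X.g s ≠ s) {B : Finset S}
    (hcl : X.Cl B) (hBA : B ⊆ X.A) (hsB : s ∈ B) (hgs : X.g s ∉ B)
    (hO : (X.sub B).P ≤ 4 * (X.sub B).tau)
    (hI : (X.sub (X.A \ B)).P ≤ 4 * (X.sub (X.A \ B)).tau + 1)
    (ht : (X.sub B).tau + (X.sub (X.A \ B)).tau ≤ X.tau) : B.card ≤ 4 := by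
  by_contra hc
  have hA1 : (X.sub B).A = B := inter_eq_right.2 hBA
  have hA2 : (X.sub (X.A \ B)).A = X.A \ B := inter_eq_right.2 sdiff_subset
  have h0 := card_sdiff_add_card_eq_card hBA
  have hgA : X.g s ∈ X.A \ B := mem_sdiff.2 ⟨hX.g_mem hs, hgs⟩
  have hlt : B.card < X.A.card := by
    have := card_pos.2 ⟨_, hgA⟩
    omega
  have ih1 : IH (X.sub B).A.card := fun S' _ _ Y hY hYc => ih S' Y hY (by rw [hA1] at hYc; omega)
  have hO1 : ∀ v, ((X.sub B).cor v).Nonempty → (X.sub B).Fr {v} := fun v hv =>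
    (hX.sub hcl).tig ih1 hO hv
  have f1 : (X.sub B).Fr {X.lab s} := hO1 _ ⟨s, mem_filter.2 ⟨by rw [hA1]; exact hsB, rfl⟩⟩
  have f2 : (X.sub B).Fr {X.lab (X.ρ s)} :=
    hO1 _ ⟨X.ρ s, mem_filter.2 ⟨by rw [hA1]; exact hcl s hsB, rfl⟩⟩
  have h1 : (X.sub (X.A \ B)).Fr {(X.sub (X.A \ B)).lab (X.g s)} ∨
      (X.sub (X.A \ B)).Fr {(X.sub (X.A \ B)).lab ((X.sub (X.A \ B)).ρ (X.g s))} := by
    refine leaf_test ih (hX.sub (hX.cl_sdiff hX.cl_A hcl)) ?_ (by rw [hA2]; exact hgA) ?_ hI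
    · rw [hA2]; omega
    · rw [sub_g, if_neg]
      rw [X.inv]
      exact fun h => (mem_sdiff.1 h.2).2 hsB
  rw [sub_lab, sub_rho, hX.lab_g s hs, hX.lab_g' hs] at h1
  rcases h1 with h1 | h1
  · have h2 := tau_two_fr f2 h1
    rw [card_singleton] at h2
    omega
  · have h2 := tau_two_fr f1 h1
    rw [card_singleton] at h2
    omega

/-- a part of at most four sides is a leaf -/
lemma leaf_of_card (hX : X.Good) {s : S} (hs : X.g s ≠ s) {B : Finset S} (hcl : X.Cl B)
    (hg : ∀ x, (X.cut s).g x ∈ B ↔ x ∈ B) (hsB : s ∈ B) (hgs : X.g s ∉ B) (hc : B.card ≤ 4) :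
    X.Leaf s := by
  have hB : X.cell s = B := eq_of_subset_of_card_le (cell_sub hcl hsB) (by
    rw [hX.card_cell]; exact hc)
  have key : ∀ t ∈ X.cell s, t ≠ s → X.g t = t := by
    intro t ht hts
    by_contra h
    have h1 : t ≠ X.g s := fun h1 => hgs (by rw [← hB, ← h1]; exact ht)
    have h2 := (hg t).2 (hB ▸ ht)
    rw [show (X.cut s).g t = X.g t from unglue_of_ne hts h1, ← hB] at h2
    exact hX.g_notMem_cell ht h h2
  refine ⟨hs, key _ (mem_cell.2 (Or.inr (Or.inl rfl))) (hX.rho1 s),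
    key _ (mem_cell.2 (Or.inr (Or.inr (Or.inl rfl)))) (hX.rho2 s),
    key _ (mem_cell.2 (Or.inr (Or.inr (Or.inr rfl)))) (hX.rho3 s)⟩

/-- a bridge of the minimal counterexample is the gate of a leaf -/
theorem Min.bridge' (hX : X.Min) {s : S} (hs : X.g s ≠ s)
    (h : ¬ comp X.ρ (X.cut s).g s (X.g s)) : X.Leaf s ∨ X.Leaf (X.g s) := by
  classical
  have hG := hX.good
  have hY := hG.cut s
  have hsA : s ∈ X.A := hG.A_g s hs
  have hgA : X.g s ∈ X.A := hG.g_mem hs
  set B := X.A.filter fun x => comp X.ρ (X.cut s).g s x with hB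
  have hBA : B ⊆ X.A := filter_subset _ _
  have hρ : ∀ x, X.ρ x ∈ B ↔ x ∈ B := by
    intro x
    rw [hB, mem_filter, mem_filter, hG.A_rho_iff]
    refine and_congr_right fun _ => ⟨fun h1 => ?_, fun h1 => ?_⟩
    · exact (comp X.ρ (X.cut s).g).trans h1 ((comp X.ρ (X.cut s).g).symm (comp_left x))
    · exact (comp X.ρ (X.cut s).g).trans h1 (comp_left x)
  have hg : ∀ x, (X.cut s).g x ∈ B ↔ x ∈ B := by
    intro x
    have h0 : (X.cut s).g x ∈ X.A ↔ x ∈ X.A := hY.g_mem_iff
    rw [hB, mem_filter, mem_filter, h0]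
    refine and_congr_right fun _ => ⟨fun h1 => ?_, fun h1 => ?_⟩
    · exact (comp X.ρ (X.cut s).g).trans h1 ((comp X.ρ (X.cut s).g).symm (comp_right x))
    · exact (comp X.ρ (X.cut s).g).trans h1 (comp_right x)
  have hcl : X.Cl B := fun z hz => (hρ z).2 hz
  have hsB : s ∈ B := mem_filter.2 ⟨hsA, (comp X.ρ (X.cut s).g).refl s⟩
  have hgs : X.g s ∉ B := fun h1 => h (mem_filter.1 h1).2
  -- the complement
  set D := X.A \ B with hD
  have hDA : D ⊆ X.A := sdiff_subset
  have hclD : X.Cl D := hG.cl_sdiff hG.cl_A hcl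
  have hρD : ∀ x, X.ρ x ∈ D ↔ x ∈ D := by
    intro x
    rw [hD, mem_sdiff, mem_sdiff, hρ, hG.A_rho_iff]
  have hgD : ∀ x, (X.cut s).g x ∈ D ↔ x ∈ D := by
    intro x
    have h0 : (X.cut s).g x ∈ X.A ↔ x ∈ X.A := hY.g_mem_iff
    rw [hD, mem_sdiff, mem_sdiff, hg, h0]
  have hgsD : X.g s ∈ D := mem_sdiff.2 ⟨hgA, hgs⟩
  have hsD : s ∉ D := fun h1 => (mem_sdiff.1 h1).2 hsB
  have hclass : ∀ x ∈ D, comp X.ρ (X.cut s).g (X.g s) x := by
    intro x hx
    have h1 := hX.gcomp hsA (hDA hx)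
    have h2 : comp X.ρ X.g = join (comp X.ρ (X.cut s).g) s (X.g s) := by
      have h3 := comp_swap (ρ := X.ρ) (g := (X.cut s).g) (s := s) (t := X.g s)
        (unglue_left X.inv s) (unglue_right s)
      rw [cut_g, mul_swap_mul] at h3
      exact h3
    rw [h2, join_apply] at h1
    rcases h1 with h1 | ⟨-, h1⟩ | ⟨h1, -⟩
    · exact absurd (mem_filter.2 ⟨hDA hx, h1⟩) (mem_sdiff.1 hx).2
    · exact h1
    · exact absurd h1 h
  have hA1 : (X.sub B).A = B := inter_eq_right.2 hBA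
  have hA2 : (X.sub D).A = D := inter_eq_right.2 hDA
  have hc1 : (X.sub B).c = 1 := by
    unfold c
    rw [hA1]
    refine nc_eq_one ⟨s, hsB⟩ fun x hx y hy => ?_
    exact (X.sub B).conn.trans
      ((X.sub B).conn.symm (hG.part_conn hρ hg (fun h1 => hgs h1.2) hsB (mem_filter.1 hx).2))
      (hG.part_conn hρ hg (fun h1 => hgs h1.2) hsB (mem_filter.1 hy).2)
  have hc2 : (X.sub D).c = 1 := by
    unfold c
    rw [hA2]
    refine nc_eq_one ⟨X.g s, hgsD⟩ fun x hx y hy => ?_
    exact (X.sub D).conn.trans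
      ((X.sub D).conn.symm (hG.part_conn hρD hgD (fun h1 => hsD h1.1) hgsD (hclass x hx)))
      (hG.part_conn hρD hgD (fun h1 => hsD h1.1) hgsD (hclass y hy))
  have hP := hG.P_two hcl hBA
  rw [part_cross hg hsB hgs, ← hD, hc1, hc2, hX.c_eq, card_singleton] at hP
  have hPX := hX.P_eq hs
  have h0 := card_sdiff_add_card_eq_card hBA
  rw [← hD] at h0
  have hBpos := card_pos.2 ⟨s, hsB⟩
  have hDpos := card_pos.2 ⟨_, hgsD⟩
  have ih1 := hX.ih S (X.sub B) (hG.sub hcl) (by rw [hA1]; omega)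
  have ih2 := hX.ih S (X.sub D) (hG.sub hclD) (by rw [hA2]; omega)
  have htau := X.tau_two B
  rw [← hD] at htau
  have hDD : X.A \ D = B := by rw [hD, sdiff_sdiff_right_self]; exact inter_eq_right.2 hBA
  push_cast at hP
  by_cases hO : (X.sub B).P ≤ 4 * (X.sub B).tau
  · left
    refine leaf_of_card hG hs hcl hg hsB hgs (bridge_aux hG hX.ih hs hcl hBA hsB hgs hO ?_ ?_)
    · rw [← hD]; omega
    · rw [← hD]; omega
  · right
    have hgg : X.g (X.g s) ≠ X.g s := by rw [X.inv]; exact fun h1 => hs h1.symm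
    have hcut : (X.cut (X.g s)).g = (X.cut s).g := by
      rw [cut_g, cut_g, X.inv, swap_comm]
    refine leaf_of_card hG hgg hclD (by rw [hcut]; exact hgD) hgsD (by rw [X.inv]; exact hsD)
      (bridge_aux hG hX.ih hgg hclD hDA hgsD (by rw [X.inv]; exact hsD) ?_ ?_ ?_)
    · omega
    · rw [hDD]; omega
    · rw [hDD]; omega

/-! ## Leaves -/

/-- connected through gates -/
def GC (X : Cx S) : Prop := ∀ x ∈ X.A, ∀ y ∈ X.A, Z.comp X.ρ X.g x y

theorem Min.gc (hX : X.Min) : X.GC := fun _ hx _ hy => hX.gcomp hx hy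

lemma Good.c_of_gc (hX : X.Good) (h : X.GC) (hne : X.A.Nonempty) : X.c = 1 :=
  nc_eq_one hne fun x hx y hy => hX.comp_conn (h x hx y hy)

/-- the gate of `s` is cut: the part without `s` is connected through gates -/
lemma Good.part_gc (hX : X.Good) (hgc : X.GC) {s : S} (hs : X.g s ≠ s) {B : Finset S}
    (hρ : ∀ x, X.ρ x ∈ B ↔ x ∈ B) (hg : ∀ x, (X.cut s).g x ∈ B ↔ x ∈ B) (hsB : s ∈ B)
    (hgs : X.g s ∉ B) : (X.sub (X.A \ B)).GC := by
  set D := X.A \ B with hD
  have hA2 : (X.sub D).A = D := inter_eq_right.2 sdiff_subset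
  have hmem : ∀ x y, Z.comp X.ρ (X.cut s).g x y → (x ∈ B ↔ y ∈ B) := by
    intro x y h
    let q : Setoid S := ⟨fun x y => (x ∈ B ↔ y ∈ B), ⟨fun _ => Iff.rfl, fun h => h.symm,
      fun h1 h2 => h1.trans h2⟩⟩
    exact comp_le_of (q := q) (fun x => (hρ x).symm) (fun x => (hg x).symm) h
  have hclass : ∀ x ∈ D, Z.comp X.ρ (X.cut s).g (X.g s) x := by
    intro x hx
    have h1 := hgc s (hX.A_g s hs) x (mem_sdiff.1 hx).1
    have h2 : Z.comp X.ρ X.g = join (Z.comp X.ρ (X.cut s).g) s (X.g s) := by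
      have h3 := comp_swap (ρ := X.ρ) (g := (X.cut s).g) (s := s) (t := X.g s)
        (unglue_left X.inv s) (unglue_right s)
      rw [cut_g, mul_swap_mul] at h3
      exact h3
    rw [h2, join_apply] at h1
    rcases h1 with h1 | ⟨-, h1⟩ | ⟨h1, -⟩
    · exact absurd ((hmem _ _ h1).1 hsB) (mem_sdiff.1 hx).2
    · exact h1
    · exact absurd ((hmem _ _ h1).1 hsB) hgs
  have hY := hX.cut s
  have hgsD : X.g s ∈ D := mem_sdiff.2 ⟨hX.g_mem hs, hgs⟩
  have hsD : s ∉ D := fun h1 => (mem_sdiff.1 h1).2 hsB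
  have hρD : ∀ x, X.ρ x ∈ D ↔ x ∈ D := by
    intro x
    rw [hD, mem_sdiff, mem_sdiff, hρ, hX.A_rho_iff]
  have hgD : ∀ x, (X.cut s).g x ∈ D ↔ x ∈ D := by
    intro x
    have h0 : (X.cut s).g x ∈ X.A ↔ x ∈ X.A := hY.g_mem_iff
    rw [hD, mem_sdiff, mem_sdiff, hg, h0]
  have heq : ∀ z ∈ D, (X.sub D).g z = (X.cut s).g z := by
    intro z hz
    by_cases h1 : z = s
    · exact absurd (h1 ▸ hz) hsD
    by_cases h2 : z = X.g s
    · subst h2
      rw [sub_g, if_neg, cut_g, unglue_right]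
      rw [X.inv]
      exact fun h => hsD h.2
    · have h3 : (X.cut s).g z = X.g z := unglue_of_ne h1 h2
      have h4 := (hgD z).2 hz
      rw [h3] at h4
      rw [h3, sub_g, if_pos ⟨hz, h4⟩]
  intro x hx y hy
  rw [hA2] at hx hy
  have h1 := comp_restrict (g' := (X.sub D).g) hρD hgD heq hgsD (hclass x hx)
  have h2 := comp_restrict (g' := (X.sub D).g) hρD hgD heq hgsD (hclass y hy)
  exact (Z.comp X.ρ (X.sub D).g).trans ((Z.comp X.ρ (X.sub D).g).symm h1) h2

lemma Leaf.free {s : S} (h : X.Leaf s) {t : S} (ht : t ∈ X.cell s) (hts : t ≠ s) : X.g t = t := by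
  rcases mem_cell.1 ht with rfl | rfl | rfl | rfl
  · exact absurd rfl hts
  · exact h.2.1
  · exact h.2.2.1
  · exact h.2.2.2

lemma Leaf.cut_mem {s : S} (h : X.Leaf s) (x : S) : (X.cut s).g x ∈ X.cell s ↔ x ∈ X.cell s := by
  have hfix : ∀ y ∈ X.cell s, (X.cut s).g y = y := by
    intro y hy
    by_cases h1 : y = s
    · rw [h1]; exact unglue_left X.inv s
    · rcases cut_le (X := X) s y with h2 | h2
      · exact h2
      · rw [h2, h.free hy h1]
  refine ⟨fun h1 => ?_, fun h1 => by rw [hfix x h1]; exact h1⟩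
  have h2 := hfix _ h1
  rw [(X.cut s).g.injective h2] at h1
  exact h1

/-- a leaf has three free sides -/
lemma Leaf.fr_eq (hX : X.Good) {s : S} (h : X.Leaf s) : X.fr s = 3 := by
  have h1 : ((X.cell s).filter fun t => X.g t = t) = (X.cell s).erase s := by
    ext t
    rw [mem_filter, mem_erase]
    constructor
    · rintro ⟨h1, h2⟩
      exact ⟨fun h3 => h.1 (h3 ▸ h2), h1⟩
    · rintro ⟨h1, h2⟩
      exact ⟨h2, h.free h2 h1⟩
  unfold fr
  rw [h1, card_erase_of_mem (self_mem_cell s), hX.card_cell]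

/-- deletion of a leaf -/
lemma Good.leaf_del (hX : X.Good) (hgc : X.GC) {s : S} (h : X.Leaf s) :
    (X.sub (X.A \ X.cell s)).GC ∧ (X.sub (X.A \ X.cell s)).c = 1 ∧
      (X.sub (X.A \ X.cell s)).P + 2 = X.P := by
  have hgs : X.g s ∉ X.cell s := hX.g_notMem_cell (self_mem_cell s) h.1
  have h1 := hX.part_gc hgc h.1 (fun x => hX.mem_cell_rho) h.cut_mem (self_mem_cell s) hgs
  have hG : (X.sub (X.A \ X.cell s)).Good := hX.sub (hX.cl_sdiff hX.cl_A (hX.cl_cell s))
  have hA2 : (X.sub (X.A \ X.cell s)).A = X.A \ X.cell s := inter_eq_right.2 sdiff_subset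
  have h2 := hG.c_of_gc h1 ⟨X.g s, by rw [hA2]; exact mem_sdiff.2 ⟨hX.g_mem h.1, hgs⟩⟩
  have h3 := hX.P_sub_cell (hX.A_g s h.1)
  rw [h.fr_eq hX, h2, hX.c_of_gc hgc ⟨s, hX.A_g s h.1⟩] at h3
  exact ⟨h1, h2, by push_cast at h3; omega⟩

/-- a label of the cell of `s` covers the cell -/
lemma cov_cell (hX : X.Good) {s t : S} (ht : t ∈ X.cell s) {C : Finset ℕ}
    (hC : (X.sub (X.A \ X.cell s)).Cov C) (h : X.lab t ∈ C) : X.Cov C := by
  intro x hx
  by_cases h1 : x ∈ X.cell s
  · have h2 : t ∈ X.cell x := by rw [hX.cell_eq h1]; exact ht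
    rcases mem_cell.1 h2 with rfl | rfl | rfl | rfl
    · exact Or.inl h
    · exact Or.inr (Or.inl h)
    · exact Or.inr (Or.inr (Or.inl h))
    · exact Or.inr (Or.inr (Or.inr h))
  · exact hC x (mem_inter.2 ⟨hx, mem_sdiff.2 ⟨hx, h1⟩⟩)

/-- the minimal counterexample without a leaf: slack 1, the labels of the leaf are not free -/
theorem Min.leaf_rest (hX : X.Min) {s : S} (h : X.Leaf s) :
    (X.sub (X.A \ X.cell s)).tau + 1 = X.tau ∧
    (X.sub (X.A \ X.cell s)).P = 4 * (X.sub (X.A \ X.cell s)).tau + 1 ∧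
    ∀ t ∈ X.cell s, ¬ (X.sub (X.A \ X.cell s)).Fr {X.lab t} := by
  have hG := hX.good
  obtain ⟨-, -, h3⟩ := hG.leaf_del hX.gc h
  have hR : (X.sub (X.A \ X.cell s)).Good := hG.sub (hG.cl_sdiff hG.cl_A (hG.cl_cell s))
  have hA2 : (X.sub (X.A \ X.cell s)).A = X.A \ X.cell s := inter_eq_right.2 sdiff_subset
  have hsA := hG.A_g s h.1
  have h4 := hX.ih S _ hR (by
    rw [hA2]
    exact card_lt_card ⟨sdiff_subset, fun hh => (mem_sdiff.1 (hh hsA)).2 (self_mem_cell s)⟩)
  have h5 := hX.P_eq h.1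
  have h6 : X.tau ≤ (X.sub (X.A \ X.cell s)).tau + 1 := by
    obtain ⟨C, hC, hc⟩ := (X.sub (X.A \ X.cell s)).exists_cov
    have h7 := tau_le (cov_cell hG (self_mem_cell s) (hC.mono (subset_insert (X.lab s) C))
      (mem_insert_self _ _))
    have h8 := card_insert_le (X.lab s) C
    omega
  refine ⟨by omega, by omega, fun t ht hf => ?_⟩
  obtain ⟨C, hC, hv, hc⟩ := hf
  have h7 := tau_le (cov_cell hG ht hC (singleton_subset_iff.1 hv))
  omega

lemma tau_pos {s : S} (hs : s ∈ X.A) : 1 ≤ X.tau := by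
  obtain ⟨C, hC, hc⟩ := X.exists_cov
  rw [← hc]
  refine card_pos.2 ?_
  rcases hC s hs with h | h | h | h
  · exact ⟨_, h⟩
  · exact ⟨_, h⟩
  · exact ⟨_, h⟩
  · exact ⟨_, h⟩

/-- two leaves have no common label -/
theorem Min.leaf2 (hX : X.Min) {s t : S} (hs : X.Leaf s) (ht : X.Leaf t) (hst : t ∉ X.cell s)
    {i j : S} (hi : i ∈ X.cell s) (hj : j ∈ X.cell t) : X.lab i ≠ X.lab j := by
  intro hij
  have hG := hX.good
  obtain ⟨h1, h2, h3⟩ := hG.leaf_del hX.gc hs
  obtain ⟨h4, h5, -⟩ := hX.leaf_rest hs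
  have hsA := hG.A_g s hs.1
  have htA := hG.A_g t ht.1
  set R := X.sub (X.A \ X.cell s) with hR
  have hRG : R.Good := hG.sub (hG.cl_sdiff hG.cl_A (hG.cl_cell s))
  have hRA : R.A = X.A \ X.cell s := inter_eq_right.2 sdiff_subset
  have htR : t ∈ R.A := by rw [hRA]; exact mem_sdiff.2 ⟨htA, hst⟩
  have hcell : R.cell t = X.cell t := rfl
  have hPX := hX.P_eq hs.1
  have hlt : R.A.card < X.A.card := by
    rw [hRA]
    exact card_lt_card ⟨sdiff_subset, fun hh => (mem_sdiff.1 (hh hsA)).2 (self_mem_cell s)⟩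
  by_cases hg : X.g t ∈ X.cell s
  · -- `X` consists of two cells
    have hfix : ∀ x ∈ X.cell t, R.g x = x := by
      intro x hx
      by_cases hxt : x = t
      · subst hxt
        rw [hR, sub_g, if_neg]
        exact fun h => (mem_sdiff.1 h.2).2 hg
      · rcases sub_le (X := X) (B := X.A \ X.cell s) x with h6 | h6
        · exact h6
        · exact h6.trans (ht.free hx hxt)
    have hall : ∀ x ∈ R.A, x ∈ X.cell t := by
      intro x hx
      have h6 := h1 t htR x hx
      let q : Setoid S := ⟨fun x y => (x ∈ X.cell t ↔ y ∈ X.cell t), ⟨fun _ => Iff.rfl,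
        fun h => h.symm, fun h1 h2 => h1.trans h2⟩⟩
      have h7 : q t x := comp_le_of (q := q) (fun x => hG.mem_cell_rho.symm) (fun x => by
        refine ⟨fun h7 => by rw [hfix x h7]; exact h7, fun h7 => ?_⟩
        have h8 := hfix _ h7
        rw [R.g.injective h8] at h7
        exact h7) h6
      exact h7.1 (self_mem_cell t)
    have h6 : X.tau ≤ ({X.lab i} : Finset ℕ).card := by
      refine tau_le (cov_cell hG hi ?_ (mem_singleton_self _))
      have h7 : (R.sub (R.A \ R.cell t)).Cov {X.lab i} := by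
        intro x hx
        obtain ⟨h8, h9⟩ := mem_inter.1 hx
        exact absurd (hall x h8) (mem_sdiff.1 h9).2
      exact cov_cell hRG (t := j) hj h7 (by rw [hij]; exact mem_singleton_self _)
    rw [card_singleton] at h6
    have h7 := tau_pos htR
    omega
  · have hfree : ∀ x ∈ X.cell t, x ≠ t → R.g x = x := by
      intro x hx hxt
      rcases sub_le (X := X) (B := X.A \ X.cell s) x with h6 | h6
      · exact h6
      · exact h6.trans (ht.free hx hxt)
    have htl : R.Leaf t := by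
      refine ⟨?_, hfree _ (mem_cell.2 (Or.inr (Or.inl rfl))) (hG.rho1 t),
        hfree _ (mem_cell.2 (Or.inr (Or.inr (Or.inl rfl)))) (hG.rho2 t),
        hfree _ (mem_cell.2 (Or.inr (Or.inr (Or.inr rfl)))) (hG.rho3 t)⟩
      rw [hR, sub_g, if_pos ⟨mem_sdiff.2 ⟨htA, hst⟩, mem_sdiff.2 ⟨hG.g_mem ht.1, hg⟩⟩]
      exact ht.1
    obtain ⟨-, -, h6⟩ := hRG.leaf_del h1 htl
    have h7 := hX.ih S (R.sub (R.A \ R.cell t)) (hRG.sub (hRG.cl_sdiff hRG.cl_A (hRG.cl_cell t)))
      (by
        have : (R.sub (R.A \ R.cell t)).A.card ≤ R.A.card := card_le_card inter_subset_left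
        omega)
    have h8 : X.tau ≤ (R.sub (R.A \ R.cell t)).tau + 1 := by
      obtain ⟨C, hC, hc⟩ := (R.sub (R.A \ R.cell t)).exists_cov
      have h9 := cov_cell hRG (t := j) hj (hC.mono (subset_insert (X.lab j) C))
        (mem_insert_self _ _)
      have h10 := tau_le (cov_cell hG hi h9 (by rw [hij]; exact mem_insert_self _ _))
      have h11 := card_insert_le (X.lab j) C
      omega
    omega

/-- a bridge of the minimal counterexample is the gate of a leaf -/
theorem Min.bridge (hX : X.Min) {s : S} (hs : X.g s ≠ s) (h : SameCycle (X.ρ * X.g) s (X.g s)) :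
    X.Leaf s ∨ X.Leaf (X.g s) :=
  hX.bridge' hs ((Planar.bridge_iff X.inv hX.good.planar hs).1 h)

end Cx

end Pool.Agent.Lib.MP06c549.Z
end

section
/-!
# MP_06c549_co, Z: double gates (section 2 of the text), a double gate is not a bridge
-/
set_option autoImplicit false
set_option linter.unusedSectionVars false

namespace Pool.Agent.Lib.MP06c549.Z

open Equiv Equiv.Perm Finset

variable {S : Type} [Fintype S] [DecidableEq S]

namespace Cx

variable {X : Cx S}

/-- The two gates of a double gate are not bridges. -/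
theorem Min.dg_nb (hX : X.Min) {s t : S} (hs : X.g s ≠ s) (ht : X.g t ≠ t)
    (hts : t ≠ s) (htg : t ≠ X.g s) (h1 : X.lab s = X.lab t) (h2 : X.lab (X.ρ s) = X.lab (X.ρ t)) :
    ¬ SameCycle (X.ρ * X.g) s (X.g s) := by
  intro hb
  have hG := hX.good
  have hpf := hX.pf
  have hsA := hG.A_g s hs
  have htA := hG.A_g t ht
  -- the ends of the fans
  obtain ⟨f, f1, f2, f3⟩ := hG.exists_free hsA
  obtain ⟨f', g1, g2, g3⟩ := hG.exists_free htA
  have hff : f' = f := hpf f' (mem_free.1 g1).1 f (mem_free.1 f1).1 (mem_free.1 g1).2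
    (mem_free.1 f1).2 (by rw [g2, f2, h1])
  rw [hff] at g3
  have hgs : X.g (X.g s) ≠ X.g s := by rw [X.inv]; exact hs.symm
  have hgt : X.g (X.g t) ≠ X.g t := by rw [X.inv]; exact ht.symm
  obtain ⟨e, e1, e2, e3⟩ := hG.exists_free (hG.A_g _ hgs)
  obtain ⟨e', i1, i2, i3⟩ := hG.exists_free (hG.A_g _ hgt)
  have hee : e' = e := hpf e' (mem_free.1 i1).1 e (mem_free.1 e1).1 (mem_free.1 i1).2
    (mem_free.1 e1).2 (by rw [i2, e2, hG.lab_g s hs, hG.lab_g t ht, h2])
  rw [hee] at i3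
  have k1 : SameCycle (X.ρ * X.g) s t := f3.trans g3.symm
  have k2 : SameCycle (X.ρ * X.g) (X.g s) (X.g t) := e3.trans i3.symm
  have hb' : SameCycle (X.ρ * X.g) t (X.g t) := k1.symm.trans (hb.trans k2)
  -- a leaf among `s, g s`, with a corner at `v`
  have l1 : ∃ z, X.Leaf z ∧ (z = s ∨ z = X.g s) ∧ ∃ i ∈ X.cell z, X.lab i = X.lab s := by
    rcases hX.bridge hs hb with h | h
    · exact ⟨s, h, Or.inl rfl, s, mem_cell.2 (Or.inl rfl), rfl⟩
    · exact ⟨X.g s, h, Or.inr rfl, X.ρ (X.g s), mem_cell.2 (Or.inr (Or.inl rfl)), hG.lab_g' hs⟩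
  have l2 : ∃ z, X.Leaf z ∧ (z = t ∨ z = X.g t) ∧ ∃ i ∈ X.cell z, X.lab i = X.lab s := by
    rcases hX.bridge ht hb' with h | h
    · exact ⟨t, h, Or.inl rfl, t, mem_cell.2 (Or.inl rfl), h1.symm⟩
    · exact ⟨X.g t, h, Or.inr rfl, X.ρ (X.g t), mem_cell.2 (Or.inr (Or.inl rfl)), by
        rw [hG.lab_g' ht, h1]⟩
  obtain ⟨z, hz, hz', i, hi, hil⟩ := l1
  obtain ⟨w, hw, hw', j, hj, hjl⟩ := l2
  have hne : w ≠ z := by
    rcases hz' with rfl | rfl <;> rcases hw' with rfl | rfl
    · exact hts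
    · exact fun hh => htg (by rw [← hh, X.inv])
    · exact htg
    · exact fun hh => hts (X.g.injective hh)
  by_cases hwz : w ∈ X.cell z
  · exact hw.1 (hz.free hwz hne)
  · exact hX.leaf2 hz hw hwz hi hj (by rw [hil, hjl])

/-- **Double gates**, with the case of slacks 1 and 1 as a hypothesis. -/
theorem Min.dg_of' (hX : X.Min) (h11 : SpecDG11 X) {s t : S} (hs : X.g s ≠ s) (ht : X.g t ≠ t)
    (hts : t ≠ s) (htg : t ≠ X.g s) (h1 : X.lab s = X.lab t) (h2 : X.lab (X.ρ s) = X.lab (X.ρ t)) :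
    ∃ z, X.DGout s t z :=
  hX.dg_of h11 hs ht hts htg h1 h2 (hX.dg_nb hs ht hts htg h1 h2)

end Cx

end Pool.Agent.Lib.MP06c549.Z
end

section
/-!
# MP_06c549_co, Z: the star of a vertex with two fans (module TWO)

`Good.P_sub_dead`: the deletion of one cell lowers `P` by the number of its corners whose vertices
die; `Good.P_del_pair`: deleting the stars of two vertices lowers `P` by at least two;
`Good.P_del_two`: deleting the star of a vertex with two fans lowers `P` by at least two, if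
separating one of these fans does not change the number of components.
-/
set_option autoImplicit false
set_option linter.unusedSectionVars false

namespace Pool.Agent.Lib.MP06c549.Z

open Equiv Equiv.Perm Finset

variable {S : Type} [Fintype S] [DecidableEq S]

namespace Cx

variable {X : Cx S}

/-- the potential depends on the cells, the gates and the equality of labels only -/
lemma conn_congr {Y : Cx S} (hA : X.A = Y.A) (hρ : X.ρ = Y.ρ)
    (hl : ∀ s ∈ X.A, ∀ t ∈ X.A, (X.lab s = X.lab t ↔ Y.lab s = Y.lab t)) : X.conn = Y.conn := by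
  have h1 : X.step = Y.step := by
    funext s t
    refine propext ?_
    unfold step
    rw [← hρ, ← hA]
    constructor
    · rintro (h | ⟨h1, h2, h3⟩)
      · exact Or.inl h
      · exact Or.inr ⟨h1, h2, (hl s h1 t h2).1 h3⟩
    · rintro (h | ⟨h1, h2, h3⟩)
      · exact Or.inl h
      · exact Or.inr ⟨h1, h2, (hl s h1 t h2).2 h3⟩
  unfold conn
  rw [h1]

lemma c_congr {Y : Cx S} (hA : X.A = Y.A) (hρ : X.ρ = Y.ρ)
    (hl : ∀ s ∈ X.A, ∀ t ∈ X.A, (X.lab s = X.lab t ↔ Y.lab s = Y.lab t)) : X.c = Y.c := by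
  unfold c
  rw [conn_congr hA hρ hl, hA]

lemma P_congr {Y : Cx S} (hA : X.A = Y.A) (hρ : X.ρ = Y.ρ) (hg : X.g = Y.g)
    (hl : ∀ s ∈ X.A, ∀ t ∈ X.A, (X.lab s = X.lab t ↔ Y.lab s = Y.lab t)) : X.P = Y.P := by
  unfold P N E
  rw [c_congr hA hρ hl, hA, hg]

/-! ## Deletion of one cell -/

section dead

variable (hX : X.Good)
include hX

/-- the side before a corner whose vertex dies is free -/
lemma Good.free_of_dead {s i : S} (hi : i ∈ X.cell s)
    (hd : ∀ t ∈ X.A \ X.cell s, X.lab t ≠ X.lab i) :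
    X.g (X.ρ (X.ρ (X.ρ i))) = X.ρ (X.ρ (X.ρ i)) := by
  by_contra hg
  have h2 := hX.lab_g _ hg
  rw [hX.rho4] at h2
  refine hd _ (mem_sdiff.2 ⟨hX.g_mem hg, hX.g_notMem_cell ?_ hg⟩) h2
  exact hX.mem_cell_rho.2 (hX.mem_cell_rho.2 (hX.mem_cell_rho.2 hi))

/-- the components after the deletion of a cell in which the vertices of `D` die -/
lemma Good.c_sub_dead {s : S} (hs : s ∈ X.A) {D : Finset S} (hDs : D ⊆ X.cell s)
    (hD0 : D.Nonempty) (hD : ∀ i ∈ D, ∀ t ∈ X.A \ X.cell s, X.lab t ≠ X.lab i) :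
    (X.sub (X.A \ X.cell s)).c + 1 + D.card ≤ X.c + fr X s := by
  classical
  set F := (X.cell s).filter fun t => X.g t = t with hF
  have hFc : F.card = fr X s := rfl
  set T := ((F.image X.ρ) \ D).image (X.out s) with hT
  have hDF : D ⊆ F.image X.ρ := by
    intro i hi
    refine mem_image.2 ⟨X.ρ (X.ρ (X.ρ i)), mem_filter.2
      ⟨hX.mem_cell_rho.2 (hX.mem_cell_rho.2 (hX.mem_cell_rho.2 (hDs hi))),
        hX.free_of_dead (hDs hi) (hD i hi)⟩, hX.rho4 i⟩
  have h0 : T.card + D.card ≤ fr X s := by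
    have e1 : T.card ≤ ((F.image X.ρ) \ D).card := card_image_le
    have e2 := card_sdiff_add_card_eq_card hDF
    rw [card_image_of_injective _ X.ρ.injective, hFc] at e2
    omega
  have h4 : (X.sub (X.A \ X.cell s)).c + 1 ≤ X.c + T.card := by
    refine c_del_le (K := X.cell s) (fun t => hX.mem_cell_rho) (cell_sub hX.cl_A hs)
      (self_mem_cell s) (fun k hk => hX.conn_cell hk) (T := T) ?_
    have q1 : ∀ i ∈ X.cell s, i ∉ D → X.g (X.ρ (X.ρ (X.ρ i))) = X.ρ (X.ρ (X.ρ i)) →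
        ∀ t ∈ X.A \ X.cell s, X.lab t = X.lab i →
          ∃ w ∈ T, (X.sub (X.A \ X.cell s)).conn t w := by
      intro i hi his hg t ht hti
      refine ⟨X.out s i, mem_image_of_mem _ (mem_sdiff.2 ⟨mem_image.2
        ⟨X.ρ (X.ρ (X.ρ i)), mem_filter.2
          ⟨hX.mem_cell_rho.2 (hX.mem_cell_rho.2 (hX.mem_cell_rho.2 hi)), hg⟩, hX.rho4 i⟩, his⟩),
        out_spec ht hti⟩
    have q2 : ∀ i ∈ X.cell s, (∀ t ∈ X.A \ X.cell s, X.lab t = X.lab i →
          ∃ w ∈ T, (X.sub (X.A \ X.cell s)).conn t w) →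
        ∀ t ∈ X.A \ X.cell s, X.lab t = X.lab (X.ρ i) →
          ∃ w ∈ T, (X.sub (X.A \ X.cell s)).conn t w := by
      intro i hi hp
      have hi' := hX.mem_cell_rho.2 hi
      by_cases hiD : X.ρ i ∈ D
      · exact fun t ht hti => absurd hti (hD _ hiD t ht)
      by_cases hg : X.g i = i
      · refine q1 _ hi' hiD ?_
        rw [hX.rho4]; exact hg
      · refine hX.run_step hi' ?_ ?_
        · rw [hX.rho4]; exact hg
        · rw [hX.rho4]; exact hp
    obtain ⟨d, hd⟩ := hD0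
    have e0 := hDs hd
    have e1 := hX.mem_cell_rho.2 e0
    have e2 := hX.mem_cell_rho.2 e1
    have p0 : ∀ t ∈ X.A \ X.cell s, X.lab t = X.lab d →
        ∃ w ∈ T, (X.sub (X.A \ X.cell s)).conn t w :=
      fun t ht hti => absurd hti (hD _ hd t ht)
    have p1 := q2 _ e0 p0
    have p2 := q2 _ e1 p1
    have p3 := q2 _ e2 p2
    intro i hi
    rw [← hX.cell_eq e0] at hi
    rcases mem_cell.1 hi with rfl | rfl | rfl | rfl
    · exact p0
    · exact p1
    · exact p2
    · exact p3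
  omega

/-- the deletion of a cell lowers `P` by the number of corners whose vertices die -/
theorem Good.P_sub_dead {s : S} (hs : s ∈ X.A) {D : Finset S} (hDs : D ⊆ X.cell s)
    (hD0 : D.Nonempty) (hD : ∀ i ∈ D, ∀ t ∈ X.A \ X.cell s, X.lab t ≠ X.lab i) :
    (X.sub (X.A \ X.cell s)).P + D.card ≤ X.P := by
  have h1 := hX.c_sub_dead hs hDs hD0 hD
  have h2 := hX.P_sub_cell hs
  omega

end dead

/-! ## Two vertices -/

/-- deletion of a star after the deletion of one of its cells -/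
lemma Good.del_sub_cell (hX : X.Good) {V : Finset ℕ} {s : S} (hs : s ∈ X.star V) :
    (X.sub (X.A \ X.cell s)).del V = X.del V := by
  set Y := X.sub (X.A \ X.cell s) with hY
  have hYA : Y.A = X.A \ X.cell s := inter_eq_right.2 sdiff_subset
  have hcs : X.cell s ⊆ X.star V := cell_sub (hX.cl_star V) hs
  have hst : Y.star V = X.star V \ X.cell s := by
    ext t
    rw [mem_star, mem_sdiff, mem_star, hYA, mem_sdiff]
    change (_ ∧ (X.lab t ∈ _ ∨ X.lab (X.ρ t) ∈ _ ∨ X.lab (X.ρ (X.ρ t)) ∈ _ ∨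
      X.lab (X.ρ (X.ρ (X.ρ t))) ∈ _)) ↔ _
    tauto
  unfold Cx.del
  rw [hY, sub_sub, ← hY, hYA, hst]
  congr 1
  ext t
  simp only [mem_inter, mem_sdiff]
  have := @hcs t
  tauto

/-- dead vertices need not be deleted -/
lemma del_of_dead {V W : Finset ℕ} (hVW : V ⊆ W) (h : ∀ s ∈ X.A, X.lab s ∈ W → X.lab s ∈ V)
    (hX : X.Good) : X.del W = X.del V := by
  have h1 : X.star W = X.star V := by
    refine Subset.antisymm (fun t ht => ?_) (star_mono hVW)
    obtain ⟨h1, h2⟩ := mem_star.1 ht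
    have e1 := hX.A_rho _ h1
    have e2 := hX.A_rho _ e1
    have e3 := hX.A_rho _ e2
    refine mem_star.2 ⟨h1, ?_⟩
    rcases h2 with h2 | h2 | h2 | h2
    · exact Or.inl (h _ h1 h2)
    · exact Or.inr (Or.inl (h _ e1 h2))
    · exact Or.inr (Or.inr (Or.inl (h _ e2 h2)))
    · exact Or.inr (Or.inr (Or.inr (h _ e3 h2)))
  unfold Cx.del
  rw [h1]

lemma del_empty : X.del ∅ = X.sub X.A := by
  unfold Cx.del
  have h : X.star ∅ = ∅ := by
    rw [eq_empty_iff_forall_notMem]
    intro t ht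
    have := (mem_star.1 ht).2
    simp at this
  rw [h, sdiff_empty]

/-- deleting the stars of two vertices lowers `P` by at least two -/
theorem Good.P_del_pair (hX : X.Good) {v w : ℕ} (hvw : v ≠ w) (hv : (X.cor v).Nonempty)
    (hw : (X.cor w).Nonempty) : (X.del {v, w}).P + 2 ≤ X.P := by
  classical
  induction hn : X.A.card using Nat.strong_induction_on generalizing X with
  | _ n ih =>
    obtain ⟨s, hs, hsv, hf⟩ := hX.exists_free_cor hv
    set Y := X.sub (X.A \ X.cell s) with hY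
    have hYg : Y.Good := hX.sub (hX.cl_sdiff hX.cl_A (hX.cl_cell s))
    have hYA : Y.A = X.A \ X.cell s := inter_eq_right.2 sdiff_subset
    have hdel : Y.del {v, w} = X.del {v, w} := hX.del_sub_cell <| mem_star.2 ⟨hs, Or.inl <| by
      rw [hsv]; exact mem_insert_self v _⟩
    have hle := hX.P_sub_cell_le hs hf
    rw [← hY] at hle
    -- the corners of a vertex that dies
    have hdead : ∀ y : ℕ, (X.cor y).Nonempty → ¬ (Y.cor y).Nonempty →
        ∃ i ∈ X.cell s, X.lab i = y ∧ ∀ t ∈ X.A \ X.cell s, X.lab t ≠ X.lab i := by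
      rintro y ⟨i, hi⟩ h2
      obtain ⟨hi1, hi2⟩ := mem_filter.1 hi
      have h3 : ∀ t ∈ X.A \ X.cell s, X.lab t ≠ y := by
        intro t ht h
        exact h2 ⟨t, mem_filter.2 ⟨by rw [hYA]; exact ht, h⟩⟩
      refine ⟨i, ?_, hi2, fun t ht => by rw [hi2]; exact h3 t ht⟩
      by_contra h4
      exact h3 i (mem_sdiff.2 ⟨hi1, h4⟩) hi2
    by_cases h1 : (Y.cor v).Nonempty <;> by_cases h2 : (Y.cor w).Nonempty
    · have h3 := ih Y.A.card (by
        rw [← hn, hYA]
        exact card_lt_card ⟨sdiff_subset, fun h => (mem_sdiff.1 (h hs)).2 (self_mem_cell s)⟩)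
        hYg h1 h2 rfl
      rw [hdel] at h3
      omega
    · obtain ⟨i, hi, -, hit⟩ := hdead w hw h2
      have h3 := hX.P_sub_dead hs (D := {i}) (singleton_subset_iff.2 hi) (singleton_nonempty i)
        (fun j hj => by rw [mem_singleton.1 hj]; exact hit)
      rw [card_singleton, ← hY] at h3
      have h4 := hYg.P_del_lt h1
      have h5 : Y.del {v, w} = Y.del {v} := by
        refine del_of_dead (by simp) (fun t ht h => ?_) hYg
        rcases mem_insert.1 h with h | h
        · rw [h]; exact mem_singleton_self v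
        · exact absurd ⟨t, mem_filter.2 ⟨ht, mem_singleton.1 h⟩⟩ h2
      rw [← hdel, h5]
      omega
    · obtain ⟨i, hi, -, hit⟩ := hdead v hv h1
      have h3 := hX.P_sub_dead hs (D := {i}) (singleton_subset_iff.2 hi) (singleton_nonempty i)
        (fun j hj => by rw [mem_singleton.1 hj]; exact hit)
      rw [card_singleton, ← hY] at h3
      have h4 := hYg.P_del_lt h2
      have h5 : Y.del {v, w} = Y.del {w} := by
        refine del_of_dead (by simp) (fun t ht h => ?_) hYg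
        rcases mem_insert.1 h with h | h
        · exact absurd ⟨t, mem_filter.2 ⟨ht, h⟩⟩ h1
        · exact h
      rw [← hdel, h5]
      omega
    · obtain ⟨i, hi, hiv, hit⟩ := hdead v hv h1
      obtain ⟨j, hj, hjw, hjt⟩ := hdead w hw h2
      have hij : i ≠ j := fun h => hvw (by rw [← hiv, ← hjw, h])
      have h3 := hX.P_sub_dead hs (D := {i, j}) (by
        intro k hk
        rcases mem_insert.1 hk with rfl | hk
        · exact hi
        · rw [mem_singleton.1 hk]; exact hj) ⟨i, mem_insert_self i _⟩ (by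
        intro k hk
        rcases mem_insert.1 hk with rfl | hk
        · exact hit
        · rw [mem_singleton.1 hk]; exact hjt)
      rw [card_pair hij, ← hY] at h3
      have h5 : Y.del {v, w} = Y.del ∅ := by
        refine del_of_dead (empty_subset _) (fun t ht h => ?_) hYg
        rcases mem_insert.1 h with h | h
        · exact absurd ⟨t, mem_filter.2 ⟨ht, h⟩⟩ h1
        · exact absurd ⟨t, mem_filter.2 ⟨ht, mem_singleton.1 h⟩⟩ h2
      have h6 : Y.del ∅ = Y := by
        rw [del_empty, hYA, hY, sub_sub, inter_self]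
      rw [← hdel, h5, h6]
      push_cast at h3
      omega

/-! ## A vertex with two fans -/

/-- the star of the two new vertices -/
lemma Good.star_sep (hX : X.Good) {f : S} :
    (X.sep f).star {X.lab f, X.fresh (X.lab f)} = X.star {X.lab f} := by
  have key : ∀ x, (X.sep f).lab x ∈ ({X.lab f, X.fresh (X.lab f)} : Finset ℕ) ↔
      X.lab x ∈ ({X.lab f} : Finset ℕ) := by
    intro x
    rw [mem_singleton, mem_insert, mem_singleton]
    by_cases h : X.inFan f x
    · rw [sep_of h, hX.inFan_lab h]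
      exact ⟨fun _ => rfl, fun _ => Or.inr rfl⟩
    · rw [sep_of_not h]
      exact ⟨fun h1 => h1.resolve_right (fresh_ne _ _), Or.inl⟩
  ext t
  rw [mem_star, mem_star, key, key, key, key]
  exact Iff.rfl

/-- deleting the star of the vertex `lab f` is the same before and after separating the fan of
`f` -/
lemma Good.P_del_sep (hX : X.Good) {f : S} :
    ((X.sep f).del {X.lab f, X.fresh (X.lab f)}).P = (X.del {X.lab f}).P := by
  have h0 : (X.sep f).A \ (X.sep f).star {X.lab f, X.fresh (X.lab f)} =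
      X.A \ X.star {X.lab f} := by
    rw [hX.star_sep]; rfl
  have h1 : (X.sep f).del {X.lab f, X.fresh (X.lab f)} =
      (X.sep f).sub (X.A \ X.star {X.lab f}) := by
    unfold Cx.del
    rw [h0]
  rw [h1]
  refine P_congr rfl rfl rfl fun s hs t ht => ?_
  have key : ∀ x ∈ X.A ∩ (X.A \ X.star {X.lab f}), (X.sep f).lab x = X.lab x := by
    intro x hx
    refine sep_of_not fun h => ?_
    have h2 := mem_sdiff.1 (mem_inter.1 hx).2
    exact h2.2 (mem_star.2 ⟨h2.1, Or.inl (by rw [hX.inFan_lab h]; exact mem_singleton_self _)⟩)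
  change (X.sep f).lab s = (X.sep f).lab t ↔ X.lab s = X.lab t
  rw [key s hs, key t ht]

/-- deleting the star of a vertex with two fans lowers `P` by at least two, if separating one of
the fans does not change the number of components -/
theorem Good.P_del_two (hX : X.Good) {f h : S} (hf : f ∈ X.A) (hh : h ∈ X.A) (hfg : X.g f = f)
    (hhg : X.g h = h) (hne : f ≠ h) (hl : X.lab f = X.lab h) (hc : (X.sep f).c = X.c) :
    (X.del {X.lab f}).P + 2 ≤ X.P := by
  have hY := hX.sep hfg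
  have h1 : (X.sep f).P = X.P := by
    change 3 * (X.N : ℤ) - X.E + (X.sep f).c = 3 * (X.N : ℤ) - X.E + X.c
    rw [hc]
  have h2 := hY.P_del_pair (v := X.lab f) (w := X.fresh (X.lab f)) (fresh_ne _ _)
    ⟨h, mem_filter.2 ⟨hh, by
      rw [sep_of_not fun h3 => hne ((inFan_free hhg).1 h3).symm, hl]⟩⟩
    ⟨f, mem_filter.2 ⟨hf, sep_of (inFan_self f)⟩⟩
  rw [hX.P_del_sep, h1] at h2
  exact h2

/-- separating a fan does not change the number of components, if the cells are connected by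
gates -/
lemma Good.sep_c_of_comp (hX : X.Good) {f : S} (hf : X.g f = f)
    (hcomp : ∀ a ∈ X.A, ∀ b ∈ X.A, comp X.ρ X.g a b) : (X.sep f).c = X.c := by
  have hY := hX.sep hf
  have key : ∀ Z : Cx S, Z.Good → Z.A = X.A → Z.ρ = X.ρ → Z.g = X.g →
      ∀ a ∈ X.A, ∀ b ∈ X.A, Z.conn a b := by
    intro Z hZ h1 h2 h3 a ha b hb
    have h4 := hcomp a ha b hb
    rw [← h2, ← h3] at h4
    exact (comp_le_of (q := Z.conn) (fun x => conn_rho x) fun x => hZ.conn_g) h4
  refine nc_congr (A := X.A) fun s hs t ht => ?_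
  exact ⟨fun _ => key X hX rfl rfl rfl s hs t ht, fun _ => key _ hY rfl rfl rfl s hs t ht⟩

/-- separating a fan does not change the number of components, if the two free sides at the
vertex remain connected -/
lemma Good.sep_c_of_conn (hX : X.Good) {f h : S} (hf : f ∈ X.A) (hh : h ∈ X.A)
    (hhg : X.g h = h) (hne : f ≠ h) (hl : X.lab f = X.lab h) (hc : (X.sep f).conn h f) :
    (X.sep f).c = X.c := by
  refine nc_congr (A := X.A) fun x _ y _ => ?_
  rw [hX.sep_join hh hf hhg hne.symm hl.symm, join_of_rel hc]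

/-- the version for cells connected by gates -/
theorem Good.P_del_two' (hX : X.Good) {f h : S} (hf : f ∈ X.A) (hh : h ∈ X.A) (hfg : X.g f = f)
    (hhg : X.g h = h) (hne : f ≠ h) (hl : X.lab f = X.lab h)
    (hcomp : ∀ a ∈ X.A, ∀ b ∈ X.A, comp X.ρ X.g a b) :
    (X.del {X.lab f}).P + 2 ≤ X.P :=
  hX.P_del_two hf hh hfg hhg hne hl (hX.sep_c_of_comp hfg hcomp)

/-- a vertex with two fans lies in a least hitting set already if `P ≤ 4 τ + 1` (separating one of
the fans does not change the number of components; all smaller complexes are fine) -/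
theorem Good.tig_two (hX : X.Good) (ih : IH X.A.card) {f h : S} (hf : f ∈ X.A) (hh : h ∈ X.A)
    (hfg : X.g f = f) (hhg : X.g h = h) (hne : f ≠ h) (hl : X.lab f = X.lab h)
    (hc : (X.sep f).c = X.c) (hP : X.P ≤ 4 * X.tau + 1) : X.Fr {X.lab f} := by
  rw [fr_iff, card_singleton]
  have h1 := hX.P_del_two hf hh hfg hhg hne hl hc
  have h2 := ih S (X.del {X.lab f}) (hX.del _) (by
    rw [del_A]
    refine card_lt_card ⟨sdiff_subset, fun hh => (mem_sdiff.1 (hh hf)).2 ?_⟩
    exact mem_star.2 ⟨hf, Or.inl (mem_singleton_self _)⟩)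
  omega

end Cx

end Pool.Agent.Lib.MP06c549.Z
end
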