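import Pool.Agent.Lib.MP_06c549_co.Z.Flip
import Pool.Agent.Lib.MP_06c549_co.Z.Squ
import Pool.Agent.Lib.MP_06c549_co.Z.Walk
import Pool.Agent.Lib.MP_06c549_co.Z.Two

section
/-!
# MP_06c549_co, Z: the double gate, corners on different sides, slack 1

`Y` is one side of a double gate with the ends `x`, `v`. The fan of `x` is closed in `Y`, it goes
from the cell of `t` to the cell of `y`. The cell of `y` is deleted and its two neighbours are
glued instead; the new complex has a smaller potential and covers all cells without `x`.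
-/
set_option autoImplicit false
set_option linter.unusedSectionVars false

namespace Pool.Agent.Lib.MP06c549.Z

open Equiv Equiv.Perm Finset

variable {S : Type} [Fintype S] [DecidableEq S]

/-- after the gate `a - b` is cut, `t` and `b` can be glued, if `t` and `a` are on one hole -/
lemma gl_of_cut {ρ g : Perm S} (hg : Inv g) (hP : Planar ρ g) {a t : S} (ha : g a ≠ a)
    (hta : SameCycle (ρ * g) t a) : Gl ρ (g * swap a (g a)) t (g a) := by
  set g' := g * swap a (g a) with hg'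
  have hi : Inv g' := hg.unglue a
  have h1 : Planar ρ (g' * swap a (g a)) := by rw [hg', mul_swap_mul]; exact hP
  obtain ⟨-, h2⟩ := Planar.of_glue hi ha.symm (unglue_left hg a) (unglue_right a) h1
  have h3 : SameCycle (ρ * g' * swap a (g a)) t a := by
    rw [mul_assoc, hg', mul_swap_mul]; exact hta
  have h4 : join (SameCycle.setoid (ρ * g')) a (g a) t a := sameCycle_le_join _ _ _ h3
  rcases h4 with h4 | ⟨h4, -⟩ | ⟨h4, -⟩
  · rcases h2 with h2 | h2
    · exact Or.inl (SameCycle.trans (show SameCycle (ρ * g') t a from h4) h2)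
    · exact Or.inr fun h5 => h2 ((comp ρ g').trans ((comp ρ g').symm (comp_of_mul h4)) h5)
  · rcases h2 with h2 | h2
    · exact Or.inl (SameCycle.trans (show SameCycle (ρ * g') t a from h4) h2)
    · exact Or.inr fun h5 => h2 ((comp ρ g').trans ((comp ρ g').symm (comp_of_mul h4)) h5)
  · exact Or.inl h4

/-- a cell `{y, ρ y, ρ² y, ρ³ y}` with the two glued sides `ρ² y`, `ρ³ y` is replaced by the gluing
of its two neighbours -/
lemma gl_strip {ρ g g₁ : Perm S} {y p₂ p₃ : S} (hr : ρ (ρ (ρ (ρ y))) = y) (hy : g y = y)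
    (hy1 : g (ρ y) = ρ y) (hp2 : g (ρ (ρ y)) = p₂) (hp2' : g p₂ = ρ (ρ y))
    (hp3 : g (ρ (ρ (ρ y))) = p₃) (hp3' : g p₃ = ρ (ρ (ρ y))) {K : Finset S}
    (hK : ∀ x, x ∈ K ↔ x = y ∨ x = ρ y ∨ x = ρ (ρ y) ∨ x = ρ (ρ (ρ y)))
    (hKr : ∀ x, ρ x ∈ K ↔ x ∈ K) (hp2K : p₂ ∉ K) (hp3K : p₃ ∉ K)
    (h1 : g₁ p₂ = p₃) (h1' : g₁ p₃ = p₂)
    (h2 : ∀ x, x ∉ K → x ≠ p₂ → x ≠ p₃ → g₁ x = g x) (h3 : ∀ x ∈ K, g₁ x = x)
    (hn1 : ρ y ≠ y) (hn2 : ρ (ρ y) ≠ y) (hn3 : ρ (ρ (ρ y)) ≠ y)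
    {a b : S} (ha : a ∉ K) (hb : b ∉ K) (h : Gl ρ g a b) : Gl ρ g₁ a b := by
  classical
  have hyK : y ∈ K := (hK y).2 (Or.inl rfl)
  have hy1K : ρ y ∈ K := (hKr y).2 hyK
  have hy2K : ρ (ρ y) ∈ K := (hKr _).2 hy1K
  have hy3K : ρ (ρ (ρ y)) ∈ K := (hKr _).2 hy2K
  rcases h with h | h
  · left
    -- the elements of `K` are moved to `p₂`, `p₃`
    set φ : S → S := fun z => if z ∈ K then (if z = ρ (ρ (ρ y)) then p₂ else p₃) else z with hφ
    have φK : ∀ z ∈ K, z ≠ ρ (ρ (ρ y)) → φ z = p₃ := by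
      intro z hz hz3
      change (if z ∈ K then (if z = ρ (ρ (ρ y)) then p₂ else p₃) else z) = p₃
      rw [if_pos hz, if_neg hz3]
    have φ3 : φ (ρ (ρ (ρ y))) = p₂ := by
      change (if ρ (ρ (ρ y)) ∈ K then (if ρ (ρ (ρ y)) = ρ (ρ (ρ y)) then p₂ else p₃) else _) = p₂
      rw [if_pos hy3K, if_pos rfl]
    have φn : ∀ z, z ∉ K → φ z = z := by
      intro z hz
      change (if z ∈ K then (if z = ρ (ρ (ρ y)) then p₂ else p₃) else z) = z
      rw [if_neg hz]
    have m1 : ρ y ≠ ρ (ρ (ρ y)) := fun h => hn2 (ρ.injective h).symm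
    have m2 : ρ (ρ y) ≠ ρ (ρ (ρ y)) := fun h => hn1 (ρ.injective (ρ.injective h)).symm
    let q : Setoid S := Setoid.comap φ (SameCycle.setoid (ρ * g₁))
    have hq : SameCycle.setoid (ρ * g) ≤ q := by
      refine sameCycle_le_of fun z => ?_
      change SameCycle (ρ * g₁) (φ z) (φ ((ρ * g) z))
      rw [Perm.mul_apply]
      by_cases hz : z ∈ K
      · rcases (hK z).1 hz with rfl | rfl | rfl | rfl
        · rw [hy, φK _ hz hn3.symm, φK _ hy1K m1]
        · rw [hy1, φK _ hz m1, φK _ hy2K m2]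
        · rw [hp2, φK _ hz m2, φn _ fun h => hp2K ((hKr _).1 h)]
          exact ⟨1, by rw [zpow_one, Perm.mul_apply, h1']⟩
        · rw [hp3, φ3, φn _ fun h => hp3K ((hKr _).1 h)]
          exact ⟨1, by rw [zpow_one, Perm.mul_apply, h1]⟩
      · by_cases hz2 : z = p₂
        · rw [hz2, hp2', φn _ hp2K, φ3]
        by_cases hz3 : z = p₃
        · rw [hz3, hp3', hr, φn _ hp3K, φK _ hyK hn3.symm]
        have hgz : g z ∉ K := by
          intro h5
          have h6 := h2 z hz hz2 hz3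
          have h7 : g₁ (g z) = g z := h3 _ h5
          rw [← h6] at h7
          have h8 := g₁.injective h7
          rw [h6] at h8
          exact hz (h8 ▸ h5)
        rw [φn _ hz, φn _ fun h => hgz ((hKr _).1 h)]
        exact ⟨1, by rw [zpow_one, Perm.mul_apply, h2 z hz hz2 hz3]⟩
    have h4 : SameCycle (ρ * g₁) (φ a) (φ b) := hq h
    rwa [φn a ha, φn b hb] at h4
  · right
    intro h4
    refine h ?_
    have hle : comp ρ g₁ ≤ comp ρ g := by
      have h23 : comp ρ g p₂ p₃ := by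
        have e1 : comp ρ g p₂ (ρ (ρ y)) := by
          have := comp_right (ρ := ρ) (g := g) p₂
          rwa [hp2'] at this
        have e2 : comp ρ g (ρ (ρ y)) (ρ (ρ (ρ y))) := comp_left _
        have e3 : comp ρ g (ρ (ρ (ρ y))) p₃ := by
          have := comp_right (ρ := ρ) (g := g) (ρ (ρ (ρ y)))
          rwa [hp3] at this
        exact (comp ρ g).trans e1 ((comp ρ g).trans e2 e3)
      refine comp_le_of (fun x => comp_left x) fun x => ?_
      by_cases hx : x ∈ K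
      · rw [h3 x hx]
      by_cases hx2 : x = p₂
      · rw [hx2, h1]; exact h23
      by_cases hx3 : x = p₃
      · rw [hx3, h1']; exact (comp ρ g).symm h23
      rw [h2 x hx hx2 hx3]
      exact comp_right x
    exact hle h4

namespace Cx

/-- deletion of a cell of a star first -/
lemma Good.del_sub_cell11 {X : Cx S} (hX : X.Good) {v : ℕ} {s : S} (hs : s ∈ X.A)
    (hsv : X.lab s = v) : (X.sub (X.A \ X.cell s)).del {v} = X.del {v} := by
  classical
  set Y := X.sub (X.A \ X.cell s) with hY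
  have hYA : Y.A = X.A \ X.cell s := inter_eq_right.2 sdiff_subset
  have hcs : X.cell s ⊆ X.star {v} := by
    refine cell_sub (hX.cl_star {v}) (mem_star.2 ⟨hs, Or.inl ?_⟩)
    rw [hsv]; exact mem_singleton_self v
  have hst : Y.star {v} = X.star {v} \ X.cell s := by
    ext t
    rw [mem_star, mem_sdiff, mem_star, hYA, mem_sdiff]
    change (_ ∧ (X.lab t ∈ _ ∨ X.lab (X.ρ t) ∈ _ ∨ X.lab (X.ρ (X.ρ t)) ∈ _ ∨
      X.lab (X.ρ (X.ρ (X.ρ t))) ∈ _)) ↔ _
    tauto
  unfold Cx.del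
  rw [hY, sub_sub, ← hY, hYA, hst]
  congr 1
  ext t
  simp only [mem_inter, mem_sdiff]
  have := @hcs t
  tauto

/-- **Strip.** The cell of `y` is deleted and the two neighbours `p₂`, `p₃` of the sides `ρ² y`,
`ρ³ y` are glued. -/
theorem Good.strip {Y : Cx S} (hY : Y.Good) {y p₂ p₃ : S} (hyA : y ∈ Y.A) (hy : Y.g y = y)
    (h2 : Y.g (Y.ρ (Y.ρ y)) = p₂) (h3 : Y.g (Y.ρ (Y.ρ (Y.ρ y))) = p₃)
    (h2' : p₂ ≠ Y.ρ (Y.ρ y)) (h3' : p₃ ≠ Y.ρ (Y.ρ (Y.ρ y)))
    (hn1 : Y.lab (Y.ρ (Y.ρ y)) ≠ Y.lab y) :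
    ∃ Z : Cx S, Z.Good ∧ Z.A = Y.A \ Y.cell y ∧ Z.ρ = Y.ρ ∧
      (∀ s, Y.lab s = Y.lab y → Z.lab s = Y.lab (Y.ρ (Y.ρ y))) ∧
      (∀ s, Y.lab s ≠ Y.lab y → Z.lab s = Y.lab s) ∧
      Z.P ≤ Y.P - 1 ∧ Z.g p₂ = p₃ ∧ Z.g p₃ = p₂ ∧
      (∀ x ∈ Y.cell y, Z.g x = x) ∧
      (∀ x, x ≠ p₂ → x ≠ p₃ → Z.g x = (Y.sub (Y.A \ Y.cell y)).g x) := by
  classical
  have py := hY.par y hyA
  have hy1A : Y.ρ y ∈ Y.A := hY.A_rho _ hyA
  have hy2A : Y.ρ (Y.ρ y) ∈ Y.A := hY.A_rho _ hy1A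
  have py1 := hY.par _ hy1A
  have py2 := hY.par _ hy2A
  have hKcl : Y.Cl (Y.cell y) := hY.cl_cell y
  have hKr : ∀ x, Y.ρ x ∈ Y.cell y ↔ x ∈ Y.cell y := fun x => hY.mem_cell_rho
  have hyK : y ∈ Y.cell y := self_mem_cell y
  have hy2K : Y.ρ (Y.ρ y) ∈ Y.cell y := (hKr _).2 ((hKr _).2 hyK)
  have hy3K : Y.ρ (Y.ρ (Y.ρ y)) ∈ Y.cell y := (hKr _).2 hy2K
  have hgK : ∀ j ∈ Y.cell y, Y.g j ≠ j → Y.g j ∈ Y.A \ Y.cell y := fun j hj h =>
    mem_sdiff.2 ⟨hY.g_mem h, hY.g_notMem_cell hj h⟩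
  have h2n : Y.g (Y.ρ (Y.ρ y)) ≠ Y.ρ (Y.ρ y) := by rw [h2]; exact h2'
  have h3n : Y.g (Y.ρ (Y.ρ (Y.ρ y))) ≠ Y.ρ (Y.ρ (Y.ρ y)) := by rw [h3]; exact h3'
  have hp2K : p₂ ∈ Y.A \ Y.cell y := h2 ▸ hgK _ hy2K h2n
  have hp3K : p₃ ∈ Y.A \ Y.cell y := h3 ▸ hgK _ hy3K h3n
  have hp2' : Y.g p₂ = Y.ρ (Y.ρ y) := by rw [← h2, Y.inv]
  have hp3' : Y.g p₃ = Y.ρ (Y.ρ (Y.ρ y)) := by rw [← h3, Y.inv]
  have lp2 : Y.lab p₂ = Y.lab (Y.ρ (Y.ρ (Y.ρ y))) := by rw [← h2]; exact hY.lab_g _ h2n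
  have lp2' : Y.lab (Y.ρ p₂) = Y.lab (Y.ρ (Y.ρ y)) := by rw [← h2]; exact hY.lab_g' h2n
  have lp3 : Y.lab p₃ = Y.lab y := by
    have := hY.lab_g _ h3n
    rwa [hY.rho4, h3] at this
  have lp3' : Y.lab (Y.ρ p₃) = Y.lab (Y.ρ (Y.ρ (Y.ρ y))) := by rw [← h3]; exact hY.lab_g' h3n
  have hYs : (Y.sub (Y.A \ Y.cell y)).Good := hY.sub (hY.cl_sdiff hY.cl_A hKcl)
  have hsA : (Y.sub (Y.A \ Y.cell y)).A = Y.A \ Y.cell y := inter_eq_right.2 sdiff_subset
  have hPs : (Y.sub (Y.A \ Y.cell y)).P ≤ Y.P := hY.P_sub_cell_le hyA hy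
  have hBD : Disjoint (Y.cell y) (Y.A \ Y.cell y) := disjoint_sdiff
  have hff : Relation.ReflTransGen (Y.turnIn (Y.cell y)) (Y.ρ (Y.g p₂)) (Y.g p₃) := by
    rw [hp2', hp3']
  obtain ⟨a1, a2, a3, a4, a5, a6, a7⟩ := hY.zipG (B := Y.cell y) (D := Y.A \ Y.cell y) (s := p₃)
    (t := p₂) hKcl hBD hp3K hp2K (by rw [hp3']; exact hy3K) (by rw [hp2']; exact hy2K) hff
  have hx : ¬ Relation.ReflTransGen (Y.sub (Y.A \ Y.cell y)).turn (Y.ρ p₂) p₃ :=
    hY.not_turns_of_lab (hY.cl_sdiff hY.cl_A hKcl) (by rw [lp3, lp2']; exact hn1.symm)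
  obtain ⟨l1, l2⟩ := hY.zip_lin (B := Y.cell y) (D := Y.A \ Y.cell y) (s := p₃) (t := p₂)
    (hY.cl_sdiff hY.cl_A hKcl) hBD hp3K hp2K (by rw [hp3']; exact hy3K)
    (by rw [hp2']; exact hy2K) hff hx
  have hM := hYs.merge (x := Y.lab (Y.ρ (Y.ρ y))) (y := Y.lab y) (by omega)
  have hidf : ∀ s, Y.lab s ≠ Y.lab y →
      ((Y.sub (Y.A \ Y.cell y)).merge (Y.lab (Y.ρ (Y.ρ y))) (Y.lab y)).lab s = Y.lab s := by
    intro s hs
    rw [merge_lab]
    exact if_neg hs
  have hidx : ∀ s, Y.lab s = Y.lab y →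
      ((Y.sub (Y.A \ Y.cell y)).merge (Y.lab (Y.ρ (Y.ρ y))) (Y.lab y)).lab s =
        Y.lab (Y.ρ (Y.ρ y)) := by
    intro s hs
    rw [merge_lab]
    exact if_pos hs
  have hMP := (Y.sub (Y.A \ Y.cell y)).merge_P_le (Y.lab (Y.ρ (Y.ρ y))) (Y.lab y)
  have hMA : ((Y.sub (Y.A \ Y.cell y)).merge (Y.lab (Y.ρ (Y.ρ y))) (Y.lab y)).A =
    Y.A \ Y.cell y := hsA
  have hMr : ((Y.sub (Y.A \ Y.cell y)).merge (Y.lab (Y.ρ (Y.ρ y))) (Y.lab y)).ρ = Y.ρ := rfl
  have hMg : ((Y.sub (Y.A \ Y.cell y)).merge (Y.lab (Y.ρ (Y.ρ y))) (Y.lab y)).g =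
    (Y.sub (Y.A \ Y.cell y)).g := rfl
  generalize (Y.sub (Y.A \ Y.cell y)).merge (Y.lab (Y.ρ (Y.ρ y))) (Y.lab y) = M at *
  rw [hsA] at a4 a5
  have b1 : M.g p₃ = p₃ := by rw [hMg]; exact a1
  have b2 : M.g p₂ = p₂ := by rw [hMg]; exact a2
  have hZg : ∀ x, (M.glue p₃ p₂ b1 b2).g x = if x = p₃ then p₂ else if x = p₂ then p₃ else
      (Y.sub (Y.A \ Y.cell y)).g x := by
    intro x
    rw [← hMg]
    exact swap_apply_glued b1 b2 x
  refine ⟨M.glue p₃ p₂ b1 b2, ?_, hMA, hMr, hidx, hidf, ?_, ?_, ?_, ?_, ?_⟩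
  · refine hM.glueG b1 b2 a3 (by rw [hMA]; exact a4) (by rw [hMA]; exact a5) ?_ ?_ ?_ ?_ ?_
    · rw [hMr, hidx _ lp3, hidf _ (by rw [lp2']; exact hn1), lp2']
    · rw [hMr, hidf _ (by rw [lp2]; omega), hidf _ (by rw [lp3']; omega), lp2, lp3']
    · rw [hMr, hMg]; exact a7
    · rw [hMr, hMg]; exact l1
    · rw [hMr, hMg]; exact l2
  · rw [glue_P b1 b2 a3]
    omega
  · rw [hZg, if_neg a3.symm, if_pos rfl]
  · rw [hZg, if_pos rfl]
  · intro x hxK
    have e3 : x ≠ p₃ := by rintro rfl; exact (mem_sdiff.1 hp3K).2 hxK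
    have e2 : x ≠ p₂ := by rintro rfl; exact (mem_sdiff.1 hp2K).2 hxK
    rw [hZg, if_neg e3, if_neg e2, sub_g, if_neg fun h => (mem_sdiff.1 h.1).2 hxK]
  · intro x hx2 hx3
    rw [hZg, if_neg hx3, if_neg hx2]

/-- Double gate, slack 1: all three sides of the cell of `y` are glued. -/
theorem dg11_three {Y : Cx S} {n : ℕ} (ih : IH n) (hY : Y.Good) (hn : Y.A.card < n) {y t : S}
    (hyA : y ∈ Y.A) (htA : t ∈ Y.A) (hy : Y.g y = y) (ht : Y.g t = t)
    (hxl : Y.lab (Y.ρ t) = Y.lab y) (hvl : Y.lab (Y.ρ y) = Y.lab t)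
    (hcyc : SameCycle (Y.ρ * Y.g) t y) (hv : ¬ Relation.ReflTransGen Y.turn (Y.ρ y) t)
    (hl : Y.ρ t ≠ y) (hn1 : Y.lab (Y.ρ (Y.ρ y)) ≠ Y.lab y) (hP : Y.P ≤ 4 * Y.tau + 1)
    (h1 : Y.g (Y.ρ y) ≠ Y.ρ y) (h2 : Y.g (Y.ρ (Y.ρ y)) ≠ Y.ρ (Y.ρ y))
    (h3 : Y.g (Y.ρ (Y.ρ (Y.ρ y))) ≠ Y.ρ (Y.ρ (Y.ρ y))) : Y.Fr {Y.lab y} := by
  classical
  -- parities
  have py := hY.par y hyA
  have hy1A : Y.ρ y ∈ Y.A := hY.A_rho _ hyA
  have hy2A : Y.ρ (Y.ρ y) ∈ Y.A := hY.A_rho _ hy1A
  have hy3A : Y.ρ (Y.ρ (Y.ρ y)) ∈ Y.A := hY.A_rho _ hy2A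
  have py1 := hY.par _ hy1A
  have py2 := hY.par _ hy2A
  have pt := hY.par t htA
  have htA' : Y.ρ t ∈ Y.A := hY.A_rho _ htA
  -- the cell of `y`
  have hKcl : Y.Cl (Y.cell y) := hY.cl_cell y
  have hKA : Y.cell y ⊆ Y.A := cell_sub hY.cl_A hyA
  have hKr : ∀ x, Y.ρ x ∈ Y.cell y ↔ x ∈ Y.cell y := fun x => hY.mem_cell_rho
  have hyK : y ∈ Y.cell y := self_mem_cell y
  have hy1K : Y.ρ y ∈ Y.cell y := (hKr _).2 hyK
  have hy2K : Y.ρ (Y.ρ y) ∈ Y.cell y := (hKr _).2 hy1K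
  have hy3K : Y.ρ (Y.ρ (Y.ρ y)) ∈ Y.cell y := (hKr _).2 hy2K
  have htK : t ∉ Y.cell y := by
    intro h
    rcases mem_cell.1 h with h | h | h | h
    · rw [h] at hvl; omega
    · exact hv (by rw [h])
    · rw [h] at hvl; omega
    · exact hl (by rw [h, hY.rho4])
  have hgK : ∀ j ∈ Y.cell y, Y.g j ≠ j → Y.g j ∈ Y.A \ Y.cell y := fun j hj h =>
    mem_sdiff.2 ⟨hY.g_mem h, hY.g_notMem_cell hj h⟩
  have htD : t ∈ Y.A \ Y.cell y := mem_sdiff.2 ⟨htA, htK⟩
  obtain ⟨p1, hp1⟩ : ∃ p, p = Y.g (Y.ρ y) := ⟨_, rfl⟩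
  obtain ⟨p2, hp2⟩ : ∃ p, p = Y.g (Y.ρ (Y.ρ y)) := ⟨_, rfl⟩
  obtain ⟨p3, hp3⟩ : ∃ p, p = Y.g (Y.ρ (Y.ρ (Y.ρ y))) := ⟨_, rfl⟩
  have hp1' : Y.g p1 = Y.ρ y := by rw [hp1, Y.inv]
  have hp2' : Y.g p2 = Y.ρ (Y.ρ y) := by rw [hp2, Y.inv]
  have hp3' : Y.g p3 = Y.ρ (Y.ρ (Y.ρ y)) := by rw [hp3, Y.inv]
  have hp1K : p1 ∈ Y.A \ Y.cell y := hp1 ▸ hgK _ hy1K h1
  have hp2K : p2 ∈ Y.A \ Y.cell y := hp2 ▸ hgK _ hy2K h2
  have hp3K : p3 ∈ Y.A \ Y.cell y := hp3 ▸ hgK _ hy3K h3
  have lp1 : Y.lab p1 = Y.lab (Y.ρ (Y.ρ y)) := by rw [hp1]; exact hY.lab_g _ h1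
  have lp1' : Y.lab (Y.ρ p1) = Y.lab (Y.ρ y) := by rw [hp1]; exact hY.lab_g' h1
  have lp2 : Y.lab p2 = Y.lab (Y.ρ (Y.ρ (Y.ρ y))) := by rw [hp2]; exact hY.lab_g _ h2
  have lp2' : Y.lab (Y.ρ p2) = Y.lab (Y.ρ (Y.ρ y)) := by rw [hp2]; exact hY.lab_g' h2
  have lp3 : Y.lab p3 = Y.lab y := by
    have := hY.lab_g _ h3
    rwa [hY.rho4, ← hp3] at this
  have n12 : p1 ≠ p2 := fun h => hY.rho1 _ (Y.g.injective (hp1 ▸ hp2 ▸ h)).symm
  have n13 : p1 ≠ p3 := fun h => hY.rho2 _ (Y.g.injective (hp1 ▸ hp3 ▸ h)).symm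
  have n23 : p2 ≠ p3 := fun h => hY.rho1 _ (Y.g.injective (hp2 ▸ hp3 ▸ h)).symm
  have ht1 : t ≠ p1 := fun h => (mem_sdiff.1 hp1K).2 (by
    rw [h, hp1'] at ht; rw [← ht]; exact hy1K)
  have ht2 : t ≠ p2 := fun h => (mem_sdiff.1 hp2K).2 (by
    rw [h, hp2'] at ht; rw [← ht]; exact hy2K)
  have ht3 : t ≠ p3 := fun h => (mem_sdiff.1 hp3K).2 (by
    rw [h, hp3'] at ht; rw [← ht]; exact hy3K)
  have nK : ∀ {p x : S}, p ∈ Y.A \ Y.cell y → x ∈ Y.cell y → x ≠ p := fun hp hx h =>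
    (mem_sdiff.1 hp).2 (h ▸ hx)
  have hYs : (Y.sub (Y.A \ Y.cell y)).Good := hY.sub (hY.cl_sdiff hY.cl_A hKcl)
  have hlt : (Y.A \ Y.cell y).card < Y.A.card :=
    card_lt_card ⟨sdiff_subset, fun h => (mem_sdiff.1 (h hyA)).2 hyK⟩
  -- first gluing
  obtain ⟨Z, hZ, hZA, hZr, hidx, hidf, hZP, hZp2, hZp3, hZK, hZs⟩ :=
    hY.strip (p₂ := p2) (p₃ := p3) hyA hy hp2.symm hp3.symm (nK hp2K hy2K).symm
      (nK hp3K hy3K).symm hn1
  have hsub : ∀ x, x ∉ Y.cell y → Y.g x ∉ Y.cell y → (Y.sub (Y.A \ Y.cell y)).g x = Y.g x := by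
    intro x hxK hgx
    by_cases hxA : x ∈ Y.A
    · exact sub_g_mem (mem_sdiff.2 ⟨hxA, hxK⟩) (mem_sdiff.2 ⟨hY.g_mem_iff.2 hxA, hgx⟩)
    · have : Y.g x = x := by
        by_contra h
        exact hxA (hY.A_g _ h)
      rw [sub_g]
      split_ifs
      · rfl
      · exact this.symm
  have hZt : Z.g t = t := by
    rw [hZs t ht2 ht3, sub_g]
    split_ifs
    · exact ht
    · rfl
  have hZp1 : Z.g p1 = p1 := by
    rw [hZs p1 n12 n13, sub_g_not]
    rw [hp1']
    exact fun h => (mem_sdiff.1 h).2 hy1K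
  -- the second gluing is planar
  have hGl : Gl Z.ρ Z.g t p1 := by
    rw [hZr]
    have hta : SameCycle (Y.ρ * Y.g) t (Y.ρ y) :=
      hcyc.trans ⟨1, by rw [zpow_one, Perm.mul_apply, hy]⟩
    have g0 := gl_of_cut (g := Y.g) Y.inv hY.planar h1 hta
    rw [← hp1] at g0
    have c1 : ∀ x, x ≠ Y.ρ y → x ≠ p1 → (Y.g * swap (Y.ρ y) p1) x = Y.g x := by
      intro x e1 e2
      rw [Perm.mul_apply, swap_apply_of_ne_of_ne e1 e2]
    refine gl_strip (g := Y.g * swap (Y.ρ y) p1) (g₁ := Z.g) (ρ := Y.ρ) (y := y) (p₂ := p2)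
      (p₃ := p3) (K := Y.cell y) (hY.rho4 y) ?_ ?_ ?_ ?_ ?_ ?_
      (fun x => mem_cell) hKr (mem_sdiff.1 hp2K).2 (mem_sdiff.1 hp3K).2 hZp2 hZp3 ?_ hZK
      (hY.rho1 y) (hY.rho2 y) (hY.rho3 y) htK (mem_sdiff.1 hp1K).2 g0
    · rw [c1 y (hY.rho1 y).symm (nK hp1K hyK), hy]
    · rw [Perm.mul_apply, swap_apply_left, hp1']
    · rw [c1 _ (hY.rho1 _) (nK hp1K hy2K), hp2]
    · rw [c1 _ (nK hp2K hy1K).symm n12.symm, hp2']
    · rw [c1 _ (hY.rho2 _) (nK hp1K hy3K), hp3]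
    · rw [c1 _ (nK hp3K hy1K).symm n13.symm, hp3']
    · intro x hxK hx2 hx3
      rw [hZs x hx2 hx3]
      by_cases hx1 : x = p1
      · rw [hx1, Perm.mul_apply, swap_apply_right, ← hp1, sub_g_not]
        rw [hp1']
        exact fun h => (mem_sdiff.1 h).2 hy1K
      · rw [c1 x (fun h => hxK (h ▸ hy1K)) hx1]
        refine hsub x hxK fun h => ?_
        rcases mem_cell.1 h with h | h | h | h
        · have := Y.inv x
          rw [h, hy] at this
          exact hxK (this ▸ hyK)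
        · exact hx1 (by rw [hp1, ← h, Y.inv])
        · exact hx2 (by rw [hp2, ← h, Y.inv])
        · exact hx3 (by rw [hp3, ← h, Y.inv])
  -- the fans after the second gluing
  have hturn : ∀ x w, Z.turn x w → x ≠ p2 → x ≠ p3 → (Y.sub (Y.A \ Y.cell y)).turn x w := by
    intro x w h e2 e3
    obtain ⟨b1, b2⟩ := h
    rw [hZr] at b2
    rw [hZs x e2 e3] at b1 b2
    exact ⟨b1, b2⟩
  have hzl1 : ∀ x, Z.lab x % 2 = Y.lab x % 2 := by
    intro x
    by_cases e : Y.lab x = Y.lab y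
    · rw [hidx _ e]; omega
    · rw [hidf _ e]
  have f1 : ¬ Relation.ReflTransGen Z.turn (Z.ρ p1) t := by
    rw [hZr]
    intro h
    refine hv (Relation.ReflTransGen.head (b := Y.ρ p1) ⟨h1, by rw [hp1]⟩ ?_)
    -- the path does not use `p3`
    have key : ∀ w, Relation.ReflTransGen Z.turn (Y.ρ p1) w →
        Relation.ReflTransGen Y.turn (Y.ρ p1) w := by
      intro w hw
      induction hw with
      | refl => exact Relation.ReflTransGen.refl
      | @tail b c hb hbc ih2 =>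
        have lb : Y.lab b = Y.lab (Y.ρ p1) := hY.lab_turns ih2
        rw [lp1'] at lb
        by_cases e2 : b = p2
        · have e3 : c = Y.ρ p3 := by rw [hbc.2, e2, hZp2, hZr]
          have t1 : Y.turn p2 (Y.ρ (Y.ρ (Y.ρ y))) :=
            ⟨by rw [hp2']; exact nK hp2K hy2K, by rw [hp2']⟩
          have t2 : Y.turn (Y.ρ (Y.ρ (Y.ρ y))) (Y.ρ p3) := ⟨h3, by rw [hp3]⟩
          rw [e3]
          rw [e2] at ih2
          exact (ih2.tail t1).tail t2
        · refine ih2.tail (turn_of_sub (hturn _ _ hbc e2 ?_))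
          rintro rfl
          rw [lp3] at lb
          omega
    exact key t h
  have f2 : ¬ Relation.ReflTransGen Z.turn (Z.ρ p1) p1 := by
    rw [hZr]
    intro h
    have e1 := hZ.lab_turns h
    have e2 := hzl1 p1
    have e3 := hzl1 (Y.ρ p1)
    rw [lp1] at e2
    rw [lp1'] at e3
    omega
  have f3 : ¬ Relation.ReflTransGen Z.turn (Z.ρ t) t := by
    rw [hZr]
    intro h
    have e1 := hZ.lab_turns h
    have e2 := hzl1 t
    have e3 := hzl1 (Y.ρ t)
    omega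
  have f4 : ¬ Relation.ReflTransGen Z.turn (Z.ρ t) p1 := by
    rw [hZr]
    intro h
    have key : ∀ w, Relation.ReflTransGen Z.turn (Y.ρ t) w →
        Relation.ReflTransGen (Y.sub (Y.A \ Y.cell y)).turn (Y.ρ t) w ∨
        Relation.ReflTransGen (Y.sub (Y.A \ Y.cell y)).turn (Y.ρ p2) w := by
      intro w hw
      induction hw with
      | refl => exact Or.inl Relation.ReflTransGen.refl
      | @tail b c hb hbc ih2 =>
        by_cases e3 : b = p3
        · right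
          rw [hbc.2, e3, hZp3, hZr]
        by_cases e2 : b = p2
        · exfalso
          rcases ih2 with ih2 | ih2
          · have lb : Y.lab b = Y.lab (Y.ρ t) := hYs.lab_turns ih2
            rw [e2, lp2, hxl] at lb
            omega
          · have lb : Y.lab b = Y.lab (Y.ρ p2) := hYs.lab_turns ih2
            rw [e2, lp2, lp2'] at lb
            omega
        have e4 := hturn _ _ hbc e2 e3
        exact ih2.imp (fun h => h.tail e4) fun h => h.tail e4
    rcases key p1 h with h5 | h5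
    · have lb : Y.lab p1 = Y.lab (Y.ρ t) := hYs.lab_turns h5
      rw [lp1, hxl] at lb
      exact hn1 lb
    · have h6 : Relation.ReflTransGen Y.turn (Y.ρ p2) p1 :=
        Relation.ReflTransGen.mono (fun _ _ => turn_of_sub) _ _ h5
      refine hY.no_closed (x := p1) ?_
      have t1 : Y.turn p1 (Y.ρ (Y.ρ y)) := ⟨by rw [hp1']; exact nK hp1K hy1K, by rw [hp1']⟩
      have t2 : Y.turn (Y.ρ (Y.ρ y)) (Y.ρ p2) := ⟨h2, by rw [hp2]⟩
      exact Relation.TransGen.head' t1 (Relation.ReflTransGen.head t2 h6)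
  have hZlt : Z.A.card < n := by
    rw [hZA]
    omega
  obtain ⟨C, hC1, hC2⟩ := Good.glue_cov' ih hZ hZlt hZt hZp1 ht1 (by rw [hZA]; exact htD)
    (by rw [hZA]; exact hp1K) (by
      rw [hZr, hidx _ hxl, hidf _ (by rw [lp1]; exact hn1), lp1]) hGl
    (hZ.lin_turn hZt hZp1 f1 f2) (hZ.lin_turn' hZt hZp1 f3 f4)
  have hC : Z.Cov C := by
    rcases hC2 with h | ⟨h, h'⟩
    · exact h
    · have e1 : Z.lab (Z.ρ p1) = Z.lab t := by
        rw [hZr, hidf _ (by rw [lp1']; omega), hidf _ (by omega), lp1', hvl]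
      rw [e1, insert_eq_of_mem h] at h'
      exact h'
  have hcov : (Y.del {Y.lab y}).Cov C := by
    intro s hs
    rw [del_A] at hs
    obtain ⟨hsA', hs2⟩ := mem_sdiff.1 hs
    rw [mem_star] at hs2
    simp only [mem_singleton] at hs2
    push Not at hs2
    obtain ⟨q0, q1, q2, q3⟩ := hs2 hsA'
    have hsK : s ∉ Y.cell y := by
      intro h
      rcases mem_cell.1 h with h | h | h | h
      · exact q0 (by rw [h])
      · exact q3 (by rw [h, hY.rho4])
      · exact q2 (by rw [h, hY.rho4])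
      · exact q1 (by rw [h, hY.rho4])
    have h5 := hC s (by rw [hZA]; exact mem_sdiff.2 ⟨hsA', hsK⟩)
    rw [hZr, hidf _ q0, hidf _ q1, hidf _ q2, hidf _ q3] at h5
    exact h5
  rw [fr_iff, card_singleton]
  have h5 := tau_le hcov
  have h6 : (C.card : ℤ) < Y.tau := by linarith
  have h7 : C.card < Y.tau := by exact_mod_cast h6
  omega

/-- Double gate, corners on different sides, slack 1: the cell of `y` has its three gates. -/
theorem dg11_gates {Y : Cx S} {n : ℕ} (ih : IH n) (hY : Y.Good) (hn : Y.A.card < n) {y t : S}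
    (hyA : y ∈ Y.A) (htA : t ∈ Y.A) (hy : Y.g y = y)
    (hxl : Y.lab (Y.ρ t) = Y.lab y) (hvl : Y.lab (Y.ρ y) = Y.lab t)
    (hv : ¬ Relation.ReflTransGen Y.turn (Y.ρ y) t)
    (hpf : ∀ a ∈ Y.A, ∀ b ∈ Y.A, Y.g a = a → Y.g b = b → Y.lab a = Y.lab b →
      Y.lab a ≠ Y.lab t → a = b)
    (hl : Y.ρ t ≠ y) (hP : Y.P ≤ 4 * Y.tau + 1) :
    Y.Fr {Y.lab y} ∨ (Y.g (Y.ρ y) ≠ Y.ρ y ∧ Y.g (Y.ρ (Y.ρ y)) ≠ Y.ρ (Y.ρ y) ∧
      Y.g (Y.ρ (Y.ρ (Y.ρ y))) ≠ Y.ρ (Y.ρ (Y.ρ y))) := by
  classical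
  -- parities
  have py := hY.par y hyA
  have hy1A : Y.ρ y ∈ Y.A := hY.A_rho _ hyA
  have hy2A : Y.ρ (Y.ρ y) ∈ Y.A := hY.A_rho _ hy1A
  have hy3A : Y.ρ (Y.ρ (Y.ρ y)) ∈ Y.A := hY.A_rho _ hy2A
  have py1 := hY.par _ hy1A
  have py2 := hY.par _ hy2A
  have pt := hY.par t htA
  have htA' : Y.ρ t ∈ Y.A := hY.A_rho _ htA
  -- the cell of `y`
  set K := Y.cell y with hKdef
  have hKcl : Y.Cl K := hY.cl_cell y
  have hKA : K ⊆ Y.A := cell_sub hY.cl_A hyA
  have hKr : ∀ x, Y.ρ x ∈ K ↔ x ∈ K := fun x => hY.mem_cell_rho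
  have hyK : y ∈ K := self_mem_cell y
  have hy1K : Y.ρ y ∈ K := (hKr _).2 hyK
  have hy2K : Y.ρ (Y.ρ y) ∈ K := (hKr _).2 hy1K
  have hy3K : Y.ρ (Y.ρ (Y.ρ y)) ∈ K := (hKr _).2 hy2K
  have htK : t ∉ K := by
    intro h
    rcases mem_cell.1 h with h | h | h | h
    · rw [h] at hvl; omega
    · exact hv (by rw [h])
    · rw [h] at hvl; omega
    · exact hl (by rw [h, hY.rho4])
  have htK' : Y.ρ t ∉ K := fun h => htK ((hKr _).1 h)
  have hgK : ∀ j ∈ K, Y.g j ≠ j → Y.g j ∈ Y.A \ K := fun j hj h =>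
    mem_sdiff.2 ⟨hY.g_mem h, hY.g_notMem_cell hj h⟩
  -- the fan of `x` ends in `y`
  obtain ⟨z, hz1, hz2⟩ := hY.exists_last (Y.ρ t)
  have hzl : Y.lab z = Y.lab y := by rw [hY.lab_turns hz1, hxl]
  have hzy : z = y := hpf z (hY.mem_turns hz1 htA') y hyA hz2 hy hzl (by omega)
  subst hzy
  -- the side `ρ³ y` is glued
  have h3 : Y.g (Y.ρ (Y.ρ (Y.ρ z))) ≠ Y.ρ (Y.ρ (Y.ρ z)) ∧
      Relation.ReflTransGen Y.turn (Y.ρ t) (Y.g (Y.ρ (Y.ρ (Y.ρ z)))) := by
    rcases Relation.ReflTransGen.cases_tail hz1 with h | ⟨w, hw1, hw2⟩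
    · exact absurd h.symm hl
    · have e1 : Y.ρ (Y.ρ (Y.ρ z)) = Y.g w := by rw [hw2.2, hY.rho4]
      rw [e1, Y.inv]
      exact ⟨fun h => hw2.1 h.symm, hw1⟩
  obtain ⟨h3, hfan⟩ := h3
  by_cases hG : Y.g (Y.ρ z) ≠ Y.ρ z ∧ Y.g (Y.ρ (Y.ρ z)) ≠ Y.ρ (Y.ρ z)
  · exact Or.inr ⟨hG.1, hG.2, h3⟩
  left
  obtain ⟨p3, hp3⟩ : ∃ p, p = Y.g (Y.ρ (Y.ρ (Y.ρ z))) := ⟨_, rfl⟩
  have hp3' : Y.g p3 = Y.ρ (Y.ρ (Y.ρ z)) := by rw [hp3, Y.inv]
  have hp3K : p3 ∈ Y.A \ K := hp3 ▸ hgK _ hy3K h3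
  have lp3 : Y.lab p3 = Y.lab z := by
    have := hY.lab_g _ h3
    rwa [hY.rho4, ← hp3] at this
  have lp3' : Y.lab (Y.ρ p3) = Y.lab (Y.ρ (Y.ρ (Y.ρ z))) := by rw [hp3]; exact hY.lab_g' h3
  -- the remaining complex
  have hYs : (Y.sub (Y.A \ K)).Good := hY.sub (hY.cl_sdiff hY.cl_A hKcl)
  have hsA : (Y.sub (Y.A \ K)).A = Y.A \ K := inter_eq_right.2 sdiff_subset
  have hdel : (Y.sub (Y.A \ K)).del {Y.lab z} = Y.del {Y.lab z} := hY.del_sub_cell11 hyA rfl
  have htD : t ∈ Y.A \ K := mem_sdiff.2 ⟨htA, htK⟩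
  have htD' : Y.ρ t ∈ Y.A \ K := mem_sdiff.2 ⟨htA', htK'⟩
  -- a free side
  have hcc : (Y.sub (Y.A \ K)).c + 1 ≤ Y.c + ({t} : Finset S).card := by
    have cl : ∀ a b : S, a ∈ Y.A \ K → b ∈ Y.A \ K → Y.lab a = Y.lab b →
        (Y.sub (Y.A \ K)).conn a b := fun a b ha hb h =>
      conn_lab (X := Y.sub (Y.A \ K)) (by rw [hsA]; exact ha) (by rw [hsA]; exact hb) h
    have cr : ∀ a : S, (Y.sub (Y.A \ K)).conn a (Y.ρ a) := fun a =>
      conn_rho (X := Y.sub (Y.A \ K)) a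
    have hrD : ∀ a ∈ Y.A \ K, Y.ρ a ∈ Y.A \ K := fun a ha =>
      mem_sdiff.2 ⟨hY.A_rho _ (mem_sdiff.1 ha).1, fun h => (mem_sdiff.1 ha).2 ((hKr _).1 h)⟩
    have k3 : (Y.sub (Y.A \ K)).conn p3 t :=
      (Y.sub (Y.A \ K)).conn.trans (cl p3 (Y.ρ t) hp3K htD' (by rw [lp3, hxl]))
        ((Y.sub (Y.A \ K)).conn.symm (cr t))
    refine c_del_le (K := K) hKr hKA hyK (fun k hk => hY.conn_cell hk) (T := {t}) ?_
    intro i hi a ha hai
    refine ⟨t, mem_singleton_self t, ?_⟩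
    rcases mem_cell.1 hi with rfl | rfl | rfl | rfl
    · exact (Y.sub (Y.A \ K)).conn.trans (cl a (Y.ρ t) ha htD' (by rw [hai, hxl]))
        ((Y.sub (Y.A \ K)).conn.symm (cr t))
    · exact cl a t ha htD (by rw [hai, hvl])
    · -- the label `a1`
      by_cases e2 : Y.g (Y.ρ (Y.ρ z)) = Y.ρ (Y.ρ z)
      · have e1 : Y.g (Y.ρ z) ≠ Y.ρ z := by
          intro e1
          -- the fan of `ρ² y` is this cell only
          obtain ⟨w, hw1, hw2⟩ := hY.exists_last a
          have hwl : Y.lab w = Y.lab (Y.ρ (Y.ρ z)) := by rw [hY.lab_turns hw1, hai]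
          have hw := hpf w (hY.mem_turns hw1 (mem_sdiff.1 ha).1) _ hy2A hw2 e2 hwl (by omega)
          rw [hw] at hw1
          rcases Relation.ReflTransGen.cases_tail hw1 with h | ⟨u, -, hu⟩
          · exact (mem_sdiff.1 ha).2 (h ▸ hy2K)
          · have e3 : Y.g u = Y.ρ z := (Y.ρ.injective hu.2).symm
            have e4 : u = Y.ρ z := by rw [← Y.inv u, e3, e1]
            exact hu.1 (by rw [e3, e4])
        have hp1K := hgK _ hy1K e1
        refine (Y.sub (Y.A \ K)).conn.trans (cl a (Y.g (Y.ρ z)) ha hp1K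
          (by rw [hai, hY.lab_g _ e1])) ?_
        refine (Y.sub (Y.A \ K)).conn.trans (cr _) ?_
        exact cl _ t (hrD _ hp1K) htD (by rw [hY.lab_g' e1, hvl])
      · have hp2K := hgK _ hy2K e2
        refine (Y.sub (Y.A \ K)).conn.trans (cl a (Y.ρ (Y.g (Y.ρ (Y.ρ z)))) ha (hrD _ hp2K)
          (by rw [hai, hY.lab_g' e2])) ?_
        refine (Y.sub (Y.A \ K)).conn.trans ((Y.sub (Y.A \ K)).conn.symm (cr _)) ?_
        refine (Y.sub (Y.A \ K)).conn.trans (cl _ (Y.ρ p3) hp2K (hrD _ hp3K)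
          (by rw [hY.lab_g _ e2, lp3'])) ?_
        exact (Y.sub (Y.A \ K)).conn.trans ((Y.sub (Y.A \ K)).conn.symm (cr _)) k3
    · refine (Y.sub (Y.A \ K)).conn.trans (cl a (Y.ρ p3) ha (hrD _ hp3K) (by rw [hai, lp3'])) ?_
      exact (Y.sub (Y.A \ K)).conn.trans ((Y.sub (Y.A \ K)).conn.symm (cr _)) k3
  rw [card_singleton] at hcc
  have hfr : 2 ≤ fr Y z := by
    have h0 : ∃ j ∈ K, j ≠ z ∧ Y.g j = j := by
      by_cases e1 : Y.g (Y.ρ z) = Y.ρ z
      · exact ⟨_, hy1K, hY.rho1 z, e1⟩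
      · have e2 : Y.g (Y.ρ (Y.ρ z)) = Y.ρ (Y.ρ z) := by
          by_contra e2
          exact hG ⟨e1, e2⟩
        exact ⟨_, hy2K, hY.rho2 z, e2⟩
    obtain ⟨j, hjK, hjz, hjg⟩ := h0
    have h4 : ({z, j} : Finset S) ⊆ (Y.cell z).filter fun t => Y.g t = t := by
      intro x hx
      rcases mem_insert.1 hx with rfl | hx
      · exact mem_filter.2 ⟨hyK, hy⟩
      · rw [mem_singleton.1 hx]
        exact mem_filter.2 ⟨hjK, hjg⟩
    have h5 := card_le_card h4
    rw [card_pair hjz.symm] at h5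
    exact h5
  have hPc := hY.P_sub_cell hyA
  have h5 := hYs.P_del_lt (v := Y.lab z) ⟨Y.ρ t, mem_filter.2 ⟨by rw [hsA]; exact htD', hxl⟩⟩
  rw [hdel] at h5
  have h6 := ih S (Y.del {Y.lab z}) (hY.del _) (by
    rw [del_A]
    exact (card_le_card sdiff_subset).trans_lt hn)
  rw [fr_iff, card_singleton]
  have hcc' : ((Y.sub (Y.A \ Y.cell z)).c : ℤ) ≤ Y.c := by
    have : (Y.sub (Y.A \ Y.cell z)).c ≤ Y.c := by
      rw [← hKdef]; omega
    exact_mod_cast this
  have hfr' : (2 : ℤ) ≤ fr Y z := by exact_mod_cast hfr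
  rw [← hKdef] at hPc hcc'
  have h7 : ((Y.del {Y.lab z}).tau : ℤ) < Y.tau := by linarith
  have h8 : (Y.del {Y.lab z}).tau < Y.tau := by exact_mod_cast h7
  omega

/-- **Double gate, corners on different sides, slack 1.** `Y` is one side of the double gate, its
two sides at the gates are `y` and `t`, the ends are `x = lab y` and `v = lab t`. The fan of `x` in
`Y` goes from the cell of `t` to the cell of `y`, the fan of `v` does not. Then `x` lies in a least
hitting set. -/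
theorem dg11 {Y : Cx S} {n : ℕ} (ih : IH n) (hY : Y.Good) (hn : Y.A.card < n) {y t : S}
    (hyA : y ∈ Y.A) (htA : t ∈ Y.A) (hy : Y.g y = y) (ht : Y.g t = t)
    (hxl : Y.lab (Y.ρ t) = Y.lab y) (hvl : Y.lab (Y.ρ y) = Y.lab t)
    (hcyc : SameCycle (Y.ρ * Y.g) t y) (hv : ¬ Relation.ReflTransGen Y.turn (Y.ρ y) t)
    (hpf : ∀ a ∈ Y.A, ∀ b ∈ Y.A, Y.g a = a → Y.g b = b → Y.lab a = Y.lab b →
      Y.lab a ≠ Y.lab t → a = b)
    (hl : Y.ρ t ≠ y) (hn1 : Y.lab (Y.ρ (Y.ρ y)) ≠ Y.lab y) (hP : Y.P ≤ 4 * Y.tau + 1) :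
    Y.Fr {Y.lab y} := by
  rcases dg11_gates ih hY hn hyA htA hy hxl hvl hv hpf hl hP with h | ⟨h1, h2, h3⟩
  · exact h
  · exact dg11_three ih hY hn hyA htA hy ht hxl hvl hcyc hv hl hn1 hP h1 h2 h3

end Cx

end Pool.Agent.Lib.MP06c549.Z
end

section
/-!
# MP_06c549_co, Z: tools for the separating stars

Complexes connected by gates, deletion of a cell with a private corner, turning through a cut.
-/
set_option autoImplicit false
set_option linter.unusedSectionVars false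

namespace Pool.Agent.Lib.MP06c549.Z

open Equiv Equiv.Perm Finset

variable {S : Type} [Fintype S] [DecidableEq S]

namespace Cx

variable {X : Cx S}

/-! ## Connection by gates -/

/-- connected by gates -/
def StGC (X : Cx S) : Prop := ∀ a ∈ X.A, ∀ b ∈ X.A, X.gc a b

lemma StGC.c_eq (h : X.StGC) (hX : X.Good) (hne : X.A.Nonempty) : X.c = 1 := hX.c_eq_one hne h

/-- the free sides of a cell -/
lemma Good.st_fr_cases (hX : X.Good) {b : S} (h1 : X.g b = b)
    (h2 : X.g (X.ρ (X.ρ (X.ρ b))) = X.ρ (X.ρ (X.ρ b))) :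
    fr X b = 2 + (if X.g (X.ρ b) = X.ρ b then 1 else 0) +
      (if X.g (X.ρ (X.ρ b)) = X.ρ (X.ρ b) then 1 else 0) := by
  have n1 : b ≠ X.ρ b := (hX.rho1 b).symm
  have n2 : b ≠ X.ρ (X.ρ b) := (hX.rho2 b).symm
  have n3 : b ≠ X.ρ (X.ρ (X.ρ b)) := (hX.rho3 b).symm
  have n4 : X.ρ b ≠ X.ρ (X.ρ b) := (hX.rho1 _).symm
  have n5 : X.ρ b ≠ X.ρ (X.ρ (X.ρ b)) := (hX.rho2 _).symm
  have n6 : X.ρ (X.ρ b) ≠ X.ρ (X.ρ (X.ρ b)) := (hX.rho1 _).symm
  unfold fr cell
  rw [card_filter, sum_insert (by simp [n1, n2, n3]), sum_insert (by simp [n4, n5]),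
    sum_insert (by simp [n6]), sum_singleton, if_pos h1, if_pos h2]
  omega

/-- deletion of a cell with at most one gate keeps the connection by gates -/
theorem StGC.off_cell (h : X.StGC) (hX : X.Good) {b z : S}
    (hfree : ∀ x ∈ X.cell b, x ≠ z → X.g x = x) : (X.sub (X.A \ X.cell b)).StGC := by
  classical
  set K := X.cell b with hK
  have hKρ : ∀ x, X.ρ x ∈ K ↔ x ∈ K := fun x => hX.cl_iff (hX.cl_cell b)
  let w : S := X.g z
  let π : S → S := fun x => if x ∈ K then w else x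
  let q : Setoid S := Setoid.comap π (comp X.ρ (X.sub (X.A \ K)).g)
  have key : comp X.ρ X.g ≤ q := by
    refine comp_le_of (fun x => ?_) (fun x => ?_)
    · change comp X.ρ (X.sub (X.A \ K)).g (π x) (π (X.ρ x))
      by_cases hx : x ∈ K
      · have e1 : π x = w := if_pos hx
        have e2 : π (X.ρ x) = w := if_pos ((hKρ x).2 hx)
        rw [e1, e2]
      · have e1 : π x = x := if_neg hx
        have e2 : π (X.ρ x) = X.ρ x := if_neg fun h => hx ((hKρ x).1 h)
        rw [e1, e2]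
        exact comp_left x
    · change comp X.ρ (X.sub (X.A \ K)).g (π x) (π (X.g x))
      by_cases hg : X.g x = x
      · rw [hg]
      by_cases hx : x ∈ K
      · have hgx : X.g x ∉ K := hX.g_notMem_cell hx hg
        have e1 : π x = w := if_pos hx
        have e2 : π (X.g x) = X.g x := if_neg hgx
        have e3 : x = z := by
          by_contra h3
          exact hg (hfree x hx h3)
        rw [e1, e2, e3]
      · have e1 : π x = x := if_neg hx
        by_cases hgx : X.g x ∈ K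
        · have e2 : π (X.g x) = w := if_pos hgx
          have e3 : X.g x = z := by
            by_contra h3
            have h4 := hfree _ hgx h3
            rw [X.inv] at h4
            exact hg h4.symm
          have e4 : w = x := by
            change X.g z = x
            rw [← e3, X.inv]
          rw [e1, e2, e4]
        · have e2 : π (X.g x) = X.g x := if_neg hgx
          rw [e1, e2]
          have hxA := hX.A_g x hg
          have e3 : (X.sub (X.A \ K)).g x = X.g x := by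
            rw [sub_g, if_pos ⟨mem_sdiff.2 ⟨hxA, hx⟩, mem_sdiff.2 ⟨hX.g_mem hg, hgx⟩⟩]
          rw [← e3]
          exact comp_right x
  intro a ha c hc
  rw [sub_A, mem_inter, mem_sdiff] at ha hc
  have h1 : comp X.ρ (X.sub (X.A \ K)).g (π a) (π c) := key (h a ha.1 c hc.1)
  have e1 : π a = a := if_neg ha.2.2
  have e2 : π c = c := if_neg hc.2.2
  rwa [e1, e2] at h1

/-- a cell without gates is everything -/
theorem StGC.all_free (h : X.StGC) (hX : X.Good) {b : S} (hb : b ∈ X.A)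
    (hfree : ∀ x ∈ X.cell b, X.g x = x) : X.A = X.cell b := by
  refine Subset.antisymm (fun a ha => ?_) (cell_sub hX.cl_A hb)
  have h1 := mem_iff_of_comp (ρ := X.ρ) (g := X.g) (K := X.cell b)
    (fun x => hX.cl_iff (hX.cl_cell b)) (mem_iff_of_fix hfree) (h b hb a ha)
  exact h1.1 (self_mem_cell b)

/-! ## Hitting sets and private corners -/

/-- replacement of a label by a label that dominates it -/
lemma st_cov_replace {p v : ℕ} {C : Finset ℕ} (hC : X.Cov C)
    (h : ∀ s ∈ X.star {p}, X.lab s = v ∨ X.lab (X.ρ s) = v ∨ X.lab (X.ρ (X.ρ s)) = v ∨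
      X.lab (X.ρ (X.ρ (X.ρ s))) = v) : X.Cov (insert v (C.erase p)) := by
  intro s hs
  by_cases hp : s ∈ X.star {p}
  · rcases h s hp with h1 | h1 | h1 | h1
    · exact Or.inl (by rw [h1]; exact mem_insert_self _ _)
    · exact Or.inr (Or.inl (by rw [h1]; exact mem_insert_self _ _))
    · exact Or.inr (Or.inr (Or.inl (by rw [h1]; exact mem_insert_self _ _)))
    · exact Or.inr (Or.inr (Or.inr (by rw [h1]; exact mem_insert_self _ _)))
  · rw [mem_star] at hp
    push Not at hp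
    obtain ⟨n1, n2, n3, n4⟩ := hp hs
    rw [mem_singleton] at n1 n2 n3 n4
    rcases hC s hs with h1 | h1 | h1 | h1
    · exact Or.inl (mem_insert_of_mem (mem_erase.2 ⟨n1, h1⟩))
    · exact Or.inr (Or.inl (mem_insert_of_mem (mem_erase.2 ⟨n2, h1⟩)))
    · exact Or.inr (Or.inr (Or.inl (mem_insert_of_mem (mem_erase.2 ⟨n3, h1⟩))))
    · exact Or.inr (Or.inr (Or.inr (mem_insert_of_mem (mem_erase.2 ⟨n4, h1⟩))))

lemma st_card_replace {p v : ℕ} {C : Finset ℕ} (hp : p ∈ C) :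
    (insert v (C.erase p)).card ≤ C.card := by
  have h1 := card_insert_le v (C.erase p)
  have h2 := card_erase_of_mem hp
  have h3 : 0 < C.card := card_pos.2 ⟨p, hp⟩
  omega

/-- a dominating label is free if the dominated one is -/
lemma Fr.st_dom {p v : ℕ} (hf : X.Fr {p})
    (h : ∀ s ∈ X.star {p}, X.lab s = v ∨ X.lab (X.ρ s) = v ∨ X.lab (X.ρ (X.ρ s)) = v ∨
      X.lab (X.ρ (X.ρ (X.ρ s))) = v) : X.Fr {v} := by
  obtain ⟨C, hC, hpC, hc⟩ := hf
  have h1 := st_cov_replace hC h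
  have h2 := st_card_replace (v := v) (singleton_subset_iff.1 hpC)
  have h3 := tau_le h1
  exact ⟨_, h1, singleton_subset_iff.2 (mem_insert_self _ _), by omega⟩

/-- labels of the sides of a cell -/
lemma Good.st_lab_cell (hX : X.Good) {b s : S} (hs : s ∈ X.cell b) {v : ℕ}
    (hv : ∃ z ∈ X.cell b, X.lab z = v) : X.lab s = v ∨ X.lab (X.ρ s) = v ∨
      X.lab (X.ρ (X.ρ s)) = v ∨ X.lab (X.ρ (X.ρ (X.ρ s))) = v := by
  obtain ⟨z, hz, hzv⟩ := hv
  rw [← hX.cell_eq hs] at hz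
  rcases mem_cell.1 hz with rfl | rfl | rfl | rfl
  · exact Or.inl hzv
  · exact Or.inr (Or.inl hzv)
  · exact Or.inr (Or.inr (Or.inl hzv))
  · exact Or.inr (Or.inr (Or.inr hzv))

/-- the star of a private corner is the cell -/
lemma Good.st_star_private (hX : X.Good) {b : S} (hb : b ∈ X.A)
    (h : ∀ z ∈ X.A, X.lab z = X.lab b → z = b) : X.star {X.lab b} = X.cell b := by
  ext s
  rw [mem_star]
  constructor
  · rintro ⟨hs, h1 | h1 | h1 | h1⟩
    · rw [h s hs (mem_singleton.1 h1)]; exact self_mem_cell b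
    · have h2 := h _ (hX.A_rho s hs) (mem_singleton.1 h1)
      exact hX.mem_cell_rho.1 (by rw [h2]; exact self_mem_cell b)
    · have h2 := h _ (hX.A_rho _ (hX.A_rho s hs)) (mem_singleton.1 h1)
      exact hX.mem_cell_rho.1 (hX.mem_cell_rho.1 (by rw [h2]; exact self_mem_cell b))
    · have h2 := h _ (hX.A_rho _ (hX.A_rho _ (hX.A_rho s hs))) (mem_singleton.1 h1)
      exact hX.mem_cell_rho.1 (hX.mem_cell_rho.1 (hX.mem_cell_rho.1
        (by rw [h2]; exact self_mem_cell b)))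
  · intro hs
    refine ⟨cell_sub hX.cl_A hb hs, ?_⟩
    rcases hX.st_lab_cell hs ⟨b, self_mem_cell b, rfl⟩ with h1 | h1 | h1 | h1
    · exact Or.inl (mem_singleton.2 h1)
    · exact Or.inr (Or.inl (mem_singleton.2 h1))
    · exact Or.inr (Or.inr (Or.inl (mem_singleton.2 h1)))
    · exact Or.inr (Or.inr (Or.inr (mem_singleton.2 h1)))

/-- a hitting set of the rest that meets the cell -/
lemma Good.st_cov_cell (hX : X.Good) {b : S} {C : Finset ℕ}
    (hC : (X.sub (X.A \ X.cell b)).Cov C) (hm : ∃ z ∈ X.cell b, X.lab z ∈ C) : X.Cov C := by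
  intro s hs
  by_cases h : s ∈ X.cell b
  · obtain ⟨z, hz, hzC⟩ := hm
    rcases hX.st_lab_cell h ⟨z, hz, rfl⟩ with h1 | h1 | h1 | h1
    · exact Or.inl (h1 ▸ hzC)
    · exact Or.inr (Or.inl (h1 ▸ hzC))
    · exact Or.inr (Or.inr (Or.inl (h1 ▸ hzC)))
    · exact Or.inr (Or.inr (Or.inr (h1 ▸ hzC)))
  · exact hC s (by rw [sub_A, mem_inter, mem_sdiff]; exact ⟨hs, hs, h⟩)

/-- **Deletion of a cell with a private corner** at which both sides are free, if the corner does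
not lie in a least hitting set. -/
theorem Good.st_private (hX : X.Good) (hgc : X.StGC) (hcard : 4 < X.A.card) {b : S} (hb : b ∈ X.A)
    (h1 : X.g b = b) (h2 : X.g (X.ρ (X.ρ (X.ρ b))) = X.ρ (X.ρ (X.ρ b)))
    (h3 : ∀ z ∈ X.A, X.lab z = X.lab b → z = b) (hfr : ¬ X.Fr {X.lab b}) :
    (X.sub (X.A \ X.cell b)).tau = X.tau ∧
    (((X.g (X.ρ b) ≠ X.ρ b ∧ X.g (X.ρ (X.ρ b)) ≠ X.ρ (X.ρ b)) ∧
      (X.sub (X.A \ X.cell b)).P + 1 ≤ X.P) ∨
     ((X.g (X.ρ b) ≠ X.ρ b ∨ X.g (X.ρ (X.ρ b)) ≠ X.ρ (X.ρ b)) ∧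
      (X.sub (X.A \ X.cell b)).P + 2 ≤ X.P)) := by
  have hst := hX.st_star_private hb h3
  have hrest : (X.A \ X.cell b).Nonempty := by
    rw [nonempty_iff_ne_empty]
    intro h
    have h4 := card_le_card (sdiff_eq_empty_iff_subset.1 h)
    rw [hX.card_cell] at h4
    omega
  have hA : (X.sub (X.A \ X.cell b)).A = X.A \ X.cell b := inter_eq_right.2 sdiff_subset
  refine ⟨?_, ?_⟩
  · have h4 := not_fr_iff.1 hfr
    rw [card_singleton] at h4
    have h5 := X.sub_tau_le (X.A \ X.cell b)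
    have h6 : X.del {X.lab b} = X.sub (X.A \ X.cell b) := by
      rw [← hst]
      rfl
    rw [h6] at h4
    omega
  · have hP := hX.P_sub_cell hb
    have hc : X.c = 1 := hgc.c_eq hX ⟨b, hb⟩
    have hlast := hX.c_sub_last hb h1 h2 (fun t ht h4 => by
      obtain ⟨ht1, ht2⟩ := mem_sdiff.1 ht
      exact ht2 (by rw [h3 t ht1 h4]; exact self_mem_cell b))
    have hfrc := hX.st_fr_cases h1 h2
    have hgood : (X.sub (X.A \ X.cell b)).Good := hX.sub (hX.cl_sdiff hX.cl_A (hX.cl_cell b))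
    by_cases f1 : X.g (X.ρ b) = X.ρ b
    · by_cases f2 : X.g (X.ρ (X.ρ b)) = X.ρ (X.ρ b)
      · exfalso
        have h5 := hgc.all_free hX hb (by
          intro x hx
          rcases mem_cell.1 hx with rfl | rfl | rfl | rfl <;> assumption)
        rw [h5, hX.card_cell] at hcard
        omega
      · right
        refine ⟨Or.inr f2, ?_⟩
        have h5 := (hgc.off_cell hX (b := b) (z := X.ρ (X.ρ b))
          (by
          intro x hx hxz
          rcases mem_cell.1 hx with rfl | rfl | rfl | rfl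
          · exact h1
          · exact f1
          · exact absurd rfl hxz
          · exact h2)).c_eq hgood (by rw [hA]; exact hrest)
        rw [if_pos f1, if_neg f2] at hfrc
        rw [hfrc, hc, h5] at hP
        push_cast at hP
        linarith
    · by_cases f2 : X.g (X.ρ (X.ρ b)) = X.ρ (X.ρ b)
      · right
        refine ⟨Or.inl f1, ?_⟩
        have h5 := (hgc.off_cell hX (b := b) (z := X.ρ b)
          (by
          intro x hx hxz
          rcases mem_cell.1 hx with rfl | rfl | rfl | rfl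
          · exact h1
          · exact absurd rfl hxz
          · exact f2
          · exact h2)).c_eq hgood (by rw [hA]; exact hrest)
        rw [if_neg f1, if_pos f2] at hfrc
        rw [hfrc, hc, h5] at hP
        push_cast at hP
        linarith
      · left
        refine ⟨⟨f1, f2⟩, ?_⟩
        rw [if_neg f1, if_neg f2] at hfrc
        rw [hfrc, hc] at hP hlast
        have : ((X.sub (X.A \ X.cell b)).c : ℤ) ≤ 1 := by exact_mod_cast (by omega)
        push_cast at hP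
        linarith

end Cx

end Pool.Agent.Lib.MP06c549.Z
end

section
/-!
# MP_06c549_co, Z: separating stars, the case analysis

The cut along two gates `s`, `t` at one vertex `v` from the hole of `v` around a part `B`; the other
ends `x`, `y` of the gates are different and lie on one hole.
-/
set_option autoImplicit false
set_option linter.unusedSectionVars false

namespace Pool.Agent.Lib.MP06c549.Z

open Equiv Equiv.Perm Finset

variable {S : Type} [Fintype S] [DecidableEq S]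

namespace Cx

lemma st_mono {m n : ℕ} (h : IH n) (hmn : m ≤ n) : IH m :=
  fun S _ _ X hX hc => h S X hX (hc.trans_le hmn)

variable {X : Cx S}

/-! ## Fans through a cut -/

lemma Good.st_cross (hX : X.Good) {D : Finset S} (hD : X.Cl D) {z w : S}
    (h : Relation.ReflTransGen X.turn z w) (hz : z ∈ D) (hw : w ∉ D) :
    ∃ c ∈ D, X.g c ∉ D ∧ X.lab c = X.lab z := by
  have key : w ∈ D ∨ ∃ c ∈ D, X.g c ∉ D ∧ X.lab c = X.lab z := by
    induction h with
    | refl => exact Or.inl hz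
    | @tail a b h1 h2 ih =>
      by_cases ha : a ∈ D
      · by_cases hga : X.g a ∈ D
        · left
          rw [h2.2]
          exact hD _ hga
        · exact Or.inr ⟨a, ha, hga, hX.lab_turns h1⟩
      · exact Or.inr ((ih ha).resolve_left ha)
  exact key.resolve_left hw

lemma Good.st_cl_compl (hX : X.Good) {D : Finset S} (hD : X.Cl D) : X.Cl Dᶜ := by
  intro s hs
  rw [mem_compl] at hs ⊢
  exact fun h => hs ((hX.cl_iff hD).1 h)

lemma st_turn_inj {a b c : S} (h1 : X.turn a c) (h2 : X.turn b c) : a = b := by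
  have h3 : X.ρ (X.g a) = X.ρ (X.g b) := by rw [← h1.2, ← h2.2]
  exact X.g.injective (X.ρ.injective h3)

/-- two fans with the same end -/
lemma st_comparable {z p y : S} (h1 : Relation.ReflTransGen X.turn z y)
    (h2 : Relation.ReflTransGen X.turn p y) :
    Relation.ReflTransGen X.turn z p ∨ Relation.ReflTransGen X.turn p z := by
  induction h1 with
  | refl => exact Or.inr h2
  | @tail a b h3 h4 ih =>
    rcases Relation.ReflTransGen.cases_tail h2 with h5 | ⟨w, h5, h6⟩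
    · left
      rw [← h5]
      exact h3.tail h4
    · rw [st_turn_inj h6 h4] at h5
      exact ih h5

section Private

variable {D : Finset S} {p q : S}

/-- the last corner of a fan in a part -/
theorem Good.st_last (hX : X.Good) (hpf : X.PF) (hD : X.Cl D)
    (hbd : ∀ z ∈ D, X.g z ∉ D → z = p ∨ z = q) (hp : p ∈ D) (hgp : X.g p ∉ D)
    (hfree : X.g (X.ρ p) = X.ρ p) (hq : X.lab q ≠ X.lab (X.ρ p)) {z : S} (hzA : z ∈ X.A)
    (hz : z ∈ D) (hl : X.lab z = X.lab (X.ρ p)) : z = X.ρ p := by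
  have hpg : X.g p ≠ p := fun h => hgp (by rw [h]; exact hp)
  have hpA := hX.A_g p hpg
  obtain ⟨y, hy, hyy⟩ := hX.exists_last z
  have hyA := hX.mem_turns hy hzA
  have hyl := hX.lab_turns hy
  have hyp : y = X.ρ p := hpf y hyA _ (hX.A_rho p hpA) hyy hfree (by rw [hyl, hl])
  rcases Relation.ReflTransGen.cases_tail hy with h1 | ⟨w, h1, h2⟩
  · rw [← h1, hyp]
  · exfalso
    have h3 : X.ρ (X.g w) = X.ρ p := by rw [← h2.2, hyp]
    have h4 : X.g w = p := X.ρ.injective h3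
    have h5 : w ∉ D := by
      rw [← h4, X.inv] at hgp
      exact hgp
    obtain ⟨c, hc, hgc, hcl⟩ := hX.st_cross hD h1 hz h5
    rcases hbd c hc hgc with rfl | rfl
    · have := hX.par c hpA
      rw [hcl, hl] at this
      omega
    · exact hq (by rw [hcl, hl])

/-- the first corner of a fan in a part -/
theorem Good.st_first (hX : X.Good) (hpf : X.PF) (hD : X.Cl D)
    (hbd : ∀ z ∈ D, X.g z ∉ D → z = p ∨ z = q) (hp : p ∈ D) (hgp : X.g p ∉ D)
    (hfree : X.g (X.ρ (X.ρ (X.ρ p))) = X.ρ (X.ρ (X.ρ p))) (hgq : X.g q ≠ q)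
    (hq : X.lab (X.ρ q) ≠ X.lab p) {z : S} (hzA : z ∈ X.A)
    (hz : z ∈ D) (hl : X.lab z = X.lab p) : z = p := by
  have hpg : X.g p ≠ p := fun h => hgp (by rw [h]; exact hp)
  have hpA := hX.A_g p hpg
  obtain ⟨y, hy, hyy⟩ := hX.exists_last z
  obtain ⟨y', hy', hyy'⟩ := hX.exists_last p
  have e : y = y' := hpf y (hX.mem_turns hy hzA) y' (hX.mem_turns hy' hpA) hyy hyy'
    (by rw [hX.lab_turns hy, hX.lab_turns hy', hl])
  rw [← e] at hy'
  rcases st_comparable hy hy' with h | h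
  · rcases Relation.ReflTransGen.cases_tail h with h1 | ⟨w, -, h2⟩
    · exact h1.symm
    · exfalso
      have h3 : X.g w = X.ρ (X.ρ (X.ρ p)) := by
        apply X.ρ.injective
        rw [hX.rho4, ← h2.2]
      have h4 : w = X.ρ (X.ρ (X.ρ p)) := by
        rw [← hfree, ← h3, X.inv]
      exact h2.1 (by rw [h3, h4])
  · rcases Relation.ReflTransGen.cases_head h with h1 | ⟨c, h1, h2⟩
    · exact h1.symm
    · exfalso
      have hcD : c ∉ D := by
        rw [h1.2]
        exact fun h3 => hgp ((hX.cl_iff hD).1 h3)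
      obtain ⟨c', hc', hgc', hcl'⟩ := hX.st_cross (hX.st_cl_compl hD) h2 (mem_compl.2 hcD)
        (by rw [mem_compl, not_not]; exact hz)
      rw [mem_compl] at hc' hgc'
      rw [not_not] at hgc'
      have hlc : X.lab c' = X.lab p := by rw [hcl', hX.lab_turn h1]
      rcases hbd _ hgc' (by rw [X.inv]; exact hc') with h3 | h3
      · have h4 : c' = X.g p := by rw [← h3, X.inv]
        rw [h4, hX.lab_g p hpg] at hlc
        have := hX.par p hpA
        rw [hlc] at this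
        omega
      · have h4 : c' = X.g q := by rw [← h3, X.inv]
        rw [h4, hX.lab_g q hgq] at hlc
        exact hq hlc

end Private

/-! ## A cell with a private corner in a part of slack 2 -/

theorem Good.st_inner (hX : X.Good) {n : ℕ} (ih : IH n) (hn : X.A.card < n) (hgc : X.StGC)
    (hcard : 4 < X.A.card) {b h : S} {v q : ℕ} (hb : b ∈ X.A) (h1 : X.g b = b)
    (h2 : X.g (X.ρ (X.ρ (X.ρ b))) = X.ρ (X.ρ (X.ρ b)))
    (h3 : ∀ z ∈ X.A, X.lab z = X.lab b → z = b) (hP : X.P ≤ 4 * X.tau + 2)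
    (hv : ∃ z ∈ X.cell b, X.lab z = v) (hh : h ∈ X.A) (hhf : X.g h = h)
    (hends : (X.lab h = v ∧ X.lab (X.ρ h) = q) ∨ (X.lab h = q ∧ X.lab (X.ρ h) = v))
    (hne1 : h ≠ b) (hne2 : h ≠ X.ρ (X.ρ (X.ρ b))) (hfv : ¬ X.Fr {v}) (hfq : ¬ X.Fr {q})
    (hfb : ¬ X.Fr {X.lab b}) :
    ∃ C, X.Cov C ∧ X.lab b ∈ C ∧ q ∈ C ∧ C.card ≤ X.tau + 1 := by
  obtain ⟨htau, hcase⟩ := hX.st_private hgc hcard hb h1 h2 h3 hfb
  set T := X.sub (X.A \ X.cell b) with hT
  have hTg : T.Good := hX.sub (hX.cl_sdiff hX.cl_A (hX.cl_cell b))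
  have hTA : T.A = X.A \ X.cell b := inter_eq_right.2 sdiff_subset
  have hTc : T.A.card + 4 = X.A.card := by
    rw [hTA, ← hX.card_cell b]
    exact card_sdiff_add_card_eq_card (cell_sub hX.cl_A hb)
  have hfr : ∀ w, T.Fr {w} → (∃ z ∈ X.cell b, X.lab z = w) → X.Fr {w} := by
    rintro w ⟨C, hC, hwC, hc⟩ ⟨z, hz, rfl⟩
    exact ⟨C, hX.st_cov_cell hC ⟨z, hz, singleton_subset_iff.1 hwC⟩, hwC, by rw [hc, htau]⟩
  by_cases hhb : h ∈ X.cell b
  · exfalso
    have hihT : IH T.A.card := st_mono ih (by omega)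
    have hlab : ∀ w, X.lab h = w ∨ X.lab (X.ρ h) = w → ¬ X.Fr {w} := by
      rintro w (rfl | rfl)
      · rcases hends with ⟨e1, -⟩ | ⟨e1, -⟩
        · rw [e1]; exact hfv
        · rw [e1]; exact hfq
      · rcases hends with ⟨-, e1⟩ | ⟨-, e1⟩
        · rw [e1]; exact hfq
        · rw [e1]; exact hfv
    rcases mem_cell.1 hhb with e | e | e | e
    · exact hne1 e
    · -- `h = ρ b`
      have hf1 : X.g (X.ρ b) = X.ρ b := by rw [← e]; exact hhf
      have hc2 : X.g (X.ρ (X.ρ b)) ≠ X.ρ (X.ρ b) ∧ T.P + 2 ≤ X.P := by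
        rcases hcase with ⟨⟨c1, -⟩, -⟩ | ⟨c1, c2⟩
        · exact absurd hf1 c1
        · exact ⟨c1.resolve_left fun c3 => c3 hf1, c2⟩
      have hzK : X.ρ (X.ρ b) ∈ X.cell b := mem_cell.2 (Or.inr (Or.inr (Or.inl rfl)))
      set z := X.ρ (X.ρ b) with hz
      have hgz : X.g z ∈ T.A := by
        rw [hTA]
        exact mem_sdiff.2 ⟨hX.g_mem hc2.1, hX.g_notMem_cell hzK hc2.1⟩
      have hrgz : X.ρ (X.g z) ∈ T.A := hTg.A_rho _ hgz
      have hTfr : T.Fr {X.lab z} := hTg.tig hihT (by rw [htau]; linarith [hc2.2]) (v := X.lab z)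
        ⟨X.ρ (X.g z), mem_cor.2 ⟨hrgz, hX.lab_g' hc2.1⟩⟩
      refine hlab (X.lab z) (Or.inr ?_) (hfr _ hTfr ⟨z, hzK, rfl⟩)
      rw [e]
    · -- `h = ρ (ρ b)`
      have hf1 : X.g (X.ρ (X.ρ b)) = X.ρ (X.ρ b) := by rw [← e]; exact hhf
      have hc2 : X.g (X.ρ b) ≠ X.ρ b ∧ T.P + 2 ≤ X.P := by
        rcases hcase with ⟨⟨-, c1⟩, -⟩ | ⟨c1, c2⟩
        · exact absurd hf1 c1
        · exact ⟨c1.resolve_right fun c3 => c3 hf1, c2⟩
      have hzK : X.ρ b ∈ X.cell b := mem_cell.2 (Or.inr (Or.inl rfl))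
      set z := X.ρ b with hz
      have hgz : X.g z ∈ T.A := by
        rw [hTA]
        exact mem_sdiff.2 ⟨hX.g_mem hc2.1, hX.g_notMem_cell hzK hc2.1⟩
      have hTfr : T.Fr {X.lab (X.ρ z)} := hTg.tig hihT (by rw [htau]; linarith [hc2.2])
        (v := X.lab (X.ρ z)) ⟨X.g z, mem_cor.2 ⟨hgz, hX.lab_g z hc2.1⟩⟩
      refine hlab (X.lab (X.ρ z)) (Or.inl ?_) (hfr _ hTfr
        ⟨X.ρ z, mem_cell.2 (Or.inr (Or.inr (Or.inl rfl))), rfl⟩)
      rw [e]
    · exact hne2 e
  · have hhT : h ∈ T.A := by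
      rw [hTA]
      exact mem_sdiff.2 ⟨hh, hhb⟩
    have hTh : T.g h = h := by
      change (X.sub (X.A \ X.cell b)).g h = h
      rw [sub_g]
      split_ifs
      · exact hhf
      · rfl
    have hPT : T.P ≤ 4 * T.tau + 1 := by
      rw [htau]
      rcases hcase with ⟨-, c⟩ | ⟨-, c⟩ <;> linarith
    have hleaf := leaf_test ih hTg (by omega) hhT hTh hPT
    have hq : T.Fr {q} := by
      have hvT : ¬ T.Fr {v} := fun h4 => hfv (hfr v h4 hv)
      have e1 : T.lab h = X.lab h := rfl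
      have e2 : T.lab (T.ρ h) = X.lab (X.ρ h) := rfl
      rw [e1, e2] at hleaf
      rcases hends with ⟨a1, a2⟩ | ⟨a1, a2⟩
      · rw [a1, a2] at hleaf
        exact hleaf.resolve_left hvT
      · rw [a1, a2] at hleaf
        exact hleaf.resolve_right hvT
    obtain ⟨C, hC, hqC, hc⟩ := hq
    refine ⟨insert (X.lab b) C, ?_, mem_insert_self _ _,
      mem_insert_of_mem (singleton_subset_iff.1 hqC), ?_⟩
    · exact hX.st_cov_cell (hC.mono (subset_insert _ _)) ⟨b, self_mem_cell b, mem_insert_self _ _⟩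
    · have := card_insert_le (X.lab b) C
      omega

/-! ## The cut -/

/-- a cut along two gates at the vertex `lab s = lab t` -/
structure VCut (X : Cx S) (s t : S) (B : Finset S) : Prop where
  part : X.Part B {t, X.g s}
  sB : s ∉ B
  gtB : X.g t ∉ B
  after : Relation.ReflTransGen X.turn s t
  xy : X.lab (X.ρ s) ≠ X.lab (X.ρ t)
  cardI : 4 < B.card
  cardO : 4 < (X.A \ B).card
  e : X.g (X.ρ s) = X.ρ s ∨ X.g (X.ρ (X.ρ (X.ρ (X.g s)))) = X.ρ (X.ρ (X.ρ (X.g s)))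
  e' : X.g (X.ρ t) = X.ρ t ∨ X.g (X.ρ (X.ρ (X.ρ (X.g t)))) = X.ρ (X.ρ (X.ρ (X.g t)))

lemma st_sub_free {D : Finset S} {z : S} (h : X.g z = z) : (X.sub D).g z = z := by
  rw [sub_g]
  split_ifs
  · exact h
  · rfl

theorem Min.vcut_false (hX : X.Min) (hpf : X.PF) {s t : S} {B : Finset S} (h : X.VCut s t B) :
    False := by
  have hG := hX.good
  have hB := h.part.cl
  have hA := h.part.sub
  -- membership
  have htB : t ∈ B := h.part.F_sub (by simp)
  have hgsB : X.g s ∈ B := h.part.F_sub (by simp)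
  have hgs : X.g s ≠ s := fun hh => h.sB (hh ▸ hgsB)
  have hgt : X.g t ≠ t := fun hh => h.gtB (hh.symm ▸ htB)
  have hsA : s ∈ X.A := hG.A_g s hgs
  have htA : t ∈ X.A := hA htB
  have hgsA : X.g s ∈ X.A := hA hgsB
  have hgtA : X.g t ∈ X.A := hG.g_mem hgt
  have hsD : s ∈ X.A \ B := mem_sdiff.2 ⟨hsA, h.sB⟩
  have hgtD : X.g t ∈ X.A \ B := mem_sdiff.2 ⟨hgtA, h.gtB⟩
  have hD : X.Cl (X.A \ B) := hG.cl_sdiff hG.cl_A hB
  have hps := hG.par s hsA
  have hpt := hG.par t htA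
  -- labels
  have hlab : X.lab t = X.lab s := hG.lab_turns h.after
  have l1 : X.lab (X.g s) = X.lab (X.ρ s) := hG.lab_g s hgs
  have l2 : X.lab (X.ρ (X.g s)) = X.lab s := hG.lab_g' hgs
  have l3 : X.lab (X.g t) = X.lab (X.ρ t) := hG.lab_g t hgt
  have l4 : X.lab (X.ρ (X.g t)) = X.lab s := by rw [hG.lab_g' hgt, hlab]
  have hst : s ≠ t := fun hh => h.sB (hh ▸ htB)
  -- no closed fan
  have hnc : ¬ Relation.ReflTransGen X.turn (X.ρ (X.g t)) s := by
    intro hh
    exact hG.no_closed (x := t) (Relation.TransGen.head' ⟨hgt, rfl⟩ (hh.trans h.after))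
  -- the fan inside `B`
  have hfan : Relation.ReflTransGen (X.turnIn B) (X.ρ (X.g s)) t := by
    have key : ∀ a, Relation.ReflTransGen X.turn a t → a ∈ B → X.lab a = X.lab s →
        Relation.ReflTransGen (X.turnIn B) a t := by
      intro a ha
      induction ha using Relation.ReflTransGen.head_induction_on with
      | refl => exact fun _ _ => Relation.ReflTransGen.refl
      | @head a c hac hct ih =>
        intro haB hal
        by_cases hcB : c ∈ B
        · exact (ih hcB (by rw [hG.lab_turn hac, hal])).head ⟨haB, hcB, hac⟩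
        · have h1 : X.g a ∉ B := by
            rw [hac.2] at hcB
            exact fun hh => hcB (hB _ hh)
          have h2 := (h.part.F_g a haB).2 h1
          rw [mem_insert, mem_singleton] at h2
          rcases h2 with h2 | h2
          · rw [h2]
          · exfalso
            rw [h2, l1] at hal
            omega
    rcases Relation.ReflTransGen.cases_head h.after with h1 | ⟨c, h1, h2⟩
    · exact absurd h1 hst
    · rw [h1.2] at h2
      exact key _ h2 (hB _ hgsB) l2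
  -- the boundary of the parts
  have hbdI : ∀ z ∈ B, X.g z ∉ B → z = t ∨ z = X.g s := by
    intro z hz hgz
    have h2 := (h.part.F_g z hz).2 hgz
    rwa [mem_insert, mem_singleton] at h2
  have hbdO : ∀ z ∈ X.A \ B, X.g z ∉ X.A \ B → z = s ∨ z = X.g t := by
    intro z hz hgz
    obtain ⟨hzA, hzB⟩ := mem_sdiff.1 hz
    have hgzB : X.g z ∈ B := by
      by_contra hh
      exact hgz (mem_sdiff.2 ⟨hG.g_mem_iff.2 hzA, hh⟩)
    rcases hbdI _ hgzB (by rw [X.inv]; exact hzB) with h2 | h2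
    · exact Or.inr (by rw [← h2, X.inv])
    · exact Or.inl (X.g.injective h2)
  have hsb : X.g s ∉ X.A \ B := fun hh => (mem_sdiff.1 hh).2 hgsB
  have htb : X.g (X.g t) ∉ X.A \ B := by
    rw [X.inv]
    exact fun hh => (mem_sdiff.1 hh).2 htB
  -- the parts
  set O := X.sub (X.A \ B) with hO
  set I := X.sub B with hI
  have hOG : O.Good := hG.sub hD
  have hIG : I.Good := hG.sub hB
  have hOA : O.A = X.A \ B := h.part.A_eq'
  have hIA : I.A = B := h.part.A_eq
  have hOgc : O.StGC := fun a ha b hb => h.part.conn' a (hOA ▸ ha) b (hOA ▸ hb)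
  have hIgc : I.StGC := fun a ha b hb => h.part.conn a (hIA ▸ ha) b (hIA ▸ hb)
  have hcards : (X.A \ B).card + B.card = X.A.card := card_sdiff_add_card_eq_card hA
  have hcI := h.cardI
  have hcO := h.cardO
  have gOs : O.g s = s := sub_g_not hsb
  have gOt : O.g (X.g t) = X.g t := sub_g_not htb
  have gIt : I.g t = t := sub_g_not h.gtB
  have gIs : I.g (X.g s) = X.g s := sub_g_not (by rw [X.inv]; exact h.sB)
  -- slacks
  have hF : ({t, X.g s} : Finset S).card = 2 := by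
    refine card_pair fun hh => ?_
    have h2 : X.lab (X.g s) = X.lab s := by rw [← hh, hlab]
    rw [l1] at h2
    omega
  obtain ⟨htau, hsl⟩ := h.part.slack hX (by omega) (by omega)
  have hsI := h.part.sl_nonneg hX
  have hsO := h.part.sl_nonneg' hX
  rw [hF] at hsl
  unfold sl at hsl hsI hsO
  change I.P - 4 * (I.tau : ℤ) + (O.P - 4 * (O.tau : ℤ)) = _ at hsl
  change 0 ≤ I.P - 4 * (I.tau : ℤ) at hsI
  change 0 ≤ O.P - 4 * (O.tau : ℤ) at hsO
  change X.tau = I.tau + O.tau at htau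
  push_cast at hsl
  -- no saving
  have hns : ∀ w, I.Fr {w} → O.Fr {w} → False := by
    rintro w ⟨C, hC, hwC, hc⟩ ⟨D, hDD, hwD, hd⟩
    have h2 := tau_add_le (X := X) (B := B) hC hDD hwC hwD
    rw [card_singleton] at h2
    change C.card = I.tau at hc
    change D.card = O.tau at hd
    omega
  have hihI : IH I.A.card := st_mono hX.ih (by rw [hIA]; omega)
  have hihO : IH O.A.card := st_mono hX.ih (by rw [hOA]; omega)
  -- the end of the second fan in `O`
  obtain ⟨f, hf, hff⟩ := hOG.exists_last (X.ρ (X.g t))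
  have hfA : f ∈ O.A := hOG.mem_turns hf (by rw [hOA]; exact hD _ hgtD)
  have hfl : X.lab f = X.lab s := by
    have h2 := hOG.lab_turns hf
    change X.lab f = X.lab (X.ρ (X.g t)) at h2
    rw [h2, l4]
  have hfs : f ≠ s := by
    rintro rfl
    exact hnc (Relation.ReflTransGen.mono (fun _ _ => turn_of_sub) _ _ hf)
  have hfgt : f ≠ X.g t := by
    rintro rfl
    rw [l3] at hfl
    omega
  -- the region condition
  have hGl : Gl O.ρ O.g (X.g t) s := by
    have h2 := hG.zipG (B := B) (D := X.A \ B) (s := X.g t) (t := s) hB disjoint_sdiff hgtD hsD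
      (by rw [X.inv]; exact htB) hgsB (by rw [X.inv]; exact hfan)
    exact h2.2.2.2.2.2.2
  rcases (by omega : O.P - 4 * O.tau = 2 ∧ I.P - 4 * I.tau = 0 ∨
      O.P - 4 * O.tau = 1 ∧ I.P - 4 * I.tau = 1 ∨
      O.P - 4 * O.tau = 0 ∧ I.P - 4 * I.tau = 2) with ⟨hPO, hPI⟩ | ⟨hPO, hPI⟩ | ⟨hPO, hPI⟩
  · -- slacks (2, 0)
    have hIfr : ∀ z ∈ B, I.Fr {X.lab z} := fun z hz =>
      hIG.tig hihI (by linarith) (v := X.lab z) ⟨z, mem_cor.2 ⟨by rw [hIA]; exact hz, rfl⟩⟩
    have hct := cell_test hX.ih hOG (by rw [hOA]; omega) (s := X.g t) (t := s)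
      (by rw [hOA]; exact hgtD) (by rw [hOA]; exact hsD) gOt gOs
      (fun hh => by rw [← hh, l3] at hps; rw [hh] at l3; omega)
      (by change X.lab (X.ρ (X.g t)) = X.lab s; exact l4) hGl
      (fun _ => ⟨f, ?_, hfgt, hfs, hff⟩) (by linarith)
    · rcases hct with h2 | h2 | h2
      · refine hns _ (hIfr (X.ρ t) (hB _ htB)) ?_
        rw [← l3]; exact h2
      · refine hns _ (hIfr t htB) ?_
        rw [hlab]; exact h2
      · refine hns _ (hIfr (X.g s) hgsB) ?_
        rw [l1]; exact h2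
    · -- the cycle of `s`
      have h2 : SameCycle (O.ρ * (O.g * swap (X.g t) s)) (X.ρ (X.g t)) f := turns_glue gOt gOs hf
      rw [← mul_assoc] at h2
      refine SameCycle.trans ⟨1, ?_⟩ h2
      rw [zpow_one, Perm.mul_apply, swap_apply_right, Perm.mul_apply, gOt]
      rfl
  · -- slacks (1, 1)
    have hD2 : (O.del {X.lab s}).P + 2 ≤ O.P :=
      hOG.P_del_two (f := s) (h := f) (by rw [hOA]; exact hsD) hfA gOs hff hfs.symm hfl.symm
        (hOG.sep_c_of_comp gOs hOgc)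
    have hOv : O.Fr {X.lab s} := by
      rw [fr_iff, card_singleton]
      have h2 : (O.del {X.lab s}).A.card < X.A.card := by
        refine (card_le_card (inter_subset_left (s₁ := O.A))).trans_lt ?_
        rw [hOA]; omega
      have h3 := hX.ih S (O.del {X.lab s}) (hOG.del _) h2
      omega
    have hIv : ¬ I.Fr {X.lab s} := fun hh => hns _ hh hOv
    -- leaf tests
    have hIy : I.Fr {X.lab (X.ρ t)} := by
      have h2 := leaf_test hX.ih hIG (by rw [hIA]; omega) (s := t) (by rw [hIA]; exact htB) gIt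
        (by linarith)
      rcases h2 with h2 | h2
      · exact absurd (by rw [← hlab]; exact h2) hIv
      · exact h2
    have hIx : I.Fr {X.lab (X.ρ s)} := by
      have h2 := leaf_test hX.ih hIG (by rw [hIA]; omega) (s := X.g s) (by rw [hIA]; exact hgsB)
        gIs (by linarith)
      rcases h2 with h2 | h2
      · rw [← l1]; exact h2
      · exact absurd (by rw [← l2]; exact h2) hIv
    have hOx : ¬ O.Fr {X.lab (X.ρ s)} := fun hh => hns _ hIx hh
    have hOy : ¬ O.Fr {X.lab (X.ρ t)} := fun hh => hns _ hIy hh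
    -- both outside
    have eo : X.g (X.ρ s) = X.ρ s := by
      rcases h.e with h2 | h2
      · exact h2
      · exfalso
        refine hIv (Fr.st_dom hIx ?_)
        have h3 := hIG.st_star_private (b := X.g s) (by rw [hIA]; exact hgsB) (fun z hz hl => by
          rw [hIA] at hz
          exact hG.st_first hpf hB (p := X.g s) (q := t)
            (fun w hw hgw => (hbdI w hw hgw).symm) hgsB (by rw [X.inv]; exact h.sB) h2 hgt
            (by rw [l1]; exact h.xy.symm) (hA hz) hz hl)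
        have h4 : I.lab (X.g s) = X.lab (X.ρ s) := l1
        rw [h4] at h3
        rw [h3]
        intro z hz
        exact hIG.st_lab_cell hz ⟨X.ρ (X.g s), mem_cell.2 (Or.inr (Or.inl rfl)), l2⟩
    have eo' : X.g (X.ρ (X.ρ (X.ρ (X.g t)))) = X.ρ (X.ρ (X.ρ (X.g t))) := by
      rcases h.e' with h2 | h2
      · exfalso
        refine hIv (Fr.st_dom hIy ?_)
        have h3 := hIG.st_star_private (b := X.ρ t) (by rw [hIA]; exact hB _ htB)
          (fun z hz hl => by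
            rw [hIA] at hz
            exact hG.st_last hpf hB (p := t) (q := X.g s) hbdI htB h.gtB h2
              (by rw [l1]; exact h.xy) (hA hz) hz hl)
        have h4 : I.lab (X.ρ t) = X.lab (X.ρ t) := rfl
        rw [h4] at h3
        rw [h3]
        intro z hz
        refine hIG.st_lab_cell hz ⟨t, ?_, hlab⟩
        have h5 := hIG.cell_eq (s := t) (t := X.ρ t) (mem_cell.2 (Or.inr (Or.inl rfl)))
        rw [h5]
        exact self_mem_cell t
      · exact h2
    -- the cell of `s` in `O`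
    have hpriv : ∀ z ∈ O.A, O.lab z = O.lab (X.ρ s) → z = X.ρ s := by
      intro z hz hl
      rw [hOA] at hz
      exact hG.st_last hpf hD (p := s) (q := X.g t) hbdO hsD hsb eo
        (by rw [l3]; exact h.xy.symm) (mem_sdiff.1 hz).1 hz hl
    have hpriv' : ∀ z ∈ X.A \ B, X.lab z = X.lab (X.g t) → z = X.g t := by
      intro z hz hl
      exact hG.st_first hpf hD (p := X.g t) (q := s) (fun w hw hgw => (hbdO w hw hgw).symm)
        hgtD htb eo' hgs (by rw [l3]; exact h.xy) (mem_sdiff.1 hz).1 hz hl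
    obtain ⟨hTtau, hcase⟩ := hOG.st_private hOgc (by rw [hOA]; omega) (b := X.ρ s)
      (by rw [hOA]; exact hD _ hsD) (st_sub_free eo)
      (by change O.g (X.ρ (X.ρ (X.ρ (X.ρ s)))) = X.ρ (X.ρ (X.ρ (X.ρ s))); rw [hG.rho4]; exact gOs)
      hpriv hOx
    -- the rest as a subcomplex of `X`
    have hcell : O.cell (X.ρ s) = X.cell s := hG.cell_eq (mem_cell.2 (Or.inr (Or.inl rfl)))
    have hTeq : O.sub (O.A \ O.cell (X.ρ s)) = X.sub ((X.A \ B) \ X.cell s) := by
      rw [hOA, hcell, hO, sub_sub]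
      congr 1
      exact inter_eq_right.2 sdiff_subset
    rw [hTeq] at hTtau hcase
    set T := X.sub ((X.A \ B) \ X.cell s) with hT
    have hDT : X.Cl ((X.A \ B) \ X.cell s) := hG.cl_sdiff hD (hG.cl_cell s)
    have hTG : T.Good := hG.sub hDT
    have hTA : T.A = (X.A \ B) \ X.cell s :=
      inter_eq_right.2 (sdiff_subset.trans sdiff_subset)
    have hTc : T.A.card < X.A.card := by
      rw [hTA]
      exact (card_le_card sdiff_subset).trans_lt (by omega)
    have hTih := hX.ih S T hTG hTc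
    rcases hcase with ⟨⟨-, c1⟩, c2⟩ | ⟨-, c2⟩
    · -- both other sides are glued: zip
      have c1' : O.g (X.ρ (X.ρ (X.ρ s))) ≠ X.ρ (X.ρ (X.ρ s)) := c1
      obtain ⟨m1, m2, m3, m4⟩ := sub_g_ne c1'
      set r := X.ρ (X.ρ (X.ρ s)) with hr
      have hrs : X.ρ r = s := hG.rho4 s
      have hrc : r ∈ X.cell s := mem_cell.2 (Or.inr (Or.inr (Or.inr rfl)))
      have hgr : X.g r ∈ (X.A \ B) \ X.cell s :=
        mem_sdiff.2 ⟨m2, hG.g_notMem_cell hrc m4⟩
      have hrt : r ≠ X.g t := by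
        intro hh
        refine hnc ?_
        rw [← hh, hrs]
      have hgtc : X.g t ∉ X.cell s := by
        intro hh
        rcases mem_cell.1 hh with e1 | e1 | e1 | e1
        · rw [e1] at l3; omega
        · exact h.xy (by rw [← e1, l3])
        · have h5 := hG.par (X.ρ s) (hG.A_rho s hsA)
          rw [← e1, l3] at h5
          have h6 := hG.par t htA
          rw [hlab] at h6
          omega
        · exact hrt e1.symm
      have hfr := hG.zip_fr (B := B ∪ X.cell s) (D := (X.A \ B) \ X.cell s) (s := X.g t)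
        (t := X.g r) hX.ih (hG.cl_union hB (hG.cl_cell s)) hDT (by
          rw [disjoint_left]
          intro z hz hz'
          obtain ⟨h5, h6⟩ := mem_sdiff.1 hz'
          rcases mem_union.1 hz with h7 | h7
          · exact (mem_sdiff.1 h5).2 h7
          · exact h6 h7) hTc (mem_sdiff.2 ⟨hgtD, hgtc⟩) hgr
        (by rw [X.inv]; exact mem_union_left _ htB) (by rw [X.inv]; exact mem_union_right _ hrc)
        (by
          rw [X.inv, X.inv, hrs]
          refine Relation.ReflTransGen.head (b := X.ρ (X.g s))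
            ⟨mem_union_right _ (self_mem_cell s), mem_union_left _ (hB _ hgsB), hgs, rfl⟩ ?_
          exact Relation.ReflTransGen.mono (fun a b hab =>
            ⟨mem_union_left _ hab.1, mem_union_left _ hab.2.1, hab.2.2⟩) _ _ hfan)
        (hG.not_turns_of_lab hDT (by
          rw [hG.lab_g' m4]
          intro hh
          exact hrt (hpriv' r m1 hh.symm)))
        (by change T.P ≤ 4 * (T.tau : ℤ); rw [hTtau]; linarith)
      change T.Fr _ at hfr
      rw [hG.lab_g' m4] at hfr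
      obtain ⟨C, hC, hsub, hcc⟩ := hfr
      refine hOy ⟨C, ?_, ?_, by rw [hcc, hTtau]⟩
      · refine hOG.st_cov_cell (b := X.ρ s) (by rw [hTeq]; exact hC) ⟨r, ?_,
          hsub (mem_insert_of_mem (mem_singleton_self (X.lab r)))⟩
        rw [hcell]
        exact hrc
      · rw [← l3]
        exact singleton_subset_iff.2 (hsub (by simp))
    · rw [hTtau] at hTih
      omega
  · -- slacks (0, 2)
    have hOfr : ∀ z ∈ X.A \ B, O.Fr {X.lab z} := fun z hz =>
      hOG.tig hihO (by linarith) (v := X.lab z) ⟨z, mem_cor.2 ⟨by rw [hOA]; exact hz, rfl⟩⟩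
    have hIv : ¬ I.Fr {X.lab s} := fun hh => hns _ hh (hOfr s hsD)
    have hIx : ¬ I.Fr {X.lab (X.ρ s)} := fun hh => hns _ hh (hOfr _ (hD _ hsD))
    have hIy : ¬ I.Fr {X.lab (X.ρ t)} := fun hh => hns _ hh (by rw [← l3]; exact hOfr _ hgtD)
    have hfr := hG.zip_fr (B := B) (D := X.A \ B) (s := X.g t) (t := s) hX.ih hB hD
      disjoint_sdiff (by
        change O.A.card < _
        rw [hOA]; omega) hgtD hsD (by rw [X.inv]; exact htB) hgsB (by rw [X.inv]; exact hfan)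
      (hG.not_turns_of_lab hD (by rw [l3]; exact h.xy.symm)) (by
        change O.P ≤ 4 * (O.tau : ℤ)
        linarith)
    change O.Fr _ at hfr
    rw [l3] at hfr
    obtain ⟨CO, hCO, hsub, hcc⟩ := hfr
    have hyC : X.lab (X.ρ t) ∈ CO := hsub (by simp)
    have hxC : X.lab (X.ρ s) ∈ CO := hsub (by simp)
    -- a hitting set of the inner part with both labels is impossible
    have hfin : ∀ C, I.Cov C → X.lab (X.ρ s) ∈ C → X.lab (X.ρ t) ∈ C → C.card ≤ I.tau + 1 →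
        False := by
      intro C hC hx hy hc
      have h2 := tau_add_le (X := X) (B := B) (Q := {X.lab (X.ρ s), X.lab (X.ρ t)}) hC hCO
        (by
          intro w hw
          rw [mem_insert, mem_singleton] at hw
          rcases hw with rfl | rfl
          · exact hx
          · exact hy)
        (by
          intro w hw
          rw [mem_insert, mem_singleton] at hw
          rcases hw with rfl | rfl
          · exact hxC
          · exact hyC)
      rw [card_pair h.xy] at h2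
      omega
    have hI4 : I.P ≤ 4 * (I.tau : ℤ) + 2 := by linarith
    by_cases eo : X.g (X.ρ s) = X.ρ s
    · by_cases eo' : X.g (X.ρ (X.ρ (X.ρ (X.g t)))) = X.ρ (X.ρ (X.ρ (X.g t)))
      · -- both outside
        have hs1 : O.star {X.lab (X.ρ s)} = O.cell (X.ρ s) :=
          hOG.st_star_private (b := X.ρ s) (by rw [hOA]; exact hD _ hsD) (fun z hz hl => by
            rw [hOA] at hz
            exact hG.st_last hpf hD (p := s) (q := X.g t) hbdO hsD hsb eo
              (by rw [l3]; exact h.xy.symm) (mem_sdiff.1 hz).1 hz hl)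
        have hs2 : O.star {X.lab (X.g t)} = O.cell (X.g t) :=
          hOG.st_star_private (b := X.g t) (by rw [hOA]; exact hgtD) (fun z hz hl => by
            rw [hOA] at hz
            exact hG.st_first hpf hD (p := X.g t) (q := s) (fun w hw hgw => (hbdO w hw hgw).symm)
              hgtD htb eo' hgs (by rw [l3]; exact h.xy) (mem_sdiff.1 hz).1 hz hl)
        rw [l3] at hs2
        have hc1 := st_cov_replace (v := X.lab s) (p := X.lab (X.ρ s)) hCO (by
          rw [hs1]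
          intro z hz
          refine hOG.st_lab_cell hz ⟨s, ?_, rfl⟩
          have h5 := hOG.cell_eq (s := s) (t := X.ρ s) (mem_cell.2 (Or.inr (Or.inl rfl)))
          rw [h5]
          exact self_mem_cell s)
        have hc2 := st_cov_replace (v := X.lab s) (p := X.lab (X.ρ t)) hc1 (by
          rw [hs2]
          intro z hz
          exact hOG.st_lab_cell hz ⟨X.ρ (X.g t), mem_cell.2 (Or.inr (Or.inl rfl)), l4⟩)
        have hc3 := hc2.mono (D := insert (X.lab s) ((CO.erase (X.lab (X.ρ s))).erase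
          (X.lab (X.ρ t)))) (by
          intro w hw
          rw [mem_insert, mem_erase, mem_insert] at hw
          rw [mem_insert, mem_erase]
          tauto)
        have h2 := tau_le hc3
        have h3 := card_insert_le (X.lab s) ((CO.erase (X.lab (X.ρ s))).erase (X.lab (X.ρ t)))
        have h4 := card_erase_of_mem hxC
        have h5 := card_erase_of_mem (s := CO.erase (X.lab (X.ρ s)))
          (mem_erase.2 ⟨h.xy.symm, hyC⟩)
        have h6 : 2 ≤ CO.card := by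
          have h7 := card_le_card hsub
          rw [card_pair h.xy.symm] at h7
          exact h7
        omega
      · -- `y` inside
        have ei : X.g (X.ρ t) = X.ρ t := h.e'.resolve_right eo'
        obtain ⟨C, hC, h2, h3, h4⟩ := hIG.st_inner (b := X.ρ t) (h := X.g s) (v := X.lab s)
          (q := X.lab (X.ρ s)) hX.ih (by rw [hIA]; omega) hIgc (by rw [hIA]; omega)
          (by rw [hIA]; exact hB _ htB) (st_sub_free ei)
          (by
            change I.g (X.ρ (X.ρ (X.ρ (X.ρ t)))) = X.ρ (X.ρ (X.ρ (X.ρ t)))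
            rw [hG.rho4]
            exact gIt)
          (fun z hz hl => by
            rw [hIA] at hz
            exact hG.st_last hpf hB (p := t) (q := X.g s) hbdI htB h.gtB ei
              (by rw [l1]; exact h.xy) (hA hz) hz hl)
          hI4 ⟨t, by
            have h5 := hIG.cell_eq (s := t) (t := X.ρ t) (mem_cell.2 (Or.inr (Or.inl rfl)))
            rw [h5]
            exact self_mem_cell t, hlab⟩
          (by rw [hIA]; exact hgsB) gIs (Or.inr ⟨l1, l2⟩)
          (fun hh => h.xy (by rw [← l1, hh]))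
          (by
            change X.g s ≠ X.ρ (X.ρ (X.ρ (X.ρ t)))
            rw [hG.rho4]
            intro hh
            rw [hh] at l1
            omega)
          hIv hIx hIy
        exact hfin C hC h3 h2 h4
    · -- `x` inside
      have ei : X.g (X.ρ (X.ρ (X.ρ (X.g s)))) = X.ρ (X.ρ (X.ρ (X.g s))) := h.e.resolve_left eo
      obtain ⟨C, hC, h2, h3, h4⟩ := hIG.st_inner (b := X.g s) (h := t) (v := X.lab s)
        (q := X.lab (X.ρ t)) hX.ih (by rw [hIA]; omega) hIgc (by rw [hIA]; omega)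
        (by rw [hIA]; exact hgsB) gIs (st_sub_free ei)
        (fun z hz hl => by
          rw [hIA] at hz
          exact hG.st_first hpf hB (p := X.g s) (q := t)
            (fun w hw hgw => (hbdI w hw hgw).symm) hgsB (by rw [X.inv]; exact h.sB) ei hgt
            (by rw [l1]; exact h.xy.symm) (hA hz) hz hl)
        hI4 ⟨X.ρ (X.g s), mem_cell.2 (Or.inr (Or.inl rfl)), l2⟩
        (by rw [hIA]; exact htB) gIt (Or.inl ⟨hlab, rfl⟩)
        (fun hh => by rw [← hh, hlab] at l1; omega)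
        (fun hh => hgt (by
          have h5 : t = X.ρ (X.ρ (X.ρ (X.g s))) := hh
          rw [h5]
          exact ei))
        hIv hIy (by
          change ¬ I.Fr {X.lab (X.g s)}
          rw [l1]
          exact hIx)
      refine hfin C hC ?_ h3 h4
      rw [← l1]
      exact h2

end Cx

end Pool.Agent.Lib.MP06c549.Z
end
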