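import Pool.Agent.Lib.MP_06c549_co.Z.Two
import Pool.Agent.Lib.MP_06c549_co.Z.StarsC
import Pool.Agent.Lib.MP_06c549_co.Z.Deg
import Pool.Agent.Lib.MP_06c549_co.Z.DupB

section
/-!
# MP_06c549_co, Z: double gates (section 2 of the text), slacks 1 and 1
-/
set_option autoImplicit false
set_option linter.unusedSectionVars false

namespace Pool.Agent.Lib.MP06c549.Z

open Equiv Equiv.Perm Finset

variable {S : Type} [Fintype S] [DecidableEq S]

namespace Cx

variable {X : Cx S}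

/-- the statement about one part `B` of slack 1: the corner of `v = lab t` is in `B`, the corner of
`x = lab (ρ t)` is outside `B`; then `x` is free in `B` -/
def SpecDG11L (X : Cx S) : Prop := ∀ (B : Finset S) (s t : S), X.g s ≠ s → X.g t ≠ t →
  X.Part B {t, X.g s} → s ∉ B → X.g t ∉ B → X.lab s = X.lab t → X.lab (X.ρ s) = X.lab (X.ρ t) →
  SameCycle (X.ρ * (X.sub B).g) t (X.g s) → (∃ f ∈ B, X.g f = f ∧ X.lab f = X.lab t) →
  (∃ f ∈ X.A \ B, X.g f = f ∧ X.lab f = X.lab (X.ρ t)) → (X.sub B).sl = 1 →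
  (X.sub B).Fr {X.lab (X.ρ t)}

/-- The case of slacks 1 and 1 from the statement about one part. -/
theorem Min.spec_dg11 (hX : X.Min) (h11 : SpecDG11L X) : SpecDG11 X := by
  intro s t B h f e hf hfA hfv hfB he hex heB hs1 hs2
  have hG := hX.good
  have hBG := hG.sub h.part.cl
  have hBA := h.part.A_eq
  have hgsA : X.g s ∈ (X.sub B).A := by rw [hBA]; exact h.gsB
  have heA : e ∈ (X.sub B).A := by rw [hBA]; exact heB
  have e1 : X.lab (X.g s) = X.lab (X.ρ s) := hG.lab_g s h.hs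
  -- `x` is free in `B`
  have k1 : (X.sub B).Fr {X.lab (X.ρ s)} := by
    have hgg : (X.sub B).g (X.g s) = X.g s := sub_g_not (by rw [X.inv]; exact h.sB)
    have heg : (X.sub B).g e = e := DP.sub_free he B
    have hne : e ≠ X.g s := fun hh => h.hs (by
      rw [hh, X.inv] at he
      exact he.symm)
    have hl : (X.sub B).lab e = (X.sub B).lab (X.g s) := by
      change X.lab e = X.lab (X.g s)
      rw [hex, e1]
    have hc : ∀ a ∈ (X.sub B).A, ∀ b ∈ (X.sub B).A, comp (X.sub B).ρ (X.sub B).g a b := by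
      intro a ha b hb
      rw [hBA] at ha hb
      exact h.part.conn a ha b hb
    have hlt : (X.sub B).A.card < X.A.card := h.part.card_lt
    have k2 := hBG.tig_two (fun T _ _ Z hZ' hlt' => hX.ih T Z hZ' (hlt'.trans hlt)) heA hgsA heg hgg
      hne hl (hBG.sep_c_of_comp heg hc) (by unfold sl at hs1; linarith)
    have k3 : (X.sub B).lab e = X.lab (X.ρ s) := hex
    rwa [k3] at k2
  -- `x` is free in the other part
  have h' := h.sym1 hG
  have k4 : (X.sub (X.A \ B)).Fr {X.lab (X.ρ s)} :=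
    h11 (X.A \ B) t s h.ht h.hs h'.part h'.sB h'.gtB h'.v h'.x h'.cyc
      ⟨f, mem_sdiff.2 ⟨hfA, hfB⟩, hf, hfv⟩
      ⟨e, by rw [h.sdd]; exact heB, he, hex⟩ hs2
  exact h.nosave hX k1 k4

/-- **Double gates.** -/
theorem Min.dg_of'' (hX : X.Min) (h11 : SpecDG11L X) {s t : S} (hs : X.g s ≠ s) (ht : X.g t ≠ t)
    (hts : t ≠ s) (htg : t ≠ X.g s) (h1 : X.lab s = X.lab t) (h2 : X.lab (X.ρ s) = X.lab (X.ρ t)) :
    ∃ z, X.DGout s t z :=
  hX.dg_of' (hX.spec_dg11 h11) hs ht hts htg h1 h2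

end Cx

end Pool.Agent.Lib.MP06c549.Z
end

section
/-!
# MP_06c549_co, Z: double gates (section 2 of the text), end
-/
set_option autoImplicit false
set_option linter.unusedSectionVars false

namespace Pool.Agent.Lib.MP06c549.Z

open Equiv Equiv.Perm Finset

variable {S : Type} [Fintype S] [DecidableEq S]

namespace Cx

variable {X : Cx S}

/-- a step of a fan inside a part is a step of the fan -/
lemma turn_sub {B : Finset S} {a b : S} (h : (X.sub B).turn a b) : X.turn a b := by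
  obtain ⟨h1, h2⟩ := h
  have h3 : (X.sub B).g a = X.g a := by
    rw [sub_g] at h1 ⊢
    split_ifs with h4
    · rfl
    · rw [if_neg h4] at h1
      exact absurd rfl h1
  rw [h3] at h1 h2
  exact ⟨h1, h2⟩

/-- going on in a fan does not increase the distance to its end -/
lemma at_turns {f a b : S} (hf : X.g f = f) {k : ℕ} (ha : X.At f k a)
    (h : Relation.ReflTransGen X.turn a b) : ∃ l ≤ k, X.At f l b := by
  induction h with
  | refl => exact ⟨k, le_rfl, ha⟩
  | tail _ h ih =>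
    rename_i b c
    obtain ⟨l, hl, hb⟩ := ih
    obtain ⟨h1, h2⟩ := h
    rcases l with _ | l
    · exact absurd (by rw [at_zero.1 hb, hf]) h1
    · rw [h2]
      exact ⟨l, by omega, (at_succ.1 hb).2⟩

namespace DP

variable {s t : S} {B : Finset S}

/-- a free side of the outer part -/
lemma free_out (h : X.DP s t B) (hX : X.Good) {a : S} (ha : a ∈ X.A \ B)
    (hg : (X.sub (X.A \ B)).g a = a) : X.g a = a ∨ a = s ∨ a = X.g t := by
  by_contra hh
  push Not at hh
  obtain ⟨h1, h2, h3⟩ := hh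
  have haA := (mem_sdiff.1 ha).1
  have h4 : X.g a ∈ B := by
    by_contra h5
    rw [sub_g, if_pos ⟨ha, mem_sdiff.2 ⟨hX.g_mem_iff.2 haA, h5⟩⟩] at hg
    exact h1 hg
  have h5 := (h.part.F_g _ h4).2 (by rw [X.inv]; exact (mem_sdiff.1 ha).2)
  rw [mem_insert, mem_singleton] at h5
  rcases h5 with h5 | h5
  · exact h3 (by rw [← h5, X.inv])
  · exact h2 (X.g.injective h5)

/-- the fan of `v` from `ρ (g t)` outside `B` does not come to `s` -/
lemma no_turn (h : X.DP s t B) (hX : X.Good) (hpf : X.PF) {f : S} (hf : X.g f = f) (hfA : f ∈ X.A)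
    (hfv : X.lab f = X.lab s) (hfB : f ∉ B) :
    ¬ Relation.ReflTransGen (X.sub (X.A \ B)).turn (X.ρ (X.g t)) s := by
  intro hh
  obtain ⟨p, q, hp, hq, hpq, -⟩ := h.pos hX hpf hf hfA hfv hfB
  have h1 := (at_succ.1 hq).2
  obtain ⟨l, hl, h2⟩ := at_turns hf h1 (Relation.ReflTransGen.mono (fun _ _ => turn_sub) _ _ hh)
  have := at_unique hf hp h2
  omega

/-- the only cell of the outer part -/
lemma out_card (h : X.DP s t B) (hX : X.Min) (hsl : (X.sub (X.A \ B)).sl = 1) :
    4 < (X.A \ B).card := by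
  by_contra hh
  have hG := hX.good
  set Y := X.sub (X.A \ B) with hY
  have hYG : Y.Good := hG.sub (h.part.cl' hG)
  have hYA : Y.A = X.A \ B := h.part.A_eq'
  have hsA : s ∈ Y.A := by rw [hYA]; exact h.sA hG
  have h1 : Y.c = 1 := hYG.c_eq_one ⟨s, hsA⟩ (by
    intro a ha b hb
    rw [hYA] at ha hb
    exact h.part.conn' a ha b hb)
  have h2 : 1 ≤ Y.tau := tau_pos hsA
  have h3 : Y.N ≤ 1 := by
    have h4 : Y.N = Y.A.card / 4 := rfl
    rw [hYA] at h4
    omega
  have h5 : Y.P = 3 * (Y.N : ℤ) - Y.E + Y.c := rfl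
  unfold sl at hsl
  omega

/-- **Slack 1 outside:** if the fan of `v` ends outside `B` and that of `x` in `B`, then `x` is
free outside `B`. -/
theorem fr_out (h : X.DP s t B) (hX : X.Min) {f e : S} (hf : X.g f = f) (hfA : f ∈ X.A)
    (hfv : X.lab f = X.lab s) (hfB : f ∉ B) (he : X.g e = e) (hex : X.lab e = X.lab (X.ρ s))
    (heB : e ∈ B) (hsl : (X.sub (X.A \ B)).sl = 1) : (X.sub (X.A \ B)).Fr {X.lab (X.ρ s)} := by
  have hG := hX.good
  have hpf := hX.pf
  set Y := X.sub (X.A \ B) with hY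
  have hYG : Y.Good := hG.sub (h.part.cl' hG)
  have hYA : Y.A = X.A \ B := h.part.A_eq'
  have heA : e ∈ X.A := h.part.sub heB
  have hlab : X.lab (X.g t) = X.lab (X.ρ s) := by rw [hG.lab_g t h.ht, h.x]
  have hlab' : X.lab (X.ρ (X.g t)) = X.lab s := by rw [hG.lab_g' h.ht, h.v]
  have hlt : Y.A.card < X.A.card := h.part.card_lt'
  have hyA : X.g t ∈ Y.A := by rw [hYA]; exact h.gtA hG
  have hsA : s ∈ Y.A := by rw [hYA]; exact h.sA hG
  have hvx := h.vx hG
  have hPF : ∀ a ∈ Y.A, ∀ b ∈ Y.A, Y.g a = a → Y.g b = b → Y.lab a = Y.lab b →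
      Y.lab a ≠ Y.lab s → a = b := by
    intro a ha b hb ga gb hab hav
    rw [hYA] at ha hb
    have haA := (mem_sdiff.1 ha).1
    have hbA := (mem_sdiff.1 hb).1
    have hab' : X.lab a = X.lab b := hab
    have hav' : X.lab a ≠ X.lab s := hav
    rcases h.free_out hG ha ga with a1 | a1 | a1 <;> rcases h.free_out hG hb gb with b1 | b1 | b1
    · exact hpf a haA b hbA a1 b1 hab'
    · exact absurd (by rw [hab', b1]) hav'
    · have h1 := hpf a haA e heA a1 he (by rw [hab', b1, hlab, hex])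
      exact absurd heB (h1 ▸ (mem_sdiff.1 ha).2)
    · exact absurd (by rw [a1]) hav'
    · rw [a1, b1]
    · exact absurd (by rw [a1]) hav'
    · have h1 := hpf b hbA e heA b1 he (by rw [← hab', a1, hlab, hex])
      exact absurd heB (h1 ▸ (mem_sdiff.1 hb).2)
    · exact absurd (by rw [hab', b1]) hav'
    · rw [a1, b1]
  have hcard := h.out_card hX hsl
  -- the cell of `s` is not repeated at `v`
  have hl : Y.ρ s ≠ X.g t := by
    intro hh
    have hh' : X.ρ s = X.g t := hh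
    have h1 : X.lab (X.ρ (X.ρ s)) = X.lab s := by rw [hh', hlab']
    rcases hX.tl hpf (hG.A_g s h.hs) h1 with ⟨-, -, -, k2, k3, -⟩ | ⟨-, -, -, k2, k3, -⟩
    · -- the cell of `s` is everything outside `B`
      have k4 : ∀ z ∈ Y.cell s, Y.g z = z := by
        intro z hz
        rcases mem_cell.1 hz with rfl | rfl | rfl | rfl
        · exact h.g_s
        · rw [show Y.ρ s = X.g t from hh']
          exact h.g_gt
        · exact sub_free k2 _
        · exact sub_free k3 _
      have k5 : Y.A = Y.cell s := by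
        refine Subset.antisymm (fun a ha => ?_) (cell_sub hYG.cl_A hsA)
        have k6 := mem_iff_of_comp (ρ := Y.ρ) (g := Y.g) (K := Y.cell s)
          (fun x => hYG.cl_iff (hYG.cl_cell s)) (mem_iff_of_fix k4)
          (h.part.conn' s (h.sA hG) a (by rwa [hYA] at ha))
        exact k6.1 (self_mem_cell s)
      rw [← hYA, k5, hYG.card_cell] at hcard
      omega
    · rw [hG.rho4] at k2
      exact h.hs k2
  have hP : Y.P ≤ 4 * Y.tau + 1 := by unfold sl at hsl; linarith
  have hyg : Y.g (X.g t) = X.g t := h.g_gt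
  have hsg : Y.g s = s := h.g_s
  have hcyc : SameCycle (Y.ρ * Y.g) s (X.g t) := h.cyc'
  have hv := h.no_turn hG hpf hf hfA hfv hfB
  have e1 : Y.lab (X.g t) = X.lab (X.ρ s) := hlab
  rcases dg11_gates (n := X.A.card) hX.ih hYG hlt hyA hsA hyg hlab.symm hlab' hv hPF hl hP with
    h1 | ⟨h1, h2, h3⟩
  · rwa [e1] at h1
  by_cases hn : Y.lab (Y.ρ (Y.ρ (X.g t))) = Y.lab (X.g t)
  · exfalso
    have hgA := (mem_sdiff.1 (h.gtA hG)).1
    have k1 : ∀ z : S, Y.g z ≠ z → X.g z ≠ z := fun z hz hh => hz (sub_free hh _)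
    rcases hX.tl hpf hgA hn with ⟨-, -, -, k2, k3, -⟩ | ⟨-, -, -, k2, k3, -⟩
    · exact k1 _ h2 k2
    · rw [hG.rho4, X.inv] at k2
      exact h.ht k2.symm
  · have h4 := dg11 (n := X.A.card) hX.ih hYG hlt hyA hsA hyg hsg hlab.symm hlab' hcyc hv hPF hl hn hP
    rwa [e1] at h4

/-- **Slack 1 inside.** -/
theorem fr_in (h : X.DP s t B) (hX : X.Min) {e : S} (he : X.g e = e)
    (hex : X.lab e = X.lab (X.ρ s)) (heB : e ∈ B) (hs1 : (X.sub B).sl = 1) :
    (X.sub B).Fr {X.lab (X.ρ s)} := by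
  have hG := hX.good
  have hBG := hG.sub h.part.cl
  have hBA := h.part.A_eq
  have hgsA : X.g s ∈ (X.sub B).A := by rw [hBA]; exact h.gsB
  have heA : e ∈ (X.sub B).A := by rw [hBA]; exact heB
  have hgg : (X.sub B).g (X.g s) = X.g s := sub_g_not (by rw [X.inv]; exact h.sB)
  have heg : (X.sub B).g e = e := sub_free he B
  have hne : e ≠ X.g s := fun hh => h.hs (by
    rw [hh, X.inv] at he
    exact he.symm)
  have hl : (X.sub B).lab e = (X.sub B).lab (X.g s) := by
    change X.lab e = X.lab (X.g s)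
    rw [hex, hG.lab_g s h.hs]
  have hc : ∀ a ∈ (X.sub B).A, ∀ b ∈ (X.sub B).A, comp (X.sub B).ρ (X.sub B).g a b := by
    intro a ha b hb
    rw [hBA] at ha hb
    exact h.part.conn a ha b hb
  have hlt : (X.sub B).A.card < X.A.card := h.part.card_lt
  have k2 := hBG.tig_two (fun T _ _ Z hZ' hlt' => hX.ih T Z hZ' (hlt'.trans hlt)) heA hgsA heg hgg
    hne hl (hBG.sep_c_of_comp heg hc) (by unfold sl at hs1; linarith)
  have k3 : (X.sub B).lab e = X.lab (X.ρ s) := hex
  rwa [k3] at k2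

end DP

/-- **Double gates.** -/
theorem Min.dg (hX : X.Min) {s t : S} (hs : X.g s ≠ s) (ht : X.g t ≠ t)
    (hts : t ≠ s) (htg : t ≠ X.g s) (h1 : X.lab s = X.lab t) (h2 : X.lab (X.ρ s) = X.lab (X.ρ t)) :
    ∃ z, X.DGout s t z := by
  refine hX.dg_of' (fun s t B h f e hf hfA hfv hfB he hex heB hs1 hs2 => ?_) hs ht hts htg h1 h2
  exact h.nosave hX (h.fr_in hX he hex heB hs1) (h.fr_out hX hf hfA hfv hfB he hex heB hs2)

end Cx

end Pool.Agent.Lib.MP06c549.Z
end

section
/-!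
# MP_06c549_co, Z: two cells with a common gate and a further common vertex (section 4)

`Min.dup`: the side `s` of the minimal counterexample is glued, the corner `ρ³ s` of its cell and
the corner `ρ² (g s)` of the cell on the other side have the same label. Then the sides between
these corners and the start of `s` are free.
-/
set_option autoImplicit false
set_option linter.unusedSectionVars false

namespace Pool.Agent.Lib.MP06c549.Z

open Equiv Equiv.Perm Finset

variable {S : Type} [Fintype S] [DecidableEq S]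

namespace Cx

variable {X : Cx S}

/-- in a pinch free complex two corners with the same label are on one cycle -/
lemma Good.cyc_of_lab (hX : X.Good) (hpf : X.PF) {x y : S} (hx : x ∈ X.A) (hy : y ∈ X.A)
    (h : X.lab x = X.lab y) : SameCycle (X.ρ * X.g) x y := by
  obtain ⟨a, ha1, ha2, ha3⟩ := hX.exists_free hx
  obtain ⟨b, hb1, hb2, hb3⟩ := hX.exists_free hy
  have hab : a = b := hpf a (mem_free.1 ha1).1 b (mem_free.1 hb1).1 (mem_free.1 ha1).2
    (mem_free.1 hb1).2 (by rw [ha2, hb2, h])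
  subst hab
  exact ha3.trans hb3.symm

/-- the positions in the fan that starts with `c` and ends with `f` -/
lemma Good.at_le (hX : X.Good) (hpf : X.PF) {f c : S} {k : ℕ} (hf : X.g f = f) (hfA : f ∈ X.A)
    (hk : X.At f k c) (hc : X.g (X.ρ (X.ρ (X.ρ c))) = X.ρ (X.ρ (X.ρ c))) {x : S}
    (hx : x ∈ X.A) (hl : X.lab x = X.lab f) : ∃ i ≤ k, X.At f i x := by
  obtain ⟨m, hm⟩ := hX.at_of_pf hpf hf hfA hx hl
  refine ⟨m, ?_, hm⟩
  by_contra hlt
  obtain ⟨j, rfl⟩ : ∃ j, m = j + (k + 1) := ⟨m - (k + 1), by omega⟩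
  have h3 : ∀ j x, X.At f (j + (k + 1)) x → ∃ x', X.At f (k + 1) x' := by
    intro j
    induction j with
    | zero =>
      intro x hx
      rw [zero_add] at hx
      exact ⟨x, hx⟩
    | succ j ihj =>
      intro x hx
      rw [show j + 1 + (k + 1) = j + (k + 1) + 1 by omega] at hx
      exact ihj _ (at_succ.1 hx).2
  obtain ⟨x', hx'⟩ := h3 j x hm
  obtain ⟨h4, h5⟩ := at_succ.1 hx'
  have h6 := at_inj h5 hk
  have h7 : X.g x' = X.ρ (X.ρ (X.ρ c)) := X.ρ.injective (by rw [h6, hX.rho4])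
  have h8 : x' = X.ρ (X.ρ (X.ρ c)) := by rw [← X.inv x', h7, hc]
  exact h4 (by rw [h8, hc])

/-- after the deletion of a leaf at one of the two sides: contradiction -/
lemma Min.dup_leaf (hX : X.Min) {s t : S} (ht : X.Leaf t)
    (hg : X.g s ≠ s) (h : X.lab (X.ρ (X.ρ (X.ρ s))) = X.lab (X.ρ (X.ρ (X.g s))))
    (hst : s ∉ X.cell t) (hgt : X.g s ∉ X.cell t)
    (ha : X.g (X.ρ (X.ρ (X.ρ s))) = X.ρ (X.ρ (X.ρ s)) ∨ X.g (X.ρ (X.ρ (X.ρ s))) ∈ X.cell t)
    (hb : X.g (X.ρ (X.g s)) = X.ρ (X.g s) ∨ X.g (X.ρ (X.g s)) ∈ X.cell t)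
    (hw : ∀ x ∈ X.A, X.lab x = X.lab s → x = s ∨ x = X.ρ (X.g s) ∨ x ∈ X.cell t)
    (m1 : ∃ i ∈ X.cell t, X.lab i = X.lab s)
    (m2 : ∃ i ∈ X.cell t, X.lab i = X.lab (X.ρ (X.ρ (X.ρ s)))) : False := by
  have hG := hX.good
  obtain ⟨-, h2, h3⟩ := hX.leaf_rest ht
  have hR : (X.sub (X.A \ X.cell t)).Good := hG.sub (hG.cl_sdiff hG.cl_A (hG.cl_cell t))
  have hRA : (X.sub (X.A \ X.cell t)).A = X.A \ X.cell t := inter_eq_right.2 sdiff_subset
  have hsA := hG.A_g s hg
  have hsR : s ∈ X.A \ X.cell t := mem_sdiff.2 ⟨hsA, hst⟩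
  have hgR : X.g s ∈ X.A \ X.cell t := mem_sdiff.2 ⟨hG.g_mem hg, hgt⟩
  have hRs : (X.sub (X.A \ X.cell t)).g s = X.g s := by rw [sub_g, if_pos ⟨hsR, hgR⟩]
  have fix : ∀ x, (X.g x = x ∨ X.g x ∈ X.cell t) → (X.sub (X.A \ X.cell t)).g x = x := by
    rintro x (h4 | h4)
    · rw [sub_g]
      split_ifs
      · exact h4
      · rfl
    · rw [sub_g, if_neg]
      exact fun h5 => (mem_sdiff.1 h5.2).2 h4
  have hD : (X.sub (X.A \ X.cell t)).Dup s := by
    refine ⟨by rw [hRs]; exact hg, fix _ ha, ?_, ?_, ?_⟩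
    · rw [hRs]; exact fix _ hb
    · rw [hRs]; exact h
    · intro x hx hl
      rw [hRA, mem_sdiff] at hx
      rw [hRs]
      rcases hw x hx.1 hl with h4 | h4 | h4
      · exact Or.inl h4
      · exact Or.inr h4
      · exact absurd h4 hx.2
  have hle : (X.sub (X.A \ X.cell t)).A.card ≤ X.A.card := by
    rw [hRA]
    exact card_le_card sdiff_subset
  obtain ⟨i, hi, hil⟩ := m1
  obtain ⟨j, hj, hjl⟩ := m2
  have nv : ¬ (X.sub (X.A \ X.cell t)).Fr {X.lab (X.ρ (X.ρ (X.ρ s)))} := by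
    rw [← hjl]; exact h3 j hj
  have nw : ¬ (X.sub (X.A \ X.cell t)).Fr {X.lab s} := by
    rw [← hil]; exact h3 i hi
  refine Dup.one hR hX.ih hle hD nv nw ?_
  have h4 : (X.sub (X.A \ X.cell t)).ρ ((X.sub (X.A \ X.cell t)).ρ
      ((X.sub (X.A \ X.cell t)).ρ s)) ∈ (X.sub (X.A \ X.cell t)).A := by
    exact hR.A_rho _ (hR.A_rho _ (hR.A_rho _ (by rw [hRA]; exact hsR)))
  have h5 := hR.P_sub_cell_le h4 hD.ha
  have h6 : (X.sub (X.A \ X.cell t)).cell ((X.sub (X.A \ X.cell t)).ρ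
      ((X.sub (X.A \ X.cell t)).ρ ((X.sub (X.A \ X.cell t)).ρ s))) =
      (X.sub (X.A \ X.cell t)).cell s :=
    hR.cell_eq (mem_cell.2 (Or.inr (Or.inr (Or.inr rfl))))
  rw [h6] at h5
  omega

/-- **Section 4.** -/
theorem Min.dup (hX : X.Min) {s : S} (hs : X.g s ≠ s)
    (h : X.lab (X.ρ (X.ρ (X.ρ s))) = X.lab (X.ρ (X.ρ (X.g s)))) :
    X.g (X.ρ (X.ρ (X.ρ s))) = X.ρ (X.ρ (X.ρ s)) ∧ X.g (X.ρ (X.g s)) = X.ρ (X.g s) := by
  have hG := hX.good
  have hpf := hX.pf
  have hsA := hG.A_g s hs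
  have r4 := hG.rho4
  have hgs : X.g (X.g s) = s := X.inv s
  have hgne : X.g (X.g s) ≠ X.g s := by rw [hgs]; exact hs.symm
  have hgA : X.g s ∈ X.A := hG.g_mem hs
  have hgK : X.g s ∉ X.cell s := hG.g_notMem_cell (self_mem_cell s) hs
  set a := X.ρ (X.ρ (X.ρ s)) with ha
  set b := X.ρ (X.g s) with hb
  have haA : a ∈ X.A := hG.A_rho _ (hG.A_rho _ (hG.A_rho _ hsA))
  have hbA : b ∈ X.A := hG.A_rho _ hgA
  have ra : X.ρ a = s := r4 s
  have rb3 : X.ρ (X.ρ (X.ρ b)) = X.g s := r4 (X.g s)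
  have caK : a ∈ X.cell s := mem_cell.2 (Or.inr (Or.inr (Or.inr rfl)))
  have lb : X.lab b = X.lab s := hG.lab_g' hs
  have lrb : X.lab (X.ρ b) = X.lab a := h.symm
  have ts : X.turn s b := ⟨hs, rfl⟩
  have c_sb : SameCycle (X.ρ * X.g) s b := ⟨1, by rw [zpow_one, Perm.mul_apply]⟩
  have bK : b ∉ X.cell s := fun h1 => hgK (hG.mem_cell_rho.1 h1)
  have nab : a ≠ b := fun h1 => bK (h1 ▸ caK)
  have nsb : s ≠ b := fun h1 => hG.g_ne_rho (X.g s) (by rw [hgs]; exact h1)
  have nsa : s ≠ a := fun h1 => hG.rho3 s h1.symm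
  by_cases h1 : X.g a = a <;> by_cases h2 : X.g b = b
  · exact ⟨h1, h2⟩
  · -- `b` is glued, `a` is free
    exfalso
    have c_as : SameCycle (X.ρ * X.g) a s := ⟨1, by rw [zpow_one, Perm.mul_apply, h1, ra]⟩
    have lgb : X.lab (X.g b) = X.lab a := by rw [hG.lab_g b h2, lrb]
    have c1 : SameCycle (X.ρ * X.g) a (X.g b) :=
      hG.cyc_of_lab hpf haA (hG.g_mem h2) lgb.symm
    have hbr : SameCycle (X.ρ * X.g) b (X.g b) := (c_sb.symm.trans c_as.symm).trans c1
    have hL : X.Leaf (X.g b) := by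
      rcases hX.bridge h2 hbr with h3 | h3
      · exact absurd (by have h4 := h3.2.2.2; rwa [rb3] at h4) hgne
      · exact h3
    have gt : X.g (X.g b) = b := X.inv b
    have cb : X.ρ (X.g b) ∈ X.cell (X.g b) := mem_cell.2 (Or.inr (Or.inl rfl))
    have lrt : X.lab (X.ρ (X.g b)) = X.lab s := by rw [hG.lab_g' h2, lb]
    have hrtA : X.ρ (X.g b) ∈ X.A := hG.A_rho _ (hG.g_mem h2)
    have hAt0 : X.At (X.ρ (X.g b)) 0 (X.ρ (X.g b)) := at_zero.2 rfl
    have hAt1 : X.At (X.ρ (X.g b)) 1 b := at_succ.2 ⟨h2, hAt0⟩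
    have hAt2 : X.At (X.ρ (X.g b)) 2 s := at_succ.2 ⟨hs, hAt1⟩
    -- the fan of `w`
    have hw : ∀ x ∈ X.A, X.lab x = X.lab s → x = s ∨ x = b ∨ x ∈ X.cell (X.g b) := by
      intro x hx hl
      obtain ⟨i, hi, hAt⟩ := hG.at_le hpf hL.2.1 hrtA hAt2 h1 hx (by rw [hl, lrt])
      have hi3 : i = 0 ∨ i = 1 ∨ i = 2 := by omega
      rcases hi3 with rfl | rfl | rfl
      · right; right
        rw [at_zero.1 hAt]
        exact cb
      · right; left
        exact at_inj hAt hAt1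
      · left
        exact at_inj hAt hAt2
    refine hX.dup_leaf hL hs h ?_ ?_ (Or.inl h1) (Or.inr (self_mem_cell _)) hw
      ⟨_, cb, lrt⟩ ⟨_, self_mem_cell _, lgb⟩
    · intro h3
      have h4 : s ≠ X.g b := fun h5 => by
        have h6 : X.g s = b := by rw [h5, gt]
        exact hG.rho1 b (by rw [← h6, ← hb, h6])
      exact hs (hL.free h3 h4)
    · intro h3
      have h4 : X.g s ≠ X.g b := fun h5 => nsb (X.g.injective h5)
      exact hgne (hL.free h3 h4)
  · -- `a` is glued, `b` is free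
    exfalso
    have c_br : SameCycle (X.ρ * X.g) b (X.ρ b) := ⟨1, by rw [zpow_one, Perm.mul_apply, h2]⟩
    have lga : X.lab (X.g a) = X.lab s := by rw [hG.lab_g a h1, ra]
    have c1 : SameCycle (X.ρ * X.g) s (X.g a) :=
      hG.cyc_of_lab hpf hsA (hG.g_mem h1) lga.symm
    have c2 : SameCycle (X.ρ * X.g) (X.ρ b) a :=
      hG.cyc_of_lab hpf (hG.A_rho _ hbA) haA lrb
    have hbr : SameCycle (X.ρ * X.g) a (X.g a) :=
      ((c2.symm.trans c_br.symm).trans c_sb.symm).trans c1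
    have hL : X.Leaf (X.g a) := by
      rcases hX.bridge h1 hbr with h3 | h3
      · exact absurd (by have h4 := h3.2.1; rwa [ra] at h4) hs
      · exact h3
    have gt : X.g (X.g a) = a := X.inv a
    have lrt : X.lab (X.ρ (X.g a)) = X.lab a := hG.lab_g' h1
    have cr : X.ρ (X.g a) ∈ X.cell (X.g a) := mem_cell.2 (Or.inr (Or.inl rfl))
    have hAt0 : X.At b 0 b := at_zero.2 rfl
    have hAt1 : X.At b 1 s := at_succ.2 ⟨hs, hAt0⟩
    have hAt2 : X.At b 2 (X.g a) := at_succ.2 ⟨by rw [gt]; exact fun h3 => h1 h3.symm, by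
      rw [gt, ra]; exact hAt1⟩
    have hw : ∀ x ∈ X.A, X.lab x = X.lab s → x = s ∨ x = b ∨ x ∈ X.cell (X.g a) := by
      intro x hx hl
      obtain ⟨i, hi, hAt⟩ := hG.at_le hpf h2 hbA hAt2 hL.2.2.2 hx (by rw [hl, lb])
      have hi3 : i = 0 ∨ i = 1 ∨ i = 2 := by omega
      rcases hi3 with rfl | rfl | rfl
      · right; left
        exact at_zero.1 hAt
      · left
        exact at_inj hAt hAt1
      · right; right
        rw [at_inj hAt hAt2]
        exact self_mem_cell _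
    refine hX.dup_leaf hL hs h ?_ ?_ (Or.inr (self_mem_cell _)) (Or.inl h2) hw
      ⟨_, self_mem_cell _, lga⟩ ⟨_, cr, lrt⟩
    · intro h3
      have h4 : s ≠ X.g a := fun h5 => hgK (by
        have h6 : X.g s = a := by rw [h5, gt]
        rw [h6]; exact caK)
      exact hs (hL.free h3 h4)
    · intro h3
      have h4 : X.g s ≠ X.g a := fun h5 => nsa (X.g.injective h5)
      exact hgne (hL.free h3 h4)
  · -- both are glued
    exfalso
    have ggb : X.g (X.g b) = b := X.inv b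
    have gga : X.g (X.g a) = a := X.inv a
    have lga : X.lab (X.g a) = X.lab s := by rw [hG.lab_g a h1, ra]
    have lgb : X.lab (X.g b) = X.lab a := by rw [hG.lab_g b h2, lrb]
    have nb : X.g b ≠ a := by
      intro h3
      have h4 : X.turn b s := ⟨h2, by rw [h3, ra]⟩
      exact hG.no_closed ((Relation.TransGen.single ts).tail h4)
    obtain ⟨z, hTL, halt, hsl, hnz, hnr⟩ := hX.dg (s := a) (t := X.g b) h1
      (by rw [ggb]; exact fun h3 => h2 h3.symm) nb (fun h3 => nab (X.g.injective h3).symm)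
      lgb.symm (by rw [ra, hG.lab_g' h2, lb])
    rcases halt with ⟨h3, h4⟩ | ⟨h3, h4⟩ | ⟨h3, h4⟩ | ⟨h3, h4⟩
    · rw [h3, ra, ggb] at h4
      exact nsb h4
    · -- a closed fan
      have t1 : X.turn (X.g a) s := ⟨by rw [gga]; exact fun h5 => h1 h5.symm, by rw [gga, ra]⟩
      have t2 : X.turn b (X.g a) := ⟨h2, by rw [← h3, h4]⟩
      exact hG.no_closed (((Relation.TransGen.single t1).tail ts).tail t2)
    · -- the main case
      obtain ⟨z1, z2, z3, z4, z5, z6, -⟩ := hTL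
      have gz : X.g z = a := by rw [h3, gga]
      have grz : X.g (X.ρ z) = b := by rw [h4, ggb]
      have cz0 := self_mem_cell (X := X) z
      have cz1 : X.ρ z ∈ X.cell z := mem_cell.2 (Or.inr (Or.inl rfl))
      have cz2 : X.ρ (X.ρ z) ∈ X.cell z := mem_cell.2 (Or.inr (Or.inr (Or.inl rfl)))
      have hzK : z ∉ X.cell s := by rw [h3]; exact hG.g_notMem_cell caK h1
      have hsz : s ∉ X.cell z := by
        intro h5
        exact hzK (by rw [hG.cell_eq h5]; exact cz0)
      have hgz : X.g s ∉ X.cell z := by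
        intro h5
        rcases mem_cell.1 h5 with h6 | h6 | h6 | h6
        · exact nsa (X.g.injective (by rw [h6, h3]))
        · exact nsb (X.g.injective (by rw [h6, h4]))
        · exact hgne (by rw [h6]; exact z4)
        · exact hgne (by rw [h6]; exact z5)
      have lz : X.lab z = X.lab s := by rw [h3]; exact lga
      have lrz : X.lab (X.ρ z) = X.lab a := by rw [h4]; exact lgb
      set J := X.sub (X.A \ X.cell z) with hJdef
      have hJA : J.A = X.A \ X.cell z := inter_eq_right.2 sdiff_subset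
      have hJs : J.g s = X.g s := by
        rw [hJdef, sub_g, if_pos ⟨mem_sdiff.2 ⟨hsA, hsz⟩, mem_sdiff.2 ⟨hgA, hgz⟩⟩]
      have fix : ∀ x, X.g x ∈ X.cell z → J.g x = x := by
        intro x h5
        rw [hJdef, sub_g, if_neg]
        exact fun h6 => (mem_sdiff.1 h6.2).2 h5
      -- the fan of `w`
      have hz2A : X.ρ (X.ρ z) ∈ X.A := hG.A_rho _ (hG.A_rho _ z1)
      have hAt0 : X.At (X.ρ (X.ρ z)) 0 (X.ρ (X.ρ z)) := at_zero.2 rfl
      have hAt1 : X.At (X.ρ (X.ρ z)) 1 b := at_succ.2 ⟨h2, by rw [← h4]; exact hAt0⟩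
      have hAt2 : X.At (X.ρ (X.ρ z)) 2 s := at_succ.2 ⟨hs, hAt1⟩
      have hAt3 : X.At (X.ρ (X.ρ z)) 3 z := at_succ.2 ⟨z2, by rw [gz, ra]; exact hAt2⟩
      have hD : J.Dup s := by
        have ea : X.g a ∈ X.cell z := by rw [← h3]; exact cz0
        have eb : X.g b ∈ X.cell z := by rw [← h4]; exact cz1
        refine ⟨by rw [hJs]; exact hs, fix a ea, ?_, ?_, ?_⟩
        · rw [hJs]; exact fix b eb
        · rw [hJs]; exact h
        · intro x hx hl
          rw [hJA, mem_sdiff] at hx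
          rw [hJs]
          obtain ⟨i, hi, hAt⟩ := hG.at_le hpf z4 hz2A hAt3 z5 hx.1
            ((show X.lab x = X.lab s from hl).trans (by rw [z6, lz]))
          have hi3 : i = 0 ∨ i = 1 ∨ i = 2 ∨ i = 3 := by omega
          rcases hi3 with rfl | rfl | rfl | rfl
          · exact absurd (by rw [at_zero.1 hAt]; exact cz2) hx.2
          · right
            exact at_inj hAt hAt1
          · left
            exact at_inj hAt hAt2
          · exact absurd (by rw [at_inj hAt hAt3]; exact cz0) hx.2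
      have hP : J.P ≤ 4 * (J.tau : ℤ) + 2 := by
        unfold sl at hsl
        omega
      exact Dup.four hG hX.ih le_rfl hD h3.symm (by rw [h3]; exact h1) h4.symm
        (by rw [← ha, ← lrz]; exact hnr) (by rw [← lz]; exact hnz) hP
    · -- the two cells are different
      rw [h3, ggb] at h4
      exact bK (hG.mem_cell_rho.1 (by rw [h4]; exact caK))

end Cx

end Pool.Agent.Lib.MP06c549.Z
end
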