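import Pool.Agent.Lib.MP_06c549_co.Z.Squ
import Pool.Agent.Lib.MP_06c549_co.Z.Walk

section
/-!
# MP_06c549_co, Z: module COUNT

Hypotheses on a minimal counterexample `X`: pinch free (`PF`), no separating star
(`(X.del {v}).c ≤ 1`), every cell with two equal opposite corners is a cap (`Cap`).
Conclusions (`Min.count`): for every vertex `v` the complex `X.del {v}` is connected and tight,
`τ` drops by exactly one, `P` by exactly three; no cell has equal opposite corners; two cells with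
a common gate have no further common vertex; `X.u v = 2`.
-/
set_option autoImplicit false
set_option linter.unusedSectionVars false

namespace Pool.Agent.Lib.MP06c549.Z

open Equiv Equiv.Perm Finset

variable {S : Type} [Fintype S] [DecidableEq S]

namespace Cx

variable {X : Cx S}

/-- the labels of the cell of `s` -/
def lc (X : Cx S) (s : S) : Finset ℕ := (X.cell s).image X.lab

lemma mem_lc {s : S} {v : ℕ} : v ∈ X.lc s ↔ X.lab s = v ∨ X.lab (X.ρ s) = v ∨
    X.lab (X.ρ (X.ρ s)) = v ∨ X.lab (X.ρ (X.ρ (X.ρ s))) = v := by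
  unfold lc
  rw [mem_image]
  constructor
  · rintro ⟨t, ht, rfl⟩
    rcases mem_cell.1 ht with rfl | rfl | rfl | rfl
    · exact Or.inl rfl
    · exact Or.inr (Or.inl rfl)
    · exact Or.inr (Or.inr (Or.inl rfl))
    · exact Or.inr (Or.inr (Or.inr rfl))
  · rintro (h | h | h | h)
    · exact ⟨s, mem_cell.2 (Or.inl rfl), h⟩
    · exact ⟨_, mem_cell.2 (Or.inr (Or.inl rfl)), h⟩
    · exact ⟨_, mem_cell.2 (Or.inr (Or.inr (Or.inl rfl))), h⟩
    · exact ⟨_, mem_cell.2 (Or.inr (Or.inr (Or.inr rfl))), h⟩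

lemma mem_star_iff {s : S} {v : ℕ} : s ∈ X.star {v} ↔ s ∈ X.A ∧ v ∈ X.lc s := by
  rw [mem_star, mem_lc]
  simp only [mem_singleton]

lemma Good.lc_sub (hX : X.Good) {s : S} (hs : s ∈ X.A) : X.lc s ⊆ X.labs := by
  intro v hv
  obtain ⟨t, ht, rfl⟩ := mem_image.1 hv
  exact mem_labs (cell_sub hX.cl_A hs ht)

/-- a cap: two consecutive glued sides `s`, `ρ s`, the other sides are free, and the corner
between them is the only one with its label -/
def Cap (X : Cx S) (s : S) : Prop :=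
  X.g s ≠ s ∧ X.g (X.ρ s) ≠ X.ρ s ∧ X.g (X.ρ (X.ρ s)) = X.ρ (X.ρ s) ∧
    X.g (X.ρ (X.ρ (X.ρ s))) = X.ρ (X.ρ (X.ρ s)) ∧
    ∀ t ∈ X.A, X.lab t = X.lab (X.ρ (X.ρ (X.ρ s))) → t = X.ρ (X.ρ (X.ρ s))

/-- the corner between the free sides of a cap with equal neighbours -/
def Tip (X : Cx S) (s : S) : Prop := X.lab (X.ρ s) = X.lab (X.ρ (X.ρ (X.ρ s))) ∧ X.Cap (X.ρ s)

section count

variable (hX : X.Good)
include hX

lemma Good.sum_star (p : S → Prop) [DecidablePred p] :
    ∑ v ∈ X.labs, ((X.star {v}).filter p).card = ∑ s ∈ X.A.filter p, (X.lc s).card := by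
  have h1 : ∀ v ∈ X.labs, ((X.star {v}).filter p).card =
      ∑ s ∈ X.A.filter p, if v ∈ X.lc s then 1 else 0 := by
    intro v _
    rw [← card_filter]
    congr 1
    ext s
    rw [mem_filter, mem_filter, mem_filter, mem_star_iff]
    tauto
  rw [sum_congr rfl h1, sum_comm]
  refine sum_congr rfl fun s hs => ?_
  rw [← card_filter]
  congr 1
  ext v
  rw [mem_filter]
  exact ⟨fun h => h.2, fun h => ⟨hX.lc_sub (mem_filter.1 hs).1 h, h⟩⟩

lemma Good.sum_star_gate :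
    ∑ v ∈ X.labs, ((X.star {v}).filter fun s => X.g s ≠ s ∧ X.g s ∈ X.star {v}).card =
      ∑ s ∈ X.g.support, (X.lc s ∩ X.lc (X.g s)).card := by
  have h1 : ∀ v ∈ X.labs,
      ((X.star {v}).filter fun s => X.g s ≠ s ∧ X.g s ∈ X.star {v}).card =
      ∑ s ∈ X.g.support, if v ∈ X.lc s ∩ X.lc (X.g s) then 1 else 0 := by
    intro v _
    rw [← card_filter]
    congr 1
    ext s
    rw [mem_filter, mem_filter, mem_star_iff, mem_star_iff, Perm.mem_support, mem_inter]
    constructor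
    · rintro ⟨⟨h1, h2⟩, h3, h4, h5⟩
      exact ⟨h3, h2, h5⟩
    · rintro ⟨h3, h2, h5⟩
      exact ⟨⟨hX.A_g s h3, h2⟩, h3, hX.g_mem h3, h5⟩
  rw [sum_congr rfl h1, sum_comm]
  refine sum_congr rfl fun s hs => ?_
  rw [← card_filter]
  congr 1
  ext v
  rw [mem_filter]
  exact ⟨fun h => h.2, fun h => ⟨hX.lc_sub (hX.supp_sub hs) (mem_inter.1 h).1, h⟩⟩

lemma Good.del_P (v : ℕ) : 4 * (X.P - (X.del {v}).P) =
    4 * (((X.star {v}).filter fun s => X.g s = s).card : ℤ) +
      2 * (((X.star {v}).filter fun s => X.g s ≠ s ∧ X.g s ∈ X.star {v}).card : ℤ) -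
      ((X.star {v}).filter fun _ => True).card + 4 * (X.c - (X.del {v}).c) := by
  rw [filter_true]
  exact hX.P_sub_sdiff (hX.cl_star {v}) (star_sub_A _)

/-- the sum of the losses over all vertices -/
lemma Good.sum_del_P : ∑ v ∈ X.labs, 4 * (X.P - (X.del {v}).P) =
    4 * ∑ s ∈ X.free, ((X.lc s).card : ℤ) +
      2 * ∑ s ∈ X.g.support, ((X.lc s ∩ X.lc (X.g s)).card : ℤ) - ∑ s ∈ X.A, ((X.lc s).card : ℤ) +
      4 * ∑ v ∈ X.labs, ((X.c : ℤ) - (X.del {v}).c) := by
  rw [sum_congr rfl fun v _ => hX.del_P v, sum_add_distrib, sum_sub_distrib, sum_add_distrib,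
    ← mul_sum, ← mul_sum, ← mul_sum]
  have h1 := hX.sum_star (fun s => X.g s = s)
  have h2 := hX.sum_star_gate
  have h3 := hX.sum_star (fun _ => True)
  rw [filter_true] at h3
  have h1' : (∑ v ∈ X.labs, (((X.star {v}).filter fun s => X.g s = s).card : ℤ)) =
    ∑ s ∈ X.free, ((X.lc s).card : ℤ) := by exact_mod_cast h1
  have h2' : (∑ v ∈ X.labs,
      (((X.star {v}).filter fun s => X.g s ≠ s ∧ X.g s ∈ X.star {v}).card : ℤ)) =
    ∑ s ∈ X.g.support, ((X.lc s ∩ X.lc (X.g s)).card : ℤ) := by exact_mod_cast h2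
  have h3' : (∑ v ∈ X.labs, (((X.star {v}).filter fun _ => True).card : ℤ)) =
    ∑ s ∈ X.A, ((X.lc s).card : ℤ) := by exact_mod_cast h3
  rw [h1', h2', h3']

lemma Good.card_inter {s : S} (h : X.g s ≠ s) : 2 ≤ (X.lc s ∩ X.lc (X.g s)).card := by
  have h1 : ({X.lab s, X.lab (X.ρ s)} : Finset ℕ) ⊆ X.lc s ∩ X.lc (X.g s) := by
    intro v hv
    rw [mem_insert, mem_singleton] at hv
    rw [mem_inter, mem_lc, mem_lc]
    have h2 := hX.lab_g s h
    have h3 := hX.lab_g' h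
    rcases hv with rfl | rfl
    · exact ⟨Or.inl rfl, Or.inr (Or.inl h3)⟩
    · exact ⟨Or.inr (Or.inl rfl), Or.inl h2⟩
  have h2 : ({X.lab s, X.lab (X.ρ s)} : Finset ℕ).card = 2 := by
    refine card_pair fun h3 => ?_
    have := hX.par s (hX.A_g s h)
    omega
  rw [← h2]
  exact card_le_card h1

/-- no repeated corner: four labels -/
lemma Good.card_lc {s : S} (hs : s ∈ X.A) (h1 : X.lab (X.ρ (X.ρ s)) ≠ X.lab s)
    (h2 : X.lab (X.ρ (X.ρ (X.ρ s))) ≠ X.lab (X.ρ s)) : (X.lc s).card = 4 := by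
  have e0 := hX.par s hs
  have e1 := hX.par _ (hX.A_rho s hs)
  have e2 := hX.par _ (hX.A_rho _ (hX.A_rho s hs))
  have e3 : X.lc s = {X.lab s, X.lab (X.ρ s), X.lab (X.ρ (X.ρ s)), X.lab (X.ρ (X.ρ (X.ρ s)))} := by
    ext v
    rw [mem_lc]
    simp only [mem_insert, mem_singleton]
    constructor
    · rintro (h | h | h | h)
      · exact Or.inl h.symm
      · exact Or.inr (Or.inl h.symm)
      · exact Or.inr (Or.inr (Or.inl h.symm))
      · exact Or.inr (Or.inr (Or.inr h.symm))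
    · rintro (h | h | h | h)
      · exact Or.inl h.symm
      · exact Or.inr (Or.inl h.symm)
      · exact Or.inr (Or.inr (Or.inl h.symm))
      · exact Or.inr (Or.inr (Or.inr h.symm))
  rw [e3, card_insert_of_notMem, card_insert_of_notMem, card_insert_of_notMem, card_singleton]
  · rw [mem_singleton]; omega
  · simp only [mem_insert, mem_singleton]; omega
  · simp only [mem_insert, mem_singleton]; omega

/-- one repeated corner: three labels -/
lemma Good.card_lc3 {s : S} (hs : s ∈ X.A) (h1 : X.lab (X.ρ (X.ρ s)) = X.lab s)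
    (h2 : X.lab (X.ρ (X.ρ (X.ρ s))) ≠ X.lab (X.ρ s)) : (X.lc s).card = 3 := by
  have e0 := hX.par s hs
  have e1 := hX.par _ (hX.A_rho s hs)
  have e2 := hX.par _ (hX.A_rho _ (hX.A_rho s hs))
  have e3 : X.lc s = {X.lab s, X.lab (X.ρ s), X.lab (X.ρ (X.ρ (X.ρ s)))} := by
    ext v
    rw [mem_lc, h1]
    simp only [mem_insert, mem_singleton]
    constructor
    · rintro (h | h | h | h)
      · exact Or.inl h.symm
      · exact Or.inr (Or.inl h.symm)
      · exact Or.inl h.symm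
      · exact Or.inr (Or.inr h.symm)
    · rintro (h | h | h)
      · exact Or.inl h.symm
      · exact Or.inr (Or.inl h.symm)
      · exact Or.inr (Or.inr (Or.inr h.symm))
  rw [e3, card_insert_of_notMem, card_insert_of_notMem, card_singleton]
  · rw [mem_singleton]; omega
  · simp only [mem_insert, mem_singleton]; omega

lemma Good.lc_eq {s t : S} (h : t ∈ X.cell s) : X.lc t = X.lc s := by
  unfold lc
  rw [hX.cell_eq h]

end count

section tips

variable (hX : X.Good)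
include hX

lemma Good.tip_free {s : S} (h : X.Tip s) : X.g s = s := by
  have := h.2.2.2.2.1
  rwa [hX.rho4] at this

omit hX in
lemma tip_rho {s : S} (h : X.Tip s) : X.g (X.ρ s) ≠ X.ρ s := h.2.1

omit hX in
lemma tip_rho2 {s : S} (h : X.Tip s) : X.g (X.ρ (X.ρ s)) ≠ X.ρ (X.ρ s) := h.2.2.1

omit hX in
lemma tip_rho3 {s : S} (h : X.Tip s) : X.g (X.ρ (X.ρ (X.ρ s))) = X.ρ (X.ρ (X.ρ s)) := h.2.2.2.1

lemma Good.tip_uniq {s t : S} (h : X.Tip s) (ht : t ∈ X.A) (hst : X.lab t = X.lab s) : t = s := by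
  have := h.2.2.2.2.2 t ht
  rw [hX.rho4] at this
  exact this hst

open Classical in
/-- indicator of the tips -/
noncomputable def tip (X : Cx S) (s : S) : ℤ := if X.Tip s then 1 else 0

omit hX in
lemma tip_of {s : S} (h : X.Tip s) : X.tip s = 1 := if_pos h

omit hX in
lemma tip_of_not {s : S} (h : ¬ X.Tip s) : X.tip s = 0 := if_neg h

lemma Good.tip_one {s : S} (h : X.Tip s) : X.tip (X.ρ s) = 0 ∧ X.tip (X.ρ (X.ρ s)) = 0 ∧
    X.tip (X.ρ (X.ρ (X.ρ s))) = 0 := by
  refine ⟨tip_of_not fun h1 => tip_rho h (hX.tip_free h1),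
    tip_of_not fun h1 => tip_rho2 h (hX.tip_free h1), tip_of_not fun h1 => ?_⟩
  have h2 := tip_rho h1
  rw [hX.rho4] at h2
  exact h2 (hX.tip_free h)

/-- the four corners of a cell and the tips -/
lemma Good.tip_cases (s : S) :
    (X.Tip s ∧ X.tip s + X.tip (X.ρ s) + X.tip (X.ρ (X.ρ s)) + X.tip (X.ρ (X.ρ (X.ρ s))) = 1 ∧
      X.tip s + X.tip (X.ρ s) = 1) ∨
    (X.Tip (X.ρ s) ∧
      X.tip s + X.tip (X.ρ s) + X.tip (X.ρ (X.ρ s)) + X.tip (X.ρ (X.ρ (X.ρ s))) = 1 ∧
      X.tip s + X.tip (X.ρ s) = 1) ∨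
    (X.Tip (X.ρ (X.ρ s)) ∧
      X.tip s + X.tip (X.ρ s) + X.tip (X.ρ (X.ρ s)) + X.tip (X.ρ (X.ρ (X.ρ s))) = 1 ∧
      X.tip s + X.tip (X.ρ s) = 0) ∨
    (X.Tip (X.ρ (X.ρ (X.ρ s))) ∧
      X.tip s + X.tip (X.ρ s) + X.tip (X.ρ (X.ρ s)) + X.tip (X.ρ (X.ρ (X.ρ s))) = 1 ∧
      X.tip s + X.tip (X.ρ s) = 0) ∨
    (¬ X.Tip s ∧ ¬ X.Tip (X.ρ s) ∧ ¬ X.Tip (X.ρ (X.ρ s)) ∧ ¬ X.Tip (X.ρ (X.ρ (X.ρ s))) ∧
      X.tip s + X.tip (X.ρ s) + X.tip (X.ρ (X.ρ s)) + X.tip (X.ρ (X.ρ (X.ρ s))) = 0 ∧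
      X.tip s + X.tip (X.ρ s) = 0) := by
  by_cases h0 : X.Tip s
  · left
    obtain ⟨e1, e2, e3⟩ := hX.tip_one h0
    rw [e1, e2, e3, tip_of h0]
    exact ⟨h0, rfl, rfl⟩
  by_cases h1 : X.Tip (X.ρ s)
  · right; left
    obtain ⟨e1, e2, e3⟩ := hX.tip_one h1
    rw [hX.rho4] at e3
    rw [e1, e2, e3, tip_of h1]
    exact ⟨h1, rfl, rfl⟩
  by_cases h2 : X.Tip (X.ρ (X.ρ s))
  · right; right; left
    obtain ⟨e1, e2, e3⟩ := hX.tip_one h2
    rw [hX.rho4] at e2 e3
    rw [e1, e2, e3, tip_of h2]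
    exact ⟨h2, rfl, rfl⟩
  by_cases h3 : X.Tip (X.ρ (X.ρ (X.ρ s)))
  · right; right; right; left
    obtain ⟨e1, e2, e3⟩ := hX.tip_one h3
    rw [hX.rho4] at e1 e2 e3
    rw [e1, e2, e3, tip_of h3]
    exact ⟨h3, rfl, rfl⟩
  right; right; right; right
  rw [tip_of_not h0, tip_of_not h1, tip_of_not h2, tip_of_not h3]
  exact ⟨h0, h1, h2, h3, rfl, rfl⟩

lemma Good.sum_rho (f : S → ℤ) : ∑ s ∈ X.A, f (X.ρ s) = ∑ s ∈ X.A, f s :=
  sum_equiv X.ρ (fun _ => hX.A_rho_iff.symm) fun _ _ => rfl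

/-- the number of tips -/
noncomputable def tips (X : Cx S) : ℤ := ∑ s ∈ X.A, X.tip s

lemma Good.sum_tip1 : ∑ s ∈ X.A, X.tip (X.ρ s) = X.tips := hX.sum_rho X.tip

lemma Good.sum_tip2 : ∑ s ∈ X.A, X.tip (X.ρ (X.ρ s)) = X.tips :=
  (hX.sum_rho fun s => X.tip (X.ρ s)).trans hX.sum_tip1

lemma Good.sum_tip3 : ∑ s ∈ X.A, X.tip (X.ρ (X.ρ (X.ρ s))) = X.tips :=
  (hX.sum_rho fun s => X.tip (X.ρ (X.ρ s))).trans hX.sum_tip2

/-- a repeated corner belongs to a cap -/
def AllCap (X : Cx S) : Prop :=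
  ∀ s ∈ X.A, X.lab (X.ρ (X.ρ s)) = X.lab s → X.Cap s ∨ X.Cap (X.ρ (X.ρ s))

variable (hcap : X.AllCap)
include hcap

lemma Good.card_lc_tip {s : S} (hs : s ∈ X.A) : ((X.lc s).card : ℤ) = 4 - (X.tip s +
    X.tip (X.ρ s) + X.tip (X.ρ (X.ρ s)) + X.tip (X.ρ (X.ρ (X.ρ s)))) := by
  have hs1 := hX.A_rho s hs
  have hs2 := hX.A_rho _ hs1
  have hs3 := hX.A_rho _ hs2
  have key : ∀ t ∈ X.A, X.Tip t → ((X.lc t).card : ℤ) = 3 := by
    intro t ht h
    have ht1 := hX.A_rho t ht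
    have e : X.lc t = X.lc (X.ρ t) := (hX.lc_eq (mem_cell.2 (Or.inr (Or.inl rfl)))).symm
    rw [e, hX.card_lc3 ht1 h.1.symm]
    · rfl
    · intro h1
      have h2 := hX.tip_uniq h (hX.A_rho _ ht1) (by rw [← h1, hX.rho4])
      exact hX.rho2 t h2
  rcases hX.tip_cases s with ⟨h, h1, -⟩ | ⟨h, h1, -⟩ | ⟨h, h1, -⟩ | ⟨h, h1, -⟩ |
    ⟨n0, n1, n2, n3, h1, -⟩
  · rw [h1, key s hs h]; rfl
  · rw [h1, ← hX.lc_eq (s := s) (t := X.ρ s) (mem_cell.2 (by tauto)), key _ hs1 h]; rfl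
  · rw [h1, ← hX.lc_eq (s := s) (t := X.ρ (X.ρ s)) (mem_cell.2 (by tauto)), key _ hs2 h]; rfl
  · rw [h1, ← hX.lc_eq (s := s) (t := X.ρ (X.ρ (X.ρ s))) (mem_cell.2 (by tauto)), key _ hs3 h]
    rfl
  · rw [h1, hX.card_lc hs]
    · rfl
    · intro h
      rcases hcap s hs h with h2 | h2
      · exact n3 ⟨by rw [hX.rho4]; exact h.symm, by rw [hX.rho4]; exact h2⟩
      · exact n1 ⟨by rw [hX.rho4]; exact h, h2⟩
    · intro h
      rcases hcap _ hs1 h with h2 | h2
      · exact n0 ⟨h.symm, h2⟩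
      · exact n2 ⟨by rw [hX.rho4]; exact h, h2⟩

lemma Good.sum_lc : ∑ s ∈ X.A, ((X.lc s).card : ℤ) = 4 * X.A.card - 4 * X.tips := by
  rw [sum_congr rfl fun s hs => hX.card_lc_tip hcap hs, sum_sub_distrib, sum_add_distrib,
    sum_add_distrib, sum_add_distrib, hX.sum_tip1, hX.sum_tip2, hX.sum_tip3]
  simp only [sum_const, nsmul_eq_mul]
  change _ - (X.tips + X.tips + X.tips + X.tips) = _
  ring

lemma Good.sum_lc_free : ∑ s ∈ X.free, ((X.lc s).card : ℤ) = 4 * X.free.card - 2 * X.tips := by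
  have h1 : ∑ s ∈ X.free, ((X.lc s).card : ℤ) = ∑ s ∈ X.A,
      ((if X.g s = s then (4 : ℤ) else 0) - (X.tip s + X.tip (X.ρ s))) := by
    unfold free
    rw [sum_filter]
    refine sum_congr rfl fun s hs => ?_
    rw [hX.card_lc_tip hcap hs]
    rcases hX.tip_cases s with ⟨h, h1, h2⟩ | ⟨h, h1, h2⟩ | ⟨h, h1, h2⟩ | ⟨h, h1, h2⟩ |
      ⟨n0, n1, n2, n3, h1, h2⟩
    · rw [h1, h2, if_pos (hX.tip_free h), if_pos (hX.tip_free h)]
    · have h3 := tip_rho3 h
      rw [hX.rho4] at h3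
      rw [h1, h2, if_pos h3, if_pos h3]
    · have h3 := tip_rho2 h
      rw [hX.rho4] at h3
      rw [h1, h2, if_neg h3, if_neg h3]; rfl
    · have h3 := tip_rho h
      rw [hX.rho4] at h3
      rw [h1, h2, if_neg h3, if_neg h3]; rfl
    · rw [h1, h2]
      split_ifs <;> rfl
  rw [h1, sum_sub_distrib, sum_add_distrib, hX.sum_tip1, ← sum_filter, sum_const, nsmul_eq_mul]
  change ((X.free.card : ℤ)) * 4 - (X.tips + X.tips) = _
  ring

end tips

section main

lemma Good.card_labs (hX : X.Good) (hpf : X.PF) : X.labs.card = X.free.card := by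
  have h1 : X.labs = X.free.image X.lab := by
    ext v
    rw [mem_image]
    constructor
    · intro hv
      obtain ⟨s, hs, rfl⟩ := mem_image.1 hv
      obtain ⟨t, h1, h2, -⟩ := hX.exists_free hs
      exact ⟨t, h1, h2⟩
    · rintro ⟨t, h1, rfl⟩
      exact mem_labs (mem_free.1 h1).1
  rw [h1, card_image_of_injOn]
  intro s hs t ht hst
  obtain ⟨h2, h3⟩ := mem_free.1 (mem_coe.1 hs)
  obtain ⟨h4, h5⟩ := mem_free.1 (mem_coe.1 ht)
  exact hpf s h2 t h4 h3 h5 hst

lemma del_card_lt {v : ℕ} (hv : v ∈ X.labs) : (X.del {v}).A.card < X.A.card := by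
  obtain ⟨s, hs, rfl⟩ := mem_image.1 hv
  rw [del_A]
  refine card_lt_card ⟨sdiff_subset, fun h => (mem_sdiff.1 (h hs)).2 ?_⟩
  exact mem_star.2 ⟨hs, Or.inl (by simp)⟩

lemma Min.P_eq' (hX : X.Min) (hpf : X.PF) : X.P + 1 = 4 * X.tau := by
  obtain ⟨s, hs⟩ := hX.exists_gate hpf
  exact hX.P_eq hs

lemma Min.loss_le (hX : X.Min) (hpf : X.PF) {v : ℕ} (hv : v ∈ X.labs) :
    X.P - (X.del {v}).P ≤ 3 := by
  have h1 := hX.ih S (X.del {v}) (hX.good.del {v}) (del_card_lt hv)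
  have h2 := hX.P_eq' hpf
  have h3 := X.tau_le_del {v}
  rw [card_singleton] at h3
  omega

lemma Good.star_tip (hX : X.Good) {s : S} (hs : s ∈ X.A) (h : X.Tip s) :
    X.star {X.lab s} = X.cell s := by
  ext t
  rw [mem_star_iff, mem_lc]
  constructor
  · rintro ⟨ht, h1 | h1 | h1 | h1⟩
    · rw [hX.tip_uniq h ht h1]
      exact self_mem_cell s
    · have h2 := hX.tip_uniq h (hX.A_rho t ht) h1
      refine hX.mem_cell_rho.1 ?_
      rw [h2]
      exact self_mem_cell s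
    · have h2 := hX.tip_uniq h (hX.A_rho _ (hX.A_rho t ht)) h1
      refine hX.mem_cell_rho.1 (hX.mem_cell_rho.1 ?_)
      rw [h2]
      exact self_mem_cell s
    · have h2 := hX.tip_uniq h (hX.A_rho _ (hX.A_rho _ (hX.A_rho t ht))) h1
      refine hX.mem_cell_rho.1 (hX.mem_cell_rho.1 (hX.mem_cell_rho.1 ?_))
      rw [h2]
      exact self_mem_cell s
  · intro ht
    refine ⟨cell_sub hX.cl_A hs ht, ?_⟩
    rcases mem_cell.1 ht with rfl | rfl | rfl | rfl
    · exact Or.inl rfl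
    · right; right; right; rw [hX.rho4]
    · right; right; left; rw [hX.rho4]
    · right; left; rw [hX.rho4]

lemma Min.loss_tip (hX : X.Min) {s : S} (hs : s ∈ X.A) (h : X.Tip s) :
    X.P - (X.del {X.lab s}).P ≤ 1 := by
  classical
  have h1 : X.del {X.lab s} = X.sub (X.A \ X.cell s) := by
    unfold del
    rw [hX.good.star_tip hs h]
  have h2 := hX.good.P_sub_cell hs
  have h3 : fr X s = 2 := by
    unfold fr
    have h4 : ((X.cell s).filter fun t => X.g t = t) = {s, X.ρ (X.ρ (X.ρ s))} := by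
      ext t
      rw [mem_filter, mem_insert, mem_singleton]
      constructor
      · rintro ⟨h5, h6⟩
        rcases mem_cell.1 h5 with rfl | rfl | rfl | rfl
        · exact Or.inl rfl
        · exact absurd h6 (tip_rho h)
        · exact absurd h6 (tip_rho2 h)
        · exact Or.inr rfl
      · rintro (rfl | rfl)
        · exact ⟨self_mem_cell _, hX.good.tip_free h⟩
        · exact ⟨mem_cell.2 (by tauto), tip_rho3 h⟩
    rw [h4]
    exact card_pair fun h5 => hX.good.rho3 s h5.symm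
  have h4 : 1 ≤ (X.sub (X.A \ X.cell s)).c := by
    refine nc_pos ⟨X.g (X.ρ s), ?_⟩
    have h5 : (X.sub (X.A \ X.cell s)).A = X.A \ X.cell s := inter_eq_right.2 sdiff_subset
    rw [h5]
    exact mem_sdiff.2 ⟨hX.good.g_mem (tip_rho h),
      hX.good.g_notMem_cell (mem_cell.2 (by tauto)) (tip_rho h)⟩
  have h5 := hX.c_eq
  rw [h1]
  omega

lemma tip_nonneg (s : S) : 0 ≤ X.tip s := by
  unfold tip
  split_ifs <;> norm_num

lemma Min.loss_le' (hX : X.Min) (hpf : X.PF) {v : ℕ} (hv : v ∈ X.labs) :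
    X.P - (X.del {v}).P ≤ 3 - 2 * ∑ s ∈ X.cor v, X.tip s := by
  by_cases h : ∃ s ∈ X.cor v, X.Tip s
  · obtain ⟨s, hs, hst⟩ := h
    obtain ⟨hsA, rfl⟩ := mem_cor.1 hs
    have h1 : X.cor (X.lab s) = {s} := by
      ext t
      rw [mem_cor, mem_singleton]
      exact ⟨fun h => hX.good.tip_uniq hst h.1 h.2, fun h => by rw [h]; exact ⟨hsA, rfl⟩⟩
    rw [h1, sum_singleton, tip_of hst]
    have := hX.loss_tip hsA hst
    omega
  · have h1 : ∑ s ∈ X.cor v, X.tip s = 0 :=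
      sum_eq_zero fun s hs => tip_of_not fun h2 => h ⟨s, hs, h2⟩
    rw [h1]
    have := hX.loss_le hpf hv
    omega

lemma sum_cor_tip (X : Cx S) : ∑ v ∈ X.labs, ∑ s ∈ X.cor v, X.tip s = X.tips := by
  unfold tips cor
  exact sum_fiberwise_of_maps_to (fun s hs => mem_labs hs) _

/-- what double counting gives -/
structure CountOut (X : Cx S) : Prop where
  ne : ∀ s ∈ X.A, X.lab (X.ρ (X.ρ s)) ≠ X.lab s
  loss : ∀ v ∈ X.labs, X.P - (X.del {v}).P = 3
  two : ∀ s, X.g s ≠ s → X.lc s ∩ X.lc (X.g s) = {X.lab s, X.lab (X.ρ s)}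
  conn : ∀ v ∈ X.labs, (X.del {v}).c = 1

theorem Min.countOut (hX : X.Min) (hpf : X.PF) (hstar : ∀ v ∈ X.labs, (X.del {v}).c ≤ 1)
    (hcap : X.AllCap) : X.CountOut := by
  have hG := hX.good
  have hc := hX.c_eq
  have h1 := hG.sum_del_P
  rw [hG.sum_lc hcap, hG.sum_lc_free hcap, ← mul_sum] at h1
  have h2 := hG.card_free
  have h3 := hG.card_labs hpf
  have hsup : ∀ s ∈ X.g.support, 0 ≤ ((X.lc s ∩ X.lc (X.g s)).card : ℤ) - 2 := by
    intro s hs
    have := hG.card_inter (Perm.mem_support.1 hs)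
    omega
  have hcc : ∀ v ∈ X.labs, 0 ≤ (X.c : ℤ) - (X.del {v}).c := by
    intro v hv
    have := hstar v hv
    omega
  have hll : ∀ v ∈ X.labs, 0 ≤ 3 - (X.P - (X.del {v}).P) := by
    intro v hv
    have := hX.loss_le hpf hv
    omega
  have a1 : ∑ s ∈ X.g.support, (((X.lc s ∩ X.lc (X.g s)).card : ℤ) - 2) =
      ∑ s ∈ X.g.support, ((X.lc s ∩ X.lc (X.g s)).card : ℤ) - 2 * X.g.support.card := by
    rw [sum_sub_distrib, sum_const, nsmul_eq_mul]
    ring
  have a2 : ∑ v ∈ X.labs, (3 - (X.P - (X.del {v}).P)) =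
      3 * X.labs.card - ∑ v ∈ X.labs, (X.P - (X.del {v}).P) := by
    rw [sum_sub_distrib, sum_const, nsmul_eq_mul]
    ring
  have a3 : 2 * X.tips ≤ ∑ v ∈ X.labs, (3 - (X.P - (X.del {v}).P)) := by
    rw [← sum_cor_tip X, mul_sum]
    refine sum_le_sum fun v hv => ?_
    have := hX.loss_le' hpf hv
    omega
  have b1 := sum_nonneg hsup
  have b2 := sum_nonneg hcc
  have b3 : 0 ≤ X.tips := sum_nonneg fun s _ => tip_nonneg s
  have h2' : (X.free.card : ℤ) + X.g.support.card = X.A.card := by exact_mod_cast h2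
  have h3' : (X.labs.card : ℤ) = X.free.card := by exact_mod_cast h3
  have c0 : X.tips = 0 := by linarith
  have c1 : ∑ s ∈ X.g.support, (((X.lc s ∩ X.lc (X.g s)).card : ℤ) - 2) = 0 := by linarith
  have c2 : ∑ v ∈ X.labs, ((X.c : ℤ) - (X.del {v}).c) = 0 := by linarith
  have c3 : ∑ v ∈ X.labs, (3 - (X.P - (X.del {v}).P)) = 0 := by linarith
  have d0 := (sum_eq_zero_iff_of_nonneg fun s _ => tip_nonneg s).1 c0
  have d1 := (sum_eq_zero_iff_of_nonneg hsup).1 c1
  have d2 := (sum_eq_zero_iff_of_nonneg hcc).1 c2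
  have d3 := (sum_eq_zero_iff_of_nonneg hll).1 c3
  refine ⟨?_, ?_, ?_, ?_⟩
  · intro s hs h
    have n : ∀ t ∈ X.A, ¬ X.Tip t := by
      intro t ht h4
      have h5 := d0 t ht
      rw [tip_of h4] at h5
      exact one_ne_zero h5
    rcases hcap s hs h with h4 | h4
    · exact n _ (hG.A_rho _ (hG.A_rho _ (hG.A_rho s hs)))
        ⟨by rw [hG.rho4]; exact h.symm, by rw [hG.rho4]; exact h4⟩
    · exact n _ (hG.A_rho s hs) ⟨by rw [hG.rho4]; exact h, h4⟩
  · intro v hv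
    have := d3 v hv
    omega
  · intro s hs
    have h4 := d1 s (Perm.mem_support.2 hs)
    have h5 : ({X.lab s, X.lab (X.ρ s)} : Finset ℕ) ⊆ X.lc s ∩ X.lc (X.g s) := by
      intro v hv
      rw [mem_insert, mem_singleton] at hv
      rw [mem_inter, mem_lc, mem_lc]
      have h2 := hG.lab_g s hs
      have h3 := hG.lab_g' hs
      rcases hv with rfl | rfl
      · exact ⟨Or.inl rfl, Or.inr (Or.inl h3)⟩
      · exact ⟨Or.inr (Or.inl rfl), Or.inl h2⟩
    have h6 : ({X.lab s, X.lab (X.ρ s)} : Finset ℕ).card = 2 := by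
      refine card_pair fun h3 => ?_
      have := hG.par s (hG.A_g s hs)
      omega
    exact (eq_of_subset_of_card_le h5 (by omega)).symm
  · intro v hv
    have := d2 v hv
    omega

/-! ## The number of free opposite sides -/

/-- corners of the star of `v`, counted by their position in the cell -/
lemma Good.card_star_filter (hX : X.Good) (hne : ∀ s ∈ X.A, X.lab (X.ρ (X.ρ s)) ≠ X.lab s)
    (v : ℕ) (p : S → Prop) [DecidablePred p] : ((X.star {v}).filter p).card =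
      (X.A.filter fun s => p s ∧ X.lab s = v).card +
      (X.A.filter fun s => p s ∧ X.lab (X.ρ s) = v).card +
      (X.A.filter fun s => p s ∧ X.lab (X.ρ (X.ρ s)) = v).card +
      (X.A.filter fun s => p s ∧ X.lab (X.ρ (X.ρ (X.ρ s))) = v).card := by
  have hpar : ∀ s ∈ X.A, X.lab (X.ρ s) ≠ X.lab s := by
    intro s hs h
    have := hX.par s hs
    omega
  rw [← card_union_of_disjoint, ← card_union_of_disjoint, ← card_union_of_disjoint]
  · congr 1
    ext s
    simp only [mem_filter, mem_union, mem_star_iff, mem_lc]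
    tauto
  · rw [disjoint_left]
    intro s h1 h2
    simp only [mem_filter, mem_union] at h1 h2
    obtain ⟨h3, h4, h5⟩ := h2
    rcases h1 with (⟨-, -, h1⟩ | ⟨-, -, h1⟩) | ⟨-, -, h1⟩
    · refine hpar _ (hX.A_rho _ (hX.A_rho _ (hX.A_rho _ h3))) ?_
      rw [hX.rho4, h1, h5]
    · exact hne _ (hX.A_rho _ h3) (by rw [h1, h5])
    · exact hpar _ (hX.A_rho _ (hX.A_rho _ h3)) (by rw [h1, h5])
  · rw [disjoint_left]
    intro s h1 h2
    simp only [mem_filter, mem_union] at h1 h2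
    obtain ⟨h3, h4, h5⟩ := h2
    rcases h1 with ⟨-, -, h1⟩ | ⟨-, -, h1⟩
    · exact hne _ h3 (by rw [h1, h5])
    · exact hpar _ (hX.A_rho _ h3) (by rw [h1, h5])
  · rw [disjoint_left]
    intro s h1 h2
    simp only [mem_filter] at h1 h2
    exact hpar _ h1.1 (by rw [h1.2.2, h2.2.2])

lemma Good.card_filter_rho (hX : X.Good) (p : S → Prop) [DecidablePred p] :
    (X.A.filter fun s => p (X.ρ s)).card = (X.A.filter p).card := by
  refine card_bij (fun s _ => X.ρ s) ?_ (fun a _ b _ h => X.ρ.injective h) ?_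
  · intro s hs
    obtain ⟨h1, h2⟩ := mem_filter.1 hs
    exact mem_filter.2 ⟨hX.A_rho s h1, h2⟩
  · intro t ht
    obtain ⟨h1, h2⟩ := mem_filter.1 ht
    refine ⟨X.ρ (X.ρ (X.ρ t)), mem_filter.2 ⟨?_, ?_⟩, hX.rho4 t⟩
    · exact hX.A_rho _ (hX.A_rho _ (hX.A_rho _ h1))
    · rw [hX.rho4]; exact h2

lemma Good.fans_eq (hX : X.Good) (hpf : X.PF) {v : ℕ} (hv : v ∈ X.labs) : X.fans v = 1 := by
  obtain ⟨s, hs, rfl⟩ := mem_image.1 hv
  obtain ⟨t, h1, h2, -⟩ := hX.exists_free hs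
  unfold fans
  rw [card_eq_one]
  refine ⟨t, ?_⟩
  ext r
  rw [mem_filter, mem_singleton]
  constructor
  · rintro ⟨h3, h4⟩
    exact hpf r (mem_free.1 h3).1 t (mem_free.1 h1).1 (mem_free.1 h3).2 (mem_free.1 h1).2
      (by rw [h4, h2])
  · rintro rfl
    exact ⟨h1, h2⟩

theorem CountOut.u_eq (h : X.CountOut) (hX : X.Min) (hpf : X.PF) {v : ℕ} (hv : v ∈ X.labs) :
    X.u v = 2 := by
  classical
  have hG := hX.good
  have h1 := hG.del_P v
  rw [h.loss v hv, hX.c_eq, h.conn v hv] at h1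
  rw [hG.card_star_filter h.ne v (fun s => X.g s = s), hG.card_star_filter h.ne v (fun _ => True)]
    at h1
  -- the fan
  have m0 : (X.A.filter fun s => X.g s = s ∧ X.lab s = v).card = 1 := by
    rw [← hG.fans_eq hpf hv]
    unfold fans free
    rw [filter_filter]
  have m1 : (X.cor v).card = (X.g.support.filter fun s => X.lab s = v).card + 1 := by
    rw [← m0, ← card_union_of_disjoint]
    · congr 1
      ext s
      simp only [mem_cor, mem_union, mem_filter, Perm.mem_support]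
      constructor
      · rintro ⟨h1, h2⟩
        by_cases h3 : X.g s = s
        · exact Or.inr ⟨h1, h3, h2⟩
        · exact Or.inl ⟨h3, h2⟩
      · rintro (⟨h1, h2⟩ | ⟨h1, h2, h3⟩)
        · exact ⟨hG.A_g s h1, h2⟩
        · exact ⟨h1, h3⟩
    · rw [disjoint_left]
      intro s h1 h2
      exact Perm.mem_support.1 (mem_filter.1 h1).1 (mem_filter.1 h2).2.1
  have m2 : (X.g.support.filter fun s => X.lab (X.ρ s) = v).card =
      (X.g.support.filter fun s => X.lab s = v).card := by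
    refine card_bij (fun s _ => X.g s) ?_ (fun a _ b _ h => X.g.injective h) ?_
    · intro s hs
      obtain ⟨h1, h2⟩ := mem_filter.1 hs
      rw [Perm.mem_support] at h1
      refine mem_filter.2 ⟨Perm.mem_support.2 ?_, by rw [hG.lab_g s h1]; exact h2⟩
      rw [X.inv]; exact h1.symm
    · intro s hs
      obtain ⟨h1, h2⟩ := mem_filter.1 hs
      rw [Perm.mem_support] at h1
      refine ⟨X.g s, mem_filter.2 ⟨Perm.mem_support.2 ?_, ?_⟩, X.inv s⟩
      · rw [X.inv]; exact h1.symm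
      · rw [hG.lab_g' h1]; exact h2
  have m3 : (X.A.filter fun s => X.g s = s ∧ X.lab (X.ρ s) = v).card +
      (X.g.support.filter fun s => X.lab (X.ρ s) = v).card = (X.cor v).card := by
    have e1 : (X.cor v).card = (X.A.filter fun s => X.lab (X.ρ s) = v).card :=
      (hG.card_filter_rho fun s => X.lab s = v).symm
    rw [e1, ← card_union_of_disjoint]
    · congr 1
      ext s
      simp only [mem_union, mem_filter, Perm.mem_support]
      constructor
      · rintro (⟨h1, h2, h3⟩ | ⟨h1, h2⟩)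
        · exact ⟨h1, h3⟩
        · exact ⟨hG.A_g s h1, h2⟩
      · rintro ⟨h1, h2⟩
        by_cases h3 : X.g s = s
        · exact Or.inl ⟨h1, h3, h2⟩
        · exact Or.inr ⟨h3, h2⟩
    · rw [disjoint_left]
      intro s h1 h2
      exact Perm.mem_support.1 (mem_filter.1 h2).1 (mem_filter.1 h1).2.1
  -- the gates inside the star
  have m4 : ((X.star {v}).filter fun s => X.g s ≠ s ∧ X.g s ∈ X.star {v}).card =
      (X.g.support.filter fun s => X.lab s = v).card +
      (X.g.support.filter fun s => X.lab (X.ρ s) = v).card := by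
    rw [← card_union_of_disjoint]
    · congr 1
      ext s
      simp only [mem_union, mem_filter, Perm.mem_support, mem_star_iff]
      constructor
      · rintro ⟨⟨h1, h2⟩, h3, h4, h5⟩
        have h6 : v ∈ X.lc s ∩ X.lc (X.g s) := mem_inter.2 ⟨h2, h5⟩
        rw [h.two s h3, mem_insert, mem_singleton] at h6
        rcases h6 with h6 | h6
        · exact Or.inl ⟨h3, h6.symm⟩
        · exact Or.inr ⟨h3, h6.symm⟩
      · intro h1
        have h3 : X.g s ≠ s := by
          rcases h1 with h1 | h1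
          · exact h1.1
          · exact h1.1
        have h6 : v ∈ X.lc s ∩ X.lc (X.g s) := by
          rw [h.two s h3, mem_insert, mem_singleton]
          rcases h1 with h1 | h1
          · exact Or.inl h1.2.symm
          · exact Or.inr h1.2.symm
        rw [mem_inter] at h6
        exact ⟨⟨hG.A_g s h3, h6.1⟩, h3, hG.g_mem h3, h6.2⟩
    · rw [disjoint_left]
      intro s h1 h2
      have h3 := hG.par s (hG.supp_sub (mem_filter.1 h1).1)
      rw [(mem_filter.1 h1).2, (mem_filter.1 h2).2] at h3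
      omega
  -- the number of sides in the star
  have t0 : (X.A.filter fun s => True ∧ X.lab s = v).card = (X.cor v).card := by
    simp only [true_and]; rfl
  have t1 : (X.A.filter fun s => True ∧ X.lab (X.ρ s) = v).card = (X.cor v).card := by
    simp only [true_and]
    exact hG.card_filter_rho fun s => X.lab s = v
  have t2 : (X.A.filter fun s => True ∧ X.lab (X.ρ (X.ρ s)) = v).card = (X.cor v).card := by
    simp only [true_and]
    rw [hG.card_filter_rho fun s => X.lab (X.ρ s) = v]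
    exact hG.card_filter_rho fun s => X.lab s = v
  have t3 : (X.A.filter fun s => True ∧ X.lab (X.ρ (X.ρ (X.ρ s))) = v).card =
      (X.cor v).card := by
    simp only [true_and]
    rw [hG.card_filter_rho fun s => X.lab (X.ρ (X.ρ s)) = v,
      hG.card_filter_rho fun s => X.lab (X.ρ s) = v]
    exact hG.card_filter_rho fun s => X.lab s = v
  -- `u`
  have u1 : (X.A.filter fun s => X.g s = s ∧ X.lab (X.ρ (X.ρ (X.ρ s))) = v).card =
      ((X.cor v).filter fun s => X.g (X.ρ s) = X.ρ s).card := by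
    rw [← hG.card_filter_rho fun s => X.g s = s ∧ X.lab (X.ρ (X.ρ (X.ρ s))) = v]
    congr 1
    ext s
    simp only [mem_filter, mem_cor, hG.rho4]
    tauto
  have u2 : (X.A.filter fun s => X.g s = s ∧ X.lab (X.ρ (X.ρ s)) = v).card =
      ((X.cor v).filter fun s => X.g (X.ρ (X.ρ s)) = X.ρ (X.ρ s)).card := by
    rw [← hG.card_filter_rho fun s => X.g s = s ∧ X.lab (X.ρ (X.ρ s)) = v,
      ← hG.card_filter_rho fun s => X.g (X.ρ s) = X.ρ s ∧ X.lab (X.ρ (X.ρ (X.ρ s))) = v]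
    congr 1
    ext s
    simp only [mem_filter, mem_cor, hG.rho4]
    tauto
  rw [m0, m4, m2, t0, t1, t2, t3, u1, u2] at h1
  rw [m2] at m3
  unfold u
  push_cast at h1
  omega

/-- module COUNT: the conclusions -/
structure CountR (X : Cx S) : Prop where
  u : ∀ v ∈ X.labs, X.u v = 2
  P3 : ∀ v ∈ X.labs, (X.del {v}).P + 3 = X.P
  tau1 : ∀ v ∈ X.labs, (X.del {v}).tau + 1 = X.tau
  tight : ∀ v ∈ X.labs, (X.del {v}).P = 4 * ((X.del {v}).tau : ℤ)
  c1 : ∀ v ∈ X.labs, (X.del {v}).c = 1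
  ne : ∀ s ∈ X.A, X.lab (X.ρ (X.ρ s)) ≠ X.lab s
  dup : ∀ s, X.g s ≠ s → ∀ x ∈ X.cell s, ∀ y ∈ X.cell (X.g s), X.lab x = X.lab y →
    X.lab x = X.lab s ∨ X.lab x = X.lab (X.ρ s)

/-- module COUNT -/
theorem Min.count (hX : X.Min) (hpf : X.PF) (hstar : ∀ v ∈ X.labs, (X.del {v}).c ≤ 1)
    (hcap : X.AllCap) : X.CountR := by
  have h := hX.countOut hpf hstar hcap
  have hP := hX.P_eq' hpf
  have key : ∀ v ∈ X.labs, (X.del {v}).P + 3 = X.P ∧ (X.del {v}).tau + 1 = X.tau ∧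
      (X.del {v}).P = 4 * ((X.del {v}).tau : ℤ) := by
    intro v hv
    have h1 := hX.ih S (X.del {v}) (hX.good.del {v}) (del_card_lt hv)
    have h2 := h.loss v hv
    have h3 := X.tau_le_del {v}
    rw [card_singleton] at h3
    refine ⟨by omega, by omega, by omega⟩
  refine ⟨fun v hv => h.u_eq hX hpf hv, fun v hv => (key v hv).1, fun v hv => (key v hv).2.1,
    fun v hv => (key v hv).2.2, h.conn, h.ne, ?_⟩
  intro s hs x hx y hy hxy
  have h1 : X.lab x ∈ X.lc s ∩ X.lc (X.g s) := by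
    rw [mem_inter]
    refine ⟨mem_image_of_mem _ hx, ?_⟩
    rw [hxy]
    exact mem_image_of_mem _ hy
  rwa [h.two s hs, mem_insert, mem_singleton] at h1

end main

end Cx

end Pool.Agent.Lib.MP06c549.Z
end

section
/-!
# MP_06c549_co, Z: the two cut gates have different outer ends

If the two gates of a two-gate cut have the same ends, then one of the parts is a single cell.
-/
set_option autoImplicit false
set_option linter.unusedSectionVars false

namespace Pool.Agent.Lib.MP06c549.Z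

open Equiv Equiv.Perm Finset

variable {S : Type} [Fintype S] [DecidableEq S]

namespace Cx

variable {X : Cx S}

/-- a gate connected complex with a cell without gates has only this cell -/
lemma eq_cell_of_gc (hX : X.Good) {B : Finset S} (hB : X.Cl B)
    (hc : ∀ a ∈ B, ∀ b ∈ B, (X.sub B).gc a b) {z : S} (hz : z ∈ B)
    (hfix : ∀ y ∈ X.cell z, (X.sub B).g y = y) : B = X.cell z := by
  refine Subset.antisymm (fun b hb => ?_) (cell_sub hB hz)
  let q : Setoid S := ⟨fun a b => (a ∈ X.cell z ↔ b ∈ X.cell z),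
    ⟨fun _ => Iff.rfl, fun h => h.symm, fun h1 h2 => h1.trans h2⟩⟩
  have h1 : (X.sub B).gc ≤ q := by
    refine comp_le_of (fun x => ?_) fun x => ?_
    · exact (hX.cl_iff (hX.cl_cell z)).symm
    · change x ∈ X.cell z ↔ (X.sub B).g x ∈ X.cell z
      constructor
      · intro hx
        rw [hfix x hx]
        exact hx
      · intro hx
        have h2 := hfix _ hx
        rw [(X.sub B).inv] at h2
        rw [h2]
        exact hx
  exact (h1 (hc z hz b hb)).1 (self_mem_cell z)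

lemma TL.cap {z : S} (h : X.TL z) : X.Cap z :=
  ⟨h.2.1, h.2.2.1, h.2.2.2.1, h.2.2.2.2.1, h.2.2.2.2.2.2⟩

/-- `AllCap` from the statement on repeated cells -/
lemma allCap_of (h : ∀ s ∈ X.A, X.lab (X.ρ (X.ρ s)) = X.lab s → X.TL s ∨ X.TL (X.ρ (X.ρ s))) :
    X.AllCap := by
  intro s hs h1
  rcases h s hs h1 with h2 | h2
  · exact Or.inl h2.cap
  · exact Or.inr h2.cap

/-- the cell of a cap whose two gates leave a part is the whole part -/
lemma TL.whole (hX : X.Good) {B : Finset S} (hB : X.Cl B)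
    (hc : ∀ a ∈ B, ∀ b ∈ B, (X.sub B).gc a b) {z : S} (h : X.TL z) (hz : z ∈ B)
    (h1 : X.g z ∉ B) (h2 : X.g (X.ρ z) ∉ B) : B.card = 4 := by
  rw [eq_cell_of_gc hX hB hc hz, hX.card_cell]
  intro y hy
  obtain ⟨-, -, -, h3, h4, -, -⟩ := h
  rcases mem_cell.1 hy with rfl | rfl | rfl | rfl
  · exact sub_g_not h1
  · exact sub_g_not h2
  · rw [sub_g, h3]
    split_ifs <;> rfl
  · rw [sub_g, h4]
    split_ifs <;> rfl

/-- in a two-gate cut with both parts of at least two cells the two gates do not have the same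
ends -/
theorem Part.ends_ne (hX : X.Good) {B : Finset S} {s t : S} (hP : X.Part B {t, X.g s})
    (hsB : s ∉ B) (hgt : X.g t ∉ B) (h8 : 8 ≤ B.card) (h8' : 8 ≤ (X.A \ B).card)
    (hsA : s ∈ X.A) (htA : t ∈ X.A)
    (hdg : ∃ z, X.TL z ∧ ((z = s ∧ X.ρ z = X.g t) ∨ (z = t ∧ X.ρ z = X.g s) ∨
      (z = X.g s ∧ X.ρ z = t) ∨ (z = X.g t ∧ X.ρ z = s))) : False := by
  have htB : t ∈ B := hP.F_sub (mem_insert_self _ _)
  have hgsB : X.g s ∈ B := hP.F_sub (mem_insert_of_mem (mem_singleton_self _))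
  have hsC : s ∈ X.A \ B := mem_sdiff.2 ⟨hsA, hsB⟩
  have hgtC : X.g t ∈ X.A \ B := mem_sdiff.2 ⟨hX.g_mem_iff.2 htA, hgt⟩
  have htC : t ∉ X.A \ B := fun h => (mem_sdiff.1 h).2 htB
  have hgsC : X.g s ∉ X.A \ B := fun h => (mem_sdiff.1 h).2 hgsB
  obtain ⟨z, hz, h | h | h | h⟩ := hdg
  · obtain ⟨rfl, h2⟩ := h
    have h3 := hz.whole hX (hP.cl' hX) hP.conn' hsC hgsC (by rw [h2, X.inv]; exact htC)
    omega
  · obtain ⟨rfl, h2⟩ := h
    have h3 := hz.whole hX hP.cl hP.conn htB hgt (by rw [h2, X.inv]; exact hsB)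
    omega
  · obtain ⟨h1, h2⟩ := h
    have h3 := hz.whole hX hP.cl hP.conn (by rw [h1]; exact hgsB) (by rw [h1, X.inv]; exact hsB)
      (by rw [h2]; exact hgt)
    omega
  · obtain ⟨h1, h2⟩ := h
    have h3 := hz.whole hX (hP.cl' hX) hP.conn' (by rw [h1]; exact hgtC)
      (by rw [h1, X.inv]; exact htC) (by rw [h2]; exact hgsC)
    omega

end Cx

end Pool.Agent.Lib.MP06c549.Z
end
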