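import Pool.Agent.Lib.MP_06c549_co.Z.CorS
import Pool.Agent.Lib.MP_06c549_co.Z.StarsX
import Pool.Agent.Lib.MP_06c549_co.Z.Bridge
import Pool.Agent.Lib.MP_06c549_co.Z.Two
import Pool.Agent.Lib.MP_06c549_co.Z.Deg
import Pool.Agent.Lib.MP_06c549_co.Z.StarsC
import Pool.Agent.Lib.MP_06c549_co.Z.Dup

section
/-!
# MP_06c549_co, Z: no cell has two adjacent free sides

In the flat case (`u = 2` at every vertex) of a connected complex without pinches and with a gate.
-/
set_option autoImplicit false
set_option linter.unusedSectionVars false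

namespace Pool.Agent.Lib.MP06c549.Z

open Equiv Equiv.Perm Finset

variable {S : Type} [Fintype S] [DecidableEq S]

namespace Cx

variable {X : Cx S}

/-- the vertex between two adjacent free sides has one corner only -/
lemma Good.cor_one (hX : X.Good) (hpf : X.PF) {s : S} (hs : s ∈ X.A) (h1 : X.g s = s)
    (h2 : X.g (X.ρ s) = X.ρ s) : X.cor (X.lab (X.ρ s)) = {X.ρ s} := by
  have hs' : s ∈ X.free := mem_free.2 ⟨hs, h1⟩
  have hr : X.ρ s ∈ X.free := mem_free.2 ⟨hX.A_rho s hs, h2⟩
  obtain ⟨k, k1, k2, k3, k4, k5⟩ := hX.fan hpf hs'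
  have hk : k = 0 := by
    by_contra hk
    exact k2 0 (by omega) (by rw [pow_zero, Perm.one_apply]; exact hr)
  subst hk
  ext y
  rw [mem_singleton]
  constructor
  · intro hy
    obtain ⟨j, hj, rfl⟩ := k4 y hy
    have : j = 0 := by omega
    rw [this, pow_zero, Perm.one_apply]
  · rintro rfl
    exact mem_cor.2 ⟨hX.A_rho s hs, rfl⟩

theorem Good.nadj (hX : X.Good) (hpf : X.PF) (hu : ∀ s ∈ X.A, X.u (X.lab s) = 2)
    (hconn : ∀ s ∈ X.A, ∀ t ∈ X.A, X.conn s t) (hg : ∃ s, X.g s ≠ s) : X.NAdj := by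
  classical
  intro s hs h1 h2
  have hsA := hX.A_rho s hs
  have h3 := hu _ hsA
  rw [u_eq_sum, hX.cor_one hpf hs h1 h2, sum_singleton] at h3
  have h4 : X.g (X.ρ (X.ρ s)) = X.ρ (X.ρ s) := by
    by_contra h
    rw [if_neg h] at h3
    split_ifs at h3 <;> omega
  have h5 : X.g (X.ρ (X.ρ (X.ρ s))) = X.ρ (X.ρ (X.ρ s)) := by
    by_contra h
    rw [if_neg h] at h3
    split_ifs at h3
    omega
  -- all sides of the cell are free
  have hfree : ∀ x ∈ X.cell s, X.g x = x := by
    intro x hx
    rcases mem_cell.1 hx with rfl | rfl | rfl | rfl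
    · exact h1
    · exact h2
    · exact h4
    · exact h5
  have hcl := hX.cl_cell s
  have hA : X.cell s ⊆ X.A := cell_sub hX.cl_A hs
  have hcor : ∀ x ∈ X.cell s, ∀ y ∈ X.A, X.lab x = X.lab y → y = x := by
    intro x hx y hy hxy
    obtain ⟨z, hz, rfl⟩ : ∃ z ∈ X.cell s, X.ρ z = x :=
      ⟨X.ρ (X.ρ (X.ρ x)), hcl _ (hcl _ (hcl _ hx)), hX.rho4 x⟩
    have h6 : y ∈ X.cor (X.lab (X.ρ z)) := mem_cor.2 ⟨hy, hxy.symm⟩
    rw [hX.cor_one hpf (hA hz) (hfree z hz) (hfree _ hx), mem_singleton] at h6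
    exact h6
  obtain ⟨t, ht⟩ := hg
  have htA : t ∈ X.A := hX.A_g t ht
  let q : Setoid S := ⟨fun x y => (x ∈ X.cell s ↔ y ∈ X.cell s),
    ⟨fun _ => Iff.rfl, fun h => h.symm, fun h1 h2 => h1.trans h2⟩⟩
  have h7 : q s t := by
    refine conn_le (q := q) (fun x => ?_) (fun x hx y hy hxy => ?_) (hconn s hs t htA)
    · exact (hX.cl_iff hcl).symm
    · constructor
      · intro h
        rw [hcor x h y hy hxy]
        exact h
      · intro h
        rw [hcor y h x hx hxy.symm]
        exact h
  exact ht (hfree t (h7.1 (self_mem_cell s)))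

end Cx

end Pool.Agent.Lib.MP06c549.Z
end

section
/-!
# MP_06c549_co, Z: the flat part

`Min.flat_false`: a minimal counterexample without pinches has a separating star or a cell with
equal opposite corners that is not a cap.
-/
set_option autoImplicit false
set_option linter.unusedSectionVars false

namespace Pool.Agent.Lib.MP06c549.Z

open Equiv Equiv.Perm Finset

variable {S : Type} [Fintype S] [DecidableEq S]

namespace Cx

variable {X : Cx S}

/-- a live label in the star of `v` -/
lemma exists_cell_of_star {v : ℕ} {s : S} (h : s ∈ X.star {v}) : ∃ y ∈ X.cell s, X.lab y = v := by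
  obtain ⟨-, h⟩ := mem_star.1 h
  simp only [mem_singleton] at h
  rcases h with h | h | h | h
  · exact ⟨_, mem_cell.2 (Or.inl rfl), h⟩
  · exact ⟨_, mem_cell.2 (Or.inr (Or.inl rfl)), h⟩
  · exact ⟨_, mem_cell.2 (Or.inr (Or.inr (Or.inl rfl))), h⟩
  · exact ⟨_, mem_cell.2 (Or.inr (Or.inr (Or.inr rfl))), h⟩

theorem Min.flat (hX : X.Min) (hpf : X.PF) (R : X.CountR) : X.Flat := by
  have hG := hX.good
  have r4 := hG.rho4
  have hn : X.NAdj := hG.nadj hpf (fun s hs => R.u _ (mem_labs hs))
    (fun s hs t ht => hX.conn hs ht) (hX.exists_gate hpf)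
  have h3 : ∀ s ∈ X.free, X.g (X.ρ (X.ρ (X.ρ s))) ≠ X.ρ (X.ρ (X.ρ s)) := by
    intro s hs h
    have h1 := hn _ (hG.A_rho _ (hG.A_rho _ (hG.A_rho _ (mem_free.1 hs).1))) h
    rw [r4] at h1
    exact h1 (mem_free.1 hs).2
  refine ⟨hG, hpf, hn, fun s hs => R.u _ (mem_labs hs), ?_, ?_, ?_⟩
  · intro s hs h
    have hsA := hG.A_g s hs
    rcases R.dup s hs (X.ρ (X.ρ (X.ρ s))) (mem_cell.2 (Or.inr (Or.inr (Or.inr rfl))))
      (X.ρ (X.ρ (X.g s))) (mem_cell.2 (Or.inr (Or.inr (Or.inl rfl)))) h with h1 | h1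
    · have h2 := hG.par _ (hG.A_rho _ (hG.A_rho _ (hG.A_rho _ hsA)))
      rw [r4] at h2
      omega
    · exact R.ne _ (hG.A_rho _ hsA) h1
  · intro s hs h1 h2
    have hv := mem_labs hs
    refine hG.zip_star hX.ih hs ?_ ?_ ?_ (R.tight _ hv).le (R.tau1 _ hv).le
    · intro h
      obtain ⟨y, hy, hy2⟩ := exists_cell_of_star h
      have m : s ∈ X.cell (X.ρ s) := mem_cell.2 (Or.inr (Or.inr (Or.inr (r4 s).symm)))
      rcases R.dup _ h1 s m y hy hy2.symm with h4 | h4
      · have := hG.par s hs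
        omega
      · exact R.ne s hs h4.symm
    · intro h
      obtain ⟨y, hy, hy2⟩ := exists_cell_of_star h
      have m : s ∈ X.cell (X.ρ (X.ρ s)) := mem_cell.2 (Or.inr (Or.inr (Or.inl (r4 s).symm)))
      rcases R.dup _ h2 s m y hy hy2.symm with h4 | h4
      · exact R.ne s hs h4.symm
      · have := hG.par _ (hG.A_rho _ (hG.A_rho _ (hG.A_rho _ hs)))
        rw [r4] at this
        omega
    · exact fun h => R.ne _ (hG.A_rho _ hs) h.symm
  · intro s s' s'' hs hs' hs'' hr hr' hr'' k1 k2 k3 k4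
    have hv := mem_labs (mem_free.1 hs').1
    exact hG.straight3 hpf hX.ih hs hs' hs'' hr hr' hr'' k1 k2 k3 k4 (h3 s hs)
      (R.tight _ hv).le (R.tau1 _ hv).le

/-- **the flat part of the proof** -/
theorem Min.flat_false (hX : X.Min) (hpf : X.PF) (hstar : ∀ v ∈ X.labs, (X.del {v}).c ≤ 1)
    (hcap : X.AllCap) : False :=
  (hX.flat hpf (hX.count hpf hstar hcap)).false hX.nonempty

end Cx

end Pool.Agent.Lib.MP06c549.Z
end

section
/-!
# MP_06c549_co, Z: the end of the proof

`SpecDeg`: the repeated cells of a minimal counterexample are caps. `SpecStars`: the deletion of a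
star of a minimal counterexample leaves a connected complex. `main_of`: the theorem on complexes
from these two statements. `shermer_of`: Shermer's bound.
-/
set_option autoImplicit false
set_option linter.unusedSectionVars false

namespace Pool.Agent.Lib.MP06c549.Z

open Equiv Equiv.Perm Finset

/-- repeated cells are caps -/
def SpecDeg : Prop := ∀ (S : Type) [Fintype S] [DecidableEq S] (X : Cx S), X.Min → X.PF → X.AllCap

/-- the deletion of a star leaves a connected complex -/
def SpecStars : Prop := ∀ (S : Type) [Fintype S] [DecidableEq S] (X : Cx S), X.Min → X.PF →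
  ∀ v ∈ X.labs, (X.del {v}).c ≤ 1

theorem main_of (h1 : SpecDeg) (h2 : SpecStars) : Main := by
  by_contra h
  obtain ⟨S, _, _, X, hX⟩ := Cx.exists_min h
  exact hX.flat_false hX.pf (h2 S X hX hX.pf) (h1 S X hX hX.pf)

theorem shermer_of (h1 : SpecDeg) (h2 : SpecStars) (P : HPoly) (hP : P.IsPoly) :
    ∃ G : Finset (ℝ × ℝ), (G : Set (ℝ × ℝ)) ⊆ P.vertices ∧ G.card ≤ (P.n + P.h) / 4 ∧
      P.Guards G := shermer (main_of h1 h2) P hP

end Pool.Agent.Lib.MP06c549.Z
end

section
/-!
# MP_06c549_co, Z: repeated cells are caps (module DEG, end)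
-/
set_option autoImplicit false

namespace Pool.Agent.Lib.MP06c549.Z

/-- in a minimal counterexample a repeated cell is a cap -/
theorem Cx.Min.allCap {S : Type} [Fintype S] [DecidableEq S] {X : Cx S} (hX : X.Min)
    (hpf : X.PF) : X.AllCap := by
  intro s hs h
  rcases hX.tl hpf hs h with h1 | h1
  · exact Or.inl ⟨h1.2.1, h1.2.2.1, h1.2.2.2.1, h1.2.2.2.2.1, h1.2.2.2.2.2.2⟩
  · exact Or.inr ⟨h1.2.1, h1.2.2.1, h1.2.2.2.1, h1.2.2.2.2.1, h1.2.2.2.2.2.2⟩

theorem spec_deg : SpecDeg := fun _ _ _ _ hX hpf => hX.allCap hpf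

end Pool.Agent.Lib.MP06c549.Z
end

section
/-!
# MP_06c549_co, Z: separating stars, end

`Cut X s t B`: the cut along two gates at one vertex from one hole around a part `B`. A minimal
counterexample has no such cut (`Min.cut_false`), if the double gates are those of a cap (`SpecDG`).
With the statement that a separating star gives such a cut (`SpecCut`) this is `SpecStars`.
-/
set_option autoImplicit false
set_option linter.unusedSectionVars false

namespace Pool.Agent.Lib.MP06c549.Z

open Equiv Equiv.Perm Finset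

variable {S : Type} [Fintype S] [DecidableEq S]

namespace Cx

/-- a cut along two gates at the vertex `lab s = lab t`, both parts have at least two cells, and at
each gate one of the two link sides next to it is free -/
structure Cut (X : Cx S) (s t : S) (B : Finset S) : Prop where
  part : X.Part B {t, X.g s}
  sB : s ∉ B
  gtB : X.g t ∉ B
  after : Relation.ReflTransGen X.turn s t
  cardI : 8 ≤ B.card
  cardO : 8 ≤ (X.A \ B).card
  e : X.g (X.ρ s) = X.ρ s ∨ X.g (X.ρ (X.ρ (X.ρ (X.g s)))) = X.ρ (X.ρ (X.ρ (X.g s)))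
  e' : X.g (X.ρ t) = X.ρ t ∨ X.g (X.ρ (X.ρ (X.ρ (X.g t)))) = X.ρ (X.ρ (X.ρ (X.g t)))

/-- turning along consecutive corners -/
lemma turns_of_seq {X : Cx S} {x : ℕ → S} {i j : ℕ} (hij : i ≤ j)
    (h : ∀ m, i ≤ m → m < j → X.turn (x m) (x (m + 1))) :
    Relation.ReflTransGen X.turn (x i) (x j) := by
  induction j, hij using Nat.le_induction with
  | base => exact Relation.ReflTransGen.refl
  | succ j hij ih => exact (ih fun m h1 h2 => h m h1 (by omega)).tail (h j hij (by omega))

end Cx

/-- double gates are the gates of a cap -/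
def SpecDG : Prop := ∀ (S : Type) [Fintype S] [DecidableEq S] (X : Cx S), X.Min → ∀ s t : S,
  X.g s ≠ s → X.g t ≠ t → t ≠ s → t ≠ X.g s → X.lab s = X.lab t → X.lab (X.ρ s) = X.lab (X.ρ t) →
  ∃ z, X.DGout s t z

/-- a separating star gives a cut -/
def SpecCut : Prop := ∀ (S : Type) [Fintype S] [DecidableEq S] (X : Cx S), X.Min → X.PF →
  ∀ v ∈ X.labs, 1 < (X.del {v}).c → ∃ s t B, X.Cut s t B

/-- a minimal counterexample has no cut -/
theorem Cx.Min.cut_false (hDG : SpecDG) {X : Cx S} (hX : X.Min) (hpf : X.PF) {s t : S}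
    {B : Finset S} (h : X.Cut s t B) : False := by
  by_cases hxy : X.lab (X.ρ s) = X.lab (X.ρ t)
  · have hG := hX.good
    have htB : t ∈ B := h.part.F_sub (by simp)
    have hgsB : X.g s ∈ B := h.part.F_sub (by simp)
    have hgs : X.g s ≠ s := fun hh => h.sB (hh ▸ hgsB)
    have hgt : X.g t ≠ t := fun hh => h.gtB (hh.symm ▸ htB)
    have hsA : s ∈ X.A := hG.A_g s hgs
    have htA : t ∈ X.A := h.part.sub htB
    have hlab : X.lab t = X.lab s := hG.lab_turns h.after
    refine h.part.ends_ne hG h.sB h.gtB h.cardI h.cardO hsA htA ?_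
    obtain ⟨z, hz⟩ := hDG S X hX s t hgs hgt (fun hh => h.sB (hh ▸ htB)) (by
      intro hh
      have h1 : X.lab (X.g s) = X.lab (X.ρ s) := hG.lab_g s hgs
      have h2 := hG.par s hsA
      rw [← hh, hlab] at h1
      omega) hlab.symm hxy
    exact ⟨z, hz.1, hz.2.1⟩
  · have h1 := h.cardI
    have h2 := h.cardO
    exact hX.vcut_false hpf ⟨h.part, h.sB, h.gtB, h.after, hxy, by omega, by omega, h.e, h.e'⟩

/-- **Separating stars**, from the two statements -/
theorem specStars_of (hDG : SpecDG) (hC : SpecCut) : SpecStars := by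
  intro S _ _ X hX hpf v hv
  by_contra h
  obtain ⟨s, t, B, hB⟩ := hC S X hX hpf v hv (not_le.1 h)
  exact hX.cut_false hDG hpf hB

/-- **Shermer's bound for complexes**, from the two statements -/
theorem main_of_dg_cut (hDG : SpecDG) (hC : SpecCut) : Main := main_of spec_deg (specStars_of hDG hC)

end Pool.Agent.Lib.MP06c549.Z
end

section
/-!
# MP_06c549_co, Z: separating stars from the walk
-/
set_option autoImplicit false
set_option linter.unusedSectionVars false

namespace Pool.Agent.Lib.MP06c549.Z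

open Equiv Equiv.Perm Finset

/-- adjacent corners with the same label behind a gate -/
def SpecDup : Prop := ∀ (S : Type) [Fintype S] [DecidableEq S] (X : Cx S), X.Min → X.PF → X.AllDup

/-- a separating star gives a cut -/
theorem specCut_of (hD : SpecDup) : SpecCut := by
  intro S _ _ X hX hpf v hv hc
  obtain ⟨n, x, i, j, B, hF, hij, hjn, hP, h1, h2, -, -, -, -, -, h3, h4, h5, h6, -⟩ :=
    hX.runs hpf (hX.allCap hpf) (hD S X hX hpf) hv hc
  refine ⟨x i, x j, B, hP, h1, h2, ?_, h3, h4, ?_, ?_⟩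
  · exact Cx.turns_of_seq hij.le fun m _ hm => ⟨hF.glued m (by omega), hF.step m (by omega)⟩
  · rwa [hF.step i (by omega)] at h5
  · rwa [hF.step j (by omega)] at h6

/-- **Shermer's bound for complexes**, from the two statements on double gates -/
theorem main_of_dg_dup (hDG : SpecDG) (hD : SpecDup) : Main := main_of_dg_cut hDG (specCut_of hD)

end Pool.Agent.Lib.MP06c549.Z
end

section
/-!
# MP_06c549_co, Z: Shermer's bound

`main`: `4 * tau ≤ P` for all complexes. `shermerBound`: every orthogonal polygon with `n` vertices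
and `h` holes is guarded by `(n + h) / 4` of its vertices.
-/
set_option autoImplicit false

namespace Pool.Agent.Lib.MP06c549.Z

theorem specDG : SpecDG := fun _ _ _ _ hX _ _ hs ht hts htg h1 h2 => hX.dg hs ht hts htg h1 h2

theorem specDup : SpecDup := fun _ _ _ _ hX _ _ hs h => hX.dup hs h

/-- the theorem on complexes -/
theorem main : Main := main_of_dg_dup specDG specDup

/-- **Shermer's bound** -/
theorem shermerBound (P : HPoly) (hP : P.IsPoly) : ∃ G : Finset (ℝ × ℝ),
    (G : Set (ℝ × ℝ)) ⊆ P.vertices ∧ G.card ≤ (P.n + P.h) / 4 ∧ P.Guards G :=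
  shermer main P hP

end Pool.Agent.Lib.MP06c549.Z
end
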