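import Mathlib
import Pool.Agent.Lib.MP_06c549_co.Z.Walk
import Pool.Agent.Lib.MP_06c549_co.Z.Squ
import Pool.Agent.Lib.MP_06c549_co.Z.Two
import Pool.Agent.Lib.MP_06c549_co.Z.StarsX
import Pool.Agent.Lib.MP_06c549_co.Z.Flip

section
/-!
# MP_06c549_co, Z: the combinatorics of the boundary of a positive hole

`F` is the set of the free sides of a hole, `ν` the next free side, `T s`: the cell of `s` has only
one free side, `a s` the number of the inner cells of the fan at the start corner of `s`.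
-/
set_option autoImplicit false

namespace Pool.Agent.Lib.MP06c549.Z

open Equiv Finset

/-- the local rules along a hole -/
structure RingOk {F : Type} (ν : Perm F) (T : F → Prop) (a : F → ℕ) (col : F → ℕ)
    (C : Finset F) : Prop where
  next : ∀ s ∈ C, ν s ∈ C
  prev : ∀ s ∈ C, ν.symm s ∈ C
  sum : ∑ x ∈ C, a x ≤ 3
  col : ∀ s ∈ C, (col s + col (ν s)) % 2 = 1
  one : ∀ s ∈ C, T s → 1 ≤ a s
  one' : ∀ s ∈ C, T s → 1 ≤ a (ν s)
  two : ∀ s ∈ C, T s → T (ν s) → 2 ≤ a (ν s)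
  pivot : ∀ s ∈ C, ¬ T s → ¬ T (ν s) → a (ν s) ≠ 1
  cor : ∀ s ∈ C, ¬ T s → ¬ T (ν s) → ¬ T (ν (ν s)) → a (ν s) = 0 → a (ν (ν s)) = 0 →
    ν (ν s) = s
  zip : ∀ s ∈ C, T s → ¬ T (ν s) → a (ν s) = 1 → ν (ν s) ≠ s

section

variable {F : Type} {ν : Perm F} {T : F → Prop} {a col : F → ℕ} {C : Finset F}

/-- the walk starting at a side of type `T` -/
theorem RingOk.walk [DecidableEq F] (h : RingOk ν T a col C) {s : F} (hs : s ∈ C) (hT : T s)
    (ha : a (ν s) = 1) : False := by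
  have h2 : ν s ∈ C := h.next _ hs
  have h3 : ν (ν s) ∈ C := h.next _ h2
  have h4 : ν (ν (ν s)) ∈ C := h.next _ h3
  have h5 : ν (ν (ν (ν s))) ∈ C := h.next _ h4
  have c1 := h.col _ hs
  have c2 := h.col _ h2
  have c3 := h.col _ h3
  have c4 := h.col _ h4
  have as : 1 ≤ a s := h.one _ hs hT
  have nT2 : ¬ T (ν s) := by
    intro hT2
    have := h.two _ hs hT hT2
    omega
  have n31 : ν (ν s) ≠ s := h.zip _ hs hT nT2 ha
  have n12 : s ≠ ν s := fun e => by rw [← e] at c1; omega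
  have n23 : ν s ≠ ν (ν s) := fun e => by rw [← e] at c2; omega
  have n34 : ν (ν s) ≠ ν (ν (ν s)) := fun e => by rw [← e] at c3; omega
  have n14 : s ≠ ν (ν (ν s)) := fun e => by rw [← e] at c3; omega
  have n24 : ν s ≠ ν (ν (ν s)) := fun e => n31 (ν.injective e.symm)
  have n25 : ν s ≠ ν (ν (ν (ν s))) := fun e => by rw [← e] at c4; omega
  have n45 : ν (ν (ν s)) ≠ ν (ν (ν (ν s))) := fun e => by rw [← e] at c4; omega
  have n35 : ν (ν s) ≠ ν (ν (ν (ν s))) := fun e => n24 (ν.injective e)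
  have sum3 : ∀ x ∈ C, x ≠ s → x ≠ ν s → a x ≤ 1 := by
    intro x hx hx1 hx2
    have hsub : ({s, ν s, x} : Finset F) ⊆ C := by
      intro y hy
      simp only [mem_insert, mem_singleton] at hy
      rcases hy with rfl | rfl | rfl <;> assumption
    have h6 := (sum_le_sum_of_subset (f := a) hsub).trans h.sum
    rw [sum_insert (by simp [n12, hx1.symm]), sum_insert (by simp [hx2.symm]),
      sum_singleton] at h6
    omega
  have sum4 : ∀ x ∈ C, ∀ y ∈ C, x ≠ s → x ≠ ν s → y ≠ s → y ≠ ν s → x ≠ y → 1 ≤ a x →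
      1 ≤ a y → False := by
    intro x hx y hy hx1 hx2 hy1 hy2 hxy ax ay
    have hsub : ({s, ν s, x, y} : Finset F) ⊆ C := by
      intro z hz
      simp only [mem_insert, mem_singleton] at hz
      rcases hz with rfl | rfl | rfl | rfl <;> assumption
    have h6 := (sum_le_sum_of_subset (f := a) hsub).trans h.sum
    rw [sum_insert (by simp [n12, hx1.symm, hy1.symm]),
      sum_insert (by simp [hx2.symm, hy2.symm]), sum_insert (by simp [hxy]),
      sum_singleton] at h6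
    omega
  have nT3 : ¬ T (ν (ν s)) := fun hT3 =>
    sum4 _ h3 _ h4 n31 n23.symm n14.symm n24.symm n34 (h.one _ h3 hT3) (h.one' _ h3 hT3)
  have a3 : a (ν (ν s)) = 0 := by
    have e1 := sum3 _ h3 n31 n23.symm
    have e2 := h.pivot _ h2 nT2 nT3
    omega
  have nT4 : ¬ T (ν (ν (ν s))) := by
    intro hT4
    by_cases e : ν (ν (ν (ν s))) = s
    · have e1 := h.two _ h4 hT4 (by rw [e]; exact hT)
      rw [e] at e1
      have hsub : ({s, ν s, ν (ν (ν s))} : Finset F) ⊆ C := by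
        intro y hy
        simp only [mem_insert, mem_singleton] at hy
        rcases hy with rfl | rfl | rfl <;> assumption
      have h6 := (sum_le_sum_of_subset (f := a) hsub).trans h.sum
      rw [sum_insert (by simp [n12, n14]), sum_insert (by simp [n24]), sum_singleton] at h6
      have e2 := h.one _ h4 hT4
      omega
    · exact sum4 _ h4 _ h5 n14.symm n24.symm e n25.symm n45 (h.one _ h4 hT4) (h.one' _ h4 hT4)
  have a4 : a (ν (ν (ν s))) = 0 := by
    have e1 := sum3 _ h4 n14.symm n24.symm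
    have e2 := h.pivot _ h3 nT3 nT4
    omega
  exact n24 (h.cor _ h2 nT2 nT3 nT4 a3 a4).symm

/-- the mirror image -/
theorem RingOk.mirror (h : RingOk ν T a col C)
    (zip' : ∀ s ∈ C, T s → ¬ T (ν.symm s) → a s = 1 → ν (ν s) ≠ s) :
    RingOk ν.symm T (fun s => a (ν s)) col C where
  next := h.prev
  prev := fun s hs => by rw [Equiv.symm_symm]; exact h.next s hs
  sum := by
    have e : ∑ x ∈ C, a (ν x) = ∑ x ∈ C, a x := by
      refine sum_bij (fun x _ => ν x) (fun x hx => h.next x hx)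
        (fun x _ y _ e => ν.injective e) (fun y hy => ⟨ν.symm y, h.prev y hy, by simp⟩)
        (fun _ _ => rfl)
    rw [e]
    exact h.sum
  col := fun s hs => by
    have e := h.col _ (h.prev s hs)
    rw [Equiv.apply_symm_apply] at e
    omega
  one := fun s hs hT => h.one' s hs hT
  one' := fun s hs hT => by
    rw [Equiv.apply_symm_apply]
    exact h.one s hs hT
  two := fun s hs hT hT' => by
    rw [Equiv.apply_symm_apply]
    have e := h.two _ (h.prev s hs) hT' (by rw [Equiv.apply_symm_apply]; exact hT)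
    rwa [Equiv.apply_symm_apply] at e
  pivot := fun s hs hT hT' => by
    rw [Equiv.apply_symm_apply]
    have e := h.pivot _ (h.prev s hs) hT' (by rw [Equiv.apply_symm_apply]; exact hT)
    rwa [Equiv.apply_symm_apply] at e
  cor := fun s hs hT hT' hT'' ha ha' => by
    rw [Equiv.apply_symm_apply] at ha ha'
    have e := h.cor _ (h.prev _ (h.prev s hs)) hT''
      (by rw [Equiv.apply_symm_apply]; exact hT')
      (by rw [Equiv.apply_symm_apply, Equiv.apply_symm_apply]; exact hT)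
      (by rw [Equiv.apply_symm_apply]; exact ha')
      (by rw [Equiv.apply_symm_apply, Equiv.apply_symm_apply]; exact ha)
    rw [Equiv.apply_symm_apply, Equiv.apply_symm_apply] at e
    exact e.symm
  zip := fun s hs hT hT' ha e => by
    rw [Equiv.apply_symm_apply] at ha
    refine zip' s hs hT hT' ha ?_
    have e2 : ν (ν (ν.symm (ν.symm s))) = s := by simp
    rwa [e] at e2

/-- there is no positive hole -/
theorem RingOk.false [DecidableEq F] (h : RingOk ν T a col C) (hC : C.Nonempty)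
    (dup : ∀ s ∈ C, ¬ T s → ¬ T (ν s) → a (ν s) = 0 → ν (ν s) ≠ s)
    (zip' : ∀ s ∈ C, T s → ¬ T (ν.symm s) → a s = 1 → ν (ν s) ≠ s) : False := by
  by_cases hT : ∃ s ∈ C, T s
  · obtain ⟨s, hs, hT⟩ := hT
    have h2 : ν s ∈ C := h.next _ hs
    have c1 := h.col _ hs
    have n12 : s ≠ ν s := fun e => by rw [← e] at c1; omega
    have a1 := h.one _ hs hT
    have a2 := h.one' _ hs hT
    have hsub : ({s, ν s} : Finset F) ⊆ C := by
      intro y hy
      simp only [mem_insert, mem_singleton] at hy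
      rcases hy with rfl | rfl <;> assumption
    have h6 := (sum_le_sum_of_subset (f := a) hsub).trans h.sum
    rw [sum_insert (by simp [n12]), sum_singleton] at h6
    by_cases e : a (ν s) = 1
    · exact h.walk hs hT e
    · refine (h.mirror zip').walk hs hT ?_
      rw [Equiv.apply_symm_apply]
      omega
  · have hT' : ∀ s ∈ C, ¬ T s := fun s hs e => hT ⟨s, hs, e⟩
    have h0 : ∀ s ∈ C, a s ≠ 1 := by
      intro s hs
      have e := h.pivot _ (h.prev s hs) (hT' _ (h.prev s hs))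
        (by rw [Equiv.apply_symm_apply]; exact hT' s hs)
      rwa [Equiv.apply_symm_apply] at e
    -- a side such that all other vertices have no pivots
    obtain ⟨s, hs, hall⟩ : ∃ s ∈ C, ∀ x ∈ C, x ≠ s → a x = 0 := by
      by_cases e : ∃ s ∈ C, a s ≠ 0
      · obtain ⟨s, hs, e⟩ := e
        refine ⟨s, hs, fun x hx hxs => ?_⟩
        have hsub : ({s, x} : Finset F) ⊆ C := by
          intro y hy
          simp only [mem_insert, mem_singleton] at hy
          rcases hy with rfl | rfl <;> assumption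
        have h6 := (sum_le_sum_of_subset (f := a) hsub).trans h.sum
        rw [sum_insert (by simp [hxs.symm]), sum_singleton] at h6
        have e1 := h0 s hs
        have e2 := h0 x hx
        omega
      · obtain ⟨s, hs⟩ := hC
        refine ⟨s, hs, fun x hx _ => ?_⟩
        by_contra h7
        exact e ⟨x, hx, h7⟩
    have h2 : ν s ∈ C := h.next _ hs
    have h3 : ν (ν s) ∈ C := h.next _ h2
    have c1 := h.col _ hs
    have n12 : ν s ≠ s := fun e => by rw [e] at c1; omega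
    have n31 : ν (ν s) ≠ s := dup s hs (hT' s hs) (hT' _ h2) (hall _ h2 n12)
    exact n31 (h.cor s hs (hT' s hs) (hT' _ h2) (hT' _ h3) (hall _ h2 n12) (hall _ h3 n31))

end

end Pool.Agent.Lib.MP06c549.Z
end

section
/-!
# MP_06c549_co, Z: there is no positive hole in the flat case

`fan`: without pinches, the corners of the vertex `lab (ρ s)` (`s` free) are
`x, σ x, .., σ ^ k x` with `x = ρ s`, `σ = ρ * g`, where `σ ^ k x` is the next free side.
-/
set_option autoImplicit false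
set_option linter.unusedSectionVars false

namespace Pool.Agent.Lib.MP06c549.Z

open Equiv Equiv.Perm Finset

variable {S : Type} [Fintype S] [DecidableEq S]

namespace Cx

variable {X : Cx S}

/-- the next side of the hole or of the fan -/
def sg (X : Cx S) : Perm S := X.ρ * X.g

lemma sg_apply (s : S) : X.sg s = X.ρ (X.g s) := rfl

lemma sg_free {s : S} (h : X.g s = s) : X.sg s = X.ρ s := by rw [sg_apply, h]

lemma PF.inj (hpf : X.PF) {s t : S} (hs : s ∈ X.free) (ht : t ∈ X.free)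
    (h : X.lab s = X.lab t) : s = t :=
  hpf s (mem_free.1 hs).1 t (mem_free.1 ht).1 (mem_free.1 hs).2 (mem_free.1 ht).2 h

namespace Good

variable (hX : X.Good)
include hX

/-- the fan between the free side `s` and the next free side -/
theorem fan (hpf : X.PF) {s : S} (hs : s ∈ X.free) : ∃ k : ℕ,
    ((X.sg ^ k) (X.ρ s)) ∈ X.free ∧ (∀ j < k, (X.sg ^ j) (X.ρ s) ∉ X.free) ∧
    (∀ j ≤ k, (X.sg ^ j) (X.ρ s) ∈ X.cor (X.lab (X.ρ s))) ∧
    (∀ y ∈ X.cor (X.lab (X.ρ s)), ∃ j ≤ k, y = (X.sg ^ j) (X.ρ s)) ∧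
    (∀ i ≤ k, ∀ j ≤ k, (X.sg ^ i) (X.ρ s) = (X.sg ^ j) (X.ρ s) → i = j) := by
  obtain ⟨hsA, hsf⟩ := mem_free.1 hs
  have hxA : X.ρ s ∈ X.A := hX.A_rho s hsA
  obtain ⟨k, h1, h2, h3⟩ := hX.exists_free_pow hxA
  have hA : ∀ (j : ℕ) (y : S), y ∈ X.A → (X.sg ^ j) y ∈ X.A := fun j y hy =>
    (hX.conn_mem (hX.conn_cyc ⟨(j : ℤ), by rw [zpow_natCast]; rfl⟩)).1 hy
  refine ⟨k, h1, fun j hj => (h3 j hj).1, ?_, ?_, ?_⟩
  · intro j hj
    refine mem_cor.2 ⟨hA j _ hxA, ?_⟩
    rcases Nat.lt_or_ge j k with h | h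
    · exact (h3 j h).2
    · have : j = k := le_antisymm hj h
      rw [this]
      exact h2
  · intro y hy
    obtain ⟨hyA, hyl⟩ := mem_cor.1 hy
    obtain ⟨m, k1, k2, k3⟩ := hX.exists_free_pow hyA
    have h5 : (X.sg ^ m) y = (X.sg ^ k) (X.ρ s) := by
      refine hpf.inj k1 h1 ?_
      change X.lab (((X.ρ * X.g) ^ m) y) = X.lab (((X.ρ * X.g) ^ k) (X.ρ s))
      rw [k2, h2, hyl]
    rcases Nat.lt_or_ge k m with h | h
    · exfalso
      obtain ⟨r, hr⟩ : ∃ r, m = k + (r + 1) := ⟨m - k - 1, by omega⟩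
      rw [hr, pow_add, Perm.mul_apply] at h5
      have h6 : (X.sg ^ (r + 1)) y = X.ρ s := (X.sg ^ k).injective h5
      rw [pow_succ', Perm.mul_apply, ← sg_free hsf] at h6
      have h7 := X.sg.injective h6
      refine (k3 r (by omega)).1 ?_
      have h8 : ((X.ρ * X.g) ^ r) y = s := h7
      rw [h8]
      exact hs
    · refine ⟨k - m, by omega, ?_⟩
      obtain ⟨r, hr⟩ : ∃ r, k = m + r := ⟨k - m, by omega⟩
      rw [hr, pow_add, Perm.mul_apply] at h5
      rw [hr, Nat.add_sub_cancel_left]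
      exact (X.sg ^ m).injective h5
  · have key : ∀ i j : ℕ, i < j → j ≤ k → (X.sg ^ i) (X.ρ s) ≠ (X.sg ^ j) (X.ρ s) := by
      intro i j hij hjk h
      obtain ⟨r, hr⟩ : ∃ r, k = r + j := ⟨k - j, by omega⟩
      have h6 : (X.sg ^ (r + i)) (X.ρ s) = (X.sg ^ k) (X.ρ s) := by
        rw [pow_add, Perm.mul_apply, h, hr, pow_add, Perm.mul_apply]
      refine (h3 (r + i) (by omega)).1 ?_
      have h7 : ((X.ρ * X.g) ^ (r + i)) (X.ρ s) = (X.sg ^ k) (X.ρ s) := h6
      rw [h7]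
      exact h1
    intro i hi j hj h
    rcases lt_trichotomy i j with h4 | h4 | h4
    · exact absurd h (key i j h4 hj)
    · exact h4
    · exact absurd h.symm (key j i h4 hi)

/-- the number of the corners of the fan -/
lemma fan_card {s : S} {k : ℕ}
    (h3 : ∀ j ≤ k, (X.sg ^ j) (X.ρ s) ∈ X.cor (X.lab (X.ρ s)))
    (h4 : ∀ y ∈ X.cor (X.lab (X.ρ s)), ∃ j ≤ k, y = (X.sg ^ j) (X.ρ s))
    (h5 : ∀ i ≤ k, ∀ j ≤ k, (X.sg ^ i) (X.ρ s) = (X.sg ^ j) (X.ρ s) → i = j) :
    (X.cor (X.lab (X.ρ s))).card = k + 1 := by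
  have h6 : X.cor (X.lab (X.ρ s)) = (range (k + 1)).image fun j => (X.sg ^ j) (X.ρ s) := by
    ext y
    rw [mem_image]
    constructor
    · intro hy
      obtain ⟨j, hj, rfl⟩ := h4 y hy
      exact ⟨j, mem_range.2 (by omega), rfl⟩
    · rintro ⟨j, hj, rfl⟩
      exact h3 j (by rw [mem_range] at hj; omega)
  rw [h6, card_image_of_injOn, card_range]
  intro i hi j hj h
  have hi' := mem_range.1 (mem_coe.1 hi)
  have hj' := mem_range.1 (mem_coe.1 hj)
  exact h5 i (by omega) j (by omega) h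

/-- the next free side exists and is unique -/
lemma exists_next (hpf : X.PF) (s : {s // s ∈ X.free}) :
    ∃ t : {s // s ∈ X.free}, X.lab t.1 = X.lab (X.ρ s.1) ∧ SameCycle X.sg s.1 t.1 := by
  obtain ⟨k, h1, h2, h3, h4, h5⟩ := hX.fan hpf s.2
  refine ⟨⟨_, h1⟩, (mem_cor.1 (h3 k le_rfl)).2, ?_⟩
  have h6 : SameCycle X.sg s.1 (X.ρ s.1) := ⟨1, by
    rw [zpow_one, sg_free (mem_free.1 s.2).2]⟩
  exact h6.trans ⟨(k : ℤ), by rw [zpow_natCast]⟩

end Good

open Classical in
/-- the next free side of the hole -/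
noncomputable def nxf (X : Cx S) (hX : X.Good) (hpf : X.PF) (s : {s // s ∈ X.free}) :
    {s // s ∈ X.free} := (hX.exists_next hpf s).choose

namespace Good

variable (hX : X.Good)
include hX

lemma nxf_lab (hpf : X.PF) (s : {s // s ∈ X.free}) :
    X.lab (X.nxf hX hpf s).1 = X.lab (X.ρ s.1) := (hX.exists_next hpf s).choose_spec.1

lemma nxf_same (hpf : X.PF) (s : {s // s ∈ X.free}) :
    SameCycle X.sg s.1 (X.nxf hX hpf s).1 := (hX.exists_next hpf s).choose_spec.2

/-- the first corners of the fans -/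
lemma first_inj (hpf : X.PF) {s t : S} (hs : s ∈ X.free) (ht : t ∈ X.free)
    (h : X.lab (X.ρ s) = X.lab (X.ρ t)) : s = t := by
  obtain ⟨k, h1, h2, h3, h4, h5⟩ := hX.fan hpf hs
  obtain ⟨j, hj, hj2⟩ := h4 (X.ρ t) (mem_cor.2 ⟨hX.A_rho t (mem_free.1 ht).1, h.symm⟩)
  rcases j with - | j
  · rw [pow_zero, Perm.one_apply] at hj2
    exact (X.ρ.injective hj2).symm
  · exfalso
    rw [pow_succ', Perm.mul_apply, ← sg_free (mem_free.1 ht).2] at hj2
    refine h2 j (by omega) ?_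
    rw [← X.sg.injective hj2]
    exact ht

lemma nxf_injective (hpf : X.PF) : Function.Injective (X.nxf hX hpf) := by
  intro s t h
  refine Subtype.ext (hX.first_inj hpf s.2 t.2 ?_)
  rw [← hX.nxf_lab hpf s, ← hX.nxf_lab hpf t, h]

end Good

/-- the next free side, as a permutation -/
noncomputable def nu (X : Cx S) (hX : X.Good) (hpf : X.PF) : Perm {s // s ∈ X.free} :=
  Equiv.ofBijective (X.nxf hX hpf) (Finite.injective_iff_bijective.1 (hX.nxf_injective hpf))

lemma nu_apply (hX : X.Good) (hpf : X.PF) (s : {s // s ∈ X.free}) :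
    X.nu hX hpf s = X.nxf hX hpf s := rfl

/-- no cell has two adjacent free sides -/
def NAdj (X : Cx S) : Prop := ∀ s ∈ X.A, X.g s = s → X.g (X.ρ s) ≠ X.ρ s

open Classical in
/-- the count of the free sides opposite to a vertex -/
lemma u_eq_sum (v : ℕ) : X.u v = ∑ y ∈ X.cor v, ((if X.g (X.ρ y) = X.ρ y then 1 else 0) +
    (if X.g (X.ρ (X.ρ y)) = X.ρ (X.ρ y) then 1 else 0)) := by
  unfold u
  rw [sum_add_distrib, card_filter, card_filter]

open Classical in
/-- the local count at the vertex between the free sides `s` and `t` -/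
theorem Good.u_bound (hX : X.Good) (hn : X.NAdj) {s t : S} (hs : s ∈ X.free) (ht : t ∈ X.free)
    (hst : X.lab t = X.lab (X.ρ s)) :
    2 ≤ (X.cor (X.lab t)).card ∧
    X.u (X.lab t) + 2 ≤ (if X.g (X.ρ (X.ρ s)) = X.ρ (X.ρ s) then 1 else 0) +
      (if X.g (X.ρ (X.ρ t)) = X.ρ (X.ρ t) then 1 else 0) + (X.cor (X.lab t)).card := by
  obtain ⟨hsA, hsf⟩ := mem_free.1 hs
  obtain ⟨htA, htf⟩ := mem_free.1 ht
  have hx : X.ρ s ∈ X.cor (X.lab t) := mem_cor.2 ⟨hX.A_rho s hsA, hst.symm⟩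
  have ht' : t ∈ (X.cor (X.lab t)).erase (X.ρ s) := by
    refine mem_erase.2 ⟨?_, mem_cor.2 ⟨htA, rfl⟩⟩
    rintro rfl
    exact hn s hsA hsf htf
  have c1 := card_erase_of_mem hx
  have c2 := card_erase_of_mem ht'
  have c3 : 0 < (X.cor (X.lab t)).card := card_pos.2 ⟨_, hx⟩
  have c4 : 0 < ((X.cor (X.lab t)).erase (X.ρ s)).card := card_pos.2 ⟨_, ht'⟩
  refine ⟨by omega, ?_⟩
  rw [u_eq_sum, ← add_sum_erase _ _ hx, ← add_sum_erase _ _ ht']
  have b1 : (if X.g (X.ρ (X.ρ (X.ρ s))) = X.ρ (X.ρ (X.ρ s)) then 1 else 0) = 0 := by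
    rw [if_neg]
    intro h
    have h1 := hn _ (hX.A_rho _ (hX.A_rho _ (hX.A_rho _ hsA))) h
    rw [hX.rho4] at h1
    exact h1 hsf
  have b2 : (if X.g (X.ρ t) = X.ρ t then 1 else 0) = 0 := by
    rw [if_neg]
    exact hn t htA htf
  have b3 : ∑ y ∈ ((X.cor (X.lab t)).erase (X.ρ s)).erase t,
      ((if X.g (X.ρ y) = X.ρ y then 1 else 0) +
        (if X.g (X.ρ (X.ρ y)) = X.ρ (X.ρ y) then 1 else 0)) ≤
      (((X.cor (X.lab t)).erase (X.ρ s)).erase t).card := by
    refine (sum_le_card_nsmul _ _ 1 fun y hy => ?_).trans (by simp)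
    have hyA : y ∈ X.A := (mem_cor.1 (mem_of_mem_erase (mem_of_mem_erase hy))).1
    by_cases h1 : X.g (X.ρ y) = X.ρ y
    · rw [if_pos h1, if_neg (hn _ (hX.A_rho y hyA) h1)]
    · rw [if_neg h1]
      split_ifs <;> omega
  rw [b1, b2]
  omega

/-- the fan between two consecutive free sides -/
theorem Good.fan_spec (hX : X.Good) (hpf : X.PF) {s t : S} (hs : s ∈ X.free) (ht : t ∈ X.free)
    (hst : X.lab t = X.lab (X.ρ s)) {k : ℕ} (hk : (X.cor (X.lab t)).card = k + 1) :
    (X.sg ^ k) (X.ρ s) = t ∧ (∀ j < k, X.g ((X.sg ^ j) (X.ρ s)) ≠ (X.sg ^ j) (X.ρ s)) ∧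
    (∀ y ∈ X.cor (X.lab t), ∃ j ≤ k, y = (X.sg ^ j) (X.ρ s)) := by
  obtain ⟨k', h1, h2, h3, h4, h5⟩ := hX.fan hpf hs
  have h6 := hX.fan_card h3 h4 h5
  rw [← hst] at h6
  have h7 : k' = k := by omega
  subst h7
  have h8 : (X.sg ^ k') (X.ρ s) = t := hpf.inj h1 ht (by rw [(mem_cor.1 (h3 k' le_rfl)).2, hst])
  refine ⟨h8, fun j hj h => h2 j hj (mem_free.2 ⟨(mem_cor.1 (h3 j hj.le)).1, h⟩), ?_⟩
  rw [hst]
  exact h4

/-- a fan of two cells -/
theorem Good.fan_two (hX : X.Good) (hpf : X.PF) {s t : S} (hs : s ∈ X.free) (ht : t ∈ X.free)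
    (hst : X.lab t = X.lab (X.ρ s)) (hk : (X.cor (X.lab t)).card = 2) :
    X.g (X.ρ s) ≠ X.ρ s ∧ X.ρ (X.g (X.ρ s)) = t ∧
    (∀ y ∈ X.cor (X.lab t), y = X.ρ s ∨ y = t) := by
  obtain ⟨h1, h2, h3⟩ := hX.fan_spec hpf hs ht hst (k := 1) (by omega)
  refine ⟨?_, ?_, fun y hy => ?_⟩
  · have := h2 0 (by omega)
    rwa [pow_zero, Perm.one_apply] at this
  · rw [pow_one] at h1
    exact h1
  · obtain ⟨j, hj, rfl⟩ := h3 y hy
    rcases Nat.lt_or_ge j 1 with h | h
    · left
      have : j = 0 := by omega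
      rw [this, pow_zero, Perm.one_apply]
    · right
      have : j = 1 := by omega
      rw [this, h1]

/-- a fan of three cells -/
theorem Good.fan_three (hX : X.Good) (hpf : X.PF) {s t : S} (hs : s ∈ X.free) (ht : t ∈ X.free)
    (hst : X.lab t = X.lab (X.ρ s)) (hk : (X.cor (X.lab t)).card = 3) :
    ∃ m, m ∈ X.cor (X.lab t) ∧ X.g (X.ρ s) ≠ X.ρ s ∧ X.ρ (X.g (X.ρ s)) = m ∧ X.g m ≠ m ∧
    X.ρ (X.g m) = t ∧ (∀ y ∈ X.cor (X.lab t), y = X.ρ s ∨ y = m ∨ y = t) := by
  obtain ⟨h1, h2, h3⟩ := hX.fan_spec hpf hs ht hst (k := 2) (by omega)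
  have e0 := h2 0 (by omega)
  have e1 := h2 1 (by omega)
  rw [pow_zero, Perm.one_apply] at e0
  rw [pow_one] at e1
  rw [pow_two, Perm.mul_apply] at h1
  refine ⟨X.sg (X.ρ s), ?_, e0, rfl, e1, h1, fun y hy => ?_⟩
  · refine mem_cor.2 ⟨?_, ?_⟩
    · rw [sg_apply]
      exact hX.A_rho _ (hX.g_mem e0)
    · rw [sg_apply, hX.lab_g' e0, hst]
  · obtain ⟨j, hj, rfl⟩ := h3 y hy
    have h4 : j = 0 ∨ j = 1 ∨ j = 2 := by omega
    rcases h4 with rfl | rfl | rfl
    · left
      rw [pow_zero, Perm.one_apply]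
    · right; left
      rw [pow_one]
    · right; right
      rw [pow_two, Perm.mul_apply, h1]

/-- what is known in the flat case -/
structure Flat (X : Cx S) : Prop where
  good : X.Good
  pf : X.PF
  nadj : X.NAdj
  u : ∀ s ∈ X.A, X.u (X.lab s) = 2
  dup : ∀ s, X.g s ≠ s → X.lab (X.ρ (X.ρ (X.ρ s))) ≠ X.lab (X.ρ (X.ρ (X.g s)))
  zip : ∀ s ∈ X.A, X.g (X.ρ s) ≠ X.ρ s → X.g (X.ρ (X.ρ s)) ≠ X.ρ (X.ρ s) →
    ∃ C : Finset ℕ, (X.del {X.lab s}).Cov C ∧ X.lab (X.ρ s) ∈ C ∧
      X.lab (X.ρ (X.ρ (X.ρ s))) ∈ C ∧ C.card < X.tau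
  cor : ∀ s s' s'', s ∈ X.free → s' ∈ X.free → s'' ∈ X.free → X.ρ (X.ρ s) ∈ X.free →
    X.ρ (X.ρ s') ∈ X.free → X.ρ (X.ρ s'') ∈ X.free → X.g (X.ρ s) ≠ X.ρ s →
    X.ρ (X.g (X.ρ s)) = s' → X.g (X.ρ s') ≠ X.ρ s' → X.ρ (X.g (X.ρ s')) = s'' → s'' = s

namespace Flat

variable (h : X.Flat)
include h

/-- the zip at the corner opposite to the corner `s` of a star -/
theorem zip_false {s : S} (hs : s ∈ X.A) (h1 : X.g (X.ρ s) ≠ X.ρ s)
    (h2 : X.g (X.ρ (X.ρ s)) ≠ X.ρ (X.ρ s))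
    (hcov : ∀ y ∈ X.cor (X.lab s), ∀ C : Finset ℕ, X.lab (X.ρ s) ∈ C →
      X.lab (X.ρ (X.ρ (X.ρ s))) ∈ C → X.lab (X.ρ y) ∈ C ∨ X.lab (X.ρ (X.ρ (X.ρ y))) ∈ C) :
    False := by
  obtain ⟨C, hC, h3, h4, h5⟩ := h.zip s hs h1 h2
  have hX := h.good
  have h6 : X.Cov C := by
    intro x hx
    by_cases h7 : x ∈ X.star {X.lab s}
    · have h8 := (mem_star.1 h7).2
      simp only [mem_singleton] at h8
      have r4 := hX.rho4 x
      rcases h8 with h8 | h8 | h8 | h8
      · rcases hcov x (mem_cor.2 ⟨hx, h8⟩) C h3 h4 with h9 | h9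
        · exact Or.inr (Or.inl h9)
        · exact Or.inr (Or.inr (Or.inr h9))
      · rcases hcov _ (mem_cor.2 ⟨hX.A_rho _ hx, h8⟩) C h3 h4 with h9 | h9
        · exact Or.inr (Or.inr (Or.inl h9))
        · rw [r4] at h9
          exact Or.inl h9
      · rcases hcov _ (mem_cor.2 ⟨hX.A_rho _ (hX.A_rho _ hx), h8⟩) C h3 h4 with h9 | h9
        · exact Or.inr (Or.inr (Or.inr h9))
        · rw [r4] at h9
          exact Or.inr (Or.inl h9)
      · rcases hcov _ (mem_cor.2 ⟨hX.A_rho _ (hX.A_rho _ (hX.A_rho _ hx)), h8⟩) C h3 h4 with h9 | h9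
        · rw [r4] at h9
          exact Or.inl h9
        · rw [r4] at h9
          exact Or.inr (Or.inr (Or.inl h9))
    · exact hC x (by rw [del_A]; exact mem_sdiff.2 ⟨hx, h7⟩)
  have h7 := tau_le h6
  omega

/-- the cell of the free side `s` has one free side only -/
def _root_.Pool.Agent.Lib.MP06c549.Z.Cx.TT (X : Cx S) (s : {s // s ∈ X.free}) : Prop :=
  X.g (X.ρ (X.ρ s.1)) ≠ X.ρ (X.ρ s.1)

/-- the number of the inner cells of the fan -/
def _root_.Pool.Agent.Lib.MP06c549.Z.Cx.aa (X : Cx S) (s : {s // s ∈ X.free}) : ℕ :=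
  (X.cor (X.lab s.1)).card - 2

lemma rho3_glued {s : S} (hs : s ∈ X.free) : X.g (X.ρ (X.ρ (X.ρ s))) ≠ X.ρ (X.ρ (X.ρ s)) := by
  intro h1
  have h2 := h.nadj _ (h.good.A_rho _ (h.good.A_rho _ (h.good.A_rho _ (mem_free.1 hs).1))) h1
  rw [h.good.rho4] at h2
  exact h2 (mem_free.1 hs).2

omit h in
lemma nT {s : {s // s ∈ X.free}} (hs : ¬ X.TT s) : X.g (X.ρ (X.ρ s.1)) = X.ρ (X.ρ s.1) :=
  not_not.1 hs

open Classical in
lemma count (s t : {s // s ∈ X.free}) (hst : X.lab t.1 = X.lab (X.ρ s.1)) :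
    2 ≤ (X.cor (X.lab t.1)).card ∧
    2 ≤ (if X.TT s then 0 else 1) + (if X.TT t then 0 else 1) + X.aa t := by
  have h1 := h.good.u_bound h.nadj s.2 t.2 hst
  rw [h.u _ (mem_free.1 t.2).1] at h1
  obtain ⟨h1, h2⟩ := h1
  refine ⟨h1, ?_⟩
  have e1 : (if X.g (X.ρ (X.ρ s.1)) = X.ρ (X.ρ s.1) then 1 else 0) =
      (if X.TT s then 0 else 1) := by
    unfold TT
    split_ifs <;> simp_all
  have e2 : (if X.g (X.ρ (X.ρ t.1)) = X.ρ (X.ρ t.1) then 1 else 0) =
      (if X.TT t then 0 else 1) := by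
    unfold TT
    split_ifs <;> simp_all
  rw [e1, e2] at h2
  unfold aa
  omega

/-- (a): no fan `[S Q S]` -/
theorem pivot (s t : {s // s ∈ X.free}) (hst : X.lab t.1 = X.lab (X.ρ s.1)) (hs : ¬ X.TT s)
    (ht : ¬ X.TT t) : X.aa t ≠ 1 := by
  classical
  intro ha
  have hX := h.good
  have hs' := nT hs
  have ht' := nT ht
  have hc : (X.cor (X.lab t.1)).card = 3 := by
    have := (h.count s t hst).1
    unfold aa at ha
    omega
  obtain ⟨m, hm, m1, m2, m3, m4, m5⟩ := hX.fan_three h.pf s.2 t.2 hst hc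
  obtain ⟨hsA, hsf⟩ := mem_free.1 s.2
  obtain ⟨htA, htf⟩ := mem_free.1 t.2
  have hmA := (mem_cor.1 hm).1
  have n1 : X.ρ s.1 ≠ m := by
    intro e
    rw [e] at m2
    have e1 : X.g m = s.1 := X.ρ.injective (by rw [m2, e])
    have e2 := X.inv m
    rw [e1, hsf] at e2
    rw [← e2] at e
    exact hX.rho1 _ e
  have n2 : m ≠ t.1 := by
    rintro rfl
    exact m3 htf
  have n3 : X.ρ s.1 ≠ t.1 := by
    intro e
    rw [← e] at htf
    exact m1 htf
  have hu := h.u _ htA
  rw [u_eq_sum] at hu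
  have hsub : ({X.ρ s.1, m, t.1} : Finset S) ⊆ X.cor (X.lab t.1) := by
    intro y hy
    simp only [mem_insert, mem_singleton] at hy
    rcases hy with rfl | rfl | rfl
    · exact mem_cor.2 ⟨hX.A_rho _ hsA, hst.symm⟩
    · exact hm
    · exact mem_cor.2 ⟨htA, rfl⟩
  have hle := sum_le_sum_of_subset (f := fun y => (if X.g (X.ρ y) = X.ρ y then 1 else 0) +
    (if X.g (X.ρ (X.ρ y)) = X.ρ (X.ρ y) then 1 else 0)) hsub
  rw [hu, sum_insert (by simp [n1, n3]), sum_insert (by simp [n2]), sum_singleton, if_pos hs',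
    if_pos ht'] at hle
  have q1 : X.g (X.ρ m) ≠ X.ρ m := by
    intro e
    rw [if_pos e] at hle
    omega
  have q2 : X.g (X.ρ (X.ρ m)) ≠ X.ρ (X.ρ m) := by
    intro e
    rw [if_pos e] at hle
    omega
  refine h.zip_false hmA q1 q2 fun y hy C c1 c2 => ?_
  rw [(mem_cor.1 hm).2] at hy
  rcases m5 y hy with rfl | rfl | rfl
  · left
    rw [← m2, hX.rho4, hX.lab_g _ m1] at c2
    exact c2
  · left
    exact c1
  · right
    rw [← m4, hX.rho4, hX.lab_g _ m3]
    exact c1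

/-- a digon hole: the zip in the star of the end of the side `s` -/
theorem zipA (s t : {s // s ∈ X.free}) (hst : X.lab t.1 = X.lab (X.ρ s.1))
    (hts : X.lab s.1 = X.lab (X.ρ t.1)) (hs : X.TT s) : X.aa t ≠ 1 := by
  intro ha
  have hX := h.good
  have hc : (X.cor (X.lab t.1)).card = 3 := by
    have := (h.count s t hst).1
    unfold aa at ha
    omega
  obtain ⟨m, hm, m1, m2, m3, m4, m5⟩ := hX.fan_three h.pf s.2 t.2 hst hc
  obtain ⟨hsA, hsf⟩ := mem_free.1 s.2
  refine h.zip_false (hX.A_rho _ hsA) hs (h.rho3_glued s.2) fun y hy C c1 c2 => ?_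
  rw [← hst] at hy
  rw [hX.rho4] at c2
  rcases m5 y hy with rfl | rfl | rfl
  · left
    exact c1
  · right
    rw [← m2, hX.rho4, hX.lab_g _ m1]
    exact c1
  · left
    rw [← hts]
    exact c2

/-- a digon hole: the zip in the star of the start of the side `s` -/
theorem zipB (r s : {s // s ∈ X.free}) (hrs : X.lab s.1 = X.lab (X.ρ r.1))
    (hsr : X.lab r.1 = X.lab (X.ρ s.1)) (hs : X.TT s) : X.aa s ≠ 1 := by
  intro ha
  have hX := h.good
  have hc : (X.cor (X.lab s.1)).card = 3 := by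
    have := (h.count r s hrs).1
    unfold aa at ha
    omega
  obtain ⟨m, hm, m1, m2, m3, m4, m5⟩ := hX.fan_three h.pf r.2 s.2 hrs hc
  obtain ⟨hsA, hsf⟩ := mem_free.1 s.2
  refine h.zip_false hsA (h.nadj _ hsA hsf) hs fun y hy C c1 c2 => ?_
  rcases m5 y hy with rfl | rfl | rfl
  · right
    rw [hX.rho4, hsr]
    exact c1
  · left
    rw [← m4, hX.rho4, hX.lab_g _ m3] at c2
    exact c2
  · left
    exact c1

/-- a digon hole between two straight cells -/
theorem dup' (s t : {s // s ∈ X.free}) (hst : X.lab t.1 = X.lab (X.ρ s.1))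
    (hts : X.lab s.1 = X.lab (X.ρ t.1)) : X.aa t ≠ 0 := by
  intro ha
  have hX := h.good
  have hc : (X.cor (X.lab t.1)).card = 2 := by
    have := (h.count s t hst).1
    unfold aa at ha
    omega
  obtain ⟨m1, m2, m3⟩ := hX.fan_two h.pf s.2 t.2 hst hc
  refine h.dup _ m1 ?_
  rw [hX.rho4, m2]
  exact hts

/-- the hole with the free side `s` -/
theorem ring (ν : Perm {s // s ∈ X.free}) (hν : ∀ s, X.lab (ν s).1 = X.lab (X.ρ s.1))
    (C : Finset {s // s ∈ X.free}) (hC : ∀ s ∈ C, ν s ∈ C) (hC' : ∀ s ∈ C, ν.symm s ∈ C)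
    (hsum : ∑ x ∈ C, X.aa x ≤ 3) : RingOk ν X.TT X.aa (fun s => X.lab s.1) C := by
  classical
  have hX := h.good
  refine ⟨hC, hC', hsum, ?_, ?_, ?_, ?_, ?_, ?_, ?_⟩
  · intro s _
    rw [hν]
    exact hX.par _ (mem_free.1 s.2).1
  · intro s _ hT
    have h1 := (h.count (ν.symm s) s (by rw [← hν, Equiv.apply_symm_apply])).2
    rw [if_pos hT] at h1
    split_ifs at h1 <;> omega
  · intro s _ hT
    have h1 := (h.count s (ν s) (hν s)).2
    rw [if_pos hT] at h1
    split_ifs at h1 <;> omega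
  · intro s _ hT hT'
    have h1 := (h.count s (ν s) (hν s)).2
    rw [if_pos hT, if_pos hT'] at h1
    omega
  · intro s _ hT hT'
    exact h.pivot s (ν s) (hν s) hT hT'
  · intro s _ hT hT' hT'' ha ha'
    have hc : (X.cor (X.lab (ν s).1)).card = 2 := by
      have := (h.count s (ν s) (hν s)).1
      unfold aa at ha
      omega
    have hc' : (X.cor (X.lab (ν (ν s)).1)).card = 2 := by
      have := (h.count (ν s) (ν (ν s)) (hν _)).1
      unfold aa at ha'
      omega
    obtain ⟨m1, m2, -⟩ := hX.fan_two h.pf s.2 (ν s).2 (hν s) hc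
    obtain ⟨k1, k2, -⟩ := hX.fan_two h.pf (ν s).2 (ν (ν s)).2 (hν _) hc'
    have hf : ∀ x : {s // s ∈ X.free}, ¬ X.TT x → X.ρ (X.ρ x.1) ∈ X.free := fun x hx =>
      mem_free.2 ⟨hX.A_rho _ (hX.A_rho _ (mem_free.1 x.2).1), nT hx⟩
    exact Subtype.ext (h.cor _ _ _ s.2 (ν s).2 (ν (ν s)).2 (hf _ hT) (hf _ hT') (hf _ hT'') m1 m2
      k1 k2)
  · intro s _ hT hT' ha e
    exact h.zipA s (ν s) (hν s) (by rw [← hν, e]) hT ha

/-- the flat case is impossible -/
theorem false (hne : X.A.Nonempty) : False := by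
  classical
  have hX := h.good
  obtain ⟨s0, hs0, hsum⟩ := hX.exists_positive' (fun s hs t ht => h.pf.inj hs ht) hne
  set ν := X.nu hX h.pf with hν
  have hlab : ∀ s, X.lab (ν s).1 = X.lab (X.ρ s.1) := fun s => hX.nxf_lab h.pf s
  set C : Finset {s // s ∈ X.free} := univ.filter fun s => SameCycle X.sg s0 s.1 with hC
  have hC1 : ∀ s ∈ C, ν s ∈ C := by
    intro s hs
    exact mem_filter.2 ⟨mem_univ _, (mem_filter.1 hs).2.trans (hX.nxf_same h.pf s)⟩
  have hC2 : ∀ s ∈ C, ν.symm s ∈ C := by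
    intro s hs
    have h1 := hX.nxf_same h.pf (ν.symm s)
    have h2 : X.nxf hX h.pf (ν.symm s) = s := ν.apply_symm_apply s
    rw [h2] at h1
    exact mem_filter.2 ⟨mem_univ _, (mem_filter.1 hs).2.trans h1.symm⟩
  have hC3 : C.Nonempty := ⟨⟨s0, hs0⟩, mem_filter.2 ⟨mem_univ _, SameCycle.refl _ _⟩⟩
  have hmap : C.map (Function.Embedding.subtype _) =
      X.free.filter (fun t => SameCycle (X.ρ * X.g) s0 t) := by
    ext x
    rw [mem_map, mem_filter]
    constructor
    · rintro ⟨y, hy, rfl⟩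
      exact ⟨y.2, (mem_filter.1 hy).2⟩
    · rintro ⟨hx, hx'⟩
      exact ⟨⟨x, hx⟩, mem_filter.2 ⟨mem_univ _, hx'⟩, rfl⟩
  have hC4 : ∑ x ∈ C, X.aa x ≤ 3 := by
    rw [← hmap, sum_map, card_map] at hsum
    have h1 : ∑ x ∈ C, (X.aa x + 2) = ∑ x ∈ C, (X.cor (X.lab x.1)).card := by
      refine sum_congr rfl fun x hx => ?_
      have h2 := (h.count (ν.symm x) x (by rw [← hlab, Equiv.apply_symm_apply])).1
      unfold aa
      omega
    rw [sum_add_distrib, sum_const, smul_eq_mul] at h1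
    have h3 : ∑ x ∈ C, (X.cor (X.lab (Function.Embedding.subtype (fun s => s ∈ X.free) x))).card =
      ∑ x ∈ C, (X.cor (X.lab x.1)).card := rfl
    omega
  refine (h.ring ν hlab C hC1 hC2 hC4).false hC3 ?_ ?_
  · intro s _ hT hT' ha e
    exact h.dup' s (ν s) (hlab s) (by rw [← hlab, e]) ha
  · intro s _ hT hT' ha e
    have h1 : ν s = ν.symm s := ν.injective (by rw [e, Equiv.apply_symm_apply])
    refine h.zipB (ν.symm s) s (by rw [← hlab, Equiv.apply_symm_apply]) ?_ hT ha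
    rw [← h1, hlab]

end Flat

end Cx

end Pool.Agent.Lib.MP06c549.Z
end

section
/-!
# MP_06c549_co, Z: module RUNS

If the star of the vertex `v` of a minimal counterexample separates (`1 < (X.del {v}).c`), then
there are two gates `s`, `t` at `v`, both next to a free link side, whose other ends lie on one
hole; cutting both of them gives two parts, each with at least two cells (`Min.runs`).
-/
set_option autoImplicit false
set_option linter.unusedSectionVars false

namespace Pool.Agent.Lib.MP06c549.Z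

open Equiv Equiv.Perm Finset

variable {S : Type} [Fintype S] [DecidableEq S]

namespace Cx

variable {X : Cx S}

/-- the corners `x 0, .., x n` of the vertex `v`, in the order of the fan -/
structure FanV (X : Cx S) (v n : ℕ) (x : ℕ → S) : Prop where
  mem : ∀ j ≤ n, x j ∈ X.A
  lab : ∀ j ≤ n, X.lab (x j) = v
  first : X.g (X.ρ (X.ρ (X.ρ (x 0)))) = X.ρ (X.ρ (X.ρ (x 0)))
  glued : ∀ j < n, X.g (x j) ≠ x j
  step : ∀ j < n, x (j + 1) = X.ρ (X.g (x j))
  last : X.g (x n) = x n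
  all : ∀ y ∈ X.A, X.lab y = v → ∃ j ≤ n, y = x j
  inj : ∀ i ≤ n, ∀ j ≤ n, x i = x j → i = j

lemma Good.exists_fanV (hX : X.Good) (hpf : X.PF) {v : ℕ} (hv : v ∈ X.labs) :
    ∃ n x, X.FanV v n x := by
  obtain ⟨a, ha, rfl⟩ := mem_image.1 hv
  obtain ⟨t, ht, htl, -⟩ := hX.exists_free ha
  set s := (X.nu hX hpf).symm ⟨t, ht⟩ with hs
  have h1 : X.lab (X.ρ s.1) = X.lab a := by
    rw [← htl, ← hX.nxf_lab hpf s, ← nu_apply, hs, Equiv.apply_symm_apply]
  obtain ⟨n, k1, k2, k3, k4, k5⟩ := hX.fan hpf s.2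
  have hsf := (mem_free.1 s.2).2
  refine ⟨n, fun j => (X.sg ^ j) (X.ρ s.1), ?_, ?_, ?_, ?_, ?_, ?_, ?_, ?_⟩
  · exact fun j hj => (mem_cor.1 (k3 j hj)).1
  · intro j hj
    rw [(mem_cor.1 (k3 j hj)).2, h1]
  · simp only [pow_zero, Perm.one_apply]
    rw [hX.rho4]
    exact hsf
  · exact fun j hj h => k2 j hj (mem_free.2 ⟨(mem_cor.1 (k3 j hj.le)).1, h⟩)
  · intro j _
    simp only [pow_succ', Perm.mul_apply]
    rfl
  · exact (mem_free.1 k1).2
  · intro y hy hyl
    exact k4 y (mem_cor.2 ⟨hy, by rw [hyl, h1]⟩)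
  · exact k5

/-- the link sides in the order of the fan -/
def lks (X : Cx S) (x : ℕ → S) (m : ℕ) : S :=
  if m % 2 = 0 then X.ρ (X.ρ (x (m / 2))) else X.ρ (x (m / 2))

lemma lks_even (x : ℕ → S) (j : ℕ) : X.lks x (2 * j) = X.ρ (X.ρ (x j)) := by
  unfold lks
  rw [if_pos (by omega)]
  congr 3
  omega

lemma lks_odd (x : ℕ → S) (j : ℕ) : X.lks x (2 * j + 1) = X.ρ (x j) := by
  unfold lks
  rw [if_neg (by omega)]
  congr 2
  omega

namespace FanV

variable {v n : ℕ} {x : ℕ → S} (h : X.FanV v n x) (hX : X.Good)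
include h

lemma gmem_star {j : ℕ} (hj : j ≤ n) : x j ∈ X.star {v} :=
  mem_star_iff.2 ⟨h.mem j hj, mem_lc.2 (Or.inl (h.lab j hj))⟩

include hX

lemma back {j : ℕ} (hjn : j < n) : X.ρ (X.ρ (X.ρ (x (j + 1)))) = X.g (x j) := by
  rw [h.step j hjn, hX.rho4]

lemma gback {j : ℕ} (hjn : j < n) : X.g (X.ρ (X.ρ (X.ρ (x (j + 1))))) = x j := by
  rw [h.back hX hjn, X.inv]

lemma star_iff {a : S} : a ∈ X.star {v} ↔ a ∈ X.A ∧ ∃ j ≤ n, a = x j ∨ X.ρ a = x j ∨
    X.ρ (X.ρ a) = x j ∨ X.ρ (X.ρ (X.ρ a)) = x j := by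
  rw [mem_star_iff, mem_lc]
  refine and_congr_right fun ha => ?_
  have e1 := hX.A_rho a ha
  have e2 := hX.A_rho _ e1
  have e3 := hX.A_rho _ e2
  constructor
  · rintro (h1 | h1 | h1 | h1)
    · obtain ⟨j, hj, h2⟩ := h.all _ ha h1; exact ⟨j, hj, Or.inl h2⟩
    · obtain ⟨j, hj, h2⟩ := h.all _ e1 h1; exact ⟨j, hj, Or.inr (Or.inl h2)⟩
    · obtain ⟨j, hj, h2⟩ := h.all _ e2 h1; exact ⟨j, hj, Or.inr (Or.inr (Or.inl h2))⟩
    · obtain ⟨j, hj, h2⟩ := h.all _ e3 h1; exact ⟨j, hj, Or.inr (Or.inr (Or.inr h2))⟩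
  · rintro ⟨j, hj, h2 | h2 | h2 | h2⟩
    · left; rw [h2, h.lab j hj]
    · right; left; rw [h2, h.lab j hj]
    · right; right; left; rw [h2, h.lab j hj]
    · right; right; right; rw [h2, h.lab j hj]

/-- a side of the star: link side or at `v` -/
lemma star_cases {a : S} (ha : a ∈ X.star {v}) : X.lab a = v ∨ X.lab (X.ρ a) = v ∨
    ∃ m ≤ 2 * n + 1, a = X.lks x m := by
  obtain ⟨-, j, hj, h1 | h1 | h1 | h1⟩ := (h.star_iff hX).1 ha
  · left; rw [h1, h.lab j hj]
  · right; left; rw [h1, h.lab j hj]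
  · right; right
    refine ⟨2 * j, by omega, ?_⟩
    rw [lks_even, ← h1, hX.rho4]
  · right; right
    refine ⟨2 * j + 1, by omega, ?_⟩
    rw [lks_odd, ← h1, hX.rho4]

lemma lks_star {m : ℕ} (hm : m ≤ 2 * n + 1) : X.lks x m ∈ X.star {v} := by
  rcases Nat.even_or_odd' m with ⟨j, rfl | rfl⟩
  · rw [lks_even]
    exact hX.cl_star _ _ (hX.cl_star _ _ (h.gmem_star (by omega)))
  · rw [lks_odd]
    exact hX.cl_star _ _ (h.gmem_star (by omega))

/-- the partner of a side of the star that is not in the star: the side is a link side -/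
lemma out_link {a : S} (ha : a ∈ X.star {v}) (hg : X.g a ∉ X.star {v}) :
    ∃ m ≤ 2 * n + 1, a = X.lks x m := by
  have haA := (mem_star_iff.1 ha).1
  have hga : X.g a ≠ a := fun h1 => hg (by rw [h1]; exact ha)
  rcases h.star_cases hX ha with h1 | h1 | h1
  · exfalso
    refine hg (mem_star_iff.2 ⟨hX.g_mem hga, mem_lc.2 (Or.inr (Or.inl ?_))⟩)
    rw [hX.lab_g' hga, h1]
  · exfalso
    refine hg (mem_star_iff.2 ⟨hX.g_mem hga, mem_lc.2 (Or.inl ?_)⟩)
    rw [hX.lab_g _ hga, h1]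
  · exact h1

/-- from a link side to the one before it -/
lemma lks_step {m : ℕ} (hm : m < 2 * n + 1) :
    (X.ρ * X.g) (X.g (X.lks x (m + 1))) = X.lks x m ∨
    (∃ j < n, m = 2 * j + 1 ∧ (X.ρ * X.g) (X.g (X.lks x (m + 1))) = X.g (x j) ∧
      (X.ρ * X.g) (X.g (x j)) = X.lks x m) := by
  rcases Nat.even_or_odd' m with ⟨j, rfl | rfl⟩
  · left
    rw [lks_even, lks_odd, Perm.mul_apply, X.inv]
  · right
    refine ⟨j, by omega, rfl, ?_, ?_⟩
    · rw [show 2 * j + 1 + 1 = 2 * (j + 1) by ring, lks_even, Perm.mul_apply, X.inv]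
      exact h.back hX (by omega)
    · rw [lks_odd, Perm.mul_apply, X.inv]

/-- free link sides: one hole -/
lemma lks_same {m : ℕ} (hm : m < 2 * n + 1) (hf : X.g (X.lks x (m + 1)) = X.lks x (m + 1)) :
    SameCycle (X.ρ * X.g) (X.lks x m) (X.lks x (m + 1)) := by
  rcases h.lks_step hX hm with h1 | ⟨j, -, -, h1, h2⟩
  · rw [hf] at h1
    refine SameCycle.symm ⟨1, ?_⟩
    rw [zpow_one]; exact h1
  · rw [hf] at h1
    refine SameCycle.symm ⟨2, ?_⟩
    rw [show (2 : ℤ) = 1 + 1 by norm_num, zpow_add, zpow_one, Perm.mul_apply, h1]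
    exact h2

lemma lks_same_of {k l : ℕ} (hl : l ≤ 2 * n + 1) (hkl : k ≤ l)
    (hf : ∀ m, k < m → m ≤ l → X.g (X.lks x m) = X.lks x m) :
    SameCycle (X.ρ * X.g) (X.lks x k) (X.lks x l) := by
  induction l, hkl using Nat.le_induction with
  | base => exact SameCycle.refl _ _
  | succ l hkl ih =>
    refine (ih (by omega) fun m h1 h2 => hf m h1 (by omega)).trans ?_
    exact h.lks_same hX (by omega) (hf _ (by omega) le_rfl)

/-- consecutive link sides have a common label -/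
lemma lks_lab {m : ℕ} (hm : m < 2 * n + 1) :
    X.lab (X.lks x m) = X.lab (X.ρ (X.lks x (m + 1))) := by
  rcases Nat.even_or_odd' m with ⟨j, rfl | rfl⟩
  · rw [lks_even, lks_odd]
  · rw [show 2 * j + 1 + 1 = 2 * (j + 1) by ring, lks_even, lks_odd, h.back hX (by omega),
      hX.lab_g _ (h.glued j (by omega))]

/-- all corners of `v` lie on one hole -/
lemma same_cor {i j : ℕ} (hi : i ≤ n) (hj : j ≤ n) : SameCycle (X.ρ * X.g) (x i) (x j) := by
  have key : ∀ k ≤ n, SameCycle (X.ρ * X.g) (x 0) (x k) := by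
    intro k
    induction k with
    | zero => intro _; exact SameCycle.refl _ _
    | succ k ih =>
      intro hk
      refine (ih (by omega)).trans ⟨1, ?_⟩
      rw [zpow_one, Perm.mul_apply]
      exact (h.step k (by omega)).symm
  exact (key i hi).symm.trans (key j hj)

/-- a free side of the star is on the hole of `v`, or a link side -/
lemma free_cases {a : S} (ha : a ∈ X.star {v}) (hf : X.g a = a) :
    SameCycle (X.ρ * X.g) (x 0) a ∨ ∃ m ≤ 2 * n + 1, a = X.lks x m := by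
  have haA := (mem_star_iff.1 ha).1
  rcases h.star_cases hX ha with h1 | h1 | h1
  · left
    obtain ⟨j, hj, rfl⟩ := h.all _ haA h1
    exact h.same_cor hX (by omega) hj
  · left
    obtain ⟨j, hj, h2⟩ := h.all _ (hX.A_rho _ haA) h1
    refine (h.same_cor hX (by omega) hj).trans (SameCycle.symm ⟨1, ?_⟩)
    rw [zpow_one, Perm.mul_apply, hf, h2]
  · exact Or.inr h1

/-- the gate next to a free link side -/
lemma gate_mid {m : ℕ} (hm1 : 1 ≤ m) (hm : m ≤ 2 * n) (hf : X.g (X.lks x m) = X.lks x m) :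
    ∃ i < n, 2 * i + 1 ≤ m ∧ m ≤ 2 * i + 2 ∧
      (X.g (X.ρ (x i)) = X.ρ (x i) ∨
        X.g (X.ρ (X.ρ (x (i + 1)))) = X.ρ (X.ρ (x (i + 1)))) ∧
      SameCycle (X.ρ * X.g) (X.g (x i)) (X.lks x m) := by
  rcases Nat.even_or_odd' m with ⟨j, rfl | rfl⟩
  · rw [lks_even] at hf ⊢
    rcases j with - | j
    · omega
    · refine ⟨j, by omega, by omega, by omega, Or.inr hf, SameCycle.symm ⟨1, ?_⟩⟩
      rw [zpow_one, Perm.mul_apply, hf]
      exact h.back hX (by omega)
  · rw [lks_odd] at hf ⊢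
    refine ⟨j, by omega, by omega, by omega, Or.inl hf, ⟨1, ?_⟩⟩
    rw [zpow_one, Perm.mul_apply, X.inv]

/-- a free link side at the end of the fan lies on the hole of `v` -/
lemma gate_end {m : ℕ} (hm : m = 0 ∨ m = 2 * n + 1) (hf : X.g (X.lks x m) = X.lks x m) :
    SameCycle (X.ρ * X.g) (x 0) (X.lks x m) := by
  rcases hm with rfl | rfl
  · rw [show (0 : ℕ) = 2 * 0 by rfl, lks_even] at hf ⊢
    refine SameCycle.symm ⟨2, ?_⟩
    have e : (X.ρ * X.g) (X.ρ (X.ρ (x 0))) = X.ρ (X.ρ (X.ρ (x 0))) := by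
      rw [Perm.mul_apply, hf]
    rw [show (2 : ℤ) = 1 + 1 by norm_num, zpow_add, zpow_one, Perm.mul_apply, e,
      Perm.mul_apply, h.first, hX.rho4]
  · rw [lks_odd] at hf ⊢
    refine (h.same_cor hX (by omega) le_rfl).trans ⟨1, ?_⟩
    rw [zpow_one, Perm.mul_apply, h.last]

/-- no third common vertex at a gate, except for a digon hole (module DUP) -/
def _root_.Pool.Agent.Lib.MP06c549.Z.Cx.AllDup (X : Cx S) : Prop :=
  ∀ s, X.g s ≠ s → X.lab (X.ρ (X.ρ (X.ρ s))) = X.lab (X.ρ (X.ρ (X.g s))) →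
    X.g (X.ρ (X.ρ (X.ρ s))) = X.ρ (X.ρ (X.ρ s)) ∧ X.g (X.ρ (X.g s)) = X.ρ (X.g s)

/-- a glued link side with a partner in the star: the first or the last one, or the star contains
a cap and it is the second or the last but one -/
lemma inner (hcap : X.AllCap) (hdup : X.AllDup) {m : ℕ} (hm : m ≤ 2 * n + 1)
    (hg : X.g (X.lks x m) ≠ X.lks x m) (hs : X.g (X.lks x m) ∈ X.star {v}) :
    m = 0 ∨ m = 2 * n + 1 ∨ (m = 1 ∧ X.g (X.lks x 0) = X.lks x 0) ∨
      (m = 2 * n ∧ X.g (X.lks x (2 * n + 1)) = X.lks x (2 * n + 1)) := by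
  have hne0 : ∀ j ≤ n, X.g (X.ρ (X.ρ (X.ρ (x j)))) = X.ρ (X.ρ (X.ρ (x j))) → j = 0 := by
    intro j hj hf
    rcases j with - | j
    · rfl
    · exfalso
      rw [h.back hX (by omega), X.inv] at hf
      exact h.glued j (by omega) hf.symm
  have hnen : ∀ j ≤ n, X.g (x j) = x j → j = n := by
    intro j hj hf
    by_contra hjn
    exact h.glued j (by omega) hf
  obtain ⟨hyA, i, hi, hy⟩ := (h.star_iff hX).1 hs
  rcases Nat.even_or_odd' m with ⟨j, rfl | rfl⟩
  · -- the side `ρ² (x j)`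
    rw [lks_even] at hg hy hyA
    set s := X.ρ (X.ρ (x j)) with hsdef
    have hjn : j ≤ n := by omega
    have hxA := h.mem j hjn
    have hsA : s ∈ X.A := hX.A_rho _ (hX.A_rho _ hxA)
    have p0 := hX.par _ hyA
    have p1 := hX.par _ (hX.A_rho _ hyA)
    have p2 := hX.par _ (hX.A_rho _ (hX.A_rho _ hyA))
    have l1 := hX.lab_g s hg
    have l2 := hX.lab_g' hg
    have q0 := hX.par _ hxA
    have q1 := hX.par _ (hX.A_rho _ hxA)
    have q2 := hX.par s hsA
    have lx := h.lab j hjn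
    have ly := h.lab i hi
    rw [← hsdef] at q1
    have hcell : X.lab s = v → j = n ∧ X.g (X.lks x (2 * n + 1)) = X.lks x (2 * n + 1) := by
      intro h1
      rcases hcap (x j) hxA (by rw [← hsdef, h1, lx]) with h2 | h2
      · exact absurd h2.2.2.1 hg
      · have h3 := h2.2.2.1
        have h4 := h2.2.2.2.1
        rw [hX.rho4] at h3 h4
        have h5 := hnen j hjn h3
        refine ⟨h5, ?_⟩
        rw [lks_odd, ← h5]
        exact h4
    rcases hy with hy | hy | hy | hy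
    · exfalso
      rw [← hy, l1] at ly
      rw [ly] at q2
      omega
    · rw [← hy, l2] at ly
      obtain ⟨h5, h6⟩ := hcell ly
      rw [h5]
      exact Or.inr (Or.inr (Or.inr ⟨rfl, h6⟩))
    · exfalso
      rw [← hy] at ly
      omega
    · -- DUP
      rw [← hy] at ly
      have h1 := hdup (X.g s) (by rw [X.inv]; exact fun hh => hg hh.symm) (by
        rw [X.inv, ly, hsdef, hX.rho4, lx])
      rw [X.inv, hsdef] at h1
      left
      rw [hne0 j hjn h1.2]
  · -- the side `ρ (x j)`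
    rw [lks_odd] at hg hy hyA
    set s := X.ρ (x j) with hsdef
    have hjn : j ≤ n := by omega
    have hxA := h.mem j hjn
    have hsA : s ∈ X.A := hX.A_rho _ hxA
    have p0 := hX.par _ hyA
    have p1 := hX.par _ (hX.A_rho _ hyA)
    have p2 := hX.par _ (hX.A_rho _ (hX.A_rho _ hyA))
    have l1 := hX.lab_g s hg
    have l2 := hX.lab_g' hg
    have q0 := hX.par _ hxA
    have q1 := hX.par s hsA
    have lx := h.lab j hjn
    have ly := h.lab i hi
    rw [← hsdef] at q0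
    have hcell : X.lab (X.ρ s) = v → j = 0 ∧ X.g (X.lks x 0) = X.lks x 0 := by
      intro h1
      rcases hcap (x j) hxA (by rw [← hsdef, h1, lx]) with h2 | h2
      · have h5 := hne0 j hjn h2.2.2.2.1
        refine ⟨h5, ?_⟩
        rw [show (0 : ℕ) = 2 * 0 by rfl, lks_even, ← h5]
        exact h2.2.2.1
      · have h4 := h2.2.2.2.1
        rw [hX.rho4] at h4
        exact absurd h4 hg
    rcases hy with hy | hy | hy | hy
    · rw [← hy, l1] at ly
      obtain ⟨h5, h6⟩ := hcell ly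
      rw [h5]
      exact Or.inr (Or.inr (Or.inl ⟨rfl, h6⟩))
    · exfalso
      rw [← hy, l2] at ly
      omega
    · -- DUP
      rw [← hy] at ly
      have h1 := hdup s hg (by rw [hsdef, hX.rho4, lx, ← hsdef, ly])
      rw [hsdef, hX.rho4] at h1
      right; left
      rw [hnen j hjn h1.1]
    · exfalso
      rw [← hy] at ly
      omega

/-- between two outer link sides the sides are free or outer -/
lemma free_between (hcap : X.AllCap) (hdup : X.AllDup) {k m l : ℕ} (hkm : k < m) (hml : m < l)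
    (hl : l ≤ 2 * n + 1) (hk : X.g (X.lks x k) ∉ X.star {v}) (hlo : X.g (X.lks x l) ∉ X.star {v})
    (hm : X.g (X.lks x m) ∈ X.star {v}) : X.g (X.lks x m) = X.lks x m := by
  by_contra hg
  rcases h.inner hX hcap hdup (by omega) hg hm with h1 | h1 | ⟨h1, h2⟩ | ⟨h1, h2⟩
  · omega
  · omega
  · have : k = 0 := by omega
    subst this
    rw [h2] at hk
    exact hk (h.lks_star hX (by omega))
  · have : l = 2 * n + 1 := by omega
    subst this
    rw [h2] at hlo
    exact hlo (h.lks_star hX le_rfl)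

lemma out_glued {m : ℕ} (hm : m ≤ 2 * n + 1) (ho : X.g (X.lks x m) ∉ X.star {v}) :
    X.g (X.lks x m) ≠ X.lks x m := fun h1 => ho (by rw [h1]; exact h.lks_star hX hm)

/-- if the outer cells at the ends of a run are in different components, then there is a second
free link side on the hole of the run -/
lemma other {k l : ℕ} (hkl : k < l) (hl : l ≤ 2 * n + 1)
    (hk : X.g (X.lks x k) ∉ X.star {v}) (hlo : X.g (X.lks x l) ∉ X.star {v})
    (hf : ∀ m, k < m → m < l → X.g (X.lks x m) = X.lks x m)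
    (hq : ¬ (X.del {v}).conn (X.g (X.lks x k)) (X.g (X.lks x l))) :
    k + 1 < l ∧ (SameCycle (X.ρ * X.g) (x 0) (X.lks x k) ∨ ∃ m ≤ 2 * n + 1,
      X.g (X.lks x m) = X.lks x m ∧ SameCycle (X.ρ * X.g) (X.lks x k) (X.lks x m) ∧
      (m < k ∨ l < m)) := by
  classical
  have hK := hX.cl_star {v}
  have gk := h.out_glued hX (by omega) hk
  have gl := h.out_glued hX hl hlo
  have hkA : X.g (X.lks x k) ∈ X.A := hX.g_mem gk
  have hlA : X.g (X.lks x l) ∈ X.A := hX.g_mem gl
  set z := X.ρ (X.g (X.lks x k)) with hz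
  have hzA : z ∈ X.A := hX.A_rho _ hkA
  have hzs : z ∉ X.star {v} := fun h1 => hk ((hX.cl_iff hK).1 h1)
  have hdA : ∀ y, y ∈ (X.del {v}).A ↔ y ∈ X.A ∧ y ∉ X.star {v} := by
    intro y
    rw [del_A, mem_sdiff]
  have hkz : (X.del {v}).conn (X.g (X.lks x k)) z := conn_rho (X := X.del {v}) _
  have hlt : k + 1 < l := by
    by_contra h1
    have h2 : l = k + 1 := by omega
    subst h2
    refine hq ((X.del {v}).conn.trans hkz (conn_lab (X := X.del {v}) ((hdA _).2 ⟨hzA, hzs⟩)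
      ((hdA _).2 ⟨hlA, hlo⟩) ?_))
    change X.lab z = X.lab (X.g (X.lks x (k + 1)))
    rw [hX.lab_g _ gl, ← h.lks_lab hX (by omega), hz, hX.lab_g' gk]
  refine ⟨hlt, ?_⟩
  have h1 : SameCycle (X.ρ * X.g) z (X.lks x (k + 1)) := by
    refine SameCycle.trans (SameCycle.symm ⟨1, ?_⟩) (h.lks_same hX (by omega)
      (hf _ (by omega) hlt))
    rw [zpow_one, Perm.mul_apply]
  obtain ⟨i, -, -, hi⟩ := h1.exists_pow_eq''
  have hex : ∃ i : ℕ, ((X.ρ * X.g) ^ i) z ∈ X.star {v} ∧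
      X.g (((X.ρ * X.g) ^ i) z) = ((X.ρ * X.g) ^ i) z := by
    refine ⟨i, ?_, ?_⟩
    · rw [hi]; exact h.lks_star hX (by omega)
    · rw [hi]; exact hf _ (by omega) hlt
  obtain ⟨hw1, hw2⟩ := Nat.find_spec hex
  set N := Nat.find hex with hN
  have hmin : ∀ j < N, ((X.ρ * X.g) ^ j) z ∈ X.star {v} →
      X.g (((X.ρ * X.g) ^ j) z) ≠ ((X.ρ * X.g) ^ j) z :=
    fun j hj h2 h3 => Nat.find_min hex hj ⟨h2, h3⟩
  have hzk : SameCycle (X.ρ * X.g) (X.lks x k) z := ⟨1, by rw [zpow_one, Perm.mul_apply]⟩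
  have hzN : SameCycle (X.ρ * X.g) z (((X.ρ * X.g) ^ N) z) := ⟨(N : ℤ), by rw [zpow_natCast]⟩
  rcases h.free_cases hX hw1 hw2 with h3 | ⟨m, hm, h3⟩
  · exact Or.inl (h3.trans (hzk.trans hzN).symm)
  · right
    by_cases h4 : m < k ∨ l < m
    · exact ⟨m, hm, by rw [← h3]; exact hw2, by rw [← h3]; exact hzk.trans hzN, h4⟩
    exfalso
    have h5 : m ≠ k := by
      rintro rfl
      rw [h3] at hw2
      exact gk hw2
    have h6 : m ≠ l := by
      rintro rfl
      rw [h3] at hw2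
      exact gl hw2
    -- the walk reaches the partner of the outer side `l`
    have key : ∀ M < N, ((X.ρ * X.g) ^ M) z = X.g (X.lks x (m + 1)) → False := by
      intro M hM hMz
      rcases Nat.lt_or_ge (m + 1) l with h7 | h7
      · have h8 := hf (m + 1) (by omega) h7
        rw [h8] at hMz
        refine hmin M hM ?_ ?_
        · rw [hMz]; exact h.lks_star hX (by omega)
        · rw [hMz]; exact h8
      · have h8 : m + 1 = l := by omega
        rw [h8] at hMz
        have h9 := hX.walk hK hzA hzs M (fun j hj => hmin j (by omega)) (by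
          rw [hMz]; exact hlo)
        rw [hMz] at h9
        exact hq ((X.del {v}).conn.trans hkz h9)
    have hN1 : 1 ≤ N := by
      by_contra h7
      have h8 : N = 0 := by omega
      rw [h8, pow_zero, Perm.one_apply] at hw1
      exact hzs hw1
    obtain ⟨M, hM⟩ : ∃ M, N = M + 1 := ⟨N - 1, by omega⟩
    rw [hM, pow_succ', Perm.mul_apply] at h3
    rcases h.lks_step hX (m := m) (by omega) with h7 | ⟨j, hj, -, h7, h8⟩
    · rw [← h7] at h3
      exact key M (by omega) ((X.ρ * X.g).injective h3)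
    · rw [← h8] at h3
      have h9 := (X.ρ * X.g).injective h3
      have h10 : X.g (x j) ∈ X.star {v} := by
        rw [← h.back hX hj]
        exact hK _ (hK _ (hK _ (h.gmem_star (by omega))))
      have hM1 : 1 ≤ M := by
        by_contra h11
        have h12 : M = 0 := by omega
        rw [h12, pow_zero, Perm.one_apply] at h9
        exact hzs (by rw [h9]; exact h10)
      obtain ⟨M', hM'⟩ : ∃ M', M = M' + 1 := ⟨M - 1, by omega⟩
      rw [hM', pow_succ', Perm.mul_apply, ← h7] at h9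
      exact key M' (by omega) ((X.ρ * X.g).injective h9)

/-- consecutive outer link sides in different components -/
lemma exists_run (hcap : X.AllCap) (hdup : X.AllDup) {k l : ℕ} (hkl : k < l)
    (hl : l ≤ 2 * n + 1) (hk : X.g (X.lks x k) ∉ X.star {v})
    (hlo : X.g (X.lks x l) ∉ X.star {v})
    (hq : ¬ (X.del {v}).conn (X.g (X.lks x k)) (X.g (X.lks x l))) :
    ∃ k l, k < l ∧ l ≤ 2 * n + 1 ∧ X.g (X.lks x k) ∉ X.star {v} ∧
      X.g (X.lks x l) ∉ X.star {v} ∧ (∀ m, k < m → m < l → X.g (X.lks x m) = X.lks x m) ∧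
      ¬ (X.del {v}).conn (X.g (X.lks x k)) (X.g (X.lks x l)) := by
  induction hd : l - k using Nat.strong_induction_on generalizing k l with
  | _ d ih =>
    by_cases hout : ∃ m, k < m ∧ m < l ∧ X.g (X.lks x m) ∉ X.star {v}
    · obtain ⟨m, h1, h2, h3⟩ := hout
      by_cases h4 : (X.del {v}).conn (X.g (X.lks x k)) (X.g (X.lks x m))
      · refine ih (l - m) (by omega) h2 hl h3 hlo (fun h5 => hq ?_) rfl
        exact (X.del {v}).conn.trans h4 h5
      · exact ih (m - k) (by omega) h1 (by omega) hk h3 h4 rfl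
    · push Not at hout
      exact ⟨k, l, hkl, hl, hk, hlo, fun m h1 h2 =>
        h.free_between hX hcap hdup h1 h2 hl hk hlo (hout m h1 h2), hq⟩

/-- two cells, one in the star, one outside -/
lemma card8 {D : Finset S} (hD : X.Cl D) {a b : S} (ha : a ∈ D) (hb : b ∈ D)
    (has : a ∈ X.star {v}) (hbs : b ∉ X.star {v}) : 8 ≤ D.card := by
  have h1 : Disjoint (X.cell a) (X.cell b) := by
    rw [disjoint_left]
    intro t hta htb
    have h2 : t ∈ X.star {v} := cell_sub (hX.cl_star {v}) has hta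
    have h3 : X.cell t = X.cell b := hX.cell_eq htb
    exact hbs (cell_sub (hX.cl_star {v}) h2 (by rw [h3]; exact self_mem_cell b))
  have h2 : X.cell a ∪ X.cell b ⊆ D := union_subset (cell_sub hD ha) (cell_sub hD hb)
  have h3 := card_le_card h2
  rw [card_union_of_disjoint h1, hX.card_cell, hX.card_cell] at h3
  omega

/-- the cut at two gates -/
theorem two (hgc : ∀ a ∈ X.A, ∀ b ∈ X.A, X.gc a b) {i j : ℕ} (hij : i < j) (hj : j < n)
    (hnb : ¬ SameCycle (X.ρ * X.g) (x i) (X.g (x i)))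
    (hsame : SameCycle (X.ρ * X.g) (X.g (x i)) (X.g (x j)))
    {p q : ℕ} (hp1 : 2 * i + 2 ≤ p) (hp2 : p ≤ 2 * j + 1) (hp : X.g (X.lks x p) ∉ X.star {v})
    (hq1 : q ≤ 2 * i + 1 ∨ 2 * j + 2 ≤ q) (hq2 : q ≤ 2 * n + 1)
    (hq : X.g (X.lks x q) ∉ X.star {v}) :
    ∃ B, X.Part B {x j, X.g (x i)} ∧ x i ∉ B ∧ X.g (x j) ∉ B ∧
      SameCycle (X.ρ * (X.sub B).g) (x j) (X.g (x i)) ∧
      SameCycle (X.ρ * (X.sub (X.A \ B)).g) (x i) (X.g (x j)) ∧
      8 ≤ B.card ∧ 8 ≤ (X.A \ B).card ∧ ∀ m ≤ n, (x m ∈ B ↔ i < m ∧ m ≤ j) := by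
  have hji : x j ≠ x i := fun h1 => by
    have := h.inj j (by omega) i (by omega) h1
    omega
  obtain ⟨B, hB, hi1, hj1, hc1, hc2⟩ := hX.two_cut hgc (h.glued i (by omega)) (h.glued j hj) hji
    (h.same_cor hX (by omega) (by omega)) hsame hnb
  have hrho : ∀ a, X.ρ a ∈ B ↔ a ∈ B := fun a => hX.cl_iff hB.cl
  have hgl : ∀ m < n, X.lab (X.g (x m)) ≠ v := by
    intro m hm h1
    rw [hX.lab_g _ (h.glued m hm)] at h1
    have := hX.par _ (h.mem m hm.le)
    rw [h1, h.lab m hm.le] at this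
    omega
  have hgs : ∀ m < n, X.g (x m) ∈ X.star {v} := by
    intro m hm
    rw [← h.back hX hm]
    exact hX.cl_star _ _ (hX.cl_star _ _ (hX.cl_star _ _ (h.gmem_star (by omega))))
  have hFj : ∀ m < n, X.g (x m) ∈ ({x j, X.g (x i)} : Finset S) → m = i := by
    intro m hm h1
    rw [mem_insert, mem_singleton] at h1
    rcases h1 with h1 | h1
    · exact absurd (by rw [h1, h.lab j (by omega)]) (hgl m hm)
    · exact h.inj m hm.le i (by omega) (X.g.injective h1)
  have hFx : ∀ m ≤ n, x m ∈ ({x j, X.g (x i)} : Finset S) → m = j := by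
    intro m hm h1
    rw [mem_insert, mem_singleton] at h1
    rcases h1 with h1 | h1
    · exact h.inj m hm j (by omega) h1
    · exact absurd (by rw [← h1, h.lab m hm]) (hgl i (by omega))
  have hxj : x j ∈ B := hB.F_sub (mem_insert_self _ _)
  have hback : ∀ m < n, (X.g (x m) ∈ B ↔ x (m + 1) ∈ B) := by
    intro m hm
    rw [← h.back hX hm, hrho, hrho, hrho]
  have k1 : ∀ m, i < m → m ≤ j → x m ∈ B := by
    intro m hm1 hm2
    obtain ⟨r, hr⟩ : ∃ r, j = m + r := ⟨j - m, by omega⟩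
    induction r generalizing m with
    | zero => rw [show m = j by omega]; exact hxj
    | succ r ih =>
      have h1 := ih (m + 1) (by omega) (by omega) (by omega)
      rw [← hback m (by omega)] at h1
      by_contra h2
      have h3 := (hB.F_g _ h1).2 (by rw [X.inv]; exact h2)
      have := hFj m (by omega) h3
      omega
  have k2 : ∀ m ≤ i, x m ∉ B := by
    intro m hm
    obtain ⟨r, hr⟩ : ∃ r, i = m + r := ⟨i - m, by omega⟩
    induction r generalizing m with
    | zero => rw [show m = i by omega]; exact hi1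
    | succ r ih =>
      have h1 := ih (m + 1) (by omega) (by omega)
      rw [← hback m (by omega)] at h1
      intro h2
      have h3 := (hB.F_g _ h2).2 h1
      have := hFx m (by omega) h3
      omega
  have k3 : ∀ m, j < m → m ≤ n → x m ∉ B := by
    intro m hm1 hm2
    induction m, hm1 using Nat.le_induction with
    | base =>
      rw [Nat.succ_eq_add_one, ← hback j hj]
      exact hj1
    | succ m hm ih =>
      have h1 := ih (by omega)
      rw [← hback m (by omega)]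
      intro h2
      have h3 := (hB.F_g _ h2).2 (by rw [X.inv]; exact h1)
      have := hFj m (by omega) h3
      omega
  have hmem : ∀ m ≤ n, (x m ∈ B ↔ i < m ∧ m ≤ j) := by
    intro m hm
    constructor
    · intro h1
      constructor
      · by_contra h2
        exact k2 m (by omega) h1
      · by_contra h2
        exact k3 m (by omega) hm h1
    · rintro ⟨h1, h2⟩
      exact k1 m h1 h2
  have hlks : ∀ m, m ≤ 2 * n + 1 → (X.lks x m ∈ B ↔ x (m / 2) ∈ B) := by
    intro m _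
    unfold lks
    split_ifs
    · rw [hrho, hrho]
    · rw [hrho]
  refine ⟨B, hB, hi1, hj1, hc1, hc2, ?_, ?_, hmem⟩
  · have h1 : X.lks x p ∈ B := (hlks p (by omega)).2 (k1 _ (by omega) (by omega))
    refine h.card8 hX hB.cl h1 ?_ (h.lks_star hX (by omega)) hp
    by_contra h2
    have h3 := (hB.F_g _ h1).2 h2
    rw [mem_insert, mem_singleton] at h3
    rcases h3 with h3 | h3
    · rw [h3] at hp
      exact hp (hgs j hj)
    · rw [h3, X.inv] at hp
      exact hp (h.gmem_star (by omega))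
  · have hcl : X.Cl (X.A \ B) := hX.cl_sdiff hX.cl_A hB.cl
    have h1 : X.lks x q ∉ B := by
      rw [hlks q hq2, hmem _ (by omega)]
      omega
    have hsA := (mem_star_iff.1 (h.lks_star hX hq2)).1
    have hgl' := h.out_glued hX hq2 hq
    refine h.card8 hX hcl (mem_sdiff.2 ⟨hsA, h1⟩) (mem_sdiff.2 ⟨hX.g_mem hgl', ?_⟩)
      (h.lks_star hX hq2) hq
    intro h2
    have h3 := (hB.F_g _ h2).2 (by rw [X.inv]; exact h1)
    rw [mem_insert, mem_singleton] at h3
    rcases h3 with h3 | h3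
    · rw [h3] at hq
      exact hq (h.gmem_star (by omega))
    · rw [h3] at hq
      exact hq (hgs i (by omega))

end FanV

/-- a gate between glued link sides is no bridge -/
lemma Min.not_bridge (hX : X.Min) {v n : ℕ} {x : ℕ → S} (h : X.FanV v n x) {i k l : ℕ}
    (hi : i < n) (hk : k ≤ 2 * i + 1) (hl1 : 2 * i + 2 ≤ l) (hl : l ≤ 2 * n + 1)
    (gk : X.g (X.lks x k) ≠ X.lks x k) (gl : X.g (X.lks x l) ≠ X.lks x l) :
    ¬ SameCycle (X.ρ * X.g) (x i) (X.g (x i)) := by
  intro hs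
  have hG := hX.good
  rcases hX.bridge (h.glued i hi) hs with ⟨-, h1, h2, h3⟩ | ⟨-, h1, h2, h3⟩
  · rcases i with - | i
    · have : k = 0 ∨ k = 1 := by omega
      rcases this with rfl | rfl
      · rw [show (0 : ℕ) = 2 * 0 by rfl, lks_even] at gk
        exact gk h2
      · rw [show (1 : ℕ) = 2 * 0 + 1 by rfl, lks_odd] at gk
        exact gk h1
    · rw [h.back hG (by omega), X.inv] at h3
      exact h.glued i (by omega) h3.symm
  · rw [← h.back hG hi, hG.rho4] at h1 h2 h3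
    have hn : i + 1 = n := by
      by_contra hn
      exact h.glued (i + 1) (by omega) h1
    have : l = 2 * (i + 1) ∨ l = 2 * (i + 1) + 1 := by omega
    rcases this with rfl | rfl
    · rw [lks_even] at gl
      exact gl h3
    · rw [lks_odd] at gl
      exact gl h2

/-- **module RUNS**: the star of `v` separates, then there are two gates at `v`, next to free link
sides, whose other ends lie on one hole -/
theorem Min.runs (hX : X.Min) (hpf : X.PF) (hcap : X.AllCap) (hdup : X.AllDup) {v : ℕ}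
    (hv : v ∈ X.labs) (hc : 1 < (X.del {v}).c) :
    ∃ n x i j B, X.FanV v n x ∧ i < j ∧ j < n ∧ X.Part B {x j, X.g (x i)} ∧ x i ∉ B ∧
      X.g (x j) ∉ B ∧ SameCycle (X.ρ * X.g) (x i) (x j) ∧
      SameCycle (X.ρ * X.g) (X.g (x i)) (X.g (x j)) ∧
      ¬ SameCycle (X.ρ * X.g) (x i) (X.g (x i)) ∧
      SameCycle (X.ρ * (X.sub B).g) (x j) (X.g (x i)) ∧
      SameCycle (X.ρ * (X.sub (X.A \ B)).g) (x i) (X.g (x j)) ∧
      8 ≤ B.card ∧ 8 ≤ (X.A \ B).card ∧
      (X.g (X.ρ (x i)) = X.ρ (x i) ∨ X.g (X.ρ (X.ρ (x (i + 1)))) = X.ρ (X.ρ (x (i + 1)))) ∧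
      (X.g (X.ρ (x j)) = X.ρ (x j) ∨ X.g (X.ρ (X.ρ (x (j + 1)))) = X.ρ (X.ρ (x (j + 1)))) ∧
      ∀ m ≤ n, (x m ∈ B ↔ i < m ∧ m ≤ j) := by
  classical
  have hG := hX.good
  obtain ⟨n, x, h⟩ := hG.exists_fanV hpf hv
  have hgc : ∀ a ∈ X.A, ∀ b ∈ X.A, X.gc a b := fun a ha b hb => hG.conn_gc hpf (hX.conn ha hb)
  have hK := hG.cl_star {v}
  -- two classes
  obtain ⟨a, ha, b, hb, hab⟩ : ∃ a ∈ X.A \ X.star {v}, ∃ b ∈ X.A \ X.star {v},
      ¬ (X.del {v}).conn a b := by
    by_contra hcon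
    push Not at hcon
    have h1 : (X.del {v}).c ≤ 1 := by
      rcases (X.del {v}).A.eq_empty_or_nonempty with h2 | h2
      · unfold c
        rw [h2, nc_empty]
        omega
      · refine (nc_eq_one h2 fun s hs t ht => ?_).le
        rw [del_A] at hs ht
        exact hcon s hs t ht
    omega
  have hKne : (X.star {v}).Nonempty := ⟨x 0, h.gmem_star (by omega)⟩
  obtain ⟨a', ha1, ha2, ha3⟩ := hG.exists_outer hgc hK (star_sub_A _) hKne ha
  obtain ⟨b', hb1, hb2, hb3⟩ := hG.exists_outer hgc hK (star_sub_A _) hKne hb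
  obtain ⟨m1, hm1, rfl⟩ := h.out_link hG ha1 (mem_sdiff.1 ha2).2
  obtain ⟨m2, hm2, rfl⟩ := h.out_link hG hb1 (mem_sdiff.1 hb2).2
  have hne : ¬ (X.del {v}).conn (X.g (X.lks x m1)) (X.g (X.lks x m2)) := fun h1 =>
    hab ((X.del {v}).conn.trans ha3 ((X.del {v}).conn.trans h1 ((X.del {v}).conn.symm hb3)))
  -- consecutive outer link sides
  obtain ⟨k, l, hkl, hl, hk, hlo, hf, hq⟩ : ∃ k l, k < l ∧ l ≤ 2 * n + 1 ∧
      X.g (X.lks x k) ∉ X.star {v} ∧ X.g (X.lks x l) ∉ X.star {v} ∧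
      (∀ m, k < m → m < l → X.g (X.lks x m) = X.lks x m) ∧
      ¬ (X.del {v}).conn (X.g (X.lks x k)) (X.g (X.lks x l)) := by
    rcases lt_trichotomy m1 m2 with h1 | h1 | h1
    · exact h.exists_run hG hcap hdup h1 hm2 (mem_sdiff.1 ha2).2 (mem_sdiff.1 hb2).2 hne
    · exact absurd (by rw [h1]) hne
    · exact h.exists_run hG hcap hdup h1 hm1 (mem_sdiff.1 hb2).2 (mem_sdiff.1 ha2).2
        fun h2 => hne ((X.del {v}).conn.symm h2)
  obtain ⟨hlt, hoth⟩ := h.other hG hkl hl hk hlo hf hq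
  have gk := h.out_glued hG (by omega) hk
  have gl := h.out_glued hG hl hlo
  obtain ⟨i, hi, hi1, hi2, hi3, hi4⟩ := h.gate_mid hG (m := k + 1) (by omega) (by omega)
    (hf _ (by omega) hlt)
  have hnb := hX.not_bridge h hi (k := k) (l := l) (by omega) (by omega) hl gk gl
  have hki : SameCycle (X.ρ * X.g) (X.lks x k) (X.g (x i)) :=
    (h.lks_same hG (by omega) (hf _ (by omega) hlt)).trans hi4.symm
  have hno : ¬ SameCycle (X.ρ * X.g) (x 0) (X.lks x k) := fun h1 =>
    hnb ((h.same_cor hG hi.le (by omega)).trans (h1.trans hki))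
  rcases hoth with h1 | ⟨m, hm, hmf, hms, hmkl⟩
  · exact absurd h1 hno
  have hm0 : ¬ (m = 0 ∨ m = 2 * n + 1) := fun h1 =>
    hno ((h.gate_end hG h1 hmf).trans hms.symm)
  obtain ⟨j, hj, hj1, hj2, hj3, hj4⟩ := h.gate_mid hG (m := m) (by omega) (by omega) hmf
  have hgg : SameCycle (X.ρ * X.g) (X.g (x i)) (X.g (x j)) :=
    hki.symm.trans (hms.trans hj4.symm)
  rcases hmkl with hmk | hml
  · -- the other gate comes first
    have hnb' : ¬ SameCycle (X.ρ * X.g) (x j) (X.g (x j)) := fun h1 =>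
      hnb ((h.same_cor hG hi.le hj.le).trans (h1.trans hgg.symm))
    obtain ⟨B, r1, r2, r3, r4, r5, r6, r7, r8⟩ := h.two hG hgc (i := j) (j := i) (by omega) hi hnb'
      hgg.symm (p := k) (q := l) (by omega) (by omega) hk (Or.inr (by omega)) hl hlo
    exact ⟨n, x, j, i, B, h, by omega, hi, r1, r2, r3, h.same_cor hG hj.le hi.le, hgg.symm, hnb',
      r4, r5, r6, r7, hj3, hi3, r8⟩
  · obtain ⟨B, r1, r2, r3, r4, r5, r6, r7, r8⟩ := h.two hG hgc (i := i) (j := j) (by omega) hj hnb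
      hgg (p := l) (q := k) (by omega) (by omega) hlo (Or.inl (by omega)) (by omega) hk
    exact ⟨n, x, i, j, B, h, by omega, hj, r1, r2, r3, h.same_cor hG hi.le hj.le, hgg, hnb,
      r4, r5, r6, r7, hi3, hj3, r8⟩

end Cx

end Pool.Agent.Lib.MP06c549.Z
end

section
/-!
# MP_06c549_co, Z: no three straight cells in a row

After the deletion of the first two cells `S₁`, `S₂` the far partner of `S₁` is glued to the side of
`S₃`.
-/
set_option autoImplicit false
set_option linter.unusedSectionVars false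

namespace Pool.Agent.Lib.MP06c549.Z

open Equiv Equiv.Perm Finset

variable {S : Type} [Fintype S] [DecidableEq S]

namespace Cx

variable {X : Cx S}

/-- a hitting set of `del {v}` that meets the cells of `v` -/
lemma Good.cov_of_del (hX : X.Good) {v : ℕ} {C : Finset ℕ} (h : (X.del {v}).Cov C)
    (h1 : ∀ y ∈ X.cor v, X.lab (X.ρ y) ∈ C ∨ X.lab (X.ρ (X.ρ (X.ρ y))) ∈ C) : X.Cov C := by
  intro x hx
  by_cases h7 : x ∈ X.star {v}
  · have h8 := (mem_star.1 h7).2
    simp only [mem_singleton] at h8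
    have r4 := hX.rho4 x
    rcases h8 with h8 | h8 | h8 | h8
    · rcases h1 x (mem_cor.2 ⟨hx, h8⟩) with h9 | h9
      · exact Or.inr (Or.inl h9)
      · exact Or.inr (Or.inr (Or.inr h9))
    · rcases h1 _ (mem_cor.2 ⟨hX.A_rho _ hx, h8⟩) with h9 | h9
      · exact Or.inr (Or.inr (Or.inl h9))
      · rw [r4] at h9
        exact Or.inl h9
    · rcases h1 _ (mem_cor.2 ⟨hX.A_rho _ (hX.A_rho _ hx), h8⟩) with h9 | h9
      · exact Or.inr (Or.inr (Or.inr h9))
      · rw [r4] at h9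
        exact Or.inr (Or.inl h9)
    · rcases h1 _ (mem_cor.2 ⟨hX.A_rho _ (hX.A_rho _ (hX.A_rho _ hx)), h8⟩) with h9 | h9
      · rw [r4] at h9
        exact Or.inl h9
      · rw [r4] at h9
        exact Or.inr (Or.inr (Or.inl h9))
  · exact h x (by rw [del_A]; exact mem_sdiff.2 ⟨hx, h7⟩)

/-- the cells of a vertex with two corners -/
lemma Good.star_two (hX : X.Good) {v : ℕ} {a b : S} (h : ∀ y ∈ X.cor v, y = a ∨ y = b) {x : S}
    (hx : x ∈ X.star {v}) : x ∈ X.cell a ∨ x ∈ X.cell b := by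
  obtain ⟨hxA, h8⟩ := mem_star.1 hx
  simp only [mem_singleton] at h8
  have key : ∀ y ∈ X.cell x, X.lab y = v → y ∈ X.A → x ∈ X.cell a ∨ x ∈ X.cell b := by
    intro y hy hyv hyA
    have hxy : x ∈ X.cell y := by rw [hX.cell_eq hy]; exact self_mem_cell x
    rcases h y (mem_cor.2 ⟨hyA, hyv⟩) with rfl | rfl
    · exact Or.inl hxy
    · exact Or.inr hxy
  have hcl := hX.cl_cell x
  have m0 := self_mem_cell (X := X) x
  rcases h8 with h8 | h8 | h8 | h8
  · exact key _ m0 h8 hxA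
  · exact key _ (hcl _ m0) h8 (hX.A_rho _ hxA)
  · exact key _ (hcl _ (hcl _ m0)) h8 (hX.A_rho _ (hX.A_rho _ hxA))
  · exact key _ (hcl _ (hcl _ (hcl _ m0))) h8 (hX.A_rho _ (hX.A_rho _ (hX.A_rho _ hxA)))

/-- **no three straight cells in a row** -/
theorem Good.straight3 (hX : X.Good) (hpf : X.PF) (ih : IH X.A.card) {s s' s'' : S}
    (hs : s ∈ X.free) (hs' : s' ∈ X.free) (hs'' : s'' ∈ X.free) (_hr : X.ρ (X.ρ s) ∈ X.free)
    (hr' : X.ρ (X.ρ s') ∈ X.free) (hr'' : X.ρ (X.ρ s'') ∈ X.free) (h1 : X.g (X.ρ s) ≠ X.ρ s)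
    (h2 : X.ρ (X.g (X.ρ s)) = s') (h3 : X.g (X.ρ s') ≠ X.ρ s') (h4 : X.ρ (X.g (X.ρ s')) = s'')
    (hn : X.g (X.ρ (X.ρ (X.ρ s))) ≠ X.ρ (X.ρ (X.ρ s)))
    (hP : (X.del {X.lab s'}).P ≤ 4 * (X.del {X.lab s'}).tau)
    (hF : (X.del {X.lab s'}).tau + 1 ≤ X.tau) : s'' = s := by
  by_contra hne
  obtain ⟨hsA, hsf⟩ := mem_free.1 hs
  obtain ⟨hsA', hsf'⟩ := mem_free.1 hs'
  obtain ⟨hsA'', hsf''⟩ := mem_free.1 hs''
  obtain ⟨-, hrf'⟩ := mem_free.1 hr'
  obtain ⟨-, hrf''⟩ := mem_free.1 hr''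
  have r4 := hX.rho4
  -- the two gates
  have e1 : X.g (X.ρ s) = X.ρ (X.ρ (X.ρ s')) := by rw [← h2, r4]
  have e2 : X.g (X.ρ s') = X.ρ (X.ρ (X.ρ s'')) := by rw [← h4, r4]
  have e2' : X.g (X.ρ (X.ρ (X.ρ s''))) = X.ρ s' := by rw [← e2, X.inv]
  -- labels
  have l2 : X.lab s' = X.lab (X.ρ s) := by rw [← h2, hX.lab_g' h1]
  have l3 : X.lab s'' = X.lab (X.ρ s') := by rw [← h4, hX.lab_g' h3]
  have l3' : X.lab (X.ρ (X.ρ (X.ρ s''))) = X.lab (X.ρ (X.ρ s')) := by
    rw [← e2, hX.lab_g _ h3]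
  have l2' : X.lab (X.ρ (X.ρ (X.ρ s'))) = X.lab (X.ρ (X.ρ s)) := by
    rw [← e1, hX.lab_g _ h1]
  have p1 := hX.par s hsA
  have p2 := hX.par _ (hX.A_rho _ hsA)
  have p3 := hX.par _ (hX.A_rho _ (hX.A_rho _ hsA))
  have q1 := hX.par s' hsA'
  have q2 := hX.par _ (hX.A_rho _ hsA')
  have q3 := hX.par _ (hX.A_rho _ (hX.A_rho _ hsA'))
  have t1 := hX.par s'' hsA''
  -- the fan at `lab s'`
  have hcor : ∀ y ∈ X.cor (X.lab s'), y = X.ρ s ∨ y = s' := by
    obtain ⟨k, k1, k2, k3, k4, k5⟩ := hX.fan hpf hs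
    have hk : k ≤ 1 := by
      by_contra hk
      refine k2 1 (by omega) ?_
      rw [pow_one, sg_apply, h2]
      exact hs'
    intro y hy
    rw [l2] at hy
    obtain ⟨j, hj, rfl⟩ := k4 y hy
    have hj' : j = 0 ∨ j = 1 := by omega
    rcases hj' with rfl | rfl
    · left
      rw [pow_zero, Perm.one_apply]
    · right
      rw [pow_one, sg_apply, h2]
  -- the fan at `lab t`, `t = ρ³ s''`
  have hcor' : ∀ y ∈ X.cor (X.lab (X.ρ (X.ρ (X.ρ s'')))), y = X.ρ (X.ρ (X.ρ s'')) ∨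
      y = X.ρ (X.ρ s') := by
    obtain ⟨k, k1, k2, k3, k4, k5⟩ := hX.fan hpf hr''
    have hstep : X.sg (X.ρ (X.ρ (X.ρ s''))) = X.ρ (X.ρ s') := by rw [sg_apply, e2']
    have hk : k ≤ 1 := by
      by_contra hk
      refine k2 1 (by omega) ?_
      rw [pow_one, hstep]
      exact hr'
    intro y hy
    obtain ⟨j, hj, rfl⟩ := k4 y hy
    have hj' : j = 0 ∨ j = 1 := by omega
    rcases hj' with rfl | rfl
    · left
      rw [pow_zero, Perm.one_apply]
    · right
      rw [pow_one, hstep]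
  set v := X.lab s' with hv
  set B := X.star {v} with hBdef
  have hB : X.Cl B := hX.cl_star {v}
  set D := X.A \ B with hDdef
  have hD : X.Cl D := hX.cl_sdiff hX.cl_A hB
  have hBD : Disjoint B D := disjoint_sdiff
  have hmem : ∀ x ∈ B, x ∈ X.cell s ∨ x ∈ X.cell s' := by
    intro x hx
    rcases hX.star_two hcor hx with h | h
    · left
      rwa [hX.cell_eq (hX.cl_cell s _ (self_mem_cell s))] at h
    · exact Or.inr h
  have m0' : s' ∈ B := mem_star.2 ⟨hsA', Or.inl (mem_singleton_self _)⟩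
  have m1' : X.ρ s' ∈ B := hB _ m0'
  have m3' : X.ρ (X.ρ (X.ρ s')) ∈ B := hB _ (hB _ m1')
  have m1 : X.ρ s ∈ B := mem_star.2 ⟨hX.A_rho _ hsA, Or.inl (by rw [mem_singleton]; exact l2.symm)⟩
  have m3 : X.ρ (X.ρ (X.ρ s)) ∈ B := hB _ (hB _ m1)
  have m0 : s ∈ B := (hX.cl_iff hB).1 m1
  -- the two sides
  set w := X.g (X.ρ (X.ρ (X.ρ s))) with hw
  set t := X.ρ (X.ρ (X.ρ s'')) with ht
  have gw : X.g w = X.ρ (X.ρ (X.ρ s)) := by rw [hw, X.inv]
  have gwne : X.g w ≠ w := by rw [gw]; exact hn.symm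
  have gt : X.g t = X.ρ s' := e2'
  have gtne : X.g t ≠ t := by rw [gt, ← e2]; exact h3.symm
  have hwA : w ∈ X.A := hX.A_g w gwne
  have htA : t ∈ X.A := hX.A_g t gtne
  have c3 : X.ρ (X.ρ (X.ρ s)) ∈ X.cell s := by
    rw [mem_cell]
    exact Or.inr (Or.inr (Or.inr rfl))
  have c1' : X.ρ s' ∈ X.cell s' := by
    rw [mem_cell]
    exact Or.inr (Or.inl rfl)
  have hwB : w ∉ B := by
    intro h
    rcases hmem w h with h | h
    · exact hX.g_notMem_cell c3 hn h
    · rcases mem_cell.1 h with h | h | h | h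
      · exact gwne (by rw [h]; exact hsf')
      · have h5 := gw
        rw [h, e2] at h5
        exact hne (X.ρ.injective (X.ρ.injective (X.ρ.injective h5)))
      · exact gwne (by rw [h]; exact hrf')
      · have h5 := gw
        rw [h, ← e1, X.inv] at h5
        exact hX.rho2 _ h5.symm
  have htB : t ∉ B := by
    intro h
    rcases hmem t h with h | h
    · rcases mem_cell.1 h with h | h | h | h
      · exact gtne (by rw [h]; exact hsf)
      · have h5 := gt
        rw [h, e1] at h5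
        exact hX.rho2 _ h5
      · exact gtne (by rw [h]; exact (mem_free.1 _hr).2)
      · exact hne (X.ρ.injective (X.ρ.injective (X.ρ.injective h)))
    · have h5 := hX.g_notMem_cell c1' h3
      rw [e2] at h5
      exact h5 h
  have hwD : w ∈ D := mem_sdiff.2 ⟨hwA, hwB⟩
  have htD : t ∈ D := mem_sdiff.2 ⟨htA, htB⟩
  -- labels of the two sides
  have lw : X.lab w = X.lab s := by rw [hw, hX.lab_g _ hn, r4]
  have lw' : X.lab (X.ρ w) = X.lab (X.ρ (X.ρ (X.ρ s))) := by rw [hw, hX.lab_g' hn]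
  have lt' : X.lab (X.ρ t) = X.lab s'' := by rw [ht, r4]
  have hwt : w ≠ t := by
    intro h
    have h5 : X.lab w = X.lab t := by rw [h]
    rw [lw, l3'] at h5
    omega
  -- the complex `Y`
  have hY := hX.sub hD
  have hYA : (X.sub D).A = D := by
    change X.A ∩ D = D
    exact inter_eq_right.2 sdiff_subset
  have hlt : (X.sub D).A.card < X.A.card := by
    rw [hYA]
    exact card_lt_card ⟨sdiff_subset, fun h => (mem_sdiff.1 (h hsA)).2 m0⟩
  have hYw : (X.sub D).g w = w := by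
    rw [sub_g, if_neg fun h => disjoint_left.1 hBD (gw ▸ m3) h.2]
  have hYt : (X.sub D).g t = t := by
    rw [sub_g, if_neg fun h => disjoint_left.1 hBD (gt ▸ m1') h.2]
  have hgl : Gl X.ρ (X.sub D).g w t := by
    refine hX.region_sub hB hBD hwt hwB htB (by rw [gw]; exact m3) (by rw [gt]; exact m1') ?_
    rw [gw, gt]
    have s1 : stepIn X.ρ X.g B (X.ρ (X.ρ (X.ρ s))) s := ⟨m0, Or.inl (r4 s).symm⟩
    have s2 : stepIn X.ρ X.g B s (X.ρ s) := ⟨m1, Or.inl rfl⟩
    have s3 : stepIn X.ρ X.g B (X.ρ s) (X.ρ (X.ρ (X.ρ s'))) := ⟨m3', Or.inr e1.symm⟩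
    have s4 : stepIn X.ρ X.g B (X.ρ (X.ρ (X.ρ s'))) s' := ⟨m0', Or.inl (r4 s').symm⟩
    have s5 : stepIn X.ρ X.g B s' (X.ρ s') := ⟨m1', Or.inl rfl⟩
    exact ((((Relation.ReflTransGen.single s1).tail s2).tail s3).tail s4).tail s5
  have hYle : ∀ x, X.g x = x → (X.sub D).g x = x := by
    intro x hx
    rw [sub_g]
    split_ifs
    · exact hx
    · rfl
  have n1 : s'' ≠ w := fun h => gwne (by rw [← h]; exact hsf'')
  have n2 : s'' ≠ t := fun h => gtne (by rw [← h]; exact hsf'')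
  have n3 : X.ρ (X.ρ s'') ≠ w := fun h => gwne (by rw [← h]; exact hrf'')
  have n4 : X.ρ (X.ρ s'') ≠ t := fun h => gtne (by rw [← h]; exact hrf'')
  have hl1 : ∃ y, SameCycle (X.ρ * ((X.sub D).g * swap w t)) w y ∧
      ((X.sub D).g * swap w t) y = y := by
    refine ⟨s'', ⟨1, ?_⟩, ?_⟩
    · rw [zpow_one, Perm.mul_apply, Perm.mul_apply, swap_apply_left, hYt, ht, r4]
    · rw [Perm.mul_apply, swap_apply_of_ne_of_ne n1 n2, hYle _ hsf'']
  have hl2 : ∃ y, SameCycle (X.ρ * ((X.sub D).g * swap w t)) t y ∧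
      ((X.sub D).g * swap w t) y = y := by
    refine ⟨X.ρ (X.ρ s''), SameCycle.symm ⟨1, ?_⟩, ?_⟩
    · rw [zpow_one, Perm.mul_apply, Perm.mul_apply, swap_apply_of_ne_of_ne n3 n4, hYle _ hrf'']
    · rw [Perm.mul_apply, swap_apply_of_ne_of_ne n3 n4, hYle _ hrf'']
  -- the first identification
  have hM := hY.merge (x := X.lab (X.ρ w)) (y := X.lab t) (by rw [lw', l3']; omega)
  have hlM : ((X.sub D).merge (X.lab (X.ρ w)) (X.lab t)).lab t =
      ((X.sub D).merge (X.lab (X.ρ w)) (X.lab t)).lab (X.ρ w) := by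
    change idf _ _ (X.lab t) = idf _ _ (X.lab (X.ρ w))
    unfold idf
    rw [if_pos rfl]
    split_ifs <;> rfl
  obtain ⟨C, hC1, hC2⟩ := hM.glue_cov' (n := X.A.card) ih hlt hYw hYt hwt
    (by rw [merge_A, hYA]; exact hwD) (by rw [merge_A, hYA]; exact htD) hlM hgl hl1 hl2
  have hC3 : C.card < (X.del {v}).tau := by
    have h5 := (X.sub D).merge_P_le (X.lab (X.ρ w)) (X.lab t)
    have h6 : (X.sub D).P ≤ 4 * (X.del {v}).tau := hP
    have h7 : (C.card : ℤ) < (X.del {v}).tau := by linarith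
    exact_mod_cast h7
  -- covering the deleted cells
  have hcov : ∀ C' : Finset ℕ, (X.sub D).Cov C' → C'.card < X.tau →
      (X.lab s ∈ C' ∨ X.lab (X.ρ (X.ρ (X.ρ s))) ∈ C') →
      (X.lab s'' ∈ C' ∨ X.lab t ∈ C') → False := by
    intro C' h5 h6 h7 h8
    have h9 : X.Cov C' := by
      intro x hx
      by_cases hxB : x ∈ B
      · rcases hmem x hxB with h | h
        · rcases mem_cell.1 h with h10 | h10 | h10 | h10 <;> rw [h10]
          · exact h7.elim Or.inl fun k => Or.inr (Or.inr (Or.inr k))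
          · rw [r4]
            exact h7.elim (fun k => Or.inr (Or.inr (Or.inr k))) fun k => Or.inr (Or.inr (Or.inl k))
          · rw [r4]
            exact h7.elim (fun k => Or.inr (Or.inr (Or.inl k))) fun k => Or.inr (Or.inl k)
          · rw [r4]
            exact h7.elim (fun k => Or.inr (Or.inl k)) Or.inl
        · rw [l3, l3'] at h8
          rcases mem_cell.1 h with h10 | h10 | h10 | h10 <;> rw [h10]
          · exact h8.elim (fun k => Or.inr (Or.inl k)) fun k => Or.inr (Or.inr (Or.inl k))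
          · exact h8.elim Or.inl fun k => Or.inr (Or.inl k)
          · rw [r4]
            exact h8.elim (fun k => Or.inr (Or.inr (Or.inr k))) Or.inl
          · rw [r4]
            exact h8.elim (fun k => Or.inr (Or.inr (Or.inl k))) fun k => Or.inr (Or.inr (Or.inr k))
      · exact h5 x (by rw [hYA]; exact mem_sdiff.2 ⟨hx, hxB⟩)
    have := tau_le h9
    omega
  have lM : ((X.sub D).merge (X.lab (X.ρ w)) (X.lab t)).lab w = X.lab s := by
    change idf _ _ (X.lab w) = _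
    unfold idf
    rw [lw, if_neg]
    intro h
    rw [l3'] at h
    omega
  have lM' : ((X.sub D).merge (X.lab (X.ρ w)) (X.lab t)).lab
      (((X.sub D).merge (X.lab (X.ρ w)) (X.lab t)).ρ t) = X.lab s'' := by
    change idf _ _ (X.lab (X.ρ t)) = _
    unfold idf
    rw [lt', if_neg]
    intro h
    rw [l3'] at h
    omega
  rw [lM, lM'] at hC2
  rcases hC2 with hC2 | ⟨hC2, hC4⟩
  · rcases merge_cov hC2 with h5 | ⟨h5, h6⟩
    · have := tau_le h5
      have h7 : (X.sub D).tau = (X.del {v}).tau := rfl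
      omega
    · have h7 := card_insert_le (X.lab t) C
      refine hcov _ h6 (by omega) (Or.inr ?_) (Or.inr (mem_insert_self _ _))
      rw [← lw']
      exact mem_insert_of_mem h5
  · have h7 := card_insert_le (X.lab s'') C
    rcases merge_cov hC4 with h5 | ⟨h5, h6⟩
    · exact hcov _ h5 (by omega) (Or.inl (mem_insert_of_mem hC2)) (Or.inl (mem_insert_self _ _))
    · refine hcov (insert (X.lab s'') C) ?_ (by omega) (Or.inl (mem_insert_of_mem hC2))
        (Or.inl (mem_insert_self _ _))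
      -- only the cells of `s''` and `s'` contain `lab t`
      have key : ∀ x ∈ D, X.lab x ∈ insert (X.lab t) (insert (X.lab s'') C) →
          X.lab x ∈ insert (X.lab s'') C ∨ x = t := by
        intro x hx h8
        rcases mem_insert.1 h8 with h9 | h9
        · rcases hcor' x (mem_cor.2 ⟨(mem_sdiff.1 hx).1, h9⟩) with h10 | h10
          · exact Or.inr h10
          · exfalso
            rw [h10] at hx
            exact (mem_sdiff.1 hx).2 (hB _ m1')
        · exact Or.inl h9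
      have hs3 : X.lab (X.ρ t) ∈ insert (X.lab s'') C := by
        rw [lt']
        exact mem_insert_self _ _
      intro x hx
      have hxD : x ∈ D := by rw [hYA] at hx; exact hx
      change X.lab x ∈ _ ∨ X.lab (X.ρ x) ∈ _ ∨ X.lab (X.ρ (X.ρ x)) ∈ _ ∨
        X.lab (X.ρ (X.ρ (X.ρ x))) ∈ _
      rcases h6 x hx with h8 | h8 | h8 | h8
      · rcases key x hxD h8 with h9 | h9
        · exact Or.inl h9
        · right; left
          rw [h9]
          exact hs3
      · rcases key _ (hD _ hxD) h8 with h9 | h9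
        · exact Or.inr (Or.inl h9)
        · right; right; left
          rw [h9]
          exact hs3
      · rcases key _ (hD _ (hD _ hxD)) h8 with h9 | h9
        · exact Or.inr (Or.inr (Or.inl h9))
        · right; right; right
          rw [h9]
          exact hs3
      · rcases key _ (hD _ (hD _ (hD _ hxD))) h8 with h9 | h9
        · exact Or.inr (Or.inr (Or.inr h9))
        · left
          rw [← h9, r4] at hs3
          exact hs3

end Cx

end Pool.Agent.Lib.MP06c549.Z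
end
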